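import Mathlib

set_option autoImplicit false

/-!
# Rooted trees, their graphs, and the local data used for the Laplacian energy (MP_2c6e0f_co)

`B` is the type of rooted (plane) trees: `one` is a single vertex, `graft a c` is obtained from `a` by
attaching the root of `c` as a new child of the root of `a`.
-/

namespace Pool.Agent.H59

/-- Rooted plane trees. -/
inductive B : Type
  | one : B
  | graft : B → B → B

namespace B

/-- Number of vertices. -/
def size : B → ℕ
  | one => 1
  | graft a c => size a + size c

/-- The list of the subtrees hanging at the children of the root. -/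
def children : B → List B
  | one => []
  | graft a c => c :: children a

/-- The path with `n + 1` vertices, rooted at an end. -/
def leg : ℕ → B
  | 0 => one
  | n + 1 => graft one (leg n)

/-- The vertex type. -/
def V : B → Type
  | one => Unit
  | graft a c => V a ⊕ V c

/-- The root vertex. -/
def root : (b : B) → V b
  | one => ()
  | graft a _ => Sum.inl (root a)

instance instFintypeV : (b : B) → Fintype (V b)
  | one => inferInstanceAs (Fintype Unit)
  | graft a c =>
    have := instFintypeV a
    have := instFintypeV c
    inferInstanceAs (Fintype (V a ⊕ V c))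

instance instDecidableEqV : (b : B) → DecidableEq (V b)
  | one => inferInstanceAs (DecidableEq Unit)
  | graft a c =>
    have := instDecidableEqV a
    have := instDecidableEqV c
    inferInstanceAs (DecidableEq (V a ⊕ V c))

/-- Adjacency of the underlying graph. -/
def adj : (b : B) → V b → V b → Prop
  | one => fun _ _ => False
  | graft a c => fun x y =>
    match x, y with
    | Sum.inl u, Sum.inl v => adj a u v
    | Sum.inr u, Sum.inr v => adj c u v
    | Sum.inl u, Sum.inr v => u = root a ∧ v = root c
    | Sum.inr v, Sum.inl u => u = root a ∧ v = root c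

theorem adj_symm : (b : B) → ∀ x y : V b, adj b x y → adj b y x
  | one => fun _ _ h => h
  | graft a c => fun x y h =>
    match x, y, h with
    | Sum.inl _, Sum.inl _, h => adj_symm a _ _ h
    | Sum.inr _, Sum.inr _, h => adj_symm c _ _ h
    | Sum.inl _, Sum.inr _, h => h
    | Sum.inr _, Sum.inl _, h => h

theorem adj_irrefl : (b : B) → ∀ x : V b, ¬ adj b x x
  | one => fun _ h => h
  | graft a c => fun x h =>
    match x, h with
    | Sum.inl _, h => adj_irrefl a _ h
    | Sum.inr _, h => adj_irrefl c _ h

/-- The underlying graph. -/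
def graph (b : B) : SimpleGraph (V b) where
  Adj := adj b
  symm := ⟨adj_symm b⟩
  loopless := ⟨fun x h => adj_irrefl b x h⟩

/-- Greedy matching data: `(free, d)`; `free` says that the root is not yet matched (no child is
free), `d` counts the vertices strictly inside that stay unmatched. -/
def fd : B → Bool × ℕ
  | one => (true, 0)
  | graft a c =>
    match (fd c).1, (fd a).1 with
    | true, true => (false, (fd a).2 + (fd c).2)
    | true, false => (false, (fd a).2 + (fd c).2 + 1)
    | false, f => (f, (fd a).2 + (fd c).2)

/-- Number of vertices missed by the greedy matching. -/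
def dfc (b : B) : ℕ := (fd b).2 + (if (fd b).1 then 1 else 0)

end B

/-- The parameter `q = 1/t`, with `t - 1/t = x`. -/
noncomputable def qq (x : ℝ) : ℝ := (Real.sqrt (x ^ 2 + 4) - x) / 2

namespace B

/-- Local data `(α, β, m)` of a rooted tree, for the parameter `q` (`s = q ^ 2`). -/
noncomputable def st (q : ℝ) : B → ℝ × ℝ × ℝ
  | one => (-2 * q, 1 - q ^ 2, 1)
  | graft a c =>
    let A := st q a
    let C := st q c
    let D := (C.1 + q) ^ 2 + C.2.1 ^ 2
    (A.1 + q - q ^ 2 * (C.1 + q) / D, A.2.1 + q ^ 2 * C.2.1 / D, A.2.2 * (C.2.2 * D))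

/-- The value for the whole tree. -/
noncomputable def F (q : ℝ) (b : B) : ℝ := (st q b).2.2 * ((st q b).1 ^ 2 + (st q b).2.1 ^ 2)

end B

/-- The Laplacian spectrum (with multiplicity), with classical instances. -/
noncomputable def lapSpec {V : Type} [Fintype V] (G : SimpleGraph V) : Multiset ℝ :=
  letI := Classical.decEq V
  letI : DecidableRel G.Adj := Classical.decRel _
  (G.lapMatrix ℝ).charpoly.roots

/-- `(det (L - (2 + w)), minor of the root)`. -/
noncomputable def Dc (w : ℂ) : B → ℂ × ℂ
  | B.one => (-2 - w, 1)
  | B.graft a c =>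
    (((Dc w a).1 + (Dc w a).2) * ((Dc w c).1 + (Dc w c).2) - (Dc w a).2 * (Dc w c).2,
      (Dc w a).2 * ((Dc w c).1 + (Dc w c).2))

/-- `f` is a combination of `log (x^2 + a^2)` and `log t`, bounded suitably at infinity, and `g` is
its mean `(1/π) ∫₀^∞ f`. -/
def LG (f : ℝ → ℝ) (g : ℝ) : Prop :=
  ∃ L : List (ℝ × ℝ), (∀ p ∈ L, 0 ≤ p.2) ∧
    (∀ x : ℝ, 0 < x → f x = (L.map (fun p => p.1 * Real.log (x ^ 2 + p.2 ^ 2))).sum
      - 2 * (L.map Prod.fst).sum * Real.log ((x + Real.sqrt (x ^ 2 + 4)) / 2)) ∧
    g = (L.map (fun p => p.1 * p.2)).sum - 4 * (L.map Prod.fst).sum / Real.pi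

end Pool.Agent.H59
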