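import Mathlib
import Pool.Agent.H59.Defs

set_option autoImplicit false

/-!
# Local potentials
-/

namespace Pool.Agent.H59

noncomputable def e1 (s : ℝ) : ℝ := s * (1 - s) / (1 - s + s ^ 2)

noncomputable def E2 (s : ℝ) : ℝ := s / (1 - s)

/-- The normalised potential of a branch with parameters `(η, γ)`. -/
noncomputable def psi (s : ℝ) (p : ℝ × ℝ) : ℝ :=
  min (1 + p.1) (((1 - s) + (3 - s) * p.1 + 2 * (p.1 ^ 2 + p.2 ^ 2)) / (1 + s))

/-- The potential after a join. -/
noncomputable def Jn (s a h : ℝ) : ℝ :=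
  min (a ^ 2 + h ^ 2 + s * h) (((1 - s) * (a ^ 2 + h ^ 2) + (3 - s) * (s * h) + 2 * s ^ 2) / (1 + s))

/-- All branches. -/
def ClsD (s : ℝ) (p : ℝ × ℝ) : Prop := (1 - s) * (p.1 ^ 2 + p.2 ^ 2) ≤ s * p.1

/-- Branches whose root has exactly one child. -/
def Cls2 (s : ℝ) (p : ℝ × ℝ) : Prop := p.2 ^ 2 ≤ (p.1 - e1 s) * (E2 s - p.1)

/-- A single vertex. -/
def Leaf (q : ℝ) (p : ℝ × ℝ) : Prop :=
  p.1 = e1 (q ^ 2) ∧ p.2 = -(q * q ^ 2 / (1 - q ^ 2 + (q ^ 2) ^ 2))

/-- Pending paths. -/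
def PathL (s : ℝ) (p : ℝ × ℝ) : Prop :=
  e1 s ≤ p.1 ∧ p.1 ≤ s ∧ p.2 ^ 2 = (s - p.1) * (1 + p.1)

/-- Pending paths with an odd number of vertices. -/
def OddL (s : ℝ) (p : ℝ × ℝ) : Prop := PathL s p ∧ p.2 ≤ 0

namespace B

noncomputable def den (q : ℝ) (b : B) : ℝ := ((st q b).1 + q) ^ 2 + (st q b).2.1 ^ 2

noncomputable def eg (q : ℝ) (b : B) : ℝ × ℝ :=
  (q ^ 2 * (st q b).2.1 / den q b, q ^ 2 * ((st q b).1 + q) / den q b)

noncomputable def mm (q : ℝ) (b : B) : ℝ := (st q b).2.2 * den q b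

noncomputable def Mv (q : ℝ) (b : B) : ℝ := mm q b * psi (q ^ 2) (eg q b)

theorem st_graft (q : ℝ) (a c : B) :
    st q (graft a c) = ((st q a).1 + q - (eg q c).2, (st q a).2.1 + (eg q c).1,
      (st q a).2.2 * mm q c) := rfl

theorem st_eq (q : ℝ) : (b : B) → st q b =
    ((((b.children.length : ℝ) - 2) * q - (b.children.map (fun c => (eg q c).2)).sum),
      (1 - q ^ 2) + (b.children.map (fun c => (eg q c).1)).sum,
      (b.children.map (mm q)).prod)
  | one => by simp [st, children]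
  | graft a c => by
    rw [st_graft, st_eq q a]
    simp only [children, List.length_cons, List.map_cons, List.sum_cons, List.prod_cons,
      Nat.cast_add, Nat.cast_one]
    refine Prod.ext ?_ (Prod.ext ?_ ?_) <;> simp only <;> ring

theorem beta_ge {q : ℝ} (hq0 : 0 < q) (hq1 : q < 1) :
    (b : B) → 1 - q ^ 2 ≤ (st q b).2.1 ∧ 0 < (st q b).2.2
  | one => by simp [st]
  | graft a c => by
    have ha := beta_ge hq0 hq1 a
    have hc := beta_ge hq0 hq1 c
    have h1 : 0 < 1 - q ^ 2 := by nlinarith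
    have hd : 0 < den q c := by
      have : 0 < (st q c).2.1 := by linarith
      unfold den; positivity
    rw [st_graft]
    constructor
    · have : 0 ≤ (eg q c).1 := by
        have : 0 < (st q c).2.1 := by linarith
        unfold eg; positivity
      simp only
      linarith
    · have : 0 < mm q c := mul_pos hc.2 hd
      exact mul_pos ha.2 this

variable {q : ℝ}

theorem den_pos (hq0 : 0 < q) (hq1 : q < 1) (b : B) : 0 < den q b := by
  have h := beta_ge hq0 hq1 b
  have h1 : 0 < 1 - q ^ 2 := by nlinarith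
  have : 0 < (st q b).2.1 := by linarith
  unfold den; positivity

theorem mm_pos (hq0 : 0 < q) (hq1 : q < 1) (b : B) : 0 < mm q b :=
  mul_pos (beta_ge hq0 hq1 b).2 (den_pos hq0 hq1 b)

theorem clsD (hq0 : 0 < q) (hq1 : q < 1) (b : B) : ClsD (q ^ 2) (eg q b) := by
  have hd := den_pos hq0 hq1 b
  have hb := (beta_ge hq0 hq1 b).1
  have h1 : 0 < 1 - q ^ 2 := by nlinarith
  unfold ClsD eg
  simp only
  have : (q ^ 2 * (st q b).2.1 / den q b) ^ 2 + (q ^ 2 * ((st q b).1 + q) / den q b) ^ 2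
      = q ^ 4 / den q b := by
    rw [div_pow, div_pow, ← add_div]
    have : (q ^ 2 * (st q b).2.1) ^ 2 + (q ^ 2 * ((st q b).1 + q)) ^ 2 = q ^ 4 * den q b := by
      unfold den; ring
    rw [this]
    field_simp
  rw [this, ← mul_div_assoc, ← mul_div_assoc]
  apply div_le_div_of_nonneg_right _ hd.le
  nlinarith [pow_pos hq0 4]

theorem ClsD.nonneg {s : ℝ} (hs0 : 0 < s) (hs1 : s < 1) {p : ℝ × ℝ} (h : ClsD s p) : 0 ≤ p.1 := by
  unfold ClsD at h
  have : 0 ≤ s * p.1 := le_trans (by have : 0 < 1 - s := by linarith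
                                     positivity) h
  exact nonneg_of_mul_nonneg_right this hs0

theorem psi_pos (hq0 : 0 < q) (hq1 : q < 1) (b : B) : 0 < psi (q ^ 2) (eg q b) := by
  have h1 : 0 < 1 - q ^ 2 := by nlinarith
  have h0 : 0 < q ^ 2 := by positivity
  have h := ClsD.nonneg h0 (by linarith) (clsD hq0 hq1 b)
  unfold psi
  apply lt_min
  · linarith
  · apply div_pos _ (by linarith)
    have : 0 ≤ (3 - q ^ 2) * (eg q b).1 := mul_nonneg (by linarith) h
    positivity

theorem Mv_pos (hq0 : 0 < q) (hq1 : q < 1) (b : B) : 0 < Mv q b :=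
  mul_pos (mm_pos hq0 hq1 b) (psi_pos hq0 hq1 b)

/-- `M` of a branch in terms of its children. -/
theorem Mv_eq (hq0 : 0 < q) (hq1 : q < 1) (b : B) :
    Mv q b = (b.children.map (mm q)).prod * Jn (q ^ 2) ((st q b).1 + q) (st q b).2.1 := by
  have hd := den_pos hq0 hq1 b
  have h1 : 0 < 1 + q ^ 2 := by positivity
  have hm : (b.children.map (mm q)).prod = (st q b).2.2 := by rw [st_eq q b]
  rw [hm]
  unfold Mv mm
  rw [mul_assoc]
  congr 1
  unfold psi Jn
  rw [mul_min_of_nonneg _ _ hd.le]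
  congr 1
  · unfold eg
    simp only
    field_simp
    unfold den
    ring
  · have hs : (eg q b).1 ^ 2 + (eg q b).2 ^ 2 = q ^ 4 / den q b := by
      unfold eg
      simp only
      rw [div_pow, div_pow, ← add_div]
      have : (q ^ 2 * (st q b).2.1) ^ 2 + (q ^ 2 * ((st q b).1 + q)) ^ 2 = q ^ 4 * den q b := by
        unfold den; ring
      rw [this]
      field_simp
    rw [hs]
    unfold eg
    simp only
    field_simp
    unfold den
    ring

/-- The whole tree in terms of the children of the root. -/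
theorem F_eq (b : B) :
    F q b = (b.children.map (mm q)).prod * ((st q b).1 ^ 2 + (st q b).2.1 ^ 2) := by
  have hm : (b.children.map (mm q)).prod = (st q b).2.2 := by rw [st_eq q b]
  rw [hm]; rfl

theorem leaf_one (hq0 : 0 < q) (hq1 : q < 1) : Leaf q (eg q one) := by
  have h : 0 < 1 - q ^ 2 := by nlinarith
  have h1 : 0 < 1 - q ^ 2 + (q ^ 2) ^ 2 := by positivity
  have h2 : den q one = 1 - q ^ 2 + (q ^ 2) ^ 2 := by simp [den, st]; ring
  constructor
  · unfold eg e1
    rw [h2]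
    simp [st]
  · unfold eg
    rw [h2]
    simp only [st]
    rw [← neg_div]
    congr 1
    ring

theorem PathL.clsD {s : ℝ} (hs0 : 0 < s) (hs1 : s < 1) {p : ℝ × ℝ} (h : PathL s p) : ClsD s p := by
  obtain ⟨h1, h2, h3⟩ := h
  unfold ClsD
  have h4 : 0 < 1 - s := by linarith
  have h5 : 0 < 1 - s + s ^ 2 := by positivity
  unfold e1 at h1
  rw [div_le_iff₀ h5] at h1
  rw [h3]
  nlinarith

theorem Leaf.pathL (hq0 : 0 < q) (hq1 : q < 1) {p : ℝ × ℝ} (h : Leaf q p) :
    PathL (q ^ 2) p := by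
  have h' : 0 < 1 - q ^ 2 := by nlinarith
  have h1 : 0 < 1 - q ^ 2 + (q ^ 2) ^ 2 := by positivity
  obtain ⟨h2, h3⟩ := h
  refine ⟨h2.ge, ?_, ?_⟩
  · rw [h2]
    unfold e1
    rw [div_le_iff₀ h1]
    nlinarith [pow_pos hq0 2, pow_pos hq0 4, pow_pos hq0 6]
  · rw [h2, h3]
    unfold e1
    field_simp
    ring

theorem Leaf.oddL (hq0 : 0 < q) (hq1 : q < 1) {p : ℝ × ℝ} (h : Leaf q p) : OddL (q ^ 2) p := by
  have h' : 0 < 1 - q ^ 2 := by nlinarith
  refine ⟨Leaf.pathL hq0 hq1 h, ?_⟩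
  rw [h.2]
  have : 0 < q * q ^ 2 / (1 - q ^ 2 + (q ^ 2) ^ 2) := by positivity
  linarith

/-- One child. -/
theorem st_ext (c : B) : st q (graft one c) = (- q - (eg q c).2, (1 - q ^ 2) + (eg q c).1, mm q c) := by
  rw [st_graft]
  simp only [st, one_mul]
  refine Prod.ext ?_ rfl
  simp only
  ring

theorem den_ext (c : B) :
    den q (graft one c) = (eg q c).2 ^ 2 + ((1 - q ^ 2) + (eg q c).1) ^ 2 := by
  unfold den
  rw [st_ext]
  simp only
  ring

theorem cls2_ext (hq0 : 0 < q) (hq1 : q < 1) (c : B) : Cls2 (q ^ 2) (eg q (graft one c)) := by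
  have hD := clsD hq0 hq1 c
  have hd := den_pos hq0 hq1 (graft one c)
  have hde := den_ext (q := q) c
  have hη := ClsD.nonneg (by positivity) (by nlinarith) hD
  unfold ClsD at hD
  unfold Cls2
  have e : eg q (graft one c) = (q ^ 2 * ((1 - q ^ 2) + (eg q c).1) / den q (graft one c),
      q ^ 2 * (- (eg q c).2) / den q (graft one c)) := by
    conv_lhs => unfold eg
    rw [st_ext]
    simp only
    congr 2
    ring
  rw [e]
  simp only
  generalize hX : den q (graft one c) = X at *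
  generalize hs : q ^ 2 = s at *
  generalize (eg q c).1 = η at *
  generalize (eg q c).2 = γ at *
  have hs0 : 0 < s := by rw [← hs]; positivity
  have hs1 : 0 < 1 - s := by rw [← hs]; nlinarith
  have hdd : 0 < 1 - s + s ^ 2 := by positivity
  unfold e1 E2
  have key : (s * (1 - s + η) / X - s * (1 - s) / (1 - s + s ^ 2)) * (s / (1 - s) - s * (1 - s + η) / X)
      - (s * (-γ) / X) ^ 2
      = s ^ 2 * ((s * η - (1 - s) * (η ^ 2 + γ ^ 2))) / (X * (1 - s) * (1 - s + s ^ 2)) := by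
    have hγ : γ ^ 2 = X - (1 - s + η) ^ 2 := by rw [hde]; ring
    field_simp
    rw [hde]
    ring
  have h2 : 0 ≤ s ^ 2 * ((s * η - (1 - s) * (η ^ 2 + γ ^ 2))) / (X * (1 - s) * (1 - s + s ^ 2)) := by
    apply div_nonneg _ (by positivity)
    apply mul_nonneg (by positivity)
    linarith
  linarith

/-- `M` does not decrease at a vertex with one child. -/
theorem Mv_ext (hq0 : 0 < q) (hq1 : q < 1) (c : B) : Mv q c ≤ Mv q (graft one c) := by
  rw [Mv_eq hq0 hq1 (graft one c)]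
  have hm : ((graft one c).children.map (mm q)).prod = mm q c := by simp [children]
  rw [hm, st_ext]
  unfold Mv
  apply mul_le_mul_of_nonneg_left _ (mm_pos hq0 hq1 c).le
  have hη := ClsD.nonneg (by positivity) (by nlinarith) (clsD hq0 hq1 c)
  unfold psi Jn
  simp only
  generalize hs : q ^ 2 = s at *
  generalize (eg q c).1 = η at *
  generalize (eg q c).2 = γ at *
  have hs0 : 0 < s := by rw [← hs]; positivity
  have hs1 : 0 < 1 - s := by rw [← hs]; nlinarith
  have h1s : 0 < 1 + s := by linarith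
  set ε := s - (η ^ 2 + γ ^ 2) - (1 - s) * η with hε
  rcases le_total 0 ε with h | h
  · refine le_trans (min_le_right _ _) (le_min ?_ ?_)
    · rw [div_le_iff₀ h1s]
      nlinarith [mul_nonneg hs1.le h]
    · apply div_le_div_of_nonneg_right _ h1s.le
      nlinarith [mul_nonneg hs0.le h]
  · refine le_trans (min_le_left _ _) (le_min ?_ ?_)
    · nlinarith [mul_nonneg hs0.le (neg_nonneg.2 h)]
    · rw [le_div_iff₀ h1s]
      nlinarith [mul_nonneg hs1.le (neg_nonneg.2 h)]

theorem pathL_ext (hq0 : 0 < q) (hq1 : q < 1) (c : B) (hc : PathL (q ^ 2) (eg q c)) :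
    PathL (q ^ 2) (eg q (graft one c)) ∧ Mv q (graft one c) = Mv q c ∧
      ((eg q c).2 ≤ 0 → 0 ≤ (eg q (graft one c)).2) ∧
      (0 ≤ (eg q c).2 → (eg q (graft one c)).2 ≤ 0) := by
  have hd := den_pos hq0 hq1 (graft one c)
  have hde := den_ext (q := q) c
  have hη := ClsD.nonneg (by positivity) (by nlinarith) (clsD hq0 hq1 c)
  obtain ⟨h1, h2, h3⟩ := hc
  have e : eg q (graft one c) = (q ^ 2 * ((1 - q ^ 2) + (eg q c).1) / den q (graft one c),
      q ^ 2 * (- (eg q c).2) / den q (graft one c)) := by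
    conv_lhs => unfold eg
    rw [st_ext]
    simp only
    congr 2
    ring
  have hMv := Mv_eq hq0 hq1 (graft one c)
  have hm : ((graft one c).children.map (mm q)).prod = mm q c := by simp [children]
  rw [hm, st_ext] at hMv
  rw [hMv, e]
  unfold Mv
  unfold psi Jn PathL
  simp only
  generalize hX : den q (graft one c) = X at *
  generalize hs : q ^ 2 = s at *
  generalize (eg q c).1 = η at *
  generalize (eg q c).2 = γ at *
  have hs0 : 0 < s := by rw [← hs]; positivity
  have hs1 : 0 < 1 - s := by rw [← hs]; nlinarith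
  have h1s : 0 < 1 + s := by linarith
  have hdd : 0 < 1 - s + s ^ 2 := by positivity
  have hX' : X = (1 - s + s ^ 2) + (1 - s) * η := by
    rw [hde, h3]; ring
  refine ⟨⟨?_, ?_, ?_⟩, ?_, ?_, ?_⟩
  · unfold e1
    rw [div_le_div_iff₀ hdd hd, hX']
    nlinarith [mul_nonneg (mul_nonneg hs0.le hη) hs0.le]
  · rw [div_le_iff₀ hd, hX']
    nlinarith [mul_nonneg hs0.le (sub_nonneg.2 h2)]
  · rw [div_pow, mul_pow, neg_sq, h3]
    field_simp
    rw [hX']
    ring
  · congr 1
    have e1 : (-q - γ + q) ^ 2 + (1 - s + η) ^ 2 + s * (1 - s + η) = 1 + η := by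
      have : (-q - γ + q) ^ 2 = γ ^ 2 := by ring
      rw [this, h3]; ring
    have e2 : ((1 - s) * ((-q - γ + q) ^ 2 + (1 - s + η) ^ 2) + (3 - s) * (s * (1 - s + η)) + 2 * s ^ 2) / (1 + s)
        = 1 + η := by
      have : (-q - γ + q) ^ 2 = γ ^ 2 := by ring
      rw [this, h3]
      field_simp
      ring
    have e3 : (1 - s + (3 - s) * η + 2 * (η ^ 2 + γ ^ 2)) / (1 + s) = 1 + η := by
      rw [h3]
      field_simp
      ring
    rw [e1, e2, e3]
  · intro h
    apply div_nonneg _ hd.le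
    nlinarith
  · intro h
    apply div_nonpos_of_nonpos_of_nonneg _ hd.le
    nlinarith

theorem Mv_one (hq0 : 0 < q) (hq1 : q < 1) : Mv q one = 1 := by
  rw [Mv_eq hq0 hq1 one]
  have h1s : 0 < 1 + q ^ 2 := by positivity
  simp only [children, List.map_nil, List.prod_nil, one_mul, st]
  unfold Jn
  have e1 : (-2 * q + q) ^ 2 + (1 - q ^ 2) ^ 2 + q ^ 2 * (1 - q ^ 2) = 1 := by ring
  have e2 : ((1 - q ^ 2) * ((-2 * q + q) ^ 2 + (1 - q ^ 2) ^ 2) + (3 - q ^ 2) * (q ^ 2 * (1 - q ^ 2))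
      + 2 * (q ^ 2) ^ 2) / (1 + q ^ 2) = 1 := by
    field_simp
    ring
  rw [e1, e2, min_self]

/-- Legs. -/
theorem leg_facts (hq0 : 0 < q) (hq1 : q < 1) (n : ℕ) :
    PathL (q ^ 2) (eg q (leg n)) ∧ Mv q (leg n) = 1 ∧
      (Even n → (eg q (leg n)).2 ≤ 0) ∧ (¬ Even n → 0 ≤ (eg q (leg n)).2) := by
  induction n with
  | zero =>
    have h := leaf_one hq0 hq1
    refine ⟨Leaf.pathL hq0 hq1 h, Mv_one hq0 hq1, fun _ => (Leaf.oddL hq0 hq1 h).2, ?_⟩
    intro hn; exact absurd (by simp) hn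
  | succ n ih =>
    obtain ⟨h1, h2, h3, h4⟩ := ih
    obtain ⟨k1, k2, k3, k4⟩ := pathL_ext hq0 hq1 (leg n) h1
    refine ⟨k1, k2.trans h2, ?_, ?_⟩
    · intro hn
      apply k4
      apply h4
      intro he
      exact (Nat.even_add_one.1 hn) he
    · intro hn
      apply k3
      apply h3
      by_contra he
      exact hn (Nat.even_add_one.2 he)

end B

end Pool.Agent.H59
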