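import Mathlib
import Pool.Agent.H59.Local

set_option autoImplicit false

namespace Pool.Agent.H59

/-- `s (x^2 + a^2)`. -/
noncomputable def fac (a s : ℝ) : ℝ := (1 - s) ^ 2 + a ^ 2 * s

noncomputable def Kr (m : ℕ) (as bs : List ℝ) (s : ℝ) : ℝ :=
  ((1 - s) / (1 + s)) ^ m * ((as.map (fun a => fac a s)).prod / (bs.map (fun b => fac b s)).prod)

noncomputable def K22 (s : ℝ) : ℝ := Kr 1 [3/5, 5/2] [7/20, 8/5] s
noncomputable def K11 (s : ℝ) : ℝ := Kr 1 [89/100, 283/100] [107/50, 1/2] s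
noncomputable def K3 (s : ℝ) : ℝ := Kr 2 [737/200, 63/50] [449/200, 43/100] s
noncomputable def K4 (s : ℝ) : ℝ := Kr 3 [47/10, 19/10] [14/5, 2/5] s
noncomputable def R22 (s : ℝ) : ℝ := Kr 2 [31/25, 261/100] [6/25, 31/20] s
noncomputable def R02 (s : ℝ) : ℝ := Kr 2 [5/2, 19/25] [13/50, 47/50] s
noncomputable def R00 (s : ℝ) : ℝ := Kr 2 [17/10, 47/20] [7/20, 31/20] s
noncomputable def Roo2 (s : ℝ) : ℝ := Kr 2 [49/20, 21/20] [23/20, 1/5] s
noncomputable def Rooo (s : ℝ) : ℝ := Kr 0 [3] [27/10] s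
noncomputable def R4 (s : ℝ) : ℝ := Kr 2 [6/5, 73/20] [9/4, 3/10] s
noncomputable def R5 (s : ℝ) : ℝ := Kr 3 [21/10, 47/10] [3/10, 31/10] s

/-- Gain function of a join with `j + 4` children. -/
noncomputable def KJ (j : ℕ) (s : ℝ) : ℝ :=
  K4 s * ((1 - s) ^ j * (fac (9/2 + 19/25 * j) s / fac (9/2) s))

/-- Gain function of a root with `j + 5` children. -/
noncomputable def KR (j : ℕ) (s : ℝ) : ℝ :=
  R5 s * ((1 - s) ^ j * (fac (22/5 + 19/25 * j) s / fac (22/5) s))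

end Pool.Agent.H59
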