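import Pool.Agent.H59.Bern
import Pool.Agent.H59.KDefs
set_option autoImplicit false
set_option maxRecDepth 10000
set_option maxHeartbeats 4000000
namespace Pool.Agent.H59
open Bern

def L_cJ00_p_0_0 : List ℤ := [0,725,75761,-70042,5508,19408,-592,-7417,9447,3650,20000]

theorem cJ00_p {s  : ℝ} (hs0 : 0 < s) (hs1 : s < 1) :
    K22 s*((1/(1-s+s^(2:ℕ)))^(2:ℕ)*(1)) ≤ ((1+2*(s/(1-s+s^(2:ℕ))))^(2:ℕ)*s)+(1-s+(2*(s*(1-s)/(1-s+s^(2:ℕ)))))^(2:ℕ)+s*(1-s+(2*(s*(1-s)/(1-s+s^(2:ℕ))))) := by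
  have ho : 0 < 1 - s := by linarith
  have hp : 0 < 1 + s := by linarith
  have hd : 0 < 1 - s + s^(2:ℕ) := by positivity
  have h5 : 0 < 1 + s^(5:ℕ) := by positivity
  have n0_0 : 0 ≤ ev L_cJ00_p_0_0 s := pos_of_check 8 _ (by decide +kernel) hs0.le hs1.le
  have hth : 0 < s+1*(1-s)^(2:ℕ) := by positivity
  have hf0 : 0 < (1-s)^(2:ℕ)+(7/20)^(2:ℕ)*s := by positivity
  have hf1 : 0 < (1-s)^(2:ℕ)+(8/5)^(2:ℕ)*s := by positivity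
  rw [← sub_nonneg]
  refine le_of_le_of_eq (b := (1*ev L_cJ00_p_0_0 s) / (10000*(1+s)^(1:ℕ)*(1-s+s^(2:ℕ))^(2:ℕ)*((1-s)^(2:ℕ)+(7/20)^(2:ℕ)*s)^(1:ℕ)*((1-s)^(2:ℕ)+(8/5)^(2:ℕ)*s)^(1:ℕ))) ?_ (Eq.symm ?_)
  ·
    generalize ev L_cJ00_p_0_0 s = PL_cJ00_p_0_0 at *
    positivity
  simp only [K22, Kr, fac, List.map_cons, List.map_nil, List.prod_cons, List.prod_nil, mul_one, pow_one]
  push_cast
  generalize hgf0 : (1-s)^(2:ℕ)+(7/20)^(2:ℕ)*s = f0 at *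
  generalize hgf1 : (1-s)^(2:ℕ)+(8/5)^(2:ℕ)*s = f1 at *
  field_simp
  simp only [ev, L_cJ00_p_0_0]
  push_cast
  rw [← hgf0, ← hgf1]
  ring


def L_cJ00_m_0_0 : List ℤ := [0,725,35761,-57342,20264,-5836,24808,-32661,24203,16350,-20000]

theorem cJ00_m {s  : ℝ} (hs0 : 0 < s) (hs1 : s < 1) :
    K22 s*((1/(1-s+s^(2:ℕ)))^(2:ℕ)*(1)) ≤ ((1-s)*(((1+2*(s/(1-s+s^(2:ℕ))))^(2:ℕ)*s)+(1-s+(2*(s*(1-s)/(1-s+s^(2:ℕ)))))^(2:ℕ))+(3-s)*(s*(1-s+(2*(s*(1-s)/(1-s+s^(2:ℕ))))))+2*s^(2:ℕ))/(1+s) := by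
  have ho : 0 < 1 - s := by linarith
  have hp : 0 < 1 + s := by linarith
  have hd : 0 < 1 - s + s^(2:ℕ) := by positivity
  have h5 : 0 < 1 + s^(5:ℕ) := by positivity
  have n0_0 : 0 ≤ ev L_cJ00_m_0_0 s := pos_of_check 8 _ (by decide +kernel) hs0.le hs1.le
  have hth : 0 < s+1*(1-s)^(2:ℕ) := by positivity
  have hf0 : 0 < (1-s)^(2:ℕ)+(7/20)^(2:ℕ)*s := by positivity
  have hf1 : 0 < (1-s)^(2:ℕ)+(8/5)^(2:ℕ)*s := by positivity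
  rw [← sub_nonneg]
  refine le_of_le_of_eq (b := (1*ev L_cJ00_m_0_0 s) / (10000*(1+s)^(1:ℕ)*(1-s+s^(2:ℕ))^(2:ℕ)*((1-s)^(2:ℕ)+(7/20)^(2:ℕ)*s)^(1:ℕ)*((1-s)^(2:ℕ)+(8/5)^(2:ℕ)*s)^(1:ℕ))) ?_ (Eq.symm ?_)
  ·
    generalize ev L_cJ00_m_0_0 s = PL_cJ00_m_0_0 at *
    positivity
  simp only [K22, Kr, fac, List.map_cons, List.map_nil, List.prod_cons, List.prod_nil, mul_one, pow_one]
  push_cast
  generalize hgf0 : (1-s)^(2:ℕ)+(7/20)^(2:ℕ)*s = f0 at *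
  generalize hgf1 : (1-s)^(2:ℕ)+(8/5)^(2:ℕ)*s = f1 at *
  field_simp
  simp only [ev, L_cJ00_m_0_0]
  push_cast
  rw [← hgf0, ← hgf1]
  ring


end Pool.Agent.H59
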