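import Pool.Agent.H59.Bern
import Pool.Agent.H59.KDefs
set_option autoImplicit false
set_option maxRecDepth 10000
set_option maxHeartbeats 4000000
namespace Pool.Agent.H59
open Bern

def L_cJ02_p_lo_0_0 : List ℤ := [0,8700,560132,-2631344,6448104,-12080800,20189572,-30129276,39481152,-46460284,50138864,-48865992,41816852,-30839664,18775120,-7623872,-1017900,5910060,-7192160,6163508,-4323536,2508964,-1076200,240000]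
def L_cJ02_p_lo_1_0 : List ℤ := [0,8700,560132,-2691344,6290204,-9988143,12828956,-14888483,16664607,-18901761,21996902,-24862919,25258434,-21592721,14252434,-5347541,-2354211,6870849,-7948672,6684399,-4572586,2568964,-1076200,240000]
def L_cJ02_p_lo_2_0 : List ℤ := [0,8700,560132,-2751344,6132304,-7715486,4571190,2372608,-8626314,9897540,-4911462,-4300922,12975872,-15786854,10963346,-1830432,-6164898,9851936,-9602334,7385290,-4821636,2628964,-1076200,240000]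

theorem cJ02_p_lo {s w : ℝ} (hs0 : 0 < s) (hs1 : s < 1) (hw0 : 0 ≤ w) (hw1 : w ≤ 1) :
    K22 s*((1/(1-s+s^(2:ℕ)))^(1:ℕ)*(((1-s)*(1+s+s^(2:ℕ))/((1+s)*(1-s+s^(2:ℕ))^(2:ℕ))*(1-w)+(1+s)/(1+s^(5:ℕ))*w)^(1:ℕ))) ≤ ((3/2)*(1-s)^(2:ℕ)/(s+(3/2)*(1-s)^(2:ℕ))*((1+1*(s/(1-s+s^(2:ℕ))))^(2:ℕ)*s)-(3/2)*(1-s)^(2:ℕ)/s*(1*(((s*(1-s)/(1-s+s^(2:ℕ))+s^(3:ℕ)*(1-s)*(1+s)/((1-s+s^(2:ℕ))*(1+s^(5:ℕ)))*w)-s*(1-s)/(1-s+s^(2:ℕ)))*(s/(1-s)-(s*(1-s)/(1-s+s^(2:ℕ))+s^(3:ℕ)*(1-s)*(1+s)/((1-s+s^(2:ℕ))*(1+s^(5:ℕ)))*w)))))+(1-s+(1*(s*(1-s)/(1-s+s^(2:ℕ)))+1*(s*(1-s)/(1-s+s^(2:ℕ))+s^(3:ℕ)*(1-s)*(1+s)/((1-s+s^(2:ℕ))*(1+s^(5:ℕ)))*w)))^(2:ℕ)+s*(1-s+(1*(s*(1-s)/(1-s+s^(2:ℕ)))+1*(s*(1-s)/(1-s+s^(2:ℕ))+s^(3:ℕ)*(1-s)*(1+s)/((1-s+s^(2:ℕ))*(1+s^(5:ℕ)))*w))) := by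
  have ho : 0 < 1 - s := by linarith
  have hp : 0 < 1 + s := by linarith
  have hd : 0 < 1 - s + s^(2:ℕ) := by positivity
  have h5 : 0 < 1 + s^(5:ℕ) := by positivity
  have h1w : 0 ≤ 1 - w := by linarith
  have n0_0 : 0 ≤ ev L_cJ02_p_lo_0_0 s := pos_of_check 8 _ (by decide +kernel) hs0.le hs1.le
  have n1_0 : 0 ≤ ev L_cJ02_p_lo_1_0 s := pos_of_check 8 _ (by decide +kernel) hs0.le hs1.le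
  have n2_0 : 0 ≤ ev L_cJ02_p_lo_2_0 s := pos_of_check 8 _ (by decide +kernel) hs0.le hs1.le
  have hth : 0 < s+(3/2)*(1-s)^(2:ℕ) := by positivity
  have hf0 : 0 < (1-s)^(2:ℕ)+(7/20)^(2:ℕ)*s := by positivity
  have hf1 : 0 < (1-s)^(2:ℕ)+(8/5)^(2:ℕ)*s := by positivity
  have hr5 : 0 < 1-s+s^(2:ℕ)-s^(3:ℕ)+s^(4:ℕ) := by
    have h : 1-s+s^(2:ℕ)-s^(3:ℕ)+s^(4:ℕ) = (1-s)*(1+s^(2:ℕ))+s^(4:ℕ) := by ring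
    rw [h]; positivity
  rw [← sub_nonneg]
  refine le_of_le_of_eq (b := (1*w^(0:ℕ)*(1-w)^(2:ℕ)*ev L_cJ02_p_lo_0_0 s
      + 2*w^(1:ℕ)*(1-w)^(1:ℕ)*ev L_cJ02_p_lo_1_0 s
      + 1*w^(2:ℕ)*(1-w)^(0:ℕ)*ev L_cJ02_p_lo_2_0 s) / (80000*(1+s)^(2:ℕ)*(1-s+s^(2:ℕ))^(3:ℕ)*(1-s+s^(2:ℕ)-s^(3:ℕ)+s^(4:ℕ))^(2:ℕ)*(s+(3/2)*(1-s)^(2:ℕ))^(1:ℕ)*((1-s)^(2:ℕ)+(7/20)^(2:ℕ)*s)^(1:ℕ)*((1-s)^(2:ℕ)+(8/5)^(2:ℕ)*s)^(1:ℕ))) ?_ (Eq.symm ?_)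
  ·
    generalize ev L_cJ02_p_lo_0_0 s = PL_cJ02_p_lo_0_0 at *
    generalize ev L_cJ02_p_lo_1_0 s = PL_cJ02_p_lo_1_0 at *
    generalize ev L_cJ02_p_lo_2_0 s = PL_cJ02_p_lo_2_0 at *
    positivity
  simp only [K22, Kr, fac, List.map_cons, List.map_nil, List.prod_cons, List.prod_nil, mul_one, pow_one]
  push_cast
  have e5 : 1+s^(5:ℕ) = (1+s)*(1-s+s^(2:ℕ)-s^(3:ℕ)+s^(4:ℕ)) := by ring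
  rw [e5]
  generalize hgth : s+(3/2)*(1-s)^(2:ℕ) = th at *
  generalize hgf0 : (1-s)^(2:ℕ)+(7/20)^(2:ℕ)*s = f0 at *
  generalize hgf1 : (1-s)^(2:ℕ)+(8/5)^(2:ℕ)*s = f1 at *
  generalize hgr5 : 1-s+s^(2:ℕ)-s^(3:ℕ)+s^(4:ℕ) = r5 at *
  field_simp
  simp only [ev, L_cJ02_p_lo_0_0, L_cJ02_p_lo_1_0, L_cJ02_p_lo_2_0]
  push_cast
  rw [← hgth, ← hgf0, ← hgf1, ← hgr5]
  ring


def L_cJ02_p_hi_0_0 : List ℤ := [0,8700,542732,-3862908,12186424,-23274170,29997374,-26671682,14473830,-474598,-6661174,945712,17140852,-39378346,54567214,-56684830,47837658,-34215914,21213726,-11395764,5021364,-1556200,240000]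
def L_cJ02_p_hi_1_0 : List ℤ := [0,8700,602732,-4347608,14614881,-31814550,51924868,-69258154,78944815,-78121769,67956459,-54125644,43040234,-37188445,34838577,-33168677,30053988,-24450880,17111132,-10016773,4652314,-1496200,240000]
def L_cJ02_p_hi_2_0 : List ℤ := [0,8700,662732,-4652308,15786188,-35640332,61951640,-89627856,111617272,-120833308,115005352,-98693772,79442844,-62567284,50045572,-41451052,34487088,-26586568,17723136,-9894932,4463264,-1436200,240000]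

theorem cJ02_p_hi {s w : ℝ} (hs0 : 0 < s) (hs1 : s < 1) (hw0 : 0 ≤ w) (hw1 : w ≤ 1) :
    K22 s*((1/(1-s+s^(2:ℕ)))^(1:ℕ)*(((1+s)/(1+s^(5:ℕ))*(1-w)+w/(1-s))^(1:ℕ))) ≤ ((3/2)*(1-s)^(2:ℕ)/(s+(3/2)*(1-s)^(2:ℕ))*((1+1*(s/(1-s+s^(2:ℕ))))^(2:ℕ)*s)-(3/2)*(1-s)^(2:ℕ)/s*(1*(((s*(1-s^(4:ℕ))/(1+s^(5:ℕ))+s^(2:ℕ)*(1+s^(3:ℕ))/((1-s)*(1+s^(5:ℕ)))*w)-s*(1-s)/(1-s+s^(2:ℕ)))*(s/(1-s)-(s*(1-s^(4:ℕ))/(1+s^(5:ℕ))+s^(2:ℕ)*(1+s^(3:ℕ))/((1-s)*(1+s^(5:ℕ)))*w)))))+(1-s+(1*(s*(1-s)/(1-s+s^(2:ℕ)))+1*(s*(1-s^(4:ℕ))/(1+s^(5:ℕ))+s^(2:ℕ)*(1+s^(3:ℕ))/((1-s)*(1+s^(5:ℕ)))*w)))^(2:ℕ)+s*(1-s+(1*(s*(1-s)/(1-s+s^(2:ℕ)))+1*(s*(1-s^(4:ℕ))/(1+s^(5:ℕ))+s^(2:ℕ)*(1+s^(3:ℕ))/((1-s)*(1+s^(5:ℕ)))*w))) := by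
  have ho : 0 < 1 - s := by linarith
  have hp : 0 < 1 + s := by linarith
  have hd : 0 < 1 - s + s^(2:ℕ) := by positivity
  have h5 : 0 < 1 + s^(5:ℕ) := by positivity
  have h1w : 0 ≤ 1 - w := by linarith
  have n0_0 : 0 ≤ ev L_cJ02_p_hi_0_0 s := pos_of_check 8 _ (by decide +kernel) hs0.le hs1.le
  have n1_0 : 0 ≤ ev L_cJ02_p_hi_1_0 s := pos_of_check 8 _ (by decide +kernel) hs0.le hs1.le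
  have n2_0 : 0 ≤ ev L_cJ02_p_hi_2_0 s := pos_of_check 8 _ (by decide +kernel) hs0.le hs1.le
  have hth : 0 < s+(3/2)*(1-s)^(2:ℕ) := by positivity
  have hf0 : 0 < (1-s)^(2:ℕ)+(7/20)^(2:ℕ)*s := by positivity
  have hf1 : 0 < (1-s)^(2:ℕ)+(8/5)^(2:ℕ)*s := by positivity
  have hr5 : 0 < 1-s+s^(2:ℕ)-s^(3:ℕ)+s^(4:ℕ) := by
    have h : 1-s+s^(2:ℕ)-s^(3:ℕ)+s^(4:ℕ) = (1-s)*(1+s^(2:ℕ))+s^(4:ℕ) := by ring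
    rw [h]; positivity
  rw [← sub_nonneg]
  refine le_of_le_of_eq (b := (1*w^(0:ℕ)*(1-w)^(2:ℕ)*ev L_cJ02_p_hi_0_0 s
      + 2*w^(1:ℕ)*(1-w)^(1:ℕ)*ev L_cJ02_p_hi_1_0 s
      + 1*w^(2:ℕ)*(1-w)^(0:ℕ)*ev L_cJ02_p_hi_2_0 s) / (80000*(1-s)^(2:ℕ)*(1+s)^(1:ℕ)*(1-s+s^(2:ℕ))^(2:ℕ)*(1-s+s^(2:ℕ)-s^(3:ℕ)+s^(4:ℕ))^(2:ℕ)*(s+(3/2)*(1-s)^(2:ℕ))^(1:ℕ)*((1-s)^(2:ℕ)+(7/20)^(2:ℕ)*s)^(1:ℕ)*((1-s)^(2:ℕ)+(8/5)^(2:ℕ)*s)^(1:ℕ))) ?_ (Eq.symm ?_)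
  ·
    generalize ev L_cJ02_p_hi_0_0 s = PL_cJ02_p_hi_0_0 at *
    generalize ev L_cJ02_p_hi_1_0 s = PL_cJ02_p_hi_1_0 at *
    generalize ev L_cJ02_p_hi_2_0 s = PL_cJ02_p_hi_2_0 at *
    positivity
  simp only [K22, Kr, fac, List.map_cons, List.map_nil, List.prod_cons, List.prod_nil, mul_one, pow_one]
  push_cast
  have e5 : 1+s^(5:ℕ) = (1+s)*(1-s+s^(2:ℕ)-s^(3:ℕ)+s^(4:ℕ)) := by ring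
  rw [e5]
  generalize hgth : s+(3/2)*(1-s)^(2:ℕ) = th at *
  generalize hgf0 : (1-s)^(2:ℕ)+(7/20)^(2:ℕ)*s = f0 at *
  generalize hgf1 : (1-s)^(2:ℕ)+(8/5)^(2:ℕ)*s = f1 at *
  generalize hgr5 : 1-s+s^(2:ℕ)-s^(3:ℕ)+s^(4:ℕ) = r5 at *
  field_simp
  simp only [ev, L_cJ02_p_hi_0_0, L_cJ02_p_hi_1_0, L_cJ02_p_hi_2_0]
  push_cast
  rw [← hgth, ← hgf0, ← hgf1, ← hgr5]
  ring


end Pool.Agent.H59
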