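import Pool.Agent.H59.Bern
import Pool.Agent.H59.KDefs
set_option autoImplicit false
set_option maxRecDepth 10000
set_option maxHeartbeats 4000000
namespace Pool.Agent.H59
open Bern

def L_cJ02_m_lo_0_0 : List ℤ := [0,8700,80132,-238944,393976,-1137464,3787764,-8745924,15686872,-24047916,32046440,-36801304,37493524,-35162992,30839808,-25716296,21394468,-17884220,14191192,-10238300,6619800,-3545164,1316200,-240000]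
def L_cJ02_m_lo_1_0 : List ℤ := [0,8700,80132,-298944,116076,1453293,-4554634,7788843,-8558585,4948693,2763646,-12221927,20800168,-26050987,26893426,-24580797,21496243,-18352343,14728654,-10699191,6868850,-3605164,1316200,-240000]
def L_cJ02_m_lo_2_0 : List ℤ := [0,8700,80132,-358944,-161824,4224050,-14154182,28498208,-41473314,46329728,-38910754,20074382,4106812,-24655914,35338650,-35829724,30267290,-22995064,16523266,-11340082,7117900,-3665164,1316200,-240000]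

theorem cJ02_m_lo {s w : ℝ} (hs0 : 0 < s) (hs1 : s < 1) (hw0 : 0 ≤ w) (hw1 : w ≤ 1) :
    K22 s*((1/(1-s+s^(2:ℕ)))^(1:ℕ)*(((1-s)*(1+s+s^(2:ℕ))/((1+s)*(1-s+s^(2:ℕ))^(2:ℕ))*(1-w)+(1+s)/(1+s^(5:ℕ))*w)^(1:ℕ))) ≤ ((1-s)*(((3/2)*(1-s)^(2:ℕ)/(s+(3/2)*(1-s)^(2:ℕ))*((1+1*(s/(1-s+s^(2:ℕ))))^(2:ℕ)*s)-(3/2)*(1-s)^(2:ℕ)/s*(1*(((s*(1-s)/(1-s+s^(2:ℕ))+s^(3:ℕ)*(1-s)*(1+s)/((1-s+s^(2:ℕ))*(1+s^(5:ℕ)))*w)-s*(1-s)/(1-s+s^(2:ℕ)))*(s/(1-s)-(s*(1-s)/(1-s+s^(2:ℕ))+s^(3:ℕ)*(1-s)*(1+s)/((1-s+s^(2:ℕ))*(1+s^(5:ℕ)))*w)))))+(1-s+(1*(s*(1-s)/(1-s+s^(2:ℕ)))+1*(s*(1-s)/(1-s+s^(2:ℕ))+s^(3:ℕ)*(1-s)*(1+s)/((1-s+s^(2:ℕ))*(1+s^(5:ℕ)))*w)))^(2:ℕ))+(3-s)*(s*(1-s+(1*(s*(1-s)/(1-s+s^(2:ℕ)))+1*(s*(1-s)/(1-s+s^(2:ℕ))+s^(3:ℕ)*(1-s)*(1+s)/((1-s+s^(2:ℕ))*(1+s^(5:ℕ)))*w))))+2*s^(2:ℕ))/(1+s)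 := by
  have ho : 0 < 1 - s := by linarith
  have hp : 0 < 1 + s := by linarith
  have hd : 0 < 1 - s + s^(2:ℕ) := by positivity
  have h5 : 0 < 1 + s^(5:ℕ) := by positivity
  have h1w : 0 ≤ 1 - w := by linarith
  have n0_0 : 0 ≤ ev L_cJ02_m_lo_0_0 s := pos_of_check 8 _ (by decide +kernel) hs0.le hs1.le
  have n1_0 : 0 ≤ ev L_cJ02_m_lo_1_0 s := pos_of_check 8 _ (by decide +kernel) hs0.le hs1.le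
  have n2_0 : 0 ≤ ev L_cJ02_m_lo_2_0 s := pos_of_check 8 _ (by decide +kernel) hs0.le hs1.le
  have hth : 0 < s+(3/2)*(1-s)^(2:ℕ) := by positivity
  have hf0 : 0 < (1-s)^(2:ℕ)+(7/20)^(2:ℕ)*s := by positivity
  have hf1 : 0 < (1-s)^(2:ℕ)+(8/5)^(2:ℕ)*s := by positivity
  have hr5 : 0 < 1-s+s^(2:ℕ)-s^(3:ℕ)+s^(4:ℕ) := by
    have h : 1-s+s^(2:ℕ)-s^(3:ℕ)+s^(4:ℕ) = (1-s)*(1+s^(2:ℕ))+s^(4:ℕ) := by ring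
    rw [h]; positivity
  rw [← sub_nonneg]
  refine le_of_le_of_eq (b := (1*w^(0:ℕ)*(1-w)^(2:ℕ)*ev L_cJ02_m_lo_0_0 s
      + 2*w^(1:ℕ)*(1-w)^(1:ℕ)*ev L_cJ02_m_lo_1_0 s
      + 1*w^(2:ℕ)*(1-w)^(0:ℕ)*ev L_cJ02_m_lo_2_0 s) / (80000*(1+s)^(2:ℕ)*(1-s+s^(2:ℕ))^(3:ℕ)*(1-s+s^(2:ℕ)-s^(3:ℕ)+s^(4:ℕ))^(2:ℕ)*(s+(3/2)*(1-s)^(2:ℕ))^(1:ℕ)*((1-s)^(2:ℕ)+(7/20)^(2:ℕ)*s)^(1:ℕ)*((1-s)^(2:ℕ)+(8/5)^(2:ℕ)*s)^(1:ℕ))) ?_ (Eq.symm ?_)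
  ·
    generalize ev L_cJ02_m_lo_0_0 s = PL_cJ02_m_lo_0_0 at *
    generalize ev L_cJ02_m_lo_1_0 s = PL_cJ02_m_lo_1_0 at *
    generalize ev L_cJ02_m_lo_2_0 s = PL_cJ02_m_lo_2_0 at *
    positivity
  simp only [K22, Kr, fac, List.map_cons, List.map_nil, List.prod_cons, List.prod_nil, mul_one, pow_one]
  push_cast
  have e5 : 1+s^(5:ℕ) = (1+s)*(1-s+s^(2:ℕ)-s^(3:ℕ)+s^(4:ℕ)) := by ring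
  rw [e5]
  generalize hgth : s+(3/2)*(1-s)^(2:ℕ) = th at *
  generalize hgf0 : (1-s)^(2:ℕ)+(7/20)^(2:ℕ)*s = f0 at *
  generalize hgf1 : (1-s)^(2:ℕ)+(8/5)^(2:ℕ)*s = f1 at *
  generalize hgr5 : 1-s+s^(2:ℕ)-s^(3:ℕ)+s^(4:ℕ) = r5 at *
  field_simp
  simp only [ev, L_cJ02_m_lo_0_0, L_cJ02_m_lo_1_0, L_cJ02_m_lo_2_0]
  push_cast
  rw [← hgth, ← hgf0, ← hgf1, ← hgr5]
  ring


def L_cJ02_m_hi_0_0 : List ℤ := [0,8700,71432,-439076,188420,4314442,-17939156,42463970,-74285964,105742198,-127704452,133271100,-121709768,98941726,-73276536,50541394,-32844712,20014182,-11023064,4981364,-1556200,240000]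
def L_cJ02_m_hi_1_0 : List ℤ := [0,8700,131432,-983776,2810277,-4302063,3357971,774623,-7450508,15905087,-24816452,32069124,-36259430,37563345,-36276076,32032611,-25083347,17140579,-10013123,4672314,-1496200,240000]
def L_cJ02_m_hi_2_0 : List ℤ := [0,8700,191432,-1348476,3994984,-6766820,6602628,-645484,-12682820,33071376,-56500592,75942516,-85381232,83188364,-71343384,53793068,-35374452,20418724,-10440332,4543264,-1436200,240000]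

theorem cJ02_m_hi {s w : ℝ} (hs0 : 0 < s) (hs1 : s < 1) (hw0 : 0 ≤ w) (hw1 : w ≤ 1) :
    K22 s*((1/(1-s+s^(2:ℕ)))^(1:ℕ)*(((1+s)/(1+s^(5:ℕ))*(1-w)+w/(1-s))^(1:ℕ))) ≤ ((1-s)*(((3/2)*(1-s)^(2:ℕ)/(s+(3/2)*(1-s)^(2:ℕ))*((1+1*(s/(1-s+s^(2:ℕ))))^(2:ℕ)*s)-(3/2)*(1-s)^(2:ℕ)/s*(1*(((s*(1-s^(4:ℕ))/(1+s^(5:ℕ))+s^(2:ℕ)*(1+s^(3:ℕ))/((1-s)*(1+s^(5:ℕ)))*w)-s*(1-s)/(1-s+s^(2:ℕ)))*(s/(1-s)-(s*(1-s^(4:ℕ))/(1+s^(5:ℕ))+s^(2:ℕ)*(1+s^(3:ℕ))/((1-s)*(1+s^(5:ℕ)))*w)))))+(1-s+(1*(s*(1-s)/(1-s+s^(2:ℕ)))+1*(s*(1-s^(4:ℕ))/(1+s^(5:ℕ))+s^(2:ℕ)*(1+s^(3:ℕ))/((1-s)*(1+s^(5:ℕ)))*w)))^(2:ℕ))+(3-s)*(s*(1-s+(1*(s*(1-s)/(1-s+s^(2:ℕ)))+1*(s*(1-s^(4:ℕ))/(1+s^(5:ℕ))+s^(2:ℕ)*(1+s^(3:ℕ))/((1-s)*(1+s^(5:ℕ)))*w))))+2*s^(2:ℕ))/(1+s) := by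
  have ho : 0 < 1 - s := by linarith
  have hp : 0 < 1 + s := by linarith
  have hd : 0 < 1 - s + s^(2:ℕ) := by positivity
  have h5 : 0 < 1 + s^(5:ℕ) := by positivity
  have h1w : 0 ≤ 1 - w := by linarith
  have n0_0 : 0 ≤ ev L_cJ02_m_hi_0_0 s := pos_of_check 8 _ (by decide +kernel) hs0.le hs1.le
  have n1_0 : 0 ≤ ev L_cJ02_m_hi_1_0 s := pos_of_check 8 _ (by decide +kernel) hs0.le hs1.le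
  have n2_0 : 0 ≤ ev L_cJ02_m_hi_2_0 s := pos_of_check 8 _ (by decide +kernel) hs0.le hs1.le
  have hth : 0 < s+(3/2)*(1-s)^(2:ℕ) := by positivity
  have hf0 : 0 < (1-s)^(2:ℕ)+(7/20)^(2:ℕ)*s := by positivity
  have hf1 : 0 < (1-s)^(2:ℕ)+(8/5)^(2:ℕ)*s := by positivity
  have hr5 : 0 < 1-s+s^(2:ℕ)-s^(3:ℕ)+s^(4:ℕ) := by
    have h : 1-s+s^(2:ℕ)-s^(3:ℕ)+s^(4:ℕ) = (1-s)*(1+s^(2:ℕ))+s^(4:ℕ) := by ring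
    rw [h]; positivity
  rw [← sub_nonneg]
  refine le_of_le_of_eq (b := (1*w^(0:ℕ)*(1-w)^(2:ℕ)*ev L_cJ02_m_hi_0_0 s
      + 2*w^(1:ℕ)*(1-w)^(1:ℕ)*ev L_cJ02_m_hi_1_0 s
      + 1*w^(2:ℕ)*(1-w)^(0:ℕ)*ev L_cJ02_m_hi_2_0 s) / (80000*(1-s)^(1:ℕ)*(1+s)^(1:ℕ)*(1-s+s^(2:ℕ))^(2:ℕ)*(1-s+s^(2:ℕ)-s^(3:ℕ)+s^(4:ℕ))^(2:ℕ)*(s+(3/2)*(1-s)^(2:ℕ))^(1:ℕ)*((1-s)^(2:ℕ)+(7/20)^(2:ℕ)*s)^(1:ℕ)*((1-s)^(2:ℕ)+(8/5)^(2:ℕ)*s)^(1:ℕ))) ?_ (Eq.symm ?_)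
  ·
    generalize ev L_cJ02_m_hi_0_0 s = PL_cJ02_m_hi_0_0 at *
    generalize ev L_cJ02_m_hi_1_0 s = PL_cJ02_m_hi_1_0 at *
    generalize ev L_cJ02_m_hi_2_0 s = PL_cJ02_m_hi_2_0 at *
    positivity
  simp only [K22, Kr, fac, List.map_cons, List.map_nil, List.prod_cons, List.prod_nil, mul_one, pow_one]
  push_cast
  have e5 : 1+s^(5:ℕ) = (1+s)*(1-s+s^(2:ℕ)-s^(3:ℕ)+s^(4:ℕ)) := by ring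
  rw [e5]
  generalize hgth : s+(3/2)*(1-s)^(2:ℕ) = th at *
  generalize hgf0 : (1-s)^(2:ℕ)+(7/20)^(2:ℕ)*s = f0 at *
  generalize hgf1 : (1-s)^(2:ℕ)+(8/5)^(2:ℕ)*s = f1 at *
  generalize hgr5 : 1-s+s^(2:ℕ)-s^(3:ℕ)+s^(4:ℕ) = r5 at *
  field_simp
  simp only [ev, L_cJ02_m_hi_0_0, L_cJ02_m_hi_1_0, L_cJ02_m_hi_2_0]
  push_cast
  rw [← hgth, ← hgf0, ← hgf1, ← hgr5]
  ring


end Pool.Agent.H59
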