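import Pool.Agent.H59.Bern
import Pool.Agent.H59.KDefs
set_option autoImplicit false
set_option maxRecDepth 10000
set_option maxHeartbeats 4000000
namespace Pool.Agent.H59
open Bern

def L_cJ11_m_lo_0_0 : List ℤ := [0,202860000,1157845031,-6170685155,16002200372,-25412810558,28014050558,-20986520372,10110105155,-1896025031,-705100000,600000000]
def L_cJ11_m_lo_1_0 : List ℤ := [0,52860000,941985031,-1689285062,1847515031,-1663354969,3132964938,-4081229969,3069580000,-444150000,-659485000,458520000,-50000000]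
def L_cJ11_m_lo_2_0 : List ℤ := [0,2860000,9085031,102745031,-410085031,-1450745031,6377600000,-6454340000,2671260000,198760000,-165300000,234080000,-200000000]

theorem cJ11_m_lo {s w : ℝ} (hs0 : 0 < s) (hs1 : s < 1) (hw0 : 0 ≤ w) (hw1 : w ≤ 1) :
    K11 s*(((((1-s)*(1-s+s^(2:ℕ))*(1-w)+(1+s)*w)/((1+s)*(1-s+s^(2:ℕ))))^(2:ℕ))) ≤ ((1-s)*(((1/4)*(1-s)^(2:ℕ)/(s+(1/4)*(1-s)^(2:ℕ))*((1)^(2:ℕ)*s)-(1/4)*(1-s)^(2:ℕ)/s*(4*((s*(1-s)/(1-s+s^(2:ℕ))*w)*(s/(1-s)-(s*(1-s)/(1-s+s^(2:ℕ))*w)))))+(1-s+(2*(s*(1-s)/(1-s+s^(2:ℕ))*w)))^(2:ℕ))+(3-s)*(s*(1-s+(2*(s*(1-s)/(1-s+s^(2:ℕ))*w))))+2*s^(2:ℕ))/(1+s) := by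
  have ho : 0 < 1 - s := by linarith
  have hp : 0 < 1 + s := by linarith
  have hd : 0 < 1 - s + s^(2:ℕ) := by positivity
  have h5 : 0 < 1 + s^(5:ℕ) := by positivity
  have h1w : 0 ≤ 1 - w := by linarith
  have n0_0 : 0 ≤ ev L_cJ11_m_lo_0_0 s := pos_of_check 8 _ (by decide +kernel) hs0.le hs1.le
  have n1_0 : 0 ≤ ev L_cJ11_m_lo_1_0 s := pos_of_check 8 _ (by decide +kernel) hs0.le hs1.le
  have n2_0 : 0 ≤ ev L_cJ11_m_lo_2_0 s := pos_of_check 8 _ (by decide +kernel) hs0.le hs1.le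
  have hth : 0 < s+(1/4)*(1-s)^(2:ℕ) := by positivity
  have hf0 : 0 < (1-s)^(2:ℕ)+(107/50)^(2:ℕ)*s := by positivity
  have hf1 : 0 < (1-s)^(2:ℕ)+(1/2)^(2:ℕ)*s := by positivity
  rw [← sub_nonneg]
  refine le_of_le_of_eq (b := (1*w^(0:ℕ)*(1-w)^(2:ℕ)*ev L_cJ11_m_lo_0_0 s
      + 2*w^(1:ℕ)*(1-w)^(1:ℕ)*ev L_cJ11_m_lo_1_0 s
      + 1*w^(2:ℕ)*(1-w)^(0:ℕ)*ev L_cJ11_m_lo_2_0 s) / (100000000*(1+s)^(3:ℕ)*(1-s+s^(2:ℕ))^(2:ℕ)*((1-s)^(2:ℕ)+(107/50)^(2:ℕ)*s)^(1:ℕ)*((1-s)^(2:ℕ)+(1/2)^(2:ℕ)*s)^(1:ℕ))) ?_ (Eq.symm ?_)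
  ·
    generalize ev L_cJ11_m_lo_0_0 s = PL_cJ11_m_lo_0_0 at *
    generalize ev L_cJ11_m_lo_1_0 s = PL_cJ11_m_lo_1_0 at *
    generalize ev L_cJ11_m_lo_2_0 s = PL_cJ11_m_lo_2_0 at *
    positivity
  simp only [K11, Kr, fac, List.map_cons, List.map_nil, List.prod_cons, List.prod_nil, mul_one, pow_one]
  push_cast
  generalize hgth : s+(1/4)*(1-s)^(2:ℕ) = th at *
  generalize hgf0 : (1-s)^(2:ℕ)+(107/50)^(2:ℕ)*s = f0 at *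
  generalize hgf1 : (1-s)^(2:ℕ)+(1/2)^(2:ℕ)*s = f1 at *
  field_simp
  simp only [ev, L_cJ11_m_lo_0_0, L_cJ11_m_lo_1_0, L_cJ11_m_lo_2_0]
  push_cast
  rw [← hgth, ← hgf0, ← hgf1]
  ring


def L_cJ11_m_hi_0_0 : List ℤ := [0,2860000,6225031,93660000,-512830062,-1040660000,7828345031,-12831940000,9125600000,-2472500000,-364060000,399380000,-434080000,200000000]
def L_cJ11_m_hi_1_0 : List ℤ := [0,2860000,156225031,70960000,-755330031,-1328929969,7752685000,-11874795031,9721465000,-3035155000,-483805000,773820000,-284080000,200000000]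
def L_cJ11_m_hi_2_0 : List ℤ := [0,2860000,306225031,148260000,-614870000,-1616889938,7117640000,-11471120000,9757945031,-3597500000,-220590000,1248260000,-134080000,200000000]

theorem cJ11_m_hi {s w : ℝ} (hs0 : 0 < s) (hs1 : s < 1) (hw0 : 0 ≤ w) (hw1 : w ≤ 1) :
    K11 s*(((((1-s)*(1-w)+(1-s+s^(2:ℕ))*w)/((1-s)*(1-s+s^(2:ℕ))))^(2:ℕ))) ≤ ((1-s)*(((1/4)*(1-s)^(2:ℕ)/(s+(1/4)*(1-s)^(2:ℕ))*((1)^(2:ℕ)*s)-(1/4)*(1-s)^(2:ℕ)/s*(4*((s*((1-s)^(2:ℕ)+s*w)/((1-s)*(1-s+s^(2:ℕ))))*(s/(1-s)-(s*((1-s)^(2:ℕ)+s*w)/((1-s)*(1-s+s^(2:ℕ))))))))+(1-s+(2*(s*((1-s)^(2:ℕ)+s*w)/((1-s)*(1-s+s^(2:ℕ))))))^(2:ℕ))+(3-s)*(s*(1-s+(2*(s*((1-s)^(2:ℕ)+s*w)/((1-s)*(1-s+s^(2:ℕ)))))))+2*s^(2:ℕ))/(1+s) := by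
  have ho : 0 < 1 - s := by linarith
  have hp : 0 < 1 + s := by linarith
  have hd : 0 < 1 - s + s^(2:ℕ) := by positivity
  have h5 : 0 < 1 + s^(5:ℕ) := by positivity
  have h1w : 0 ≤ 1 - w := by linarith
  have n0_0 : 0 ≤ ev L_cJ11_m_hi_0_0 s := pos_of_check 8 _ (by decide +kernel) hs0.le hs1.le
  have n1_0 : 0 ≤ ev L_cJ11_m_hi_1_0 s := pos_of_check 8 _ (by decide +kernel) hs0.le hs1.le
  have n2_0 : 0 ≤ ev L_cJ11_m_hi_2_0 s := pos_of_check 8 _ (by decide +kernel) hs0.le hs1.le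
  have hth : 0 < s+(1/4)*(1-s)^(2:ℕ) := by positivity
  have hf0 : 0 < (1-s)^(2:ℕ)+(107/50)^(2:ℕ)*s := by positivity
  have hf1 : 0 < (1-s)^(2:ℕ)+(1/2)^(2:ℕ)*s := by positivity
  rw [← sub_nonneg]
  refine le_of_le_of_eq (b := (1*w^(0:ℕ)*(1-w)^(2:ℕ)*ev L_cJ11_m_hi_0_0 s
      + 2*w^(1:ℕ)*(1-w)^(1:ℕ)*ev L_cJ11_m_hi_1_0 s
      + 1*w^(2:ℕ)*(1-w)^(0:ℕ)*ev L_cJ11_m_hi_2_0 s) / (100000000*(1-s)^(1:ℕ)*(1+s)^(3:ℕ)*(1-s+s^(2:ℕ))^(2:ℕ)*((1-s)^(2:ℕ)+(107/50)^(2:ℕ)*s)^(1:ℕ)*((1-s)^(2:ℕ)+(1/2)^(2:ℕ)*s)^(1:ℕ))) ?_ (Eq.symm ?_)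
  ·
    generalize ev L_cJ11_m_hi_0_0 s = PL_cJ11_m_hi_0_0 at *
    generalize ev L_cJ11_m_hi_1_0 s = PL_cJ11_m_hi_1_0 at *
    generalize ev L_cJ11_m_hi_2_0 s = PL_cJ11_m_hi_2_0 at *
    positivity
  simp only [K11, Kr, fac, List.map_cons, List.map_nil, List.prod_cons, List.prod_nil, mul_one, pow_one]
  push_cast
  generalize hgth : s+(1/4)*(1-s)^(2:ℕ) = th at *
  generalize hgf0 : (1-s)^(2:ℕ)+(107/50)^(2:ℕ)*s = f0 at *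
  generalize hgf1 : (1-s)^(2:ℕ)+(1/2)^(2:ℕ)*s = f1 at *
  field_simp
  simp only [ev, L_cJ11_m_hi_0_0, L_cJ11_m_hi_1_0, L_cJ11_m_hi_2_0]
  push_cast
  rw [← hgth, ← hgf0, ← hgf1]
  ring


end Pool.Agent.H59
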