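import Pool.Agent.H59.Bern
import Pool.Agent.H59.KDefs
set_option autoImplicit false
set_option maxRecDepth 10000
set_option maxHeartbeats 4000000
namespace Pool.Agent.H59
open Bern

def L_cJ22_p_lo_0_0 : List ℤ := [0,2175,80033,-308786,787210,-2044886,4904378,-9568106,15598040,-22159408,27404946,-28904547,25695597,-18762037,9927845,-1628500,-3657528,5067644,-3653338,1030754,1352618,-2550778,2483908,-1744475,916291,-329050,60000]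
def L_cJ22_p_lo_1_0 : List ℤ := [0,2175,80033,-338786,663260,-789270,923758,-1798607,3779815,-6170026,7766442,-7473532,4508895,970401,-7105614,11234902,-11864461,9341176,-5062200,673963,2350140,-3409346,2953641,-1914000,946291,-329050,60000]
def L_cJ22_p_lo_2_0 : List ℤ := [0,2175,80033,-368786,539310,646346,-4224012,8456490,-8457186,606184,12179334,-21436469,20324827,-9163939,-5652851,16691338,-19461946,14219904,-5283434,-2105604,5316260,-5135064,3603374,-2083525,976291,-329050,60000]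

theorem cJ22_p_lo {s w : ℝ} (hs0 : 0 < s) (hs1 : s < 1) (hw0 : 0 ≤ w) (hw1 : w ≤ 1) :
    K22 s*((((1-s)*(1+s+s^(2:ℕ))/((1+s)*(1-s+s^(2:ℕ))^(2:ℕ))*(1-w)+(1+s)/(1+s^(5:ℕ))*w)^(2:ℕ))) ≤ ((3/2)*(1-s)^(2:ℕ)/(s+(3/2)*(1-s)^(2:ℕ))*((1)^(2:ℕ)*s)-(3/2)*(1-s)^(2:ℕ)/s*(4*(((s*(1-s)/(1-s+s^(2:ℕ))+s^(3:ℕ)*(1-s)*(1+s)/((1-s+s^(2:ℕ))*(1+s^(5:ℕ)))*w)-s*(1-s)/(1-s+s^(2:ℕ)))*(s/(1-s)-(s*(1-s)/(1-s+s^(2:ℕ))+s^(3:ℕ)*(1-s)*(1+s)/((1-s+s^(2:ℕ))*(1+s^(5:ℕ)))*w)))))+(1-s+(2*(s*(1-s)/(1-s+s^(2:ℕ))+s^(3:ℕ)*(1-s)*(1+s)/((1-s+s^(2:ℕ))*(1+s^(5:ℕ)))*w)))^(2:ℕ)+s*(1-s+(2*(s*(1-s)/(1-s+s^(2:ℕ))+s^(3:ℕ)*(1-s)*(1+s)/((1-s+s^(2:ℕ))*(1+s^(5:ℕ)))*w))) := by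
  have ho : 0 < 1 - s := by linarith
  have hp : 0 < 1 + s := by linarith
  have hd : 0 < 1 - s + s^(2:ℕ) := by positivity
  have h5 : 0 < 1 + s^(5:ℕ) := by positivity
  have h1w : 0 ≤ 1 - w := by linarith
  have n0_0 : 0 ≤ ev L_cJ22_p_lo_0_0 s := pos_of_check 8 _ (by decide +kernel) hs0.le hs1.le
  have n1_0 : 0 ≤ ev L_cJ22_p_lo_1_0 s := pos_of_check 8 _ (by decide +kernel) hs0.le hs1.le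
  have n2_0 : 0 ≤ ev L_cJ22_p_lo_2_0 s := pos_of_check 8 _ (by decide +kernel) hs0.le hs1.le
  have hth : 0 < s+(3/2)*(1-s)^(2:ℕ) := by positivity
  have hf0 : 0 < (1-s)^(2:ℕ)+(7/20)^(2:ℕ)*s := by positivity
  have hf1 : 0 < (1-s)^(2:ℕ)+(8/5)^(2:ℕ)*s := by positivity
  have hr5 : 0 < 1-s+s^(2:ℕ)-s^(3:ℕ)+s^(4:ℕ) := by
    have h : 1-s+s^(2:ℕ)-s^(3:ℕ)+s^(4:ℕ) = (1-s)*(1+s^(2:ℕ))+s^(4:ℕ) := by ring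
    rw [h]; positivity
  rw [← sub_nonneg]
  refine le_of_le_of_eq (b := (1*w^(0:ℕ)*(1-w)^(2:ℕ)*ev L_cJ22_p_lo_0_0 s
      + 2*w^(1:ℕ)*(1-w)^(1:ℕ)*ev L_cJ22_p_lo_1_0 s
      + 1*w^(2:ℕ)*(1-w)^(0:ℕ)*ev L_cJ22_p_lo_2_0 s) / (20000*(1+s)^(3:ℕ)*(1-s+s^(2:ℕ))^(4:ℕ)*(1-s+s^(2:ℕ)-s^(3:ℕ)+s^(4:ℕ))^(2:ℕ)*(s+(3/2)*(1-s)^(2:ℕ))^(1:ℕ)*((1-s)^(2:ℕ)+(7/20)^(2:ℕ)*s)^(1:ℕ)*((1-s)^(2:ℕ)+(8/5)^(2:ℕ)*s)^(1:ℕ))) ?_ (Eq.symm ?_)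
  ·
    generalize ev L_cJ22_p_lo_0_0 s = PL_cJ22_p_lo_0_0 at *
    generalize ev L_cJ22_p_lo_1_0 s = PL_cJ22_p_lo_1_0 at *
    generalize ev L_cJ22_p_lo_2_0 s = PL_cJ22_p_lo_2_0 at *
    positivity
  simp only [K22, Kr, fac, List.map_cons, List.map_nil, List.prod_cons, List.prod_nil, mul_one, pow_one]
  push_cast
  have e5 : 1+s^(5:ℕ) = (1+s)*(1-s+s^(2:ℕ)-s^(3:ℕ)+s^(4:ℕ)) := by ring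
  rw [e5]
  generalize hgth : s+(3/2)*(1-s)^(2:ℕ) = th at *
  generalize hgf0 : (1-s)^(2:ℕ)+(7/20)^(2:ℕ)*s = f0 at *
  generalize hgf1 : (1-s)^(2:ℕ)+(8/5)^(2:ℕ)*s = f1 at *
  generalize hgr5 : 1-s+s^(2:ℕ)-s^(3:ℕ)+s^(4:ℕ) = r5 at *
  field_simp
  simp only [ev, L_cJ22_p_lo_0_0, L_cJ22_p_lo_1_0, L_cJ22_p_lo_2_0]
  push_cast
  rw [← hgth, ← hgf0, ← hgf1, ← hgr5]
  ring


def L_cJ22_p_hi_0_0 : List ℤ := [0,2175,80033,-373136,370544,1065961,-3730055,5299786,-4213894,1498586,1438586,-4052669,5387503,-4722228,3026992,-1665425,856291,-329050,60000]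
def L_cJ22_p_hi_1_0 : List ℤ := [0,2175,110033,-600486,1429360,-2007009,1962342,-1618447,1198456,-605366,253299,-629067,1248470,-1417058,1241274,-1015692,686766,-299050,60000]
def L_cJ22_p_hi_2_0 : List ℤ := [0,2175,140033,-647836,1561026,-2647981,3754463,-4679856,5093200,-4844820,4308910,-3740471,3101061,-2388964,1784154,-1233109,697241,-269050,60000]

theorem cJ22_p_hi {s w : ℝ} (hs0 : 0 < s) (hs1 : s < 1) (hw0 : 0 ≤ w) (hw1 : w ≤ 1) :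
    K22 s*((((1+s)/(1+s^(5:ℕ))*(1-w)+w/(1-s))^(2:ℕ))) ≤ ((3/2)*(1-s)^(2:ℕ)/(s+(3/2)*(1-s)^(2:ℕ))*((1)^(2:ℕ)*s)-(3/2)*(1-s)^(2:ℕ)/s*(4*(((s*(1-s^(4:ℕ))/(1+s^(5:ℕ))+s^(2:ℕ)*(1+s^(3:ℕ))/((1-s)*(1+s^(5:ℕ)))*w)-s*(1-s)/(1-s+s^(2:ℕ)))*(s/(1-s)-(s*(1-s^(4:ℕ))/(1+s^(5:ℕ))+s^(2:ℕ)*(1+s^(3:ℕ))/((1-s)*(1+s^(5:ℕ)))*w)))))+(1-s+(2*(s*(1-s^(4:ℕ))/(1+s^(5:ℕ))+s^(2:ℕ)*(1+s^(3:ℕ))/((1-s)*(1+s^(5:ℕ)))*w)))^(2:ℕ)+s*(1-s+(2*(s*(1-s^(4:ℕ))/(1+s^(5:ℕ))+s^(2:ℕ)*(1+s^(3:ℕ))/((1-s)*(1+s^(5:ℕ)))*w))) := by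
  have ho : 0 < 1 - s := by linarith
  have hp : 0 < 1 + s := by linarith
  have hd : 0 < 1 - s + s^(2:ℕ) := by positivity
  have h5 : 0 < 1 + s^(5:ℕ) := by positivity
  have h1w : 0 ≤ 1 - w := by linarith
  have n0_0 : 0 ≤ ev L_cJ22_p_hi_0_0 s := pos_of_check 8 _ (by decide +kernel) hs0.le hs1.le
  have n1_0 : 0 ≤ ev L_cJ22_p_hi_1_0 s := pos_of_check 8 _ (by decide +kernel) hs0.le hs1.le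
  have n2_0 : 0 ≤ ev L_cJ22_p_hi_2_0 s := pos_of_check 8 _ (by decide +kernel) hs0.le hs1.le
  have hth : 0 < s+(3/2)*(1-s)^(2:ℕ) := by positivity
  have hf0 : 0 < (1-s)^(2:ℕ)+(7/20)^(2:ℕ)*s := by positivity
  have hf1 : 0 < (1-s)^(2:ℕ)+(8/5)^(2:ℕ)*s := by positivity
  have hr5 : 0 < 1-s+s^(2:ℕ)-s^(3:ℕ)+s^(4:ℕ) := by
    have h : 1-s+s^(2:ℕ)-s^(3:ℕ)+s^(4:ℕ) = (1-s)*(1+s^(2:ℕ))+s^(4:ℕ) := by ring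
    rw [h]; positivity
  rw [← sub_nonneg]
  refine le_of_le_of_eq (b := (1*w^(0:ℕ)*(1-w)^(2:ℕ)*ev L_cJ22_p_hi_0_0 s
      + 2*w^(1:ℕ)*(1-w)^(1:ℕ)*ev L_cJ22_p_hi_1_0 s
      + 1*w^(2:ℕ)*(1-w)^(0:ℕ)*ev L_cJ22_p_hi_2_0 s) / (20000*(1-s)^(2:ℕ)*(1+s)^(1:ℕ)*(1-s+s^(2:ℕ)-s^(3:ℕ)+s^(4:ℕ))^(2:ℕ)*(s+(3/2)*(1-s)^(2:ℕ))^(1:ℕ)*((1-s)^(2:ℕ)+(7/20)^(2:ℕ)*s)^(1:ℕ)*((1-s)^(2:ℕ)+(8/5)^(2:ℕ)*s)^(1:ℕ))) ?_ (Eq.symm ?_)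
  ·
    generalize ev L_cJ22_p_hi_0_0 s = PL_cJ22_p_hi_0_0 at *
    generalize ev L_cJ22_p_hi_1_0 s = PL_cJ22_p_hi_1_0 at *
    generalize ev L_cJ22_p_hi_2_0 s = PL_cJ22_p_hi_2_0 at *
    positivity
  simp only [K22, Kr, fac, List.map_cons, List.map_nil, List.prod_cons, List.prod_nil, mul_one, pow_one]
  push_cast
  have e5 : 1+s^(5:ℕ) = (1+s)*(1-s+s^(2:ℕ)-s^(3:ℕ)+s^(4:ℕ)) := by ring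
  rw [e5]
  generalize hgth : s+(3/2)*(1-s)^(2:ℕ) = th at *
  generalize hgf0 : (1-s)^(2:ℕ)+(7/20)^(2:ℕ)*s = f0 at *
  generalize hgf1 : (1-s)^(2:ℕ)+(8/5)^(2:ℕ)*s = f1 at *
  generalize hgr5 : 1-s+s^(2:ℕ)-s^(3:ℕ)+s^(4:ℕ) = r5 at *
  field_simp
  simp only [ev, L_cJ22_p_hi_0_0, L_cJ22_p_hi_1_0, L_cJ22_p_hi_2_0]
  push_cast
  rw [← hgth, ← hgf0, ← hgf1, ← hgr5]
  ring


end Pool.Agent.H59
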