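import Pool.Agent.H59.Bern
import Pool.Agent.H59.KDefs
set_option autoImplicit false
set_option maxRecDepth 10000
set_option maxHeartbeats 4000000
namespace Pool.Agent.H59
open Bern

def L_cJ22_m_lo_0_0 : List ℤ := [0,2175,-39967,409314,-1424422,2716230,-3167418,1713602,2817128,-11330896,22710066,-33526431,40547217,-41717045,36008133,-24583508,11194092,445760,-8348218,11859266,-11428294,8730930,-5587888,3016641,-1295341,389050,-60000]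
def L_cJ22_m_lo_1_0 : List ℤ := [0,2175,-39967,379314,-1608372,4310896,-8147504,11479287,-11952207,7904104,765410,-12079958,22371625,-27580919,25585910,-17316418,5998269,4734750,-12063232,14748093,-13381882,9868548,-6117621,3186166,-1325341,389050,-60000]
def L_cJ22_m_lo_2_0 : List ℤ := [0,2175,-39967,349314,-1792322,6085562,-14654740,25884870,-33335214,28709580,-8598754,-21064325,48066459,-61212631,55965925,-35357354,8279686,14592048,-26061522,25997792,-19561768,12293316,-6827354,3355691,-1355341,389050,-60000]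

theorem cJ22_m_lo {s w : ℝ} (hs0 : 0 < s) (hs1 : s < 1) (hw0 : 0 ≤ w) (hw1 : w ≤ 1) :
    K22 s*((((1-s)*(1+s+s^(2:ℕ))/((1+s)*(1-s+s^(2:ℕ))^(2:ℕ))*(1-w)+(1+s)/(1+s^(5:ℕ))*w)^(2:ℕ))) ≤ ((1-s)*(((3/2)*(1-s)^(2:ℕ)/(s+(3/2)*(1-s)^(2:ℕ))*((1)^(2:ℕ)*s)-(3/2)*(1-s)^(2:ℕ)/s*(4*(((s*(1-s)/(1-s+s^(2:ℕ))+s^(3:ℕ)*(1-s)*(1+s)/((1-s+s^(2:ℕ))*(1+s^(5:ℕ)))*w)-s*(1-s)/(1-s+s^(2:ℕ)))*(s/(1-s)-(s*(1-s)/(1-s+s^(2:ℕ))+s^(3:ℕ)*(1-s)*(1+s)/((1-s+s^(2:ℕ))*(1+s^(5:ℕ)))*w)))))+(1-s+(2*(s*(1-s)/(1-s+s^(2:ℕ))+s^(3:ℕ)*(1-s)*(1+s)/((1-s+s^(2:ℕ))*(1+s^(5:ℕ)))*w)))^(2:ℕ))+(3-s)*(s*(1-s+(2*(s*(1-s)/(1-s+s^(2:ℕ))+s^(3:ℕ)*(1-s)*(1+s)/((1-s+s^(2:ℕ))*(1+s^(5:ℕ)))*w))))+2*s^(2:ℕ))/(1+s) := by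
  have ho : 0 < 1 - s := by linarith
  have hp : 0 < 1 + s := by linarith
  have hd : 0 < 1 - s + s^(2:ℕ) := by positivity
  have h5 : 0 < 1 + s^(5:ℕ) := by positivity
  have h1w : 0 ≤ 1 - w := by linarith
  have n0_0 : 0 ≤ ev L_cJ22_m_lo_0_0 s := pos_of_check 8 _ (by decide +kernel) hs0.le hs1.le
  have n1_0 : 0 ≤ ev L_cJ22_m_lo_1_0 s := pos_of_check 8 _ (by decide +kernel) hs0.le hs1.le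
  have n2_0 : 0 ≤ ev L_cJ22_m_lo_2_0 s := pos_of_check 8 _ (by decide +kernel) hs0.le hs1.le
  have hth : 0 < s+(3/2)*(1-s)^(2:ℕ) := by positivity
  have hf0 : 0 < (1-s)^(2:ℕ)+(7/20)^(2:ℕ)*s := by positivity
  have hf1 : 0 < (1-s)^(2:ℕ)+(8/5)^(2:ℕ)*s := by positivity
  have hr5 : 0 < 1-s+s^(2:ℕ)-s^(3:ℕ)+s^(4:ℕ) := by
    have h : 1-s+s^(2:ℕ)-s^(3:ℕ)+s^(4:ℕ) = (1-s)*(1+s^(2:ℕ))+s^(4:ℕ) := by ring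
    rw [h]; positivity
  rw [← sub_nonneg]
  refine le_of_le_of_eq (b := (1*w^(0:ℕ)*(1-w)^(2:ℕ)*ev L_cJ22_m_lo_0_0 s
      + 2*w^(1:ℕ)*(1-w)^(1:ℕ)*ev L_cJ22_m_lo_1_0 s
      + 1*w^(2:ℕ)*(1-w)^(0:ℕ)*ev L_cJ22_m_lo_2_0 s) / (20000*(1+s)^(3:ℕ)*(1-s+s^(2:ℕ))^(4:ℕ)*(1-s+s^(2:ℕ)-s^(3:ℕ)+s^(4:ℕ))^(2:ℕ)*(s+(3/2)*(1-s)^(2:ℕ))^(1:ℕ)*((1-s)^(2:ℕ)+(7/20)^(2:ℕ)*s)^(1:ℕ)*((1-s)^(2:ℕ)+(8/5)^(2:ℕ)*s)^(1:ℕ))) ?_ (Eq.symm ?_)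
  ·
    generalize ev L_cJ22_m_lo_0_0 s = PL_cJ22_m_lo_0_0 at *
    generalize ev L_cJ22_m_lo_1_0 s = PL_cJ22_m_lo_1_0 at *
    generalize ev L_cJ22_m_lo_2_0 s = PL_cJ22_m_lo_2_0 at *
    positivity
  simp only [K22, Kr, fac, List.map_cons, List.map_nil, List.prod_cons, List.prod_nil, mul_one, pow_one]
  push_cast
  have e5 : 1+s^(5:ℕ) = (1+s)*(1-s+s^(2:ℕ)-s^(3:ℕ)+s^(4:ℕ)) := by ring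
  rw [e5]
  generalize hgth : s+(3/2)*(1-s)^(2:ℕ) = th at *
  generalize hgf0 : (1-s)^(2:ℕ)+(7/20)^(2:ℕ)*s = f0 at *
  generalize hgf1 : (1-s)^(2:ℕ)+(8/5)^(2:ℕ)*s = f1 at *
  generalize hgr5 : 1-s+s^(2:ℕ)-s^(3:ℕ)+s^(4:ℕ) = r5 at *
  field_simp
  simp only [ev, L_cJ22_m_lo_0_0, L_cJ22_m_lo_1_0, L_cJ22_m_lo_2_0]
  push_cast
  rw [← hgth, ← hgf0, ← hgf1, ← hgr5]
  ring


def L_cJ22_m_hi_0_0 : List ℤ := [0,2175,-37792,307172,-1413916,4135061,-8354858,12579504,-15194658,15720636,-14282050,11081989,-7090776,3821572,-1911300,906291,-329050,60000]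
def L_cJ22_m_hi_1_0 : List ℤ := [0,2175,-7792,49822,-273400,843141,-1683895,2508128,-3105486,3447828,-3452413,3077200,-2486400,1907012,-1341092,766766,-299050,60000]
def L_cJ22_m_hi_2_0 : List ℤ := [0,2175,22208,-27528,-240034,1030369,-2348956,4049800,-5861568,7187572,-7468030,6685459,-5218048,3471600,-1878034,807241,-269050,60000]

theorem cJ22_m_hi {s w : ℝ} (hs0 : 0 < s) (hs1 : s < 1) (hw0 : 0 ≤ w) (hw1 : w ≤ 1) :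
    K22 s*((((1+s)/(1+s^(5:ℕ))*(1-w)+w/(1-s))^(2:ℕ))) ≤ ((1-s)*(((3/2)*(1-s)^(2:ℕ)/(s+(3/2)*(1-s)^(2:ℕ))*((1)^(2:ℕ)*s)-(3/2)*(1-s)^(2:ℕ)/s*(4*(((s*(1-s^(4:ℕ))/(1+s^(5:ℕ))+s^(2:ℕ)*(1+s^(3:ℕ))/((1-s)*(1+s^(5:ℕ)))*w)-s*(1-s)/(1-s+s^(2:ℕ)))*(s/(1-s)-(s*(1-s^(4:ℕ))/(1+s^(5:ℕ))+s^(2:ℕ)*(1+s^(3:ℕ))/((1-s)*(1+s^(5:ℕ)))*w)))))+(1-s+(2*(s*(1-s^(4:ℕ))/(1+s^(5:ℕ))+s^(2:ℕ)*(1+s^(3:ℕ))/((1-s)*(1+s^(5:ℕ)))*w)))^(2:ℕ))+(3-s)*(s*(1-s+(2*(s*(1-s^(4:ℕ))/(1+s^(5:ℕ))+s^(2:ℕ)*(1+s^(3:ℕ))/((1-s)*(1+s^(5:ℕ)))*w))))+2*s^(2:ℕ))/(1+s) := by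
  have ho : 0 < 1 - s := by linarith
  have hp : 0 < 1 + s := by linarith
  have hd : 0 < 1 - s + s^(2:ℕ) := by positivity
  have h5 : 0 < 1 + s^(5:ℕ) := by positivity
  have h1w : 0 ≤ 1 - w := by linarith
  have n0_0 : 0 ≤ ev L_cJ22_m_hi_0_0 s := pos_of_check 8 _ (by decide +kernel) hs0.le hs1.le
  have n1_0 : 0 ≤ ev L_cJ22_m_hi_1_0 s := pos_of_check 8 _ (by decide +kernel) hs0.le hs1.le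
  have n2_0 : 0 ≤ ev L_cJ22_m_hi_2_0 s := pos_of_check 8 _ (by decide +kernel) hs0.le hs1.le
  have hth : 0 < s+(3/2)*(1-s)^(2:ℕ) := by positivity
  have hf0 : 0 < (1-s)^(2:ℕ)+(7/20)^(2:ℕ)*s := by positivity
  have hf1 : 0 < (1-s)^(2:ℕ)+(8/5)^(2:ℕ)*s := by positivity
  have hr5 : 0 < 1-s+s^(2:ℕ)-s^(3:ℕ)+s^(4:ℕ) := by
    have h : 1-s+s^(2:ℕ)-s^(3:ℕ)+s^(4:ℕ) = (1-s)*(1+s^(2:ℕ))+s^(4:ℕ) := by ring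
    rw [h]; positivity
  rw [← sub_nonneg]
  refine le_of_le_of_eq (b := (1*w^(0:ℕ)*(1-w)^(2:ℕ)*ev L_cJ22_m_hi_0_0 s
      + 2*w^(1:ℕ)*(1-w)^(1:ℕ)*ev L_cJ22_m_hi_1_0 s
      + 1*w^(2:ℕ)*(1-w)^(0:ℕ)*ev L_cJ22_m_hi_2_0 s) / (20000*(1-s)^(1:ℕ)*(1+s)^(1:ℕ)*(1-s+s^(2:ℕ)-s^(3:ℕ)+s^(4:ℕ))^(2:ℕ)*(s+(3/2)*(1-s)^(2:ℕ))^(1:ℕ)*((1-s)^(2:ℕ)+(7/20)^(2:ℕ)*s)^(1:ℕ)*((1-s)^(2:ℕ)+(8/5)^(2:ℕ)*s)^(1:ℕ))) ?_ (Eq.symm ?_)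
  ·
    generalize ev L_cJ22_m_hi_0_0 s = PL_cJ22_m_hi_0_0 at *
    generalize ev L_cJ22_m_hi_1_0 s = PL_cJ22_m_hi_1_0 at *
    generalize ev L_cJ22_m_hi_2_0 s = PL_cJ22_m_hi_2_0 at *
    positivity
  simp only [K22, Kr, fac, List.map_cons, List.map_nil, List.prod_cons, List.prod_nil, mul_one, pow_one]
  push_cast
  have e5 : 1+s^(5:ℕ) = (1+s)*(1-s+s^(2:ℕ)-s^(3:ℕ)+s^(4:ℕ)) := by ring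
  rw [e5]
  generalize hgth : s+(3/2)*(1-s)^(2:ℕ) = th at *
  generalize hgf0 : (1-s)^(2:ℕ)+(7/20)^(2:ℕ)*s = f0 at *
  generalize hgf1 : (1-s)^(2:ℕ)+(8/5)^(2:ℕ)*s = f1 at *
  generalize hgr5 : 1-s+s^(2:ℕ)-s^(3:ℕ)+s^(4:ℕ) = r5 at *
  field_simp
  simp only [ev, L_cJ22_m_hi_0_0, L_cJ22_m_hi_1_0, L_cJ22_m_hi_2_0]
  push_cast
  rw [← hgth, ← hgf0, ← hgf1, ← hgr5]
  ring


end Pool.Agent.H59
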