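import Pool.Agent.H59.Bern
import Pool.Agent.H59.KDefs
set_option autoImplicit false
set_option maxRecDepth 10000
set_option maxHeartbeats 4000000
namespace Pool.Agent.H59
open Bern

def L_cJ3_p_lo_0_0 : List ℤ := [0,171253600000,3466915488700,-15540835951820,39967303355000,-76824525264260,124581967385640,-174838888826900,207251686163020,-204181878366400,169031747424500,-121894307929260,78772921870040,-43266036981500,16664010047240,-2698053918580,-989065495420,157787400000,168000000000]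
def L_cJ3_p_lo_1_0 : List ℤ := [0,56453600000,2786854898700,-6812905507183,9354101518723,-6540775596511,3004310842685,-4034629011503,4416593070127,2779863696722,-13681334498978,15976553607227,-6876090635983,-1788180415915,2269487651889,326462017163,-1439122847163,37157610000,165200000000]
def L_cJ3_p_lo_2_0 : List ℤ := [0,453600000,1893219898700,-1092786665943,176786842960,3155891858389,-5078275107243,-299527252386,6253292974749,-4478767338926,-3661924995786,6867791316589,-644853522606,-4485634302743,2140123711529,69625375020,-1299569802303,262953410000,221200000000]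
def L_cJ3_p_lo_3_0 : List ℤ := [0,3253600000,786010488700,107520571900,303119927711,2110441354120,-3463298461424,16694494691,7608024596566,-5930922689824,-4871301027524,8720134215626,-812357833349,-5383877755344,909550870160,-422418591169,-795748560840,779174800000,336000000000]

theorem cJ3_p_lo {s w : ℝ} (hs0 : 0 < s) (hs1 : s < 1) (hw0 : 0 ≤ w) (hw1 : w ≤ 1) :
    K3 s*(((((1-s)*(1-s+s^(2:ℕ))*(1-w)+(1+s)*w)/((1+s)*(1-s+s^(2:ℕ))))^(3:ℕ))) ≤ ((7/20)*(1-s)^(2:ℕ)/(s+(7/20)*(1-s)^(2:ℕ))*((2)^(2:ℕ)*s)-(7/20)*(1-s)^(2:ℕ)/s*(9*((s*(1-s)/(1-s+s^(2:ℕ))*w)*(s/(1-s)-(s*(1-s)/(1-s+s^(2:ℕ))*w)))))+(1-s+(3*(s*(1-s)/(1-s+s^(2:ℕ))*w)))^(2:ℕ)+s*(1-s+(3*(s*(1-s)/(1-s+s^(2:ℕ))*w))) := by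
  have ho : 0 < 1 - s := by linarith
  have hp : 0 < 1 + s := by linarith
  have hd : 0 < 1 - s + s^(2:ℕ) := by positivity
  have h5 : 0 < 1 + s^(5:ℕ) := by positivity
  have h1w : 0 ≤ 1 - w := by linarith
  have n0_0 : 0 ≤ ev L_cJ3_p_lo_0_0 s := pos_of_check 8 _ (by decide +kernel) hs0.le hs1.le
  have n1_0 : 0 ≤ ev L_cJ3_p_lo_1_0 s := pos_of_check 8 _ (by decide +kernel) hs0.le hs1.le
  have n2_0 : 0 ≤ ev L_cJ3_p_lo_2_0 s := pos_of_check 8 _ (by decide +kernel) hs0.le hs1.le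
  have n3_0 : 0 ≤ ev L_cJ3_p_lo_3_0 s := pos_of_check 8 _ (by decide +kernel) hs0.le hs1.le
  have hth : 0 < s+(7/20)*(1-s)^(2:ℕ) := by positivity
  have hf0 : 0 < (1-s)^(2:ℕ)+(449/200)^(2:ℕ)*s := by positivity
  have hf1 : 0 < (1-s)^(2:ℕ)+(43/100)^(2:ℕ)*s := by positivity
  rw [← sub_nonneg]
  refine le_of_le_of_eq (b := (1*w^(0:ℕ)*(1-w)^(3:ℕ)*ev L_cJ3_p_lo_0_0 s
      + 3*w^(1:ℕ)*(1-w)^(2:ℕ)*ev L_cJ3_p_lo_1_0 s
      + 3*w^(2:ℕ)*(1-w)^(1:ℕ)*ev L_cJ3_p_lo_2_0 s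
      + 1*w^(3:ℕ)*(1-w)^(0:ℕ)*ev L_cJ3_p_lo_3_0 s) / (160000000000*(1+s)^(5:ℕ)*(1-s+s^(2:ℕ))^(3:ℕ)*(s+(7/20)*(1-s)^(2:ℕ))^(1:ℕ)*((1-s)^(2:ℕ)+(449/200)^(2:ℕ)*s)^(1:ℕ)*((1-s)^(2:ℕ)+(43/100)^(2:ℕ)*s)^(1:ℕ))) ?_ (Eq.symm ?_)
  ·
    generalize ev L_cJ3_p_lo_0_0 s = PL_cJ3_p_lo_0_0 at *
    generalize ev L_cJ3_p_lo_1_0 s = PL_cJ3_p_lo_1_0 at *
    generalize ev L_cJ3_p_lo_2_0 s = PL_cJ3_p_lo_2_0 at *
    generalize ev L_cJ3_p_lo_3_0 s = PL_cJ3_p_lo_3_0 at *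
    positivity
  simp only [K3, Kr, fac, List.map_cons, List.map_nil, List.prod_cons, List.prod_nil, mul_one, pow_one]
  push_cast
  generalize hgth : s+(7/20)*(1-s)^(2:ℕ) = th at *
  generalize hgf0 : (1-s)^(2:ℕ)+(449/200)^(2:ℕ)*s = f0 at *
  generalize hgf1 : (1-s)^(2:ℕ)+(43/100)^(2:ℕ)*s = f1 at *
  field_simp
  simp only [ev, L_cJ3_p_lo_0_0, L_cJ3_p_lo_1_0, L_cJ3_p_lo_2_0, L_cJ3_p_lo_3_0]
  push_cast
  rw [← hgth, ← hgf0, ← hgf1]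
  ring


def L_cJ3_p_hi_0_0 : List ℤ := [0,3253600000,769742488700,-3780235071600,9902313421311,-17524255467235,19264999967419,-6070814150204,-17946964838650,31658059610878,-20463901217790,-3103696759764,15920807029659,-13026457464915,5285596613031,-323622560840,-900825200000,336000000000]
def L_cJ3_p_hi_1_0 : List ℤ := [0,3253600000,884542488700,-3997160081600,10823495981474,-19386421474733,21605850964595,-8286832991822,-15888926434269,29672123588990,-19569918725109,-2856177050022,15749079635635,-13080636815493,4929553684494,-151801170840,-786025200000,336000000000]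
def L_cJ3_p_hi_2_0 : List ℤ := [0,3253600000,999342488700,-4155285091600,11920304131637,-21559687075628,24952195264962,-11374812223554,-12404844612199,26953761232844,-17757558719139,-3124331097434,15672753490962,-12884573559468,4805136345957,78820219160,-671225200000,336000000000]
def L_cJ3_p_hi_3_0 : List ℤ := [0,3253600000,1114142488700,-4254610101600,13192737871800,-24044052269920,29248032868520,-15952094045400,-7257969518600,22822093563320,-14345942220760,-4144908755840,16309170795640,-12382267696840,4912344597420,368241609160,-556425200000,336000000000]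

theorem cJ3_p_hi {s w : ℝ} (hs0 : 0 < s) (hs1 : s < 1) (hw0 : 0 ≤ w) (hw1 : w ≤ 1) :
    K3 s*(((((1-s)*(1-w)+(1-s+s^(2:ℕ))*w)/((1-s)*(1-s+s^(2:ℕ))))^(3:ℕ))) ≤ ((7/20)*(1-s)^(2:ℕ)/(s+(7/20)*(1-s)^(2:ℕ))*((2)^(2:ℕ)*s)-(7/20)*(1-s)^(2:ℕ)/s*(9*((s*((1-s)^(2:ℕ)+s*w)/((1-s)*(1-s+s^(2:ℕ))))*(s/(1-s)-(s*((1-s)^(2:ℕ)+s*w)/((1-s)*(1-s+s^(2:ℕ))))))))+(1-s+(3*(s*((1-s)^(2:ℕ)+s*w)/((1-s)*(1-s+s^(2:ℕ))))))^(2:ℕ)+s*(1-s+(3*(s*((1-s)^(2:ℕ)+s*w)/((1-s)*(1-s+s^(2:ℕ)))))) := by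
  have ho : 0 < 1 - s := by linarith
  have hp : 0 < 1 + s := by linarith
  have hd : 0 < 1 - s + s^(2:ℕ) := by positivity
  have h5 : 0 < 1 + s^(5:ℕ) := by positivity
  have h1w : 0 ≤ 1 - w := by linarith
  have n0_0 : 0 ≤ ev L_cJ3_p_hi_0_0 s := pos_of_check 8 _ (by decide +kernel) hs0.le hs1.le
  have n1_0 : 0 ≤ ev L_cJ3_p_hi_1_0 s := pos_of_check 8 _ (by decide +kernel) hs0.le hs1.le
  have n2_0 : 0 ≤ ev L_cJ3_p_hi_2_0 s := pos_of_check 8 _ (by decide +kernel) hs0.le hs1.le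
  have n3_0 : 0 ≤ ev L_cJ3_p_hi_3_0 s := pos_of_check 8 _ (by decide +kernel) hs0.le hs1.le
  have hth : 0 < s+(7/20)*(1-s)^(2:ℕ) := by positivity
  have hf0 : 0 < (1-s)^(2:ℕ)+(449/200)^(2:ℕ)*s := by positivity
  have hf1 : 0 < (1-s)^(2:ℕ)+(43/100)^(2:ℕ)*s := by positivity
  rw [← sub_nonneg]
  refine le_of_le_of_eq (b := (1*w^(0:ℕ)*(1-w)^(3:ℕ)*ev L_cJ3_p_hi_0_0 s
      + 3*w^(1:ℕ)*(1-w)^(2:ℕ)*ev L_cJ3_p_hi_1_0 s
      + 3*w^(2:ℕ)*(1-w)^(1:ℕ)*ev L_cJ3_p_hi_2_0 s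
      + 1*w^(3:ℕ)*(1-w)^(0:ℕ)*ev L_cJ3_p_hi_3_0 s) / (160000000000*(1-s)^(2:ℕ)*(1+s)^(2:ℕ)*(1-s+s^(2:ℕ))^(3:ℕ)*(s+(7/20)*(1-s)^(2:ℕ))^(1:ℕ)*((1-s)^(2:ℕ)+(449/200)^(2:ℕ)*s)^(1:ℕ)*((1-s)^(2:ℕ)+(43/100)^(2:ℕ)*s)^(1:ℕ))) ?_ (Eq.symm ?_)
  ·
    generalize ev L_cJ3_p_hi_0_0 s = PL_cJ3_p_hi_0_0 at *
    generalize ev L_cJ3_p_hi_1_0 s = PL_cJ3_p_hi_1_0 at *
    generalize ev L_cJ3_p_hi_2_0 s = PL_cJ3_p_hi_2_0 at *
    generalize ev L_cJ3_p_hi_3_0 s = PL_cJ3_p_hi_3_0 at *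
    positivity
  simp only [K3, Kr, fac, List.map_cons, List.map_nil, List.prod_cons, List.prod_nil, mul_one, pow_one]
  push_cast
  generalize hgth : s+(7/20)*(1-s)^(2:ℕ) = th at *
  generalize hgf0 : (1-s)^(2:ℕ)+(449/200)^(2:ℕ)*s = f0 at *
  generalize hgf1 : (1-s)^(2:ℕ)+(43/100)^(2:ℕ)*s = f1 at *
  field_simp
  simp only [ev, L_cJ3_p_hi_0_0, L_cJ3_p_hi_1_0, L_cJ3_p_hi_2_0, L_cJ3_p_hi_3_0]
  push_cast
  rw [← hgth, ← hgf0, ← hgf1]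
  ring


end Pool.Agent.H59
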