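import Pool.Agent.H59.Bern
import Pool.Agent.H59.KDefs
set_option autoImplicit false
set_option maxRecDepth 10000
set_option maxHeartbeats 4000000
namespace Pool.Agent.H59
open Bern

def L_cJ3_m_lo_0_0 : List ℤ := [0,171253600000,3130915488700,-15296410751820,42608885145840,-80084324055900,123063444194000,-164272561663540,199732714988100,-210539999141320,184881238169540,-128252428704180,71253950695120,-32699709818140,15145486855600,-5957852710220,1652516295420,402212600000,-168000000000]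
def L_cJ3_m_lo_1_0 : List ℤ := [0,56453600000,2456454898700,-6556820727183,11976262433049,-9815860545163,1522927687559,6522509552853,-3135929542303,-3565441902182,2188620801082,9631248008323,-14428613248413,8768958148441,788104496763,-2948622931489,1183038067163,293242390000,-165200000000]
def L_cJ3_m_lo_2_0 : List ℤ := [0,453600000,1450819898700,-1288293485943,2514241667566,489220614023,-5730484685135,10262205611472,-2020997514417,-10985489341618,12786631082718,361069313897,-8919144011772,6076098561115,1487914133637,-2597045869346,1037885022303,67446590000,-221200000000]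
def L_cJ3_m_lo_3_0 : List ℤ := [0,3253600000,114010488700,-1002829028100,2090583449391,675883675338,-2494300921362,10596804556557,-2076250208562,-12773292676108,12713992052848,1877764229342,-10496632638477,5196232306522,1878548410222,-1856976269951,991714960840,-331174800000,-336000000000]

theorem cJ3_m_lo {s w : ℝ} (hs0 : 0 < s) (hs1 : s < 1) (hw0 : 0 ≤ w) (hw1 : w ≤ 1) :
    K3 s*(((((1-s)*(1-s+s^(2:ℕ))*(1-w)+(1+s)*w)/((1+s)*(1-s+s^(2:ℕ))))^(3:ℕ))) ≤ ((1-s)*(((7/20)*(1-s)^(2:ℕ)/(s+(7/20)*(1-s)^(2:ℕ))*((2)^(2:ℕ)*s)-(7/20)*(1-s)^(2:ℕ)/s*(9*((s*(1-s)/(1-s+s^(2:ℕ))*w)*(s/(1-s)-(s*(1-s)/(1-s+s^(2:ℕ))*w)))))+(1-s+(3*(s*(1-s)/(1-s+s^(2:ℕ))*w)))^(2:ℕ))+(3-s)*(s*(1-s+(3*(s*(1-s)/(1-s+s^(2:ℕ))*w))))+2*s^(2:ℕ))/(1+s) := by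
  have ho : 0 < 1 - s := by linarith
  have hp : 0 < 1 + s := by linarith
  have hd : 0 < 1 - s + s^(2:ℕ) := by positivity
  have h5 : 0 < 1 + s^(5:ℕ) := by positivity
  have h1w : 0 ≤ 1 - w := by linarith
  have n0_0 : 0 ≤ ev L_cJ3_m_lo_0_0 s := pos_of_check 8 _ (by decide +kernel) hs0.le hs1.le
  have n1_0 : 0 ≤ ev L_cJ3_m_lo_1_0 s := pos_of_check 8 _ (by decide +kernel) hs0.le hs1.le
  have n2_0 : 0 ≤ ev L_cJ3_m_lo_2_0 s := pos_of_check 8 _ (by decide +kernel) hs0.le hs1.le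
  have n3_0 : 0 ≤ ev L_cJ3_m_lo_3_0 s := pos_of_check 8 _ (by decide +kernel) hs0.le hs1.le
  have hth : 0 < s+(7/20)*(1-s)^(2:ℕ) := by positivity
  have hf0 : 0 < (1-s)^(2:ℕ)+(449/200)^(2:ℕ)*s := by positivity
  have hf1 : 0 < (1-s)^(2:ℕ)+(43/100)^(2:ℕ)*s := by positivity
  rw [← sub_nonneg]
  refine le_of_le_of_eq (b := (1*w^(0:ℕ)*(1-w)^(3:ℕ)*ev L_cJ3_m_lo_0_0 s
      + 3*w^(1:ℕ)*(1-w)^(2:ℕ)*ev L_cJ3_m_lo_1_0 s
      + 3*w^(2:ℕ)*(1-w)^(1:ℕ)*ev L_cJ3_m_lo_2_0 s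
      + 1*w^(3:ℕ)*(1-w)^(0:ℕ)*ev L_cJ3_m_lo_3_0 s) / (160000000000*(1+s)^(5:ℕ)*(1-s+s^(2:ℕ))^(3:ℕ)*(s+(7/20)*(1-s)^(2:ℕ))^(1:ℕ)*((1-s)^(2:ℕ)+(449/200)^(2:ℕ)*s)^(1:ℕ)*((1-s)^(2:ℕ)+(43/100)^(2:ℕ)*s)^(1:ℕ))) ?_ (Eq.symm ?_)
  ·
    generalize ev L_cJ3_m_lo_0_0 s = PL_cJ3_m_lo_0_0 at *
    generalize ev L_cJ3_m_lo_1_0 s = PL_cJ3_m_lo_1_0 at *
    generalize ev L_cJ3_m_lo_2_0 s = PL_cJ3_m_lo_2_0 at *
    generalize ev L_cJ3_m_lo_3_0 s = PL_cJ3_m_lo_3_0 at *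
    positivity
  simp only [K3, Kr, fac, List.map_cons, List.map_nil, List.prod_cons, List.prod_nil, mul_one, pow_one]
  push_cast
  generalize hgth : s+(7/20)*(1-s)^(2:ℕ) = th at *
  generalize hgf0 : (1-s)^(2:ℕ)+(449/200)^(2:ℕ)*s = f0 at *
  generalize hgf1 : (1-s)^(2:ℕ)+(43/100)^(2:ℕ)*s = f1 at *
  field_simp
  simp only [ev, L_cJ3_m_lo_0_0, L_cJ3_m_lo_1_0, L_cJ3_m_lo_2_0, L_cJ3_m_lo_3_0]
  push_cast
  rw [← hgth, ← hgf0, ← hgf1]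
  ring


def L_cJ3_m_hi_0_0 : List ℤ := [0,3253600000,100996088700,-1429588582900,7075936360091,-18454739194326,32395812488905,-35808050765909,16018399260219,16276099560619,-35588160967649,31081557137365,-15130684937586,3428409313311,707585839160,-1012825200000,336000000000]
def L_cJ3_m_hi_1_0 : List ℤ := [0,3253600000,215796088700,-1761313592900,7439351130254,-19136553394587,33743880080182,-36346655612604,16684141384815,15429925641335,-35066332416244,30997213965422,-15057409099907,3136536594774,876607229160,-898025200000,336000000000]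
def L_cJ3_m_hi_2_0 : List ℤ := [0,3253600000,330596088700,-2034238602900,7919591490417,-20358292778245,35402681758047,-37594455228321,18123363737882,14439603117562,-33955477454741,31042855026227,-14906716245625,3017489466237,1104428619160,-783225200000,336000000000]
def L_cJ3_m_hi_3_0 : List ℤ := [0,3253600000,445396088700,-2248363612900,8516657440580,-22119957345300,37316217522500,-40224791813060,19899473973260,12187660664020,-32692188429300,30545138119780,-14734606374740,3071267927700,1391050009160,-668425200000,336000000000]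

theorem cJ3_m_hi {s w : ℝ} (hs0 : 0 < s) (hs1 : s < 1) (hw0 : 0 ≤ w) (hw1 : w ≤ 1) :
    K3 s*(((((1-s)*(1-w)+(1-s+s^(2:ℕ))*w)/((1-s)*(1-s+s^(2:ℕ))))^(3:ℕ))) ≤ ((1-s)*(((7/20)*(1-s)^(2:ℕ)/(s+(7/20)*(1-s)^(2:ℕ))*((2)^(2:ℕ)*s)-(7/20)*(1-s)^(2:ℕ)/s*(9*((s*((1-s)^(2:ℕ)+s*w)/((1-s)*(1-s+s^(2:ℕ))))*(s/(1-s)-(s*((1-s)^(2:ℕ)+s*w)/((1-s)*(1-s+s^(2:ℕ))))))))+(1-s+(3*(s*((1-s)^(2:ℕ)+s*w)/((1-s)*(1-s+s^(2:ℕ))))))^(2:ℕ))+(3-s)*(s*(1-s+(3*(s*((1-s)^(2:ℕ)+s*w)/((1-s)*(1-s+s^(2:ℕ)))))))+2*s^(2:ℕ))/(1+s) := by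
  have ho : 0 < 1 - s := by linarith
  have hp : 0 < 1 + s := by linarith
  have hd : 0 < 1 - s + s^(2:ℕ) := by positivity
  have h5 : 0 < 1 + s^(5:ℕ) := by positivity
  have h1w : 0 ≤ 1 - w := by linarith
  have n0_0 : 0 ≤ ev L_cJ3_m_hi_0_0 s := pos_of_check 8 _ (by decide +kernel) hs0.le hs1.le
  have n1_0 : 0 ≤ ev L_cJ3_m_hi_1_0 s := pos_of_check 8 _ (by decide +kernel) hs0.le hs1.le
  have n2_0 : 0 ≤ ev L_cJ3_m_hi_2_0 s := pos_of_check 8 _ (by decide +kernel) hs0.le hs1.le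
  have n3_0 : 0 ≤ ev L_cJ3_m_hi_3_0 s := pos_of_check 8 _ (by decide +kernel) hs0.le hs1.le
  have hth : 0 < s+(7/20)*(1-s)^(2:ℕ) := by positivity
  have hf0 : 0 < (1-s)^(2:ℕ)+(449/200)^(2:ℕ)*s := by positivity
  have hf1 : 0 < (1-s)^(2:ℕ)+(43/100)^(2:ℕ)*s := by positivity
  rw [← sub_nonneg]
  refine le_of_le_of_eq (b := (1*w^(0:ℕ)*(1-w)^(3:ℕ)*ev L_cJ3_m_hi_0_0 s
      + 3*w^(1:ℕ)*(1-w)^(2:ℕ)*ev L_cJ3_m_hi_1_0 s
      + 3*w^(2:ℕ)*(1-w)^(1:ℕ)*ev L_cJ3_m_hi_2_0 s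
      + 1*w^(3:ℕ)*(1-w)^(0:ℕ)*ev L_cJ3_m_hi_3_0 s) / (160000000000*(1-s)^(1:ℕ)*(1+s)^(2:ℕ)*(1-s+s^(2:ℕ))^(3:ℕ)*(s+(7/20)*(1-s)^(2:ℕ))^(1:ℕ)*((1-s)^(2:ℕ)+(449/200)^(2:ℕ)*s)^(1:ℕ)*((1-s)^(2:ℕ)+(43/100)^(2:ℕ)*s)^(1:ℕ))) ?_ (Eq.symm ?_)
  ·
    generalize ev L_cJ3_m_hi_0_0 s = PL_cJ3_m_hi_0_0 at *
    generalize ev L_cJ3_m_hi_1_0 s = PL_cJ3_m_hi_1_0 at *
    generalize ev L_cJ3_m_hi_2_0 s = PL_cJ3_m_hi_2_0 at *
    generalize ev L_cJ3_m_hi_3_0 s = PL_cJ3_m_hi_3_0 at *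
    positivity
  simp only [K3, Kr, fac, List.map_cons, List.map_nil, List.prod_cons, List.prod_nil, mul_one, pow_one]
  push_cast
  generalize hgth : s+(7/20)*(1-s)^(2:ℕ) = th at *
  generalize hgf0 : (1-s)^(2:ℕ)+(449/200)^(2:ℕ)*s = f0 at *
  generalize hgf1 : (1-s)^(2:ℕ)+(43/100)^(2:ℕ)*s = f1 at *
  field_simp
  simp only [ev, L_cJ3_m_hi_0_0, L_cJ3_m_hi_1_0, L_cJ3_m_hi_2_0, L_cJ3_m_hi_3_0]
  push_cast
  rw [← hgth, ← hgf0, ← hgf1]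
  ring


end Pool.Agent.H59
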