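import Pool.Agent.H59.Bern
import Pool.Agent.H59.KDefs
set_option autoImplicit false
set_option maxRecDepth 10000
set_option maxHeartbeats 4000000
namespace Pool.Agent.H59
open Bern

def L_cJ4_p_lo_0_0 : List ℤ := [0,129000,5148285,-25632231,68746839,-126647289,182548812,-224287140,245831850,-244077786,224493594,-205795050,199334532,-188006700,147505689,-83247351,26727495,-304605,-3367944,660000,240000]
def L_cJ4_p_lo_1_0 : List ℤ := [0,69000,4275285,-13766640,20070798,-7079217,-18330939,22498434,10442223,-44020881,29635266,21974277,-51377073,31676046,3805968,-15819435,5137416,3868416,-3898944,600000,240000]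
def L_cJ4_p_lo_2_0 : List ℤ := [0,29000,3312285,-5124961,1802074,10245584,-19966961,9423887,18519073,-36233503,17103776,22656758,-36789823,13749187,14437208,-19122176,5046224,3626224,-3723856,750000,260000]
def L_cJ4_p_lo_3_0 : List ℤ := [0,9000,2259285,-517194,2033667,1646745,-15400671,16470609,9637257,-40368141,26709606,22708197,-41418072,14828400,15397872,-19097088,3644736,3239472,-3163680,1080000,300000]
def L_cJ4_p_lo_4_0 : List ℤ := [0,9000,1116285,-753339,6428577,4482897,-18772593,13243263,8202027,-41041773,30170952,25470480,-44689968,13193136,18059184,-18931824,1343952,2738160,-2218416,1590000,360000]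

theorem cJ4_p_lo {s w : ℝ} (hs0 : 0 < s) (hs1 : s < 1) (hw0 : 0 ≤ w) (hw1 : w ≤ 1) :
    K4 s*(((((1-s)*(1-s+s^(2:ℕ))*(1-w)+(1+s)*w)/((1+s)*(1-s+s^(2:ℕ))))^(4:ℕ))) ≤ ((1/4)*(1-s)^(2:ℕ)/(s+(1/4)*(1-s)^(2:ℕ))*((3)^(2:ℕ)*s)-(1/4)*(1-s)^(2:ℕ)/s*(16*((s*(1-s)/(1-s+s^(2:ℕ))*w)*(s/(1-s)-(s*(1-s)/(1-s+s^(2:ℕ))*w)))))+(1-s+(4*(s*(1-s)/(1-s+s^(2:ℕ))*w)))^(2:ℕ)+s*(1-s+(4*(s*(1-s)/(1-s+s^(2:ℕ))*w))) := by
  have ho : 0 < 1 - s := by linarith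
  have hp : 0 < 1 + s := by linarith
  have hd : 0 < 1 - s + s^(2:ℕ) := by positivity
  have h5 : 0 < 1 + s^(5:ℕ) := by positivity
  have h1w : 0 ≤ 1 - w := by linarith
  have n0_0 : 0 ≤ ev L_cJ4_p_lo_0_0 s := pos_of_check 8 _ (by decide +kernel) hs0.le hs1.le
  have n1_0 : 0 ≤ ev L_cJ4_p_lo_1_0 s := pos_of_check 8 _ (by decide +kernel) hs0.le hs1.le
  have n2_0 : 0 ≤ ev L_cJ4_p_lo_2_0 s := pos_of_check 8 _ (by decide +kernel) hs0.le hs1.le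
  have n3_0 : 0 ≤ ev L_cJ4_p_lo_3_0 s := pos_of_check 8 _ (by decide +kernel) hs0.le hs1.le
  have n4_0 : 0 ≤ ev L_cJ4_p_lo_4_0 s := pos_of_check 8 _ (by decide +kernel) hs0.le hs1.le
  have hth : 0 < s+(1/4)*(1-s)^(2:ℕ) := by positivity
  have hf0 : 0 < (1-s)^(2:ℕ)+(14/5)^(2:ℕ)*s := by positivity
  have hf1 : 0 < (1-s)^(2:ℕ)+(2/5)^(2:ℕ)*s := by positivity
  rw [← sub_nonneg]
  refine le_of_le_of_eq (b := (1*w^(0:ℕ)*(1-w)^(4:ℕ)*ev L_cJ4_p_lo_0_0 s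
      + 4*w^(1:ℕ)*(1-w)^(3:ℕ)*ev L_cJ4_p_lo_1_0 s
      + 6*w^(2:ℕ)*(1-w)^(2:ℕ)*ev L_cJ4_p_lo_2_0 s
      + 4*w^(3:ℕ)*(1-w)^(1:ℕ)*ev L_cJ4_p_lo_3_0 s
      + 1*w^(4:ℕ)*(1-w)^(0:ℕ)*ev L_cJ4_p_lo_4_0 s) / (30000*(1+s)^(7:ℕ)*(1-s+s^(2:ℕ))^(4:ℕ)*((1-s)^(2:ℕ)+(14/5)^(2:ℕ)*s)^(1:ℕ)*((1-s)^(2:ℕ)+(2/5)^(2:ℕ)*s)^(1:ℕ))) ?_ (Eq.symm ?_)
  ·
    generalize ev L_cJ4_p_lo_0_0 s = PL_cJ4_p_lo_0_0 at *
    generalize ev L_cJ4_p_lo_1_0 s = PL_cJ4_p_lo_1_0 at *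
    generalize ev L_cJ4_p_lo_2_0 s = PL_cJ4_p_lo_2_0 at *
    generalize ev L_cJ4_p_lo_3_0 s = PL_cJ4_p_lo_3_0 at *
    generalize ev L_cJ4_p_lo_4_0 s = PL_cJ4_p_lo_4_0 at *
    positivity
  simp only [K4, Kr, fac, List.map_cons, List.map_nil, List.prod_cons, List.prod_nil, mul_one, pow_one]
  push_cast
  generalize hgth : s+(1/4)*(1-s)^(2:ℕ) = th at *
  generalize hgf0 : (1-s)^(2:ℕ)+(14/5)^(2:ℕ)*s = f0 at *
  generalize hgf1 : (1-s)^(2:ℕ)+(2/5)^(2:ℕ)*s = f1 at *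
  field_simp
  simp only [ev, L_cJ4_p_lo_0_0, L_cJ4_p_lo_1_0, L_cJ4_p_lo_2_0, L_cJ4_p_lo_3_0, L_cJ4_p_lo_4_0]
  push_cast
  rw [← hgth, ← hgf0, ← hgf1]
  ring


def L_cJ4_p_hi_0_0 : List ℤ := [0,9000,1062285,-7280049,31762026,-96753546,203190129,-296735949,285998088,-123786192,-116633568,286081824,-300839184,205229808,-96594912,30418656,-4918416,-570000,360000]
def L_cJ4_p_hi_1_0 : List ℤ := [0,9000,1122285,-7421049,32368575,-97361526,203865519,-298108665,286034637,-122562984,-116146464,284664720,-300899184,206286912,-96977280,29923920,-4648416,-510000,360000]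
def L_cJ4_p_hi_2_0 : List ℤ := [0,9000,1182285,-7542049,33085124,-98405418,205228826,-298869076,285929409,-122381901,-115307832,283652880,-300863920,207199280,-97234560,29569184,-4358416,-450000,360000]
def L_cJ4_p_hi_3_0 : List ℤ := [0,9000,1242285,-7643049,33911673,-99885222,207250050,-299608182,285924057,-122484249,-113876019,282455304,-300763392,207966912,-97366752,29354448,-4048416,-390000,360000]
def L_cJ4_p_hi_4_0 : List ℤ := [0,9000,1302285,-7724049,34848222,-101800938,209899191,-300916983,286230234,-122732334,-111988719,280860339,-300006600,208619808,-97373856,29279712,-3718416,-330000,360000]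

theorem cJ4_p_hi {s w : ℝ} (hs0 : 0 < s) (hs1 : s < 1) (hw0 : 0 ≤ w) (hw1 : w ≤ 1) :
    K4 s*(((((1-s)*(1-w)+(1-s+s^(2:ℕ))*w)/((1-s)*(1-s+s^(2:ℕ))))^(4:ℕ))) ≤ ((1/4)*(1-s)^(2:ℕ)/(s+(1/4)*(1-s)^(2:ℕ))*((3)^(2:ℕ)*s)-(1/4)*(1-s)^(2:ℕ)/s*(16*((s*((1-s)^(2:ℕ)+s*w)/((1-s)*(1-s+s^(2:ℕ))))*(s/(1-s)-(s*((1-s)^(2:ℕ)+s*w)/((1-s)*(1-s+s^(2:ℕ))))))))+(1-s+(4*(s*((1-s)^(2:ℕ)+s*w)/((1-s)*(1-s+s^(2:ℕ))))))^(2:ℕ)+s*(1-s+(4*(s*((1-s)^(2:ℕ)+s*w)/((1-s)*(1-s+s^(2:ℕ)))))) := by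
  have ho : 0 < 1 - s := by linarith
  have hp : 0 < 1 + s := by linarith
  have hd : 0 < 1 - s + s^(2:ℕ) := by positivity
  have h5 : 0 < 1 + s^(5:ℕ) := by positivity
  have h1w : 0 ≤ 1 - w := by linarith
  have n0_0 : 0 ≤ ev L_cJ4_p_hi_0_0 s := pos_of_check 8 _ (by decide +kernel) hs0.le hs1.le
  have n1_0 : 0 ≤ ev L_cJ4_p_hi_1_0 s := pos_of_check 8 _ (by decide +kernel) hs0.le hs1.le
  have n2_0 : 0 ≤ ev L_cJ4_p_hi_2_0 s := pos_of_check 8 _ (by decide +kernel) hs0.le hs1.le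
  have n3_0 : 0 ≤ ev L_cJ4_p_hi_3_0 s := pos_of_check 8 _ (by decide +kernel) hs0.le hs1.le
  have n4_0 : 0 ≤ ev L_cJ4_p_hi_4_0 s := pos_of_check 8 _ (by decide +kernel) hs0.le hs1.le
  have hth : 0 < s+(1/4)*(1-s)^(2:ℕ) := by positivity
  have hf0 : 0 < (1-s)^(2:ℕ)+(14/5)^(2:ℕ)*s := by positivity
  have hf1 : 0 < (1-s)^(2:ℕ)+(2/5)^(2:ℕ)*s := by positivity
  rw [← sub_nonneg]
  refine le_of_le_of_eq (b := (1*w^(0:ℕ)*(1-w)^(4:ℕ)*ev L_cJ4_p_hi_0_0 s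
      + 4*w^(1:ℕ)*(1-w)^(3:ℕ)*ev L_cJ4_p_hi_1_0 s
      + 6*w^(2:ℕ)*(1-w)^(2:ℕ)*ev L_cJ4_p_hi_2_0 s
      + 4*w^(3:ℕ)*(1-w)^(1:ℕ)*ev L_cJ4_p_hi_3_0 s
      + 1*w^(4:ℕ)*(1-w)^(0:ℕ)*ev L_cJ4_p_hi_4_0 s) / (30000*(1-s)^(2:ℕ)*(1+s)^(3:ℕ)*(1-s+s^(2:ℕ))^(4:ℕ)*((1-s)^(2:ℕ)+(14/5)^(2:ℕ)*s)^(1:ℕ)*((1-s)^(2:ℕ)+(2/5)^(2:ℕ)*s)^(1:ℕ))) ?_ (Eq.symm ?_)
  ·
    generalize ev L_cJ4_p_hi_0_0 s = PL_cJ4_p_hi_0_0 at *
    generalize ev L_cJ4_p_hi_1_0 s = PL_cJ4_p_hi_1_0 at *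
    generalize ev L_cJ4_p_hi_2_0 s = PL_cJ4_p_hi_2_0 at *
    generalize ev L_cJ4_p_hi_3_0 s = PL_cJ4_p_hi_3_0 at *
    generalize ev L_cJ4_p_hi_4_0 s = PL_cJ4_p_hi_4_0 at *
    positivity
  simp only [K4, Kr, fac, List.map_cons, List.map_nil, List.prod_cons, List.prod_nil, mul_one, pow_one]
  push_cast
  generalize hgth : s+(1/4)*(1-s)^(2:ℕ) = th at *
  generalize hgf0 : (1-s)^(2:ℕ)+(14/5)^(2:ℕ)*s = f0 at *
  generalize hgf1 : (1-s)^(2:ℕ)+(2/5)^(2:ℕ)*s = f1 at *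
  field_simp
  simp only [ev, L_cJ4_p_hi_0_0, L_cJ4_p_hi_1_0, L_cJ4_p_hi_2_0, L_cJ4_p_hi_3_0, L_cJ4_p_hi_4_0]
  push_cast
  rw [← hgth, ← hgf0, ← hgf1]
  ring


end Pool.Agent.H59
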