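import Pool.Agent.H59.Bern
import Pool.Agent.H59.KDefs
set_option autoImplicit false
set_option maxRecDepth 10000
set_option maxHeartbeats 4000000
namespace Pool.Agent.H59
open Bern

def L_cJ4_m_lo_0_0 : List ℤ := [0,129000,4668285,-26352231,77264727,-142902009,188186700,-190935588,185132970,-214326234,272720922,-295643370,247561860,-158255148,86806809,-49895799,32365383,-16559325,5149944,-60000,-240000]
def L_cJ4_m_lo_1_0 : List ℤ := [0,69000,3795285,-14486640,28588686,-23333937,-12693051,55849986,-50256657,-14269329,77862594,-67874043,-3149745,61427598,-56892912,17532117,10775304,-12386304,4618944,-120000,-240000]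
def L_cJ4_m_lo_2_0 : List ℤ := [0,29000,2792285,-6164961,9869786,-5329840,-13209777,41435791,-43239455,-3722655,65761632,-70749450,11868033,46260035,-47321320,12889728,11803408,-11949200,4343856,-290000,-260000]
def L_cJ4_m_lo_3_0 : List ℤ := [0,9000,1659285,-2197194,9201027,-12570087,-6404895,45803217,-54240567,-2338701,76228518,-77813787,8100840,52857840,-48479952,10235520,12640512,-10977360,4003680,-600000,-300000]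
def L_cJ4_m_lo_4_0 : List ℤ := [0,9000,396285,-3393339,12245409,-7696047,-6418929,38556927,-58854741,5265555,80981448,-85725168,6120528,59500464,-48997584,6381840,13697616,-9440784,3598416,-1050000,-360000]

theorem cJ4_m_lo {s w : ℝ} (hs0 : 0 < s) (hs1 : s < 1) (hw0 : 0 ≤ w) (hw1 : w ≤ 1) :
    K4 s*(((((1-s)*(1-s+s^(2:ℕ))*(1-w)+(1+s)*w)/((1+s)*(1-s+s^(2:ℕ))))^(4:ℕ))) ≤ ((1-s)*(((1/4)*(1-s)^(2:ℕ)/(s+(1/4)*(1-s)^(2:ℕ))*((3)^(2:ℕ)*s)-(1/4)*(1-s)^(2:ℕ)/s*(16*((s*(1-s)/(1-s+s^(2:ℕ))*w)*(s/(1-s)-(s*(1-s)/(1-s+s^(2:ℕ))*w)))))+(1-s+(4*(s*(1-s)/(1-s+s^(2:ℕ))*w)))^(2:ℕ))+(3-s)*(s*(1-s+(4*(s*(1-s)/(1-s+s^(2:ℕ))*w))))+2*s^(2:ℕ))/(1+s) := by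
  have ho : 0 < 1 - s := by linarith
  have hp : 0 < 1 + s := by linarith
  have hd : 0 < 1 - s + s^(2:ℕ) := by positivity
  have h5 : 0 < 1 + s^(5:ℕ) := by positivity
  have h1w : 0 ≤ 1 - w := by linarith
  have n0_0 : 0 ≤ ev L_cJ4_m_lo_0_0 s := pos_of_check 8 _ (by decide +kernel) hs0.le hs1.le
  have n1_0 : 0 ≤ ev L_cJ4_m_lo_1_0 s := pos_of_check 8 _ (by decide +kernel) hs0.le hs1.le
  have n2_0 : 0 ≤ ev L_cJ4_m_lo_2_0 s := pos_of_check 8 _ (by decide +kernel) hs0.le hs1.le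
  have n3_0 : 0 ≤ ev L_cJ4_m_lo_3_0 s := pos_of_check 8 _ (by decide +kernel) hs0.le hs1.le
  have n4_0 : 0 ≤ ev L_cJ4_m_lo_4_0 s := pos_of_check 8 _ (by decide +kernel) hs0.le hs1.le
  have hth : 0 < s+(1/4)*(1-s)^(2:ℕ) := by positivity
  have hf0 : 0 < (1-s)^(2:ℕ)+(14/5)^(2:ℕ)*s := by positivity
  have hf1 : 0 < (1-s)^(2:ℕ)+(2/5)^(2:ℕ)*s := by positivity
  rw [← sub_nonneg]
  refine le_of_le_of_eq (b := (1*w^(0:ℕ)*(1-w)^(4:ℕ)*ev L_cJ4_m_lo_0_0 s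
      + 4*w^(1:ℕ)*(1-w)^(3:ℕ)*ev L_cJ4_m_lo_1_0 s
      + 6*w^(2:ℕ)*(1-w)^(2:ℕ)*ev L_cJ4_m_lo_2_0 s
      + 4*w^(3:ℕ)*(1-w)^(1:ℕ)*ev L_cJ4_m_lo_3_0 s
      + 1*w^(4:ℕ)*(1-w)^(0:ℕ)*ev L_cJ4_m_lo_4_0 s) / (30000*(1+s)^(7:ℕ)*(1-s+s^(2:ℕ))^(4:ℕ)*((1-s)^(2:ℕ)+(14/5)^(2:ℕ)*s)^(1:ℕ)*((1-s)^(2:ℕ)+(2/5)^(2:ℕ)*s)^(1:ℕ))) ?_ (Eq.symm ?_)
  ·
    generalize ev L_cJ4_m_lo_0_0 s = PL_cJ4_m_lo_0_0 at *
    generalize ev L_cJ4_m_lo_1_0 s = PL_cJ4_m_lo_1_0 at *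
    generalize ev L_cJ4_m_lo_2_0 s = PL_cJ4_m_lo_2_0 at *
    generalize ev L_cJ4_m_lo_3_0 s = PL_cJ4_m_lo_3_0 at *
    generalize ev L_cJ4_m_lo_4_0 s = PL_cJ4_m_lo_4_0 at *
    positivity
  simp only [K4, Kr, fac, List.map_cons, List.map_nil, List.prod_cons, List.prod_nil, mul_one, pow_one]
  push_cast
  generalize hgth : s+(1/4)*(1-s)^(2:ℕ) = th at *
  generalize hgf0 : (1-s)^(2:ℕ)+(14/5)^(2:ℕ)*s = f0 at *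
  generalize hgf1 : (1-s)^(2:ℕ)+(2/5)^(2:ℕ)*s = f1 at *
  field_simp
  simp only [ev, L_cJ4_m_lo_0_0, L_cJ4_m_lo_1_0, L_cJ4_m_lo_2_0, L_cJ4_m_lo_3_0, L_cJ4_m_lo_4_0]
  push_cast
  rw [← hgth, ← hgf0, ← hgf1]
  ring


def L_cJ4_m_hi_0_0 : List ℤ := [0,9000,351285,-5248764,34490094,-127823388,326273877,-625890936,925312272,-1059055296,937353312,-637146240,327219696,-122979360,31332864,-3808416,-750000,360000]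
def L_cJ4_m_hi_1_0 : List ℤ := [0,9000,411285,-5449764,34415643,-127216347,327796308,-629040165,925258536,-1055756352,935501472,-638285712,329079168,-123361728,30808128,-3538416,-690000,360000]
def L_cJ4_m_hi_2_0 : List ℤ := [0,9000,471285,-5630764,34431192,-127195218,329410568,-631185612,925576629,-1053388056,933749808,-639180096,330788816,-123739008,30403392,-3248416,-630000,360000]
def L_cJ4_m_hi_3_0 : List ℤ := [0,9000,531285,-5791764,34536741,-127760001,331086657,-632948277,925887204,-1051571061,932719320,-639799392,332348640,-124111200,30118656,-2938416,-570000,360000]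
def L_cJ4_m_hi_4_0 : List ℤ := [0,9000,591285,-5932764,34732290,-128910696,332794575,-634949160,925780914,-1050577020,932000661,-640764600,333728640,-124478304,29953920,-2608416,-510000,360000]

theorem cJ4_m_hi {s w : ℝ} (hs0 : 0 < s) (hs1 : s < 1) (hw0 : 0 ≤ w) (hw1 : w ≤ 1) :
    K4 s*(((((1-s)*(1-w)+(1-s+s^(2:ℕ))*w)/((1-s)*(1-s+s^(2:ℕ))))^(4:ℕ))) ≤ ((1-s)*(((1/4)*(1-s)^(2:ℕ)/(s+(1/4)*(1-s)^(2:ℕ))*((3)^(2:ℕ)*s)-(1/4)*(1-s)^(2:ℕ)/s*(16*((s*((1-s)^(2:ℕ)+s*w)/((1-s)*(1-s+s^(2:ℕ))))*(s/(1-s)-(s*((1-s)^(2:ℕ)+s*w)/((1-s)*(1-s+s^(2:ℕ))))))))+(1-s+(4*(s*((1-s)^(2:ℕ)+s*w)/((1-s)*(1-s+s^(2:ℕ))))))^(2:ℕ))+(3-s)*(s*(1-s+(4*(s*((1-s)^(2:ℕ)+s*w)/((1-s)*(1-s+s^(2:ℕ)))))))+2*s^(2:ℕ))/(1+s) := by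
  have ho : 0 < 1 - s := by linarith
  have hp : 0 < 1 + s := by linarith
  have hd : 0 < 1 - s + s^(2:ℕ) := by positivity
  have h5 : 0 < 1 + s^(5:ℕ) := by positivity
  have h1w : 0 ≤ 1 - w := by linarith
  have n0_0 : 0 ≤ ev L_cJ4_m_hi_0_0 s := pos_of_check 8 _ (by decide +kernel) hs0.le hs1.le
  have n1_0 : 0 ≤ ev L_cJ4_m_hi_1_0 s := pos_of_check 8 _ (by decide +kernel) hs0.le hs1.le
  have n2_0 : 0 ≤ ev L_cJ4_m_hi_2_0 s := pos_of_check 8 _ (by decide +kernel) hs0.le hs1.le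
  have n3_0 : 0 ≤ ev L_cJ4_m_hi_3_0 s := pos_of_check 8 _ (by decide +kernel) hs0.le hs1.le
  have n4_0 : 0 ≤ ev L_cJ4_m_hi_4_0 s := pos_of_check 8 _ (by decide +kernel) hs0.le hs1.le
  have hth : 0 < s+(1/4)*(1-s)^(2:ℕ) := by positivity
  have hf0 : 0 < (1-s)^(2:ℕ)+(14/5)^(2:ℕ)*s := by positivity
  have hf1 : 0 < (1-s)^(2:ℕ)+(2/5)^(2:ℕ)*s := by positivity
  rw [← sub_nonneg]
  refine le_of_le_of_eq (b := (1*w^(0:ℕ)*(1-w)^(4:ℕ)*ev L_cJ4_m_hi_0_0 s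
      + 4*w^(1:ℕ)*(1-w)^(3:ℕ)*ev L_cJ4_m_hi_1_0 s
      + 6*w^(2:ℕ)*(1-w)^(2:ℕ)*ev L_cJ4_m_hi_2_0 s
      + 4*w^(3:ℕ)*(1-w)^(1:ℕ)*ev L_cJ4_m_hi_3_0 s
      + 1*w^(4:ℕ)*(1-w)^(0:ℕ)*ev L_cJ4_m_hi_4_0 s) / (30000*(1-s)^(1:ℕ)*(1+s)^(3:ℕ)*(1-s+s^(2:ℕ))^(4:ℕ)*((1-s)^(2:ℕ)+(14/5)^(2:ℕ)*s)^(1:ℕ)*((1-s)^(2:ℕ)+(2/5)^(2:ℕ)*s)^(1:ℕ))) ?_ (Eq.symm ?_)
  ·
    generalize ev L_cJ4_m_hi_0_0 s = PL_cJ4_m_hi_0_0 at *
    generalize ev L_cJ4_m_hi_1_0 s = PL_cJ4_m_hi_1_0 at *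
    generalize ev L_cJ4_m_hi_2_0 s = PL_cJ4_m_hi_2_0 at *
    generalize ev L_cJ4_m_hi_3_0 s = PL_cJ4_m_hi_3_0 at *
    generalize ev L_cJ4_m_hi_4_0 s = PL_cJ4_m_hi_4_0 at *
    positivity
  simp only [K4, Kr, fac, List.map_cons, List.map_nil, List.prod_cons, List.prod_nil, mul_one, pow_one]
  push_cast
  generalize hgth : s+(1/4)*(1-s)^(2:ℕ) = th at *
  generalize hgf0 : (1-s)^(2:ℕ)+(14/5)^(2:ℕ)*s = f0 at *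
  generalize hgf1 : (1-s)^(2:ℕ)+(2/5)^(2:ℕ)*s = f1 at *
  field_simp
  simp only [ev, L_cJ4_m_hi_0_0, L_cJ4_m_hi_1_0, L_cJ4_m_hi_2_0, L_cJ4_m_hi_3_0, L_cJ4_m_hi_4_0]
  push_cast
  rw [← hgth, ← hgf0, ← hgf1]
  ring


end Pool.Agent.H59
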