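import Pool.Agent.H59.Bern
import Pool.Agent.H59.KDefs
set_option autoImplicit false
set_option maxRecDepth 10000
set_option maxHeartbeats 4000000
namespace Pool.Agent.H59
open Bern

def L_cR00_r_lo_0_0 : List ℤ := [0,356000,2026970,-3008634,1022256,-3385188,2688634,-152038,1744754,525466,-955644,-1407288,-525466,262178,488000,320000]
def L_cR00_r_lo_1_0 : List ℤ := [0,36000,1432970,-1774357,266355,-1373109,469605,716536,1824932,-65979,-202733,-1610021,-1194377,506178,648000,320000]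
def L_cR00_r_lo_2_0 : List ℤ := [0,36000,46970,10098,72276,-1023208,-98890,956754,1276754,993110,-1112000,-1250932,-1313110,-41822,1128000,320000]

theorem cR00_r_lo {s w : ℝ} (hs0 : 0 < s) (hs1 : s < 1) (hw0 : 0 ≤ w) (hw1 : w ≤ 1) :
    R00 s*((1/(1-s+s^(2:ℕ)))^(2:ℕ)*((((1-s)*(1-s+s^(2:ℕ))*(1-w)+(1+s)*w)/((1+s)*(1-s+s^(2:ℕ))))^(1:ℕ))) ≤ (1*(1-s)^(2:ℕ)/(s+1*(1-s)^(2:ℕ))*((1+2*(s/(1-s+s^(2:ℕ))))^(2:ℕ)*s)-1*(1-s)^(2:ℕ)/s*(1*((s*(1-s)/(1-s+s^(2:ℕ))*w)*(s/(1-s)-(s*(1-s)/(1-s+s^(2:ℕ))*w)))))+(1-s+(2*(s*(1-s)/(1-s+s^(2:ℕ)))+1*(s*(1-s)/(1-s+s^(2:ℕ))*w)))^(2:ℕ) := by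
  have ho : 0 < 1 - s := by linarith
  have hp : 0 < 1 + s := by linarith
  have hd : 0 < 1 - s + s^(2:ℕ) := by positivity
  have h5 : 0 < 1 + s^(5:ℕ) := by positivity
  have h1w : 0 ≤ 1 - w := by linarith
  have n0_0 : 0 ≤ ev L_cR00_r_lo_0_0 s := pos_of_check 8 _ (by decide +kernel) hs0.le hs1.le
  have n1_0 : 0 ≤ ev L_cR00_r_lo_1_0 s := pos_of_check 8 _ (by decide +kernel) hs0.le hs1.le
  have n2_0 : 0 ≤ ev L_cR00_r_lo_2_0 s := pos_of_check 8 _ (by decide +kernel) hs0.le hs1.le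
  have hth : 0 < s+1*(1-s)^(2:ℕ) := by positivity
  have hf0 : 0 < (1-s)^(2:ℕ)+(7/20)^(2:ℕ)*s := by positivity
  have hf1 : 0 < (1-s)^(2:ℕ)+(31/20)^(2:ℕ)*s := by positivity
  rw [← sub_nonneg]
  refine le_of_le_of_eq (b := (1*w^(0:ℕ)*(1-w)^(2:ℕ)*ev L_cR00_r_lo_0_0 s
      + 2*w^(1:ℕ)*(1-w)^(1:ℕ)*ev L_cR00_r_lo_1_0 s
      + 1*w^(2:ℕ)*(1-w)^(0:ℕ)*ev L_cR00_r_lo_2_0 s) / (320000*(1+s)^(3:ℕ)*(1-s+s^(2:ℕ))^(3:ℕ)*((1-s)^(2:ℕ)+(7/20)^(2:ℕ)*s)^(1:ℕ)*((1-s)^(2:ℕ)+(31/20)^(2:ℕ)*s)^(1:ℕ))) ?_ (Eq.symm ?_)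
  ·
    generalize ev L_cR00_r_lo_0_0 s = PL_cR00_r_lo_0_0 at *
    generalize ev L_cR00_r_lo_1_0 s = PL_cR00_r_lo_1_0 at *
    generalize ev L_cR00_r_lo_2_0 s = PL_cR00_r_lo_2_0 at *
    positivity
  simp only [R00, Kr, fac, List.map_cons, List.map_nil, List.prod_cons, List.prod_nil, mul_one, pow_one]
  push_cast
  generalize hgth : s+1*(1-s)^(2:ℕ) = th at *
  generalize hgf0 : (1-s)^(2:ℕ)+(7/20)^(2:ℕ)*s = f0 at *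
  generalize hgf1 : (1-s)^(2:ℕ)+(31/20)^(2:ℕ)*s = f1 at *
  field_simp
  simp only [ev, L_cR00_r_lo_0_0, L_cR00_r_lo_1_0, L_cR00_r_lo_2_0]
  push_cast
  rw [← hgth, ← hgf0, ← hgf1]
  ring


def L_cR00_r_hi_0_0 : List ℤ := [0,36000,-61030,13188,85862,-1243524,3263326,-3132000,2396356,-3000000,1178534,787644,-710890,2044356,-2145822,168000,320000]
def L_cR00_r_hi_1_0 : List ℤ := [0,36000,258970,-1240812,1811525,-1992890,3103425,-2370218,562000,-1261822,819445,237466,198377,1016356,-1665822,168000,320000]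
def L_cR00_r_hi_2_0 : List ℤ := [0,36000,578970,-2174812,3065188,-2344078,3111524,-2232436,-476000,-147644,628356,85466,635644,308356,-1185822,168000,320000]

theorem cR00_r_hi {s w : ℝ} (hs0 : 0 < s) (hs1 : s < 1) (hw0 : 0 ≤ w) (hw1 : w ≤ 1) :
    R00 s*((1/(1-s+s^(2:ℕ)))^(2:ℕ)*((((1-s)*(1-w)+(1-s+s^(2:ℕ))*w)/((1-s)*(1-s+s^(2:ℕ))))^(1:ℕ))) ≤ (1*(1-s)^(2:ℕ)/(s+1*(1-s)^(2:ℕ))*((1+2*(s/(1-s+s^(2:ℕ))))^(2:ℕ)*s)-1*(1-s)^(2:ℕ)/s*(1*((s*((1-s)^(2:ℕ)+s*w)/((1-s)*(1-s+s^(2:ℕ))))*(s/(1-s)-(s*((1-s)^(2:ℕ)+s*w)/((1-s)*(1-s+s^(2:ℕ))))))))+(1-s+(2*(s*(1-s)/(1-s+s^(2:ℕ)))+1*(s*((1-s)^(2:ℕ)+s*w)/((1-s)*(1-s+s^(2:ℕ))))))^(2:ℕ) := by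
  have ho : 0 < 1 - s := by linarith
  have hp : 0 < 1 + s := by linarith
  have hd : 0 < 1 - s + s^(2:ℕ) := by positivity
  have h5 : 0 < 1 + s^(5:ℕ) := by positivity
  have h1w : 0 ≤ 1 - w := by linarith
  have n0_0 : 0 ≤ ev L_cR00_r_hi_0_0 s := pos_of_check 8 _ (by decide +kernel) hs0.le hs1.le
  have n1_0 : 0 ≤ ev L_cR00_r_hi_1_0 s := pos_of_check 8 _ (by decide +kernel) hs0.le hs1.le
  have n2_0 : 0 ≤ ev L_cR00_r_hi_2_0 s := pos_of_check 8 _ (by decide +kernel) hs0.le hs1.le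
  have hth : 0 < s+1*(1-s)^(2:ℕ) := by positivity
  have hf0 : 0 < (1-s)^(2:ℕ)+(7/20)^(2:ℕ)*s := by positivity
  have hf1 : 0 < (1-s)^(2:ℕ)+(31/20)^(2:ℕ)*s := by positivity
  rw [← sub_nonneg]
  refine le_of_le_of_eq (b := (1*w^(0:ℕ)*(1-w)^(2:ℕ)*ev L_cR00_r_hi_0_0 s
      + 2*w^(1:ℕ)*(1-w)^(1:ℕ)*ev L_cR00_r_hi_1_0 s
      + 1*w^(2:ℕ)*(1-w)^(0:ℕ)*ev L_cR00_r_hi_2_0 s) / (320000*(1-s)^(2:ℕ)*(1+s)^(2:ℕ)*(1-s+s^(2:ℕ))^(3:ℕ)*((1-s)^(2:ℕ)+(7/20)^(2:ℕ)*s)^(1:ℕ)*((1-s)^(2:ℕ)+(31/20)^(2:ℕ)*s)^(1:ℕ))) ?_ (Eq.symm ?_)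
  ·
    generalize ev L_cR00_r_hi_0_0 s = PL_cR00_r_hi_0_0 at *
    generalize ev L_cR00_r_hi_1_0 s = PL_cR00_r_hi_1_0 at *
    generalize ev L_cR00_r_hi_2_0 s = PL_cR00_r_hi_2_0 at *
    positivity
  simp only [R00, Kr, fac, List.map_cons, List.map_nil, List.prod_cons, List.prod_nil, mul_one, pow_one]
  push_cast
  generalize hgth : s+1*(1-s)^(2:ℕ) = th at *
  generalize hgf0 : (1-s)^(2:ℕ)+(7/20)^(2:ℕ)*s = f0 at *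
  generalize hgf1 : (1-s)^(2:ℕ)+(31/20)^(2:ℕ)*s = f1 at *
  field_simp
  simp only [ev, L_cR00_r_hi_0_0, L_cR00_r_hi_1_0, L_cR00_r_hi_2_0]
  push_cast
  rw [← hgth, ← hgf0, ← hgf1]
  ring


end Pool.Agent.H59
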