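import Pool.Agent.H59.Bern
import Pool.Agent.H59.KDefs
set_option autoImplicit false
set_option maxRecDepth 10000
set_option maxHeartbeats 4000000
namespace Pool.Agent.H59
open Bern

def L_cR02_r_lo_lo_0_0 : List ℤ := [0,14045000,26491642,-384868358,1422086716,-3385296716,6314290000,-9932061642,13461211568,-15841751494,16356216568,-14979841716,12192318506,-8769815148,5621253506,-3359686716,1988766568,-1156091494,600381568,-227251642,-25610000,180153284,-205763284,115076642,-11143358,-25610000,12500000]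
def L_cR02_r_lo_lo_0_1 : List ℤ := [0,1545000,48169142,-285927537,902570037,-2022285000,3550219963,-5237616679,6816489142,-7878177389,7976164963,-7149935074,5832254253,-4278214142,2688086753,-1486395074,864489963,-536424889,266974142,-105714179,46394963,25000000,-103864963,97004963,-23948358,-19360000,12500000]
def L_cR02_r_lo_lo_0_2 : List ℤ := [0,1545000,-5763358,29309926,24103432,-348966716,859793284,-1233494926,1376193136,-1171606346,265369852,1100064852,-2040576346,2189646420,-1757846346,806989852,409469852,-1173761346,1137993136,-674499926,192043284,180153284,-360916568,295229926,-112363358,-610000,12500000]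
def L_cR02_r_lo_lo_1_0 : List ℤ := [0,14045000,26491642,-391118358,1437209216,-3257822574,5493256679,-7500137463,8617449031,-8434673957,7035453210,-5025852537,3162422722,-1921375222,1372437722,-1277362537,1277960710,-1111671457,748234031,-317422463,-45648321,244924926,-250123284,127576642,-11143358,-25610000,12500000]
def L_cR02_r_lo_lo_1_1 : List ℤ := [0,1545000,48169142,-292177537,895817537,-1868392108,2952868713,-3799789571,4190089534,-4020364889,3310058713,-2366189216,1585392611,-1054895858,689861361,-515469216,509753713,-483923639,347642034,-193204571,62019963,64466642,-141974963,109504963,-23948358,-19360000,12500000]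
def L_cR02_r_lo_lo_1_2 : List ℤ := [0,1545000,-5763358,23059926,-4524068,-168655074,486124105,-789764889,967156457,-863058883,253920710,713567389,-1504403846,1787843062,-1505481346,666517389,410803210,-1113178883,1151476457,-759309889,243331605,194314926,-392776568,307729926,-112363358,-610000,12500000]
def L_cR02_r_lo_lo_2_0 : List ℤ := [0,14045000,26491642,-397368358,1452331716,-3117848432,4621613358,-4990636642,3771719852,-1218893062,-1975003580,4796626716,-6125202988,5392524556,-3134107988,673451716,877461420,-1258548062,894119852,-330016642,-116296642,322196568,-294483284,140076642,-11143358,-25610000,12500000]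
def L_cR02_r_lo_lo_2_1 : List ℤ := [0,1545000,48169142,-298427537,889065037,-1701999216,2304907463,-2284385821,1561723284,-353849031,-1045740969,2286046716,-2919198957,2633882278,-1566093957,323946716,465324031,-622719031,426343284,-203118321,27034963,116433284,-180084963,122004963,-23948358,-19360000,12500000]
def L_cR02_r_lo_lo_2_2 : List ℤ := [0,1545000,-5763358,16809926,-33151568,24156568,61844926,-268458210,556153136,-745808062,552778136,195560000,-1225961272,1851499556,-1510846272,394535000,722443136,-1243893062,1162993136,-766543210,244009926,220976568,-424636568,320229926,-112363358,-610000,12500000]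

theorem cR02_r_lo_lo {s w v : ℝ} (hs0 : 0 < s) (hs1 : s < 1) (hw0 : 0 ≤ w) (hw1 : w ≤ 1) (hv0 : 0 ≤ v) (hv1 : v ≤ 1) :
    R02 s*((1/(1-s+s^(2:ℕ)))^(1:ℕ)*(((1-s)*(1+s+s^(2:ℕ))/((1+s)*(1-s+s^(2:ℕ))^(2:ℕ))*(1-w)+(1+s)/(1+s^(5:ℕ))*w)^(1:ℕ)*(((1-s)*(1-s+s^(2:ℕ))*(1-v)+(1+s)*v)/((1+s)*(1-s+s^(2:ℕ))))^(1:ℕ))) ≤ ((1/2)*(1-s)^(2:ℕ)/(s+(1/2)*(1-s)^(2:ℕ))*((1+1*(s/(1-s+s^(2:ℕ))))^(2:ℕ)*s)-(1/2)*(1-s)^(2:ℕ)/s*(2*(((s*(1-s)/(1-s+s^(2:ℕ))+s^(3:ℕ)*(1-s)*(1+s)/((1-s+s^(2:ℕ))*(1+s^(5:ℕ)))*w)-s*(1-s)/(1-s+s^(2:ℕ)))*(s/(1-s)-(s*(1-s)/(1-s+s^(2:ℕ))+s^(3:ℕ)*(1-s)*(1+s)/((1-s+s^(2:ℕ))*(1+s^(5:ℕ)))*w)))+2*((s*(1-s)/(1-s+s^(2:ℕ))*v)*(s/(1-s)-(s*(1-s)/(1-s+s^(2:ℕ))*v)))))+(1-s+(1*(s*(1-s)/(1-s+s^(2:ℕ)))+1*(s*(1-s)/(1-s+s^(2:ℕ))+s^(3:ℕ)*(1-s)*(1+s)/((1-s+s^(2:ℕ))*(1+s^(5:ℕ)))*w)+1*(s*(1-s)/(1-s+s^(2:ℕ))*v)))^(2:ℕ) := by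
  have ho : 0 < 1 - s := by linarith
  have hp : 0 < 1 + s := by linarith
  have hd : 0 < 1 - s + s^(2:ℕ) := by positivity
  have h5 : 0 < 1 + s^(5:ℕ) := by positivity
  have h1w : 0 ≤ 1 - w := by linarith
  have h1v : 0 ≤ 1 - v := by linarith
  have n0_0 : 0 ≤ ev L_cR02_r_lo_lo_0_0 s := pos_of_check 8 _ (by decide +kernel) hs0.le hs1.le
  have n0_1 : 0 ≤ ev L_cR02_r_lo_lo_0_1 s := pos_of_check 8 _ (by decide +kernel) hs0.le hs1.le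
  have n0_2 : 0 ≤ ev L_cR02_r_lo_lo_0_2 s := pos_of_check 8 _ (by decide +kernel) hs0.le hs1.le
  have n1_0 : 0 ≤ ev L_cR02_r_lo_lo_1_0 s := pos_of_check 8 _ (by decide +kernel) hs0.le hs1.le
  have n1_1 : 0 ≤ ev L_cR02_r_lo_lo_1_1 s := pos_of_check 8 _ (by decide +kernel) hs0.le hs1.le
  have n1_2 : 0 ≤ ev L_cR02_r_lo_lo_1_2 s := pos_of_check 8 _ (by decide +kernel) hs0.le hs1.le
  have n2_0 : 0 ≤ ev L_cR02_r_lo_lo_2_0 s := pos_of_check 8 _ (by decide +kernel) hs0.le hs1.le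
  have n2_1 : 0 ≤ ev L_cR02_r_lo_lo_2_1 s := pos_of_check 8 _ (by decide +kernel) hs0.le hs1.le
  have n2_2 : 0 ≤ ev L_cR02_r_lo_lo_2_2 s := pos_of_check 8 _ (by decide +kernel) hs0.le hs1.le
  have hth : 0 < s+(1/2)*(1-s)^(2:ℕ) := by positivity
  have hf0 : 0 < (1-s)^(2:ℕ)+(13/50)^(2:ℕ)*s := by positivity
  have hf1 : 0 < (1-s)^(2:ℕ)+(47/50)^(2:ℕ)*s := by positivity
  have hr5 : 0 < 1-s+s^(2:ℕ)-s^(3:ℕ)+s^(4:ℕ) := by
    have h : 1-s+s^(2:ℕ)-s^(3:ℕ)+s^(4:ℕ) = (1-s)*(1+s^(2:ℕ))+s^(4:ℕ) := by ring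
    rw [h]; positivity
  rw [← sub_nonneg]
  refine le_of_le_of_eq (b := (1*w^(0:ℕ)*(1-w)^(2:ℕ)*v^(0:ℕ)*(1-v)^(2:ℕ)*ev L_cR02_r_lo_lo_0_0 s
      + 2*w^(0:ℕ)*(1-w)^(2:ℕ)*v^(1:ℕ)*(1-v)^(1:ℕ)*ev L_cR02_r_lo_lo_0_1 s
      + 1*w^(0:ℕ)*(1-w)^(2:ℕ)*v^(2:ℕ)*(1-v)^(0:ℕ)*ev L_cR02_r_lo_lo_0_2 s
      + 2*w^(1:ℕ)*(1-w)^(1:ℕ)*v^(0:ℕ)*(1-v)^(2:ℕ)*ev L_cR02_r_lo_lo_1_0 s
      + 4*w^(1:ℕ)*(1-w)^(1:ℕ)*v^(1:ℕ)*(1-v)^(1:ℕ)*ev L_cR02_r_lo_lo_1_1 s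
      + 2*w^(1:ℕ)*(1-w)^(1:ℕ)*v^(2:ℕ)*(1-v)^(0:ℕ)*ev L_cR02_r_lo_lo_1_2 s
      + 1*w^(2:ℕ)*(1-w)^(0:ℕ)*v^(0:ℕ)*(1-v)^(2:ℕ)*ev L_cR02_r_lo_lo_2_0 s
      + 2*w^(2:ℕ)*(1-w)^(0:ℕ)*v^(1:ℕ)*(1-v)^(1:ℕ)*ev L_cR02_r_lo_lo_2_1 s
      + 1*w^(2:ℕ)*(1-w)^(0:ℕ)*v^(2:ℕ)*(1-v)^(0:ℕ)*ev L_cR02_r_lo_lo_2_2 s) / (12500000*(1+s)^(4:ℕ)*(1-s+s^(2:ℕ))^(4:ℕ)*(1-s+s^(2:ℕ)-s^(3:ℕ)+s^(4:ℕ))^(2:ℕ)*((1-s)^(2:ℕ)+(13/50)^(2:ℕ)*s)^(1:ℕ)*((1-s)^(2:ℕ)+(47/50)^(2:ℕ)*s)^(1:ℕ))) ?_ (Eq.symm ?_)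
  ·
    generalize ev L_cR02_r_lo_lo_0_0 s = PL_cR02_r_lo_lo_0_0 at *
    generalize ev L_cR02_r_lo_lo_0_1 s = PL_cR02_r_lo_lo_0_1 at *
    generalize ev L_cR02_r_lo_lo_0_2 s = PL_cR02_r_lo_lo_0_2 at *
    generalize ev L_cR02_r_lo_lo_1_0 s = PL_cR02_r_lo_lo_1_0 at *
    generalize ev L_cR02_r_lo_lo_1_1 s = PL_cR02_r_lo_lo_1_1 at *
    generalize ev L_cR02_r_lo_lo_1_2 s = PL_cR02_r_lo_lo_1_2 at *
    generalize ev L_cR02_r_lo_lo_2_0 s = PL_cR02_r_lo_lo_2_0 at *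
    generalize ev L_cR02_r_lo_lo_2_1 s = PL_cR02_r_lo_lo_2_1 at *
    generalize ev L_cR02_r_lo_lo_2_2 s = PL_cR02_r_lo_lo_2_2 at *
    positivity
  simp only [R02, Kr, fac, List.map_cons, List.map_nil, List.prod_cons, List.prod_nil, mul_one, pow_one]
  push_cast
  have e5 : 1+s^(5:ℕ) = (1+s)*(1-s+s^(2:ℕ)-s^(3:ℕ)+s^(4:ℕ)) := by ring
  rw [e5]
  generalize hgth : s+(1/2)*(1-s)^(2:ℕ) = th at *
  generalize hgf0 : (1-s)^(2:ℕ)+(13/50)^(2:ℕ)*s = f0 at *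
  generalize hgf1 : (1-s)^(2:ℕ)+(47/50)^(2:ℕ)*s = f1 at *
  generalize hgr5 : 1-s+s^(2:ℕ)-s^(3:ℕ)+s^(4:ℕ) = r5 at *
  field_simp
  simp only [ev, L_cR02_r_lo_lo_0_0, L_cR02_r_lo_lo_0_1, L_cR02_r_lo_lo_0_2, L_cR02_r_lo_lo_1_0, L_cR02_r_lo_lo_1_1, L_cR02_r_lo_lo_1_2, L_cR02_r_lo_lo_2_0, L_cR02_r_lo_lo_2_1, L_cR02_r_lo_lo_2_2]
  push_cast
  rw [← hgth, ← hgf0, ← hgf1, ← hgr5]
  ring


end Pool.Agent.H59
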