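import Pool.Agent.H59.Bern
import Pool.Agent.H59.KDefs
set_option autoImplicit false
set_option maxRecDepth 10000
set_option maxHeartbeats 4000000
namespace Pool.Agent.H59
open Bern

def L_cR02_r_lo_hi_0_0 : List ℤ := [0,1545000,-10398358,52780000,-93059778,-274803876,1856634024,-5158682234,9861658506,-15019146050,19003921730,-19606202928,15630866730,-8260002766,82287234,6430041730,-9392397928,8206686730,-4311701050,187453506,2491582766,-3370015976,2840836124,-1643619778,579880000,-60533358,-38110000,12500000]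
def L_cR02_r_lo_hi_0_1 : List ℤ := [0,1545000,2101642,-40807500,250975185,-1062150444,3124603876,-6744323765,11496776790,-16384050340,19887442063,-20202868372,16479882100,-9793893735,2373528765,3647512100,-6689238372,6241202063,-3418707840,230269290,1907136235,-2652421124,2278394556,-1338229815,472715000,-41783358,-38110000,12500000]
def L_cR02_r_lo_hi_0_2 : List ℤ := [0,1545000,14601642,-121895000,531900148,-1683810370,4123700444,-8059735370,13041208432,-17990861272,21372565606,-21606153668,18035043964,-11609767988,4382787012,1571128964,-4792698668,4877320606,-2767621272,182398432,1592919630,-2203699556,1881639630,-1095949852,378050000,-23033358,-38110000,12500000]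
def L_cR02_r_lo_hi_1_0 : List ℤ := [0,1545000,-10398358,46530000,-102937278,-33609734,852519919,-2783188092,5815998432,-9403135118,12350330051,-13007662965,10330045051,-4819826908,-1765744408,7231067551,-9658780465,8390512551,-4601875118,426433432,2486994408,-3538652581,3000577766,-1712979778,592380000,-60533358,-38110000,12500000]
def L_cR02_r_lo_hi_1_1 : List ℤ := [0,1545000,2101642,-47057500,241097685,-824081302,2109301021,-4237393802,7016893824,-9927411087,12037182026,-12152580443,9600191634,-4871804948,-643339948,5253562884,-7449339193,6646073276,-3717846087,384883824,1976016198,-2852612729,2444386198,-1407589815,485215000,-41783358,-38110000,12500000]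
def L_cR02_r_lo_hi_1_2 : List ℤ := [0,1545000,14601642,-128145000,522022648,-1448866228,3097208839,-5421369586,8127102574,-10693593698,12325637211,-12104117773,9576484711,-5205766272,197081228,3982204711,-6046517773,5503237211,-3075723698,252647574,1735267914,-2435446161,2053881272,-1165309852,390550000,-23033358,-38110000,12500000]
def L_cR02_r_lo_hi_2_0 : List ℤ := [0,1545000,-10398358,40280000,-112814778,220084408,-239704186,-128287308,1283201790,-3409774334,6010321730,-7666126064,6601822928,-2102840828,-4336965828,9604692928,-11182166064,8887921730,-4514699334,178276790,2761812692,-3795399186,3172819408,-1782339778,604880000,-60533358,-38110000,12500000]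
def L_cR02_r_lo_hi_2_1 : List ℤ := [0,1545000,2101642,-53307500,231220185,-573512160,1005888166,-1451057197,2049874290,-3093421982,4500505347,-5359295576,4293100724,-672905939,-4383398439,8432213224,-9466443076,7364527847,-3639634482,52361790,2324302803,-3140914334,2622877840,-1476949815,497715000,-41783358,-38110000,12500000]
def L_cR02_r_lo_hi_2_2 : List ℤ := [0,1545000,14601642,-134395000,512145148,-1201422086,1982607234,-2503597160,2725860148,-3018976272,3592292174,-3859084940,2690525014,475045666,-4711814334,7965880014,-8557339940,6442737174,-3006476272,-164239852,2157022840,-2755302766,2238622914,-1234669852,403050000,-23033358,-38110000,12500000]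

theorem cR02_r_lo_hi {s w v : ℝ} (hs0 : 0 < s) (hs1 : s < 1) (hw0 : 0 ≤ w) (hw1 : w ≤ 1) (hv0 : 0 ≤ v) (hv1 : v ≤ 1) :
    R02 s*((1/(1-s+s^(2:ℕ)))^(1:ℕ)*(((1-s)*(1+s+s^(2:ℕ))/((1+s)*(1-s+s^(2:ℕ))^(2:ℕ))*(1-w)+(1+s)/(1+s^(5:ℕ))*w)^(1:ℕ)*(((1-s)*(1-v)+(1-s+s^(2:ℕ))*v)/((1-s)*(1-s+s^(2:ℕ))))^(1:ℕ))) ≤ ((1/2)*(1-s)^(2:ℕ)/(s+(1/2)*(1-s)^(2:ℕ))*((1+1*(s/(1-s+s^(2:ℕ))))^(2:ℕ)*s)-(1/2)*(1-s)^(2:ℕ)/s*(2*(((s*(1-s)/(1-s+s^(2:ℕ))+s^(3:ℕ)*(1-s)*(1+s)/((1-s+s^(2:ℕ))*(1+s^(5:ℕ)))*w)-s*(1-s)/(1-s+s^(2:ℕ)))*(s/(1-s)-(s*(1-s)/(1-s+s^(2:ℕ))+s^(3:ℕ)*(1-s)*(1+s)/((1-s+s^(2:ℕ))*(1+s^(5:ℕ)))*w)))+2*((s*((1-s)^(2:ℕ)+s*v)/((1-s)*(1-s+s^(2:ℕ))))*(s/(1-s)-(s*((1-s)^(2:ℕ)+s*v)/((1-s)*(1-s+s^(2:ℕ))))))))+(1-s+(1*(s*(1-s)/(1-s+s^(2:ℕ)))+1*(s*(1-s)/(1-s+s^(2:ℕ))+s^(3:ℕ)*(1-s)*(1+s)/((1-s+s^(2:ℕ))*(1+s^(5:ℕ)))*w)+1*(s*((1-s)^(2:ℕ)+s*v)/((1-s)*(1-s+s^(2:ℕ))))))^(2:ℕ)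 := by
  have ho : 0 < 1 - s := by linarith
  have hp : 0 < 1 + s := by linarith
  have hd : 0 < 1 - s + s^(2:ℕ) := by positivity
  have h5 : 0 < 1 + s^(5:ℕ) := by positivity
  have h1w : 0 ≤ 1 - w := by linarith
  have h1v : 0 ≤ 1 - v := by linarith
  have n0_0 : 0 ≤ ev L_cR02_r_lo_hi_0_0 s := pos_of_check 8 _ (by decide +kernel) hs0.le hs1.le
  have n0_1 : 0 ≤ ev L_cR02_r_lo_hi_0_1 s := pos_of_check 8 _ (by decide +kernel) hs0.le hs1.le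
  have n0_2 : 0 ≤ ev L_cR02_r_lo_hi_0_2 s := pos_of_check 8 _ (by decide +kernel) hs0.le hs1.le
  have n1_0 : 0 ≤ ev L_cR02_r_lo_hi_1_0 s := pos_of_check 8 _ (by decide +kernel) hs0.le hs1.le
  have n1_1 : 0 ≤ ev L_cR02_r_lo_hi_1_1 s := pos_of_check 8 _ (by decide +kernel) hs0.le hs1.le
  have n1_2 : 0 ≤ ev L_cR02_r_lo_hi_1_2 s := pos_of_check 8 _ (by decide +kernel) hs0.le hs1.le
  have n2_0 : 0 ≤ ev L_cR02_r_lo_hi_2_0 s := pos_of_check 8 _ (by decide +kernel) hs0.le hs1.le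
  have n2_1 : 0 ≤ ev L_cR02_r_lo_hi_2_1 s := pos_of_check 8 _ (by decide +kernel) hs0.le hs1.le
  have n2_2 : 0 ≤ ev L_cR02_r_lo_hi_2_2 s := pos_of_check 8 _ (by decide +kernel) hs0.le hs1.le
  have hth : 0 < s+(1/2)*(1-s)^(2:ℕ) := by positivity
  have hf0 : 0 < (1-s)^(2:ℕ)+(13/50)^(2:ℕ)*s := by positivity
  have hf1 : 0 < (1-s)^(2:ℕ)+(47/50)^(2:ℕ)*s := by positivity
  have hr5 : 0 < 1-s+s^(2:ℕ)-s^(3:ℕ)+s^(4:ℕ) := by
    have h : 1-s+s^(2:ℕ)-s^(3:ℕ)+s^(4:ℕ) = (1-s)*(1+s^(2:ℕ))+s^(4:ℕ) := by ring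
    rw [h]; positivity
  rw [← sub_nonneg]
  refine le_of_le_of_eq (b := (1*w^(0:ℕ)*(1-w)^(2:ℕ)*v^(0:ℕ)*(1-v)^(2:ℕ)*ev L_cR02_r_lo_hi_0_0 s
      + 2*w^(0:ℕ)*(1-w)^(2:ℕ)*v^(1:ℕ)*(1-v)^(1:ℕ)*ev L_cR02_r_lo_hi_0_1 s
      + 1*w^(0:ℕ)*(1-w)^(2:ℕ)*v^(2:ℕ)*(1-v)^(0:ℕ)*ev L_cR02_r_lo_hi_0_2 s
      + 2*w^(1:ℕ)*(1-w)^(1:ℕ)*v^(0:ℕ)*(1-v)^(2:ℕ)*ev L_cR02_r_lo_hi_1_0 s
      + 4*w^(1:ℕ)*(1-w)^(1:ℕ)*v^(1:ℕ)*(1-v)^(1:ℕ)*ev L_cR02_r_lo_hi_1_1 s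
      + 2*w^(1:ℕ)*(1-w)^(1:ℕ)*v^(2:ℕ)*(1-v)^(0:ℕ)*ev L_cR02_r_lo_hi_1_2 s
      + 1*w^(2:ℕ)*(1-w)^(0:ℕ)*v^(0:ℕ)*(1-v)^(2:ℕ)*ev L_cR02_r_lo_hi_2_0 s
      + 2*w^(2:ℕ)*(1-w)^(0:ℕ)*v^(1:ℕ)*(1-v)^(1:ℕ)*ev L_cR02_r_lo_hi_2_1 s
      + 1*w^(2:ℕ)*(1-w)^(0:ℕ)*v^(2:ℕ)*(1-v)^(0:ℕ)*ev L_cR02_r_lo_hi_2_2 s) / (12500000*(1-s)^(2:ℕ)*(1+s)^(3:ℕ)*(1-s+s^(2:ℕ))^(4:ℕ)*(1-s+s^(2:ℕ)-s^(3:ℕ)+s^(4:ℕ))^(2:ℕ)*((1-s)^(2:ℕ)+(13/50)^(2:ℕ)*s)^(1:ℕ)*((1-s)^(2:ℕ)+(47/50)^(2:ℕ)*s)^(1:ℕ))) ?_ (Eq.symm ?_)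
  ·
    generalize ev L_cR02_r_lo_hi_0_0 s = PL_cR02_r_lo_hi_0_0 at *
    generalize ev L_cR02_r_lo_hi_0_1 s = PL_cR02_r_lo_hi_0_1 at *
    generalize ev L_cR02_r_lo_hi_0_2 s = PL_cR02_r_lo_hi_0_2 at *
    generalize ev L_cR02_r_lo_hi_1_0 s = PL_cR02_r_lo_hi_1_0 at *
    generalize ev L_cR02_r_lo_hi_1_1 s = PL_cR02_r_lo_hi_1_1 at *
    generalize ev L_cR02_r_lo_hi_1_2 s = PL_cR02_r_lo_hi_1_2 at *
    generalize ev L_cR02_r_lo_hi_2_0 s = PL_cR02_r_lo_hi_2_0 at *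
    generalize ev L_cR02_r_lo_hi_2_1 s = PL_cR02_r_lo_hi_2_1 at *
    generalize ev L_cR02_r_lo_hi_2_2 s = PL_cR02_r_lo_hi_2_2 at *
    positivity
  simp only [R02, Kr, fac, List.map_cons, List.map_nil, List.prod_cons, List.prod_nil, mul_one, pow_one]
  push_cast
  have e5 : 1+s^(5:ℕ) = (1+s)*(1-s+s^(2:ℕ)-s^(3:ℕ)+s^(4:ℕ)) := by ring
  rw [e5]
  generalize hgth : s+(1/2)*(1-s)^(2:ℕ) = th at *
  generalize hgf0 : (1-s)^(2:ℕ)+(13/50)^(2:ℕ)*s = f0 at *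
  generalize hgf1 : (1-s)^(2:ℕ)+(47/50)^(2:ℕ)*s = f1 at *
  generalize hgr5 : 1-s+s^(2:ℕ)-s^(3:ℕ)+s^(4:ℕ) = r5 at *
  field_simp
  simp only [ev, L_cR02_r_lo_hi_0_0, L_cR02_r_lo_hi_0_1, L_cR02_r_lo_hi_0_2, L_cR02_r_lo_hi_1_0, L_cR02_r_lo_hi_1_1, L_cR02_r_lo_hi_1_2, L_cR02_r_lo_hi_2_0, L_cR02_r_lo_hi_2_1, L_cR02_r_lo_hi_2_2]
  push_cast
  rw [← hgth, ← hgf0, ← hgf1, ← hgr5]
  ring


end Pool.Agent.H59
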