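import Pool.Agent.H59.Bern
import Pool.Agent.H59.KDefs
set_option autoImplicit false
set_option maxRecDepth 10000
set_option maxHeartbeats 4000000
namespace Pool.Agent.H59
open Bern

def L_cR02_r_hi_lo_0_0 : List ℤ := [0,14045000,12446642,-437905000,1809163432,-4171213432,6765571716,-8674441716,9352874926,-8471601346,6021252988,-2772293210,11911790,1378032988,-1413091346,737609926,-46676716,-345093284,461526568,-372806568,164330000,1966642,-38110000,12500000]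
def L_cR02_r_hi_lo_0_1 : List ℤ := [0,1545000,46624142,-348141679,1137778432,-2337715858,3515697463,-4275330895,4468010000,-4009532278,2874882315,-1350944142,-9986642,746859815,-760852278,366465000,-27248395,-105435037,184741642,-233781568,152813321,-17088358,-31860000,12500000]
def L_cR02_r_hi_lo_0_2 : List ℤ := [0,1545000,-7308358,21028284,-45743136,49351568,45593284,-297670000,695528210,-1083872914,1115057988,-495664926,-597954926,1502232988,-1645022914,1107703210,-429270000,-86006716,461526568,-606893136,420703284,-124253358,-13110000,12500000]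
def L_cR02_r_hi_lo_1_0 : List ℤ := [0,14045000,18696642,-468687500,1942285074,-4663533395,8099887500,-11326671679,13405930784,-13537463994,11538944889,-8206960821,4762829179,-2064475111,452416006,139108284,-107496679,-100752500,244246605,-238674926,107470000,14466642,-38110000,12500000]
def L_cR02_r_hi_lo_1_1 : List ℤ := [0,1545000,52874142,-382049179,1265961324,-2718427500,4384472855,-5797305037,6554357500,-6366944460,5285115429,-3775108824,2315391176,-1120583321,321309290,20326250,-77205037,48290355,40930000,-131204926,102203321,-4588358,-31860000,12500000]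
def L_cR02_r_hi_lo_1_2 : List ℤ := [0,1545000,-1058358,-16004216,77501006,-219751753,448828284,-689388321,815167352,-732834630,417832315,90673321,-698116679,1209854815,-1346207130,1013927352,-468363321,-22896716,391183247,-535871494,376343284,-111753358,-13110000,12500000]
def L_cR02_r_hi_lo_2_0 : List ℤ := [0,14045000,24946642,-486970000,2012296716,-4990166716,9190330000,-13834891716,17674673284,-19244259852,17804216568,-13976188358,9179186642,-4759403432,1676990148,-243706716,-24306716,-100285000,192653284,-167653284,63110000,26966642,-38110000,12500000]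
def L_cR02_r_hi_lo_2_1 : List ℤ := [0,1545000,59124142,-403456679,1331034216,-2933452500,5009374963,-7175269253,8856391642,-9365289852,8442928321,-6533833432,4306209068,-2240446679,762537648,-110125858,16848247,-41857537,62805000,-91738284,64093321,7911642,-31860000,12500000]
def L_cR02_r_hi_lo_2_2 : List ℤ := [0,1545000,5191642,-40536716,137635148,-323168432,608190000,-937096716,1150493136,-1022729556,468186420,342451642,-1132838358,1665056420,-1688324556,1135838136,-363446716,-203660000,486526568,-527959852,344483284,-99253358,-13110000,12500000]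

theorem cR02_r_hi_lo {s w v : ℝ} (hs0 : 0 < s) (hs1 : s < 1) (hw0 : 0 ≤ w) (hw1 : w ≤ 1) (hv0 : 0 ≤ v) (hv1 : v ≤ 1) :
    R02 s*((1/(1-s+s^(2:ℕ)))^(1:ℕ)*(((1+s)/(1+s^(5:ℕ))*(1-w)+w/(1-s))^(1:ℕ)*(((1-s)*(1-s+s^(2:ℕ))*(1-v)+(1+s)*v)/((1+s)*(1-s+s^(2:ℕ))))^(1:ℕ))) ≤ ((1/2)*(1-s)^(2:ℕ)/(s+(1/2)*(1-s)^(2:ℕ))*((1+1*(s/(1-s+s^(2:ℕ))))^(2:ℕ)*s)-(1/2)*(1-s)^(2:ℕ)/s*(2*(((s*(1-s^(4:ℕ))/(1+s^(5:ℕ))+s^(2:ℕ)*(1+s^(3:ℕ))/((1-s)*(1+s^(5:ℕ)))*w)-s*(1-s)/(1-s+s^(2:ℕ)))*(s/(1-s)-(s*(1-s^(4:ℕ))/(1+s^(5:ℕ))+s^(2:ℕ)*(1+s^(3:ℕ))/((1-s)*(1+s^(5:ℕ)))*w)))+2*((s*(1-s)/(1-s+s^(2:ℕ))*v)*(s/(1-s)-(s*(1-s)/(1-s+s^(2:ℕ))*v)))))+(1-s+(1*(s*(1-s)/(1-s+s^(2:ℕ)))+1*(s*(1-s^(4:ℕ))/(1+s^(5:ℕ))+s^(2:ℕ)*(1+s^(3:ℕ))/((1-s)*(1+s^(5:ℕ)))*w)+1*(s*(1-s)/(1-s+s^(2:ℕ))*v)))^(2:ℕ) := by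
  have ho : 0 < 1 - s := by linarith
  have hp : 0 < 1 + s := by linarith
  have hd : 0 < 1 - s + s^(2:ℕ) := by positivity
  have h5 : 0 < 1 + s^(5:ℕ) := by positivity
  have h1w : 0 ≤ 1 - w := by linarith
  have h1v : 0 ≤ 1 - v := by linarith
  have n0_0 : 0 ≤ ev L_cR02_r_hi_lo_0_0 s := pos_of_check 8 _ (by decide +kernel) hs0.le hs1.le
  have n0_1 : 0 ≤ ev L_cR02_r_hi_lo_0_1 s := pos_of_check 8 _ (by decide +kernel) hs0.le hs1.le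
  have n0_2 : 0 ≤ ev L_cR02_r_hi_lo_0_2 s := pos_of_check 8 _ (by decide +kernel) hs0.le hs1.le
  have n1_0 : 0 ≤ ev L_cR02_r_hi_lo_1_0 s := pos_of_check 8 _ (by decide +kernel) hs0.le hs1.le
  have n1_1 : 0 ≤ ev L_cR02_r_hi_lo_1_1 s := pos_of_check 8 _ (by decide +kernel) hs0.le hs1.le
  have n1_2 : 0 ≤ ev L_cR02_r_hi_lo_1_2 s := pos_of_check 8 _ (by decide +kernel) hs0.le hs1.le
  have n2_0 : 0 ≤ ev L_cR02_r_hi_lo_2_0 s := pos_of_check 8 _ (by decide +kernel) hs0.le hs1.le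
  have n2_1 : 0 ≤ ev L_cR02_r_hi_lo_2_1 s := pos_of_check 8 _ (by decide +kernel) hs0.le hs1.le
  have n2_2 : 0 ≤ ev L_cR02_r_hi_lo_2_2 s := pos_of_check 8 _ (by decide +kernel) hs0.le hs1.le
  have hth : 0 < s+(1/2)*(1-s)^(2:ℕ) := by positivity
  have hf0 : 0 < (1-s)^(2:ℕ)+(13/50)^(2:ℕ)*s := by positivity
  have hf1 : 0 < (1-s)^(2:ℕ)+(47/50)^(2:ℕ)*s := by positivity
  have hr5 : 0 < 1-s+s^(2:ℕ)-s^(3:ℕ)+s^(4:ℕ) := by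
    have h : 1-s+s^(2:ℕ)-s^(3:ℕ)+s^(4:ℕ) = (1-s)*(1+s^(2:ℕ))+s^(4:ℕ) := by ring
    rw [h]; positivity
  rw [← sub_nonneg]
  refine le_of_le_of_eq (b := (1*w^(0:ℕ)*(1-w)^(2:ℕ)*v^(0:ℕ)*(1-v)^(2:ℕ)*ev L_cR02_r_hi_lo_0_0 s
      + 2*w^(0:ℕ)*(1-w)^(2:ℕ)*v^(1:ℕ)*(1-v)^(1:ℕ)*ev L_cR02_r_hi_lo_0_1 s
      + 1*w^(0:ℕ)*(1-w)^(2:ℕ)*v^(2:ℕ)*(1-v)^(0:ℕ)*ev L_cR02_r_hi_lo_0_2 s
      + 2*w^(1:ℕ)*(1-w)^(1:ℕ)*v^(0:ℕ)*(1-v)^(2:ℕ)*ev L_cR02_r_hi_lo_1_0 s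
      + 4*w^(1:ℕ)*(1-w)^(1:ℕ)*v^(1:ℕ)*(1-v)^(1:ℕ)*ev L_cR02_r_hi_lo_1_1 s
      + 2*w^(1:ℕ)*(1-w)^(1:ℕ)*v^(2:ℕ)*(1-v)^(0:ℕ)*ev L_cR02_r_hi_lo_1_2 s
      + 1*w^(2:ℕ)*(1-w)^(0:ℕ)*v^(0:ℕ)*(1-v)^(2:ℕ)*ev L_cR02_r_hi_lo_2_0 s
      + 2*w^(2:ℕ)*(1-w)^(0:ℕ)*v^(1:ℕ)*(1-v)^(1:ℕ)*ev L_cR02_r_hi_lo_2_1 s
      + 1*w^(2:ℕ)*(1-w)^(0:ℕ)*v^(2:ℕ)*(1-v)^(0:ℕ)*ev L_cR02_r_hi_lo_2_2 s) / (12500000*(1-s)^(2:ℕ)*(1+s)^(3:ℕ)*(1-s+s^(2:ℕ))^(2:ℕ)*(1-s+s^(2:ℕ)-s^(3:ℕ)+s^(4:ℕ))^(2:ℕ)*((1-s)^(2:ℕ)+(13/50)^(2:ℕ)*s)^(1:ℕ)*((1-s)^(2:ℕ)+(47/50)^(2:ℕ)*s)^(1:ℕ))) ?_ (Eq.symm ?_)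
  ·
    generalize ev L_cR02_r_hi_lo_0_0 s = PL_cR02_r_hi_lo_0_0 at *
    generalize ev L_cR02_r_hi_lo_0_1 s = PL_cR02_r_hi_lo_0_1 at *
    generalize ev L_cR02_r_hi_lo_0_2 s = PL_cR02_r_hi_lo_0_2 at *
    generalize ev L_cR02_r_hi_lo_1_0 s = PL_cR02_r_hi_lo_1_0 at *
    generalize ev L_cR02_r_hi_lo_1_1 s = PL_cR02_r_hi_lo_1_1 at *
    generalize ev L_cR02_r_hi_lo_1_2 s = PL_cR02_r_hi_lo_1_2 at *
    generalize ev L_cR02_r_hi_lo_2_0 s = PL_cR02_r_hi_lo_2_0 at *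
    generalize ev L_cR02_r_hi_lo_2_1 s = PL_cR02_r_hi_lo_2_1 at *
    generalize ev L_cR02_r_hi_lo_2_2 s = PL_cR02_r_hi_lo_2_2 at *
    positivity
  simp only [R02, Kr, fac, List.map_cons, List.map_nil, List.prod_cons, List.prod_nil, mul_one, pow_one]
  push_cast
  have e5 : 1+s^(5:ℕ) = (1+s)*(1-s+s^(2:ℕ)-s^(3:ℕ)+s^(4:ℕ)) := by ring
  rw [e5]
  generalize hgth : s+(1/2)*(1-s)^(2:ℕ) = th at *
  generalize hgf0 : (1-s)^(2:ℕ)+(13/50)^(2:ℕ)*s = f0 at *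
  generalize hgf1 : (1-s)^(2:ℕ)+(47/50)^(2:ℕ)*s = f1 at *
  generalize hgr5 : 1-s+s^(2:ℕ)-s^(3:ℕ)+s^(4:ℕ) = r5 at *
  field_simp
  simp only [ev, L_cR02_r_hi_lo_0_0, L_cR02_r_hi_lo_0_1, L_cR02_r_hi_lo_0_2, L_cR02_r_hi_lo_1_0, L_cR02_r_hi_lo_1_1, L_cR02_r_hi_lo_1_2, L_cR02_r_hi_lo_2_0, L_cR02_r_hi_lo_2_1, L_cR02_r_hi_lo_2_2]
  push_cast
  rw [← hgth, ← hgf0, ← hgf1, ← hgr5]
  ring


end Pool.Agent.H59
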