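import Pool.Agent.H59.Bern
import Pool.Agent.H59.KDefs
set_option autoImplicit false
set_option maxRecDepth 10000
set_option maxHeartbeats 4000000
namespace Pool.Agent.H59
open Bern

def L_cR02_r_hi_hi_0_0 : List ℤ := [0,1545000,-8853358,29881642,-75624778,124976346,-79383062,-218286938,913815148,-1997688062,3112746050,-3608410976,3010456050,-1508223062,-136799852,1244503062,-1673773062,1587766346,-1126239778,519346642,-98643358,-25610000,12500000]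
def L_cR02_r_hi_hi_0_1 : List ℤ := [0,1545000,3646642,-51205858,174822685,-349585259,534787722,-796359401,1294340969,-2061917278,2824979482,-3097886908,2522851982,-1233404778,-154871531,1065028099,-1392399778,1305714741,-928014815,430931642,-79893358,-25610000,12500000]
def L_cR02_r_hi_hi_0_2 : List ℤ := [0,1545000,16146642,-119793358,374660148,-721570222,1020771864,-1271855222,1649256790,-2214866494,2742366198,-2843736124,2240401198,-1047306494,-198553210,988129778,-1239213136,1126239778,-780399852,355016642,-61143358,-25610000,12500000]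
def L_cR02_r_hi_hi_1_0 : List ℤ := [0,1545000,-2603358,-13400858,90901864,-310653617,759481901,-1448870222,2264037574,-2996872204,3414704519,-3324031198,2625914519,-1416059704,69852574,944074778,-1412438099,1389541383,-998358136,462486642,-86143358,-25610000,12500000]
def L_cR02_r_hi_hi_1_1 : List ℤ := [0,1545000,9896642,-94488358,344474327,-806856472,1447927256,-2180502256,2863595466,-3297771849,3339882130,-2979834238,2248210880,-1204724349,100750466,710420244,-1082901494,1082184778,-793883173,374071642,-67393358,-25610000,12500000]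
def L_cR02_r_hi_hi_1_2 : List ℤ := [0,1545000,22396642,-163075858,547436790,-1200482685,2008185969,-2809557648,3437543358,-3687391494,3470213025,-2892010562,2075660525,-1082108994,106038358,579342352,-881551531,877404815,-640018210,298156642,-48643358,-25610000,12500000]
def L_cR02_r_hi_hi_2_0 : List ℤ := [0,1545000,3646642,-44183358,181818506,-504986938,1113176938,-2050273654,3200766790,-4223496346,4691682766,-4349231124,3216392766,-1551336346,-136988210,1272826346,-1636273062,1432613062,-946086494,418126642,-73643358,-25610000,12500000]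
def L_cR02_r_hi_hi_2_1 : List ℤ := [0,1545000,16146642,-125270858,438515969,-1022831043,1875896864,-2935465259,4019356753,-4761066420,4829804556,-4171361272,2948589556,-1403483920,-57120747,984992241,-1258573136,1099951457,-735361531,329711642,-54893358,-25610000,12500000]
def L_cR02_r_hi_hi_2_2 : List ℤ := [0,1545000,28646642,-193858358,644603432,-1438098506,2510430148,-3718080222,4812336716,-5387356494,5173079630,-4249864704,2885939630,-1344351494,-2863284,799734778,-1009059852,869866494,-575246568,253796642,-36143358,-25610000,12500000]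

theorem cR02_r_hi_hi {s w v : ℝ} (hs0 : 0 < s) (hs1 : s < 1) (hw0 : 0 ≤ w) (hw1 : w ≤ 1) (hv0 : 0 ≤ v) (hv1 : v ≤ 1) :
    R02 s*((1/(1-s+s^(2:ℕ)))^(1:ℕ)*(((1+s)/(1+s^(5:ℕ))*(1-w)+w/(1-s))^(1:ℕ)*(((1-s)*(1-v)+(1-s+s^(2:ℕ))*v)/((1-s)*(1-s+s^(2:ℕ))))^(1:ℕ))) ≤ ((1/2)*(1-s)^(2:ℕ)/(s+(1/2)*(1-s)^(2:ℕ))*((1+1*(s/(1-s+s^(2:ℕ))))^(2:ℕ)*s)-(1/2)*(1-s)^(2:ℕ)/s*(2*(((s*(1-s^(4:ℕ))/(1+s^(5:ℕ))+s^(2:ℕ)*(1+s^(3:ℕ))/((1-s)*(1+s^(5:ℕ)))*w)-s*(1-s)/(1-s+s^(2:ℕ)))*(s/(1-s)-(s*(1-s^(4:ℕ))/(1+s^(5:ℕ))+s^(2:ℕ)*(1+s^(3:ℕ))/((1-s)*(1+s^(5:ℕ)))*w)))+2*((s*((1-s)^(2:ℕ)+s*v)/((1-s)*(1-s+s^(2:ℕ))))*(s/(1-s)-(s*((1-s)^(2:ℕ)+s*v)/((1-s)*(1-s+s^(2:ℕ))))))))+(1-s+(1*(s*(1-s)/(1-s+s^(2:ℕ)))+1*(s*(1-s^(4:ℕ))/(1+s^(5:ℕ))+s^(2:ℕ)*(1+s^(3:ℕ))/((1-s)*(1+s^(5:ℕ)))*w)+1*(s*((1-s)^(2:ℕ)+s*v)/((1-s)*(1-s+s^(2:ℕ))))))^(2:ℕ) := by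
  have ho : 0 < 1 - s := by linarith
  have hp : 0 < 1 + s := by linarith
  have hd : 0 < 1 - s + s^(2:ℕ) := by positivity
  have h5 : 0 < 1 + s^(5:ℕ) := by positivity
  have h1w : 0 ≤ 1 - w := by linarith
  have h1v : 0 ≤ 1 - v := by linarith
  have n0_0 : 0 ≤ ev L_cR02_r_hi_hi_0_0 s := pos_of_check 8 _ (by decide +kernel) hs0.le hs1.le
  have n0_1 : 0 ≤ ev L_cR02_r_hi_hi_0_1 s := pos_of_check 8 _ (by decide +kernel) hs0.le hs1.le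
  have n0_2 : 0 ≤ ev L_cR02_r_hi_hi_0_2 s := pos_of_check 8 _ (by decide +kernel) hs0.le hs1.le
  have n1_0 : 0 ≤ ev L_cR02_r_hi_hi_1_0 s := pos_of_check 8 _ (by decide +kernel) hs0.le hs1.le
  have n1_1 : 0 ≤ ev L_cR02_r_hi_hi_1_1 s := pos_of_check 8 _ (by decide +kernel) hs0.le hs1.le
  have n1_2 : 0 ≤ ev L_cR02_r_hi_hi_1_2 s := pos_of_check 8 _ (by decide +kernel) hs0.le hs1.le
  have n2_0 : 0 ≤ ev L_cR02_r_hi_hi_2_0 s := pos_of_check 8 _ (by decide +kernel) hs0.le hs1.le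
  have n2_1 : 0 ≤ ev L_cR02_r_hi_hi_2_1 s := pos_of_check 8 _ (by decide +kernel) hs0.le hs1.le
  have n2_2 : 0 ≤ ev L_cR02_r_hi_hi_2_2 s := pos_of_check 8 _ (by decide +kernel) hs0.le hs1.le
  have hth : 0 < s+(1/2)*(1-s)^(2:ℕ) := by positivity
  have hf0 : 0 < (1-s)^(2:ℕ)+(13/50)^(2:ℕ)*s := by positivity
  have hf1 : 0 < (1-s)^(2:ℕ)+(47/50)^(2:ℕ)*s := by positivity
  have hr5 : 0 < 1-s+s^(2:ℕ)-s^(3:ℕ)+s^(4:ℕ) := by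
    have h : 1-s+s^(2:ℕ)-s^(3:ℕ)+s^(4:ℕ) = (1-s)*(1+s^(2:ℕ))+s^(4:ℕ) := by ring
    rw [h]; positivity
  rw [← sub_nonneg]
  refine le_of_le_of_eq (b := (1*w^(0:ℕ)*(1-w)^(2:ℕ)*v^(0:ℕ)*(1-v)^(2:ℕ)*ev L_cR02_r_hi_hi_0_0 s
      + 2*w^(0:ℕ)*(1-w)^(2:ℕ)*v^(1:ℕ)*(1-v)^(1:ℕ)*ev L_cR02_r_hi_hi_0_1 s
      + 1*w^(0:ℕ)*(1-w)^(2:ℕ)*v^(2:ℕ)*(1-v)^(0:ℕ)*ev L_cR02_r_hi_hi_0_2 s
      + 2*w^(1:ℕ)*(1-w)^(1:ℕ)*v^(0:ℕ)*(1-v)^(2:ℕ)*ev L_cR02_r_hi_hi_1_0 s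
      + 4*w^(1:ℕ)*(1-w)^(1:ℕ)*v^(1:ℕ)*(1-v)^(1:ℕ)*ev L_cR02_r_hi_hi_1_1 s
      + 2*w^(1:ℕ)*(1-w)^(1:ℕ)*v^(2:ℕ)*(1-v)^(0:ℕ)*ev L_cR02_r_hi_hi_1_2 s
      + 1*w^(2:ℕ)*(1-w)^(0:ℕ)*v^(0:ℕ)*(1-v)^(2:ℕ)*ev L_cR02_r_hi_hi_2_0 s
      + 2*w^(2:ℕ)*(1-w)^(0:ℕ)*v^(1:ℕ)*(1-v)^(1:ℕ)*ev L_cR02_r_hi_hi_2_1 s
      + 1*w^(2:ℕ)*(1-w)^(0:ℕ)*v^(2:ℕ)*(1-v)^(0:ℕ)*ev L_cR02_r_hi_hi_2_2 s) / (12500000*(1-s)^(2:ℕ)*(1+s)^(2:ℕ)*(1-s+s^(2:ℕ))^(2:ℕ)*(1-s+s^(2:ℕ)-s^(3:ℕ)+s^(4:ℕ))^(2:ℕ)*((1-s)^(2:ℕ)+(13/50)^(2:ℕ)*s)^(1:ℕ)*((1-s)^(2:ℕ)+(47/50)^(2:ℕ)*s)^(1:ℕ))) ?_ (Eq.symm ?_)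
  ·
    generalize ev L_cR02_r_hi_hi_0_0 s = PL_cR02_r_hi_hi_0_0 at *
    generalize ev L_cR02_r_hi_hi_0_1 s = PL_cR02_r_hi_hi_0_1 at *
    generalize ev L_cR02_r_hi_hi_0_2 s = PL_cR02_r_hi_hi_0_2 at *
    generalize ev L_cR02_r_hi_hi_1_0 s = PL_cR02_r_hi_hi_1_0 at *
    generalize ev L_cR02_r_hi_hi_1_1 s = PL_cR02_r_hi_hi_1_1 at *
    generalize ev L_cR02_r_hi_hi_1_2 s = PL_cR02_r_hi_hi_1_2 at *
    generalize ev L_cR02_r_hi_hi_2_0 s = PL_cR02_r_hi_hi_2_0 at *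
    generalize ev L_cR02_r_hi_hi_2_1 s = PL_cR02_r_hi_hi_2_1 at *
    generalize ev L_cR02_r_hi_hi_2_2 s = PL_cR02_r_hi_hi_2_2 at *
    positivity
  simp only [R02, Kr, fac, List.map_cons, List.map_nil, List.prod_cons, List.prod_nil, mul_one, pow_one]
  push_cast
  have e5 : 1+s^(5:ℕ) = (1+s)*(1-s+s^(2:ℕ)-s^(3:ℕ)+s^(4:ℕ)) := by ring
  rw [e5]
  generalize hgth : s+(1/2)*(1-s)^(2:ℕ) = th at *
  generalize hgf0 : (1-s)^(2:ℕ)+(13/50)^(2:ℕ)*s = f0 at *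
  generalize hgf1 : (1-s)^(2:ℕ)+(47/50)^(2:ℕ)*s = f1 at *
  generalize hgr5 : 1-s+s^(2:ℕ)-s^(3:ℕ)+s^(4:ℕ) = r5 at *
  field_simp
  simp only [ev, L_cR02_r_hi_hi_0_0, L_cR02_r_hi_hi_0_1, L_cR02_r_hi_hi_0_2, L_cR02_r_hi_hi_1_0, L_cR02_r_hi_hi_1_1, L_cR02_r_hi_hi_1_2, L_cR02_r_hi_hi_2_0, L_cR02_r_hi_hi_2_1, L_cR02_r_hi_hi_2_2]
  push_cast
  rw [← hgth, ← hgf0, ← hgf1, ← hgr5]
  ring


end Pool.Agent.H59
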