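import Pool.Agent.H59.Bern
import Pool.Agent.H59.KDefs
set_option autoImplicit false
set_option maxRecDepth 10000
set_option maxHeartbeats 4000000
namespace Pool.Agent.H59
open Bern

def L_cR22_r_lo_lo_0_0 : List ℤ := [0,27760000,50039976,-401932656,1228539168,-3114832664,7175742672,-14637829668,25990797196,-40338259572,54982602364,-65714543764,68178334764,-60360084164,44020613572,-23891579196,5756609468,5814496528,-9197172936,6259711332,-836008844,-3752102476,5884429700,-5552036900,3791479500,-1941175100,722942100,-158042900,-13497500,25000000]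
def L_cR22_r_lo_lo_0_1 : List ℤ := [0,9010000,26803101,-37328017,58789761,-356332935,1615588966,-5165270614,11945718214,-21559903302,32250661184,-40741191580,42947893491,-36912085041,24071766756,-8333799618,-5238328169,12671852691,-12862173732,7830773854,-1282867872,-3707240438,5885809700,-5508880200,3712404275,-1889164375,730407425,-193166025,5252500,25000000]
def L_cR22_r_lo_lo_0_2 : List ℤ := [0,2760000,-40682524,406001422,-1186660496,2401870144,-3796591190,3995413190,-1721557368,-3023876882,9427198554,-15289038496,17003070218,-12821679968,3865066140,6966126160,-15590859856,18814826854,-16048373628,9310314926,-1972056750,-3284575000,5575314450,-5317749950,3633032400,-1912854500,816597550,-272537900,36502500,25000000]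
def L_cR22_r_lo_lo_1_0 : List ℤ := [0,27760000,50039976,-426932656,1250316668,-2391177336,3715908804,-5406184340,7648827464,-10300710048,12450451968,-12748014132,9857095852,-3328214036,-5696954840,14637369904,-20433364136,21162605668,-16911465656,9694958076,-2247429500,-3224259100,5691242600,-5520989000,3865886200,-2043170100,772942100,-158042900,-13497500,25000000]
def L_cR22_r_lo_lo_1_1 : List ℤ := [0,9010000,26803101,-62328017,-6932739,339483643,-691374860,308753468,1610931930,-5406159208,10215301168,-14003027614,14198307063,-9339215231,307795594,9907176650,-17537435779,19851061971,-16439107878,9405335538,-1934800250,-3454385600,5741539250,-5421380200,3723313475,-1966159375,780407425,-193166025,5252500,25000000]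
def L_cR22_r_lo_lo_1_2 : List ℤ := [0,2760000,-40682524,381001422,-1339882996,3069847972,-4950684974,5711816026,-4049160204,-753938218,7888628918,-14779240196,17825136274,-14707810476,6054692228,4919129596,-13999101472,17825136274,-15487949200,9024191550,-1864500850,-3306708700,5479960650,-5173797850,3580444100,-1964849500,866597550,-272537900,36502500,25000000]
def L_cR22_r_lo_lo_2_0 : List ℤ := [0,27760000,50039976,-451932656,1272094168,-1617522008,-45920064,4207687688,-8520396384,8473527472,-1650869672,-9414708116,18017268612,-18536103036,10555798908,1530724732,-11765212244,16549166224,-15271863400,9756042400,-2908384600,-2704498600,5467707200,-5541936100,3990292900,-2145165100,822942100,-158042900,-13497500,25000000]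
def L_cR22_r_lo_lo_2_1 : List ℤ := [0,9010000,26803101,-87328017,-72655239,1085300221,-3300333686,5827504250,-6444132220,2923526708,4643611220,-13254978562,18276629231,-16379430391,7843279390,3726968054,-13272725747,17425093037,-15533589700,9477102500,-2374318200,-3143072200,5587549250,-5398375200,3784222675,-2043154375,830407425,-193166025,5252500,25000000]
def L_cR22_r_lo_lo_2_2 : List ℤ := [0,2760000,-40682524,356001422,-1493105496,3787825800,-6406773758,7135445562,-3990064656,-2868803906,10846570662,-16616448108,17821607850,-13580351796,4872906072,5665357576,-14137833300,17586637850,-15316515100,9106641150,-2082581650,-3203842400,5395516050,-5106840750,3577855800,-2016844500,916597550,-272537900,36502500,25000000]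

theorem cR22_r_lo_lo {s w v : ℝ} (hs0 : 0 < s) (hs1 : s < 1) (hw0 : 0 ≤ w) (hw1 : w ≤ 1) (hv0 : 0 ≤ v) (hv1 : v ≤ 1) :
    R22 s*((((1-s)*(1+s+s^(2:ℕ))/((1+s)*(1-s+s^(2:ℕ))^(2:ℕ))*(1-w)+(1+s)/(1+s^(5:ℕ))*w)^(2:ℕ)*(((1-s)*(1-s+s^(2:ℕ))*(1-v)+(1+s)*v)/((1+s)*(1-s+s^(2:ℕ))))^(1:ℕ))) ≤ ((1/4)*(1-s)^(2:ℕ)/(s+(1/4)*(1-s)^(2:ℕ))*((1)^(2:ℕ)*s)-(1/4)*(1-s)^(2:ℕ)/s*(8*(((s*(1-s)/(1-s+s^(2:ℕ))+s^(3:ℕ)*(1-s)*(1+s)/((1-s+s^(2:ℕ))*(1+s^(5:ℕ)))*w)-s*(1-s)/(1-s+s^(2:ℕ)))*(s/(1-s)-(s*(1-s)/(1-s+s^(2:ℕ))+s^(3:ℕ)*(1-s)*(1+s)/((1-s+s^(2:ℕ))*(1+s^(5:ℕ)))*w)))+2*((s*(1-s)/(1-s+s^(2:ℕ))*v)*(s/(1-s)-(s*(1-s)/(1-s+s^(2:ℕ))*v)))))+(1-s+(2*(s*(1-s)/(1-s+s^(2:ℕ))+s^(3:ℕ)*(1-s)*(1+s)/((1-s+s^(2:ℕ))*(1+s^(5:ℕ)))*w)+1*(s*(1-s)/(1-s+s^(2:ℕ))*v)))^(2:ℕ) := by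
  have ho : 0 < 1 - s := by linarith
  have hp : 0 < 1 + s := by linarith
  have hd : 0 < 1 - s + s^(2:ℕ) := by positivity
  have h5 : 0 < 1 + s^(5:ℕ) := by positivity
  have h1w : 0 ≤ 1 - w := by linarith
  have h1v : 0 ≤ 1 - v := by linarith
  have n0_0 : 0 ≤ ev L_cR22_r_lo_lo_0_0 s := pos_of_check 8 _ (by decide +kernel) hs0.le hs1.le
  have n0_1 : 0 ≤ ev L_cR22_r_lo_lo_0_1 s := pos_of_check 8 _ (by decide +kernel) hs0.le hs1.le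
  have n0_2 : 0 ≤ ev L_cR22_r_lo_lo_0_2 s := pos_of_check 8 _ (by decide +kernel) hs0.le hs1.le
  have n1_0 : 0 ≤ ev L_cR22_r_lo_lo_1_0 s := pos_of_check 8 _ (by decide +kernel) hs0.le hs1.le
  have n1_1 : 0 ≤ ev L_cR22_r_lo_lo_1_1 s := pos_of_check 8 _ (by decide +kernel) hs0.le hs1.le
  have n1_2 : 0 ≤ ev L_cR22_r_lo_lo_1_2 s := pos_of_check 8 _ (by decide +kernel) hs0.le hs1.le
  have n2_0 : 0 ≤ ev L_cR22_r_lo_lo_2_0 s := pos_of_check 8 _ (by decide +kernel) hs0.le hs1.le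
  have n2_1 : 0 ≤ ev L_cR22_r_lo_lo_2_1 s := pos_of_check 8 _ (by decide +kernel) hs0.le hs1.le
  have n2_2 : 0 ≤ ev L_cR22_r_lo_lo_2_2 s := pos_of_check 8 _ (by decide +kernel) hs0.le hs1.le
  have hth : 0 < s+(1/4)*(1-s)^(2:ℕ) := by positivity
  have hf0 : 0 < (1-s)^(2:ℕ)+(6/25)^(2:ℕ)*s := by positivity
  have hf1 : 0 < (1-s)^(2:ℕ)+(31/20)^(2:ℕ)*s := by positivity
  have hr5 : 0 < 1-s+s^(2:ℕ)-s^(3:ℕ)+s^(4:ℕ) := by
    have h : 1-s+s^(2:ℕ)-s^(3:ℕ)+s^(4:ℕ) = (1-s)*(1+s^(2:ℕ))+s^(4:ℕ) := by ring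
    rw [h]; positivity
  rw [← sub_nonneg]
  refine le_of_le_of_eq (b := (1*w^(0:ℕ)*(1-w)^(2:ℕ)*v^(0:ℕ)*(1-v)^(2:ℕ)*ev L_cR22_r_lo_lo_0_0 s
      + 2*w^(0:ℕ)*(1-w)^(2:ℕ)*v^(1:ℕ)*(1-v)^(1:ℕ)*ev L_cR22_r_lo_lo_0_1 s
      + 1*w^(0:ℕ)*(1-w)^(2:ℕ)*v^(2:ℕ)*(1-v)^(0:ℕ)*ev L_cR22_r_lo_lo_0_2 s
      + 2*w^(1:ℕ)*(1-w)^(1:ℕ)*v^(0:ℕ)*(1-v)^(2:ℕ)*ev L_cR22_r_lo_lo_1_0 s
      + 4*w^(1:ℕ)*(1-w)^(1:ℕ)*v^(1:ℕ)*(1-v)^(1:ℕ)*ev L_cR22_r_lo_lo_1_1 s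
      + 2*w^(1:ℕ)*(1-w)^(1:ℕ)*v^(2:ℕ)*(1-v)^(0:ℕ)*ev L_cR22_r_lo_lo_1_2 s
      + 1*w^(2:ℕ)*(1-w)^(0:ℕ)*v^(0:ℕ)*(1-v)^(2:ℕ)*ev L_cR22_r_lo_lo_2_0 s
      + 2*w^(2:ℕ)*(1-w)^(0:ℕ)*v^(1:ℕ)*(1-v)^(1:ℕ)*ev L_cR22_r_lo_lo_2_1 s
      + 1*w^(2:ℕ)*(1-w)^(0:ℕ)*v^(2:ℕ)*(1-v)^(0:ℕ)*ev L_cR22_r_lo_lo_2_2 s) / (25000000*(1+s)^(5:ℕ)*(1-s+s^(2:ℕ))^(5:ℕ)*(1-s+s^(2:ℕ)-s^(3:ℕ)+s^(4:ℕ))^(2:ℕ)*((1-s)^(2:ℕ)+(6/25)^(2:ℕ)*s)^(1:ℕ)*((1-s)^(2:ℕ)+(31/20)^(2:ℕ)*s)^(1:ℕ))) ?_ (Eq.symm ?_)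
  ·
    generalize ev L_cR22_r_lo_lo_0_0 s = PL_cR22_r_lo_lo_0_0 at *
    generalize ev L_cR22_r_lo_lo_0_1 s = PL_cR22_r_lo_lo_0_1 at *
    generalize ev L_cR22_r_lo_lo_0_2 s = PL_cR22_r_lo_lo_0_2 at *
    generalize ev L_cR22_r_lo_lo_1_0 s = PL_cR22_r_lo_lo_1_0 at *
    generalize ev L_cR22_r_lo_lo_1_1 s = PL_cR22_r_lo_lo_1_1 at *
    generalize ev L_cR22_r_lo_lo_1_2 s = PL_cR22_r_lo_lo_1_2 at *
    generalize ev L_cR22_r_lo_lo_2_0 s = PL_cR22_r_lo_lo_2_0 at *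
    generalize ev L_cR22_r_lo_lo_2_1 s = PL_cR22_r_lo_lo_2_1 at *
    generalize ev L_cR22_r_lo_lo_2_2 s = PL_cR22_r_lo_lo_2_2 at *
    positivity
  simp only [R22, Kr, fac, List.map_cons, List.map_nil, List.prod_cons, List.prod_nil, mul_one, pow_one]
  push_cast
  have e5 : 1+s^(5:ℕ) = (1+s)*(1-s+s^(2:ℕ)-s^(3:ℕ)+s^(4:ℕ)) := by ring
  rw [e5]
  generalize hgth : s+(1/4)*(1-s)^(2:ℕ) = th at *
  generalize hgf0 : (1-s)^(2:ℕ)+(6/25)^(2:ℕ)*s = f0 at *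
  generalize hgf1 : (1-s)^(2:ℕ)+(31/20)^(2:ℕ)*s = f1 at *
  generalize hgr5 : 1-s+s^(2:ℕ)-s^(3:ℕ)+s^(4:ℕ) = r5 at *
  field_simp
  simp only [ev, L_cR22_r_lo_lo_0_0, L_cR22_r_lo_lo_0_1, L_cR22_r_lo_lo_0_2, L_cR22_r_lo_lo_1_0, L_cR22_r_lo_lo_1_1, L_cR22_r_lo_lo_1_2, L_cR22_r_lo_lo_2_0, L_cR22_r_lo_lo_2_1, L_cR22_r_lo_lo_2_2]
  push_cast
  rw [← hgth, ← hgf0, ← hgf1, ← hgr5]
  ring


end Pool.Agent.H59
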