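import Pool.Agent.H59.Bern
import Pool.Agent.H59.KDefs
set_option autoImplicit false
set_option maxRecDepth 10000
set_option maxHeartbeats 4000000
namespace Pool.Agent.H59
open Bern

def L_cR22_r_lo_hi_0_0 : List ℤ := [0,2760000,-48962524,539088994,-2578434858,7759627416,-17546619390,31537085104,-45046060042,49460711086,-35707316136,-1459996350,58468342114,-120585201014,167096697308,-180682383396,155024337360,-98061664634,28792777442,31429111594,-68070171824,78040025250,-67867617550,48114663700,-28270816950,13774147700,-5498808750,1680221250,-282045400,-38497500,25000000]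
def L_cR22_r_lo_hi_0_1 : List ℤ := [0,2760000,-30212524,436595869,-2256952670,7093229351,-16391198134,29606615968,-42070554398,45265799432,-30063325286,-8637021082,66834771914,-129548143439,175887296790,-188389254746,160944187264,-101886176653,30644616328,31028205088,-68458904134,78640103062,-68269370300,48189663700,-28129686700,13553645575,-5301996750,1569599375,-250795400,-38497500,25000000]
def L_cR22_r_lo_hi_0_2 : List ℤ := [0,2760000,-11462524,346602744,-1967219232,6486307336,-15296250428,27706601432,-39036570204,40908419228,-24175975636,-16033963964,75295589464,-138401174164,184387731872,-195728360596,166573872768,-105600776972,32590842964,30407380432,-68604277644,79077712324,-68612644500,48295118300,-28049030000,13392619500,-5136933500,1471477500,-219545400,-38497500,25000000]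
def L_cR22_r_lo_hi_1_0 : List ℤ := [0,2760000,-48962524,514088994,-2656657358,8787272744,-21217536658,39900570604,-60324047834,73380246050,-68032900900,36722464650,18549780934,-83687104154,136982553608,-158880618944,141097950508,-90355481694,25218158474,32607067750,-68007900900,77454385450,-67225508250,47785080400,-28377079950,14077544400,-5700803750,1730221250,-282045400,-38497500,25000000]
def L_cR22_r_lo_hi_1_1 : List ℤ := [0,2760000,-30212524,411595869,-2335175170,8108374679,-20126226652,38489061632,-58807262960,72003009326,-67051889466,36378357734,18117675268,-82591746045,135567046534,-157517855520,140044926686,-89703234713,24857938184,32942912338,-68500549100,78033590550,-67682036450,47980030000,-28324447200,13882042275,-5503991750,1619599375,-250795400,-38497500,25000000]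
def L_cR22_r_lo_hi_1_2 : List ℤ := [0,2760000,-11462524,321602744,-2045441732,7488952664,-19095390196,37108007260,-57231999536,70463304052,-65827519232,35814332668,17779957352,-81386476236,133861375060,-155787326596,138701738464,-88941076032,24592105644,33058838776,-68749838500,78450327100,-68080086100,48205434200,-28332288000,13746016200,-5338928500,1521477500,-219545400,-38497500,25000000]
def L_cR22_r_lo_hi_2_0 : List ℤ := [0,2760000,-48962524,489088994,-2734879858,9864918072,-25340448926,49077267804,-73744997342,85991768310,-73397654492,32219261154,29681813574,-95521829178,145377046692,-163037853056,142442210676,-90914548650,26286924550,31039384650,-66651763700,76719725750,-66999106550,47897391300,-28710337950,14430941100,-5902798750,1780221250,-282045400,-38497500,25000000]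
def L_cR22_r_lo_hi_2_1 : List ℤ := [0,2760000,-30212524,386595869,-2413397670,9173520007,-24313250170,48184718996,-73799433238,87505365266,-75882590782,34346236094,29014360368,-96304303857,146703673950,-164093763612,143069785866,-91356697013,26666277350,30860848950,-66818689350,77178387950,-67518538950,48224790500,-28746202700,14260438975,-5705986750,1669599375,-250795400,-38497500,25000000]
def L_cR22_r_lo_hi_2_2 : List ℤ := [0,2760000,-11462524,296602744,-2123664232,8541597992,-23346524964,47322624788,-73795390584,88856493672,-78124168272,36253292884,28441294912,-96976866836,147740136808,-164781908668,143407196656,-91688933676,27140017900,30462395100,-66742256200,77474581600,-67979492800,48582644300,-28842541000,14149412900,-5540923500,1571477500,-219545400,-38497500,25000000]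

theorem cR22_r_lo_hi {s w v : ℝ} (hs0 : 0 < s) (hs1 : s < 1) (hw0 : 0 ≤ w) (hw1 : w ≤ 1) (hv0 : 0 ≤ v) (hv1 : v ≤ 1) :
    R22 s*((((1-s)*(1+s+s^(2:ℕ))/((1+s)*(1-s+s^(2:ℕ))^(2:ℕ))*(1-w)+(1+s)/(1+s^(5:ℕ))*w)^(2:ℕ)*(((1-s)*(1-v)+(1-s+s^(2:ℕ))*v)/((1-s)*(1-s+s^(2:ℕ))))^(1:ℕ))) ≤ ((1/4)*(1-s)^(2:ℕ)/(s+(1/4)*(1-s)^(2:ℕ))*((1)^(2:ℕ)*s)-(1/4)*(1-s)^(2:ℕ)/s*(8*(((s*(1-s)/(1-s+s^(2:ℕ))+s^(3:ℕ)*(1-s)*(1+s)/((1-s+s^(2:ℕ))*(1+s^(5:ℕ)))*w)-s*(1-s)/(1-s+s^(2:ℕ)))*(s/(1-s)-(s*(1-s)/(1-s+s^(2:ℕ))+s^(3:ℕ)*(1-s)*(1+s)/((1-s+s^(2:ℕ))*(1+s^(5:ℕ)))*w)))+2*((s*((1-s)^(2:ℕ)+s*v)/((1-s)*(1-s+s^(2:ℕ))))*(s/(1-s)-(s*((1-s)^(2:ℕ)+s*v)/((1-s)*(1-s+s^(2:ℕ))))))))+(1-s+(2*(s*(1-s)/(1-s+s^(2:ℕ))+s^(3:ℕ)*(1-s)*(1+s)/((1-s+s^(2:ℕ))*(1+s^(5:ℕ)))*w)+1*(s*((1-s)^(2:ℕ)+s*v)/((1-s)*(1-s+s^(2:ℕ))))))^(2:ℕ) := by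
  have ho : 0 < 1 - s := by linarith
  have hp : 0 < 1 + s := by linarith
  have hd : 0 < 1 - s + s^(2:ℕ) := by positivity
  have h5 : 0 < 1 + s^(5:ℕ) := by positivity
  have h1w : 0 ≤ 1 - w := by linarith
  have h1v : 0 ≤ 1 - v := by linarith
  have n0_0 : 0 ≤ ev L_cR22_r_lo_hi_0_0 s := pos_of_check 8 _ (by decide +kernel) hs0.le hs1.le
  have n0_1 : 0 ≤ ev L_cR22_r_lo_hi_0_1 s := pos_of_check 8 _ (by decide +kernel) hs0.le hs1.le
  have n0_2 : 0 ≤ ev L_cR22_r_lo_hi_0_2 s := pos_of_check 8 _ (by decide +kernel) hs0.le hs1.le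
  have n1_0 : 0 ≤ ev L_cR22_r_lo_hi_1_0 s := pos_of_check 8 _ (by decide +kernel) hs0.le hs1.le
  have n1_1 : 0 ≤ ev L_cR22_r_lo_hi_1_1 s := pos_of_check 8 _ (by decide +kernel) hs0.le hs1.le
  have n1_2 : 0 ≤ ev L_cR22_r_lo_hi_1_2 s := pos_of_check 8 _ (by decide +kernel) hs0.le hs1.le
  have n2_0 : 0 ≤ ev L_cR22_r_lo_hi_2_0 s := pos_of_check 8 _ (by decide +kernel) hs0.le hs1.le
  have n2_1 : 0 ≤ ev L_cR22_r_lo_hi_2_1 s := pos_of_check 8 _ (by decide +kernel) hs0.le hs1.le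
  have n2_2 : 0 ≤ ev L_cR22_r_lo_hi_2_2 s := pos_of_check 8 _ (by decide +kernel) hs0.le hs1.le
  have hth : 0 < s+(1/4)*(1-s)^(2:ℕ) := by positivity
  have hf0 : 0 < (1-s)^(2:ℕ)+(6/25)^(2:ℕ)*s := by positivity
  have hf1 : 0 < (1-s)^(2:ℕ)+(31/20)^(2:ℕ)*s := by positivity
  have hr5 : 0 < 1-s+s^(2:ℕ)-s^(3:ℕ)+s^(4:ℕ) := by
    have h : 1-s+s^(2:ℕ)-s^(3:ℕ)+s^(4:ℕ) = (1-s)*(1+s^(2:ℕ))+s^(4:ℕ) := by ring
    rw [h]; positivity
  rw [← sub_nonneg]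
  refine le_of_le_of_eq (b := (1*w^(0:ℕ)*(1-w)^(2:ℕ)*v^(0:ℕ)*(1-v)^(2:ℕ)*ev L_cR22_r_lo_hi_0_0 s
      + 2*w^(0:ℕ)*(1-w)^(2:ℕ)*v^(1:ℕ)*(1-v)^(1:ℕ)*ev L_cR22_r_lo_hi_0_1 s
      + 1*w^(0:ℕ)*(1-w)^(2:ℕ)*v^(2:ℕ)*(1-v)^(0:ℕ)*ev L_cR22_r_lo_hi_0_2 s
      + 2*w^(1:ℕ)*(1-w)^(1:ℕ)*v^(0:ℕ)*(1-v)^(2:ℕ)*ev L_cR22_r_lo_hi_1_0 s
      + 4*w^(1:ℕ)*(1-w)^(1:ℕ)*v^(1:ℕ)*(1-v)^(1:ℕ)*ev L_cR22_r_lo_hi_1_1 s
      + 2*w^(1:ℕ)*(1-w)^(1:ℕ)*v^(2:ℕ)*(1-v)^(0:ℕ)*ev L_cR22_r_lo_hi_1_2 s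
      + 1*w^(2:ℕ)*(1-w)^(0:ℕ)*v^(0:ℕ)*(1-v)^(2:ℕ)*ev L_cR22_r_lo_hi_2_0 s
      + 2*w^(2:ℕ)*(1-w)^(0:ℕ)*v^(1:ℕ)*(1-v)^(1:ℕ)*ev L_cR22_r_lo_hi_2_1 s
      + 1*w^(2:ℕ)*(1-w)^(0:ℕ)*v^(2:ℕ)*(1-v)^(0:ℕ)*ev L_cR22_r_lo_hi_2_2 s) / (25000000*(1-s)^(2:ℕ)*(1+s)^(4:ℕ)*(1-s+s^(2:ℕ))^(5:ℕ)*(1-s+s^(2:ℕ)-s^(3:ℕ)+s^(4:ℕ))^(2:ℕ)*((1-s)^(2:ℕ)+(6/25)^(2:ℕ)*s)^(1:ℕ)*((1-s)^(2:ℕ)+(31/20)^(2:ℕ)*s)^(1:ℕ))) ?_ (Eq.symm ?_)
  ·
    generalize ev L_cR22_r_lo_hi_0_0 s = PL_cR22_r_lo_hi_0_0 at *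
    generalize ev L_cR22_r_lo_hi_0_1 s = PL_cR22_r_lo_hi_0_1 at *
    generalize ev L_cR22_r_lo_hi_0_2 s = PL_cR22_r_lo_hi_0_2 at *
    generalize ev L_cR22_r_lo_hi_1_0 s = PL_cR22_r_lo_hi_1_0 at *
    generalize ev L_cR22_r_lo_hi_1_1 s = PL_cR22_r_lo_hi_1_1 at *
    generalize ev L_cR22_r_lo_hi_1_2 s = PL_cR22_r_lo_hi_1_2 at *
    generalize ev L_cR22_r_lo_hi_2_0 s = PL_cR22_r_lo_hi_2_0 at *
    generalize ev L_cR22_r_lo_hi_2_1 s = PL_cR22_r_lo_hi_2_1 at *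
    generalize ev L_cR22_r_lo_hi_2_2 s = PL_cR22_r_lo_hi_2_2 at *
    positivity
  simp only [R22, Kr, fac, List.map_cons, List.map_nil, List.prod_cons, List.prod_nil, mul_one, pow_one]
  push_cast
  have e5 : 1+s^(5:ℕ) = (1+s)*(1-s+s^(2:ℕ)-s^(3:ℕ)+s^(4:ℕ)) := by ring
  rw [e5]
  generalize hgth : s+(1/4)*(1-s)^(2:ℕ) = th at *
  generalize hgf0 : (1-s)^(2:ℕ)+(6/25)^(2:ℕ)*s = f0 at *
  generalize hgf1 : (1-s)^(2:ℕ)+(31/20)^(2:ℕ)*s = f1 at *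
  generalize hgr5 : 1-s+s^(2:ℕ)-s^(3:ℕ)+s^(4:ℕ) = r5 at *
  field_simp
  simp only [ev, L_cR22_r_lo_hi_0_0, L_cR22_r_lo_hi_0_1, L_cR22_r_lo_hi_0_2, L_cR22_r_lo_hi_1_0, L_cR22_r_lo_hi_1_1, L_cR22_r_lo_hi_1_2, L_cR22_r_lo_hi_2_0, L_cR22_r_lo_hi_2_1, L_cR22_r_lo_hi_2_2]
  push_cast
  rw [← hgth, ← hgf0, ← hgf1, ← hgr5]
  ring


end Pool.Agent.H59
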