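import Pool.Agent.H59.Bern
import Pool.Agent.H59.KDefs
set_option autoImplicit false
set_option maxRecDepth 10000
set_option maxHeartbeats 4000000
namespace Pool.Agent.H59
open Bern

def L_cR22_r_hi_lo_0_0 : List ℤ := [0,27760000,22279976,-529732632,1618466848,-2454483472,1436773016,2204543384,-7003075528,10019194952,-8893103768,3592634724,3718202600,-10342318900,14345731100,-15120668200,13113885700,-9472569300,5663109200,-2708069300,944482500,-169545400,-38497500,25000000]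
def L_cR22_r_hi_lo_0_1 : List ℤ := [0,9010000,17793101,-123141118,-30150323,1218707275,-4030883331,8033303445,-11595503691,12701894339,-10026748384,3846347437,3921631375,-10746984700,14719863475,-15299945525,13065492225,-9288998925,5474059175,-2615900775,968320950,-223418525,-19747500,25000000]
def L_cR22_r_hi_lo_0_2 : List ℤ := [0,2760000,-43442524,393923946,-1813944394,5014574922,-9527264478,13694841206,-15844307854,14979063026,-10804565650,3948361800,3973361800,-10795823150,14688465150,-15135598850,12849876450,-9134153350,5407686050,-2658909150,1102632950,-334040400,11502500,25000000]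
def L_cR22_r_hi_lo_1_0 : List ℤ := [0,27760000,47279976,-615470132,2061693924,-4234789904,6222200440,-7009636144,6298374780,-4863332644,4153270140,-5380837204,8663074624,-12723648832,15571559976,-15747706600,13233431100,-9246760900,5315760400,-2431667600,792487500,-119545400,-38497500,25000000]
def L_cR22_r_hi_lo_1_1 : List ℤ := [0,9010000,42793101,-221378618,373965503,-83896493,-1062259553,3031458603,-5090024787,5898308769,-4219806346,-208985875,6321445349,-12098613266,15560473763,-15758710975,13152992225,-9151094725,5259159975,-2427996575,841325950,-173418525,-19747500,25000000]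
def L_cR22_r_hi_lo_1_2 : List ℤ := [0,2760000,-18442524,283186446,-1448939818,4189673818,-8375444346,12905331050,-16134800354,16254419482,-12237055482,4811167104,3828117724,-11117750350,15143856850,-15426091350,12905331050,-9084153350,5325236450,-2559502450,1000637950,-284040400,11502500,25000000]
def L_cR22_r_hi_lo_2_0 : List ℤ := [0,27760000,72279976,-651207632,2352926000,-5710934636,10957559040,-17620692404,24739345388,-30967238324,35148579724,-36581790888,35311488404,-31815024040,26743210136,-20770628500,14739500032,-9354672076,5140058300,-2257260900,690492500,-69545400,-38497500,25000000]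
def L_cR22_r_hi_lo_2_1 : List ℤ := [0,9010000,67793101,-269616118,626086329,-1119838561,1905681651,-3059509907,4837961221,-7512635485,11166938132,-15213433063,18764264759,-20828704116,20667008491,-18109210037,13926794441,-9288497413,5249036225,-2354587375,764330950,-123418525,-19747500,25000000]
def L_cR22_r_hi_lo_2_2 : List ℤ := [0,2760000,6557476,222448946,-1235930242,3593934414,-7174920538,11334450290,-14719798946,15536436654,-12458876110,6003226412,2065342764,-9486556842,14185276146,-15104167574,12946866550,-9251047550,5480691050,-2587090750,948642950,-234040400,11502500,25000000]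

theorem cR22_r_hi_lo {s w v : ℝ} (hs0 : 0 < s) (hs1 : s < 1) (hw0 : 0 ≤ w) (hw1 : w ≤ 1) (hv0 : 0 ≤ v) (hv1 : v ≤ 1) :
    R22 s*((((1+s)/(1+s^(5:ℕ))*(1-w)+w/(1-s))^(2:ℕ)*(((1-s)*(1-s+s^(2:ℕ))*(1-v)+(1+s)*v)/((1+s)*(1-s+s^(2:ℕ))))^(1:ℕ))) ≤ ((1/4)*(1-s)^(2:ℕ)/(s+(1/4)*(1-s)^(2:ℕ))*((1)^(2:ℕ)*s)-(1/4)*(1-s)^(2:ℕ)/s*(8*(((s*(1-s^(4:ℕ))/(1+s^(5:ℕ))+s^(2:ℕ)*(1+s^(3:ℕ))/((1-s)*(1+s^(5:ℕ)))*w)-s*(1-s)/(1-s+s^(2:ℕ)))*(s/(1-s)-(s*(1-s^(4:ℕ))/(1+s^(5:ℕ))+s^(2:ℕ)*(1+s^(3:ℕ))/((1-s)*(1+s^(5:ℕ)))*w)))+2*((s*(1-s)/(1-s+s^(2:ℕ))*v)*(s/(1-s)-(s*(1-s)/(1-s+s^(2:ℕ))*v)))))+(1-s+(2*(s*(1-s^(4:ℕ))/(1+s^(5:ℕ))+s^(2:ℕ)*(1+s^(3:ℕ))/((1-s)*(1+s^(5:ℕ)))*w)+1*(s*(1-s)/(1-s+s^(2:ℕ))*v)))^(2:ℕ) := by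
  have ho : 0 < 1 - s := by linarith
  have hp : 0 < 1 + s := by linarith
  have hd : 0 < 1 - s + s^(2:ℕ) := by positivity
  have h5 : 0 < 1 + s^(5:ℕ) := by positivity
  have h1w : 0 ≤ 1 - w := by linarith
  have h1v : 0 ≤ 1 - v := by linarith
  have n0_0 : 0 ≤ ev L_cR22_r_hi_lo_0_0 s := pos_of_check 8 _ (by decide +kernel) hs0.le hs1.le
  have n0_1 : 0 ≤ ev L_cR22_r_hi_lo_0_1 s := pos_of_check 8 _ (by decide +kernel) hs0.le hs1.le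
  have n0_2 : 0 ≤ ev L_cR22_r_hi_lo_0_2 s := pos_of_check 8 _ (by decide +kernel) hs0.le hs1.le
  have n1_0 : 0 ≤ ev L_cR22_r_hi_lo_1_0 s := pos_of_check 8 _ (by decide +kernel) hs0.le hs1.le
  have n1_1 : 0 ≤ ev L_cR22_r_hi_lo_1_1 s := pos_of_check 8 _ (by decide +kernel) hs0.le hs1.le
  have n1_2 : 0 ≤ ev L_cR22_r_hi_lo_1_2 s := pos_of_check 8 _ (by decide +kernel) hs0.le hs1.le
  have n2_0 : 0 ≤ ev L_cR22_r_hi_lo_2_0 s := pos_of_check 8 _ (by decide +kernel) hs0.le hs1.le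
  have n2_1 : 0 ≤ ev L_cR22_r_hi_lo_2_1 s := pos_of_check 8 _ (by decide +kernel) hs0.le hs1.le
  have n2_2 : 0 ≤ ev L_cR22_r_hi_lo_2_2 s := pos_of_check 8 _ (by decide +kernel) hs0.le hs1.le
  have hth : 0 < s+(1/4)*(1-s)^(2:ℕ) := by positivity
  have hf0 : 0 < (1-s)^(2:ℕ)+(6/25)^(2:ℕ)*s := by positivity
  have hf1 : 0 < (1-s)^(2:ℕ)+(31/20)^(2:ℕ)*s := by positivity
  have hr5 : 0 < 1-s+s^(2:ℕ)-s^(3:ℕ)+s^(4:ℕ) := by
    have h : 1-s+s^(2:ℕ)-s^(3:ℕ)+s^(4:ℕ) = (1-s)*(1+s^(2:ℕ))+s^(4:ℕ) := by ring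
    rw [h]; positivity
  rw [← sub_nonneg]
  refine le_of_le_of_eq (b := (1*w^(0:ℕ)*(1-w)^(2:ℕ)*v^(0:ℕ)*(1-v)^(2:ℕ)*ev L_cR22_r_hi_lo_0_0 s
      + 2*w^(0:ℕ)*(1-w)^(2:ℕ)*v^(1:ℕ)*(1-v)^(1:ℕ)*ev L_cR22_r_hi_lo_0_1 s
      + 1*w^(0:ℕ)*(1-w)^(2:ℕ)*v^(2:ℕ)*(1-v)^(0:ℕ)*ev L_cR22_r_hi_lo_0_2 s
      + 2*w^(1:ℕ)*(1-w)^(1:ℕ)*v^(0:ℕ)*(1-v)^(2:ℕ)*ev L_cR22_r_hi_lo_1_0 s
      + 4*w^(1:ℕ)*(1-w)^(1:ℕ)*v^(1:ℕ)*(1-v)^(1:ℕ)*ev L_cR22_r_hi_lo_1_1 s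
      + 2*w^(1:ℕ)*(1-w)^(1:ℕ)*v^(2:ℕ)*(1-v)^(0:ℕ)*ev L_cR22_r_hi_lo_1_2 s
      + 1*w^(2:ℕ)*(1-w)^(0:ℕ)*v^(0:ℕ)*(1-v)^(2:ℕ)*ev L_cR22_r_hi_lo_2_0 s
      + 2*w^(2:ℕ)*(1-w)^(0:ℕ)*v^(1:ℕ)*(1-v)^(1:ℕ)*ev L_cR22_r_hi_lo_2_1 s
      + 1*w^(2:ℕ)*(1-w)^(0:ℕ)*v^(2:ℕ)*(1-v)^(0:ℕ)*ev L_cR22_r_hi_lo_2_2 s) / (25000000*(1-s)^(2:ℕ)*(1+s)^(3:ℕ)*(1-s+s^(2:ℕ))^(2:ℕ)*(1-s+s^(2:ℕ)-s^(3:ℕ)+s^(4:ℕ))^(2:ℕ)*((1-s)^(2:ℕ)+(6/25)^(2:ℕ)*s)^(1:ℕ)*((1-s)^(2:ℕ)+(31/20)^(2:ℕ)*s)^(1:ℕ))) ?_ (Eq.symm ?_)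
  ·
    generalize ev L_cR22_r_hi_lo_0_0 s = PL_cR22_r_hi_lo_0_0 at *
    generalize ev L_cR22_r_hi_lo_0_1 s = PL_cR22_r_hi_lo_0_1 at *
    generalize ev L_cR22_r_hi_lo_0_2 s = PL_cR22_r_hi_lo_0_2 at *
    generalize ev L_cR22_r_hi_lo_1_0 s = PL_cR22_r_hi_lo_1_0 at *
    generalize ev L_cR22_r_hi_lo_1_1 s = PL_cR22_r_hi_lo_1_1 at *
    generalize ev L_cR22_r_hi_lo_1_2 s = PL_cR22_r_hi_lo_1_2 at *
    generalize ev L_cR22_r_hi_lo_2_0 s = PL_cR22_r_hi_lo_2_0 at *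
    generalize ev L_cR22_r_hi_lo_2_1 s = PL_cR22_r_hi_lo_2_1 at *
    generalize ev L_cR22_r_hi_lo_2_2 s = PL_cR22_r_hi_lo_2_2 at *
    positivity
  simp only [R22, Kr, fac, List.map_cons, List.map_nil, List.prod_cons, List.prod_nil, mul_one, pow_one]
  push_cast
  have e5 : 1+s^(5:ℕ) = (1+s)*(1-s+s^(2:ℕ)-s^(3:ℕ)+s^(4:ℕ)) := by ring
  rw [e5]
  generalize hgth : s+(1/4)*(1-s)^(2:ℕ) = th at *
  generalize hgf0 : (1-s)^(2:ℕ)+(6/25)^(2:ℕ)*s = f0 at *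
  generalize hgf1 : (1-s)^(2:ℕ)+(31/20)^(2:ℕ)*s = f1 at *
  generalize hgr5 : 1-s+s^(2:ℕ)-s^(3:ℕ)+s^(4:ℕ) = r5 at *
  field_simp
  simp only [ev, L_cR22_r_hi_lo_0_0, L_cR22_r_hi_lo_0_1, L_cR22_r_hi_lo_0_2, L_cR22_r_hi_lo_1_0, L_cR22_r_hi_lo_1_1, L_cR22_r_hi_lo_1_2, L_cR22_r_hi_lo_2_0, L_cR22_r_hi_lo_2_1, L_cR22_r_hi_lo_2_2]
  push_cast
  rw [← hgth, ← hgf0, ← hgf1, ← hgr5]
  ring


end Pool.Agent.H59
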