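import Pool.Agent.H59.Bern
import Pool.Agent.H59.KDefs
set_option autoImplicit false
set_option maxRecDepth 10000
set_option maxHeartbeats 4000000
namespace Pool.Agent.H59
open Bern

def L_cR22_r_hi_hi_0_0 : List ℤ := [0,2760000,-46202524,440126470,-2254070864,7268645786,-16795910264,30490751470,-46335059324,61314122350,-72118688000,76067049800,-72093688000,61297864850,-46609399700,31473800850,-18623924400,9489771050,-4082085000,1423175850,-320542900,-13497500,25000000]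
def L_cR22_r_hi_hi_0_1 : List ℤ := [0,2760000,-27452524,356383345,-2035081801,6842479909,-16208880198,29968434229,-46059796397,61263422587,-72180042800,76143047300,-72159414050,61379964025,-46692862525,31506764925,-18592175650,9422330925,-3995894875,1343803975,-289292900,-13497500,25000000]
def L_cR22_r_hi_hi_0_2 : List ℤ := [0,2760000,-8702524,285140220,-1835341488,6444041332,-15660347632,29473844288,-45778782220,61186725324,-72185943000,76142049800,-72169685500,61436065700,-46770574100,31567456300,-18598924400,9382618100,-3928953500,1276932100,-258042900,-13497500,25000000]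
def L_cR22_r_hi_hi_1_0 : List ℤ := [0,2760000,-21202524,304388970,-1753328788,5943002606,-14318446952,27223778002,-43358578356,59612997838,-71850053320,76661220424,-72833102700,61715352350,-46571495500,31145404150,-18240073100,9155919750,-3830683300,1271180850,-270542900,-13497500,25000000]
def L_cR22_r_hi_hi_1_1 : List ℤ := [0,2760000,-2452524,220645845,-1521839725,5448967979,-13517165848,26243414159,-42381651825,58819673295,-71386146216,76549525122,-72924476912,61848534875,-46637003725,31095918625,-18114372250,9024982125,-3719493175,1191808975,-239292900,-13497500,25000000]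
def L_cR22_r_hi_hi_1_2 : List ℤ := [0,2760000,16297476,149402720,-1309599412,4982660652,-12754382244,25290777616,-41398974044,58000351252,-70866784512,76360834820,-72960396524,61955719900,-46696760700,31074160400,-18027168900,8921771800,-3627551800,1124937100,-208042900,-13497500,25000000]
def L_cR22_r_hi_hi_2_0 : List ℤ := [0,2760000,3797476,218651470,-1454581712,5048516126,-12223436664,23557886954,-38277685900,53814122554,-66272998664,72276225076,-70210882312,60724325470,-46539049324,31434881750,-18488015200,9236967650,-3756276600,1169185850,-220542900,-13497500,25000000]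
def L_cR22_r_hi_hi_2_1 : List ℤ := [0,2760000,22547476,134908345,-1210592649,4486612749,-11220404522,22115105259,-36491296827,51885704979,-64509192964,70906588278,-69257655992,60133954653,-46194134697,31195147687,-18263991000,9055032525,-3620086475,1089813975,-189292900,-13497500,25000000]
def L_cR22_r_hi_hi_2_2 : List ℤ := [0,2760000,41297476,63665220,-985852336,3952436672,-10255869880,20700050864,-34699156504,49931289904,-62689932664,69459956480,-68248975072,59517586336,-45843468820,30983140924,-18078464300,8900824700,-3503145100,1022942100,-158042900,-13497500,25000000]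

theorem cR22_r_hi_hi {s w v : ℝ} (hs0 : 0 < s) (hs1 : s < 1) (hw0 : 0 ≤ w) (hw1 : w ≤ 1) (hv0 : 0 ≤ v) (hv1 : v ≤ 1) :
    R22 s*((((1+s)/(1+s^(5:ℕ))*(1-w)+w/(1-s))^(2:ℕ)*(((1-s)*(1-v)+(1-s+s^(2:ℕ))*v)/((1-s)*(1-s+s^(2:ℕ))))^(1:ℕ))) ≤ ((1/4)*(1-s)^(2:ℕ)/(s+(1/4)*(1-s)^(2:ℕ))*((1)^(2:ℕ)*s)-(1/4)*(1-s)^(2:ℕ)/s*(8*(((s*(1-s^(4:ℕ))/(1+s^(5:ℕ))+s^(2:ℕ)*(1+s^(3:ℕ))/((1-s)*(1+s^(5:ℕ)))*w)-s*(1-s)/(1-s+s^(2:ℕ)))*(s/(1-s)-(s*(1-s^(4:ℕ))/(1+s^(5:ℕ))+s^(2:ℕ)*(1+s^(3:ℕ))/((1-s)*(1+s^(5:ℕ)))*w)))+2*((s*((1-s)^(2:ℕ)+s*v)/((1-s)*(1-s+s^(2:ℕ))))*(s/(1-s)-(s*((1-s)^(2:ℕ)+s*v)/((1-s)*(1-s+s^(2:ℕ))))))))+(1-s+(2*(s*(1-s^(4:ℕ))/(1+s^(5:ℕ))+s^(2:ℕ)*(1+s^(3:ℕ))/((1-s)*(1+s^(5:ℕ)))*w)+1*(s*((1-s)^(2:ℕ)+s*v)/((1-s)*(1-s+s^(2:ℕ))))))^(2:ℕ) := by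
  have ho : 0 < 1 - s := by linarith
  have hp : 0 < 1 + s := by linarith
  have hd : 0 < 1 - s + s^(2:ℕ) := by positivity
  have h5 : 0 < 1 + s^(5:ℕ) := by positivity
  have h1w : 0 ≤ 1 - w := by linarith
  have h1v : 0 ≤ 1 - v := by linarith
  have n0_0 : 0 ≤ ev L_cR22_r_hi_hi_0_0 s := pos_of_check 8 _ (by decide +kernel) hs0.le hs1.le
  have n0_1 : 0 ≤ ev L_cR22_r_hi_hi_0_1 s := pos_of_check 8 _ (by decide +kernel) hs0.le hs1.le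
  have n0_2 : 0 ≤ ev L_cR22_r_hi_hi_0_2 s := pos_of_check 8 _ (by decide +kernel) hs0.le hs1.le
  have n1_0 : 0 ≤ ev L_cR22_r_hi_hi_1_0 s := pos_of_check 8 _ (by decide +kernel) hs0.le hs1.le
  have n1_1 : 0 ≤ ev L_cR22_r_hi_hi_1_1 s := pos_of_check 8 _ (by decide +kernel) hs0.le hs1.le
  have n1_2 : 0 ≤ ev L_cR22_r_hi_hi_1_2 s := pos_of_check 8 _ (by decide +kernel) hs0.le hs1.le
  have n2_0 : 0 ≤ ev L_cR22_r_hi_hi_2_0 s := pos_of_check 8 _ (by decide +kernel) hs0.le hs1.le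
  have n2_1 : 0 ≤ ev L_cR22_r_hi_hi_2_1 s := pos_of_check 8 _ (by decide +kernel) hs0.le hs1.le
  have n2_2 : 0 ≤ ev L_cR22_r_hi_hi_2_2 s := pos_of_check 8 _ (by decide +kernel) hs0.le hs1.le
  have hth : 0 < s+(1/4)*(1-s)^(2:ℕ) := by positivity
  have hf0 : 0 < (1-s)^(2:ℕ)+(6/25)^(2:ℕ)*s := by positivity
  have hf1 : 0 < (1-s)^(2:ℕ)+(31/20)^(2:ℕ)*s := by positivity
  have hr5 : 0 < 1-s+s^(2:ℕ)-s^(3:ℕ)+s^(4:ℕ) := by
    have h : 1-s+s^(2:ℕ)-s^(3:ℕ)+s^(4:ℕ) = (1-s)*(1+s^(2:ℕ))+s^(4:ℕ) := by ring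
    rw [h]; positivity
  rw [← sub_nonneg]
  refine le_of_le_of_eq (b := (1*w^(0:ℕ)*(1-w)^(2:ℕ)*v^(0:ℕ)*(1-v)^(2:ℕ)*ev L_cR22_r_hi_hi_0_0 s
      + 2*w^(0:ℕ)*(1-w)^(2:ℕ)*v^(1:ℕ)*(1-v)^(1:ℕ)*ev L_cR22_r_hi_hi_0_1 s
      + 1*w^(0:ℕ)*(1-w)^(2:ℕ)*v^(2:ℕ)*(1-v)^(0:ℕ)*ev L_cR22_r_hi_hi_0_2 s
      + 2*w^(1:ℕ)*(1-w)^(1:ℕ)*v^(0:ℕ)*(1-v)^(2:ℕ)*ev L_cR22_r_hi_hi_1_0 s
      + 4*w^(1:ℕ)*(1-w)^(1:ℕ)*v^(1:ℕ)*(1-v)^(1:ℕ)*ev L_cR22_r_hi_hi_1_1 s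
      + 2*w^(1:ℕ)*(1-w)^(1:ℕ)*v^(2:ℕ)*(1-v)^(0:ℕ)*ev L_cR22_r_hi_hi_1_2 s
      + 1*w^(2:ℕ)*(1-w)^(0:ℕ)*v^(0:ℕ)*(1-v)^(2:ℕ)*ev L_cR22_r_hi_hi_2_0 s
      + 2*w^(2:ℕ)*(1-w)^(0:ℕ)*v^(1:ℕ)*(1-v)^(1:ℕ)*ev L_cR22_r_hi_hi_2_1 s
      + 1*w^(2:ℕ)*(1-w)^(0:ℕ)*v^(2:ℕ)*(1-v)^(0:ℕ)*ev L_cR22_r_hi_hi_2_2 s) / (25000000*(1-s)^(2:ℕ)*(1+s)^(2:ℕ)*(1-s+s^(2:ℕ))^(2:ℕ)*(1-s+s^(2:ℕ)-s^(3:ℕ)+s^(4:ℕ))^(2:ℕ)*((1-s)^(2:ℕ)+(6/25)^(2:ℕ)*s)^(1:ℕ)*((1-s)^(2:ℕ)+(31/20)^(2:ℕ)*s)^(1:ℕ))) ?_ (Eq.symm ?_)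
  ·
    generalize ev L_cR22_r_hi_hi_0_0 s = PL_cR22_r_hi_hi_0_0 at *
    generalize ev L_cR22_r_hi_hi_0_1 s = PL_cR22_r_hi_hi_0_1 at *
    generalize ev L_cR22_r_hi_hi_0_2 s = PL_cR22_r_hi_hi_0_2 at *
    generalize ev L_cR22_r_hi_hi_1_0 s = PL_cR22_r_hi_hi_1_0 at *
    generalize ev L_cR22_r_hi_hi_1_1 s = PL_cR22_r_hi_hi_1_1 at *
    generalize ev L_cR22_r_hi_hi_1_2 s = PL_cR22_r_hi_hi_1_2 at *
    generalize ev L_cR22_r_hi_hi_2_0 s = PL_cR22_r_hi_hi_2_0 at *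
    generalize ev L_cR22_r_hi_hi_2_1 s = PL_cR22_r_hi_hi_2_1 at *
    generalize ev L_cR22_r_hi_hi_2_2 s = PL_cR22_r_hi_hi_2_2 at *
    positivity
  simp only [R22, Kr, fac, List.map_cons, List.map_nil, List.prod_cons, List.prod_nil, mul_one, pow_one]
  push_cast
  have e5 : 1+s^(5:ℕ) = (1+s)*(1-s+s^(2:ℕ)-s^(3:ℕ)+s^(4:ℕ)) := by ring
  rw [e5]
  generalize hgth : s+(1/4)*(1-s)^(2:ℕ) = th at *
  generalize hgf0 : (1-s)^(2:ℕ)+(6/25)^(2:ℕ)*s = f0 at *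
  generalize hgf1 : (1-s)^(2:ℕ)+(31/20)^(2:ℕ)*s = f1 at *
  generalize hgr5 : 1-s+s^(2:ℕ)-s^(3:ℕ)+s^(4:ℕ) = r5 at *
  field_simp
  simp only [ev, L_cR22_r_hi_hi_0_0, L_cR22_r_hi_hi_0_1, L_cR22_r_hi_hi_0_2, L_cR22_r_hi_hi_1_0, L_cR22_r_hi_hi_1_1, L_cR22_r_hi_hi_1_2, L_cR22_r_hi_hi_2_0, L_cR22_r_hi_hi_2_1, L_cR22_r_hi_hi_2_2]
  push_cast
  rw [← hgth, ← hgf0, ← hgf1, ← hgr5]
  ring


end Pool.Agent.H59
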