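import Pool.Agent.H59.Bern
import Pool.Agent.H59.KDefs
set_option autoImplicit false
set_option maxRecDepth 10000
set_option maxHeartbeats 4000000
namespace Pool.Agent.H59
open Bern

def L_cR5_r_lo_0_0 : List ℤ := [0,496000,15403840,-86154504,244686672,-427219360,383485160,314751576,-2073112992,4820090752,-7643992184,9064090880,-8093048624,5198832752,-2017920512,11098744,560796000,-379548576,134943304,-46245576,30461536,-15828080,2597192,1256000,80000]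
def L_cR5_r_lo_1_0 : List ℤ := [0,316000,13265840,-51382666,78469780,8626346,-263448952,535211850,-562220580,261399658,131003992,-340239316,354623248,-326308372,304496464,-203649638,24363468,102149370,-100083128,27756954,16310676,-15196186,3139192,1316000,80000]
def L_cR5_r_lo_2_0 : List ℤ := [0,186000,10942840,-24172583,5413945,79259748,-163910417,88582337,161583002,-352412829,210779257,166623135,-367842390,194303919,122277745,-227511093,88781882,61802393,-86549745,26039020,14307689,-14126047,4136192,1426000,80000]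
def L_cR5_r_lo_3_0 : List ℤ := [0,106000,8434840,-6684255,-3640833,28220342,-58314699,31643213,71420346,-186087205,117763755,136495313,-281560282,136855201,138230683,-216714133,71500346,63750141,-81548275,22687046,11965927,-11857663,5668192,1586000,80000]
def L_cR5_r_lo_4_0 : List ℤ := [0,76000,5741840,-1077682,15665446,2927624,-79578774,84446246,50551204,-237742382,166941574,153090194,-316489228,144056842,160401518,-223968974,54937908,68086134,-75192070,16701032,9205390,-8391034,7735192,1796000,80000]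
def L_cR5_r_lo_5_0 : List ℤ := [0,96000,2863840,-9512864,21212782,35241090,-67401130,48890260,17341216,-229002376,197097402,154287890,-342308220,152327890,189624050,-234789080,32527920,76050372,-67401130,8080978,6026078,-3726160,10337192,2056000,80000]

theorem cR5_r_lo {s w : ℝ} (hs0 : 0 < s) (hs1 : s < 1) (hw0 : 0 ≤ w) (hw1 : w ≤ 1) :
    R5 s*(((((1-s)*(1-s+s^(2:ℕ))*(1-w)+(1+s)*w)/((1+s)*(1-s+s^(2:ℕ))))^(5:ℕ))) ≤ ((1/4)*(1-s)^(2:ℕ)/(s+(1/4)*(1-s)^(2:ℕ))*((3)^(2:ℕ)*s)-(1/4)*(1-s)^(2:ℕ)/s*(25*((s*(1-s)/(1-s+s^(2:ℕ))*w)*(s/(1-s)-(s*(1-s)/(1-s+s^(2:ℕ))*w)))))+(1-s+(5*(s*(1-s)/(1-s+s^(2:ℕ))*w)))^(2:ℕ) := by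
  have ho : 0 < 1 - s := by linarith
  have hp : 0 < 1 + s := by linarith
  have hd : 0 < 1 - s + s^(2:ℕ) := by positivity
  have h5 : 0 < 1 + s^(5:ℕ) := by positivity
  have h1w : 0 ≤ 1 - w := by linarith
  have n0_0 : 0 ≤ ev L_cR5_r_lo_0_0 s := pos_of_check 8 _ (by decide +kernel) hs0.le hs1.le
  have n1_0 : 0 ≤ ev L_cR5_r_lo_1_0 s := pos_of_check 8 _ (by decide +kernel) hs0.le hs1.le
  have n2_0 : 0 ≤ ev L_cR5_r_lo_2_0 s := pos_of_check 8 _ (by decide +kernel) hs0.le hs1.le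
  have n3_0 : 0 ≤ ev L_cR5_r_lo_3_0 s := pos_of_check 8 _ (by decide +kernel) hs0.le hs1.le
  have n4_0 : 0 ≤ ev L_cR5_r_lo_4_0 s := pos_of_check 8 _ (by decide +kernel) hs0.le hs1.le
  have n5_0 : 0 ≤ ev L_cR5_r_lo_5_0 s := pos_of_check 8 _ (by decide +kernel) hs0.le hs1.le
  have hth : 0 < s+(1/4)*(1-s)^(2:ℕ) := by positivity
  have hf0 : 0 < (1-s)^(2:ℕ)+(3/10)^(2:ℕ)*s := by positivity
  have hf1 : 0 < (1-s)^(2:ℕ)+(31/10)^(2:ℕ)*s := by positivity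
  rw [← sub_nonneg]
  refine le_of_le_of_eq (b := (1*w^(0:ℕ)*(1-w)^(5:ℕ)*ev L_cR5_r_lo_0_0 s
      + 5*w^(1:ℕ)*(1-w)^(4:ℕ)*ev L_cR5_r_lo_1_0 s
      + 10*w^(2:ℕ)*(1-w)^(3:ℕ)*ev L_cR5_r_lo_2_0 s
      + 10*w^(3:ℕ)*(1-w)^(2:ℕ)*ev L_cR5_r_lo_3_0 s
      + 5*w^(4:ℕ)*(1-w)^(1:ℕ)*ev L_cR5_r_lo_4_0 s
      + 1*w^(5:ℕ)*(1-w)^(0:ℕ)*ev L_cR5_r_lo_5_0 s) / (80000*(1+s)^(8:ℕ)*(1-s+s^(2:ℕ))^(5:ℕ)*((1-s)^(2:ℕ)+(3/10)^(2:ℕ)*s)^(1:ℕ)*((1-s)^(2:ℕ)+(31/10)^(2:ℕ)*s)^(1:ℕ))) ?_ (Eq.symm ?_)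
  ·
    generalize ev L_cR5_r_lo_0_0 s = PL_cR5_r_lo_0_0 at *
    generalize ev L_cR5_r_lo_1_0 s = PL_cR5_r_lo_1_0 at *
    generalize ev L_cR5_r_lo_2_0 s = PL_cR5_r_lo_2_0 at *
    generalize ev L_cR5_r_lo_3_0 s = PL_cR5_r_lo_3_0 at *
    generalize ev L_cR5_r_lo_4_0 s = PL_cR5_r_lo_4_0 at *
    generalize ev L_cR5_r_lo_5_0 s = PL_cR5_r_lo_5_0 at *
    positivity
  simp only [R5, Kr, fac, List.map_cons, List.map_nil, List.prod_cons, List.prod_nil, mul_one, pow_one]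
  push_cast
  generalize hgth : s+(1/4)*(1-s)^(2:ℕ) = th at *
  generalize hgf0 : (1-s)^(2:ℕ)+(3/10)^(2:ℕ)*s = f0 at *
  generalize hgf1 : (1-s)^(2:ℕ)+(31/10)^(2:ℕ)*s = f1 at *
  field_simp
  simp only [ev, L_cR5_r_lo_0_0, L_cR5_r_lo_1_0, L_cR5_r_lo_2_0, L_cR5_r_lo_3_0, L_cR5_r_lo_4_0, L_cR5_r_lo_5_0]
  push_cast
  rw [← hgth, ← hgf0, ← hgf1]
  ring


def L_cR5_r_hi_0_0 : List ℤ := [0,96000,2191840,-27063744,155542670,-546171648,1318343252,-2333365990,3046623870,-2722370948,1106174698,1106174698,-2722450948,3045223870,-2329199342,1319510012,-559985168,169356190,-28230504,-1974808,1496000,80000]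
def L_cR5_r_hi_1_0 : List ℤ := [0,96000,2371840,-27241744,153784192,-538891922,1312762756,-2340201642,3053584346,-2717222100,1100958274,1101038274,-2715822100,3049497698,-2339888402,1323889628,-556558850,164911064,-26928504,-1714808,1496000,80000]
def L_cR5_r_hi_2_0 : List ℤ := [0,96000,2551840,-27369744,152330714,-533178951,1307775398,-2340908993,3055929501,-2715050430,1098436585,1097116585,-2711043782,3054136261,-2349429217,1327735734,-553139287,160850938,-25576504,-1454808,1496000,80000]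
def L_cR5_r_hi_3_0 : List ℤ := [0,96000,2731840,-27447744,151182236,-529032735,1303301178,-2337128043,3053145983,-2711389234,1098096279,1092769631,-2708195994,3059139559,-2357821787,1331048330,-549726479,157175812,-24174504,-1194808,1496000,80000]
def L_cR5_r_hi_4_0 : List ℤ := [0,96000,2911840,-27475744,150338758,-526453274,1299260096,-2330498792,3044640440,-2703491808,1097190652,1088590764,-2705638736,3064587592,-2365066112,1333827416,-546320426,153885686,-22722504,-934808,1496000,80000]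
def L_cR5_r_hi_5_0 : List ℤ := [0,96000,3091840,-27453744,149800280,-525440568,1295572152,-2322661240,3029739520,-2690331448,1090659648,1085606688,-2704045360,3068840360,-2371242192,1336072992,-542921128,150980560,-21220504,-674808,1496000,80000]

theorem cR5_r_hi {s w : ℝ} (hs0 : 0 < s) (hs1 : s < 1) (hw0 : 0 ≤ w) (hw1 : w ≤ 1) :
    R5 s*(((((1-s)*(1-w)+(1-s+s^(2:ℕ))*w)/((1-s)*(1-s+s^(2:ℕ))))^(5:ℕ))) ≤ ((1/4)*(1-s)^(2:ℕ)/(s+(1/4)*(1-s)^(2:ℕ))*((3)^(2:ℕ)*s)-(1/4)*(1-s)^(2:ℕ)/s*(25*((s*((1-s)^(2:ℕ)+s*w)/((1-s)*(1-s+s^(2:ℕ))))*(s/(1-s)-(s*((1-s)^(2:ℕ)+s*w)/((1-s)*(1-s+s^(2:ℕ))))))))+(1-s+(5*(s*((1-s)^(2:ℕ)+s*w)/((1-s)*(1-s+s^(2:ℕ))))))^(2:ℕ) := by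
  have ho : 0 < 1 - s := by linarith
  have hp : 0 < 1 + s := by linarith
  have hd : 0 < 1 - s + s^(2:ℕ) := by positivity
  have h5 : 0 < 1 + s^(5:ℕ) := by positivity
  have h1w : 0 ≤ 1 - w := by linarith
  have n0_0 : 0 ≤ ev L_cR5_r_hi_0_0 s := pos_of_check 8 _ (by decide +kernel) hs0.le hs1.le
  have n1_0 : 0 ≤ ev L_cR5_r_hi_1_0 s := pos_of_check 8 _ (by decide +kernel) hs0.le hs1.le
  have n2_0 : 0 ≤ ev L_cR5_r_hi_2_0 s := pos_of_check 8 _ (by decide +kernel) hs0.le hs1.le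
  have n3_0 : 0 ≤ ev L_cR5_r_hi_3_0 s := pos_of_check 8 _ (by decide +kernel) hs0.le hs1.le
  have n4_0 : 0 ≤ ev L_cR5_r_hi_4_0 s := pos_of_check 8 _ (by decide +kernel) hs0.le hs1.le
  have n5_0 : 0 ≤ ev L_cR5_r_hi_5_0 s := pos_of_check 8 _ (by decide +kernel) hs0.le hs1.le
  have hth : 0 < s+(1/4)*(1-s)^(2:ℕ) := by positivity
  have hf0 : 0 < (1-s)^(2:ℕ)+(3/10)^(2:ℕ)*s := by positivity
  have hf1 : 0 < (1-s)^(2:ℕ)+(31/10)^(2:ℕ)*s := by positivity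
  rw [← sub_nonneg]
  refine le_of_le_of_eq (b := (1*w^(0:ℕ)*(1-w)^(5:ℕ)*ev L_cR5_r_hi_0_0 s
      + 5*w^(1:ℕ)*(1-w)^(4:ℕ)*ev L_cR5_r_hi_1_0 s
      + 10*w^(2:ℕ)*(1-w)^(3:ℕ)*ev L_cR5_r_hi_2_0 s
      + 10*w^(3:ℕ)*(1-w)^(2:ℕ)*ev L_cR5_r_hi_3_0 s
      + 5*w^(4:ℕ)*(1-w)^(1:ℕ)*ev L_cR5_r_hi_4_0 s
      + 1*w^(5:ℕ)*(1-w)^(0:ℕ)*ev L_cR5_r_hi_5_0 s) / (80000*(1-s)^(2:ℕ)*(1+s)^(3:ℕ)*(1-s+s^(2:ℕ))^(5:ℕ)*((1-s)^(2:ℕ)+(3/10)^(2:ℕ)*s)^(1:ℕ)*((1-s)^(2:ℕ)+(31/10)^(2:ℕ)*s)^(1:ℕ))) ?_ (Eq.symm ?_)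
  ·
    generalize ev L_cR5_r_hi_0_0 s = PL_cR5_r_hi_0_0 at *
    generalize ev L_cR5_r_hi_1_0 s = PL_cR5_r_hi_1_0 at *
    generalize ev L_cR5_r_hi_2_0 s = PL_cR5_r_hi_2_0 at *
    generalize ev L_cR5_r_hi_3_0 s = PL_cR5_r_hi_3_0 at *
    generalize ev L_cR5_r_hi_4_0 s = PL_cR5_r_hi_4_0 at *
    generalize ev L_cR5_r_hi_5_0 s = PL_cR5_r_hi_5_0 at *
    positivity
  simp only [R5, Kr, fac, List.map_cons, List.map_nil, List.prod_cons, List.prod_nil, mul_one, pow_one]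
  push_cast
  generalize hgth : s+(1/4)*(1-s)^(2:ℕ) = th at *
  generalize hgf0 : (1-s)^(2:ℕ)+(3/10)^(2:ℕ)*s = f0 at *
  generalize hgf1 : (1-s)^(2:ℕ)+(31/10)^(2:ℕ)*s = f1 at *
  field_simp
  simp only [ev, L_cR5_r_hi_0_0, L_cR5_r_hi_1_0, L_cR5_r_hi_2_0, L_cR5_r_hi_3_0, L_cR5_r_hi_4_0, L_cR5_r_hi_5_0]
  push_cast
  rw [← hgth, ← hgf0, ← hgf1]
  ring


end Pool.Agent.H59
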