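import Pool.Agent.H59.Bern
import Pool.Agent.H59.KDefs
set_option autoImplicit false
set_option maxRecDepth 10000
set_option maxHeartbeats 4000000
namespace Pool.Agent.H59
open Bern

def L_cRoo2_r_o_lo_0_0 : List ℤ := [0,329600,3026584,-24774786,92754432,-235718440,445458426,-653401712,773821012,-768904232,655968392,-487325716,343276016,-291559898,315415688,-321756864,249506530,-124933496,4201184,77872480,-100797184,64874272,-9327008,-19673920,14828928,-1384288,-3056000,1280000]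
def L_cRoo2_r_o_lo_0_1 : List ℤ := [0,329600,3026584,-25414786,89656832,-203222420,333466135,-421277292,431101049,-374503717,281334960,-180803920,111416808,-100171373,120301987,-112954788,62671297,-6662012,-27521728,43556064,-41881056,16540352,15912704,-27849920,16108928,-1384288,-3056000,1280000]
def L_cRoo2_r_o_lo_0_2 : List ℤ := [0,329600,3026584,-26054786,86559232,-165606400,184929844,-72626024,-114481730,175613086,38950904,-396172076,529426464,-206967456,-372996322,745716152,-646053888,243858848,96471648,-193623168,133561920,-68337568,46272416,-36025920,17388928,-1384288,-3056000,1280000]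
def L_cRoo2_r_o_lo_1_0 : List ℤ := [0,329600,466584,-7782786,36116608,-112594160,257281464,-443497392,590539148,-611790606,465850648,-171618528,-190056920,490006830,-620910636,576785584,-437168568,282546192,-154316448,69598498,-25938936,-422176,27359136,-46001344,42601920,-24279712,8176000,-1280000]
def L_cRoo2_r_o_lo_1_1 : List ℤ := [0,329600,466584,-8422786,33019008,-80098140,144649173,-213190572,272139205,-304142670,276287716,-155796567,-44128317,250252003,-380934285,403345988,-332261228,205703975,-77591332,-1170687,22680420,-23969088,34895136,-47281344,42601920,-24279712,8176000,-1280000]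
def L_cRoo2_r_o_lo_1_2 : List ℤ := [0,329600,466584,-9062786,29921408,-42482120,-4527118,133643096,-249123554,159221554,218974160,-661864558,751669150,-287687432,-439142542,879775256,-749243840,261111134,154850072,-274802688,187826624,-84060000,47551136,-48561344,42601920,-24279712,8176000,-1280000]
def L_cRoo2_r_o_lo_2_0 : List ℤ := [0,329600,-2093416,9209214,-20521216,10530120,72944502,-257791472,485043004,-614241526,508984936,-123768756,-449679686,986542406,-1219890924,1013859224,-473228618,-133078620,554792656,-679142134,542884120,-285020960,62183010,44084040,-52971520,27479712,-8176000,1280000]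
def L_cRoo2_r_o_lo_2_1 : List ℤ := [0,329600,-2093416,8569214,-23618816,43026140,-40327789,-29302252,190963081,-395266169,509570904,-391390322,10378357,488852519,-853868068,885994183,-567918185,70213434,357724128,-534779435,446289131,-225361252,33906241,51265476,-52558720,26839712,-8176000,1280000]
def L_cRoo2_r_o_lo_2_2 : List ℤ := [0,329600,-2093416,7929214,-26716416,80642160,-190144080,315713816,-305979658,-20574524,642406248,-1180901840,1120305264,-307021976,-786029820,1407998006,-1184497704,405754864,316371888,-593279552,466220990,-202245544,10749472,58446912,-52145920,26199712,-8176000,1280000]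

theorem cRoo2_r_o_lo {s w v : ℝ} (hs0 : 0 < s) (hs1 : s < 1) (hw0 : 0 ≤ w) (hw1 : w ≤ 1) (hv0 : 0 ≤ v) (hv1 : v ≤ 1) :
    Roo2 s*((((1-w)/(1-s+s^(2:ℕ))+(1+s)*w)^(2:ℕ)*((1-s)*(1+s+s^(2:ℕ))/((1+s)*(1-s+s^(2:ℕ))^(2:ℕ))*(1-v)+(1+s)/(1+s^(5:ℕ))*v)^(1:ℕ))) ≤ (4*(1-s)^(2:ℕ)/(s+4*(1-s)^(2:ℕ))*(((1)^(2:ℕ)*s)+2*(s-(s*(1-s)/(1-s+s^(2:ℕ))*(1-w)+s*w))*(2/s+1+s*(1-s)/(1-s+s^(2:ℕ))))-4*(1-s)^(2:ℕ)/s*(1*(((s*(1-s)/(1-s+s^(2:ℕ))+s^(3:ℕ)*(1-s)*(1+s)/((1-s+s^(2:ℕ))*(1+s^(5:ℕ)))*v)-s*(1-s)/(1-s+s^(2:ℕ)))*(s/(1-s)-(s*(1-s)/(1-s+s^(2:ℕ))+s^(3:ℕ)*(1-s)*(1+s)/((1-s+s^(2:ℕ))*(1+s^(5:ℕ)))*v)))))+(1-s+(2*(s*(1-s)/(1-s+s^(2:ℕ))*(1-w)+s*w)+1*(s*(1-s)/(1-s+s^(2:ℕ))+s^(3:ℕ)*(1-s)*(1+s)/((1-s+s^(2:ℕ))*(1+s^(5:ℕ)))*v)))^(2:ℕ) := by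
  have ho : 0 < 1 - s := by linarith
  have hp : 0 < 1 + s := by linarith
  have hd : 0 < 1 - s + s^(2:ℕ) := by positivity
  have h5 : 0 < 1 + s^(5:ℕ) := by positivity
  have h1w : 0 ≤ 1 - w := by linarith
  have h1v : 0 ≤ 1 - v := by linarith
  have n0_0 : 0 ≤ ev L_cRoo2_r_o_lo_0_0 s := pos_of_check 8 _ (by decide +kernel) hs0.le hs1.le
  have n0_1 : 0 ≤ ev L_cRoo2_r_o_lo_0_1 s := pos_of_check 8 _ (by decide +kernel) hs0.le hs1.le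
  have n0_2 : 0 ≤ ev L_cRoo2_r_o_lo_0_2 s := pos_of_check 8 _ (by decide +kernel) hs0.le hs1.le
  have n1_0 : 0 ≤ ev L_cRoo2_r_o_lo_1_0 s := pos_of_check 8 _ (by decide +kernel) hs0.le hs1.le
  have n1_1 : 0 ≤ ev L_cRoo2_r_o_lo_1_1 s := pos_of_check 8 _ (by decide +kernel) hs0.le hs1.le
  have n1_2 : 0 ≤ ev L_cRoo2_r_o_lo_1_2 s := pos_of_check 8 _ (by decide +kernel) hs0.le hs1.le
  have n2_0 : 0 ≤ ev L_cRoo2_r_o_lo_2_0 s := pos_of_check 8 _ (by decide +kernel) hs0.le hs1.le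
  have n2_1 : 0 ≤ ev L_cRoo2_r_o_lo_2_1 s := pos_of_check 8 _ (by decide +kernel) hs0.le hs1.le
  have n2_2 : 0 ≤ ev L_cRoo2_r_o_lo_2_2 s := pos_of_check 8 _ (by decide +kernel) hs0.le hs1.le
  have hth : 0 < s+4*(1-s)^(2:ℕ) := by positivity
  have hf0 : 0 < (1-s)^(2:ℕ)+(23/20)^(2:ℕ)*s := by positivity
  have hf1 : 0 < (1-s)^(2:ℕ)+(1/5)^(2:ℕ)*s := by positivity
  have hr5 : 0 < 1-s+s^(2:ℕ)-s^(3:ℕ)+s^(4:ℕ) := by
    have h : 1-s+s^(2:ℕ)-s^(3:ℕ)+s^(4:ℕ) = (1-s)*(1+s^(2:ℕ))+s^(4:ℕ) := by ring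
    rw [h]; positivity
  rw [← sub_nonneg]
  refine le_of_le_of_eq (b := (1*w^(0:ℕ)*(1-w)^(2:ℕ)*v^(0:ℕ)*(1-v)^(2:ℕ)*ev L_cRoo2_r_o_lo_0_0 s
      + 2*w^(0:ℕ)*(1-w)^(2:ℕ)*v^(1:ℕ)*(1-v)^(1:ℕ)*ev L_cRoo2_r_o_lo_0_1 s
      + 1*w^(0:ℕ)*(1-w)^(2:ℕ)*v^(2:ℕ)*(1-v)^(0:ℕ)*ev L_cRoo2_r_o_lo_0_2 s
      + 2*w^(1:ℕ)*(1-w)^(1:ℕ)*v^(0:ℕ)*(1-v)^(2:ℕ)*ev L_cRoo2_r_o_lo_1_0 s
      + 4*w^(1:ℕ)*(1-w)^(1:ℕ)*v^(1:ℕ)*(1-v)^(1:ℕ)*ev L_cRoo2_r_o_lo_1_1 s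
      + 2*w^(1:ℕ)*(1-w)^(1:ℕ)*v^(2:ℕ)*(1-v)^(0:ℕ)*ev L_cRoo2_r_o_lo_1_2 s
      + 1*w^(2:ℕ)*(1-w)^(0:ℕ)*v^(0:ℕ)*(1-v)^(2:ℕ)*ev L_cRoo2_r_o_lo_2_0 s
      + 2*w^(2:ℕ)*(1-w)^(0:ℕ)*v^(1:ℕ)*(1-v)^(1:ℕ)*ev L_cRoo2_r_o_lo_2_1 s
      + 1*w^(2:ℕ)*(1-w)^(0:ℕ)*v^(2:ℕ)*(1-v)^(0:ℕ)*ev L_cRoo2_r_o_lo_2_2 s) / (320000*(1+s)^(3:ℕ)*(1-s+s^(2:ℕ))^(4:ℕ)*(1-s+s^(2:ℕ)-s^(3:ℕ)+s^(4:ℕ))^(2:ℕ)*(s+4*(1-s)^(2:ℕ))^(1:ℕ)*((1-s)^(2:ℕ)+(23/20)^(2:ℕ)*s)^(1:ℕ)*((1-s)^(2:ℕ)+(1/5)^(2:ℕ)*s)^(1:ℕ))) ?_ (Eq.symm ?_)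
  ·
    generalize ev L_cRoo2_r_o_lo_0_0 s = PL_cRoo2_r_o_lo_0_0 at *
    generalize ev L_cRoo2_r_o_lo_0_1 s = PL_cRoo2_r_o_lo_0_1 at *
    generalize ev L_cRoo2_r_o_lo_0_2 s = PL_cRoo2_r_o_lo_0_2 at *
    generalize ev L_cRoo2_r_o_lo_1_0 s = PL_cRoo2_r_o_lo_1_0 at *
    generalize ev L_cRoo2_r_o_lo_1_1 s = PL_cRoo2_r_o_lo_1_1 at *
    generalize ev L_cRoo2_r_o_lo_1_2 s = PL_cRoo2_r_o_lo_1_2 at *
    generalize ev L_cRoo2_r_o_lo_2_0 s = PL_cRoo2_r_o_lo_2_0 at *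
    generalize ev L_cRoo2_r_o_lo_2_1 s = PL_cRoo2_r_o_lo_2_1 at *
    generalize ev L_cRoo2_r_o_lo_2_2 s = PL_cRoo2_r_o_lo_2_2 at *
    positivity
  simp only [Roo2, Kr, fac, List.map_cons, List.map_nil, List.prod_cons, List.prod_nil, mul_one, pow_one]
  push_cast
  have e5 : 1+s^(5:ℕ) = (1+s)*(1-s+s^(2:ℕ)-s^(3:ℕ)+s^(4:ℕ)) := by ring
  rw [e5]
  generalize hgth : s+4*(1-s)^(2:ℕ) = th at *
  generalize hgf0 : (1-s)^(2:ℕ)+(23/20)^(2:ℕ)*s = f0 at *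
  generalize hgf1 : (1-s)^(2:ℕ)+(1/5)^(2:ℕ)*s = f1 at *
  generalize hgr5 : 1-s+s^(2:ℕ)-s^(3:ℕ)+s^(4:ℕ) = r5 at *
  field_simp
  simp only [ev, L_cRoo2_r_o_lo_0_0, L_cRoo2_r_o_lo_0_1, L_cRoo2_r_o_lo_0_2, L_cRoo2_r_o_lo_1_0, L_cRoo2_r_o_lo_1_1, L_cRoo2_r_o_lo_1_2, L_cRoo2_r_o_lo_2_0, L_cRoo2_r_o_lo_2_1, L_cRoo2_r_o_lo_2_2]
  push_cast
  rw [← hgth, ← hgf0, ← hgf1, ← hgr5]
  ring


end Pool.Agent.H59
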