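import Pool.Agent.H59.Bern
import Pool.Agent.H59.KDefs
set_option autoImplicit false
set_option maxRecDepth 10000
set_option maxHeartbeats 4000000
namespace Pool.Agent.H59
open Bern

def L_cRoo2_r_o_hi_0_0 : List ℤ := [0,329600,2696984,-29410970,109257834,-228478230,296744166,-224235504,61867526,-16426678,244406698,-620474618,798369912,-565848832,87454304,274793248,-338450208,216766272,-103573568,62741696,-46414560,20549216,391712,-4336000,1280000]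
def L_cRoo2_r_o_hi_0_1 : List ℤ := [0,329600,3336984,-36534170,149586182,-376459155,677562407,-928655964,976704349,-736856981,274220873,204511439,-473112668,434315999,-169853539,-135740380,318193408,-319269568,196563040,-61951936,-6598848,11093216,1671712,-4336000,1280000]
def L_cRoo2_r_o_hi_0_2 : List ℤ := [0,329600,3976984,-38537370,148250530,-356009232,624238984,-867892776,996782964,-949707540,727774440,-416799816,149087568,-11816482,-3421990,-38694264,80078816,-90121760,62557984,-18214720,-8447136,6757216,2951712,-4336000,1280000]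
def L_cRoo2_r_o_hi_1_0 : List ℤ := [0,329600,136984,-9858970,38188010,-63148126,18688748,133868122,-294562384,242656368,136595002,-636910932,849779618,-565575990,3395430,416058776,-483007008,321557248,-159139136,91582272,-77619552,59985632,-31175712,9456000,-1280000]
def L_cRoo2_r_o_hi_1_1 : List ℤ := [0,329600,776984,-16982170,78516358,-210489051,393663789,-544799990,548653226,-336896174,-43187859,435759532,-663740145,636468104,-401242772,104897640,101130975,-149338883,80288708,12889760,-62403552,58705632,-31175712,9456000,-1280000]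
def L_cRoo2_r_o_hi_1_2 : List ℤ := [0,329600,1416984,-18985370,77180706,-189399128,334497166,-458284454,497110628,-408868972,200768672,62132684,-283577092,392214886,-382141582,301316248,-209489250,144948634,-114425112,102628096,-88851552,62545632,-31175712,9456000,-1280000]
def L_cRoo2_r_o_hi_2_0 : List ℤ := [0,329600,-2423016,9693030,-32881814,102181978,-255526670,463933348,-552848174,280907548,389689364,-1105198852,1331937906,-847331228,-16969070,676571706,-808514774,535361734,-181968584,-35543232,95129120,-71449632,33095712,-9456000,1280000]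
def L_cRoo2_r_o_hi_2_1 : List ℤ := [0,329600,-1783016,2569830,7446534,-44518947,113605171,-188982416,218106223,-155434433,822103,191868726,-342937407,388847509,-313077224,154373751,13526887,-126255095,164495116,-148916257,109032701,-65066268,29482912,-8816000,1280000]
def L_cRoo2_r_o_hi_2_2 : List ℤ := [0,329600,-1143016,566630,6110882,-22789024,48595348,-76714532,94302412,-84196670,35694234,42638992,-124129904,178728934,-185445986,139755540,-59189660,-22688276,76817152,-93858434,81272282,-53562904,25870112,-8176000,1280000]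

theorem cRoo2_r_o_hi {s w v : ℝ} (hs0 : 0 < s) (hs1 : s < 1) (hw0 : 0 ≤ w) (hw1 : w ≤ 1) (hv0 : 0 ≤ v) (hv1 : v ≤ 1) :
    Roo2 s*((((1-w)/(1-s+s^(2:ℕ))+(1+s)*w)^(2:ℕ)*((1+s)/(1+s^(5:ℕ))*(1-v)+v/(1-s))^(1:ℕ))) ≤ (4*(1-s)^(2:ℕ)/(s+4*(1-s)^(2:ℕ))*(((1)^(2:ℕ)*s)+2*(s-(s*(1-s)/(1-s+s^(2:ℕ))*(1-w)+s*w))*(2/s+1+s*(1-s)/(1-s+s^(2:ℕ))))-4*(1-s)^(2:ℕ)/s*(1*(((s*(1-s^(4:ℕ))/(1+s^(5:ℕ))+s^(2:ℕ)*(1+s^(3:ℕ))/((1-s)*(1+s^(5:ℕ)))*v)-s*(1-s)/(1-s+s^(2:ℕ)))*(s/(1-s)-(s*(1-s^(4:ℕ))/(1+s^(5:ℕ))+s^(2:ℕ)*(1+s^(3:ℕ))/((1-s)*(1+s^(5:ℕ)))*v)))))+(1-s+(2*(s*(1-s)/(1-s+s^(2:ℕ))*(1-w)+s*w)+1*(s*(1-s^(4:ℕ))/(1+s^(5:ℕ))+s^(2:ℕ)*(1+s^(3:ℕ))/((1-s)*(1+s^(5:ℕ)))*v)))^(2:ℕ) := by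
  have ho : 0 < 1 - s := by linarith
  have hp : 0 < 1 + s := by linarith
  have hd : 0 < 1 - s + s^(2:ℕ) := by positivity
  have h5 : 0 < 1 + s^(5:ℕ) := by positivity
  have h1w : 0 ≤ 1 - w := by linarith
  have h1v : 0 ≤ 1 - v := by linarith
  have n0_0 : 0 ≤ ev L_cRoo2_r_o_hi_0_0 s := pos_of_check 8 _ (by decide +kernel) hs0.le hs1.le
  have n0_1 : 0 ≤ ev L_cRoo2_r_o_hi_0_1 s := pos_of_check 8 _ (by decide +kernel) hs0.le hs1.le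
  have n0_2 : 0 ≤ ev L_cRoo2_r_o_hi_0_2 s := pos_of_check 8 _ (by decide +kernel) hs0.le hs1.le
  have n1_0 : 0 ≤ ev L_cRoo2_r_o_hi_1_0 s := pos_of_check 8 _ (by decide +kernel) hs0.le hs1.le
  have n1_1 : 0 ≤ ev L_cRoo2_r_o_hi_1_1 s := pos_of_check 8 _ (by decide +kernel) hs0.le hs1.le
  have n1_2 : 0 ≤ ev L_cRoo2_r_o_hi_1_2 s := pos_of_check 8 _ (by decide +kernel) hs0.le hs1.le
  have n2_0 : 0 ≤ ev L_cRoo2_r_o_hi_2_0 s := pos_of_check 8 _ (by decide +kernel) hs0.le hs1.le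
  have n2_1 : 0 ≤ ev L_cRoo2_r_o_hi_2_1 s := pos_of_check 8 _ (by decide +kernel) hs0.le hs1.le
  have n2_2 : 0 ≤ ev L_cRoo2_r_o_hi_2_2 s := pos_of_check 8 _ (by decide +kernel) hs0.le hs1.le
  have hth : 0 < s+4*(1-s)^(2:ℕ) := by positivity
  have hf0 : 0 < (1-s)^(2:ℕ)+(23/20)^(2:ℕ)*s := by positivity
  have hf1 : 0 < (1-s)^(2:ℕ)+(1/5)^(2:ℕ)*s := by positivity
  have hr5 : 0 < 1-s+s^(2:ℕ)-s^(3:ℕ)+s^(4:ℕ) := by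
    have h : 1-s+s^(2:ℕ)-s^(3:ℕ)+s^(4:ℕ) = (1-s)*(1+s^(2:ℕ))+s^(4:ℕ) := by ring
    rw [h]; positivity
  rw [← sub_nonneg]
  refine le_of_le_of_eq (b := (1*w^(0:ℕ)*(1-w)^(2:ℕ)*v^(0:ℕ)*(1-v)^(2:ℕ)*ev L_cRoo2_r_o_hi_0_0 s
      + 2*w^(0:ℕ)*(1-w)^(2:ℕ)*v^(1:ℕ)*(1-v)^(1:ℕ)*ev L_cRoo2_r_o_hi_0_1 s
      + 1*w^(0:ℕ)*(1-w)^(2:ℕ)*v^(2:ℕ)*(1-v)^(0:ℕ)*ev L_cRoo2_r_o_hi_0_2 s
      + 2*w^(1:ℕ)*(1-w)^(1:ℕ)*v^(0:ℕ)*(1-v)^(2:ℕ)*ev L_cRoo2_r_o_hi_1_0 s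
      + 4*w^(1:ℕ)*(1-w)^(1:ℕ)*v^(1:ℕ)*(1-v)^(1:ℕ)*ev L_cRoo2_r_o_hi_1_1 s
      + 2*w^(1:ℕ)*(1-w)^(1:ℕ)*v^(2:ℕ)*(1-v)^(0:ℕ)*ev L_cRoo2_r_o_hi_1_2 s
      + 1*w^(2:ℕ)*(1-w)^(0:ℕ)*v^(0:ℕ)*(1-v)^(2:ℕ)*ev L_cRoo2_r_o_hi_2_0 s
      + 2*w^(2:ℕ)*(1-w)^(0:ℕ)*v^(1:ℕ)*(1-v)^(1:ℕ)*ev L_cRoo2_r_o_hi_2_1 s
      + 1*w^(2:ℕ)*(1-w)^(0:ℕ)*v^(2:ℕ)*(1-v)^(0:ℕ)*ev L_cRoo2_r_o_hi_2_2 s) / (320000*(1-s)^(2:ℕ)*(1+s)^(2:ℕ)*(1-s+s^(2:ℕ))^(2:ℕ)*(1-s+s^(2:ℕ)-s^(3:ℕ)+s^(4:ℕ))^(2:ℕ)*(s+4*(1-s)^(2:ℕ))^(1:ℕ)*((1-s)^(2:ℕ)+(23/20)^(2:ℕ)*s)^(1:ℕ)*((1-s)^(2:ℕ)+(1/5)^(2:ℕ)*s)^(1:ℕ))) ?_ (Eq.symm ?_)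
  ·
    generalize ev L_cRoo2_r_o_hi_0_0 s = PL_cRoo2_r_o_hi_0_0 at *
    generalize ev L_cRoo2_r_o_hi_0_1 s = PL_cRoo2_r_o_hi_0_1 at *
    generalize ev L_cRoo2_r_o_hi_0_2 s = PL_cRoo2_r_o_hi_0_2 at *
    generalize ev L_cRoo2_r_o_hi_1_0 s = PL_cRoo2_r_o_hi_1_0 at *
    generalize ev L_cRoo2_r_o_hi_1_1 s = PL_cRoo2_r_o_hi_1_1 at *
    generalize ev L_cRoo2_r_o_hi_1_2 s = PL_cRoo2_r_o_hi_1_2 at *
    generalize ev L_cRoo2_r_o_hi_2_0 s = PL_cRoo2_r_o_hi_2_0 at *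
    generalize ev L_cRoo2_r_o_hi_2_1 s = PL_cRoo2_r_o_hi_2_1 at *
    generalize ev L_cRoo2_r_o_hi_2_2 s = PL_cRoo2_r_o_hi_2_2 at *
    positivity
  simp only [Roo2, Kr, fac, List.map_cons, List.map_nil, List.prod_cons, List.prod_nil, mul_one, pow_one]
  push_cast
  have e5 : 1+s^(5:ℕ) = (1+s)*(1-s+s^(2:ℕ)-s^(3:ℕ)+s^(4:ℕ)) := by ring
  rw [e5]
  generalize hgth : s+4*(1-s)^(2:ℕ) = th at *
  generalize hgf0 : (1-s)^(2:ℕ)+(23/20)^(2:ℕ)*s = f0 at *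
  generalize hgf1 : (1-s)^(2:ℕ)+(1/5)^(2:ℕ)*s = f1 at *
  generalize hgr5 : 1-s+s^(2:ℕ)-s^(3:ℕ)+s^(4:ℕ) = r5 at *
  field_simp
  simp only [ev, L_cRoo2_r_o_hi_0_0, L_cRoo2_r_o_hi_0_1, L_cRoo2_r_o_hi_0_2, L_cRoo2_r_o_hi_1_0, L_cRoo2_r_o_hi_1_1, L_cRoo2_r_o_hi_1_2, L_cRoo2_r_o_hi_2_0, L_cRoo2_r_o_hi_2_1, L_cRoo2_r_o_hi_2_2]
  push_cast
  rw [← hgth, ← hgf0, ← hgf1, ← hgr5]
  ring


end Pool.Agent.H59
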