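import Pool.Agent.H59.Bern
import Pool.Agent.H59.KDefs
set_option autoImplicit false
set_option maxRecDepth 10000
set_option maxHeartbeats 4000000
namespace Pool.Agent.H59
open Bern

def L_cRooo_r_o_0_0 : List ℤ := [0,29,1158,329,-1016,4490,-1016,329,1258,729,100]
def L_cRooo_r_o_1_0 : List ℤ := [0,29,958,-329,229,2345,-987,429,1058,-329,-100]
def L_cRooo_r_o_2_0 : List ℤ := [0,29,758,-987,1474,200,-758,1116,-229,-100]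
def L_cRooo_r_o_3_0 : List ℤ := [0,29,558,-1645,2719,-1945,-329,2390,-2603,1316,-300,-100]

theorem cRooo_r_o {s w : ℝ} (hs0 : 0 < s) (hs1 : s < 1) (hw0 : 0 ≤ w) (hw1 : w ≤ 1) :
    Rooo s*((((1-w)/(1-s+s^(2:ℕ))+(1+s)*w)^(3:ℕ))) ≤ (((1)^(2:ℕ)*s)+3*(s-(s*(1-s)/(1-s+s^(2:ℕ))*(1-w)+s*w))*(2/s+1+s*(1-s)/(1-s+s^(2:ℕ))))+(1-s+(3*(s*(1-s)/(1-s+s^(2:ℕ))*(1-w)+s*w)))^(2:ℕ) := by
  have ho : 0 < 1 - s := by linarith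
  have hp : 0 < 1 + s := by linarith
  have hd : 0 < 1 - s + s^(2:ℕ) := by positivity
  have h5 : 0 < 1 + s^(5:ℕ) := by positivity
  have h1w : 0 ≤ 1 - w := by linarith
  have n0_0 : 0 ≤ ev L_cRooo_r_o_0_0 s := pos_of_check 8 _ (by decide +kernel) hs0.le hs1.le
  have n1_0 : 0 ≤ ev L_cRooo_r_o_1_0 s := pos_of_check 8 _ (by decide +kernel) hs0.le hs1.le
  have n2_0 : 0 ≤ ev L_cRooo_r_o_2_0 s := pos_of_check 8 _ (by decide +kernel) hs0.le hs1.le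
  have n3_0 : 0 ≤ ev L_cRooo_r_o_3_0 s := pos_of_check 8 _ (by decide +kernel) hs0.le hs1.le
  have hth : 0 < s+1*(1-s)^(2:ℕ) := by positivity
  have hf0 : 0 < (1-s)^(2:ℕ)+(27/10)^(2:ℕ)*s := by positivity
  rw [← sub_nonneg]
  refine le_of_le_of_eq (b := (1*w^(0:ℕ)*(1-w)^(3:ℕ)*ev L_cRooo_r_o_0_0 s
      + 3*w^(1:ℕ)*(1-w)^(2:ℕ)*ev L_cRooo_r_o_1_0 s
      + 3*w^(2:ℕ)*(1-w)^(1:ℕ)*ev L_cRooo_r_o_2_0 s
      + 1*w^(3:ℕ)*(1-w)^(0:ℕ)*ev L_cRooo_r_o_3_0 s) / (100*(1-s+s^(2:ℕ))^(3:ℕ)*((1-s)^(2:ℕ)+(27/10)^(2:ℕ)*s)^(1:ℕ))) ?_ (Eq.symm ?_)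
  ·
    generalize ev L_cRooo_r_o_0_0 s = PL_cRooo_r_o_0_0 at *
    generalize ev L_cRooo_r_o_1_0 s = PL_cRooo_r_o_1_0 at *
    generalize ev L_cRooo_r_o_2_0 s = PL_cRooo_r_o_2_0 at *
    generalize ev L_cRooo_r_o_3_0 s = PL_cRooo_r_o_3_0 at *
    positivity
  simp only [Rooo, Kr, fac, List.map_cons, List.map_nil, List.prod_cons, List.prod_nil, mul_one, pow_one]
  push_cast
  generalize hgf0 : (1-s)^(2:ℕ)+(27/10)^(2:ℕ)*s = f0 at *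
  field_simp
  simp only [ev, L_cRooo_r_o_0_0, L_cRooo_r_o_1_0, L_cRooo_r_o_2_0, L_cRooo_r_o_3_0]
  push_cast
  rw [← hgf0]
  ring


end Pool.Agent.H59
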