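import Pool.Agent.H59.CellJ11A
import Pool.Agent.H59.CellJ11B
import Pool.Agent.H59.CellJ3A
import Pool.Agent.H59.CellJ3B
import Pool.Agent.H59.CellJ4A
import Pool.Agent.H59.CellJ4B
import Pool.Agent.H59.CellJ22A
import Pool.Agent.H59.CellJ22B
import Pool.Agent.H59.CellJ02A
import Pool.Agent.H59.CellJ02B
import Pool.Agent.H59.CellJ00
import Pool.Agent.H59.CellR00
import Pool.Agent.H59.CellR4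
import Pool.Agent.H59.CellR5
import Pool.Agent.H59.CellRooo
import Pool.Agent.H59.CellR02A
import Pool.Agent.H59.CellR02B
import Pool.Agent.H59.CellR02C
import Pool.Agent.H59.CellR02D
import Pool.Agent.H59.CellR22A
import Pool.Agent.H59.CellR22B
import Pool.Agent.H59.CellR22C
import Pool.Agent.H59.CellR22D
import Pool.Agent.H59.CellRoo2A
import Pool.Agent.H59.CellRoo2B
import Pool.Agent.H59.CertRed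
set_option autoImplicit false
namespace Pool.Agent.H59

theorem wJ11_p {s e P : ℝ} (hs0 : 0 < s) (hs1 : s < 1) (he0 : 0 ≤ e) (he1 : e ≤ s/(1-s))
    (hP_lo : P ≤ ((lineD s e)^2))
    (hP_hi : P ≤ ((1+e)^2)) :
    K11 s*P ≤ ((1/4)*(1-s)^2/(s+(1/4)*(1-s)^2)*((1)^2*s)-(1/4)*(1-s)^2/s*(4*(e*(s/(1-s)-e))))+(1-s+(2*e))^2+s*(1-s+(2*e)) := by
  have hK := (K11_pos hs0 hs1).le
  rcases le_total e (s*(1-s)/(1-s+s^2)) with h0 | h0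
  · obtain ⟨w, hw0, hw1, rfl, hl0⟩ := cellD_lo hs0 hs1 he0 h0
    rw [hl0] at hP_lo
    exact (mul_le_mul_of_nonneg_left hP_lo hK).trans (cJ11_p_lo hs0 hs1 hw0 hw1)
  · obtain ⟨w, hw0, hw1, rfl, hl0⟩ := cellD_hi hs0 hs1 h0 he1
    rw [hl0] at hP_hi
    exact (mul_le_mul_of_nonneg_left hP_hi hK).trans (cJ11_p_hi hs0 hs1 hw0 hw1)

theorem wJ11_m {s e P : ℝ} (hs0 : 0 < s) (hs1 : s < 1) (he0 : 0 ≤ e) (he1 : e ≤ s/(1-s))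
    (hP_lo : P ≤ ((lineD s e)^2))
    (hP_hi : P ≤ ((1+e)^2)) :
    K11 s*P ≤ ((1-s)*(((1/4)*(1-s)^2/(s+(1/4)*(1-s)^2)*((1)^2*s)-(1/4)*(1-s)^2/s*(4*(e*(s/(1-s)-e))))+(1-s+(2*e))^2)+(3-s)*(s*(1-s+(2*e)))+2*s^2)/(1+s) := by
  have hK := (K11_pos hs0 hs1).le
  rcases le_total e (s*(1-s)/(1-s+s^2)) with h0 | h0
  · obtain ⟨w, hw0, hw1, rfl, hl0⟩ := cellD_lo hs0 hs1 he0 h0
    rw [hl0] at hP_lo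
    exact (mul_le_mul_of_nonneg_left hP_lo hK).trans (cJ11_m_lo hs0 hs1 hw0 hw1)
  · obtain ⟨w, hw0, hw1, rfl, hl0⟩ := cellD_hi hs0 hs1 h0 he1
    rw [hl0] at hP_hi
    exact (mul_le_mul_of_nonneg_left hP_hi hK).trans (cJ11_m_hi hs0 hs1 hw0 hw1)

theorem wJ3_p {s e P : ℝ} (hs0 : 0 < s) (hs1 : s < 1) (he0 : 0 ≤ e) (he1 : e ≤ s/(1-s))
    (hP_lo : P ≤ ((lineD s e)^3))
    (hP_hi : P ≤ ((1+e)^3)) :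
    K3 s*P ≤ ((7/20)*(1-s)^2/(s+(7/20)*(1-s)^2)*((2)^2*s)-(7/20)*(1-s)^2/s*(9*(e*(s/(1-s)-e))))+(1-s+(3*e))^2+s*(1-s+(3*e)) := by
  have hK := (K3_pos hs0 hs1).le
  rcases le_total e (s*(1-s)/(1-s+s^2)) with h0 | h0
  · obtain ⟨w, hw0, hw1, rfl, hl0⟩ := cellD_lo hs0 hs1 he0 h0
    rw [hl0] at hP_lo
    exact (mul_le_mul_of_nonneg_left hP_lo hK).trans (cJ3_p_lo hs0 hs1 hw0 hw1)
  · obtain ⟨w, hw0, hw1, rfl, hl0⟩ := cellD_hi hs0 hs1 h0 he1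
    rw [hl0] at hP_hi
    exact (mul_le_mul_of_nonneg_left hP_hi hK).trans (cJ3_p_hi hs0 hs1 hw0 hw1)

theorem wJ3_m {s e P : ℝ} (hs0 : 0 < s) (hs1 : s < 1) (he0 : 0 ≤ e) (he1 : e ≤ s/(1-s))
    (hP_lo : P ≤ ((lineD s e)^3))
    (hP_hi : P ≤ ((1+e)^3)) :
    K3 s*P ≤ ((1-s)*(((7/20)*(1-s)^2/(s+(7/20)*(1-s)^2)*((2)^2*s)-(7/20)*(1-s)^2/s*(9*(e*(s/(1-s)-e))))+(1-s+(3*e))^2)+(3-s)*(s*(1-s+(3*e)))+2*s^2)/(1+s) := by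
  have hK := (K3_pos hs0 hs1).le
  rcases le_total e (s*(1-s)/(1-s+s^2)) with h0 | h0
  · obtain ⟨w, hw0, hw1, rfl, hl0⟩ := cellD_lo hs0 hs1 he0 h0
    rw [hl0] at hP_lo
    exact (mul_le_mul_of_nonneg_left hP_lo hK).trans (cJ3_m_lo hs0 hs1 hw0 hw1)
  · obtain ⟨w, hw0, hw1, rfl, hl0⟩ := cellD_hi hs0 hs1 h0 he1
    rw [hl0] at hP_hi
    exact (mul_le_mul_of_nonneg_left hP_hi hK).trans (cJ3_m_hi hs0 hs1 hw0 hw1)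

theorem wJ4_p {s e P : ℝ} (hs0 : 0 < s) (hs1 : s < 1) (he0 : 0 ≤ e) (he1 : e ≤ s/(1-s))
    (hP_lo : P ≤ ((lineD s e)^4))
    (hP_hi : P ≤ ((1+e)^4)) :
    K4 s*P ≤ ((1/4)*(1-s)^2/(s+(1/4)*(1-s)^2)*((3)^2*s)-(1/4)*(1-s)^2/s*(16*(e*(s/(1-s)-e))))+(1-s+(4*e))^2+s*(1-s+(4*e)) := by
  have hK := (K4_pos hs0 hs1).le
  rcases le_total e (s*(1-s)/(1-s+s^2)) with h0 | h0
  · obtain ⟨w, hw0, hw1, rfl, hl0⟩ := cellD_lo hs0 hs1 he0 h0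
    rw [hl0] at hP_lo
    exact (mul_le_mul_of_nonneg_left hP_lo hK).trans (cJ4_p_lo hs0 hs1 hw0 hw1)
  · obtain ⟨w, hw0, hw1, rfl, hl0⟩ := cellD_hi hs0 hs1 h0 he1
    rw [hl0] at hP_hi
    exact (mul_le_mul_of_nonneg_left hP_hi hK).trans (cJ4_p_hi hs0 hs1 hw0 hw1)

theorem wJ4_m {s e P : ℝ} (hs0 : 0 < s) (hs1 : s < 1) (he0 : 0 ≤ e) (he1 : e ≤ s/(1-s))
    (hP_lo : P ≤ ((lineD s e)^4))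
    (hP_hi : P ≤ ((1+e)^4)) :
    K4 s*P ≤ ((1-s)*(((1/4)*(1-s)^2/(s+(1/4)*(1-s)^2)*((3)^2*s)-(1/4)*(1-s)^2/s*(16*(e*(s/(1-s)-e))))+(1-s+(4*e))^2)+(3-s)*(s*(1-s+(4*e)))+2*s^2)/(1+s) := by
  have hK := (K4_pos hs0 hs1).le
  rcases le_total e (s*(1-s)/(1-s+s^2)) with h0 | h0
  · obtain ⟨w, hw0, hw1, rfl, hl0⟩ := cellD_lo hs0 hs1 he0 h0
    rw [hl0] at hP_lo
    exact (mul_le_mul_of_nonneg_left hP_lo hK).trans (cJ4_m_lo hs0 hs1 hw0 hw1)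
  · obtain ⟨w, hw0, hw1, rfl, hl0⟩ := cellD_hi hs0 hs1 h0 he1
    rw [hl0] at hP_hi
    exact (mul_le_mul_of_nonneg_left hP_hi hK).trans (cJ4_m_hi hs0 hs1 hw0 hw1)

theorem wJ22_p {s e P : ℝ} (hs0 : 0 < s) (hs1 : s < 1) (he0 : s*(1-s)/(1-s+s^2) ≤ e) (he1 : e ≤ s/(1-s))
    (hP_lo : P ≤ ((lineC s e)^2))
    (hP_hi : P ≤ ((1+e)^2)) :
    K22 s*P ≤ ((3/2)*(1-s)^2/(s+(3/2)*(1-s)^2)*((1)^2*s)-(3/2)*(1-s)^2/s*(4*((e-s*(1-s)/(1-s+s^2))*(s/(1-s)-e))))+(1-s+(2*e))^2+s*(1-s+(2*e)) := by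
  have hK := (K22_pos hs0 hs1).le
  rcases le_total e (s*(1-s^4)/(1+s^5)) with h0 | h0
  · obtain ⟨w, hw0, hw1, rfl, hl0⟩ := cell2_lo hs0 hs1 he0 h0
    rw [hl0] at hP_lo
    exact (mul_le_mul_of_nonneg_left hP_lo hK).trans (cJ22_p_lo hs0 hs1 hw0 hw1)
  · obtain ⟨w, hw0, hw1, rfl, hl0⟩ := cell2_hi hs0 hs1 h0 he1
    rw [hl0] at hP_hi
    exact (mul_le_mul_of_nonneg_left hP_hi hK).trans (cJ22_p_hi hs0 hs1 hw0 hw1)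

theorem wJ22_m {s e P : ℝ} (hs0 : 0 < s) (hs1 : s < 1) (he0 : s*(1-s)/(1-s+s^2) ≤ e) (he1 : e ≤ s/(1-s))
    (hP_lo : P ≤ ((lineC s e)^2))
    (hP_hi : P ≤ ((1+e)^2)) :
    K22 s*P ≤ ((1-s)*(((3/2)*(1-s)^2/(s+(3/2)*(1-s)^2)*((1)^2*s)-(3/2)*(1-s)^2/s*(4*((e-s*(1-s)/(1-s+s^2))*(s/(1-s)-e))))+(1-s+(2*e))^2)+(3-s)*(s*(1-s+(2*e)))+2*s^2)/(1+s) := by
  have hK := (K22_pos hs0 hs1).le
  rcases le_total e (s*(1-s^4)/(1+s^5)) with h0 | h0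
  · obtain ⟨w, hw0, hw1, rfl, hl0⟩ := cell2_lo hs0 hs1 he0 h0
    rw [hl0] at hP_lo
    exact (mul_le_mul_of_nonneg_left hP_lo hK).trans (cJ22_m_lo hs0 hs1 hw0 hw1)
  · obtain ⟨w, hw0, hw1, rfl, hl0⟩ := cell2_hi hs0 hs1 h0 he1
    rw [hl0] at hP_hi
    exact (mul_le_mul_of_nonneg_left hP_hi hK).trans (cJ22_m_hi hs0 hs1 hw0 hw1)

theorem wJ02_p {s e P : ℝ} (hs0 : 0 < s) (hs1 : s < 1) (he0 : s*(1-s)/(1-s+s^2) ≤ e) (he1 : e ≤ s/(1-s))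
    (hP_lo : P ≤ (1/(1-s+s^2))^1*((lineC s e)^1))
    (hP_hi : P ≤ (1/(1-s+s^2))^1*((1+e)^1)) :
    K22 s*P ≤ ((3/2)*(1-s)^2/(s+(3/2)*(1-s)^2)*((1+1*(s/(1-s+s^2)))^2*s)-(3/2)*(1-s)^2/s*(1*((e-s*(1-s)/(1-s+s^2))*(s/(1-s)-e))))+(1-s+(1*(s*(1-s)/(1-s+s^2))+1*e))^2+s*(1-s+(1*(s*(1-s)/(1-s+s^2))+1*e)) := by
  have hK := (K22_pos hs0 hs1).le
  rcases le_total e (s*(1-s^4)/(1+s^5)) with h0 | h0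
  · obtain ⟨w, hw0, hw1, rfl, hl0⟩ := cell2_lo hs0 hs1 he0 h0
    rw [hl0] at hP_lo
    exact (mul_le_mul_of_nonneg_left hP_lo hK).trans (cJ02_p_lo hs0 hs1 hw0 hw1)
  · obtain ⟨w, hw0, hw1, rfl, hl0⟩ := cell2_hi hs0 hs1 h0 he1
    rw [hl0] at hP_hi
    exact (mul_le_mul_of_nonneg_left hP_hi hK).trans (cJ02_p_hi hs0 hs1 hw0 hw1)

theorem wJ02_m {s e P : ℝ} (hs0 : 0 < s) (hs1 : s < 1) (he0 : s*(1-s)/(1-s+s^2) ≤ e) (he1 : e ≤ s/(1-s))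
    (hP_lo : P ≤ (1/(1-s+s^2))^1*((lineC s e)^1))
    (hP_hi : P ≤ (1/(1-s+s^2))^1*((1+e)^1)) :
    K22 s*P ≤ ((1-s)*(((3/2)*(1-s)^2/(s+(3/2)*(1-s)^2)*((1+1*(s/(1-s+s^2)))^2*s)-(3/2)*(1-s)^2/s*(1*((e-s*(1-s)/(1-s+s^2))*(s/(1-s)-e))))+(1-s+(1*(s*(1-s)/(1-s+s^2))+1*e))^2)+(3-s)*(s*(1-s+(1*(s*(1-s)/(1-s+s^2))+1*e)))+2*s^2)/(1+s) := by
  have hK := (K22_pos hs0 hs1).le
  rcases le_total e (s*(1-s^4)/(1+s^5)) with h0 | h0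
  · obtain ⟨w, hw0, hw1, rfl, hl0⟩ := cell2_lo hs0 hs1 he0 h0
    rw [hl0] at hP_lo
    exact (mul_le_mul_of_nonneg_left hP_lo hK).trans (cJ02_m_lo hs0 hs1 hw0 hw1)
  · obtain ⟨w, hw0, hw1, rfl, hl0⟩ := cell2_hi hs0 hs1 h0 he1
    rw [hl0] at hP_hi
    exact (mul_le_mul_of_nonneg_left hP_hi hK).trans (cJ02_m_hi hs0 hs1 hw0 hw1)

theorem wJ00_p {s  P : ℝ} (hs0 : 0 < s) (hs1 : s < 1) 
    (hP : P ≤ (1/(1-s+s^2))^2*(1)) :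
    K22 s*P ≤ ((1+2*(s/(1-s+s^2)))^2*s)+(1-s+(2*(s*(1-s)/(1-s+s^2))))^2+s*(1-s+(2*(s*(1-s)/(1-s+s^2)))) := by
  have hK := (K22_pos hs0 hs1).le
  exact (mul_le_mul_of_nonneg_left hP hK).trans (cJ00_p hs0 hs1 )

theorem wJ00_m {s  P : ℝ} (hs0 : 0 < s) (hs1 : s < 1) 
    (hP : P ≤ (1/(1-s+s^2))^2*(1)) :
    K22 s*P ≤ ((1-s)*(((1+2*(s/(1-s+s^2)))^2*s)+(1-s+(2*(s*(1-s)/(1-s+s^2))))^2)+(3-s)*(s*(1-s+(2*(s*(1-s)/(1-s+s^2)))))+2*s^2)/(1+s) := by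
  have hK := (K22_pos hs0 hs1).le
  exact (mul_le_mul_of_nonneg_left hP hK).trans (cJ00_m hs0 hs1 )

theorem wR00_r {s e P : ℝ} (hs0 : 0 < s) (hs1 : s < 1) (he0 : 0 ≤ e) (he1 : e ≤ s/(1-s))
    (hP_lo : P ≤ (1/(1-s+s^2))^2*((lineD s e)^1))
    (hP_hi : P ≤ (1/(1-s+s^2))^2*((1+e)^1)) :
    R00 s*P ≤ (1*(1-s)^2/(s+1*(1-s)^2)*((1+2*(s/(1-s+s^2)))^2*s)-1*(1-s)^2/s*(1*(e*(s/(1-s)-e))))+(1-s+(2*(s*(1-s)/(1-s+s^2))+1*e))^2 := by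
  have hK := (R00_pos hs0 hs1).le
  rcases le_total e (s*(1-s)/(1-s+s^2)) with h0 | h0
  · obtain ⟨w, hw0, hw1, rfl, hl0⟩ := cellD_lo hs0 hs1 he0 h0
    rw [hl0] at hP_lo
    exact (mul_le_mul_of_nonneg_left hP_lo hK).trans (cR00_r_lo hs0 hs1 hw0 hw1)
  · obtain ⟨w, hw0, hw1, rfl, hl0⟩ := cellD_hi hs0 hs1 h0 he1
    rw [hl0] at hP_hi
    exact (mul_le_mul_of_nonneg_left hP_hi hK).trans (cR00_r_hi hs0 hs1 hw0 hw1)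

theorem wR4_r {s e P : ℝ} (hs0 : 0 < s) (hs1 : s < 1) (he0 : 0 ≤ e) (he1 : e ≤ s/(1-s))
    (hP_lo : P ≤ ((lineD s e)^4))
    (hP_hi : P ≤ ((1+e)^4)) :
    R4 s*P ≤ ((1/4)*(1-s)^2/(s+(1/4)*(1-s)^2)*((2)^2*s)-(1/4)*(1-s)^2/s*(16*(e*(s/(1-s)-e))))+(1-s+(4*e))^2 := by
  have hK := (R4_pos hs0 hs1).le
  rcases le_total e (s*(1-s)/(1-s+s^2)) with h0 | h0
  · obtain ⟨w, hw0, hw1, rfl, hl0⟩ := cellD_lo hs0 hs1 he0 h0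
    rw [hl0] at hP_lo
    exact (mul_le_mul_of_nonneg_left hP_lo hK).trans (cR4_r_lo hs0 hs1 hw0 hw1)
  · obtain ⟨w, hw0, hw1, rfl, hl0⟩ := cellD_hi hs0 hs1 h0 he1
    rw [hl0] at hP_hi
    exact (mul_le_mul_of_nonneg_left hP_hi hK).trans (cR4_r_hi hs0 hs1 hw0 hw1)

theorem wR5_r {s e P : ℝ} (hs0 : 0 < s) (hs1 : s < 1) (he0 : 0 ≤ e) (he1 : e ≤ s/(1-s))
    (hP_lo : P ≤ ((lineD s e)^5))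
    (hP_hi : P ≤ ((1+e)^5)) :
    R5 s*P ≤ ((1/4)*(1-s)^2/(s+(1/4)*(1-s)^2)*((3)^2*s)-(1/4)*(1-s)^2/s*(25*(e*(s/(1-s)-e))))+(1-s+(5*e))^2 := by
  have hK := (R5_pos hs0 hs1).le
  rcases le_total e (s*(1-s)/(1-s+s^2)) with h0 | h0
  · obtain ⟨w, hw0, hw1, rfl, hl0⟩ := cellD_lo hs0 hs1 he0 h0
    rw [hl0] at hP_lo
    exact (mul_le_mul_of_nonneg_left hP_lo hK).trans (cR5_r_lo hs0 hs1 hw0 hw1)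
  · obtain ⟨w, hw0, hw1, rfl, hl0⟩ := cellD_hi hs0 hs1 h0 he1
    rw [hl0] at hP_hi
    exact (mul_le_mul_of_nonneg_left hP_hi hK).trans (cR5_r_hi hs0 hs1 hw0 hw1)

theorem wRooo_r {s e P : ℝ} (hs0 : 0 < s) (hs1 : s < 1) (he0 : s*(1-s)/(1-s+s^2) ≤ e) (he1 : e ≤ s)
    (hP_o : P ≤ ((1+e)^3)) :
    Rooo s*P ≤ (((1)^2*s)+3*(s-e)*(2/s+1+s*(1-s)/(1-s+s^2)))+(1-s+(3*e))^2 := by
  have hK := (Rooo_pos hs0 hs1).le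
  obtain ⟨w, hw0, hw1, rfl, hl0⟩ := cello hs0 hs1 he0 he1
  rw [hl0] at hP_o
  exact (mul_le_mul_of_nonneg_left hP_o hK).trans (cRooo_r_o hs0 hs1 hw0 hw1)

theorem wR02_r {s e f P : ℝ} (hs0 : 0 < s) (hs1 : s < 1) (he0 : s*(1-s)/(1-s+s^2) ≤ e) (he1 : e ≤ s/(1-s)) (hf0 : 0 ≤ f) (hf1 : f ≤ s/(1-s))
    (hP_lo_lo : P ≤ (1/(1-s+s^2))^1*((lineC s e)^1*(lineD s f)^1))
    (hP_lo_hi : P ≤ (1/(1-s+s^2))^1*((lineC s e)^1*(1+f)^1))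
    (hP_hi_lo : P ≤ (1/(1-s+s^2))^1*((1+e)^1*(lineD s f)^1))
    (hP_hi_hi : P ≤ (1/(1-s+s^2))^1*((1+e)^1*(1+f)^1)) :
    R02 s*P ≤ ((1/2)*(1-s)^2/(s+(1/2)*(1-s)^2)*((1+1*(s/(1-s+s^2)))^2*s)-(1/2)*(1-s)^2/s*(2*((e-s*(1-s)/(1-s+s^2))*(s/(1-s)-e))+2*(f*(s/(1-s)-f))))+(1-s+(1*(s*(1-s)/(1-s+s^2))+1*e+1*f))^2 := by
  have hK := (R02_pos hs0 hs1).le
  rcases le_total e (s*(1-s^4)/(1+s^5)) with h0 | h0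
  · obtain ⟨w, hw0, hw1, rfl, hl0⟩ := cell2_lo hs0 hs1 he0 h0
    rcases le_total f (s*(1-s)/(1-s+s^2)) with h1 | h1
    · obtain ⟨v, hv0, hv1, rfl, hl1⟩ := cellD_lo hs0 hs1 hf0 h1
      rw [hl0] at hP_lo_lo
      rw [hl1] at hP_lo_lo
      exact (mul_le_mul_of_nonneg_left hP_lo_lo hK).trans (cR02_r_lo_lo hs0 hs1 hw0 hw1 hv0 hv1)
    · obtain ⟨v, hv0, hv1, rfl, hl1⟩ := cellD_hi hs0 hs1 h1 hf1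
      rw [hl0] at hP_lo_hi
      rw [hl1] at hP_lo_hi
      exact (mul_le_mul_of_nonneg_left hP_lo_hi hK).trans (cR02_r_lo_hi hs0 hs1 hw0 hw1 hv0 hv1)
  · obtain ⟨w, hw0, hw1, rfl, hl0⟩ := cell2_hi hs0 hs1 h0 he1
    rcases le_total f (s*(1-s)/(1-s+s^2)) with h1 | h1
    · obtain ⟨v, hv0, hv1, rfl, hl1⟩ := cellD_lo hs0 hs1 hf0 h1
      rw [hl0] at hP_hi_lo
      rw [hl1] at hP_hi_lo
      exact (mul_le_mul_of_nonneg_left hP_hi_lo hK).trans (cR02_r_hi_lo hs0 hs1 hw0 hw1 hv0 hv1)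
    · obtain ⟨v, hv0, hv1, rfl, hl1⟩ := cellD_hi hs0 hs1 h1 hf1
      rw [hl0] at hP_hi_hi
      rw [hl1] at hP_hi_hi
      exact (mul_le_mul_of_nonneg_left hP_hi_hi hK).trans (cR02_r_hi_hi hs0 hs1 hw0 hw1 hv0 hv1)

theorem wR22_r {s e f P : ℝ} (hs0 : 0 < s) (hs1 : s < 1) (he0 : s*(1-s)/(1-s+s^2) ≤ e) (he1 : e ≤ s/(1-s)) (hf0 : 0 ≤ f) (hf1 : f ≤ s/(1-s))
    (hP_lo_lo : P ≤ ((lineC s e)^2*(lineD s f)^1))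
    (hP_lo_hi : P ≤ ((lineC s e)^2*(1+f)^1))
    (hP_hi_lo : P ≤ ((1+e)^2*(lineD s f)^1))
    (hP_hi_hi : P ≤ ((1+e)^2*(1+f)^1)) :
    R22 s*P ≤ ((1/4)*(1-s)^2/(s+(1/4)*(1-s)^2)*((1)^2*s)-(1/4)*(1-s)^2/s*(8*((e-s*(1-s)/(1-s+s^2))*(s/(1-s)-e))+2*(f*(s/(1-s)-f))))+(1-s+(2*e+1*f))^2 := by
  have hK := (R22_pos hs0 hs1).le
  rcases le_total e (s*(1-s^4)/(1+s^5)) with h0 | h0
  · obtain ⟨w, hw0, hw1, rfl, hl0⟩ := cell2_lo hs0 hs1 he0 h0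
    rcases le_total f (s*(1-s)/(1-s+s^2)) with h1 | h1
    · obtain ⟨v, hv0, hv1, rfl, hl1⟩ := cellD_lo hs0 hs1 hf0 h1
      rw [hl0] at hP_lo_lo
      rw [hl1] at hP_lo_lo
      exact (mul_le_mul_of_nonneg_left hP_lo_lo hK).trans (cR22_r_lo_lo hs0 hs1 hw0 hw1 hv0 hv1)
    · obtain ⟨v, hv0, hv1, rfl, hl1⟩ := cellD_hi hs0 hs1 h1 hf1
      rw [hl0] at hP_lo_hi
      rw [hl1] at hP_lo_hi
      exact (mul_le_mul_of_nonneg_left hP_lo_hi hK).trans (cR22_r_lo_hi hs0 hs1 hw0 hw1 hv0 hv1)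
  · obtain ⟨w, hw0, hw1, rfl, hl0⟩ := cell2_hi hs0 hs1 h0 he1
    rcases le_total f (s*(1-s)/(1-s+s^2)) with h1 | h1
    · obtain ⟨v, hv0, hv1, rfl, hl1⟩ := cellD_lo hs0 hs1 hf0 h1
      rw [hl0] at hP_hi_lo
      rw [hl1] at hP_hi_lo
      exact (mul_le_mul_of_nonneg_left hP_hi_lo hK).trans (cR22_r_hi_lo hs0 hs1 hw0 hw1 hv0 hv1)
    · obtain ⟨v, hv0, hv1, rfl, hl1⟩ := cellD_hi hs0 hs1 h1 hf1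
      rw [hl0] at hP_hi_hi
      rw [hl1] at hP_hi_hi
      exact (mul_le_mul_of_nonneg_left hP_hi_hi hK).trans (cR22_r_hi_hi hs0 hs1 hw0 hw1 hv0 hv1)

theorem wRoo2_r {s e f P : ℝ} (hs0 : 0 < s) (hs1 : s < 1) (he0 : s*(1-s)/(1-s+s^2) ≤ e) (he1 : e ≤ s) (hf0 : s*(1-s)/(1-s+s^2) ≤ f) (hf1 : f ≤ s/(1-s))
    (hP_o_lo : P ≤ ((1+e)^2*(lineC s f)^1))
    (hP_o_hi : P ≤ ((1+e)^2*(1+f)^1)) :
    Roo2 s*P ≤ (4*(1-s)^2/(s+4*(1-s)^2)*(((1)^2*s)+2*(s-e)*(2/s+1+s*(1-s)/(1-s+s^2)))-4*(1-s)^2/s*(1*((f-s*(1-s)/(1-s+s^2))*(s/(1-s)-f))))+(1-s+(2*e+1*f))^2 := by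
  have hK := (Roo2_pos hs0 hs1).le
  obtain ⟨w, hw0, hw1, rfl, hl0⟩ := cello hs0 hs1 he0 he1
  rcases le_total f (s*(1-s^4)/(1+s^5)) with h1 | h1
  · obtain ⟨v, hv0, hv1, rfl, hl1⟩ := cell2_lo hs0 hs1 hf0 h1
    rw [hl0] at hP_o_lo
    rw [hl1] at hP_o_lo
    exact (mul_le_mul_of_nonneg_left hP_o_lo hK).trans (cRoo2_r_o_lo hs0 hs1 hw0 hw1 hv0 hv1)
  · obtain ⟨v, hv0, hv1, rfl, hl1⟩ := cell2_hi hs0 hs1 h1 hf1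
    rw [hl0] at hP_o_hi
    rw [hl1] at hP_o_hi
    exact (mul_le_mul_of_nonneg_left hP_o_hi hK).trans (cRoo2_r_o_hi hs0 hs1 hw0 hw1 hv0 hv1)

end Pool.Agent.H59
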