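import Mathlib
import Pool.Agent.H59.Wrap

set_option autoImplicit false

/-!
# The certificate inequalities with a bounded number of children
-/

namespace Pool.Agent.H59

variable {q : ℝ}

theorem A_le {c s A0 G a0 Y : ℝ} (hc : 0 < c) (hs0 : 0 < s) (hs1 : s < 1) (ha : A0 ≤ a0 ^ 2)
    (hG : Y ^ 2 ≤ G) :
    c * (1 - s) ^ 2 / (s + c * (1 - s) ^ 2) * A0 - c * (1 - s) ^ 2 / s * G ≤ (a0 - Y) ^ 2 := by
  refine le_trans ?_ (sq_ge a0 Y hc hs0 hs1)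
  have ho : 0 < 1 - s := by linarith
  have h1 : 0 ≤ c * (1 - s) ^ 2 / (s + c * (1 - s) ^ 2) := by positivity
  have h2 : 0 ≤ c * (1 - s) ^ 2 / s := by positivity
  have h3 := mul_le_mul_of_nonneg_left ha h1
  have h4 := mul_le_mul_of_nonneg_left hG h2
  linarith

theorem cert11 (hq0 : 0 < q) (hq1 : q < 1) {p1 p2 : ℝ × ℝ}
    (h1 : ClsD (q ^ 2) p1) (h2 : ClsD (q ^ 2) p2) :
    K11 (q ^ 2) * (psi (q ^ 2) p1 * psi (q ^ 2) p2)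
      ≤ Jn (q ^ 2) (q - (p1.2 + p2.2)) (1 - q ^ 2 + (p1.1 + p2.1)) := by
  have hs0 : 0 < q ^ 2 := by positivity
  have hs1 : q ^ 2 < 1 := by nlinarith
  obtain ⟨e, he0, he1, hH, hY, hP1, hP2⟩ := meanD hs0 hs1 [p1, p2] 2 (by norm_num) rfl
    (by simp [h1, h2])
  simp only [List.map_cons, List.map_nil, List.sum_cons, List.sum_nil, add_zero, List.prod_cons,
    List.prod_nil, mul_one, Nat.cast_ofNat] at hH hY hP1 hP2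
  rw [hH]
  refine Jn_ge hs0 hs1 ?_ (wJ11_p hs0 hs1 he0 he1 hP2 hP1) (wJ11_m hs0 hs1 he0 he1 hP2 hP1)
  exact A_le (by norm_num) hs0 hs1 (le_of_eq (by ring)) (hY.trans (le_of_eq (by ring)))

theorem cert3 (hq0 : 0 < q) (hq1 : q < 1) {p1 p2 p3 : ℝ × ℝ}
    (h1 : ClsD (q ^ 2) p1) (h2 : ClsD (q ^ 2) p2) (h3 : ClsD (q ^ 2) p3) :
    K3 (q ^ 2) * (psi (q ^ 2) p1 * (psi (q ^ 2) p2 * psi (q ^ 2) p3))
      ≤ Jn (q ^ 2) (2 * q - (p1.2 + (p2.2 + p3.2))) (1 - q ^ 2 + (p1.1 + (p2.1 + p3.1))) := by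
  have hs0 : 0 < q ^ 2 := by positivity
  have hs1 : q ^ 2 < 1 := by nlinarith
  obtain ⟨e, he0, he1, hH, hY, hP1, hP2⟩ := meanD hs0 hs1 [p1, p2, p3] 3 (by norm_num) rfl
    (by simp [h1, h2, h3])
  simp only [List.map_cons, List.map_nil, List.sum_cons, List.sum_nil, add_zero, List.prod_cons,
    List.prod_nil, mul_one, Nat.cast_ofNat] at hH hY hP1 hP2
  rw [hH]
  refine Jn_ge hs0 hs1 ?_ (wJ3_p hs0 hs1 he0 he1 hP2 hP1) (wJ3_m hs0 hs1 he0 he1 hP2 hP1)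
  exact A_le (by norm_num) hs0 hs1 (le_of_eq (by ring)) (hY.trans (le_of_eq (by ring)))

theorem cert22_00 (hq0 : 0 < q) (hq1 : q < 1) {p1 p2 : ℝ × ℝ}
    (h1 : Leaf q p1) (h2 : Leaf q p2) :
    K22 (q ^ 2) * (psi (q ^ 2) p1 * psi (q ^ 2) p2)
      ≤ Jn (q ^ 2) (q - (p1.2 + p2.2)) (1 - q ^ 2 + (p1.1 + p2.1)) := by
  have hs0 : 0 < q ^ 2 := by positivity
  have hs1 : q ^ 2 < 1 := by nlinarith
  obtain ⟨a1, b1, c1, d1⟩ := leaf_facts hq0 hq1 h1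
  obtain ⟨a2, b2, c2, d2⟩ := leaf_facts hq0 hq1 h2
  have hH : p1.1 + p2.1 = 2 * (q ^ 2 * (1 - q ^ 2) / (1 - q ^ 2 + (q ^ 2) ^ 2)) := by
    rw [a1, a2]; ring
  have hP : psi (q ^ 2) p1 * psi (q ^ 2) p2 ≤ (1 / (1 - q ^ 2 + (q ^ 2) ^ 2)) ^ 2 * 1 := by
    rw [mul_one, sq (1 / (1 - q ^ 2 + (q ^ 2) ^ 2))]
    exact mul_le_mul d1 d2 c2 (c1.trans d1)
  rw [hH]
  refine Jn_ge hs0 hs1 ?_ (wJ00_p hs0 hs1 hP) (wJ00_m hs0 hs1 hP)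
  rw [b1, b2]
  exact le_of_eq (by ring)

theorem cert22_02 (hq0 : 0 < q) (hq1 : q < 1) {p1 p2 : ℝ × ℝ}
    (h1 : Leaf q p1) (h2 : Cls2 (q ^ 2) p2) :
    K22 (q ^ 2) * (psi (q ^ 2) p1 * psi (q ^ 2) p2)
      ≤ Jn (q ^ 2) (q - (p1.2 + p2.2)) (1 - q ^ 2 + (p1.1 + p2.1)) := by
  have hs0 : 0 < q ^ 2 := by positivity
  have hs1 : q ^ 2 < 1 := by nlinarith
  obtain ⟨a1, b1, c1, d1⟩ := leaf_facts hq0 hq1 h1
  have hb := h2.bounds hs0 hs1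
  have hd : 0 < 1 - q ^ 2 + (q ^ 2) ^ 2 := by nlinarith [pow_pos hq0 4]
  have he : 0 < q ^ 2 * (1 - q ^ 2) / (1 - q ^ 2 + (q ^ 2) ^ 2) :=
    div_pos (mul_pos hs0 (by linarith)) hd
  have n2 := psi_nonneg_of (p := p2) hs0 hs1 (by linarith)
  have hH : p1.1 + p2.1
      = 1 * (q ^ 2 * (1 - q ^ 2) / (1 - q ^ 2 + (q ^ 2) ^ 2)) + 1 * p2.1 := by
    rw [a1]; ring
  have hPl : psi (q ^ 2) p1 * psi (q ^ 2) p2
      ≤ (1 / (1 - q ^ 2 + (q ^ 2) ^ 2)) ^ 1 * ((lineC (q ^ 2) p2.1) ^ 1) := by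
    rw [pow_one, pow_one]
    exact mul_le_mul d1 (psi_le_lineC hs0 hs1 h2) n2 (c1.trans d1)
  have hPh : psi (q ^ 2) p1 * psi (q ^ 2) p2
      ≤ (1 / (1 - q ^ 2 + (q ^ 2) ^ 2)) ^ 1 * ((1 + p2.1) ^ 1) := by
    rw [pow_one, pow_one]
    exact mul_le_mul d1 (psi_le_one _) n2 (c1.trans d1)
  rw [hH]
  refine Jn_ge hs0 hs1 ?_ (wJ02_p hs0 hs1 hb.1 hb.2 hPl hPh) (wJ02_m hs0 hs1 hb.1 hb.2 hPl hPh)
  have e1 : q - (p1.2 + p2.2) = q * (1 + 1 * (q ^ 2 / (1 - q ^ 2 + (q ^ 2) ^ 2))) - p2.2 := by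
    rw [b1]; ring
  rw [e1]
  unfold Cls2 Pool.Agent.H59.e1 E2 at h2
  exact A_le (by norm_num) hs0 hs1 (le_of_eq (by ring)) (h2.trans (le_of_eq (by ring)))

theorem cert22_22 (hq0 : 0 < q) (hq1 : q < 1) {p1 p2 : ℝ × ℝ}
    (h1 : Cls2 (q ^ 2) p1) (h2 : Cls2 (q ^ 2) p2) :
    K22 (q ^ 2) * (psi (q ^ 2) p1 * psi (q ^ 2) p2)
      ≤ Jn (q ^ 2) (q - (p1.2 + p2.2)) (1 - q ^ 2 + (p1.1 + p2.1)) := by
  have hs0 : 0 < q ^ 2 := by positivity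
  have hs1 : q ^ 2 < 1 := by nlinarith
  obtain ⟨e, he0, he1, hH, hY, hP1, hP2⟩ := mean22 hs0 hs1 h1 h2
  rw [hH]
  refine Jn_ge hs0 hs1 ?_ (wJ22_p hs0 hs1 he0 he1 hP2 hP1) (wJ22_m hs0 hs1 he0 he1 hP2 hP1)
  exact A_le (by norm_num) hs0 hs1 (le_of_eq (by ring)) (hY.trans (le_of_eq (by ring)))

theorem cert22 (hq0 : 0 < q) (hq1 : q < 1) {p1 p2 : ℝ × ℝ}
    (h1 : Leaf q p1 ∨ Cls2 (q ^ 2) p1) (h2 : Leaf q p2 ∨ Cls2 (q ^ 2) p2) :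
    K22 (q ^ 2) * (psi (q ^ 2) p1 * psi (q ^ 2) p2)
      ≤ Jn (q ^ 2) (q - (p1.2 + p2.2)) (1 - q ^ 2 + (p1.1 + p2.1)) := by
  rcases h1 with h1 | h1 <;> rcases h2 with h2 | h2
  · exact cert22_00 hq0 hq1 h1 h2
  · exact cert22_02 hq0 hq1 h1 h2
  · have := cert22_02 hq0 hq1 h2 h1
    rw [mul_comm (psi (q ^ 2) p1), add_comm p1.2, add_comm p1.1]
    exact this
  · exact cert22_22 hq0 hq1 h1 h2

theorem certR22 (hq0 : 0 < q) (hq1 : q < 1) {p1 p2 p3 : ℝ × ℝ}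
    (h1 : Cls2 (q ^ 2) p1) (h2 : Cls2 (q ^ 2) p2) (h3 : ClsD (q ^ 2) p3) :
    R22 (q ^ 2) * (psi (q ^ 2) p1 * (psi (q ^ 2) p2 * psi (q ^ 2) p3))
      ≤ (q - (p1.2 + (p2.2 + p3.2))) ^ 2 + (1 - q ^ 2 + (p1.1 + (p2.1 + p3.1))) ^ 2 := by
  have hs0 : 0 < q ^ 2 := by positivity
  have hs1 : q ^ 2 < 1 := by nlinarith
  obtain ⟨e, he0, he1, hH, hY, hP1, hP2⟩ := mean22 hs0 hs1 h1 h2
  have f0 := B.ClsD.nonneg hs0 hs1 h3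
  have f1 := h3.le hs0 hs1
  have hY3 := h3.sq_le hs1
  have hd : 0 < 1 - q ^ 2 + (q ^ 2) ^ 2 := by nlinarith [pow_pos hq0 4]
  have he : 0 < q ^ 2 * (1 - q ^ 2) / (1 - q ^ 2 + (q ^ 2) ^ 2) :=
    div_pos (mul_pos hs0 (by linarith)) hd
  have n3 := psi_nonneg_of (p := p3) hs0 hs1 f0
  have u3 := psi_le_one (s := q ^ 2) p3
  have l3 := psi_le_lineD hs0 hs1 h3
  have s1 : 0 ≤ (1 + e) ^ 2 := by positivity
  have s2 : 0 ≤ (lineC (q ^ 2) e) ^ 2 := by positivity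
  have hH' : p1.1 + (p2.1 + p3.1) = 2 * e + 1 * p3.1 := by rw [← hH]; ring
  rw [hH', ← mul_assoc (psi (q ^ 2) p1)]
  refine le_trans (wR22_r hs0 hs1 he0 he1 f0 f1 ?_ ?_ ?_ ?_) (add_le_add_left ?_ _)
  · rw [pow_one]; exact mul_le_mul hP2 l3 n3 s2
  · rw [pow_one]; exact mul_le_mul hP2 u3 n3 s2
  · rw [pow_one]; exact mul_le_mul hP1 l3 n3 s1
  · rw [pow_one]; exact mul_le_mul hP1 u3 n3 s1
  · refine A_le (by norm_num) hs0 hs1 (le_of_eq (by ring)) ?_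
    have : (p1.2 + (p2.2 + p3.2)) ^ 2 ≤ 2 * (p1.2 + p2.2) ^ 2 + 2 * p3.2 ^ 2 := by
      nlinarith [sq_nonneg (p1.2 + p2.2 - p3.2)]
    linarith

theorem certR02 (hq0 : 0 < q) (hq1 : q < 1) {p1 p2 p3 : ℝ × ℝ}
    (h1 : Leaf q p1) (h2 : Cls2 (q ^ 2) p2) (h3 : ClsD (q ^ 2) p3) :
    R02 (q ^ 2) * (psi (q ^ 2) p1 * (psi (q ^ 2) p2 * psi (q ^ 2) p3))
      ≤ (q - (p1.2 + (p2.2 + p3.2))) ^ 2 + (1 - q ^ 2 + (p1.1 + (p2.1 + p3.1))) ^ 2 := by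
  have hs0 : 0 < q ^ 2 := by positivity
  have hs1 : q ^ 2 < 1 := by nlinarith
  obtain ⟨a1, b1, c1, d1⟩ := leaf_facts hq0 hq1 h1
  have hb := h2.bounds hs0 hs1
  have f0 := B.ClsD.nonneg hs0 hs1 h3
  have f1 := h3.le hs0 hs1
  have hY3 := h3.sq_le hs1
  have hd : 0 < 1 - q ^ 2 + (q ^ 2) ^ 2 := by nlinarith [pow_pos hq0 4]
  have he : 0 < q ^ 2 * (1 - q ^ 2) / (1 - q ^ 2 + (q ^ 2) ^ 2) :=
    div_pos (mul_pos hs0 (by linarith)) hd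
  have n2 := psi_nonneg_of (p := p2) hs0 hs1 (by linarith)
  have u2 := psi_le_one (s := q ^ 2) p2
  have l2 := psi_le_lineC hs0 hs1 h2
  have n3 := psi_nonneg_of (p := p3) hs0 hs1 f0
  have u3 := psi_le_one (s := q ^ 2) p3
  have l3 := psi_le_lineD hs0 hs1 h3
  have hH' : p1.1 + (p2.1 + p3.1)
      = 1 * (q ^ 2 * (1 - q ^ 2) / (1 - q ^ 2 + (q ^ 2) ^ 2)) + 1 * p2.1 + 1 * p3.1 := by
    rw [a1]; ring
  have e1 : q - (p1.2 + (p2.2 + p3.2))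
      = q * (1 + 1 * (q ^ 2 / (1 - q ^ 2 + (q ^ 2) ^ 2))) - (p2.2 + p3.2) := by
    rw [b1]; ring
  have cc := c1.trans d1
  rw [hH', e1]
  refine le_trans (wR02_r hs0 hs1 hb.1 hb.2 f0 f1 ?_ ?_ ?_ ?_) (add_le_add_left ?_ _)
  · simp only [pow_one]
    exact mul_le_mul d1 (mul_le_mul l2 l3 n3 (n2.trans l2)) (mul_nonneg n2 n3) cc
  · simp only [pow_one]
    exact mul_le_mul d1 (mul_le_mul l2 u3 n3 (n2.trans l2)) (mul_nonneg n2 n3) cc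
  · simp only [pow_one]
    exact mul_le_mul d1 (mul_le_mul u2 l3 n3 (n2.trans u2)) (mul_nonneg n2 n3) cc
  · simp only [pow_one]
    exact mul_le_mul d1 (mul_le_mul u2 u3 n3 (n2.trans u2)) (mul_nonneg n2 n3) cc
  · refine A_le (by norm_num) hs0 hs1 (le_of_eq (by ring)) ?_
    unfold Cls2 Pool.Agent.H59.e1 E2 at h2
    have : (p2.2 + p3.2) ^ 2 ≤ 2 * p2.2 ^ 2 + 2 * p3.2 ^ 2 := by
      nlinarith [sq_nonneg (p2.2 - p3.2)]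
    linarith

theorem certR00 (hq0 : 0 < q) (hq1 : q < 1) {p1 p2 p3 : ℝ × ℝ}
    (h1 : Leaf q p1) (h2 : Leaf q p2) (h3 : ClsD (q ^ 2) p3) :
    R00 (q ^ 2) * (psi (q ^ 2) p1 * (psi (q ^ 2) p2 * psi (q ^ 2) p3))
      ≤ (q - (p1.2 + (p2.2 + p3.2))) ^ 2 + (1 - q ^ 2 + (p1.1 + (p2.1 + p3.1))) ^ 2 := by
  have hs0 : 0 < q ^ 2 := by positivity
  have hs1 : q ^ 2 < 1 := by nlinarith
  obtain ⟨a1, b1, c1, d1⟩ := leaf_facts hq0 hq1 h1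
  obtain ⟨a2, b2, c2, d2⟩ := leaf_facts hq0 hq1 h2
  have f0 := B.ClsD.nonneg hs0 hs1 h3
  have f1 := h3.le hs0 hs1
  have hY3 := h3.sq_le hs1
  have n3 := psi_nonneg_of (p := p3) hs0 hs1 f0
  have u3 := psi_le_one (s := q ^ 2) p3
  have l3 := psi_le_lineD hs0 hs1 h3
  have hH' : p1.1 + (p2.1 + p3.1)
      = 2 * (q ^ 2 * (1 - q ^ 2) / (1 - q ^ 2 + (q ^ 2) ^ 2)) + 1 * p3.1 := by
    rw [a1, a2]; ring
  have e1 : q - (p1.2 + (p2.2 + p3.2))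
      = q * (1 + 2 * (q ^ 2 / (1 - q ^ 2 + (q ^ 2) ^ 2))) - p3.2 := by
    rw [b1, b2]; ring
  have cc := c1.trans d1
  have cc2 := c2.trans d2
  rw [hH', e1, ← mul_assoc (psi (q ^ 2) p1)]
  refine le_trans (wR00_r hs0 hs1 f0 f1 ?_ ?_) (add_le_add_left ?_ _)
  · rw [pow_one, sq (1 / (1 - q ^ 2 + (q ^ 2) ^ 2))]
    exact mul_le_mul (mul_le_mul d1 d2 c2 cc) l3 n3 (mul_nonneg cc cc2)
  · rw [pow_one, sq (1 / (1 - q ^ 2 + (q ^ 2) ^ 2))]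
    exact mul_le_mul (mul_le_mul d1 d2 c2 cc) u3 n3 (mul_nonneg cc cc2)
  · exact A_le (by norm_num) hs0 hs1 (le_of_eq (by ring)) (hY3.trans (le_of_eq (by ring)))

theorem certRoo2 (hq0 : 0 < q) (hq1 : q < 1) {p1 p2 p3 : ℝ × ℝ}
    (h1 : OddL (q ^ 2) p1) (h2 : OddL (q ^ 2) p2) (h3 : Cls2 (q ^ 2) p3) :
    Roo2 (q ^ 2) * (psi (q ^ 2) p1 * (psi (q ^ 2) p2 * psi (q ^ 2) p3))
      ≤ (q - (p1.2 + (p2.2 + p3.2))) ^ 2 + (1 - q ^ 2 + (p1.1 + (p2.1 + p3.1))) ^ 2 := by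
  have hs0 : 0 < q ^ 2 := by positivity
  have hs1 : q ^ 2 < 1 := by nlinarith
  obtain ⟨a1, b1, c1, d1, m1, u1⟩ := oddL_facts hq0 hq1 h1
  obtain ⟨a2, b2, c2, d2, m2, u2⟩ := oddL_facts hq0 hq1 h2
  have hb := h3.bounds hs0 hs1
  have hd : 0 < 1 - q ^ 2 + (q ^ 2) ^ 2 := by nlinarith [pow_pos hq0 4]
  have he : 0 < q ^ 2 * (1 - q ^ 2) / (1 - q ^ 2 + (q ^ 2) ^ 2) :=
    div_pos (mul_pos hs0 (by linarith)) hd
  have n3 := psi_nonneg_of (p := p3) hs0 hs1 (by linarith)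
  have u3 := psi_le_one (s := q ^ 2) p3
  have l3 := psi_le_lineC hs0 hs1 h3
  set e := (p1.1 + p2.1) / 2 with hedef
  have hH' : p1.1 + (p2.1 + p3.1) = 2 * e + 1 * p3.1 := by rw [hedef]; ring
  have e1' : q - (p1.2 + (p2.2 + p3.2)) = (q + (-p1.2) + (-p2.2)) - p3.2 := by ring
  have hPP : psi (q ^ 2) p1 * psi (q ^ 2) p2 ≤ (1 + e) ^ 2 := by
    calc psi (q ^ 2) p1 * psi (q ^ 2) p2 ≤ (1 + p1.1) * (1 + p2.1) :=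
          mul_le_mul u1 u2 m2 (by linarith)
      _ ≤ _ := amgm2
      _ = _ := by rw [hedef]; ring
  have s1 : 0 ≤ (1 + e) ^ 2 := by positivity
  rw [hH', e1', ← mul_assoc (psi (q ^ 2) p1)]
  refine le_trans (wRoo2_r hs0 hs1 (e := e) (by linarith) (by linarith) hb.1 hb.2 ?_ ?_)
    (add_le_add_left ?_ _)
  · simp only [pow_one]
    exact mul_le_mul hPP l3 n3 s1
  · simp only [pow_one]
    exact mul_le_mul hPP u3 n3 s1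
  · unfold Cls2 Pool.Agent.H59.e1 E2 at h3
    refine A_le (by norm_num) hs0 hs1 ?_ (h3.trans (le_of_eq (by ring)))
    have hgg : 0 ≤ (-p1.2) * (-p2.2) := mul_nonneg (by linarith) (by linarith)
    have hsum : 2 * (q ^ 2 - e) * (2 / q ^ 2 + 1 + q ^ 2 * (1 - q ^ 2) / (1 - q ^ 2 + (q ^ 2) ^ 2))
        = (q ^ 2 - p1.1) * (2 / q ^ 2 + 1 + q ^ 2 * (1 - q ^ 2) / (1 - q ^ 2 + (q ^ 2) ^ 2))
          + (q ^ 2 - p2.1) * (2 / q ^ 2 + 1 + q ^ 2 * (1 - q ^ 2) / (1 - q ^ 2 + (q ^ 2) ^ 2)) := by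
      rw [hedef]; ring
    rw [hsum]
    nlinarith

theorem certRooo (hq0 : 0 < q) (hq1 : q < 1) {p1 p2 p3 : ℝ × ℝ}
    (h1 : OddL (q ^ 2) p1) (h2 : OddL (q ^ 2) p2) (h3 : OddL (q ^ 2) p3) :
    Rooo (q ^ 2) * (psi (q ^ 2) p1 * (psi (q ^ 2) p2 * psi (q ^ 2) p3))
      ≤ (q - (p1.2 + (p2.2 + p3.2))) ^ 2 + (1 - q ^ 2 + (p1.1 + (p2.1 + p3.1))) ^ 2 := by
  have hs0 : 0 < q ^ 2 := by positivity
  have hs1 : q ^ 2 < 1 := by nlinarith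
  obtain ⟨a1, b1, c1, d1, m1, u1⟩ := oddL_facts hq0 hq1 h1
  obtain ⟨a2, b2, c2, d2, m2, u2⟩ := oddL_facts hq0 hq1 h2
  obtain ⟨a3, b3, c3, d3, m3, u3⟩ := oddL_facts hq0 hq1 h3
  have hd : 0 < 1 - q ^ 2 + (q ^ 2) ^ 2 := by nlinarith [pow_pos hq0 4]
  have he : 0 < q ^ 2 * (1 - q ^ 2) / (1 - q ^ 2 + (q ^ 2) ^ 2) :=
    div_pos (mul_pos hs0 (by linarith)) hd
  set e := (p1.1 + (p2.1 + p3.1)) / 3 with hedef
  have hH' : p1.1 + (p2.1 + p3.1) = 3 * e := by rw [hedef]; ring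
  have hPP : psi (q ^ 2) p1 * (psi (q ^ 2) p2 * psi (q ^ 2) p3) ≤ (1 + e) ^ 3 := by
    calc psi (q ^ 2) p1 * (psi (q ^ 2) p2 * psi (q ^ 2) p3)
        ≤ (1 + p1.1) * ((1 + p2.1) * (1 + p3.1)) :=
          mul_le_mul u1 (mul_le_mul u2 u3 m3 (by linarith)) (mul_nonneg m2 m3) (by linarith)
      _ ≤ _ := amgm3 (by linarith) (by linarith) (by linarith)
      _ = _ := by rw [hedef]; ring
  rw [hH']
  refine le_trans (wRooo_r hs0 hs1 (e := e) (by linarith) (by linarith) hPP)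
    (add_le_add_left ?_ _)
  have g1 : 0 ≤ (-p1.2) * (-p2.2) := mul_nonneg (by linarith) (by linarith)
  have g2 : 0 ≤ (-p1.2) * (-p3.2) := mul_nonneg (by linarith) (by linarith)
  have g3 : 0 ≤ (-p2.2) * (-p3.2) := mul_nonneg (by linarith) (by linarith)
  have hsum : 3 * (q ^ 2 - e) * (2 / q ^ 2 + 1 + q ^ 2 * (1 - q ^ 2) / (1 - q ^ 2 + (q ^ 2) ^ 2))
      = (q ^ 2 - p1.1) * (2 / q ^ 2 + 1 + q ^ 2 * (1 - q ^ 2) / (1 - q ^ 2 + (q ^ 2) ^ 2))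
        + (q ^ 2 - p2.1) * (2 / q ^ 2 + 1 + q ^ 2 * (1 - q ^ 2) / (1 - q ^ 2 + (q ^ 2) ^ 2))
        + (q ^ 2 - p3.1) * (2 / q ^ 2 + 1 + q ^ 2 * (1 - q ^ 2) / (1 - q ^ 2 + (q ^ 2) ^ 2)) := by
    rw [hedef]; ring
  rw [hsum]
  nlinarith

theorem certR4 (hq0 : 0 < q) (hq1 : q < 1) (L : List (ℝ × ℝ)) (hj : L.length = 4)
    (hL : ∀ p ∈ L, ClsD (q ^ 2) p) :
    R4 (q ^ 2) * (L.map (psi (q ^ 2))).prod
      ≤ (2 * q - (L.map Prod.snd).sum) ^ 2 + (1 - q ^ 2 + (L.map Prod.fst).sum) ^ 2 := by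
  have hs0 : 0 < q ^ 2 := by positivity
  have hs1 : q ^ 2 < 1 := by nlinarith
  obtain ⟨e, he0, he1, hH, hY, hP1, hP2⟩ := meanD hs0 hs1 L 4 (by norm_num) hj hL
  simp only [Nat.cast_ofNat] at hH hY hP1 hP2
  rw [hH]
  refine le_trans (wR4_r hs0 hs1 he0 he1 hP2 hP1) (add_le_add_left ?_ _)
  exact A_le (by norm_num) hs0 hs1 (le_of_eq (by ring)) (hY.trans (le_of_eq (by ring)))

end Pool.Agent.H59
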