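import Mathlib
import Pool.Agent.H59.KDefs

set_option autoImplicit false

namespace Pool.Agent.H59

theorem fac_pos {a s : ℝ} (ha : 0 < a) (hs0 : 0 < s) : 0 < fac a s := by
  unfold fac
  have : 0 < a ^ 2 * s := by positivity
  nlinarith [sq_nonneg (1 - s)]

theorem facs_pos {s : ℝ} (hs0 : 0 < s) : (as : List ℝ) → (∀ a ∈ as, 0 < a) →
    0 < (as.map (fun a => fac a s)).prod
  | [], _ => by simp
  | a :: as, h => by
    simp only [List.map_cons, List.prod_cons]
    exact mul_pos (fac_pos (h a (by simp)) hs0) (facs_pos hs0 as fun b hb => h b (by simp [hb]))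

theorem Kr_pos {m : ℕ} {as bs : List ℝ} (has : ∀ a ∈ as, 0 < a) (hbs : ∀ b ∈ bs, 0 < b) {s : ℝ}
    (hs0 : 0 < s) (hs1 : s < 1) : 0 < Kr m as bs s := by
  unfold Kr
  have h1 := facs_pos hs0 as has
  have h2 := facs_pos hs0 bs hbs
  have h3 : 0 < 1 - s := by linarith
  have h4 : 0 < 1 + s := by linarith
  positivity

theorem K22_pos {s : ℝ} (h0 : 0 < s) (h1 : s < 1) : 0 < K22 s :=
  Kr_pos (by intro a ha; simp at ha; rcases ha with rfl | rfl <;> norm_num)
    (by intro a ha; simp at ha; rcases ha with rfl | rfl <;> norm_num) h0 h1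
theorem K11_pos {s : ℝ} (h0 : 0 < s) (h1 : s < 1) : 0 < K11 s :=
  Kr_pos (by intro a ha; simp at ha; rcases ha with rfl | rfl <;> norm_num)
    (by intro a ha; simp at ha; rcases ha with rfl | rfl <;> norm_num) h0 h1
theorem K3_pos {s : ℝ} (h0 : 0 < s) (h1 : s < 1) : 0 < K3 s :=
  Kr_pos (by intro a ha; simp at ha; rcases ha with rfl | rfl <;> norm_num)
    (by intro a ha; simp at ha; rcases ha with rfl | rfl <;> norm_num) h0 h1
theorem K4_pos {s : ℝ} (h0 : 0 < s) (h1 : s < 1) : 0 < K4 s :=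
  Kr_pos (by intro a ha; simp at ha; rcases ha with rfl | rfl <;> norm_num)
    (by intro a ha; simp at ha; rcases ha with rfl | rfl <;> norm_num) h0 h1
theorem R22_pos {s : ℝ} (h0 : 0 < s) (h1 : s < 1) : 0 < R22 s :=
  Kr_pos (by intro a ha; simp at ha; rcases ha with rfl | rfl <;> norm_num)
    (by intro a ha; simp at ha; rcases ha with rfl | rfl <;> norm_num) h0 h1
theorem R02_pos {s : ℝ} (h0 : 0 < s) (h1 : s < 1) : 0 < R02 s :=
  Kr_pos (by intro a ha; simp at ha; rcases ha with rfl | rfl <;> norm_num)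
    (by intro a ha; simp at ha; rcases ha with rfl | rfl <;> norm_num) h0 h1
theorem R00_pos {s : ℝ} (h0 : 0 < s) (h1 : s < 1) : 0 < R00 s :=
  Kr_pos (by intro a ha; simp at ha; rcases ha with rfl | rfl <;> norm_num)
    (by intro a ha; simp at ha; rcases ha with rfl | rfl <;> norm_num) h0 h1
theorem Roo2_pos {s : ℝ} (h0 : 0 < s) (h1 : s < 1) : 0 < Roo2 s :=
  Kr_pos (by intro a ha; simp at ha; rcases ha with rfl | rfl <;> norm_num)
    (by intro a ha; simp at ha; rcases ha with rfl | rfl <;> norm_num) h0 h1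
theorem Rooo_pos {s : ℝ} (h0 : 0 < s) (h1 : s < 1) : 0 < Rooo s :=
  Kr_pos (by intro a ha; simp at ha; rcases ha with rfl; norm_num)
    (by intro a ha; simp at ha; rcases ha with rfl; norm_num) h0 h1
theorem R4_pos {s : ℝ} (h0 : 0 < s) (h1 : s < 1) : 0 < R4 s :=
  Kr_pos (by intro a ha; simp at ha; rcases ha with rfl | rfl <;> norm_num)
    (by intro a ha; simp at ha; rcases ha with rfl | rfl <;> norm_num) h0 h1
theorem R5_pos {s : ℝ} (h0 : 0 < s) (h1 : s < 1) : 0 < R5 s :=
  Kr_pos (by intro a ha; simp at ha; rcases ha with rfl | rfl <;> norm_num)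
    (by intro a ha; simp at ha; rcases ha with rfl | rfl <;> norm_num) h0 h1


end Pool.Agent.H59
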