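import Mathlib
import Pool.Agent.H59.KPos

set_option autoImplicit false

namespace Pool.Agent.H59

/-- Lower bound for `a ^ 2` with `k` branches of mean `e`. -/
noncomputable def NA (a k s e : ℝ) : ℝ :=
  (1/4)*(1-s)^2/(s+(1/4)*(1-s)^2)*(a^2*s)-(1/4)*(1-s)^2/s*(k^2*(e*(s/(1-s)-e)))

noncomputable def Np (a k s e : ℝ) : ℝ := NA a k s e+(1-s+(k*e))^2+s*(1-s+(k*e))

noncomputable def Nm (a k s e : ℝ) : ℝ :=
  ((1-s)*(NA a k s e+(1-s+(k*e))^2)+(3-s)*(s*(1-s+(k*e)))+2*s^2)/(1+s)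

noncomputable def Nr (a k s e : ℝ) : ℝ := NA a k s e+(1-s+(k*e))^2

end Pool.Agent.H59
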