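import Pool.Agent.H59.Bern
import Pool.Agent.H59.NDefs
set_option autoImplicit false
set_option maxRecDepth 10000
set_option maxHeartbeats 4000000
namespace Pool.Agent.H59
open Bern

def L_stepJm_hi_0_0 : List ℤ := [0,47472,202080,-4634943,37995501,-108905106,215619459,-340283526,380160255,-271758570,122503917,-39669039,8122500,600000]
def L_stepJm_hi_0_1 : List ℤ := [0,47472,234580,-5086106,35038573,-94094975,190846803,-276381286,286923431,-205913979,96599389,-26238790,5644888,480000]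
def L_stepJm_hi_0_2 : List ℤ := [0,47472,267080,-5514769,32143066,-82133193,161474890,-206662684,207848022,-135170809,66849466,-14999449,3087276,360000]
def L_stepJm_hi_0_3 : List ℤ := [0,47472,299580,-5920932,29308980,-73139760,123943608,-144288168,123493356,-72689508,29694036,-6071016,449664,240000]
def L_stepJm_hi_1_0 : List ℤ := [0,25344,266736,-3214338,24655758,-74808696,160909242,-273460092,321055254,-238670568,112670142,-37395282,7696500,270000]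
def L_stepJm_hi_1_1 : List ℤ := [0,25344,271736,-3407668,21927462,-61289738,133931630,-208992396,229179910,-172832494,84772622,-24725752,5295344,200000]
def L_stepJm_hi_1_2 : List ℤ := [0,25344,276736,-3595998,19224756,-49675138,103281664,-140027720,149272444,-103023334,53668052,-13540866,2864188,130000]
def L_stepJm_hi_1_3 : List ℤ := [0,25344,281736,-3779328,16547640,-40024896,66219864,-76983984,65855976,-39661008,16616952,-3900624,403032,60000]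
def L_stepJm_hi_2_0 : List ℤ := [0,0,66576,-524724,5001756,-17664039,43403118,-80532201,99307728,-76464681,37471926,-12678819,2583360,30000]
def L_stepJm_hi_2_1 : List ℤ := [0,0,66576,-546504,4096016,-13104673,33131725,-57288923,66877594,-52910183,26976181,-8292277,1752708,20000]
def L_stepJm_hi_2_2 : List ℤ := [0,0,66576,-568284,3193324,-8991952,21795212,-32768664,38134768,-28176212,15507276,-4265968,919556,10000]
def L_stepJm_hi_2_3 : List ℤ := [0,0,66576,-590064,2293680,-5333376,8622048,-9990048,8570064,-5281392,2293680,-607392,83904]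
def L_stepJm_hi_3_0 : List ℤ := [0,0,0,0,378480,-1831068,5277288,-10529268,13426464,-10581252,5311944,-1813740,361152]
def L_stepJm_hi_3_1 : List ℤ := [0,0,0,0,252320,-1177620,3681668,-7051052,8652904,-7079932,3698996,-1171844,240768]
def L_stepJm_hi_3_2 : List ℤ := [0,0,0,0,126160,-567264,1954112,-3415136,4366656,-3426688,1959888,-567264,120384]
def L_stepJm_hi_4_0 : List ℤ := [0,0,0,0,17328,-90972,268584,-532836,675792,-532836,268584,-90972,17328]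
def L_stepJm_hi_4_1 : List ℤ := [0,0,0,0,11552,-59204,186276,-356668,436088,-356668,186276,-59204,11552]
def L_stepJm_hi_4_2 : List ℤ := [0,0,0,0,5776,-28880,98192,-173280,219488,-173280,98192,-28880,5776]

theorem stepJm_hi {s w t : ℝ} (hs0 : 0 < s) (hs1 : s < 1) (hw0 : 0 ≤ w) (hw1 : w ≤ 1) (ht : 0 ≤ t) :
    (1-s)*(1+(s*((1-s)^(2:ℕ)+s*w)/((1-s)*(1-s+s^(2:ℕ)))))*Nm (t+3) (t+4) s (s*((1-s)^(2:ℕ)+s*w)/((1-s)*(1-s+s^(2:ℕ)))) * fac ((9/2)+(19/25)*(t+1)) s ≤ Nm (t+4) (t+5) s (s*((1-s)^(2:ℕ)+s*w)/((1-s)*(1-s+s^(2:ℕ)))) * fac ((9/2)+(19/25)*t) s := by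
  have ho : 0 < 1 - s := by linarith
  have hp : 0 < 1 + s := by linarith
  have hd : 0 < 1 - s + s^(2:ℕ) := by positivity
  have h1w : 0 ≤ 1 - w := by linarith
  have n0_0 : 0 ≤ ev L_stepJm_hi_0_0 s := pos_of_check 8 _ (by decide +kernel) hs0.le hs1.le
  have n0_1 : 0 ≤ ev L_stepJm_hi_0_1 s := pos_of_check 8 _ (by decide +kernel) hs0.le hs1.le
  have n0_2 : 0 ≤ ev L_stepJm_hi_0_2 s := pos_of_check 8 _ (by decide +kernel) hs0.le hs1.le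
  have n0_3 : 0 ≤ ev L_stepJm_hi_0_3 s := pos_of_check 8 _ (by decide +kernel) hs0.le hs1.le
  have n1_0 : 0 ≤ ev L_stepJm_hi_1_0 s := pos_of_check 8 _ (by decide +kernel) hs0.le hs1.le
  have n1_1 : 0 ≤ ev L_stepJm_hi_1_1 s := pos_of_check 8 _ (by decide +kernel) hs0.le hs1.le
  have n1_2 : 0 ≤ ev L_stepJm_hi_1_2 s := pos_of_check 8 _ (by decide +kernel) hs0.le hs1.le
  have n1_3 : 0 ≤ ev L_stepJm_hi_1_3 s := pos_of_check 8 _ (by decide +kernel) hs0.le hs1.le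
  have n2_0 : 0 ≤ ev L_stepJm_hi_2_0 s := pos_of_check 8 _ (by decide +kernel) hs0.le hs1.le
  have n2_1 : 0 ≤ ev L_stepJm_hi_2_1 s := pos_of_check 8 _ (by decide +kernel) hs0.le hs1.le
  have n2_2 : 0 ≤ ev L_stepJm_hi_2_2 s := pos_of_check 8 _ (by decide +kernel) hs0.le hs1.le
  have n2_3 : 0 ≤ ev L_stepJm_hi_2_3 s := pos_of_check 8 _ (by decide +kernel) hs0.le hs1.le
  have n3_0 : 0 ≤ ev L_stepJm_hi_3_0 s := pos_of_check 8 _ (by decide +kernel) hs0.le hs1.le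
  have n3_1 : 0 ≤ ev L_stepJm_hi_3_1 s := pos_of_check 8 _ (by decide +kernel) hs0.le hs1.le
  have n3_2 : 0 ≤ ev L_stepJm_hi_3_2 s := pos_of_check 8 _ (by decide +kernel) hs0.le hs1.le
  have n4_0 : 0 ≤ ev L_stepJm_hi_4_0 s := pos_of_check 8 _ (by decide +kernel) hs0.le hs1.le
  have n4_1 : 0 ≤ ev L_stepJm_hi_4_1 s := pos_of_check 8 _ (by decide +kernel) hs0.le hs1.le
  have n4_2 : 0 ≤ ev L_stepJm_hi_4_2 s := pos_of_check 8 _ (by decide +kernel) hs0.le hs1.le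
  have hth : 0 < s+(1/4)*(1-s)^(2:ℕ) := by positivity
  rw [← sub_nonneg]
  refine le_of_le_of_eq (b := (1*t^(0:ℕ)*w^(0:ℕ)*(1-w)^(3:ℕ)*ev L_stepJm_hi_0_0 s
      + 3*t^(0:ℕ)*w^(1:ℕ)*(1-w)^(2:ℕ)*ev L_stepJm_hi_0_1 s
      + 3*t^(0:ℕ)*w^(2:ℕ)*(1-w)^(1:ℕ)*ev L_stepJm_hi_0_2 s
      + 1*t^(0:ℕ)*w^(3:ℕ)*(1-w)^(0:ℕ)*ev L_stepJm_hi_0_3 s
      + 1*t^(1:ℕ)*w^(0:ℕ)*(1-w)^(3:ℕ)*ev L_stepJm_hi_1_0 s
      + 3*t^(1:ℕ)*w^(1:ℕ)*(1-w)^(2:ℕ)*ev L_stepJm_hi_1_1 s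
      + 3*t^(1:ℕ)*w^(2:ℕ)*(1-w)^(1:ℕ)*ev L_stepJm_hi_1_2 s
      + 1*t^(1:ℕ)*w^(3:ℕ)*(1-w)^(0:ℕ)*ev L_stepJm_hi_1_3 s
      + 1*t^(2:ℕ)*w^(0:ℕ)*(1-w)^(3:ℕ)*ev L_stepJm_hi_2_0 s
      + 3*t^(2:ℕ)*w^(1:ℕ)*(1-w)^(2:ℕ)*ev L_stepJm_hi_2_1 s
      + 3*t^(2:ℕ)*w^(2:ℕ)*(1-w)^(1:ℕ)*ev L_stepJm_hi_2_2 s
      + 1*t^(2:ℕ)*w^(3:ℕ)*(1-w)^(0:ℕ)*ev L_stepJm_hi_2_3 s
      + 1*t^(3:ℕ)*w^(0:ℕ)*(1-w)^(3:ℕ)*ev L_stepJm_hi_3_0 s
      + 3*t^(3:ℕ)*w^(1:ℕ)*(1-w)^(2:ℕ)*ev L_stepJm_hi_3_1 s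
      + 3*t^(3:ℕ)*w^(2:ℕ)*(1-w)^(1:ℕ)*ev L_stepJm_hi_3_2 s
      + 1*t^(4:ℕ)*w^(0:ℕ)*(1-w)^(3:ℕ)*ev L_stepJm_hi_4_0 s
      + 3*t^(4:ℕ)*w^(1:ℕ)*(1-w)^(2:ℕ)*ev L_stepJm_hi_4_1 s
      + 3*t^(4:ℕ)*w^(2:ℕ)*(1-w)^(1:ℕ)*ev L_stepJm_hi_4_2 s) / (30000*(1-s)^(1:ℕ)*(1+s)^(3:ℕ)*(1-s+s^(2:ℕ))^(3:ℕ))) ?_ (Eq.symm ?_)
  ·
    generalize ev L_stepJm_hi_0_0 s = PL_stepJm_hi_0_0 at *
    generalize ev L_stepJm_hi_0_1 s = PL_stepJm_hi_0_1 at *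
    generalize ev L_stepJm_hi_0_2 s = PL_stepJm_hi_0_2 at *
    generalize ev L_stepJm_hi_0_3 s = PL_stepJm_hi_0_3 at *
    generalize ev L_stepJm_hi_1_0 s = PL_stepJm_hi_1_0 at *
    generalize ev L_stepJm_hi_1_1 s = PL_stepJm_hi_1_1 at *
    generalize ev L_stepJm_hi_1_2 s = PL_stepJm_hi_1_2 at *
    generalize ev L_stepJm_hi_1_3 s = PL_stepJm_hi_1_3 at *
    generalize ev L_stepJm_hi_2_0 s = PL_stepJm_hi_2_0 at *
    generalize ev L_stepJm_hi_2_1 s = PL_stepJm_hi_2_1 at *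
    generalize ev L_stepJm_hi_2_2 s = PL_stepJm_hi_2_2 at *
    generalize ev L_stepJm_hi_2_3 s = PL_stepJm_hi_2_3 at *
    generalize ev L_stepJm_hi_3_0 s = PL_stepJm_hi_3_0 at *
    generalize ev L_stepJm_hi_3_1 s = PL_stepJm_hi_3_1 at *
    generalize ev L_stepJm_hi_3_2 s = PL_stepJm_hi_3_2 at *
    generalize ev L_stepJm_hi_4_0 s = PL_stepJm_hi_4_0 at *
    generalize ev L_stepJm_hi_4_1 s = PL_stepJm_hi_4_1 at *
    generalize ev L_stepJm_hi_4_2 s = PL_stepJm_hi_4_2 at *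
    positivity
  simp only [Np, Nm, Nr, NA, fac]
  push_cast
  generalize hgth : s+(1/4)*(1-s)^(2:ℕ) = th at *
  field_simp
  simp only [ev, L_stepJm_hi_0_0, L_stepJm_hi_0_1, L_stepJm_hi_0_2, L_stepJm_hi_0_3, L_stepJm_hi_1_0, L_stepJm_hi_1_1, L_stepJm_hi_1_2, L_stepJm_hi_1_3, L_stepJm_hi_2_0, L_stepJm_hi_2_1, L_stepJm_hi_2_2, L_stepJm_hi_2_3, L_stepJm_hi_3_0, L_stepJm_hi_3_1, L_stepJm_hi_3_2, L_stepJm_hi_4_0, L_stepJm_hi_4_1, L_stepJm_hi_4_2]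
  push_cast
  rw [← hgth]
  ring


end Pool.Agent.H59
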