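import Pool.Agent.H59.Bern
import Pool.Agent.H59.NDefs
set_option autoImplicit false
set_option maxRecDepth 10000
set_option maxHeartbeats 4000000
namespace Pool.Agent.H59
open Bern

def L_stepJm_lo_0_0 : List ℤ := [0,17472,1802304,-2803320,-10808520,64515912,-155851056,243086832,-260903472,200768328,-104923464,34979208,-4780224,-240000]
def L_stepJm_lo_0_1 : List ℤ := [0,4972,1210799,-2338973,2183545,14878243,-51262422,98781742,-119834887,101820459,-57665055,20605893,-3364316,-160000]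
def L_stepJm_lo_0_2 : List ℤ := [0,14972,733215,-1879626,15843051,-35712209,51649567,-42819999,21119777,191741,-8388238,7185361,-2957612,-120000]
def L_stepJm_lo_0_3 : List ℤ := [0,47472,249552,-4385391,33610110,-75294996,140324463,-199959063,180201192,-91557378,30946539,-8722500,-600000]
def L_stepJm_lo_1_0 : List ℤ := [0,25344,978840,1223736,-23350272,87922728,-188291256,273972192,-283728888,212093160,-109959360,36454392,-5519016,-180000]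
def L_stepJm_lo_1_1 : List ℤ := [0,20344,699330,181546,-8648518,37693322,-85692336,132290780,-143711282,112311714,-60873622,21017990,-3537668,-110000]
def L_stepJm_lo_1_2 : List ℤ := [0,20344,490410,-387292,5486246,-12578626,16388738,-9283006,-2284210,10494234,-11138268,7104186,-2601156,-70000]
def L_stepJm_lo_1_3 : List ℤ := [0,25344,292080,-2922258,21733500,-53075196,107834046,-165626046,155429208,-83241360,29428782,-7966500,-270000]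
def L_stepJm_lo_2_0 : List ℤ := [0,0,148560,1560396,-11763864,37816296,-75957252,106245744,-107509776,78994212,-40700040,13502136,-2167788,-30000]
def L_stepJm_lo_2_1 : List ℤ := [0,0,113184,853983,-6102645,19670445,-39639005,56110922,-57637686,43104377,-22719869,7720989,-1318571,-17500]
def L_stepJm_lo_2_2 : List ℤ := [0,0,88356,425812,-921498,1710328,-3231984,5423898,-6926418,6643776,-4816828,2603834,-850652,-10000]
def L_stepJm_lo_2_3 : List ℤ := [0,0,66576,-458148,4543608,-13120431,30282687,-50249514,49058214,-27406467,10065459,-2613360,-30000]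
def L_stepJm_lo_3_0 : List ℤ := [0,0,0,343824,-2062944,6188832,-12033840,16503552,-16503552,12033840,-6188832,2062944,-343824]
def L_stepJm_lo_3_1 : List ℤ := [0,0,0,209228,-1183396,3469780,-6661476,9094008,-9105560,6678804,-3475556,1177620,-203452]
def L_stepJm_lo_3_2 : List ℤ := [0,0,0,126160,-401128,796480,-1249136,1547208,-1552984,1254912,-802256,401128,-120384]
def L_stepJm_lo_3_3 : List ℤ := [0,0,0,0,378480,-1452588,3824700,-6704568,6721896,-3859356,1452588,-361152]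
def L_stepJm_lo_4_0 : List ℤ := [0,0,0,17328,-103968,311904,-606480,831744,-831744,606480,-311904,103968,-17328]
def L_stepJm_lo_4_1 : List ℤ := [0,0,0,10108,-59204,174724,-336452,459192,-459192,336452,-174724,59204,-10108]
def L_stepJm_lo_4_2 : List ℤ := [0,0,0,5776,-20216,40432,-63536,77976,-77976,63536,-40432,20216,-5776]
def L_stepJm_lo_4_3 : List ℤ := [0,0,0,0,17328,-73644,194940,-337896,337896,-194940,73644,-17328]

theorem stepJm_lo {s w t : ℝ} (hs0 : 0 < s) (hs1 : s < 1) (hw0 : 0 ≤ w) (hw1 : w ≤ 1) (ht : 0 ≤ t) :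
    (1-s)*(1+(s*(1-s)/(1-s+s^(2:ℕ))*w))*Nm (t+3) (t+4) s (s*(1-s)/(1-s+s^(2:ℕ))*w) * fac ((9/2)+(19/25)*(t+1)) s ≤ Nm (t+4) (t+5) s (s*(1-s)/(1-s+s^(2:ℕ))*w) * fac ((9/2)+(19/25)*t) s := by
  have ho : 0 < 1 - s := by linarith
  have hp : 0 < 1 + s := by linarith
  have hd : 0 < 1 - s + s^(2:ℕ) := by positivity
  have h1w : 0 ≤ 1 - w := by linarith
  have n0_0 : 0 ≤ ev L_stepJm_lo_0_0 s := pos_of_check 8 _ (by decide +kernel) hs0.le hs1.le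
  have n0_1 : 0 ≤ ev L_stepJm_lo_0_1 s := pos_of_check 8 _ (by decide +kernel) hs0.le hs1.le
  have n0_2 : 0 ≤ ev L_stepJm_lo_0_2 s := pos_of_check 8 _ (by decide +kernel) hs0.le hs1.le
  have n0_3 : 0 ≤ ev L_stepJm_lo_0_3 s := pos_of_check 8 _ (by decide +kernel) hs0.le hs1.le
  have n1_0 : 0 ≤ ev L_stepJm_lo_1_0 s := pos_of_check 8 _ (by decide +kernel) hs0.le hs1.le
  have n1_1 : 0 ≤ ev L_stepJm_lo_1_1 s := pos_of_check 8 _ (by decide +kernel) hs0.le hs1.le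
  have n1_2 : 0 ≤ ev L_stepJm_lo_1_2 s := pos_of_check 8 _ (by decide +kernel) hs0.le hs1.le
  have n1_3 : 0 ≤ ev L_stepJm_lo_1_3 s := pos_of_check 8 _ (by decide +kernel) hs0.le hs1.le
  have n2_0 : 0 ≤ ev L_stepJm_lo_2_0 s := pos_of_check 8 _ (by decide +kernel) hs0.le hs1.le
  have n2_1 : 0 ≤ ev L_stepJm_lo_2_1 s := pos_of_check 8 _ (by decide +kernel) hs0.le hs1.le
  have n2_2 : 0 ≤ ev L_stepJm_lo_2_2 s := pos_of_check 8 _ (by decide +kernel) hs0.le hs1.le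
  have n2_3 : 0 ≤ ev L_stepJm_lo_2_3 s := pos_of_check 8 _ (by decide +kernel) hs0.le hs1.le
  have n3_0 : 0 ≤ ev L_stepJm_lo_3_0 s := pos_of_check 8 _ (by decide +kernel) hs0.le hs1.le
  have n3_1 : 0 ≤ ev L_stepJm_lo_3_1 s := pos_of_check 8 _ (by decide +kernel) hs0.le hs1.le
  have n3_2 : 0 ≤ ev L_stepJm_lo_3_2 s := pos_of_check 8 _ (by decide +kernel) hs0.le hs1.le
  have n3_3 : 0 ≤ ev L_stepJm_lo_3_3 s := pos_of_check 8 _ (by decide +kernel) hs0.le hs1.le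
  have n4_0 : 0 ≤ ev L_stepJm_lo_4_0 s := pos_of_check 8 _ (by decide +kernel) hs0.le hs1.le
  have n4_1 : 0 ≤ ev L_stepJm_lo_4_1 s := pos_of_check 8 _ (by decide +kernel) hs0.le hs1.le
  have n4_2 : 0 ≤ ev L_stepJm_lo_4_2 s := pos_of_check 8 _ (by decide +kernel) hs0.le hs1.le
  have n4_3 : 0 ≤ ev L_stepJm_lo_4_3 s := pos_of_check 8 _ (by decide +kernel) hs0.le hs1.le
  have hth : 0 < s+(1/4)*(1-s)^(2:ℕ) := by positivity
  rw [← sub_nonneg]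
  refine le_of_le_of_eq (b := (1*t^(0:ℕ)*w^(0:ℕ)*(1-w)^(3:ℕ)*ev L_stepJm_lo_0_0 s
      + 3*t^(0:ℕ)*w^(1:ℕ)*(1-w)^(2:ℕ)*ev L_stepJm_lo_0_1 s
      + 3*t^(0:ℕ)*w^(2:ℕ)*(1-w)^(1:ℕ)*ev L_stepJm_lo_0_2 s
      + 1*t^(0:ℕ)*w^(3:ℕ)*(1-w)^(0:ℕ)*ev L_stepJm_lo_0_3 s
      + 1*t^(1:ℕ)*w^(0:ℕ)*(1-w)^(3:ℕ)*ev L_stepJm_lo_1_0 s
      + 3*t^(1:ℕ)*w^(1:ℕ)*(1-w)^(2:ℕ)*ev L_stepJm_lo_1_1 s
      + 3*t^(1:ℕ)*w^(2:ℕ)*(1-w)^(1:ℕ)*ev L_stepJm_lo_1_2 s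
      + 1*t^(1:ℕ)*w^(3:ℕ)*(1-w)^(0:ℕ)*ev L_stepJm_lo_1_3 s
      + 1*t^(2:ℕ)*w^(0:ℕ)*(1-w)^(3:ℕ)*ev L_stepJm_lo_2_0 s
      + 3*t^(2:ℕ)*w^(1:ℕ)*(1-w)^(2:ℕ)*ev L_stepJm_lo_2_1 s
      + 3*t^(2:ℕ)*w^(2:ℕ)*(1-w)^(1:ℕ)*ev L_stepJm_lo_2_2 s
      + 1*t^(2:ℕ)*w^(3:ℕ)*(1-w)^(0:ℕ)*ev L_stepJm_lo_2_3 s
      + 1*t^(3:ℕ)*w^(0:ℕ)*(1-w)^(3:ℕ)*ev L_stepJm_lo_3_0 s
      + 3*t^(3:ℕ)*w^(1:ℕ)*(1-w)^(2:ℕ)*ev L_stepJm_lo_3_1 s
      + 3*t^(3:ℕ)*w^(2:ℕ)*(1-w)^(1:ℕ)*ev L_stepJm_lo_3_2 s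
      + 1*t^(3:ℕ)*w^(3:ℕ)*(1-w)^(0:ℕ)*ev L_stepJm_lo_3_3 s
      + 1*t^(4:ℕ)*w^(0:ℕ)*(1-w)^(3:ℕ)*ev L_stepJm_lo_4_0 s
      + 3*t^(4:ℕ)*w^(1:ℕ)*(1-w)^(2:ℕ)*ev L_stepJm_lo_4_1 s
      + 3*t^(4:ℕ)*w^(2:ℕ)*(1-w)^(1:ℕ)*ev L_stepJm_lo_4_2 s
      + 1*t^(4:ℕ)*w^(3:ℕ)*(1-w)^(0:ℕ)*ev L_stepJm_lo_4_3 s) / (30000*(1+s)^(3:ℕ)*(1-s+s^(2:ℕ))^(3:ℕ))) ?_ (Eq.symm ?_)
  ·
    generalize ev L_stepJm_lo_0_0 s = PL_stepJm_lo_0_0 at *
    generalize ev L_stepJm_lo_0_1 s = PL_stepJm_lo_0_1 at *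
    generalize ev L_stepJm_lo_0_2 s = PL_stepJm_lo_0_2 at *
    generalize ev L_stepJm_lo_0_3 s = PL_stepJm_lo_0_3 at *
    generalize ev L_stepJm_lo_1_0 s = PL_stepJm_lo_1_0 at *
    generalize ev L_stepJm_lo_1_1 s = PL_stepJm_lo_1_1 at *
    generalize ev L_stepJm_lo_1_2 s = PL_stepJm_lo_1_2 at *
    generalize ev L_stepJm_lo_1_3 s = PL_stepJm_lo_1_3 at *
    generalize ev L_stepJm_lo_2_0 s = PL_stepJm_lo_2_0 at *
    generalize ev L_stepJm_lo_2_1 s = PL_stepJm_lo_2_1 at *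
    generalize ev L_stepJm_lo_2_2 s = PL_stepJm_lo_2_2 at *
    generalize ev L_stepJm_lo_2_3 s = PL_stepJm_lo_2_3 at *
    generalize ev L_stepJm_lo_3_0 s = PL_stepJm_lo_3_0 at *
    generalize ev L_stepJm_lo_3_1 s = PL_stepJm_lo_3_1 at *
    generalize ev L_stepJm_lo_3_2 s = PL_stepJm_lo_3_2 at *
    generalize ev L_stepJm_lo_3_3 s = PL_stepJm_lo_3_3 at *
    generalize ev L_stepJm_lo_4_0 s = PL_stepJm_lo_4_0 at *
    generalize ev L_stepJm_lo_4_1 s = PL_stepJm_lo_4_1 at *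
    generalize ev L_stepJm_lo_4_2 s = PL_stepJm_lo_4_2 at *
    generalize ev L_stepJm_lo_4_3 s = PL_stepJm_lo_4_3 at *
    positivity
  simp only [Np, Nm, Nr, NA, fac]
  push_cast
  generalize hgth : s+(1/4)*(1-s)^(2:ℕ) = th at *
  field_simp
  simp only [ev, L_stepJm_lo_0_0, L_stepJm_lo_0_1, L_stepJm_lo_0_2, L_stepJm_lo_0_3, L_stepJm_lo_1_0, L_stepJm_lo_1_1, L_stepJm_lo_1_2, L_stepJm_lo_1_3, L_stepJm_lo_2_0, L_stepJm_lo_2_1, L_stepJm_lo_2_2, L_stepJm_lo_2_3, L_stepJm_lo_3_0, L_stepJm_lo_3_1, L_stepJm_lo_3_2, L_stepJm_lo_3_3, L_stepJm_lo_4_0, L_stepJm_lo_4_1, L_stepJm_lo_4_2, L_stepJm_lo_4_3]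
  push_cast
  rw [← hgth]
  ring


end Pool.Agent.H59
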