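import Pool.Agent.H59.Bern
import Pool.Agent.H59.NDefs
set_option autoImplicit false
set_option maxRecDepth 10000
set_option maxHeartbeats 4000000
namespace Pool.Agent.H59
open Bern

def L_stepJp_hi_0_0 : List ℤ := [0,47472,587136,-4779831,35675109,-112214994,221489907,-338524086,372385311,-265983234,126583749,-43749039,7882500,600000]
def L_stepJp_hi_0_1 : List ℤ := [0,47472,619636,-5230994,33519941,-96024807,192510435,-277285142,281908599,-204285459,97214165,-28938734,5464888,480000]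
def L_stepJp_hi_0_2 : List ℤ := [0,47472,652136,-5659657,31426194,-82602969,161065114,-208096428,205753302,-135555697,66132594,-16239337,2967276,360000]
def L_stepJp_hi_0_3 : List ℤ := [0,47472,684636,-6065820,29393868,-72069480,123593832,-144118392,124478748,-72954396,29778924,-5770848,389664,240000]
def L_stepJp_hi_1_0 : List ℤ := [0,25344,336048,-3041058,23630862,-77346672,164714706,-271990980,315771366,-235098384,115164150,-40071882,7636500,270000]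
def L_stepJp_hi_1_1 : List ℤ := [0,25344,341048,-3234388,21186438,-62874650,135411158,-209301476,225802150,-171566246,85204566,-26449288,5255344,200000]
def L_stepJp_hi_1_2 : List ℤ := [0,25344,346048,-3422718,18767604,-50286986,103608224,-140942024,147840812,-102890054,53210900,-14291338,2844188,130000]
def L_stepJp_hi_1_3 : List ℤ := [0,25344,351048,-3606048,16374360,-39643680,66566424,-77330544,66410472,-39487728,16443672,-3658032,403032,60000]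
def L_stepJp_hi_2_0 : List ℤ := [0,0,66576,-490068,4897788,-18213063,44090766,-80121801,98209680,-75811689,37986294,-13227843,2583360,30000]
def L_stepJp_hi_2_1 : List ℤ := [0,0,66576,-511848,4015152,-13459137,33407149,-57244539,66168666,-52669415,27101429,-8646741,1752708,20000]
def L_stepJp_hi_2_2 : List ℤ := [0,0,66576,-533628,3135564,-9151856,21864524,-32884184,37814960,-28141556,15449516,-4425872,919556,10000]
def L_stepJp_hi_2_3 : List ℤ := [0,0,66576,-555408,2259024,-5298720,8691360,-10059360,8639376,-5246736,2259024,-572736,83904]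
def L_stepJp_hi_3_0 : List ℤ := [0,0,0,0,378480,-1865724,5311944,-10494612,13357152,-10546596,5346600,-1848396,361152]
def L_stepJp_hi_3_1 : List ℤ := [0,0,0,0,252320,-1200724,3693220,-7039500,8606696,-7068380,3710548,-1194948,240768]
def L_stepJp_hi_3_2 : List ℤ := [0,0,0,0,126160,-578816,1954112,-3415136,4343552,-3426688,1959888,-578816,120384]
def L_stepJp_hi_4_0 : List ℤ := [0,0,0,0,17328,-90972,268584,-532836,675792,-532836,268584,-90972,17328]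
def L_stepJp_hi_4_1 : List ℤ := [0,0,0,0,11552,-59204,186276,-356668,436088,-356668,186276,-59204,11552]
def L_stepJp_hi_4_2 : List ℤ := [0,0,0,0,5776,-28880,98192,-173280,219488,-173280,98192,-28880,5776]

theorem stepJp_hi {s w t : ℝ} (hs0 : 0 < s) (hs1 : s < 1) (hw0 : 0 ≤ w) (hw1 : w ≤ 1) (ht : 0 ≤ t) :
    (1-s)*(1+(s*((1-s)^(2:ℕ)+s*w)/((1-s)*(1-s+s^(2:ℕ)))))*Np (t+3) (t+4) s (s*((1-s)^(2:ℕ)+s*w)/((1-s)*(1-s+s^(2:ℕ)))) * fac ((9/2)+(19/25)*(t+1)) s ≤ Np (t+4) (t+5) s (s*((1-s)^(2:ℕ)+s*w)/((1-s)*(1-s+s^(2:ℕ)))) * fac ((9/2)+(19/25)*t) s := by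
  have ho : 0 < 1 - s := by linarith
  have hp : 0 < 1 + s := by linarith
  have hd : 0 < 1 - s + s^(2:ℕ) := by positivity
  have h1w : 0 ≤ 1 - w := by linarith
  have n0_0 : 0 ≤ ev L_stepJp_hi_0_0 s := pos_of_check 8 _ (by decide +kernel) hs0.le hs1.le
  have n0_1 : 0 ≤ ev L_stepJp_hi_0_1 s := pos_of_check 8 _ (by decide +kernel) hs0.le hs1.le
  have n0_2 : 0 ≤ ev L_stepJp_hi_0_2 s := pos_of_check 8 _ (by decide +kernel) hs0.le hs1.le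
  have n0_3 : 0 ≤ ev L_stepJp_hi_0_3 s := pos_of_check 8 _ (by decide +kernel) hs0.le hs1.le
  have n1_0 : 0 ≤ ev L_stepJp_hi_1_0 s := pos_of_check 8 _ (by decide +kernel) hs0.le hs1.le
  have n1_1 : 0 ≤ ev L_stepJp_hi_1_1 s := pos_of_check 8 _ (by decide +kernel) hs0.le hs1.le
  have n1_2 : 0 ≤ ev L_stepJp_hi_1_2 s := pos_of_check 8 _ (by decide +kernel) hs0.le hs1.le
  have n1_3 : 0 ≤ ev L_stepJp_hi_1_3 s := pos_of_check 8 _ (by decide +kernel) hs0.le hs1.le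
  have n2_0 : 0 ≤ ev L_stepJp_hi_2_0 s := pos_of_check 8 _ (by decide +kernel) hs0.le hs1.le
  have n2_1 : 0 ≤ ev L_stepJp_hi_2_1 s := pos_of_check 8 _ (by decide +kernel) hs0.le hs1.le
  have n2_2 : 0 ≤ ev L_stepJp_hi_2_2 s := pos_of_check 8 _ (by decide +kernel) hs0.le hs1.le
  have n2_3 : 0 ≤ ev L_stepJp_hi_2_3 s := pos_of_check 8 _ (by decide +kernel) hs0.le hs1.le
  have n3_0 : 0 ≤ ev L_stepJp_hi_3_0 s := pos_of_check 8 _ (by decide +kernel) hs0.le hs1.le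
  have n3_1 : 0 ≤ ev L_stepJp_hi_3_1 s := pos_of_check 8 _ (by decide +kernel) hs0.le hs1.le
  have n3_2 : 0 ≤ ev L_stepJp_hi_3_2 s := pos_of_check 8 _ (by decide +kernel) hs0.le hs1.le
  have n4_0 : 0 ≤ ev L_stepJp_hi_4_0 s := pos_of_check 8 _ (by decide +kernel) hs0.le hs1.le
  have n4_1 : 0 ≤ ev L_stepJp_hi_4_1 s := pos_of_check 8 _ (by decide +kernel) hs0.le hs1.le
  have n4_2 : 0 ≤ ev L_stepJp_hi_4_2 s := pos_of_check 8 _ (by decide +kernel) hs0.le hs1.le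
  have hth : 0 < s+(1/4)*(1-s)^(2:ℕ) := by positivity
  rw [← sub_nonneg]
  refine le_of_le_of_eq (b := (1*t^(0:ℕ)*w^(0:ℕ)*(1-w)^(3:ℕ)*ev L_stepJp_hi_0_0 s
      + 3*t^(0:ℕ)*w^(1:ℕ)*(1-w)^(2:ℕ)*ev L_stepJp_hi_0_1 s
      + 3*t^(0:ℕ)*w^(2:ℕ)*(1-w)^(1:ℕ)*ev L_stepJp_hi_0_2 s
      + 1*t^(0:ℕ)*w^(3:ℕ)*(1-w)^(0:ℕ)*ev L_stepJp_hi_0_3 s
      + 1*t^(1:ℕ)*w^(0:ℕ)*(1-w)^(3:ℕ)*ev L_stepJp_hi_1_0 s
      + 3*t^(1:ℕ)*w^(1:ℕ)*(1-w)^(2:ℕ)*ev L_stepJp_hi_1_1 s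
      + 3*t^(1:ℕ)*w^(2:ℕ)*(1-w)^(1:ℕ)*ev L_stepJp_hi_1_2 s
      + 1*t^(1:ℕ)*w^(3:ℕ)*(1-w)^(0:ℕ)*ev L_stepJp_hi_1_3 s
      + 1*t^(2:ℕ)*w^(0:ℕ)*(1-w)^(3:ℕ)*ev L_stepJp_hi_2_0 s
      + 3*t^(2:ℕ)*w^(1:ℕ)*(1-w)^(2:ℕ)*ev L_stepJp_hi_2_1 s
      + 3*t^(2:ℕ)*w^(2:ℕ)*(1-w)^(1:ℕ)*ev L_stepJp_hi_2_2 s
      + 1*t^(2:ℕ)*w^(3:ℕ)*(1-w)^(0:ℕ)*ev L_stepJp_hi_2_3 s
      + 1*t^(3:ℕ)*w^(0:ℕ)*(1-w)^(3:ℕ)*ev L_stepJp_hi_3_0 s
      + 3*t^(3:ℕ)*w^(1:ℕ)*(1-w)^(2:ℕ)*ev L_stepJp_hi_3_1 s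
      + 3*t^(3:ℕ)*w^(2:ℕ)*(1-w)^(1:ℕ)*ev L_stepJp_hi_3_2 s
      + 1*t^(4:ℕ)*w^(0:ℕ)*(1-w)^(3:ℕ)*ev L_stepJp_hi_4_0 s
      + 3*t^(4:ℕ)*w^(1:ℕ)*(1-w)^(2:ℕ)*ev L_stepJp_hi_4_1 s
      + 3*t^(4:ℕ)*w^(2:ℕ)*(1-w)^(1:ℕ)*ev L_stepJp_hi_4_2 s) / (30000*(1-s)^(2:ℕ)*(1+s)^(2:ℕ)*(1-s+s^(2:ℕ))^(3:ℕ))) ?_ (Eq.symm ?_)
  ·
    generalize ev L_stepJp_hi_0_0 s = PL_stepJp_hi_0_0 at *
    generalize ev L_stepJp_hi_0_1 s = PL_stepJp_hi_0_1 at *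
    generalize ev L_stepJp_hi_0_2 s = PL_stepJp_hi_0_2 at *
    generalize ev L_stepJp_hi_0_3 s = PL_stepJp_hi_0_3 at *
    generalize ev L_stepJp_hi_1_0 s = PL_stepJp_hi_1_0 at *
    generalize ev L_stepJp_hi_1_1 s = PL_stepJp_hi_1_1 at *
    generalize ev L_stepJp_hi_1_2 s = PL_stepJp_hi_1_2 at *
    generalize ev L_stepJp_hi_1_3 s = PL_stepJp_hi_1_3 at *
    generalize ev L_stepJp_hi_2_0 s = PL_stepJp_hi_2_0 at *
    generalize ev L_stepJp_hi_2_1 s = PL_stepJp_hi_2_1 at *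
    generalize ev L_stepJp_hi_2_2 s = PL_stepJp_hi_2_2 at *
    generalize ev L_stepJp_hi_2_3 s = PL_stepJp_hi_2_3 at *
    generalize ev L_stepJp_hi_3_0 s = PL_stepJp_hi_3_0 at *
    generalize ev L_stepJp_hi_3_1 s = PL_stepJp_hi_3_1 at *
    generalize ev L_stepJp_hi_3_2 s = PL_stepJp_hi_3_2 at *
    generalize ev L_stepJp_hi_4_0 s = PL_stepJp_hi_4_0 at *
    generalize ev L_stepJp_hi_4_1 s = PL_stepJp_hi_4_1 at *
    generalize ev L_stepJp_hi_4_2 s = PL_stepJp_hi_4_2 at *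
    positivity
  simp only [Np, Nm, Nr, NA, fac]
  push_cast
  generalize hgth : s+(1/4)*(1-s)^(2:ℕ) = th at *
  field_simp
  simp only [ev, L_stepJp_hi_0_0, L_stepJp_hi_0_1, L_stepJp_hi_0_2, L_stepJp_hi_0_3, L_stepJp_hi_1_0, L_stepJp_hi_1_1, L_stepJp_hi_1_2, L_stepJp_hi_1_3, L_stepJp_hi_2_0, L_stepJp_hi_2_1, L_stepJp_hi_2_2, L_stepJp_hi_2_3, L_stepJp_hi_3_0, L_stepJp_hi_3_1, L_stepJp_hi_3_2, L_stepJp_hi_4_0, L_stepJp_hi_4_1, L_stepJp_hi_4_2]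
  push_cast
  rw [← hgth]
  ring


end Pool.Agent.H59
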