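import Pool.Agent.H59.Bern
import Pool.Agent.H59.NDefs
set_option autoImplicit false
set_option maxRecDepth 10000
set_option maxHeartbeats 4000000
namespace Pool.Agent.H59
open Bern

def L_stepJp_lo_0_0 : List ℤ := [0,17472,2204832,-2523600,-11467008,52338960,-107422320,139394736,-124083792,74639424,-28418928,5080224,240000]
def L_stepJp_lo_0_1 : List ℤ := [0,4972,1600827,-2021498,-1181361,15453698,-38335428,57759498,-59716925,40900182,-18108281,3484316,160000]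
def L_stepJp_lo_0_2 : List ℤ := [0,14972,1133243,-1307975,11876556,-23638893,26947490,-19056141,3435396,3185545,-5727805,3017612,120000]
def L_stepJp_lo_0_3 : List ℤ := [0,47472,682080,-3463143,28066743,-52618365,88186434,-109532853,65133171,-26184039,9082500,600000]
def L_stepJp_lo_1_0 : List ℤ := [0,25344,1073496,1748208,-21053040,66528600,-122860704,152209536,-132409464,79134672,-30275664,5699016,180000]
def L_stepJp_lo_1_1 : List ℤ := [0,20344,788986,665380,-8990858,29654248,-56628392,73646948,-68368702,43677860,-18203482,3627668,110000]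
def L_stepJp_lo_1_2 : List ℤ := [0,20344,580066,151494,4186244,-8433662,7892516,-3120514,-4522252,5970702,-5446094,2651156,70000]
def L_stepJp_lo_1_3 : List ℤ := [0,25344,386736,-2292930,18658266,-37737210,70582020,-93089730,59009886,-23988882,8176500,270000]
def L_stepJp_lo_2_0 : List ℤ := [0,0,148560,1674300,-10054908,27726732,-48299832,58015224,-49563864,29395692,-11269692,2197788,30000]
def L_stepJp_lo_2_1 : List ℤ := [0,0,113184,955615,-5353142,14500311,-25161798,30536900,-26734770,16358055,-6567926,1336071,17500]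
def L_stepJp_lo_2_2 : List ℤ := [0,0,88356,525720,-636546,1062230,-2146650,3001824,-3741586,2913742,-1937742,860652,10000]
def L_stepJp_lo_2_3 : List ℤ := [0,0,66576,-356916,4117380,-9621387,20730612,-29039190,19400688,-7971123,2643360,30000]
def L_stepJp_lo_3_0 : List ℤ := [0,0,0,343824,-1719120,4469712,-7564128,8939424,-7564128,4469712,-1719120,343824]
def L_stepJp_lo_3_1 : List ℤ := [0,0,0,209228,-985720,2495612,-4165864,4905040,-4177416,2501388,-985720,203452]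
def L_stepJp_lo_3_2 : List ℤ := [0,0,0,126160,-286520,509960,-739176,796480,-744952,509960,-292296,120384]
def L_stepJp_lo_3_3 : List ℤ := [0,0,0,0,378480,-1108764,2715936,-3953976,2733264,-1126092,361152]
def L_stepJp_lo_4_0 : List ℤ := [0,0,0,17328,-86640,225264,-381216,450528,-381216,225264,-86640,17328]
def L_stepJp_lo_4_1 : List ℤ := [0,0,0,10108,-49096,125628,-210824,248368,-210824,125628,-49096,10108]
def L_stepJp_lo_4_2 : List ℤ := [0,0,0,5776,-14440,25992,-37544,40432,-37544,25992,-14440,5776]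
def L_stepJp_lo_4_3 : List ℤ := [0,0,0,0,17328,-56316,138624,-199272,138624,-56316,17328]

theorem stepJp_lo {s w t : ℝ} (hs0 : 0 < s) (hs1 : s < 1) (hw0 : 0 ≤ w) (hw1 : w ≤ 1) (ht : 0 ≤ t) :
    (1-s)*(1+(s*(1-s)/(1-s+s^(2:ℕ))*w))*Np (t+3) (t+4) s (s*(1-s)/(1-s+s^(2:ℕ))*w) * fac ((9/2)+(19/25)*(t+1)) s ≤ Np (t+4) (t+5) s (s*(1-s)/(1-s+s^(2:ℕ))*w) * fac ((9/2)+(19/25)*t) s := by
  have ho : 0 < 1 - s := by linarith
  have hp : 0 < 1 + s := by linarith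
  have hd : 0 < 1 - s + s^(2:ℕ) := by positivity
  have h1w : 0 ≤ 1 - w := by linarith
  have n0_0 : 0 ≤ ev L_stepJp_lo_0_0 s := pos_of_check 8 _ (by decide +kernel) hs0.le hs1.le
  have n0_1 : 0 ≤ ev L_stepJp_lo_0_1 s := pos_of_check 8 _ (by decide +kernel) hs0.le hs1.le
  have n0_2 : 0 ≤ ev L_stepJp_lo_0_2 s := pos_of_check 8 _ (by decide +kernel) hs0.le hs1.le
  have n0_3 : 0 ≤ ev L_stepJp_lo_0_3 s := pos_of_check 8 _ (by decide +kernel) hs0.le hs1.le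
  have n1_0 : 0 ≤ ev L_stepJp_lo_1_0 s := pos_of_check 8 _ (by decide +kernel) hs0.le hs1.le
  have n1_1 : 0 ≤ ev L_stepJp_lo_1_1 s := pos_of_check 8 _ (by decide +kernel) hs0.le hs1.le
  have n1_2 : 0 ≤ ev L_stepJp_lo_1_2 s := pos_of_check 8 _ (by decide +kernel) hs0.le hs1.le
  have n1_3 : 0 ≤ ev L_stepJp_lo_1_3 s := pos_of_check 8 _ (by decide +kernel) hs0.le hs1.le
  have n2_0 : 0 ≤ ev L_stepJp_lo_2_0 s := pos_of_check 8 _ (by decide +kernel) hs0.le hs1.le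
  have n2_1 : 0 ≤ ev L_stepJp_lo_2_1 s := pos_of_check 8 _ (by decide +kernel) hs0.le hs1.le
  have n2_2 : 0 ≤ ev L_stepJp_lo_2_2 s := pos_of_check 8 _ (by decide +kernel) hs0.le hs1.le
  have n2_3 : 0 ≤ ev L_stepJp_lo_2_3 s := pos_of_check 8 _ (by decide +kernel) hs0.le hs1.le
  have n3_0 : 0 ≤ ev L_stepJp_lo_3_0 s := pos_of_check 8 _ (by decide +kernel) hs0.le hs1.le
  have n3_1 : 0 ≤ ev L_stepJp_lo_3_1 s := pos_of_check 8 _ (by decide +kernel) hs0.le hs1.le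
  have n3_2 : 0 ≤ ev L_stepJp_lo_3_2 s := pos_of_check 8 _ (by decide +kernel) hs0.le hs1.le
  have n3_3 : 0 ≤ ev L_stepJp_lo_3_3 s := pos_of_check 8 _ (by decide +kernel) hs0.le hs1.le
  have n4_0 : 0 ≤ ev L_stepJp_lo_4_0 s := pos_of_check 8 _ (by decide +kernel) hs0.le hs1.le
  have n4_1 : 0 ≤ ev L_stepJp_lo_4_1 s := pos_of_check 8 _ (by decide +kernel) hs0.le hs1.le
  have n4_2 : 0 ≤ ev L_stepJp_lo_4_2 s := pos_of_check 8 _ (by decide +kernel) hs0.le hs1.le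
  have n4_3 : 0 ≤ ev L_stepJp_lo_4_3 s := pos_of_check 8 _ (by decide +kernel) hs0.le hs1.le
  have hth : 0 < s+(1/4)*(1-s)^(2:ℕ) := by positivity
  rw [← sub_nonneg]
  refine le_of_le_of_eq (b := (1*t^(0:ℕ)*w^(0:ℕ)*(1-w)^(3:ℕ)*ev L_stepJp_lo_0_0 s
      + 3*t^(0:ℕ)*w^(1:ℕ)*(1-w)^(2:ℕ)*ev L_stepJp_lo_0_1 s
      + 3*t^(0:ℕ)*w^(2:ℕ)*(1-w)^(1:ℕ)*ev L_stepJp_lo_0_2 s
      + 1*t^(0:ℕ)*w^(3:ℕ)*(1-w)^(0:ℕ)*ev L_stepJp_lo_0_3 s
      + 1*t^(1:ℕ)*w^(0:ℕ)*(1-w)^(3:ℕ)*ev L_stepJp_lo_1_0 s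
      + 3*t^(1:ℕ)*w^(1:ℕ)*(1-w)^(2:ℕ)*ev L_stepJp_lo_1_1 s
      + 3*t^(1:ℕ)*w^(2:ℕ)*(1-w)^(1:ℕ)*ev L_stepJp_lo_1_2 s
      + 1*t^(1:ℕ)*w^(3:ℕ)*(1-w)^(0:ℕ)*ev L_stepJp_lo_1_3 s
      + 1*t^(2:ℕ)*w^(0:ℕ)*(1-w)^(3:ℕ)*ev L_stepJp_lo_2_0 s
      + 3*t^(2:ℕ)*w^(1:ℕ)*(1-w)^(2:ℕ)*ev L_stepJp_lo_2_1 s
      + 3*t^(2:ℕ)*w^(2:ℕ)*(1-w)^(1:ℕ)*ev L_stepJp_lo_2_2 s
      + 1*t^(2:ℕ)*w^(3:ℕ)*(1-w)^(0:ℕ)*ev L_stepJp_lo_2_3 s
      + 1*t^(3:ℕ)*w^(0:ℕ)*(1-w)^(3:ℕ)*ev L_stepJp_lo_3_0 s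
      + 3*t^(3:ℕ)*w^(1:ℕ)*(1-w)^(2:ℕ)*ev L_stepJp_lo_3_1 s
      + 3*t^(3:ℕ)*w^(2:ℕ)*(1-w)^(1:ℕ)*ev L_stepJp_lo_3_2 s
      + 1*t^(3:ℕ)*w^(3:ℕ)*(1-w)^(0:ℕ)*ev L_stepJp_lo_3_3 s
      + 1*t^(4:ℕ)*w^(0:ℕ)*(1-w)^(3:ℕ)*ev L_stepJp_lo_4_0 s
      + 3*t^(4:ℕ)*w^(1:ℕ)*(1-w)^(2:ℕ)*ev L_stepJp_lo_4_1 s
      + 3*t^(4:ℕ)*w^(2:ℕ)*(1-w)^(1:ℕ)*ev L_stepJp_lo_4_2 s
      + 1*t^(4:ℕ)*w^(3:ℕ)*(1-w)^(0:ℕ)*ev L_stepJp_lo_4_3 s) / (30000*(1+s)^(2:ℕ)*(1-s+s^(2:ℕ))^(3:ℕ))) ?_ (Eq.symm ?_)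
  ·
    generalize ev L_stepJp_lo_0_0 s = PL_stepJp_lo_0_0 at *
    generalize ev L_stepJp_lo_0_1 s = PL_stepJp_lo_0_1 at *
    generalize ev L_stepJp_lo_0_2 s = PL_stepJp_lo_0_2 at *
    generalize ev L_stepJp_lo_0_3 s = PL_stepJp_lo_0_3 at *
    generalize ev L_stepJp_lo_1_0 s = PL_stepJp_lo_1_0 at *
    generalize ev L_stepJp_lo_1_1 s = PL_stepJp_lo_1_1 at *
    generalize ev L_stepJp_lo_1_2 s = PL_stepJp_lo_1_2 at *
    generalize ev L_stepJp_lo_1_3 s = PL_stepJp_lo_1_3 at *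
    generalize ev L_stepJp_lo_2_0 s = PL_stepJp_lo_2_0 at *
    generalize ev L_stepJp_lo_2_1 s = PL_stepJp_lo_2_1 at *
    generalize ev L_stepJp_lo_2_2 s = PL_stepJp_lo_2_2 at *
    generalize ev L_stepJp_lo_2_3 s = PL_stepJp_lo_2_3 at *
    generalize ev L_stepJp_lo_3_0 s = PL_stepJp_lo_3_0 at *
    generalize ev L_stepJp_lo_3_1 s = PL_stepJp_lo_3_1 at *
    generalize ev L_stepJp_lo_3_2 s = PL_stepJp_lo_3_2 at *
    generalize ev L_stepJp_lo_3_3 s = PL_stepJp_lo_3_3 at *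
    generalize ev L_stepJp_lo_4_0 s = PL_stepJp_lo_4_0 at *
    generalize ev L_stepJp_lo_4_1 s = PL_stepJp_lo_4_1 at *
    generalize ev L_stepJp_lo_4_2 s = PL_stepJp_lo_4_2 at *
    generalize ev L_stepJp_lo_4_3 s = PL_stepJp_lo_4_3 at *
    positivity
  simp only [Np, Nm, Nr, NA, fac]
  push_cast
  generalize hgth : s+(1/4)*(1-s)^(2:ℕ) = th at *
  field_simp
  simp only [ev, L_stepJp_lo_0_0, L_stepJp_lo_0_1, L_stepJp_lo_0_2, L_stepJp_lo_0_3, L_stepJp_lo_1_0, L_stepJp_lo_1_1, L_stepJp_lo_1_2, L_stepJp_lo_1_3, L_stepJp_lo_2_0, L_stepJp_lo_2_1, L_stepJp_lo_2_2, L_stepJp_lo_2_3, L_stepJp_lo_3_0, L_stepJp_lo_3_1, L_stepJp_lo_3_2, L_stepJp_lo_3_3, L_stepJp_lo_4_0, L_stepJp_lo_4_1, L_stepJp_lo_4_2, L_stepJp_lo_4_3]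
  push_cast
  rw [← hgth]
  ring


end Pool.Agent.H59
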