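import Pool.Agent.H59.Bern
import Pool.Agent.H59.NDefs
set_option autoImplicit false
set_option maxRecDepth 10000
set_option maxHeartbeats 4000000
namespace Pool.Agent.H59
open Bern

def L_stepR_hi_0_0 : List ℤ := [0,13008,50787,-826644,8171967,-25918869,50462109,-79297209,89083869,-61537767,28057344,-10953087,2376792,310200,7500]
def L_stepR_hi_0_1 : List ℤ := [0,13008,60162,-997223,7630237,-21712877,44156695,-64810406,65898580,-47565889,22154765,-6694645,1651457,211136,5000]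
def L_stepR_hi_0_2 : List ℤ := [0,13008,69537,-1160927,7074332,-18499825,37042171,-47568688,47896511,-30847021,15417676,-3467243,885497,112072,2500]
def L_stepR_hi_0_3 : List ℤ := [0,13008,78912,-1317756,6504252,-16326588,27776712,-32517480,27776712,-16326588,6504252,-1317756,78912,13008]
def L_stepR_hi_1_0 : List ℤ := [0,6336,60858,-662178,5611308,-18201168,38540892,-65138172,76643568,-55803048,26550138,-9895698,2162004,125160]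
def L_stepR_hi_1_1 : List ℤ := [0,6336,62108,-724334,4997592,-14593886,31847326,-50037066,54037334,-40905642,20008654,-6258096,1474122,85552]
def L_stepR_hi_1_2 : List ℤ := [0,6336,63358,-785240,4380596,-11584612,24411038,-33148512,35307454,-24219068,12713508,-3234912,774990,45944]
def L_stepR_hi_1_3 : List ℤ := [0,6336,64608,-844896,3760320,-9192096,15327648,-17921280,15327648,-9192096,3760320,-844896,64608,6336]
def L_stepR_hi_2_0 : List ℤ := [0,0,15504,-117558,1193547,-4385298,10606014,-19553190,24109068,-18351630,9036690,-3261372,696393,11832]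
def L_stepR_hi_2_1 : List ℤ := [0,0,15504,-123820,975265,-3216825,8070138,-13967857,16130352,-12788147,6516926,-2089479,470055,7888]
def L_stepR_hi_2_2 : List ℤ := [0,0,15504,-130082,756928,-2176234,5298384,-7953048,9227260,-6794618,3760144,-1047178,243092,3944]
def L_stepR_hi_2_3 : List ℤ := [0,0,15504,-136344,538536,-1265400,2062944,-2403120,2062944,-1265400,538536,-136344,15504]
def L_stepR_hi_3_0 : List ℤ := [0,0,0,0,93480,-458280,1305984,-2595096,3307824,-2595096,1305984,-458280,93480]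
def L_stepR_hi_3_1 : List ℤ := [0,0,0,0,62320,-294120,910328,-1741464,2125872,-1741464,910328,-294120,62320]
def L_stepR_hi_3_2 : List ℤ := [0,0,0,0,31160,-141360,483512,-842384,1074336,-842384,483512,-141360,31160]
def L_stepR_hi_4_0 : List ℤ := [0,0,0,0,4332,-22743,67146,-133209,168948,-133209,67146,-22743,4332]
def L_stepR_hi_4_1 : List ℤ := [0,0,0,0,2888,-14801,46569,-89167,109022,-89167,46569,-14801,2888]
def L_stepR_hi_4_2 : List ℤ := [0,0,0,0,1444,-7220,24548,-43320,54872,-43320,24548,-7220,1444]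

theorem stepR_hi {s w t : ℝ} (hs0 : 0 < s) (hs1 : s < 1) (hw0 : 0 ≤ w) (hw1 : w ≤ 1) (ht : 0 ≤ t) :
    (1-s)*(1+(s*((1-s)^(2:ℕ)+s*w)/((1-s)*(1-s+s^(2:ℕ)))))*Nr (t+3) (t+5) s (s*((1-s)^(2:ℕ)+s*w)/((1-s)*(1-s+s^(2:ℕ)))) * fac ((22/5)+(19/25)*(t+1)) s ≤ Nr (t+4) (t+6) s (s*((1-s)^(2:ℕ)+s*w)/((1-s)*(1-s+s^(2:ℕ)))) * fac ((22/5)+(19/25)*t) s := by
  have ho : 0 < 1 - s := by linarith
  have hp : 0 < 1 + s := by linarith
  have hd : 0 < 1 - s + s^(2:ℕ) := by positivity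
  have h1w : 0 ≤ 1 - w := by linarith
  have n0_0 : 0 ≤ ev L_stepR_hi_0_0 s := pos_of_check 8 _ (by decide +kernel) hs0.le hs1.le
  have n0_1 : 0 ≤ ev L_stepR_hi_0_1 s := pos_of_check 8 _ (by decide +kernel) hs0.le hs1.le
  have n0_2 : 0 ≤ ev L_stepR_hi_0_2 s := pos_of_check 8 _ (by decide +kernel) hs0.le hs1.le
  have n0_3 : 0 ≤ ev L_stepR_hi_0_3 s := pos_of_check 8 _ (by decide +kernel) hs0.le hs1.le
  have n1_0 : 0 ≤ ev L_stepR_hi_1_0 s := pos_of_check 8 _ (by decide +kernel) hs0.le hs1.le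
  have n1_1 : 0 ≤ ev L_stepR_hi_1_1 s := pos_of_check 8 _ (by decide +kernel) hs0.le hs1.le
  have n1_2 : 0 ≤ ev L_stepR_hi_1_2 s := pos_of_check 8 _ (by decide +kernel) hs0.le hs1.le
  have n1_3 : 0 ≤ ev L_stepR_hi_1_3 s := pos_of_check 8 _ (by decide +kernel) hs0.le hs1.le
  have n2_0 : 0 ≤ ev L_stepR_hi_2_0 s := pos_of_check 8 _ (by decide +kernel) hs0.le hs1.le
  have n2_1 : 0 ≤ ev L_stepR_hi_2_1 s := pos_of_check 8 _ (by decide +kernel) hs0.le hs1.le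
  have n2_2 : 0 ≤ ev L_stepR_hi_2_2 s := pos_of_check 8 _ (by decide +kernel) hs0.le hs1.le
  have n2_3 : 0 ≤ ev L_stepR_hi_2_3 s := pos_of_check 8 _ (by decide +kernel) hs0.le hs1.le
  have n3_0 : 0 ≤ ev L_stepR_hi_3_0 s := pos_of_check 8 _ (by decide +kernel) hs0.le hs1.le
  have n3_1 : 0 ≤ ev L_stepR_hi_3_1 s := pos_of_check 8 _ (by decide +kernel) hs0.le hs1.le
  have n3_2 : 0 ≤ ev L_stepR_hi_3_2 s := pos_of_check 8 _ (by decide +kernel) hs0.le hs1.le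
  have n4_0 : 0 ≤ ev L_stepR_hi_4_0 s := pos_of_check 8 _ (by decide +kernel) hs0.le hs1.le
  have n4_1 : 0 ≤ ev L_stepR_hi_4_1 s := pos_of_check 8 _ (by decide +kernel) hs0.le hs1.le
  have n4_2 : 0 ≤ ev L_stepR_hi_4_2 s := pos_of_check 8 _ (by decide +kernel) hs0.le hs1.le
  have hth : 0 < s+(1/4)*(1-s)^(2:ℕ) := by positivity
  rw [← sub_nonneg]
  refine le_of_le_of_eq (b := (1*t^(0:ℕ)*w^(0:ℕ)*(1-w)^(3:ℕ)*ev L_stepR_hi_0_0 s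
      + 3*t^(0:ℕ)*w^(1:ℕ)*(1-w)^(2:ℕ)*ev L_stepR_hi_0_1 s
      + 3*t^(0:ℕ)*w^(2:ℕ)*(1-w)^(1:ℕ)*ev L_stepR_hi_0_2 s
      + 1*t^(0:ℕ)*w^(3:ℕ)*(1-w)^(0:ℕ)*ev L_stepR_hi_0_3 s
      + 1*t^(1:ℕ)*w^(0:ℕ)*(1-w)^(3:ℕ)*ev L_stepR_hi_1_0 s
      + 3*t^(1:ℕ)*w^(1:ℕ)*(1-w)^(2:ℕ)*ev L_stepR_hi_1_1 s
      + 3*t^(1:ℕ)*w^(2:ℕ)*(1-w)^(1:ℕ)*ev L_stepR_hi_1_2 s
      + 1*t^(1:ℕ)*w^(3:ℕ)*(1-w)^(0:ℕ)*ev L_stepR_hi_1_3 s
      + 1*t^(2:ℕ)*w^(0:ℕ)*(1-w)^(3:ℕ)*ev L_stepR_hi_2_0 s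
      + 3*t^(2:ℕ)*w^(1:ℕ)*(1-w)^(2:ℕ)*ev L_stepR_hi_2_1 s
      + 3*t^(2:ℕ)*w^(2:ℕ)*(1-w)^(1:ℕ)*ev L_stepR_hi_2_2 s
      + 1*t^(2:ℕ)*w^(3:ℕ)*(1-w)^(0:ℕ)*ev L_stepR_hi_2_3 s
      + 1*t^(3:ℕ)*w^(0:ℕ)*(1-w)^(3:ℕ)*ev L_stepR_hi_3_0 s
      + 3*t^(3:ℕ)*w^(1:ℕ)*(1-w)^(2:ℕ)*ev L_stepR_hi_3_1 s
      + 3*t^(3:ℕ)*w^(2:ℕ)*(1-w)^(1:ℕ)*ev L_stepR_hi_3_2 s
      + 1*t^(4:ℕ)*w^(0:ℕ)*(1-w)^(3:ℕ)*ev L_stepR_hi_4_0 s
      + 3*t^(4:ℕ)*w^(1:ℕ)*(1-w)^(2:ℕ)*ev L_stepR_hi_4_1 s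
      + 3*t^(4:ℕ)*w^(2:ℕ)*(1-w)^(1:ℕ)*ev L_stepR_hi_4_2 s) / (7500*(1-s)^(2:ℕ)*(1+s)^(2:ℕ)*(1-s+s^(2:ℕ))^(3:ℕ))) ?_ (Eq.symm ?_)
  ·
    generalize ev L_stepR_hi_0_0 s = PL_stepR_hi_0_0 at *
    generalize ev L_stepR_hi_0_1 s = PL_stepR_hi_0_1 at *
    generalize ev L_stepR_hi_0_2 s = PL_stepR_hi_0_2 at *
    generalize ev L_stepR_hi_0_3 s = PL_stepR_hi_0_3 at *
    generalize ev L_stepR_hi_1_0 s = PL_stepR_hi_1_0 at *
    generalize ev L_stepR_hi_1_1 s = PL_stepR_hi_1_1 at *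
    generalize ev L_stepR_hi_1_2 s = PL_stepR_hi_1_2 at *
    generalize ev L_stepR_hi_1_3 s = PL_stepR_hi_1_3 at *
    generalize ev L_stepR_hi_2_0 s = PL_stepR_hi_2_0 at *
    generalize ev L_stepR_hi_2_1 s = PL_stepR_hi_2_1 at *
    generalize ev L_stepR_hi_2_2 s = PL_stepR_hi_2_2 at *
    generalize ev L_stepR_hi_2_3 s = PL_stepR_hi_2_3 at *
    generalize ev L_stepR_hi_3_0 s = PL_stepR_hi_3_0 at *
    generalize ev L_stepR_hi_3_1 s = PL_stepR_hi_3_1 at *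
    generalize ev L_stepR_hi_3_2 s = PL_stepR_hi_3_2 at *
    generalize ev L_stepR_hi_4_0 s = PL_stepR_hi_4_0 at *
    generalize ev L_stepR_hi_4_1 s = PL_stepR_hi_4_1 at *
    generalize ev L_stepR_hi_4_2 s = PL_stepR_hi_4_2 at *
    positivity
  simp only [Np, Nm, Nr, NA, fac]
  push_cast
  generalize hgth : s+(1/4)*(1-s)^(2:ℕ) = th at *
  field_simp
  simp only [ev, L_stepR_hi_0_0, L_stepR_hi_0_1, L_stepR_hi_0_2, L_stepR_hi_0_3, L_stepR_hi_1_0, L_stepR_hi_1_1, L_stepR_hi_1_2, L_stepR_hi_1_3, L_stepR_hi_2_0, L_stepR_hi_2_1, L_stepR_hi_2_2, L_stepR_hi_2_3, L_stepR_hi_3_0, L_stepR_hi_3_1, L_stepR_hi_3_2, L_stepR_hi_4_0, L_stepR_hi_4_1, L_stepR_hi_4_2]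
  push_cast
  rw [← hgth]
  ring


end Pool.Agent.H59
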