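import Pool.Agent.H59.Bern
import Pool.Agent.H59.NDefs
set_option autoImplicit false
set_option maxRecDepth 10000
set_option maxHeartbeats 4000000
namespace Pool.Agent.H59
open Bern

def L_stepR_lo_0_0 : List ℤ := [0,5508,551640,-779676,-2547744,12652848,-26608140,34709040,-30697848,18006444,-6335424,806160,229692,7500]
def L_stepR_lo_0_1 : List ℤ := [0,1133,390036,-560301,-526317,4204344,-9943647,14326871,-14529180,9951225,-4310247,826080,165003,5000]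
def L_stepR_lo_0_2 : List ℤ := [0,3633,247382,-144316,2517080,-5481265,5678876,-3993883,587968,663676,-1238750,1050535,106564,2500]
def L_stepR_lo_0_3 : List ℤ := [0,13008,76803,-686046,6723072,-11786679,20165679,-27179172,14559846,-5238903,3019692,325200,7500]
def L_stepR_lo_1_0 : List ℤ := [0,6336,261408,378480,-5033184,16097856,-29923536,37150656,-32276256,19156944,-7164960,1242432,103824]
def L_stepR_lo_1_1 : List ℤ := [0,5086,192062,115780,-2269680,7372042,-13977402,17920326,-16505062,10568832,-4398956,909006,67966]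
def L_stepR_lo_1_2 : List ℤ := [0,5086,135686,92262,887588,-1996408,1564968,-509816,-1152012,1345274,-1225278,813042,39608]
def L_stepR_lo_1_3 : List ℤ := [0,6336,73530,-521454,4494870,-8689974,16666074,-23116050,13745394,-5196210,2412324,125160]
def L_stepR_lo_2_0 : List ℤ := [0,0,36000,405288,-2446608,6757584,-11786520,14165184,-12100704,7168440,-2736624,526128,11832]
def L_stepR_lo_2_1 : List ℤ := [0,0,27973,222242,-1312172,3556240,-6166525,7448072,-6497999,3980928,-1602188,336166,7263]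
def L_stepR_lo_2_2 : List ℤ := [0,0,21766,131732,-163530,247014,-561986,761082,-913030,686674,-451836,238170,3944]
def L_stepR_lo_2_3 : List ℤ := [0,0,15504,-86550,1004943,-2288862,5023347,-7217634,4650453,-1833090,720057,11832]
def L_stepR_lo_3_0 : List ℤ := [0,0,0,84816,-424080,1102608,-1865952,2205216,-1865952,1102608,-424080,84816]
def L_stepR_lo_3_1 : List ℤ := [0,0,0,50920,-243200,616360,-1029040,1209920,-1029040,616360,-243200,50920]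
def L_stepR_lo_3_2 : List ℤ := [0,0,0,31160,-70680,124336,-183768,197904,-183768,124336,-70680,31160]
def L_stepR_lo_3_3 : List ℤ := [0,0,0,0,93480,-271320,669864,-984048,669864,-271320,93480]
def L_stepR_lo_4_0 : List ℤ := [0,0,0,4332,-21660,56316,-95304,112632,-95304,56316,-21660,4332]
def L_stepR_lo_4_1 : List ℤ := [0,0,0,2527,-12274,31407,-52706,62092,-52706,31407,-12274,2527]
def L_stepR_lo_4_2 : List ℤ := [0,0,0,1444,-3610,6498,-9386,10108,-9386,6498,-3610,1444]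
def L_stepR_lo_4_3 : List ℤ := [0,0,0,0,4332,-14079,34656,-49818,34656,-14079,4332]

theorem stepR_lo {s w t : ℝ} (hs0 : 0 < s) (hs1 : s < 1) (hw0 : 0 ≤ w) (hw1 : w ≤ 1) (ht : 0 ≤ t) :
    (1-s)*(1+(s*(1-s)/(1-s+s^(2:ℕ))*w))*Nr (t+3) (t+5) s (s*(1-s)/(1-s+s^(2:ℕ))*w) * fac ((22/5)+(19/25)*(t+1)) s ≤ Nr (t+4) (t+6) s (s*(1-s)/(1-s+s^(2:ℕ))*w) * fac ((22/5)+(19/25)*t) s := by
  have ho : 0 < 1 - s := by linarith
  have hp : 0 < 1 + s := by linarith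
  have hd : 0 < 1 - s + s^(2:ℕ) := by positivity
  have h1w : 0 ≤ 1 - w := by linarith
  have n0_0 : 0 ≤ ev L_stepR_lo_0_0 s := pos_of_check 8 _ (by decide +kernel) hs0.le hs1.le
  have n0_1 : 0 ≤ ev L_stepR_lo_0_1 s := pos_of_check 8 _ (by decide +kernel) hs0.le hs1.le
  have n0_2 : 0 ≤ ev L_stepR_lo_0_2 s := pos_of_check 8 _ (by decide +kernel) hs0.le hs1.le
  have n0_3 : 0 ≤ ev L_stepR_lo_0_3 s := pos_of_check 8 _ (by decide +kernel) hs0.le hs1.le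
  have n1_0 : 0 ≤ ev L_stepR_lo_1_0 s := pos_of_check 8 _ (by decide +kernel) hs0.le hs1.le
  have n1_1 : 0 ≤ ev L_stepR_lo_1_1 s := pos_of_check 8 _ (by decide +kernel) hs0.le hs1.le
  have n1_2 : 0 ≤ ev L_stepR_lo_1_2 s := pos_of_check 8 _ (by decide +kernel) hs0.le hs1.le
  have n1_3 : 0 ≤ ev L_stepR_lo_1_3 s := pos_of_check 8 _ (by decide +kernel) hs0.le hs1.le
  have n2_0 : 0 ≤ ev L_stepR_lo_2_0 s := pos_of_check 8 _ (by decide +kernel) hs0.le hs1.le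
  have n2_1 : 0 ≤ ev L_stepR_lo_2_1 s := pos_of_check 8 _ (by decide +kernel) hs0.le hs1.le
  have n2_2 : 0 ≤ ev L_stepR_lo_2_2 s := pos_of_check 8 _ (by decide +kernel) hs0.le hs1.le
  have n2_3 : 0 ≤ ev L_stepR_lo_2_3 s := pos_of_check 8 _ (by decide +kernel) hs0.le hs1.le
  have n3_0 : 0 ≤ ev L_stepR_lo_3_0 s := pos_of_check 8 _ (by decide +kernel) hs0.le hs1.le
  have n3_1 : 0 ≤ ev L_stepR_lo_3_1 s := pos_of_check 8 _ (by decide +kernel) hs0.le hs1.le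
  have n3_2 : 0 ≤ ev L_stepR_lo_3_2 s := pos_of_check 8 _ (by decide +kernel) hs0.le hs1.le
  have n3_3 : 0 ≤ ev L_stepR_lo_3_3 s := pos_of_check 8 _ (by decide +kernel) hs0.le hs1.le
  have n4_0 : 0 ≤ ev L_stepR_lo_4_0 s := pos_of_check 8 _ (by decide +kernel) hs0.le hs1.le
  have n4_1 : 0 ≤ ev L_stepR_lo_4_1 s := pos_of_check 8 _ (by decide +kernel) hs0.le hs1.le
  have n4_2 : 0 ≤ ev L_stepR_lo_4_2 s := pos_of_check 8 _ (by decide +kernel) hs0.le hs1.le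
  have n4_3 : 0 ≤ ev L_stepR_lo_4_3 s := pos_of_check 8 _ (by decide +kernel) hs0.le hs1.le
  have hth : 0 < s+(1/4)*(1-s)^(2:ℕ) := by positivity
  rw [← sub_nonneg]
  refine le_of_le_of_eq (b := (1*t^(0:ℕ)*w^(0:ℕ)*(1-w)^(3:ℕ)*ev L_stepR_lo_0_0 s
      + 3*t^(0:ℕ)*w^(1:ℕ)*(1-w)^(2:ℕ)*ev L_stepR_lo_0_1 s
      + 3*t^(0:ℕ)*w^(2:ℕ)*(1-w)^(1:ℕ)*ev L_stepR_lo_0_2 s
      + 1*t^(0:ℕ)*w^(3:ℕ)*(1-w)^(0:ℕ)*ev L_stepR_lo_0_3 s
      + 1*t^(1:ℕ)*w^(0:ℕ)*(1-w)^(3:ℕ)*ev L_stepR_lo_1_0 s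
      + 3*t^(1:ℕ)*w^(1:ℕ)*(1-w)^(2:ℕ)*ev L_stepR_lo_1_1 s
      + 3*t^(1:ℕ)*w^(2:ℕ)*(1-w)^(1:ℕ)*ev L_stepR_lo_1_2 s
      + 1*t^(1:ℕ)*w^(3:ℕ)*(1-w)^(0:ℕ)*ev L_stepR_lo_1_3 s
      + 1*t^(2:ℕ)*w^(0:ℕ)*(1-w)^(3:ℕ)*ev L_stepR_lo_2_0 s
      + 3*t^(2:ℕ)*w^(1:ℕ)*(1-w)^(2:ℕ)*ev L_stepR_lo_2_1 s
      + 3*t^(2:ℕ)*w^(2:ℕ)*(1-w)^(1:ℕ)*ev L_stepR_lo_2_2 s
      + 1*t^(2:ℕ)*w^(3:ℕ)*(1-w)^(0:ℕ)*ev L_stepR_lo_2_3 s
      + 1*t^(3:ℕ)*w^(0:ℕ)*(1-w)^(3:ℕ)*ev L_stepR_lo_3_0 s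
      + 3*t^(3:ℕ)*w^(1:ℕ)*(1-w)^(2:ℕ)*ev L_stepR_lo_3_1 s
      + 3*t^(3:ℕ)*w^(2:ℕ)*(1-w)^(1:ℕ)*ev L_stepR_lo_3_2 s
      + 1*t^(3:ℕ)*w^(3:ℕ)*(1-w)^(0:ℕ)*ev L_stepR_lo_3_3 s
      + 1*t^(4:ℕ)*w^(0:ℕ)*(1-w)^(3:ℕ)*ev L_stepR_lo_4_0 s
      + 3*t^(4:ℕ)*w^(1:ℕ)*(1-w)^(2:ℕ)*ev L_stepR_lo_4_1 s
      + 3*t^(4:ℕ)*w^(2:ℕ)*(1-w)^(1:ℕ)*ev L_stepR_lo_4_2 s
      + 1*t^(4:ℕ)*w^(3:ℕ)*(1-w)^(0:ℕ)*ev L_stepR_lo_4_3 s) / (7500*(1+s)^(2:ℕ)*(1-s+s^(2:ℕ))^(3:ℕ))) ?_ (Eq.symm ?_)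
  ·
    generalize ev L_stepR_lo_0_0 s = PL_stepR_lo_0_0 at *
    generalize ev L_stepR_lo_0_1 s = PL_stepR_lo_0_1 at *
    generalize ev L_stepR_lo_0_2 s = PL_stepR_lo_0_2 at *
    generalize ev L_stepR_lo_0_3 s = PL_stepR_lo_0_3 at *
    generalize ev L_stepR_lo_1_0 s = PL_stepR_lo_1_0 at *
    generalize ev L_stepR_lo_1_1 s = PL_stepR_lo_1_1 at *
    generalize ev L_stepR_lo_1_2 s = PL_stepR_lo_1_2 at *
    generalize ev L_stepR_lo_1_3 s = PL_stepR_lo_1_3 at *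
    generalize ev L_stepR_lo_2_0 s = PL_stepR_lo_2_0 at *
    generalize ev L_stepR_lo_2_1 s = PL_stepR_lo_2_1 at *
    generalize ev L_stepR_lo_2_2 s = PL_stepR_lo_2_2 at *
    generalize ev L_stepR_lo_2_3 s = PL_stepR_lo_2_3 at *
    generalize ev L_stepR_lo_3_0 s = PL_stepR_lo_3_0 at *
    generalize ev L_stepR_lo_3_1 s = PL_stepR_lo_3_1 at *
    generalize ev L_stepR_lo_3_2 s = PL_stepR_lo_3_2 at *
    generalize ev L_stepR_lo_3_3 s = PL_stepR_lo_3_3 at *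
    generalize ev L_stepR_lo_4_0 s = PL_stepR_lo_4_0 at *
    generalize ev L_stepR_lo_4_1 s = PL_stepR_lo_4_1 at *
    generalize ev L_stepR_lo_4_2 s = PL_stepR_lo_4_2 at *
    generalize ev L_stepR_lo_4_3 s = PL_stepR_lo_4_3 at *
    positivity
  simp only [Np, Nm, Nr, NA, fac]
  push_cast
  generalize hgth : s+(1/4)*(1-s)^(2:ℕ) = th at *
  field_simp
  simp only [ev, L_stepR_lo_0_0, L_stepR_lo_0_1, L_stepR_lo_0_2, L_stepR_lo_0_3, L_stepR_lo_1_0, L_stepR_lo_1_1, L_stepR_lo_1_2, L_stepR_lo_1_3, L_stepR_lo_2_0, L_stepR_lo_2_1, L_stepR_lo_2_2, L_stepR_lo_2_3, L_stepR_lo_3_0, L_stepR_lo_3_1, L_stepR_lo_3_2, L_stepR_lo_3_3, L_stepR_lo_4_0, L_stepR_lo_4_1, L_stepR_lo_4_2, L_stepR_lo_4_3]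
  push_cast
  rw [← hgth]
  ring


end Pool.Agent.H59
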