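import Mathlib
import Pool.Agent.H59.Cert
import Pool.Agent.H59.StepJpLo
import Pool.Agent.H59.StepJpHi
import Pool.Agent.H59.StepJmLo
import Pool.Agent.H59.StepJmHi
import Pool.Agent.H59.StepRLo
import Pool.Agent.H59.StepRHi

set_option autoImplicit false

/-!
# The certificate inequalities with many children
-/

namespace Pool.Agent.H59

section

variable {s : ℝ}

theorem stepJp (hs0 : 0 < s) (hs1 : s < 1) {e t : ℝ} (he0 : 0 ≤ e) (he1 : e ≤ s / (1 - s))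
    (ht : 0 ≤ t) :
    (1-s)*(1+e)*Np (t+3) (t+4) s e * fac ((9/2)+(19/25)*(t+1)) s
      ≤ Np (t+4) (t+5) s e * fac ((9/2)+(19/25)*t) s := by
  rcases le_total e (s*(1-s)/(1-s+s^2)) with h0 | h0
  · obtain ⟨w, hw0, hw1, rfl, -⟩ := cellD_lo hs0 hs1 he0 h0
    exact stepJp_lo hs0 hs1 hw0 hw1 ht
  · obtain ⟨w, hw0, hw1, rfl, -⟩ := cellD_hi hs0 hs1 h0 he1
    exact stepJp_hi hs0 hs1 hw0 hw1 ht

theorem stepJm (hs0 : 0 < s) (hs1 : s < 1) {e t : ℝ} (he0 : 0 ≤ e) (he1 : e ≤ s / (1 - s))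
    (ht : 0 ≤ t) :
    (1-s)*(1+e)*Nm (t+3) (t+4) s e * fac ((9/2)+(19/25)*(t+1)) s
      ≤ Nm (t+4) (t+5) s e * fac ((9/2)+(19/25)*t) s := by
  rcases le_total e (s*(1-s)/(1-s+s^2)) with h0 | h0
  · obtain ⟨w, hw0, hw1, rfl, -⟩ := cellD_lo hs0 hs1 he0 h0
    exact stepJm_lo hs0 hs1 hw0 hw1 ht
  · obtain ⟨w, hw0, hw1, rfl, -⟩ := cellD_hi hs0 hs1 h0 he1
    exact stepJm_hi hs0 hs1 hw0 hw1 ht

theorem stepR (hs0 : 0 < s) (hs1 : s < 1) {e t : ℝ} (he0 : 0 ≤ e) (he1 : e ≤ s / (1 - s))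
    (ht : 0 ≤ t) :
    (1-s)*(1+e)*Nr (t+3) (t+5) s e * fac ((22/5)+(19/25)*(t+1)) s
      ≤ Nr (t+4) (t+6) s e * fac ((22/5)+(19/25)*t) s := by
  rcases le_total e (s*(1-s)/(1-s+s^2)) with h0 | h0
  · obtain ⟨w, hw0, hw1, rfl, -⟩ := cellD_lo hs0 hs1 he0 h0
    exact stepR_lo hs0 hs1 hw0 hw1 ht
  · obtain ⟨w, hw0, hw1, rfl, -⟩ := cellD_hi hs0 hs1 h0 he1
    exact stepR_hi hs0 hs1 hw0 hw1 ht

theorem lineD_key (hs0 : 0 < s) (hs1 : s < 1) (e : ℝ) : 1 + e - lineD s e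
      = 2 * (s * (1 - s) - e * (1 - s + s ^ 2)) / ((1 + s) * (1 - s)) := by
  have ho : 0 < 1 - s := by linarith
  have hp : 0 < 1 + s := by linarith
  unfold lineD
  field_simp
  ring

/-- `lineD` lies below `1 + e` on the low cell. -/
theorem lineD_le (hs0 : 0 < s) (hs1 : s < 1) {e : ℝ}
    (h1 : e ≤ s * (1 - s) / (1 - s + s ^ 2)) : lineD s e ≤ 1 + e := by
  have ho : 0 < 1 - s := by linarith
  have hp : 0 < 1 + s := by linarith
  have hd : 0 < 1 - s + s ^ 2 := by positivity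
  rw [le_div_iff₀ hd] at h1
  have key := lineD_key hs0 hs1 e
  have : 0 ≤ 2 * (s * (1 - s) - e * (1 - s + s ^ 2)) / ((1 + s) * (1 - s)) := by
    apply div_nonneg _ (by positivity)
    linarith
  linarith

/-- `lineD` lies above `1 + e` on the high cell. -/
theorem le_lineD (hs0 : 0 < s) (hs1 : s < 1) {e : ℝ}
    (h1 : s * (1 - s) / (1 - s + s ^ 2) ≤ e) : 1 + e ≤ lineD s e := by
  have ho : 0 < 1 - s := by linarith
  have hp : 0 < 1 + s := by linarith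
  have hd : 0 < 1 - s + s ^ 2 := by positivity
  rw [div_le_iff₀ hd] at h1
  have key := lineD_key hs0 hs1 e
  have : 2 * (s * (1 - s) - e * (1 - s + s ^ 2)) / ((1 + s) * (1 - s)) ≤ 0 := by
    apply div_nonpos_of_nonpos_of_nonneg _ (by positivity)
    linarith
  linarith

/-- One step of the induction. -/
theorem step_aux {K N N' x y f f' o : ℝ} {m : ℕ} (hK : 0 < K) (hx : 0 ≤ x) (hxy : x ≤ y)
    (ho : 0 < o) (hf : 0 < f) (hf' : 0 < f') (h : K * x ^ m ≤ N)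
    (hs : o * y * N * f' ≤ N' * f) : K * (o * (f' / f)) * x ^ (m + 1) ≤ N' := by
  have hN : 0 ≤ N := le_trans (by positivity) h
  have h1 : K * (o * (f' / f)) * x ^ (m + 1) = (K * x ^ m) * (o * x * f') / f := by
    rw [pow_succ]
    ring
  rw [h1, div_le_iff₀ hf]
  calc K * x ^ m * (o * x * f') ≤ N * (o * x * f') :=
        mul_le_mul_of_nonneg_right h (by positivity)
    _ ≤ N * (o * y * f') := by
        apply mul_le_mul_of_nonneg_left _ hN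
        apply mul_le_mul_of_nonneg_right _ hf'.le
        exact mul_le_mul_of_nonneg_left hxy ho.le
    _ = o * y * N * f' := by ring
    _ ≤ _ := hs

theorem KJ_zero (hs0 : 0 < s) : KJ 0 s = K4 s := by
  unfold KJ
  have : 0 < fac (9/2) s := fac_pos (by norm_num) hs0
  rw [Nat.cast_zero, mul_zero, add_zero, pow_zero, one_mul, div_self this.ne', mul_one]

theorem KJ_succ (hs0 : 0 < s) (j : ℕ) : KJ (j + 1) s
    = KJ j s * ((1 - s) * (fac ((9/2)+(19/25)*((j : ℝ)+1)) s / fac ((9/2)+(19/25)*(j : ℝ)) s)) := by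
  unfold KJ
  have h1 : 0 < fac (9/2) s := fac_pos (by norm_num) hs0
  have h2 : 0 < fac ((9/2)+(19/25)*(j : ℝ)) s := fac_pos (by positivity) hs0
  rw [pow_succ, Nat.cast_add, Nat.cast_one]
  generalize fac ((9/2)+(19/25)*(j : ℝ)) s = A at *
  generalize fac ((9/2)+(19/25)*((j : ℝ)+1)) s = C at *
  generalize fac (9/2) s = D at *
  field_simp

theorem KJ_pos' (hs0 : 0 < s) (hs1 : s < 1) (j : ℕ) : 0 < KJ j s := by
  unfold KJ
  have h0 := K4_pos hs0 hs1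
  have h1 : 0 < fac (9/2) s := fac_pos (by norm_num) hs0
  have h2 : 0 < fac ((9/2)+(19/25)*(j : ℝ)) s := fac_pos (by positivity) hs0
  have h3 : 0 < 1 - s := by linarith
  positivity

theorem KR_zero (hs0 : 0 < s) : KR 0 s = R5 s := by
  unfold KR
  have : 0 < fac (22/5) s := fac_pos (by norm_num) hs0
  rw [Nat.cast_zero, mul_zero, add_zero, pow_zero, one_mul, div_self this.ne', mul_one]

theorem KR_succ (hs0 : 0 < s) (j : ℕ) : KR (j + 1) s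
    = KR j s * ((1 - s) * (fac ((22/5)+(19/25)*((j : ℝ)+1)) s / fac ((22/5)+(19/25)*(j : ℝ)) s)) := by
  unfold KR
  have h1 : 0 < fac (22/5) s := fac_pos (by norm_num) hs0
  have h2 : 0 < fac ((22/5)+(19/25)*(j : ℝ)) s := fac_pos (by positivity) hs0
  rw [pow_succ, Nat.cast_add, Nat.cast_one]
  generalize fac ((22/5)+(19/25)*(j : ℝ)) s = A at *
  generalize fac ((22/5)+(19/25)*((j : ℝ)+1)) s = C at *
  generalize fac (22/5) s = D at *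
  field_simp

theorem KR_pos' (hs0 : 0 < s) (hs1 : s < 1) (j : ℕ) : 0 < KR j s := by
  unfold KR
  have h0 := R5_pos hs0 hs1
  have h1 : 0 < fac (22/5) s := fac_pos (by norm_num) hs0
  have h2 : 0 < fac ((22/5)+(19/25)*(j : ℝ)) s := fac_pos (by positivity) hs0
  have h3 : 0 < 1 - s := by linarith
  positivity

theorem chainJ (hs0 : 0 < s) (hs1 : s < 1) {e x : ℝ} (he0 : 0 ≤ e) (he1 : e ≤ s / (1 - s))
    (hx0 : 0 ≤ x) (hx1 : x ≤ 1 + e) (hbp : K4 s * x ^ 4 ≤ Np 3 4 s e)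
    (hbm : K4 s * x ^ 4 ≤ Nm 3 4 s e) :
    (j : ℕ) → KJ j s * x ^ (j + 4) ≤ Np (j + 3) (j + 4) s e ∧
      KJ j s * x ^ (j + 4) ≤ Nm (j + 3) (j + 4) s e
  | 0 => by
    rw [KJ_zero hs0]
    simp only [Nat.cast_zero, zero_add]
    exact ⟨hbp, hbm⟩
  | j + 1 => by
    have ih := chainJ hs0 hs1 he0 he1 hx0 hx1 hbp hbm j
    have ho : 0 < 1 - s := by linarith
    have h1 : 0 < fac ((9/2)+(19/25)*(j : ℝ)) s := fac_pos (by positivity) hs0
    have h2 : 0 < fac ((9/2)+(19/25)*((j : ℝ)+1)) s := fac_pos (by positivity) hs0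
    have hj : (0 : ℝ) ≤ j := Nat.cast_nonneg j
    have e1 : ((j + 1 : ℕ) : ℝ) + 3 = (j : ℝ) + 4 := by push_cast; ring
    have e2 : ((j + 1 : ℕ) : ℝ) + 4 = (j : ℝ) + 5 := by push_cast; ring
    rw [KJ_succ hs0, e1, e2]
    exact ⟨step_aux (m := j + 4) (KJ_pos' hs0 hs1 j) hx0 hx1 ho h1 h2 ih.1
        (stepJp hs0 hs1 he0 he1 hj),
      step_aux (m := j + 4) (KJ_pos' hs0 hs1 j) hx0 hx1 ho h1 h2 ih.2
        (stepJm hs0 hs1 he0 he1 hj)⟩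

theorem chainR (hs0 : 0 < s) (hs1 : s < 1) {e x : ℝ} (he0 : 0 ≤ e) (he1 : e ≤ s / (1 - s))
    (hx0 : 0 ≤ x) (hx1 : x ≤ 1 + e) (hb : R5 s * x ^ 5 ≤ Nr 3 5 s e) :
    (j : ℕ) → KR j s * x ^ (j + 5) ≤ Nr (j + 3) (j + 5) s e
  | 0 => by
    rw [KR_zero hs0]
    simp only [Nat.cast_zero, zero_add]
    exact hb
  | j + 1 => by
    have ih := chainR hs0 hs1 he0 he1 hx0 hx1 hb j
    have ho : 0 < 1 - s := by linarith
    have h1 : 0 < fac ((22/5)+(19/25)*(j : ℝ)) s := fac_pos (by positivity) hs0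
    have h2 : 0 < fac ((22/5)+(19/25)*((j : ℝ)+1)) s := fac_pos (by positivity) hs0
    have hj : (0 : ℝ) ≤ j := Nat.cast_nonneg j
    have e1 : ((j + 1 : ℕ) : ℝ) + 3 = (j : ℝ) + 4 := by push_cast; ring
    have e2 : ((j + 1 : ℕ) : ℝ) + 5 = (j : ℝ) + 6 := by push_cast; ring
    rw [KR_succ hs0, e1, e2]
    exact step_aux (m := j + 5) (KR_pos' hs0 hs1 j) hx0 hx1 ho h1 h2 ih
      (stepR hs0 hs1 he0 he1 hj)

theorem baseJ (hs0 : 0 < s) (hs1 : s < 1) {e P : ℝ} (he0 : 0 ≤ e) (he1 : e ≤ s / (1 - s))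
    (hP1 : P ≤ (lineD s e) ^ 4) (hP2 : P ≤ (1 + e) ^ 4) :
    K4 s * P ≤ Np 3 4 s e ∧ K4 s * P ≤ Nm 3 4 s e := by
  refine ⟨(wJ4_p hs0 hs1 he0 he1 hP1 hP2).trans (le_of_eq ?_),
    (wJ4_m hs0 hs1 he0 he1 hP1 hP2).trans (le_of_eq ?_)⟩
  · unfold Np NA
    norm_num
  · unfold Nm NA
    norm_num

theorem baseR (hs0 : 0 < s) (hs1 : s < 1) {e P : ℝ} (he0 : 0 ≤ e) (he1 : e ≤ s / (1 - s))
    (hP1 : P ≤ (lineD s e) ^ 5) (hP2 : P ≤ (1 + e) ^ 5) :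
    R5 s * P ≤ Nr 3 5 s e := by
  refine (wR5_r hs0 hs1 he0 he1 hP1 hP2).trans (le_of_eq ?_)
  unfold Nr NA
  norm_num

/-- At every mean, for every number of children. -/
theorem boundJ (hs0 : 0 < s) (hs1 : s < 1) {e P : ℝ} (he0 : 0 ≤ e) (he1 : e ≤ s / (1 - s))
    (j : ℕ) (hP1 : P ≤ (lineD s e) ^ (j + 4)) (hP2 : P ≤ (1 + e) ^ (j + 4)) :
    KJ j s * P ≤ Np (j + 3) (j + 4) s e ∧ KJ j s * P ≤ Nm (j + 3) (j + 4) s e := by
  have hK := (KJ_pos' hs0 hs1 j).le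
  have ho : 0 < 1 - s := by linarith
  have hd : 0 < 1 - s + s ^ 2 := by positivity
  rcases le_total e (s*(1-s)/(1-s+s^2)) with h0 | h0
  · have hl := lineD_le hs0 hs1 h0
    have hl0 := lineD_nonneg hs0 hs1 he0
    obtain ⟨b1, b2⟩ := baseJ hs0 hs1 he0 he1 (P := (lineD s e) ^ 4) le_rfl
      (pow_le_pow_left₀ hl0 hl 4)
    obtain ⟨c1, c2⟩ := chainJ hs0 hs1 he0 he1 hl0 hl b1 b2 j
    exact ⟨(mul_le_mul_of_nonneg_left hP1 hK).trans c1,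
      (mul_le_mul_of_nonneg_left hP1 hK).trans c2⟩
  · have hl : 1 + e ≤ lineD s e := le_lineD hs0 hs1 h0
    have hl0 : 0 ≤ 1 + e := by linarith
    obtain ⟨b1, b2⟩ := baseJ hs0 hs1 he0 he1 (P := (1 + e) ^ 4)
      (pow_le_pow_left₀ hl0 hl 4) le_rfl
    obtain ⟨c1, c2⟩ := chainJ hs0 hs1 he0 he1 hl0 le_rfl b1 b2 j
    exact ⟨(mul_le_mul_of_nonneg_left hP2 hK).trans c1,
      (mul_le_mul_of_nonneg_left hP2 hK).trans c2⟩

theorem boundR (hs0 : 0 < s) (hs1 : s < 1) {e P : ℝ} (he0 : 0 ≤ e) (he1 : e ≤ s / (1 - s))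
    (j : ℕ) (hP1 : P ≤ (lineD s e) ^ (j + 5)) (hP2 : P ≤ (1 + e) ^ (j + 5)) :
    KR j s * P ≤ Nr (j + 3) (j + 5) s e := by
  have hK := (KR_pos' hs0 hs1 j).le
  have ho : 0 < 1 - s := by linarith
  have hd : 0 < 1 - s + s ^ 2 := by positivity
  rcases le_total e (s*(1-s)/(1-s+s^2)) with h0 | h0
  · have hl := lineD_le hs0 hs1 h0
    have hl0 := lineD_nonneg hs0 hs1 he0
    have b := baseR hs0 hs1 he0 he1 (P := (lineD s e) ^ 5) le_rfl (pow_le_pow_left₀ hl0 hl 5)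
    exact (mul_le_mul_of_nonneg_left hP1 hK).trans (chainR hs0 hs1 he0 he1 hl0 hl b j)
  · have hl : 1 + e ≤ lineD s e := le_lineD hs0 hs1 h0
    have hl0 : 0 ≤ 1 + e := by linarith
    have b := baseR hs0 hs1 he0 he1 (P := (1 + e) ^ 5) (pow_le_pow_left₀ hl0 hl 5) le_rfl
    exact (mul_le_mul_of_nonneg_left hP2 hK).trans (chainR hs0 hs1 he0 he1 hl0 le_rfl b j)

end

variable {q : ℝ}

theorem certJ (hq0 : 0 < q) (hq1 : q < 1) (j : ℕ) (L : List (ℝ × ℝ)) (hj : L.length = j + 4)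
    (hL : ∀ p ∈ L, ClsD (q ^ 2) p) :
    KJ j (q ^ 2) * (L.map (psi (q ^ 2))).prod
      ≤ Jn (q ^ 2) ((j + 3) * q - (L.map Prod.snd).sum) (1 - q ^ 2 + (L.map Prod.fst).sum) := by
  have hs0 : 0 < q ^ 2 := by positivity
  have hs1 : q ^ 2 < 1 := by nlinarith
  obtain ⟨e, he0, he1, hH, hY, hP1, hP2⟩ := meanD hs0 hs1 L (j + 4) (by omega) hj hL
  obtain ⟨b1, b2⟩ := boundJ hs0 hs1 he0 he1 j hP2 hP1
  push_cast at hH hY
  rw [hH]
  unfold Np at b1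
  unfold Nm at b2
  refine Jn_ge hs0 hs1 ?_ b1 b2
  unfold NA
  exact A_le (by norm_num) hs0 hs1 (le_of_eq (by ring)) hY

theorem certR (hq0 : 0 < q) (hq1 : q < 1) (j : ℕ) (L : List (ℝ × ℝ)) (hj : L.length = j + 5)
    (hL : ∀ p ∈ L, ClsD (q ^ 2) p) :
    KR j (q ^ 2) * (L.map (psi (q ^ 2))).prod
      ≤ ((j + 3) * q - (L.map Prod.snd).sum) ^ 2 + (1 - q ^ 2 + (L.map Prod.fst).sum) ^ 2 := by
  have hs0 : 0 < q ^ 2 := by positivity
  have hs1 : q ^ 2 < 1 := by nlinarith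
  obtain ⟨e, he0, he1, hH, hY, hP1, hP2⟩ := meanD hs0 hs1 L (j + 5) (by omega) hj hL
  have b := boundR hs0 hs1 he0 he1 j hP2 hP1
  push_cast at hH hY
  rw [hH]
  unfold Nr at b
  refine b.trans (add_le_add_left ?_ _)
  unfold NA
  exact A_le (by norm_num) hs0 hs1 (le_of_eq (by ring)) hY

end Pool.Agent.H59
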