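import Pool.Agent.H59.LG
import Pool.Agent.H59.CertK
import Pool.Agent.H59.KPos

set_option autoImplicit false

/-!
# Accounting: from the local gains to a lower bound for the whole tree
-/

namespace Pool.Agent.H59

open B

theorem qq_pos {x : ℝ} : 0 < qq x := by
  unfold qq
  have h1 : |x| < Real.sqrt (x ^ 2 + 4) := by
    rw [← Real.sqrt_sq_eq_abs]
    exact Real.sqrt_lt_sqrt (sq_nonneg x) (by linarith)
  have h2 := le_abs_self x
  linarith

theorem qq_lt_one {x : ℝ} (hx : 0 < x) : qq x < 1 := by
  unfold qq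
  have h1 : Real.sqrt (x ^ 2 + 4) < x + 2 := by
    rw [Real.sqrt_lt' (by linarith)]
    nlinarith
  linarith

theorem LG.congr {f1 f2 : ℝ → ℝ} {g : ℝ} (h : LG f1 g) (he : ∀ x : ℝ, 0 < x → f2 x = f1 x) :
    LG f2 g := by
  obtain ⟨L, h1, h2, h3⟩ := h
  exact ⟨L, h1, fun x hx => (he x hx).trans (h2 x hx), h3⟩

theorem LG.neg {f : ℝ → ℝ} {g : ℝ} (h : LG f g) : LG (fun x => - f x) (- g) := by
  have := LG.smul (-1) h
  simpa using this

theorem LG_facs : (as : List ℝ) → (∀ a ∈ as, 0 < a) →
    LG (fun x => Real.log ((as.map (fun a => fac a (qq x ^ 2))).prod))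
      (as.sum - as.length * (4 / Real.pi))
  | [], _ => by
    simpa using LG.zero
  | a :: as, h => by
    have ha := h a (by simp)
    have has : ∀ b ∈ as, 0 < b := fun b hb => h b (by simp [hb])
    have h1 := LG.add (LG.factor a ha.le) (LG_facs as has)
    have h2 : (a - 4 / Real.pi) + (as.sum - as.length * (4 / Real.pi))
        = (a :: as).sum - (a :: as).length * (4 / Real.pi) := by
      simp only [List.sum_cons, List.length_cons]
      push_cast
      ring
    rw [← h2]
    refine h1.congr fun x hx => ?_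
    have hq : 0 < qq x ^ 2 := by have := qq_pos (x := x); positivity
    simp only [List.map_cons, List.prod_cons]
    rw [Real.log_mul (fac_pos ha hq).ne' (facs_pos hq as has).ne']
    rfl

theorem LG_Kr {m : ℕ} {as bs : List ℝ} (has : ∀ a ∈ as, 0 < a) (hbs : ∀ b ∈ bs, 0 < b)
    (hlen : as.length = bs.length) :
    LG (fun x => Real.log (Kr m as bs (qq x ^ 2))) (-(m : ℝ) + as.sum - bs.sum) := by
  have h1 := LG.smul (m : ℝ) (LG.add LG.one_sub (LG.neg LG.one_add))
  have h2 := LG.add (LG_facs as has) (LG.neg (LG_facs bs hbs))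
  have h3 := LG.add h1 h2
  have e : (m : ℝ) * (-(2 / Real.pi) + -(1 - 2 / Real.pi))
      + ((as.sum - as.length * (4 / Real.pi)) + -(bs.sum - bs.length * (4 / Real.pi)))
      = -(m : ℝ) + as.sum - bs.sum := by
    rw [hlen]; ring
  rw [← e]
  refine h3.congr fun x hx => ?_
  have hq0 := qq_pos (x := x)
  have hq1 := qq_lt_one hx
  have hs : 0 < qq x ^ 2 := by positivity
  have h4 : 0 < 1 - qq x ^ 2 := by nlinarith
  have h5 : 0 < 1 + qq x ^ 2 := by positivity
  have h6 := facs_pos hs as has
  have h7 := facs_pos hs bs hbs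
  unfold Kr
  rw [Real.log_mul (by positivity) (by positivity), Real.log_pow, Real.log_div h4.ne' h5.ne',
    Real.log_div h6.ne' h7.ne']
  ring

/-! ### Free children and the matching defect -/

/-- Number of free children. -/
def nf (L : List B) : ℕ := (L.filter (fun c => (fd c).1)).length

theorem nf_cons (c : B) (L : List B) : nf (c :: L) = (if (fd c).1 = true then 1 else 0) + nf L := by
  unfold nf
  by_cases h : (fd c).1 = true
  · simp [h, add_comm]
  · simp [h]

theorem nf_le (L : List B) : nf L ≤ L.length := List.length_filter_le _ _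

theorem fd_eq : (b : B) → (fd b).1 = decide (nf b.children = 0) ∧
    (fd b).2 = (b.children.map (fun c => (fd c).2)).sum + (nf b.children - 1)
  | one => by simp [fd, children, nf]
  | graft a c => by
    obtain ⟨h1, h2⟩ := fd_eq a
    simp only [children, nf_cons, List.map_cons, List.sum_cons]
    rcases hc : (fd c).1 with _ | _
    · have : fd (graft a c) = ((fd a).1, (fd a).2 + (fd c).2) := by
        simp [fd, hc]
      rw [this]
      simp only [h1, h2]
      constructor
      · simp
      · simp; omega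
    · rcases ha : (fd a).1 with _ | _
      · have : fd (graft a c) = (false, (fd a).2 + (fd c).2 + 1) := by
          simp [fd, hc, ha]
        rw [this]
        rw [ha] at h1
        have h3 : nf a.children ≠ 0 := by
          intro h; rw [h] at h1; simp at h1
        simp only [h2, if_true]
        constructor
        · simp
        · omega
      · have : fd (graft a c) = (false, (fd a).2 + (fd c).2) := by
          simp [fd, hc, ha]
        rw [this]
        rw [ha] at h1
        have h3 : nf a.children = 0 := by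
          by_contra h; simp [h] at h1
        simp only [h2, if_true]
        constructor
        · simp
        · omega

/-! ### Valuations -/

/-- `v` is a lower bound for the (normalised, defect corrected) value of the branch `b`. -/
def Val (u : ℝ) (b : B) (v : ℝ) : Prop :=
  ∃ f g, LG f g ∧ (∀ x : ℝ, 0 < x → f x ≤ Real.log (Mv (qq x) b)) ∧ v ≤ g - u * ((fd b).2 : ℝ)

def LVal (u : ℝ) (L : List B) (v : ℝ) : Prop :=
  ∃ f g, LG f g ∧ (∀ x : ℝ, 0 < x → f x ≤ Real.log ((L.map (Mv (qq x))).prod)) ∧
    v ≤ g - u * (((L.map (fun c => (fd c).2)).sum : ℕ) : ℝ)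

/-- The same for a whole tree. -/
def RVal (u : ℝ) (b : B) (v : ℝ) : Prop :=
  ∃ f g, LG f g ∧ (∀ x : ℝ, 0 < x → f x ≤ Real.log (F (qq x) b)) ∧ v ≤ g - u * (b.dfc : ℝ)

theorem Val.mono {u : ℝ} {b : B} {v w : ℝ} (h : Val u b v) (hw : w ≤ v) : Val u b w := by
  obtain ⟨f, g, h1, h2, h3⟩ := h
  exact ⟨f, g, h1, h2, hw.trans h3⟩

theorem LVal.mono {u : ℝ} {b : List B} {v w : ℝ} (h : LVal u b v) (hw : w ≤ v) : LVal u b w := by
  obtain ⟨f, g, h1, h2, h3⟩ := h
  exact ⟨f, g, h1, h2, hw.trans h3⟩

theorem RVal.mono {u : ℝ} {b : B} {v w : ℝ} (h : RVal u b v) (hw : w ≤ v) : RVal u b w := by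
  obtain ⟨f, g, h1, h2, h3⟩ := h
  exact ⟨f, g, h1, h2, hw.trans h3⟩

theorem LVal.nil (u : ℝ) : LVal u [] 0 :=
  ⟨fun _ => 0, 0, LG.zero, fun x _ => by simp, by simp⟩

theorem prodM_pos {q : ℝ} (hq0 : 0 < q) (hq1 : q < 1) : (L : List B) →
    0 < (L.map (Mv q)).prod
  | [] => by simp
  | c :: L => by
    simp only [List.map_cons, List.prod_cons]
    exact mul_pos (Mv_pos hq0 hq1 c) (prodM_pos hq0 hq1 L)

theorem LVal.cons {u : ℝ} {c : B} {L : List B} {v w : ℝ} (h1 : Val u c v) (h2 : LVal u L w) :
    LVal u (c :: L) (v + w) := by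
  obtain ⟨f1, g1, a1, b1, c1⟩ := h1
  obtain ⟨f2, g2, a2, b2, c2⟩ := h2
  refine ⟨fun x => f1 x + f2 x, g1 + g2, LG.add a1 a2, fun x hx => ?_, ?_⟩
  · simp only [List.map_cons, List.prod_cons]
    rw [Real.log_mul (Mv_pos qq_pos (qq_lt_one hx) c).ne'
      (prodM_pos qq_pos (qq_lt_one hx) L).ne']
    exact add_le_add (b1 x hx) (b2 x hx)
  · simp only [List.map_cons, List.sum_cons]
    push_cast
    push_cast at c2
    linarith

theorem LVal.const {u : ℝ} : (L : List B) → (∀ c ∈ L, Val u c 0) → LVal u L 0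
  | [], _ => LVal.nil u
  | c :: L, h => by
    have := LVal.cons (h c (by simp)) (LVal.const L fun d hd => h d (by simp [hd]))
    simpa using this

theorem prodM_eq {q : ℝ} : (L : List B) →
    (L.map (Mv q)).prod = (L.map (mm q)).prod * ((L.map (eg q)).map (psi (q ^ 2))).prod
  | [] => by simp
  | c :: L => by
    simp only [List.map_cons, List.prod_cons]
    rw [prodM_eq L]
    unfold Mv
    ring

theorem prodm_pos {q : ℝ} (hq0 : 0 < q) (hq1 : q < 1) : (L : List B) →
    0 < (L.map (mm q)).prod
  | [] => by simp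
  | c :: L => by
    simp only [List.map_cons, List.prod_cons]
    exact mul_pos (mm_pos hq0 hq1 c) (prodm_pos hq0 hq1 L)

theorem Val.join {u : ℝ} {b : B} {v gK : ℝ} {K : ℝ → ℝ}
    (hK : LG (fun x => Real.log (K (qq x ^ 2))) gK)
    (hKpos : ∀ s : ℝ, 0 < s → s < 1 → 0 < K s)
    (hc : ∀ q : ℝ, 0 < q → q < 1 →
      K (q ^ 2) * ((b.children.map (eg q)).map (psi (q ^ 2))).prod
        ≤ Jn (q ^ 2) ((st q b).1 + q) (st q b).2.1)
    (hL : LVal u b.children v) :
    Val u b (gK + v - u * ((nf b.children - 1 : ℕ) : ℝ)) := by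
  obtain ⟨f, g, h1, h2, h3⟩ := hL
  refine ⟨fun x => Real.log (K (qq x ^ 2)) + f x, gK + g, LG.add hK h1, fun x hx => ?_, ?_⟩
  · have hq0 := qq_pos (x := x)
    have hq1 := qq_lt_one hx
    have hKs := hKpos (qq x ^ 2) (by positivity) (by nlinarith)
    have hP := prodM_pos hq0 hq1 b.children
    have h4 := h2 x hx
    have h5 : K (qq x ^ 2) * (b.children.map (Mv (qq x))).prod ≤ Mv (qq x) b := by
      rw [Mv_eq hq0 hq1 b, prodM_eq]
      have := mul_le_mul_of_nonneg_left (hc (qq x) hq0 hq1) (prodm_pos hq0 hq1 b.children).le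
      linarith
    have h6 := Real.log_le_log (mul_pos hKs hP) h5
    rw [Real.log_mul hKs.ne' hP.ne'] at h6
    simp only
    linarith
  · rw [(fd_eq b).2]
    push_cast
    push_cast at h3
    linarith

/-- The penalty at the root. -/
noncomputable def pen (n : ℕ) : ℝ := ((n - 1 : ℕ) : ℝ) + (if n = 0 then 1 else 0)

theorem RVal.join {u : ℝ} {b : B} {v gK : ℝ} {K : ℝ → ℝ}
    (hK : LG (fun x => Real.log (K (qq x ^ 2))) gK)
    (hKpos : ∀ s : ℝ, 0 < s → s < 1 → 0 < K s)
    (hc : ∀ q : ℝ, 0 < q → q < 1 →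
      K (q ^ 2) * ((b.children.map (eg q)).map (psi (q ^ 2))).prod
        ≤ (st q b).1 ^ 2 + (st q b).2.1 ^ 2)
    (hL : LVal u b.children v) :
    RVal u b (gK + v - u * pen (nf b.children)) := by
  obtain ⟨f, g, h1, h2, h3⟩ := hL
  refine ⟨fun x => Real.log (K (qq x ^ 2)) + f x, gK + g, LG.add hK h1, fun x hx => ?_, ?_⟩
  · have hq0 := qq_pos (x := x)
    have hq1 := qq_lt_one hx
    have hKs := hKpos (qq x ^ 2) (by positivity) (by nlinarith)
    have hP := prodM_pos hq0 hq1 b.children
    have h4 := h2 x hx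
    have h5 : K (qq x ^ 2) * (b.children.map (Mv (qq x))).prod ≤ F (qq x) b := by
      rw [F_eq b, prodM_eq]
      have := mul_le_mul_of_nonneg_left (hc (qq x) hq0 hq1) (prodm_pos hq0 hq1 b.children).le
      linarith
    have h6 := Real.log_le_log (mul_pos hKs hP) h5
    rw [Real.log_mul hKs.ne' hP.ne'] at h6
    simp only
    linarith
  · unfold dfc pen
    rw [(fd_eq b).2, (fd_eq b).1]
    by_cases hn : nf b.children = 0
    · simp only [hn, decide_true, if_true]
      push_cast
      push_cast at h3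
      linarith
    · simp only [hn, decide_false, if_false, Bool.false_eq_true, add_zero]
      push_cast
      push_cast at h3
      linarith

theorem Val.ext {u : ℝ} {c : B} {v : ℝ} (h : Val u c v) : Val u (graft one c) v := by
  obtain ⟨f, g, h1, h2, h3⟩ := h
  refine ⟨f, g, h1, fun x hx => ?_, ?_⟩
  · have hq0 := qq_pos (x := x)
    have hq1 := qq_lt_one hx
    exact (h2 x hx).trans (Real.log_le_log (Mv_pos hq0 hq1 c) (Mv_ext hq0 hq1 c))
  · have : (fd (graft one c)).2 = (fd c).2 := by
      rw [(fd_eq _).2]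
      simp only [children, List.map_cons, List.map_nil, List.sum_cons, List.sum_nil]
      have := nf_le [c]
      simp at this
      omega
    rw [this]
    exact h3

theorem fd_leg (n : ℕ) : (fd (leg n)).2 = 0 ∧ ((fd (leg n)).1 = true ↔ Even n) := by
  induction n with
  | zero => simp [leg, fd]
  | succ n ih =>
    obtain ⟨h1, h2⟩ := ih
    rcases hc : (fd (leg n)).1 with _ | _
    · have h3 : ¬ Even n := by
        rw [← h2, hc]; simp
      have : fd (leg (n + 1)) = (true, 0) := by
        simp [leg, fd, hc, h1]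
      rw [this]
      simp [Nat.even_add_one, h3]
    · have h3 : Even n := by
        rw [← h2, hc]
      have : fd (leg (n + 1)) = (false, 0) := by
        simp [leg, fd, hc, h1]
      rw [this]
      simp [Nat.even_add_one, h3]

theorem Val.leg (u : ℝ) (n : ℕ) : Val u (leg n) 0 := by
  refine ⟨fun _ => 0, 0, LG.zero, fun x hx => ?_, ?_⟩
  · rw [(leg_facts qq_pos (qq_lt_one hx) n).2.1]
    simp
  · rw [(fd_leg n).1]
    simp

/-! ### Branches -/

/-- Lower bounds for all branches: paths have value `0`, other branches at least `0.03`, and at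
least `0.105` if the root has at least two children and is not matched. -/
def Br (u : ℝ) (b : B) : Prop :=
  ((∃ n, b = leg n) ∧ Val u b 0) ∨
    (Val u b (3 / 100) ∧ (2 ≤ b.children.length → (fd b).1 = true → Val u b (11 / 100)))

theorem Br.val {u : ℝ} {b : B} (h : Br u b) : Val u b 0 := by
  rcases h with h | h
  · exact h.2
  · exact h.1.mono (by norm_num)

theorem leg_children (n : ℕ) : (leg n).children.length ≤ 1 := by
  cases n with
  | zero => simp [leg, children]
  | succ n => simp [leg, children]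

/-- A branch with at least two children. -/
theorem Br.big {u : ℝ} {b : B} (h : Br u b) (hb : 2 ≤ b.children.length) :
    Val u b (3 / 100) ∧ ((fd b).1 = true → Val u b (11 / 100)) := by
  rcases h with ⟨⟨n, rfl⟩, _⟩ | h
  · have := leg_children n
    omega
  · exact ⟨h.1, h.2 hb⟩

/-- A branch with at most one child. -/
theorem small_cls {q : ℝ} (hq0 : 0 < q) (hq1 : q < 1) {b : B} (hb : b.children.length ≤ 1) :
    Leaf q (eg q b) ∨ Cls2 (q ^ 2) (eg q b) := by
  match b, hb with
  | one, _ => exact Or.inl (leaf_one hq0 hq1)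
  | graft one c, _ => exact Or.inr (cls2_ext hq0 hq1 c)
  | graft (graft a d) c, h => simp [children] at h

theorem LG_K22 : LG (fun x => Real.log (K22 (qq x ^ 2))) (15 / 100) := by
  have h := LG_Kr (m := 1) (as := [3/5, 5/2]) (bs := [7/20, 8/5])
    (by intro a ha; simp at ha; rcases ha with rfl | rfl <;> norm_num)
    (by intro a ha; simp at ha; rcases ha with rfl | rfl <;> norm_num) rfl
  have e : (-((1 : ℕ) : ℝ) + ([3/5, 5/2] : List ℝ).sum - ([7/20, 8/5] : List ℝ).sum) = 15 / 100 := by
    norm_num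
  rw [e] at h
  exact h

theorem LG_K11 : LG (fun x => Real.log (K11 (qq x ^ 2))) (8 / 100) := by
  have h := LG_Kr (m := 1) (as := [89/100, 283/100]) (bs := [107/50, 1/2])
    (by intro a ha; simp at ha; rcases ha with rfl | rfl <;> norm_num)
    (by intro a ha; simp at ha; rcases ha with rfl | rfl <;> norm_num) rfl
  have e : (-((1 : ℕ) : ℝ) + ([89/100, 283/100] : List ℝ).sum - ([107/50, 1/2] : List ℝ).sum)
      = 8 / 100 := by norm_num
  rw [e] at h
  exact h

theorem LG_K3 : LG (fun x => Real.log (K3 (qq x ^ 2))) (27 / 100) := by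
  have h := LG_Kr (m := 2) (as := [737/200, 63/50]) (bs := [449/200, 43/100])
    (by intro a ha; simp at ha; rcases ha with rfl | rfl <;> norm_num)
    (by intro a ha; simp at ha; rcases ha with rfl | rfl <;> norm_num) rfl
  have e : (-((2 : ℕ) : ℝ) + ([737/200, 63/50] : List ℝ).sum - ([449/200, 43/100] : List ℝ).sum)
      = 27 / 100 := by norm_num
  rw [e] at h
  exact h

theorem LG_K4 : LG (fun x => Real.log (K4 (qq x ^ 2))) (40 / 100) := by
  have h := LG_Kr (m := 3) (as := [47/10, 19/10]) (bs := [14/5, 2/5])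
    (by intro a ha; simp at ha; rcases ha with rfl | rfl <;> norm_num)
    (by intro a ha; simp at ha; rcases ha with rfl | rfl <;> norm_num) rfl
  have e : (-((3 : ℕ) : ℝ) + ([47/10, 19/10] : List ℝ).sum - ([14/5, 2/5] : List ℝ).sum)
      = 40 / 100 := by norm_num
  rw [e] at h
  exact h

theorem LG_R22 : LG (fun x => Real.log (R22 (qq x ^ 2))) (6 / 100) := by
  have h := LG_Kr (m := 2) (as := [31/25, 261/100]) (bs := [6/25, 31/20])
    (by intro a ha; simp at ha; rcases ha with rfl | rfl <;> norm_num)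
    (by intro a ha; simp at ha; rcases ha with rfl | rfl <;> norm_num) rfl
  have e : (-((2 : ℕ) : ℝ) + ([31/25, 261/100] : List ℝ).sum - ([6/25, 31/20] : List ℝ).sum)
      = 6 / 100 := by norm_num
  rw [e] at h
  exact h

theorem LG_R02 : LG (fun x => Real.log (R02 (qq x ^ 2))) (6 / 100) := by
  have h := LG_Kr (m := 2) (as := [5/2, 19/25]) (bs := [13/50, 47/50])
    (by intro a ha; simp at ha; rcases ha with rfl | rfl <;> norm_num)
    (by intro a ha; simp at ha; rcases ha with rfl | rfl <;> norm_num) rfl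
  have e : (-((2 : ℕ) : ℝ) + ([5/2, 19/25] : List ℝ).sum - ([13/50, 47/50] : List ℝ).sum)
      = 6 / 100 := by norm_num
  rw [e] at h
  exact h

theorem LG_R00 : LG (fun x => Real.log (R00 (qq x ^ 2))) (15 / 100) := by
  have h := LG_Kr (m := 2) (as := [17/10, 47/20]) (bs := [7/20, 31/20])
    (by intro a ha; simp at ha; rcases ha with rfl | rfl <;> norm_num)
    (by intro a ha; simp at ha; rcases ha with rfl | rfl <;> norm_num) rfl
  have e : (-((2 : ℕ) : ℝ) + ([17/10, 47/20] : List ℝ).sum - ([7/20, 31/20] : List ℝ).sum)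
      = 15 / 100 := by norm_num
  rw [e] at h
  exact h

theorem LG_Roo2 : LG (fun x => Real.log (Roo2 (qq x ^ 2))) (15 / 100) := by
  have h := LG_Kr (m := 2) (as := [49/20, 21/20]) (bs := [23/20, 1/5])
    (by intro a ha; simp at ha; rcases ha with rfl | rfl <;> norm_num)
    (by intro a ha; simp at ha; rcases ha with rfl | rfl <;> norm_num) rfl
  have e : (-((2 : ℕ) : ℝ) + ([49/20, 21/20] : List ℝ).sum - ([23/20, 1/5] : List ℝ).sum)
      = 15 / 100 := by norm_num
  rw [e] at h
  exact h

theorem LG_Rooo : LG (fun x => Real.log (Rooo (qq x ^ 2))) (30 / 100) := by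
  have h := LG_Kr (m := 0) (as := [3]) (bs := [27/10])
    (by intro a ha; simp at ha; rcases ha with rfl; norm_num)
    (by intro a ha; simp at ha; rcases ha with rfl; norm_num) rfl
  have e : (-((0 : ℕ) : ℝ) + ([3] : List ℝ).sum - ([27/10] : List ℝ).sum)
      = 30 / 100 := by norm_num
  rw [e] at h
  exact h

theorem LG_R4 : LG (fun x => Real.log (R4 (qq x ^ 2))) (30 / 100) := by
  have h := LG_Kr (m := 2) (as := [6/5, 73/20]) (bs := [9/4, 3/10])
    (by intro a ha; simp at ha; rcases ha with rfl | rfl <;> norm_num)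
    (by intro a ha; simp at ha; rcases ha with rfl | rfl <;> norm_num) rfl
  have e : (-((2 : ℕ) : ℝ) + ([6/5, 73/20] : List ℝ).sum - ([9/4, 3/10] : List ℝ).sum)
      = 30 / 100 := by norm_num
  rw [e] at h
  exact h

theorem LG_R5 : LG (fun x => Real.log (R5 (qq x ^ 2))) (40 / 100) := by
  have h := LG_Kr (m := 3) (as := [21/10, 47/10]) (bs := [3/10, 31/10])
    (by intro a ha; simp at ha; rcases ha with rfl | rfl <;> norm_num)
    (by intro a ha; simp at ha; rcases ha with rfl | rfl <;> norm_num) rfl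
  have e : (-((3 : ℕ) : ℝ) + ([21/10, 47/10] : List ℝ).sum - ([3/10, 31/10] : List ℝ).sum)
      = 40 / 100 := by norm_num
  rw [e] at h
  exact h

end Pool.Agent.H59
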