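import Pool.Agent.H59.Account

set_option autoImplicit false

/-!
# Accounting: branches and roots
-/

namespace Pool.Agent.H59

open B

theorem size_pos : (b : B) → 0 < b.size
  | one => by simp [size]
  | graft a c => by have := size_pos a; simp [size]; omega

theorem size_child {c : B} : (b : B) → c ∈ b.children → c.size < b.size
  | one, h => by simp [children] at h
  | graft a d, h => by
    simp only [children, List.mem_cons] at h
    rcases h with rfl | h
    · have := size_pos a; simp [size]; omega
    · have := size_child a h; simp [size]; omega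

section

variable {q : ℝ}

theorem st_one : st q one = (-2 * q, 1 - q ^ 2, 1) := rfl

theorem st2 (a c : B) : (st q (graft (graft one a) c)).1 + q = q - ((eg q c).2 + (eg q a).2) ∧
    (st q (graft (graft one a) c)).2.1 = 1 - q ^ 2 + ((eg q c).1 + (eg q a).1) := by
  simp only [st_graft, st_one]
  constructor <;> ring

theorem st3 (a d c : B) : (st q (graft (graft (graft one a) d) c)).1 + q
      = 2 * q - ((eg q c).2 + ((eg q d).2 + (eg q a).2)) ∧
    (st q (graft (graft (graft one a) d) c)).2.1
      = 1 - q ^ 2 + ((eg q c).1 + ((eg q d).1 + (eg q a).1)) := by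
  simp only [st_graft, st_one]
  constructor <;> ring

theorem stL (b : B) (k : ℕ) (hk : b.children.length = k) :
    (st q b).1 = ((k : ℝ) - 2) * q - ((b.children.map (eg q)).map Prod.snd).sum ∧
    (st q b).2.1 = 1 - q ^ 2 + ((b.children.map (eg q)).map Prod.fst).sum := by
  rw [st_eq q b, hk]
  simp only [List.map_map]
  exact ⟨rfl, rfl⟩

end

theorem nf2 (a c : B) : nf (graft (graft one a) c).children
    = (if (fd c).1 = true then 1 else 0) + (if (fd a).1 = true then 1 else 0) := by
  simp only [children, nf_cons]
  simp [nf]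

theorem nf3 (a d c : B) : nf (graft (graft (graft one a) d) c).children
    = (if (fd c).1 = true then 1 else 0) + ((if (fd d).1 = true then 1 else 0)
      + (if (fd a).1 = true then 1 else 0)) := by
  simp only [children, nf_cons]
  simp [nf]

theorem LG_KJ (j : ℕ) : LG (fun x => Real.log (KJ j (qq x ^ 2)))
    (40 / 100 + j * (19 / 25 - 2 / Real.pi)) := by
  have h1 := LG.smul (j : ℝ) LG.one_sub
  have h2 := LG.factor (9/2 + 19/25 * j) (by positivity)
  have h3 := LG.neg (LG.factor (9/2) (by norm_num))
  have h4 := LG.add LG_K4 (LG.add h1 (LG.add h2 h3))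
  have e : (40 / 100 : ℝ) + ((j : ℝ) * (-(2 / Real.pi)) + ((9/2 + 19/25 * (j : ℝ) - 4 / Real.pi)
      + -(9/2 - 4 / Real.pi))) = 40 / 100 + j * (19 / 25 - 2 / Real.pi) := by ring
  rw [← e]
  refine h4.congr fun x hx => ?_
  have hq0 := qq_pos (x := x)
  have hq1 := qq_lt_one hx
  have hs : 0 < qq x ^ 2 := by positivity
  have hs1 : qq x ^ 2 < 1 := by nlinarith
  have h5 : 0 < 1 - qq x ^ 2 := by linarith
  have h6 := K4_pos hs hs1
  have h7 : 0 < fac (9/2 + 19/25 * (j : ℝ)) (qq x ^ 2) := fac_pos (by positivity) hs
  have h8 : 0 < fac (9/2) (qq x ^ 2) := fac_pos (by norm_num) hs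
  unfold KJ
  rw [Real.log_mul h6.ne' (by positivity), Real.log_mul (by positivity) (by positivity),
    Real.log_pow, Real.log_div h7.ne' h8.ne']
  unfold fac
  ring

theorem KJ_pos (j : ℕ) {s : ℝ} (h0 : 0 < s) (h1 : s < 1) : 0 < KJ j s := by
  unfold KJ
  have h6 := K4_pos h0 h1
  have h7 : 0 < fac (9/2 + 19/25 * (j : ℝ)) s := fac_pos (by positivity) h0
  have h8 : 0 < fac (9/2) s := fac_pos (by norm_num) h0
  have h5 : 0 < 1 - s := by linarith
  positivity

theorem LG_KR (j : ℕ) : LG (fun x => Real.log (KR j (qq x ^ 2)))
    (40 / 100 + j * (19 / 25 - 2 / Real.pi)) := by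
  have h1 := LG.smul (j : ℝ) LG.one_sub
  have h2 := LG.factor (22/5 + 19/25 * j) (by positivity)
  have h3 := LG.neg (LG.factor (22/5) (by norm_num))
  have h4 := LG.add LG_R5 (LG.add h1 (LG.add h2 h3))
  have e : (40 / 100 : ℝ) + ((j : ℝ) * (-(2 / Real.pi)) + ((22/5 + 19/25 * (j : ℝ) - 4 / Real.pi)
      + -(22/5 - 4 / Real.pi))) = 40 / 100 + j * (19 / 25 - 2 / Real.pi) := by ring
  rw [← e]
  refine h4.congr fun x hx => ?_
  have hq0 := qq_pos (x := x)
  have hq1 := qq_lt_one hx
  have hs : 0 < qq x ^ 2 := by positivity
  have hs1 : qq x ^ 2 < 1 := by nlinarith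
  have h5 : 0 < 1 - qq x ^ 2 := by linarith
  have h6 := R5_pos hs hs1
  have h7 : 0 < fac (22/5 + 19/25 * (j : ℝ)) (qq x ^ 2) := fac_pos (by positivity) hs
  have h8 : 0 < fac (22/5) (qq x ^ 2) := fac_pos (by norm_num) hs
  unfold KR
  rw [Real.log_mul h6.ne' (by positivity), Real.log_mul (by positivity) (by positivity),
    Real.log_pow, Real.log_div h7.ne' h8.ne']
  unfold fac
  ring

theorem KR_pos (j : ℕ) {s : ℝ} (h0 : 0 < s) (h1 : s < 1) : 0 < KR j s := by
  unfold KR
  have h6 := R5_pos h0 h1
  have h7 : 0 < fac (22/5 + 19/25 * (j : ℝ)) s := fac_pos (by positivity) h0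
  have h8 : 0 < fac (22/5) s := fac_pos (by norm_num) h0
  have h5 : 0 < 1 - s := by linarith
  positivity

theorem two_div_pi_lt : 2 / Real.pi < 6367 / 10000 := by
  rw [div_lt_iff₀ Real.pi_pos]
  have := Real.pi_gt_d4
  linarith

theorem join2 {u : ℝ} (hu0 : 0 ≤ u) (hu : u ≤ 2 / 17) {a c : B} (ha : Br u a) (hc : Br u c) :
    Val u (graft (graft one a) c) (3 / 100) ∧
      ((fd (graft (graft one a) c)).1 = true → Val u (graft (graft one a) c) (11 / 100)) := by
  have hnf := nf2 a c
  have hfree : (fd (graft (graft one a) c)).1 = true →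
      nf (graft (graft one a) c).children = 0 := by
    intro h
    rw [(fd_eq _).1] at h
    simpa using h
  by_cases hs : c.children.length ≤ 1 ∧ a.children.length ≤ 1
  · have key := Val.join (b := graft (graft one a) c) LG_K22 (fun s h0 h1 => K22_pos h0 h1)
      (by
        intro q hq0 hq1
        simp only [children, List.map_cons, List.map_nil, List.prod_cons, List.prod_nil, mul_one]
        rw [(st2 a c).1, (st2 a c).2]
        exact cert22 hq0 hq1 (small_cls hq0 hq1 hs.1) (small_cls hq0 hq1 hs.2))
      (LVal.cons hc.val (LVal.cons ha.val (LVal.nil u)))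
    have hle : nf (graft (graft one a) c).children - 1 ≤ 1 := by
      rw [hnf]; split_ifs <;> simp
    have hle' : ((nf (graft (graft one a) c).children - 1 : ℕ) : ℝ) ≤ 1 := by exact_mod_cast hle
    constructor
    · refine key.mono ?_
      nlinarith
    · intro h
      refine key.mono ?_
      rw [hfree h]
      norm_num
  · have key := fun v hv => Val.join (u := u) (b := graft (graft one a) c) (v := v) LG_K11
      (fun s h0 h1 => K11_pos h0 h1)
      (by
        intro q hq0 hq1
        simp only [children, List.map_cons, List.map_nil, List.prod_cons, List.prod_nil, mul_one]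
        rw [(st2 a c).1, (st2 a c).2]
        exact cert11 hq0 hq1 (clsD hq0 hq1 c) (clsD hq0 hq1 a)) hv
    -- the big child
    have hbig : ∃ w : ℝ, LVal u [c, a] w ∧ 3 / 100 ≤ w ∧
        ((fd c).1 = true → (fd a).1 = true → 11 / 100 ≤ w) := by
      rcases not_and_or.1 hs with h | h
      · have hb := Br.big hc (by omega)
        by_cases hf : (fd c).1 = true
        · exact ⟨_, LVal.cons (hb.2 hf) (LVal.cons ha.val (LVal.nil u)), by norm_num,
            fun _ _ => by norm_num⟩
        · exact ⟨_, LVal.cons hb.1 (LVal.cons ha.val (LVal.nil u)), by norm_num,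
            fun h => absurd h hf⟩
      · have hb := Br.big ha (by omega)
        by_cases hf : (fd a).1 = true
        · exact ⟨_, LVal.cons hc.val (LVal.cons (hb.2 hf) (LVal.nil u)), by norm_num,
            fun _ _ => by norm_num⟩
        · exact ⟨_, LVal.cons hc.val (LVal.cons hb.1 (LVal.nil u)), by norm_num,
            fun _ h => absurd h hf⟩
    obtain ⟨w, hw, hw1, hw2⟩ := hbig
    have key := key w hw
    constructor
    · refine key.mono ?_
      rw [hnf]
      by_cases h1 : (fd c).1 = true <;> by_cases h2 : (fd a).1 = true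
      · have := hw2 h1 h2
        simp only [h1, h2, if_true]
        norm_num
        linarith
      · simp only [h1, h2, if_true, if_false, Bool.false_eq_true]
        norm_num
        linarith
      · simp only [h1, h2, if_true, if_false, Bool.false_eq_true]
        norm_num
        linarith
      · simp only [h1, h2, if_false, Bool.false_eq_true]
        norm_num
        linarith
    · intro h
      refine key.mono ?_
      rw [hfree h]
      norm_num
      linarith

theorem join3 {u : ℝ} (hu0 : 0 ≤ u) (hu : u ≤ 2 / 17) {a d c : B} (ha : Br u a) (hd : Br u d)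
    (hc : Br u c) :
    Val u (graft (graft (graft one a) d) c) (3 / 100) ∧
      ((fd (graft (graft (graft one a) d) c)).1 = true →
        Val u (graft (graft (graft one a) d) c) (11 / 100)) := by
  have hfree : (fd (graft (graft (graft one a) d) c)).1 = true →
      nf (graft (graft (graft one a) d) c).children = 0 := by
    intro h
    rw [(fd_eq _).1] at h
    simpa using h
  have key := Val.join (b := graft (graft (graft one a) d) c) LG_K3 (fun s h0 h1 => K3_pos h0 h1)
    (by
      intro q hq0 hq1
      simp only [children, List.map_cons, List.map_nil, List.prod_cons, List.prod_nil, mul_one]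
      rw [(st3 a d c).1, (st3 a d c).2]
      exact cert3 hq0 hq1 (clsD hq0 hq1 c) (clsD hq0 hq1 d) (clsD hq0 hq1 a))
    (LVal.cons hc.val (LVal.cons hd.val (LVal.cons ha.val (LVal.nil u))))
  have hle : nf (graft (graft (graft one a) d) c).children - 1 ≤ 2 := by
    have := nf_le (graft (graft (graft one a) d) c).children
    simp only [children, List.length_cons, List.length_nil] at this ⊢
    omega
  have hle' : ((nf (graft (graft (graft one a) d) c).children - 1 : ℕ) : ℝ) ≤ 2 := by
    exact_mod_cast hle
  constructor
  · refine key.mono ?_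
    nlinarith
  · intro h
    refine key.mono ?_
    rw [hfree h]
    norm_num

theorem joinL {u : ℝ} (hu0 : 0 ≤ u) (hu : u ≤ 2 / 17) {b : B} (j : ℕ)
    (hb : b.children.length = j + 4) (hv : ∀ c ∈ b.children, Val u c 0) :
    Val u b (3 / 100) ∧ ((fd b).1 = true → Val u b (11 / 100)) := by
  have hfree : (fd b).1 = true → nf b.children = 0 := by
    intro h
    rw [(fd_eq _).1] at h
    simpa using h
  have key := Val.join (b := b) (LG_KJ j) (fun s h0 h1 => KJ_pos j h0 h1)
    (by
      intro q hq0 hq1
      rw [(stL b (j + 4) hb).1, (stL b (j + 4) hb).2]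
      have := certJ hq0 hq1 j (b.children.map (eg q)) (by simpa using hb)
        (by
          intro p hp
          obtain ⟨c, _, rfl⟩ := List.mem_map.1 hp
          exact clsD hq0 hq1 c)
      have e : (((j + 4 : ℕ) : ℝ) - 2) * q - ((b.children.map (eg q)).map Prod.snd).sum + q
          = (j + 3) * q - ((b.children.map (eg q)).map Prod.snd).sum := by
        push_cast; ring
      rw [e]
      exact this)
    (LVal.const b.children hv)
  have hle : nf b.children - 1 ≤ j + 3 := by
    have := nf_le b.children
    omega
  have hle' : ((nf b.children - 1 : ℕ) : ℝ) ≤ j + 3 := by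
    exact_mod_cast hle
  have hpi := two_div_pi_lt
  have hj : (0 : ℝ) ≤ j := by positivity
  constructor
  · refine key.mono ?_
    have h1 : u * ((nf b.children - 1 : ℕ) : ℝ) ≤ 2 / 17 * (j + 3) := by
      apply mul_le_mul hu hle' (by positivity) (by norm_num)
    nlinarith
  · intro h
    refine key.mono ?_
    rw [hfree h]
    have : (0 : ℝ) ≤ j * (19 / 25 - 2 / Real.pi) := mul_nonneg hj (by linarith)
    norm_num
    linarith

/-- All branches. -/
theorem branch {u : ℝ} (hu0 : 0 ≤ u) (hu : u ≤ 2 / 17) (n : ℕ) : ∀ b : B, b.size ≤ n → Br u b := by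
  induction n with
  | zero => intro b hb; have := size_pos b; omega
  | succ n ih =>
    intro b hb
    have ihc : ∀ c ∈ b.children, Br u c := fun c hc => ih c (by have := size_child b hc; omega)
    match b, hb, ihc with
    | one, _, _ => exact Or.inl ⟨⟨0, rfl⟩, Val.leg u 0⟩
    | graft one c, _, ihc =>
      rcases ihc c (by simp [children]) with ⟨⟨m, rfl⟩, h2⟩ | h
      · exact Or.inl ⟨⟨m + 1, rfl⟩, Val.leg u (m + 1)⟩
      · refine Or.inr ⟨h.1.ext, ?_⟩
        intro h2
        simp [children] at h2
    | graft (graft one a) c, _, ihc =>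
      have h := join2 hu0 hu (ihc a (by simp [children])) (ihc c (by simp [children]))
      exact Or.inr ⟨h.1, fun _ => h.2⟩
    | graft (graft (graft one a) d) c, _, ihc =>
      have h := join3 hu0 hu (ihc a (by simp [children])) (ihc d (by simp [children]))
        (ihc c (by simp [children]))
      exact Or.inr ⟨h.1, fun _ => h.2⟩
    | graft (graft (graft (graft a' e) a) d) c, _, ihc =>
      have h := joinL hu0 hu (b := graft (graft (graft (graft a' e) a) d) c)
        a'.children.length (by simp [children]) (fun c hc => (ihc c hc).val)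
      exact Or.inr ⟨h.1, fun _ => h.2⟩

end Pool.Agent.H59
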