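import Pool.Agent.H59.Account2

set_option autoImplicit false

/-!
# Accounting: the root
-/

namespace Pool.Agent.H59

open B

section

variable {u : ℝ}

theorem leg_zero_leaf {q : ℝ} (hq0 : 0 < q) (hq1 : q < 1) : Leaf q (eg q (leg 0)) :=
  leaf_one hq0 hq1

theorem leg_succ_cls2 {q : ℝ} (hq0 : 0 < q) (hq1 : q < 1) (n : ℕ) :
    Cls2 (q ^ 2) (eg q (leg (n + 1))) := cls2_ext hq0 hq1 (leg n)

theorem gen3 (A : B) (i j : ℕ) {v : ℝ} (hv : LVal u [leg j, leg i, A] v) :
    RVal u (graft (graft (graft one A) (leg i)) (leg j))
      (6 / 100 + v - u * pen (nf [leg j, leg i, A])) := by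
  have hs : ∀ q : ℝ, (st q (graft (graft (graft one A) (leg i)) (leg j))).1
      = q - ((eg q (leg j)).2 + ((eg q (leg i)).2 + (eg q A).2)) ∧
      (st q (graft (graft (graft one A) (leg i)) (leg j))).2.1
      = 1 - q ^ 2 + ((eg q (leg j)).1 + ((eg q (leg i)).1 + (eg q A).1)) := by
    intro q
    obtain ⟨h1, h2⟩ := st3 (q := q) A (leg i) (leg j)
    exact ⟨by linarith, h2⟩
  rcases i with _ | i
  · rcases j with _ | j
    · have key := RVal.join (b := graft (graft (graft one A) (leg 0)) (leg 0)) LG_R00
        (fun s h0 h1 => R00_pos h0 h1)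
        (by
          intro q hq0 hq1
          simp only [children, List.map_cons, List.map_nil, List.prod_cons, List.prod_nil, mul_one]
          rw [(hs q).1, (hs q).2]
          exact certR00 hq0 hq1 (leg_zero_leaf hq0 hq1) (leg_zero_leaf hq0 hq1) (clsD hq0 hq1 A))
        hv
      refine key.mono ?_
      simp only [children]
      linarith
    · have key := RVal.join (b := graft (graft (graft one A) (leg 0)) (leg (j + 1))) LG_R02
        (fun s h0 h1 => R02_pos h0 h1)
        (by
          intro q hq0 hq1
          simp only [children, List.map_cons, List.map_nil, List.prod_cons, List.prod_nil, mul_one]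
          rw [(hs q).1, (hs q).2]
          have := certR02 hq0 hq1 (leg_zero_leaf hq0 hq1) (leg_succ_cls2 hq0 hq1 j) (clsD hq0 hq1 A)
          have e1 : psi (q ^ 2) (eg q (leg (j + 1))) * (psi (q ^ 2) (eg q (leg 0)) * psi (q ^ 2) (eg q A))
              = psi (q ^ 2) (eg q (leg 0)) * (psi (q ^ 2) (eg q (leg (j + 1))) * psi (q ^ 2) (eg q A)) := by
            ring
          have e2 : (eg q (leg (j + 1))).2 + ((eg q (leg 0)).2 + (eg q A).2)
              = (eg q (leg 0)).2 + ((eg q (leg (j + 1))).2 + (eg q A).2) := by ring
          have e3 : (eg q (leg (j + 1))).1 + ((eg q (leg 0)).1 + (eg q A).1)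
              = (eg q (leg 0)).1 + ((eg q (leg (j + 1))).1 + (eg q A).1) := by ring
          rw [e1, e2, e3]
          exact this)
        hv
      refine key.mono ?_
      simp only [children]
      linarith
  · rcases j with _ | j
    · have key := RVal.join (b := graft (graft (graft one A) (leg (i + 1))) (leg 0)) LG_R02
        (fun s h0 h1 => R02_pos h0 h1)
        (by
          intro q hq0 hq1
          simp only [children, List.map_cons, List.map_nil, List.prod_cons, List.prod_nil, mul_one]
          rw [(hs q).1, (hs q).2]
          exact certR02 hq0 hq1 (leg_zero_leaf hq0 hq1) (leg_succ_cls2 hq0 hq1 i) (clsD hq0 hq1 A))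
        hv
      refine key.mono ?_
      simp only [children]
      linarith
    · have key := RVal.join (b := graft (graft (graft one A) (leg (i + 1))) (leg (j + 1))) LG_R22
        (fun s h0 h1 => R22_pos h0 h1)
        (by
          intro q hq0 hq1
          simp only [children, List.map_cons, List.map_nil, List.prod_cons, List.prod_nil, mul_one]
          rw [(hs q).1, (hs q).2]
          exact certR22 hq0 hq1 (leg_succ_cls2 hq0 hq1 j) (leg_succ_cls2 hq0 hq1 i)
            (clsD hq0 hq1 A))
        hv
      refine key.mono ?_
      simp only [children]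
      linarith

theorem leg_odd {q : ℝ} (hq0 : 0 < q) (hq1 : q < 1) {n : ℕ} (hn : (fd (leg n)).1 = true) :
    OddL (q ^ 2) (eg q (leg n)) := by
  obtain ⟨h1, _, h3, _⟩ := leg_facts hq0 hq1 n
  exact ⟨h1, h3 ((fd_leg n).2.1 hn)⟩

theorem root3 {τ : ℝ} (hu0 : 0 ≤ u) (h1 : (2 - τ) * u ≤ 1641 / 10000)
    (h2 : (1 - τ) * u ≤ 53 / 1000) (A : B) (hA : Br u A) (i j : ℕ) (hτ : τ ≤ 1) (hτ0 : 0 ≤ τ) :
    RVal u (graft (graft (graft one A) (leg i)) (leg j)) (-(τ * u)) := by
  have hs : ∀ q : ℝ, (st q (graft (graft (graft one A) (leg i)) (leg j))).1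
      = q - ((eg q (leg j)).2 + ((eg q (leg i)).2 + (eg q A).2)) ∧
      (st q (graft (graft (graft one A) (leg i)) (leg j))).2.1
      = 1 - q ^ 2 + ((eg q (leg j)).1 + ((eg q (leg i)).1 + (eg q A).1)) := by
    intro q
    obtain ⟨h1, h2⟩ := st3 (q := q) A (leg i) (leg j)
    exact ⟨by linarith, h2⟩
  by_cases hall : (fd (leg j)).1 = true ∧ (fd (leg i)).1 = true ∧ (fd A).1 = true
  · obtain ⟨hj, hi, hAf⟩ := hall
    have hnf : nf [leg j, leg i, A] = 3 := by
      simp only [nf_cons, hj, hi, hAf, if_true]
      simp [nf]
    have hpen : pen (nf [leg j, leg i, A]) = 2 := by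
      rw [hnf]; unfold pen; norm_num
    rcases hA with ⟨⟨n, rfl⟩, hv⟩ | ⟨hv1, hv2⟩
    · -- spider
      have key := RVal.join (b := graft (graft (graft one (leg n)) (leg i)) (leg j)) LG_Rooo
        (fun s h0 h1 => Rooo_pos h0 h1)
        (by
          intro q hq0 hq1
          simp only [children, List.map_cons, List.map_nil, List.prod_cons, List.prod_nil, mul_one]
          rw [(hs q).1, (hs q).2]
          exact certRooo hq0 hq1 (leg_odd hq0 hq1 hj) (leg_odd hq0 hq1 hi) (leg_odd hq0 hq1 hAf))
        (LVal.cons (Val.leg u j) (LVal.cons (Val.leg u i) (LVal.cons hv (LVal.nil u))))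
      refine key.mono ?_
      simp only [children]
      rw [hpen]
      linarith
    · by_cases hlen : 2 ≤ A.children.length
      · have hw := hv2 hlen hAf
        have key := gen3 A i j
          (LVal.cons (Val.leg u j) (LVal.cons (Val.leg u i) (LVal.cons hw (LVal.nil u))))
        refine key.mono ?_
        rw [hpen]
        linarith
      · match A, hlen, hv1, hAf, hpen, hs with
        | one, _, hv1, _, hpen, _ =>
          -- impossible class, but the bound still holds: a single vertex is a path
          have hv' : Val u (leg 0) 0 := Val.leg u 0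
          have key := RVal.join (b := graft (graft (graft one (leg 0)) (leg i)) (leg j)) LG_Rooo
            (fun s h0 h1 => Rooo_pos h0 h1)
            (by
              intro q hq0 hq1
              simp only [children, List.map_cons, List.map_nil, List.prod_cons, List.prod_nil,
                mul_one]
              obtain ⟨h1, h2⟩ := st3 (q := q) (leg 0) (leg i) (leg j)
              rw [show (st q (graft (graft (graft one (leg 0)) (leg i)) (leg j))).1
                = q - ((eg q (leg j)).2 + ((eg q (leg i)).2 + (eg q (leg 0)).2)) by linarith, h2]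
              exact certRooo hq0 hq1 (leg_odd hq0 hq1 hj) (leg_odd hq0 hq1 hi)
                (leg_odd hq0 hq1 (by simp [leg, fd])))
            (LVal.cons (Val.leg u j) (LVal.cons (Val.leg u i) (LVal.cons hv' (LVal.nil u))))
          refine key.mono ?_
          simp only [children]
          have : pen (nf [leg j, leg i, leg 0]) = 2 := hpen
          rw [this]
          linarith
        | graft one c, _, hv1, _, hpen, hs =>
          have key := RVal.join (b := graft (graft (graft one (graft one c)) (leg i)) (leg j))
            LG_Roo2 (fun s h0 h1 => Roo2_pos h0 h1)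
            (by
              intro q hq0 hq1
              simp only [children, List.map_cons, List.map_nil, List.prod_cons, List.prod_nil,
                mul_one]
              rw [(hs q).1, (hs q).2]
              exact certRoo2 hq0 hq1 (leg_odd hq0 hq1 hj) (leg_odd hq0 hq1 hi)
                (cls2_ext hq0 hq1 c))
            (LVal.cons (Val.leg u j) (LVal.cons (Val.leg u i) (LVal.cons hv1 (LVal.nil u))))
          refine key.mono ?_
          simp only [children]
          rw [hpen]
          linarith
        | graft (graft a d) c, h, _, _, _, _ => simp [children] at h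
  · have key := gen3 A i j
      (LVal.cons (Val.leg u j) (LVal.cons (Val.leg u i) (LVal.cons hA.val (LVal.nil u))))
    refine key.mono ?_
    have hpen : pen (nf [leg j, leg i, A]) ≤ 1 := by
      have h3 : nf [leg j, leg i, A] ≤ 2 := by
        simp only [nf_cons]
        have h0 : nf [] = 0 := rfl
        rw [h0]
        by_contra hc
        apply hall
        refine ⟨?_, ?_, ?_⟩
        · by_contra h; rw [if_neg h] at hc
          split_ifs at hc <;> omega
        · by_contra h; rw [if_neg h] at hc
          split_ifs at hc <;> omega
        · by_contra h; rw [if_neg h] at hc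
          split_ifs at hc <;> omega
      unfold pen
      interval_cases h : nf [leg j, leg i, A] <;> norm_num
    nlinarith

theorem pen_le {n m : ℕ} (h : n ≤ m + 1) (hm : 1 ≤ m) : pen n ≤ m := by
  unfold pen
  by_cases h0 : n = 0
  · subst h0
    simp
    exact_mod_cast hm
  · simp only [h0, if_false, add_zero]
    exact_mod_cast (by omega : n - 1 ≤ m)

theorem rootL {τ : ℝ} (hu0 : 0 ≤ u) (hu : u ≤ 2 / 17) (h1 : (3 - τ) * u ≤ 2753 / 10000)
    {b : B} (hb : 4 ≤ b.children.length) (hv : ∀ c ∈ b.children, Val u c 0) :
    RVal u b (-(τ * u)) := by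
  obtain ⟨k, hk⟩ := Nat.exists_eq_add_of_le hb
  rcases k with _ | j
  · have hk : b.children.length = 4 := by omega
    have key := RVal.join (b := b) LG_R4 (fun s h0 h1 => R4_pos h0 h1)
      (by
        intro q hq0 hq1
        rw [(stL b 4 hk).1, (stL b 4 hk).2]
        have := certR4 hq0 hq1 (b.children.map (eg q)) (by simpa using hk)
          (by
            intro p hp
            obtain ⟨c, _, rfl⟩ := List.mem_map.1 hp
            exact clsD hq0 hq1 c)
        have e : (((4 : ℕ) : ℝ) - 2) * q = 2 * q := by norm_num
        rw [e]
        exact this)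
      (LVal.const b.children hv)
    refine key.mono ?_
    have hp : pen (nf b.children) ≤ ((3 : ℕ) : ℝ) :=
      pen_le (by have := nf_le b.children; omega) (by norm_num)
    norm_num at hp
    nlinarith
  · have hk : b.children.length = j + 5 := by omega
    have key := RVal.join (b := b) (LG_KR j) (fun s h0 h1 => KR_pos j h0 h1)
      (by
        intro q hq0 hq1
        rw [(stL b (j + 5) hk).1, (stL b (j + 5) hk).2]
        have := certR hq0 hq1 j (b.children.map (eg q)) (by simpa using hk)
          (by
            intro p hp
            obtain ⟨c, _, rfl⟩ := List.mem_map.1 hp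
            exact clsD hq0 hq1 c)
        have e : (((j + 5 : ℕ) : ℝ) - 2) * q = (j + 3) * q := by push_cast; ring
        rw [e]
        exact this)
      (LVal.const b.children hv)
    refine key.mono ?_
    have hp : pen (nf b.children) ≤ ((j + 4 : ℕ) : ℝ) :=
      pen_le (by have := nf_le b.children; omega) (by omega)
    have hpi := two_div_pi_lt
    have hj : (0 : ℝ) ≤ j := by positivity
    push_cast at hp
    have h2 : u * pen (nf b.children) ≤ u * (j + 4) := mul_le_mul_of_nonneg_left hp hu0
    have h3 : u * j ≤ 2 / 17 * j := mul_le_mul_of_nonneg_right hu hj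
    nlinarith

end

end Pool.Agent.H59
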