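import Mathlib

set_option autoImplicit false

/-!
# Kernel-checked positivity of integer polynomials on `[0, 1]`
-/

namespace Pool.Agent.H59.Bern

/-- Horner evaluation. -/
def ev : List ℤ → ℝ → ℝ
  | [], _ => 0
  | a :: l, s => a + s * ev l s

/-- Homogeneous evaluation `∑ c_j x^j y^(n-j)`, `n = length - 1`. -/
def hm : List ℤ → ℝ → ℝ → ℝ
  | [], _, _ => 0
  | a :: l, x, y => a * y ^ l.length + x * hm l x y

def addL : List ℤ → List ℤ → List ℤ
  | [], b => b
  | a, [] => a
  | x :: a, y :: b => (x + y) :: addL a b

def smulL (c : ℤ) : List ℤ → List ℤ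
  | [] => []
  | x :: a => (c * x) :: smulL c a

/-- Binomial row. -/
def row : ℕ → List ℤ
  | 0 => [1]
  | n + 1 => addL (0 :: row n) (row n ++ [0])

/-- Scaled Bernstein coefficients. -/
def toB : List ℤ → List ℤ
  | [] => []
  | a :: l => addL (smulL a (row l.length)) (0 :: toB l)

theorem length_smulL (c : ℤ) : (l : List ℤ) → (smulL c l).length = l.length
  | [] => rfl
  | _ :: l => by simp [smulL, length_smulL c l]

theorem length_addL : (a b : List ℤ) → (addL a b).length = max a.length b.length
  | [], b => by simp [addL]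
  | _ :: a, [] => by simp [addL]
  | _ :: a, _ :: b => by simp [addL, length_addL a b]

theorem length_row : (n : ℕ) → (row n).length = n + 1
  | 0 => rfl
  | n + 1 => by simp [row, length_addL, length_row n]

theorem length_toB : (l : List ℤ) → (toB l).length = l.length
  | [] => rfl
  | a :: l => by simp [toB, length_addL, length_smulL, length_row, length_toB l]

theorem hm_addL : (a b : List ℤ) → a.length = b.length → ∀ x y : ℝ,
    hm (addL a b) x y = hm a x y + hm b x y
  | [], [], _, x, y => by simp [addL, hm]
  | p :: a, q :: b, h, x, y => by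
    have h' : a.length = b.length := by simpa using h
    simp only [addL, hm, hm_addL a b h' x y, length_addL, h', max_self]
    push_cast
    ring

theorem hm_smulL (c : ℤ) : (a : List ℤ) → ∀ x y : ℝ, hm (smulL c a) x y = c * hm a x y
  | [], x, y => by simp [smulL, hm]
  | p :: a, x, y => by
    simp only [smulL, hm, hm_smulL c a x y, length_smulL]
    push_cast
    ring

theorem hm_append_zero : (a : List ℤ) → ∀ x y : ℝ, hm (a ++ [0]) x y = y * hm a x y
  | [], x, y => by simp [hm]
  | p :: a, x, y => by
    simp only [List.cons_append, hm, hm_append_zero a x y, List.length_append, List.length_cons,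
      List.length_nil]
    ring

theorem hm_zero_cons (a : List ℤ) (x y : ℝ) : hm (0 :: a) x y = x * hm a x y := by
  simp [hm]

theorem hm_row : (n : ℕ) → ∀ x y : ℝ, hm (row n) x y = (x + y) ^ n
  | 0, x, y => by simp [row, hm]
  | n + 1, x, y => by
    rw [row, hm_addL _ _ (by simp), hm_zero_cons, hm_append_zero, hm_row n x y]
    ring

theorem hm_toB : (l : List ℤ) → ∀ s : ℝ, hm (toB l) s (1 - s) = ev l s
  | [], s => by simp [toB, hm, ev]
  | a :: l, s => by
    rw [toB, hm_addL _ _ (by simp [length_smulL, length_row, length_toB]), hm_smulL, hm_row,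
      hm_zero_cons, hm_toB l s, ev]
    simp

theorem hm_nonneg : (l : List ℤ) → (∀ c ∈ l, 0 ≤ c) → ∀ x y : ℝ, 0 ≤ x → 0 ≤ y → 0 ≤ hm l x y
  | [], _, x, y, _, _ => by simp [hm]
  | a :: l, h, x, y, hx, hy => by
    have h1 : (0 : ℝ) ≤ a := by exact_mod_cast h a (by simp)
    have h2 := hm_nonneg l (fun c hc => h c (by simp [hc])) x y hx hy
    simp only [hm]
    positivity

/-- `2^n p(s/2)`, `n = length - 1`. -/
def half : List ℤ → List ℤ
  | [] => []
  | a :: l => (a * 2 ^ l.length) :: half l

/-- `p(1 + s)`. -/
def shift : List ℤ → List ℤ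
  | [] => []
  | a :: l => addL [a] (addL (shift l) (0 :: shift l))

theorem ev_addL : (a b : List ℤ) → ∀ s : ℝ, ev (addL a b) s = ev a s + ev b s
  | [], b, s => by simp [addL, ev]
  | p :: a, [], s => by simp [addL, ev]
  | p :: a, q :: b, s => by
    simp only [addL, ev, ev_addL a b s]
    push_cast
    ring

theorem length_half : (l : List ℤ) → (half l).length = l.length
  | [] => rfl
  | a :: l => by simp [half, length_half l]

theorem ev_half : (l : List ℤ) → ∀ s : ℝ, 2 * ev (half l) (2 * s) = 2 ^ l.length * ev l s
  | [], s => by simp [half, ev]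
  | a :: l, s => by
    have h := ev_half l s
    simp only [half, ev, List.length_cons]
    push_cast
    have e : 2 * ((a : ℝ) * 2 ^ l.length + 2 * s * ev (half l) (2 * s))
        = 2 * (a : ℝ) * 2 ^ l.length + 2 * s * (2 * ev (half l) (2 * s)) := by ring
    rw [e, h]
    ring

theorem ev_shift : (l : List ℤ) → ∀ s : ℝ, ev (shift l) s = ev l (1 + s)
  | [], s => by simp [shift, ev]
  | a :: l, s => by
    simp only [shift, ev_addL, ev, ev_shift l s]
    simp
    ring

/-- Bernstein positivity test on `[0,1]` with bisection. -/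
def check : ℕ → List ℤ → Bool
  | 0, l => (toB l).all (fun c => decide (0 ≤ c))
  | n + 1, l => (toB l).all (fun c => decide (0 ≤ c)) ||
      (check n (half l) && check n (shift (half l)))

theorem check_sound : (n : ℕ) → (l : List ℤ) → check n l = true → ∀ s : ℝ, 0 ≤ s → s ≤ 1 →
    0 ≤ ev l s
  | 0, l, h, s, h0, h1 => by
    rw [← hm_toB]
    apply hm_nonneg _ _ _ _ h0 (by linarith)
    intro c hc
    have := List.all_eq_true.1 h c hc
    exact of_decide_eq_true this
  | n + 1, l, h, s, h0, h1 => by
    simp only [check, Bool.or_eq_true, Bool.and_eq_true] at h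
    rcases h with h | ⟨h2, h3⟩
    · rw [← hm_toB]
      apply hm_nonneg _ _ _ _ h0 (by linarith)
      intro c hc
      have := List.all_eq_true.1 h c hc
      exact of_decide_eq_true this
    · have key := ev_half l s
      have hp : (0 : ℝ) < 2 ^ l.length := by positivity
      have h4 : 0 ≤ ev (half l) (2 * s) := by
        rcases le_total (2 * s) 1 with h5 | h5
        · exact check_sound n _ h2 (2 * s) (by linarith) h5
        · have := check_sound n _ h3 (2 * s - 1) (by linarith) (by linarith)
          rw [ev_shift] at this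
          simpa using this
      have h6 : 0 ≤ 2 ^ l.length * ev l s := by rw [← key]; linarith
      exact nonneg_of_mul_nonneg_right h6 hp

theorem pos_of_check (n : ℕ) (l : List ℤ) (h : check n l = true) {s : ℝ} (h0 : 0 ≤ s)
    (h1 : s ≤ 1) : 0 ≤ ev l s := check_sound n l h s h0 h1

end Pool.Agent.H59.Bern
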