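import Pool.Agent.H59.Bern
import Pool.Agent.H59.KDefs
set_option autoImplicit false
set_option maxRecDepth 10000
set_option maxHeartbeats 4000000
namespace Pool.Agent.H59
open Bern

def L_cJ11_p_lo_0_0 : List ℤ := [0,202860000,1157845031,-6970685155,16938520372,-24474010558,22936450558,-13897480372,5032505155,-957225031,231220000,-200000000]
def L_cJ11_p_lo_1_0 : List ℤ := [0,52860000,1041985031,-2506325062,2349445031,-273124969,-1610245062,2139030031,-1673630000,946080000,-157555000,-358520000,50000000]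
def L_cJ11_p_lo_2_0 : List ℤ := [0,2860000,409085031,-165414969,-713565031,-1414805031,2139800000,1376740000,-1566540000,234700000,-468780000,-34080000,200000000]

theorem cJ11_p_lo {s w : ℝ} (hs0 : 0 < s) (hs1 : s < 1) (hw0 : 0 ≤ w) (hw1 : w ≤ 1) :
    K11 s*(((((1-s)*(1-s+s^(2:ℕ))*(1-w)+(1+s)*w)/((1+s)*(1-s+s^(2:ℕ))))^(2:ℕ))) ≤ ((1/4)*(1-s)^(2:ℕ)/(s+(1/4)*(1-s)^(2:ℕ))*((1)^(2:ℕ)*s)-(1/4)*(1-s)^(2:ℕ)/s*(4*((s*(1-s)/(1-s+s^(2:ℕ))*w)*(s/(1-s)-(s*(1-s)/(1-s+s^(2:ℕ))*w)))))+(1-s+(2*(s*(1-s)/(1-s+s^(2:ℕ))*w)))^(2:ℕ)+s*(1-s+(2*(s*(1-s)/(1-s+s^(2:ℕ))*w))) := by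
  have ho : 0 < 1 - s := by linarith
  have hp : 0 < 1 + s := by linarith
  have hd : 0 < 1 - s + s^(2:ℕ) := by positivity
  have h5 : 0 < 1 + s^(5:ℕ) := by positivity
  have h1w : 0 ≤ 1 - w := by linarith
  have n0_0 : 0 ≤ ev L_cJ11_p_lo_0_0 s := pos_of_check 8 _ (by decide +kernel) hs0.le hs1.le
  have n1_0 : 0 ≤ ev L_cJ11_p_lo_1_0 s := pos_of_check 8 _ (by decide +kernel) hs0.le hs1.le
  have n2_0 : 0 ≤ ev L_cJ11_p_lo_2_0 s := pos_of_check 8 _ (by decide +kernel) hs0.le hs1.le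
  have hth : 0 < s+(1/4)*(1-s)^(2:ℕ) := by positivity
  have hf0 : 0 < (1-s)^(2:ℕ)+(107/50)^(2:ℕ)*s := by positivity
  have hf1 : 0 < (1-s)^(2:ℕ)+(1/2)^(2:ℕ)*s := by positivity
  rw [← sub_nonneg]
  refine le_of_le_of_eq (b := (1*w^(0:ℕ)*(1-w)^(2:ℕ)*ev L_cJ11_p_lo_0_0 s
      + 2*w^(1:ℕ)*(1-w)^(1:ℕ)*ev L_cJ11_p_lo_1_0 s
      + 1*w^(2:ℕ)*(1-w)^(0:ℕ)*ev L_cJ11_p_lo_2_0 s) / (100000000*(1+s)^(3:ℕ)*(1-s+s^(2:ℕ))^(2:ℕ)*((1-s)^(2:ℕ)+(107/50)^(2:ℕ)*s)^(1:ℕ)*((1-s)^(2:ℕ)+(1/2)^(2:ℕ)*s)^(1:ℕ))) ?_ (Eq.symm ?_)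
  ·
    generalize ev L_cJ11_p_lo_0_0 s = PL_cJ11_p_lo_0_0 at *
    generalize ev L_cJ11_p_lo_1_0 s = PL_cJ11_p_lo_1_0 at *
    generalize ev L_cJ11_p_lo_2_0 s = PL_cJ11_p_lo_2_0 at *
    positivity
  simp only [K11, Kr, fac, List.map_cons, List.map_nil, List.prod_cons, List.prod_nil, mul_one, pow_one]
  push_cast
  generalize hgth : s+(1/4)*(1-s)^(2:ℕ) = th at *
  generalize hgf0 : (1-s)^(2:ℕ)+(107/50)^(2:ℕ)*s = f0 at *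
  generalize hgf1 : (1-s)^(2:ℕ)+(1/2)^(2:ℕ)*s = f1 at *
  field_simp
  simp only [ev, L_cJ11_p_lo_0_0, L_cJ11_p_lo_1_0, L_cJ11_p_lo_2_0]
  push_cast
  rw [← hgth, ← hgf0, ← hgf1]
  ring


def L_cJ11_p_hi_0_0 : List ℤ := [0,2860000,400505031,-1381230062,1407580000,-1560669938,5816514969,-10134180000,7953960000,-3209440000,704720000,433460000,-634080000,200000000]
def L_cJ11_p_hi_1_0 : List ℤ := [0,2860000,550505031,-1403930062,1759360031,-2763629969,5877794938,-8657244969,7726565000,-3635155000,219055000,607900000,-484080000,200000000]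
def L_cJ11_p_hi_2_0 : List ℤ := [0,2860000,700505031,-1326630062,2494100062,-3766280000,6539889938,-7825209938,6848354969,-2900360000,316350000,882340000,-334080000,200000000]

theorem cJ11_p_hi {s w : ℝ} (hs0 : 0 < s) (hs1 : s < 1) (hw0 : 0 ≤ w) (hw1 : w ≤ 1) :
    K11 s*(((((1-s)*(1-w)+(1-s+s^(2:ℕ))*w)/((1-s)*(1-s+s^(2:ℕ))))^(2:ℕ))) ≤ ((1/4)*(1-s)^(2:ℕ)/(s+(1/4)*(1-s)^(2:ℕ))*((1)^(2:ℕ)*s)-(1/4)*(1-s)^(2:ℕ)/s*(4*((s*((1-s)^(2:ℕ)+s*w)/((1-s)*(1-s+s^(2:ℕ))))*(s/(1-s)-(s*((1-s)^(2:ℕ)+s*w)/((1-s)*(1-s+s^(2:ℕ))))))))+(1-s+(2*(s*((1-s)^(2:ℕ)+s*w)/((1-s)*(1-s+s^(2:ℕ))))))^(2:ℕ)+s*(1-s+(2*(s*((1-s)^(2:ℕ)+s*w)/((1-s)*(1-s+s^(2:ℕ)))))) := by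
  have ho : 0 < 1 - s := by linarith
  have hp : 0 < 1 + s := by linarith
  have hd : 0 < 1 - s + s^(2:ℕ) := by positivity
  have h5 : 0 < 1 + s^(5:ℕ) := by positivity
  have h1w : 0 ≤ 1 - w := by linarith
  have n0_0 : 0 ≤ ev L_cJ11_p_hi_0_0 s := pos_of_check 8 _ (by decide +kernel) hs0.le hs1.le
  have n1_0 : 0 ≤ ev L_cJ11_p_hi_1_0 s := pos_of_check 8 _ (by decide +kernel) hs0.le hs1.le
  have n2_0 : 0 ≤ ev L_cJ11_p_hi_2_0 s := pos_of_check 8 _ (by decide +kernel) hs0.le hs1.le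
  have hth : 0 < s+(1/4)*(1-s)^(2:ℕ) := by positivity
  have hf0 : 0 < (1-s)^(2:ℕ)+(107/50)^(2:ℕ)*s := by positivity
  have hf1 : 0 < (1-s)^(2:ℕ)+(1/2)^(2:ℕ)*s := by positivity
  rw [← sub_nonneg]
  refine le_of_le_of_eq (b := (1*w^(0:ℕ)*(1-w)^(2:ℕ)*ev L_cJ11_p_hi_0_0 s
      + 2*w^(1:ℕ)*(1-w)^(1:ℕ)*ev L_cJ11_p_hi_1_0 s
      + 1*w^(2:ℕ)*(1-w)^(0:ℕ)*ev L_cJ11_p_hi_2_0 s) / (100000000*(1-s)^(2:ℕ)*(1+s)^(2:ℕ)*(1-s+s^(2:ℕ))^(2:ℕ)*((1-s)^(2:ℕ)+(107/50)^(2:ℕ)*s)^(1:ℕ)*((1-s)^(2:ℕ)+(1/2)^(2:ℕ)*s)^(1:ℕ))) ?_ (Eq.symm ?_)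
  ·
    generalize ev L_cJ11_p_hi_0_0 s = PL_cJ11_p_hi_0_0 at *
    generalize ev L_cJ11_p_hi_1_0 s = PL_cJ11_p_hi_1_0 at *
    generalize ev L_cJ11_p_hi_2_0 s = PL_cJ11_p_hi_2_0 at *
    positivity
  simp only [K11, Kr, fac, List.map_cons, List.map_nil, List.prod_cons, List.prod_nil, mul_one, pow_one]
  push_cast
  generalize hgth : s+(1/4)*(1-s)^(2:ℕ) = th at *
  generalize hgf0 : (1-s)^(2:ℕ)+(107/50)^(2:ℕ)*s = f0 at *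
  generalize hgf1 : (1-s)^(2:ℕ)+(1/2)^(2:ℕ)*s = f1 at *
  field_simp
  simp only [ev, L_cJ11_p_hi_0_0, L_cJ11_p_hi_1_0, L_cJ11_p_hi_2_0]
  push_cast
  rw [← hgth, ← hgf0, ← hgf1]
  ring


end Pool.Agent.H59
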