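import Pool.Agent.H59.Bern
import Pool.Agent.H59.KDefs
set_option autoImplicit false
set_option maxRecDepth 10000
set_option maxHeartbeats 4000000
namespace Pool.Agent.H59
open Bern

def L_cR4_r_lo_0_0 : List ℤ := [0,526800,6447147,-53196120,205030578,-539006832,1087343595,-1775012892,2392386642,-2670148836,2450108892,-1822832892,1081199970,-503768832,185753403,-58111020,15994722,-2223900,-1228725,618300,120000]
def L_cR4_r_lo_1_0 : List ℤ := [0,286800,5950947,-31818129,81188181,-129109962,131411298,-73046196,-13694025,80250771,-106975998,105877887,-86923581,54311904,-18305022,-4795350,8078625,-2696025,-850425,738300,120000]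
def L_cR4_r_lo_2_0 : List ℤ := [0,126800,4786947,-13762788,18141832,-5284044,-27169779,47880664,-29660004,-17265144,46514032,-27438888,-8252028,22257700,-10848675,-4573800,6547600,-2878800,-179925,938300,120000]
def L_cR4_r_lo_3_0 : List ℤ := [0,46800,2955147,-2270097,461031,-402534,-8513400,17203284,-11811831,-15748953,35630478,-14166825,-15436575,21828900,-8513400,-5028150,4205775,-2680725,902775,1218300,120000]
def L_cR4_r_lo_4_0 : List ℤ := [0,46800,455547,-580056,2995278,-6590388,-2795697,22990644,-22649178,-15867000,44108100,-14335500,-20707050,21468900,-4857825,-6609900,933150,-2101800,2397675,1578300,120000]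

theorem cR4_r_lo {s w : ℝ} (hs0 : 0 < s) (hs1 : s < 1) (hw0 : 0 ≤ w) (hw1 : w ≤ 1) :
    R4 s*(((((1-s)*(1-s+s^(2:ℕ))*(1-w)+(1+s)*w)/((1+s)*(1-s+s^(2:ℕ))))^(4:ℕ))) ≤ ((1/4)*(1-s)^(2:ℕ)/(s+(1/4)*(1-s)^(2:ℕ))*((2)^(2:ℕ)*s)-(1/4)*(1-s)^(2:ℕ)/s*(16*((s*(1-s)/(1-s+s^(2:ℕ))*w)*(s/(1-s)-(s*(1-s)/(1-s+s^(2:ℕ))*w)))))+(1-s+(4*(s*(1-s)/(1-s+s^(2:ℕ))*w)))^(2:ℕ) := by
  have ho : 0 < 1 - s := by linarith
  have hp : 0 < 1 + s := by linarith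
  have hd : 0 < 1 - s + s^(2:ℕ) := by positivity
  have h5 : 0 < 1 + s^(5:ℕ) := by positivity
  have h1w : 0 ≤ 1 - w := by linarith
  have n0_0 : 0 ≤ ev L_cR4_r_lo_0_0 s := pos_of_check 8 _ (by decide +kernel) hs0.le hs1.le
  have n1_0 : 0 ≤ ev L_cR4_r_lo_1_0 s := pos_of_check 8 _ (by decide +kernel) hs0.le hs1.le
  have n2_0 : 0 ≤ ev L_cR4_r_lo_2_0 s := pos_of_check 8 _ (by decide +kernel) hs0.le hs1.le
  have n3_0 : 0 ≤ ev L_cR4_r_lo_3_0 s := pos_of_check 8 _ (by decide +kernel) hs0.le hs1.le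
  have n4_0 : 0 ≤ ev L_cR4_r_lo_4_0 s := pos_of_check 8 _ (by decide +kernel) hs0.le hs1.le
  have hth : 0 < s+(1/4)*(1-s)^(2:ℕ) := by positivity
  have hf0 : 0 < (1-s)^(2:ℕ)+(9/4)^(2:ℕ)*s := by positivity
  have hf1 : 0 < (1-s)^(2:ℕ)+(3/10)^(2:ℕ)*s := by positivity
  rw [← sub_nonneg]
  refine le_of_le_of_eq (b := (1*w^(0:ℕ)*(1-w)^(4:ℕ)*ev L_cR4_r_lo_0_0 s
      + 4*w^(1:ℕ)*(1-w)^(3:ℕ)*ev L_cR4_r_lo_1_0 s
      + 6*w^(2:ℕ)*(1-w)^(2:ℕ)*ev L_cR4_r_lo_2_0 s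
      + 4*w^(3:ℕ)*(1-w)^(1:ℕ)*ev L_cR4_r_lo_3_0 s
      + 1*w^(4:ℕ)*(1-w)^(0:ℕ)*ev L_cR4_r_lo_4_0 s) / (120000*(1+s)^(6:ℕ)*(1-s+s^(2:ℕ))^(4:ℕ)*((1-s)^(2:ℕ)+(9/4)^(2:ℕ)*s)^(1:ℕ)*((1-s)^(2:ℕ)+(3/10)^(2:ℕ)*s)^(1:ℕ))) ?_ (Eq.symm ?_)
  ·
    generalize ev L_cR4_r_lo_0_0 s = PL_cR4_r_lo_0_0 at *
    generalize ev L_cR4_r_lo_1_0 s = PL_cR4_r_lo_1_0 at *
    generalize ev L_cR4_r_lo_2_0 s = PL_cR4_r_lo_2_0 at *
    generalize ev L_cR4_r_lo_3_0 s = PL_cR4_r_lo_3_0 at *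
    generalize ev L_cR4_r_lo_4_0 s = PL_cR4_r_lo_4_0 at *
    positivity
  simp only [R4, Kr, fac, List.map_cons, List.map_nil, List.prod_cons, List.prod_nil, mul_one, pow_one]
  push_cast
  generalize hgth : s+(1/4)*(1-s)^(2:ℕ) = th at *
  generalize hgf0 : (1-s)^(2:ℕ)+(9/4)^(2:ℕ)*s = f0 at *
  generalize hgf1 : (1-s)^(2:ℕ)+(3/10)^(2:ℕ)*s = f1 at *
  field_simp
  simp only [ev, L_cR4_r_lo_0_0, L_cR4_r_lo_1_0, L_cR4_r_lo_2_0, L_cR4_r_lo_3_0, L_cR4_r_lo_4_0]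
  push_cast
  rw [← hgth, ← hgf0, ← hgf1]
  ring


def L_cR4_r_hi_0_0 : List ℤ := [0,46800,174747,-2424138,13071807,-51649188,151068072,-322248600,504684750,-585448500,504804750,-321437100,146101200,-41005200,-145425,8219850,-4792125,858300,120000]
def L_cR4_r_hi_1_0 : List ℤ := [0,46800,414747,-3300738,15306504,-56097129,157676688,-328444647,507056925,-585438300,506245425,-323597775,146101200,-38844525,-1946100,8274750,-4432125,858300,120000]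
def L_cR4_r_hi_2_0 : List ℤ := [0,46800,654747,-4097338,17673401,-61640120,166997676,-337804588,512578072,-587182600,507731200,-325297600,145829700,-36727400,-3494575,8409650,-4072125,858300,120000]
def L_cR4_r_hi_3_0 : List ℤ := [0,46800,894747,-4813938,20172498,-68278161,178911036,-351499923,523060563,-592493772,510433575,-326416575,145286700,-34653825,-4790850,8624550,-3712125,858300,120000]
def L_cR4_r_hi_4_0 : List ℤ := [0,46800,1134747,-5450538,22803795,-76011252,193296768,-370702152,540196770,-604475688,516044922,-328126200,144352200,-32623800,-5834925,8919450,-3352125,858300,120000]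

theorem cR4_r_hi {s w : ℝ} (hs0 : 0 < s) (hs1 : s < 1) (hw0 : 0 ≤ w) (hw1 : w ≤ 1) :
    R4 s*(((((1-s)*(1-w)+(1-s+s^(2:ℕ))*w)/((1-s)*(1-s+s^(2:ℕ))))^(4:ℕ))) ≤ ((1/4)*(1-s)^(2:ℕ)/(s+(1/4)*(1-s)^(2:ℕ))*((2)^(2:ℕ)*s)-(1/4)*(1-s)^(2:ℕ)/s*(16*((s*((1-s)^(2:ℕ)+s*w)/((1-s)*(1-s+s^(2:ℕ))))*(s/(1-s)-(s*((1-s)^(2:ℕ)+s*w)/((1-s)*(1-s+s^(2:ℕ))))))))+(1-s+(4*(s*((1-s)^(2:ℕ)+s*w)/((1-s)*(1-s+s^(2:ℕ))))))^(2:ℕ) := by
  have ho : 0 < 1 - s := by linarith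
  have hp : 0 < 1 + s := by linarith
  have hd : 0 < 1 - s + s^(2:ℕ) := by positivity
  have h5 : 0 < 1 + s^(5:ℕ) := by positivity
  have h1w : 0 ≤ 1 - w := by linarith
  have n0_0 : 0 ≤ ev L_cR4_r_hi_0_0 s := pos_of_check 8 _ (by decide +kernel) hs0.le hs1.le
  have n1_0 : 0 ≤ ev L_cR4_r_hi_1_0 s := pos_of_check 8 _ (by decide +kernel) hs0.le hs1.le
  have n2_0 : 0 ≤ ev L_cR4_r_hi_2_0 s := pos_of_check 8 _ (by decide +kernel) hs0.le hs1.le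
  have n3_0 : 0 ≤ ev L_cR4_r_hi_3_0 s := pos_of_check 8 _ (by decide +kernel) hs0.le hs1.le
  have n4_0 : 0 ≤ ev L_cR4_r_hi_4_0 s := pos_of_check 8 _ (by decide +kernel) hs0.le hs1.le
  have hth : 0 < s+(1/4)*(1-s)^(2:ℕ) := by positivity
  have hf0 : 0 < (1-s)^(2:ℕ)+(9/4)^(2:ℕ)*s := by positivity
  have hf1 : 0 < (1-s)^(2:ℕ)+(3/10)^(2:ℕ)*s := by positivity
  rw [← sub_nonneg]
  refine le_of_le_of_eq (b := (1*w^(0:ℕ)*(1-w)^(4:ℕ)*ev L_cR4_r_hi_0_0 s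
      + 4*w^(1:ℕ)*(1-w)^(3:ℕ)*ev L_cR4_r_hi_1_0 s
      + 6*w^(2:ℕ)*(1-w)^(2:ℕ)*ev L_cR4_r_hi_2_0 s
      + 4*w^(3:ℕ)*(1-w)^(1:ℕ)*ev L_cR4_r_hi_3_0 s
      + 1*w^(4:ℕ)*(1-w)^(0:ℕ)*ev L_cR4_r_hi_4_0 s) / (120000*(1-s)^(2:ℕ)*(1+s)^(2:ℕ)*(1-s+s^(2:ℕ))^(4:ℕ)*((1-s)^(2:ℕ)+(9/4)^(2:ℕ)*s)^(1:ℕ)*((1-s)^(2:ℕ)+(3/10)^(2:ℕ)*s)^(1:ℕ))) ?_ (Eq.symm ?_)
  ·
    generalize ev L_cR4_r_hi_0_0 s = PL_cR4_r_hi_0_0 at *
    generalize ev L_cR4_r_hi_1_0 s = PL_cR4_r_hi_1_0 at *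
    generalize ev L_cR4_r_hi_2_0 s = PL_cR4_r_hi_2_0 at *
    generalize ev L_cR4_r_hi_3_0 s = PL_cR4_r_hi_3_0 at *
    generalize ev L_cR4_r_hi_4_0 s = PL_cR4_r_hi_4_0 at *
    positivity
  simp only [R4, Kr, fac, List.map_cons, List.map_nil, List.prod_cons, List.prod_nil, mul_one, pow_one]
  push_cast
  generalize hgth : s+(1/4)*(1-s)^(2:ℕ) = th at *
  generalize hgf0 : (1-s)^(2:ℕ)+(9/4)^(2:ℕ)*s = f0 at *
  generalize hgf1 : (1-s)^(2:ℕ)+(3/10)^(2:ℕ)*s = f1 at *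
  field_simp
  simp only [ev, L_cR4_r_hi_0_0, L_cR4_r_hi_1_0, L_cR4_r_hi_2_0, L_cR4_r_hi_3_0, L_cR4_r_hi_4_0]
  push_cast
  rw [← hgth, ← hgf0, ← hgf1]
  ring


end Pool.Agent.H59
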