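import Mathlib
import Pool.Agent.H59.Defs

set_option autoImplicit false

/-!
# Re-rooting of plane trees
-/

namespace Pool.Agent.H59

/-! ### Basic isomorphisms -/

/-- Isomorphism of the underlying graphs. -/
def RI (a b : B) : Prop := Nonempty (a.graph ≃g b.graph)

/-- Isomorphism of the underlying graphs preserving the roots. -/
def RR (a b : B) : Prop := ∃ e : a.graph ≃g b.graph, e a.root = b.root

theorem RR.ri {a b : B} (h : RR a b) : RI a b := h.elim fun e _ => ⟨e⟩

theorem RR.refl (a : B) : RR a a := ⟨SimpleGraph.Iso.refl, rfl⟩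

theorem RI.refl (a : B) : RI a a := ⟨SimpleGraph.Iso.refl⟩

theorem RI.symm {a b : B} (h : RI a b) : RI b a := h.elim fun e => ⟨e.symm⟩

theorem RI.trans {a b c : B} (h : RI a b) (h' : RI b c) : RI a c :=
  h.elim fun e => h'.elim fun f => ⟨e.trans f⟩

theorem RR.trans {a b c : B} (h : RR a b) (h' : RR b c) : RR a c := by
  obtain ⟨e, he⟩ := h
  obtain ⟨f, hf⟩ := h'
  refine ⟨e.trans f, ?_⟩
  show f (e a.root) = c.root
  rw [he, hf]

theorem ri_swap (a c : B) : RI (B.graft a c) (B.graft c a) := by
  refine ⟨⟨Equiv.sumComm _ _, ?_⟩⟩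
  intro x y
  rcases x with x | x <;> rcases y with y | y
  · exact Iff.rfl
  · exact and_comm
  · exact and_comm
  · exact Iff.rfl

/-- The vertex bijection exchanging the two last children. -/
def permE (a c d : B) : (B.graft (B.graft a c) d).V ≃ (B.graft (B.graft a d) c).V where
  toFun x := match x with
    | Sum.inl (Sum.inl u) => Sum.inl (Sum.inl u)
    | Sum.inl (Sum.inr v) => Sum.inr v
    | Sum.inr w => Sum.inl (Sum.inr w)
  invFun x := match x with
    | Sum.inl (Sum.inl u) => Sum.inl (Sum.inl u)
    | Sum.inl (Sum.inr v) => Sum.inr v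
    | Sum.inr w => Sum.inl (Sum.inr w)
  left_inv x := by rcases x with (x | x) | x <;> rfl
  right_inv x := by rcases x with (x | x) | x <;> rfl

theorem rr_perm (a c d : B) : RR (B.graft (B.graft a c) d) (B.graft (B.graft a d) c) := by
  refine ⟨⟨permE a c d, ?_⟩, rfl⟩
  intro x y
  rcases x with (x | x) | x <;> rcases y with (y | y) | y
  · exact Iff.rfl
  · show (Sum.inl x : (B.graft a d).V) = Sum.inl a.root ∧ y = c.root ↔ x = a.root ∧ y = c.root
    rw [Sum.inl.injEq]
  · show x = a.root ∧ y = d.root ↔ (Sum.inl x : (B.graft a c).V) = Sum.inl a.root ∧ y = d.root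
    rw [Sum.inl.injEq]
  · show (Sum.inl y : (B.graft a d).V) = Sum.inl a.root ∧ x = c.root ↔ y = a.root ∧ x = c.root
    rw [Sum.inl.injEq]
  · exact Iff.rfl
  · show (Sum.inr y : (B.graft a d).V) = Sum.inl a.root ∧ x = c.root ↔
      (Sum.inr x : (B.graft a c).V) = Sum.inl a.root ∧ y = d.root
    simp
  · show y = a.root ∧ x = d.root ↔ (Sum.inl y : (B.graft a c).V) = Sum.inl a.root ∧ x = d.root
    rw [Sum.inl.injEq]
  · show (Sum.inr x : (B.graft a d).V) = Sum.inl a.root ∧ y = c.root ↔
      (Sum.inr y : (B.graft a c).V) = Sum.inl a.root ∧ x = d.root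
    simp
  · exact Iff.rfl

theorem rr_congr {a a' c c' : B} (ha : RR a a') (hc : RR c c') :
    RR (B.graft a c) (B.graft a' c') := by
  obtain ⟨e, he⟩ := ha
  obtain ⟨f, hf⟩ := hc
  have he' : ∀ x, e x = a'.root ↔ x = a.root := fun x => by
    rw [← he]; exact e.injective.eq_iff
  have hf' : ∀ x, f x = c'.root ↔ x = c.root := fun x => by
    rw [← hf]; exact f.injective.eq_iff
  refine ⟨⟨Equiv.sumCongr e.toEquiv f.toEquiv, ?_⟩, ?_⟩
  · intro x y
    rcases x with x | x <;> rcases y with y | y
    · exact e.map_rel_iff'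
    · show e x = a'.root ∧ f y = c'.root ↔ x = a.root ∧ y = c.root
      rw [he', hf']
    · show e y = a'.root ∧ f x = c'.root ↔ y = a.root ∧ x = c.root
      rw [he', hf']
    · exact f.map_rel_iff'
  · show (Sum.inl (e a.root) : (B.graft a' c').V) = Sum.inl a'.root
    rw [he]

/-! ### Legs are paths -/

/-- The vertices of a leg, numbered from the root. -/
def legE : (n : ℕ) → (B.leg n).V ≃ Fin (n + 1)
  | 0 => (Equiv.ofUnique Unit (Fin 1) : Unit ≃ Fin 1)
  | n + 1 =>
    { toFun := fun x => match x with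
        | Sum.inl _ => 0
        | Sum.inr v => (legE n v).succ
      invFun := fun i => Fin.cases (motive := fun _ => (B.leg (n + 1)).V) (Sum.inl ())
        (fun j => Sum.inr ((legE n).symm j)) i
      left_inv := fun x => by
        rcases x with x | x
        · rfl
        · show (Sum.inr ((legE n).symm (legE n x)) : (B.leg (n + 1)).V) = Sum.inr x
          rw [Equiv.symm_apply_apply]
      right_inv := fun i => by
        refine Fin.cases ?_ (fun j => ?_) i
        · rfl
        · show ((legE n ((legE n).symm j)).succ : Fin (n + 2)) = j.succ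
          rw [Equiv.apply_symm_apply] }

theorem legE_root : ∀ n, legE n (B.leg n).root = 0
  | 0 => rfl
  | _ + 1 => rfl

theorem leg_iso_path (n : ℕ) :
    Nonempty ((B.leg n).graph ≃g SimpleGraph.pathGraph (n + 1)) := by
  refine ⟨⟨legE n, ?_⟩⟩
  induction n with
  | zero =>
    intro x y
    have : ∀ i j : Fin 1, ¬ (SimpleGraph.pathGraph (0 + 1)).Adj i j := by
      intro i j
      rw [SimpleGraph.pathGraph_adj]
      omega
    constructor
    · intro h
      exact absurd h (this _ _)
    · intro h
      exact absurd h (by intro h; exact h)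
  | succ n ih =>
    intro x y
    rw [SimpleGraph.pathGraph_adj]
    rcases x with x | x <;> rcases y with y | y
    · constructor
      · intro h
        rcases h with h | h
        · change (0 : ℕ) + 1 = 0 at h
          omega
        · change (0 : ℕ) + 1 = 0 at h
          omega
      · intro h
        exact absurd h (by intro h; exact h)
    · change ((0 : ℕ) + 1 = ((legE n y).succ : Fin (n + 2)).val ∨
        ((legE n y).succ : Fin (n + 2)).val + 1 = 0) ↔ x = () ∧ y = (B.leg n).root
      rw [Fin.val_succ]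
      constructor
      · intro h
        refine ⟨rfl, ?_⟩
        apply (legE n).injective
        rw [legE_root]
        apply Fin.ext
        rw [Fin.val_zero]
        omega
      · rintro ⟨_, rfl⟩
        rw [legE_root]
        simp
    · change (((legE n x).succ : Fin (n + 2)).val + 1 = 0 ∨
        (0 : ℕ) + 1 = ((legE n x).succ : Fin (n + 2)).val) ↔ y = () ∧ x = (B.leg n).root
      rw [Fin.val_succ]
      constructor
      · intro h
        refine ⟨rfl, ?_⟩
        apply (legE n).injective
        rw [legE_root]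
        apply Fin.ext
        rw [Fin.val_zero]
        omega
      · rintro ⟨_, rfl⟩
        rw [legE_root]
        simp
    · have h1 := @ih x y
      rw [SimpleGraph.pathGraph_adj] at h1
      change (((legE n x).succ : Fin (n + 2)).val + 1 = ((legE n y).succ : Fin (n + 2)).val ∨
        ((legE n y).succ : Fin (n + 2)).val + 1 = ((legE n x).succ : Fin (n + 2)).val) ↔
        (B.leg n).graph.Adj x y
      rw [← h1, Fin.val_succ, Fin.val_succ]
      omega

/-! ### Re-rooting -/

/-- The conclusion of the re-rooting theorem. -/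
def Gd (b : B) : Prop :=
  (∃ n, RI b (B.leg n)) ∨
    ∃ b' : B, RI b b' ∧
      ((∃ A i j, b' = B.graft (B.graft (B.graft B.one A) (B.leg i)) (B.leg j)) ∨
        4 ≤ b'.children.length)

theorem Gd.of_ri {b c : B} (h : RI b c) (hc : Gd c) : Gd b := by
  rcases hc with ⟨n, hn⟩ | ⟨b', hb', h'⟩
  · exact Or.inl ⟨n, h.trans hn⟩
  · exact Or.inr ⟨b', h.trans hb', h'⟩

theorem two_legs (m : ℕ) : ∀ j, RI (B.graft (B.leg m) (B.leg j)) (B.leg (m + j + 1)) := by
  induction m with
  | zero =>
    intro j
    rw [zero_add]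
    exact RI.refl _
  | succ m ih =>
    intro j
    have h1 : RI (B.graft (B.leg (m + 1)) (B.leg j)) (B.graft (B.leg (j + 1)) (B.leg m)) :=
      (rr_perm B.one (B.leg m) (B.leg j)).ri
    have h2 := ri_swap (B.leg (j + 1)) (B.leg m)
    have h3 := ih (j + 1)
    rw [show m + (j + 1) + 1 = m + 1 + j + 1 by ring] at h3
    exact h1.trans (h2.trans h3)

/-- Cyclic change of the last three children. -/
theorem rr_rot (a c d e : B) : RR (B.graft (B.graft (B.graft a c) d) e)
    (B.graft (B.graft (B.graft a d) e) c) :=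
  (rr_congr (rr_perm a c d) (RR.refl e)).trans (rr_perm (B.graft a d) c e)

theorem gd_graft : ∀ (n : ℕ) (a c : B), c.size ≤ n → (¬ ∃ m, c = B.leg m) → Gd (B.graft a c) := by
  intro n
  induction n with
  | zero =>
    intro a c hc _
    exfalso
    have : ∀ b : B, 0 < b.size := by
      intro b
      induction b with
      | one => exact Nat.one_pos
      | graft a c iha _ => exact Nat.add_pos_left iha _
    have := this c
    omega
  | succ n ih =>
    intro a c hc hleg
    have hpos : ∀ b : B, 0 < b.size := by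
      intro b
      induction b with
      | one => exact Nat.one_pos
      | graft a c iha _ => exact Nat.add_pos_left iha _
    rcases c with _ | ⟨c0, c1⟩
    · exact absurd ⟨0, rfl⟩ hleg
    rcases c0 with _ | ⟨c0, c2⟩
    · -- one child
      have h1 : ¬ ∃ m, c1 = B.leg m := by
        rintro ⟨m, rfl⟩
        exact hleg ⟨m + 1, rfl⟩
      have hs : c1.size ≤ n := by
        change 1 + c1.size ≤ n + 1 at hc
        omega
      exact Gd.of_ri ((ri_swap _ _).trans (rr_perm B.one c1 a).ri) (ih (B.graft B.one a) c1 hs h1)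
    rcases c0 with _ | ⟨c0, c3⟩
    · -- two children `c2`, `c1`
      change 1 + c2.size + c1.size ≤ n + 1 at hc
      have p1 := hpos c1
      have p2 := hpos c2
      by_cases h1 : ∃ m, c1 = B.leg m
      · by_cases h2 : ∃ m, c2 = B.leg m
        · obtain ⟨i, rfl⟩ := h1
          obtain ⟨j, rfl⟩ := h2
          right
          refine ⟨B.graft (B.graft (B.graft B.one a) (B.leg j)) (B.leg i), ?_,
            Or.inl ⟨a, j, i, rfl⟩⟩
          -- graft a (graft (graft one (leg j)) (leg i)) ~ graft (graft (graft one (leg j)) (leg i)) a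
          refine (ri_swap _ _).trans ?_
          exact ((rr_rot B.one a (B.leg j) (B.leg i)).ri).symm
        · refine Gd.of_ri ?_ (ih (B.graft (B.graft B.one c1) a) c2 (by omega) h2)
          exact (ri_swap _ _).trans (rr_rot B.one c2 c1 a).ri
      · refine Gd.of_ri ?_ (ih (B.graft (B.graft B.one c2) a) c1 (by omega) h1)
        exact (ri_swap _ _).trans (rr_perm (B.graft B.one c2) c1 a).ri
    · -- at least three children
      right
      refine ⟨_, ri_swap _ _, Or.inr ?_⟩
      change 4 ≤ c0.children.length + 1 + 1 + 1 + 1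
      omega

theorem reroot (b : B) :
    (∃ n, Nonempty (b.graph ≃g (B.leg n).graph)) ∨
    ∃ b' : B, Nonempty (b.graph ≃g b'.graph) ∧
      ((∃ A i j, b' = B.graft (B.graft (B.graft B.one A) (B.leg i)) (B.leg j)) ∨
        4 ≤ b'.children.length) := by
  change Gd b
  rcases b with _ | ⟨a, c⟩
  · exact Or.inl ⟨0, RI.refl _⟩
  by_cases h1 : ∃ m, c = B.leg m
  swap
  · exact gd_graft c.size a c le_rfl h1
  obtain ⟨j, rfl⟩ := h1
  rcases a with _ | ⟨a, c2⟩
  · exact Or.inl ⟨j + 1, RI.refl _⟩
  by_cases h2 : ∃ m, c2 = B.leg m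
  swap
  · exact Gd.of_ri (rr_perm a c2 (B.leg j)).ri (gd_graft c2.size _ c2 le_rfl h2)
  obtain ⟨i, rfl⟩ := h2
  rcases a with _ | ⟨a, c3⟩
  · exact Or.inl ⟨_, two_legs (i + 1) j⟩
  by_cases h3 : ∃ m, c3 = B.leg m
  swap
  · exact Gd.of_ri (rr_rot a c3 (B.leg i) (B.leg j)).ri (gd_graft c3.size _ c3 le_rfl h3)
  obtain ⟨k, rfl⟩ := h3
  rcases a with _ | ⟨a, c4⟩
  · exact Or.inr ⟨_, RI.refl _, Or.inl ⟨_, _, _, rfl⟩⟩
  · right
    refine ⟨_, RI.refl _, Or.inr ?_⟩
    change 4 ≤ a.children.length + 1 + 1 + 1 + 1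
    omega

end Pool.Agent.H59
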