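import Mathlib
import Pool.Agent.H59.Reroot

set_option autoImplicit false

/-!
# Re-rooting a plane tree at a centroid
-/

namespace Pool.Agent.H59

theorem cen_size_pos (b : B) : 0 < b.size := by
  induction b with
  | one => exact Nat.one_pos
  | graft a c iha _ => exact Nat.add_pos_left iha _

theorem cen_size_child_lt (b : B) : ∀ c ∈ b.children, c.size < b.size := by
  induction b with
  | one =>
    intro c hc
    change c ∈ ([] : List B) at hc
    simp at hc
  | graft a d iha _ =>
    intro c hc
    change c ∈ d :: a.children at hc
    change c.size < a.size + d.size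
    rcases List.mem_cons.1 hc with rfl | hc
    · have := cen_size_pos a
      omega
    · have := iha c hc
      omega

/-- A child can be made the last one. -/
theorem cen_bring_last (b : B) : ∀ c ∈ b.children, ∃ a : B, RR b (B.graft a c) ∧
    a.size + c.size = b.size := by
  induction b with
  | one =>
    intro c hc
    change c ∈ ([] : List B) at hc
    simp at hc
  | graft a d iha _ =>
    intro c hc
    change c ∈ d :: a.children at hc
    rcases List.mem_cons.1 hc with rfl | hc
    · exact ⟨a, RR.refl _, rfl⟩
    · obtain ⟨a', h1, h2⟩ := iha c hc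
      refine ⟨B.graft a' d, ?_, ?_⟩
      · exact (rr_congr h1 (RR.refl d)).trans (rr_perm a' c d)
      · change a'.size + d.size + c.size = a.size + d.size
        omega

theorem centroid_aux (n : ℕ) : ∀ b : B, (∀ c ∈ b.children, c.size ≤ n) →
    ∃ b' : B, RI b b' ∧ ∀ c ∈ b'.children, 2 * c.size ≤ b'.size := by
  induction n with
  | zero =>
    intro b hb
    refine ⟨b, RI.refl b, ?_⟩
    intro c hc
    have := hb c hc
    have := cen_size_pos c
    omega
  | succ n ih =>
    intro b hb
    by_cases h : ∀ c ∈ b.children, 2 * c.size ≤ b.size
    · exact ⟨b, RI.refl b, h⟩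
    · push Not at h
      obtain ⟨c, hc, hlt⟩ := h
      obtain ⟨a, h1, h2⟩ := cen_bring_last b c hc
      have hcn := hb c hc
      obtain ⟨b', h3, h4⟩ := ih (B.graft c a) (by
        intro d hd
        change d ∈ a :: c.children at hd
        rcases List.mem_cons.1 hd with rfl | hd
        · omega
        · have := cen_size_child_lt c d hd
          omega)
      exact ⟨b', h1.ri.trans ((ri_swap a c).trans h3), h4⟩

theorem centroid (b : B) : ∃ b' : B, Nonempty (b.graph ≃g b'.graph) ∧
    ∀ c ∈ b'.children, 2 * c.size ≤ b'.size :=
  centroid_aux b.size b (fun c hc => (cen_size_child_lt b c hc).le)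

end Pool.Agent.H59
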