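import Mathlib
import Pool.Agent.H59.KPos

set_option autoImplicit false

/-!
# Reductions for the certificate inequalities
-/

namespace Pool.Agent.H59

theorem sq_ge {c s : ℝ} (a0 Y : ℝ) (hc : 0 < c) (hs0 : 0 < s) (hs1 : s < 1) :
    c * (1 - s) ^ 2 / (s + c * (1 - s) ^ 2) * a0 ^ 2 - c * (1 - s) ^ 2 / s * Y ^ 2
      ≤ (a0 - Y) ^ 2 := by
  have ho : 0 < 1 - s := by linarith
  have h1 : 0 < s + c * (1 - s) ^ 2 := by positivity
  have key : (a0 - Y) ^ 2 - (c * (1 - s) ^ 2 / (s + c * (1 - s) ^ 2) * a0 ^ 2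
      - c * (1 - s) ^ 2 / s * Y ^ 2)
      = (s * a0 - (s + c * (1 - s) ^ 2) * Y) ^ 2 / (s * (s + c * (1 - s) ^ 2)) := by
    field_simp
    ring
  have h2 : 0 ≤ (s * a0 - (s + c * (1 - s) ^ 2) * Y) ^ 2 / (s * (s + c * (1 - s) ^ 2)) := by
    positivity
  linarith

noncomputable def lineD (s e : ℝ) : ℝ :=
  (1 - s) / (1 + s) + (3 - 2 * s + s ^ 2) / ((1 - s) * (1 + s)) * e

noncomputable def lineC (s e : ℝ) : ℝ :=
  ((1 - s) - 2 * (s ^ 2 / (1 - s + s ^ 2))) / (1 + s)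
    + ((3 - s) + 2 * (s * (1 - s) / (1 - s + s ^ 2) + s / (1 - s))) / (1 + s) * e

section

variable {s : ℝ}

theorem psi_le_one (p : ℝ × ℝ) : psi s p ≤ 1 + p.1 := min_le_left _ _

theorem ClsD.sq_le (hs1 : s < 1) {p : ℝ × ℝ} (h : ClsD s p) :
    p.2 ^ 2 ≤ p.1 * (s / (1 - s) - p.1) := by
  have ho : 0 < 1 - s := by linarith
  unfold ClsD at h
  have : p.1 ^ 2 + p.2 ^ 2 ≤ s * p.1 / (1 - s) := by
    rw [le_div_iff₀ ho]; linarith
  have e : p.1 * (s / (1 - s) - p.1) = s * p.1 / (1 - s) - p.1 ^ 2 := by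
    field_simp
  rw [e]
  linarith

theorem ClsD.le (hs0 : 0 < s) (hs1 : s < 1) {p : ℝ × ℝ} (h : ClsD s p) : p.1 ≤ s / (1 - s) := by
  have h1 := h.sq_le hs1
  have h0 := B.ClsD.nonneg hs0 hs1 h
  by_contra hc
  push Not at hc
  have : p.1 * (s / (1 - s) - p.1) < 0 := by
    apply mul_neg_of_pos_of_neg _ (by linarith)
    have ho : 0 < 1 - s := by linarith
    have : 0 < s / (1 - s) := by positivity
    linarith
  nlinarith [sq_nonneg p.2]

theorem psi_le_lineD (hs0 : 0 < s) (hs1 : s < 1) {p : ℝ × ℝ} (h : ClsD s p) :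
    psi s p ≤ lineD s p.1 := by
  refine (min_le_right _ _).trans ?_
  have h1 := h.sq_le hs1
  have ho : 0 < 1 - s := by linarith
  have hp : 0 < 1 + s := by linarith
  unfold lineD
  rw [div_le_iff₀ hp]
  have e : ((1 - s) / (1 + s) + (3 - 2 * s + s ^ 2) / ((1 - s) * (1 + s)) * p.1) * (1 + s)
      = (1 - s) + (3 - s) * p.1 + 2 * (p.1 ^ 2 + p.1 * (s / (1 - s) - p.1)) := by
    field_simp
    ring
  rw [e]
  linarith

theorem e1_lt_E2 (hs0 : 0 < s) (hs1 : s < 1) : s * (1 - s) / (1 - s + s ^ 2) < s / (1 - s) := by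
  have ho : 0 < 1 - s := by linarith
  have hd : 0 < 1 - s + s ^ 2 := by positivity
  rw [div_lt_div_iff₀ hd ho]
  nlinarith [pow_pos hs0 2, pow_pos hs0 3]

theorem Cls2.bounds (hs0 : 0 < s) (hs1 : s < 1) {p : ℝ × ℝ} (h : Cls2 s p) :
    s * (1 - s) / (1 - s + s ^ 2) ≤ p.1 ∧ p.1 ≤ s / (1 - s) := by
  unfold Cls2 e1 E2 at h
  have h1 := e1_lt_E2 hs0 hs1
  have h2 := sq_nonneg p.2
  constructor
  · by_contra hc
    push Not at hc
    have : (p.1 - s * (1 - s) / (1 - s + s ^ 2)) * (s / (1 - s) - p.1) < 0 :=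
      mul_neg_of_neg_of_pos (by linarith) (by linarith)
    linarith
  · by_contra hc
    push Not at hc
    have : (p.1 - s * (1 - s) / (1 - s + s ^ 2)) * (s / (1 - s) - p.1) < 0 :=
      mul_neg_of_pos_of_neg (by linarith) (by linarith)
    linarith

theorem psi_le_lineC (hs0 : 0 < s) (hs1 : s < 1) {p : ℝ × ℝ} (h : Cls2 s p) :
    psi s p ≤ lineC s p.1 := by
  refine (min_le_right _ _).trans ?_
  unfold Cls2 e1 E2 at h
  have ho : 0 < 1 - s := by linarith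
  have hp : 0 < 1 + s := by linarith
  have hd : 0 < 1 - s + s ^ 2 := by positivity
  unfold lineC
  rw [div_le_iff₀ hp]
  have e : (((1 - s) - 2 * (s ^ 2 / (1 - s + s ^ 2))) / (1 + s)
    + ((3 - s) + 2 * (s * (1 - s) / (1 - s + s ^ 2) + s / (1 - s))) / (1 + s) * p.1) * (1 + s)
      = (1 - s) + (3 - s) * p.1 + 2 * (p.1 ^ 2
        + (p.1 - s * (1 - s) / (1 - s + s ^ 2)) * (s / (1 - s) - p.1)) := by
    field_simp
    ring
  rw [e]
  linarith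

theorem psi_nonneg_of {p : ℝ × ℝ} (hs0 : 0 < s) (hs1 : s < 1) (h : 0 ≤ p.1) : 0 ≤ psi s p := by
  unfold psi
  apply le_min (by linarith)
  apply div_nonneg _ (by linarith)
  have : 0 ≤ (3 - s) * p.1 := mul_nonneg (by linarith) h
  have : 0 ≤ p.1 ^ 2 + p.2 ^ 2 := by positivity
  linarith

theorem lineD_nonneg (hs0 : 0 < s) (hs1 : s < 1) {e : ℝ} (he : 0 ≤ e) : 0 ≤ lineD s e := by
  have ho : 0 < 1 - s := by linarith
  have hp : 0 < 1 + s := by linarith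
  have : 0 < 3 - 2 * s + s ^ 2 := by nlinarith
  unfold lineD
  positivity

/-! ### Cells -/

theorem cellD_lo (hs0 : 0 < s) (hs1 : s < 1) {e : ℝ} (h0 : 0 ≤ e)
    (h1 : e ≤ s * (1 - s) / (1 - s + s ^ 2)) :
    ∃ w : ℝ, 0 ≤ w ∧ w ≤ 1 ∧ e = (s*(1-s)/(1-s+s^2)*w) ∧
      lineD s (s*(1-s)/(1-s+s^2)*w) = (((1-s)*(1-s+s^2)*(1-w)+(1+s)*w)/((1+s)*(1-s+s^2))) := by
  have ho : 0 < 1 - s := by linarith
  have hp : 0 < 1 + s := by linarith
  have hd : 0 < 1 - s + s ^ 2 := by positivity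
  have hE : 0 < s * (1 - s) / (1 - s + s ^ 2) := by positivity
  refine ⟨e / (s * (1 - s) / (1 - s + s ^ 2)), by positivity, (div_le_one hE).2 h1, ?_, ?_⟩
  · field_simp
  · generalize e / (s * (1 - s) / (1 - s + s ^ 2)) = w
    unfold lineD
    field_simp
    ring

theorem cellD_hi (hs0 : 0 < s) (hs1 : s < 1) {e : ℝ} (h0 : s * (1 - s) / (1 - s + s ^ 2) ≤ e)
    (h1 : e ≤ s / (1 - s)) :
    ∃ w : ℝ, 0 ≤ w ∧ w ≤ 1 ∧ e = (s*((1-s)^2+s*w)/((1-s)*(1-s+s^2))) ∧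
      1 + (s*((1-s)^2+s*w)/((1-s)*(1-s+s^2)))
        = (((1-s)*(1-w)+(1-s+s^2)*w)/((1-s)*(1-s+s^2))) := by
  have ho : 0 < 1 - s := by linarith
  have hp : 0 < 1 + s := by linarith
  have hd : 0 < 1 - s + s ^ 2 := by positivity
  rw [div_le_iff₀ hd] at h0
  rw [le_div_iff₀ ho] at h1
  refine ⟨(e * ((1 - s) * (1 - s + s ^ 2)) - s * (1 - s) ^ 2) / s ^ 2, ?_, ?_, ?_, ?_⟩
  · apply div_nonneg _ (by positivity)
    nlinarith
  · rw [div_le_one (by positivity)]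
    nlinarith
  · field_simp
    ring
  · generalize (e * ((1 - s) * (1 - s + s ^ 2)) - s * (1 - s) ^ 2) / s ^ 2 = w
    field_simp
    ring

theorem cell2_lo (hs0 : 0 < s) (hs1 : s < 1) {e : ℝ} (h0 : s * (1 - s) / (1 - s + s ^ 2) ≤ e)
    (h1 : e ≤ s * (1 - s ^ 4) / (1 + s ^ 5)) :
    ∃ w : ℝ, 0 ≤ w ∧ w ≤ 1 ∧
      e = (s*(1-s)/(1-s+s^2)+s^3*(1-s)*(1+s)/((1-s+s^2)*(1+s^5))*w) ∧
      lineC s (s*(1-s)/(1-s+s^2)+s^3*(1-s)*(1+s)/((1-s+s^2)*(1+s^5))*w)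
        = ((1-s)*(1+s+s^2)/((1+s)*(1-s+s^2)^2)*(1-w)+(1+s)/(1+s^5)*w) := by
  have ho : 0 < 1 - s := by linarith
  have hp : 0 < 1 + s := by linarith
  have hd : 0 < 1 - s + s ^ 2 := by positivity
  have h5 : 0 < 1 + s ^ 5 := by positivity
  rw [div_le_iff₀ hd] at h0
  rw [le_div_iff₀ h5] at h1
  have hr5 : 0 < 1-s+s^2-s^3+s^4 := by
    nlinarith [sq_nonneg (s*(1-s)), sq_nonneg (1-s), sq_nonneg s, pow_pos hs0 2, pow_pos hs0 4]
  have e5 : 1 + s ^ 5 = (1+s)*(1-s+s^2-s^3+s^4) := by ring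
  have hc : 0 < s ^ 3 * (1 - s) * (1 + s) := by positivity
  refine ⟨(e * (1 - s + s ^ 2) - s * (1 - s)) * (1 + s ^ 5) / (s ^ 3 * (1 - s) * (1 + s)),
    ?_, ?_, ?_, ?_⟩
  · apply div_nonneg _ hc.le
    apply mul_nonneg _ h5.le
    linarith
  · rw [div_le_one hc]
    have : (e * (1 - s + s ^ 2) - s * (1 - s)) * (1 + s ^ 5)
        = (e * (1 + s ^ 5)) * (1 - s + s ^ 2) - s * (1 - s) * (1 + s ^ 5) := by ring
    rw [this]
    nlinarith [mul_le_mul_of_nonneg_right h1 hd.le]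
  · field_simp
    ring
  · generalize (e * (1 - s + s ^ 2) - s * (1 - s)) * (1 + s ^ 5) / (s ^ 3 * (1 - s) * (1 + s)) = w
    unfold lineC
    rw [e5]
    generalize hr : 1-s+s^2-s^3+s^4 = r5 at *
    field_simp
    rw [← hr]
    ring

theorem cell2_hi (hs0 : 0 < s) (hs1 : s < 1) {e : ℝ} (h0 : s * (1 - s ^ 4) / (1 + s ^ 5) ≤ e)
    (h1 : e ≤ s / (1 - s)) :
    ∃ w : ℝ, 0 ≤ w ∧ w ≤ 1 ∧
      e = (s*(1-s^4)/(1+s^5)+s^2*(1+s^3)/((1-s)*(1+s^5))*w) ∧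
      1 + (s*(1-s^4)/(1+s^5)+s^2*(1+s^3)/((1-s)*(1+s^5))*w)
        = ((1+s)/(1+s^5)*(1-w)+w/(1-s)) := by
  have ho : 0 < 1 - s := by linarith
  have hp : 0 < 1 + s := by linarith
  have h5 : 0 < 1 + s ^ 5 := by positivity
  rw [div_le_iff₀ h5] at h0
  rw [le_div_iff₀ ho] at h1
  have hc : 0 < s ^ 2 * (1 + s ^ 3) := by positivity
  refine ⟨(e * (1 + s ^ 5) - s * (1 - s ^ 4)) * (1 - s) / (s ^ 2 * (1 + s ^ 3)), ?_, ?_, ?_, ?_⟩
  · apply div_nonneg _ hc.le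
    apply mul_nonneg _ ho.le
    linarith
  · rw [div_le_one hc]
    have : (e * (1 + s ^ 5) - s * (1 - s ^ 4)) * (1 - s)
        = (e * (1 - s)) * (1 + s ^ 5) - s * (1 - s ^ 4) * (1 - s) := by ring
    rw [this]
    nlinarith [mul_le_mul_of_nonneg_right h1 h5.le]
  · field_simp
    ring
  · generalize (e * (1 + s ^ 5) - s * (1 - s ^ 4)) * (1 - s) / (s ^ 2 * (1 + s ^ 3)) = w
    field_simp
    ring

theorem cello (hs0 : 0 < s) (hs1 : s < 1) {e : ℝ} (h0 : s * (1 - s) / (1 - s + s ^ 2) ≤ e)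
    (h1 : e ≤ s) :
    ∃ w : ℝ, 0 ≤ w ∧ w ≤ 1 ∧
      e = (s*(1-s)/(1-s+s^2)*(1-w)+s*w) ∧
      1 + (s*(1-s)/(1-s+s^2)*(1-w)+s*w) = ((1-w)/(1-s+s^2)+(1+s)*w) := by
  have ho : 0 < 1 - s := by linarith
  have hd : 0 < 1 - s + s ^ 2 := by positivity
  rw [div_le_iff₀ hd] at h0
  refine ⟨(e * (1 - s + s ^ 2) - s * (1 - s)) / s ^ 3, ?_, ?_, ?_, ?_⟩
  · apply div_nonneg _ (by positivity)
    linarith
  · rw [div_le_one (by positivity)]
    nlinarith [mul_le_mul_of_nonneg_right h1 hd.le]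
  · field_simp
    ring
  · generalize (e * (1 - s + s ^ 2) - s * (1 - s)) / s ^ 3 = w
    field_simp
    ring

/-! ### Means -/

theorem amgm {k : ℕ} (hk : 0 < k) (z : Fin k → ℝ) (hz : ∀ i, 0 ≤ z i) :
    ∏ i, z i ≤ ((∑ i, z i) / k) ^ k := by
  have hk' : (0 : ℝ) < k := by exact_mod_cast hk
  have h := Real.geom_mean_le_arith_mean (Finset.univ : Finset (Fin k)) (fun _ => (1 : ℝ)) z
    (fun _ _ => zero_le_one) (by simp [hk]) (fun i _ => hz i)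
  simp only [Real.rpow_one, one_mul, Finset.sum_const, Finset.card_univ, Fintype.card_fin,
    nsmul_eq_mul, mul_one] at h
  have hp : 0 ≤ ∏ i, z i := Finset.prod_nonneg fun i _ => hz i
  have h2 := pow_le_pow_left₀ (Real.rpow_nonneg hp _) h k
  rwa [← Real.rpow_natCast ((∏ i, z i) ^ ((k : ℝ)⁻¹)) k, ← Real.rpow_mul hp,
    inv_mul_cancel₀ hk'.ne', Real.rpow_one] at h2

theorem amgm2 {x y : ℝ} : x * y ≤ ((x + y) / 2) ^ 2 := by nlinarith [sq_nonneg (x - y)]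

theorem amgm3 {x y z : ℝ} (hx : 0 ≤ x) (hy : 0 ≤ y) (hz : 0 ≤ z) :
    x * (y * z) ≤ ((x + (y + z)) / 3) ^ 3 := by
  have h := amgm (k := 3) (by norm_num) ![x, y, z] (by
    intro i
    fin_cases i <;> simp [hx, hy, hz])
  simp only [Fin.prod_univ_three, Fin.sum_univ_three, Matrix.cons_val_zero, Matrix.cons_val_one,
    Matrix.cons_val_two, Matrix.head_cons, Matrix.tail_cons, Nat.cast_ofNat] at h
  calc x * (y * z) = x * y * z := by ring
    _ ≤ _ := h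
    _ = _ := by ring

/-- Means of a list of branches. -/
theorem meanD (hs0 : 0 < s) (hs1 : s < 1) (L : List (ℝ × ℝ)) (k : ℕ) (hk : 0 < k)
    (hL : L.length = k) (h : ∀ p ∈ L, ClsD s p) :
    ∃ e : ℝ, 0 ≤ e ∧ e ≤ s / (1 - s) ∧ (L.map Prod.fst).sum = k * e ∧
      ((L.map Prod.snd).sum) ^ 2 ≤ (k : ℝ) ^ 2 * (e * (s / (1 - s) - e)) ∧
      (L.map (psi s)).prod ≤ (1 + e) ^ k ∧ (L.map (psi s)).prod ≤ (lineD s e) ^ k := by
  have hk' : (0 : ℝ) < k := by exact_mod_cast hk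
  obtain ⟨z, rfl⟩ : ∃ z : Fin k → ℝ × ℝ, L = List.ofFn z := by
    subst hL
    exact ⟨L.get, (List.ofFn_get L).symm⟩
  have hz : ∀ i, ClsD s (z i) := fun i => h _ (by simp)
  simp only [List.map_ofFn, List.sum_ofFn, List.prod_ofFn, Function.comp_apply]
  have h0 : ∀ i, 0 ≤ (z i).1 := fun i => B.ClsD.nonneg hs0 hs1 (hz i)
  have hE : ∀ i, (z i).1 ≤ s / (1 - s) := fun i => (hz i).le hs0 hs1
  have hsum0 : 0 ≤ ∑ i, (z i).1 := Finset.sum_nonneg fun i _ => h0 i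
  have hsumE : ∑ i, (z i).1 ≤ k * (s / (1 - s)) := by
    calc ∑ i, (z i).1 ≤ ∑ _i : Fin k, s / (1 - s) := Finset.sum_le_sum fun i _ => hE i
      _ = _ := by simp
  refine ⟨(∑ i, (z i).1) / k, by positivity, ?_, ?_, ?_, ?_, ?_⟩
  · rw [div_le_iff₀ hk']
    linarith
  · field_simp
  · have c1 := sq_sum_le_card_mul_sum_sq (s := (Finset.univ : Finset (Fin k)))
      (f := fun i => (z i).2)
    have c2 := sq_sum_le_card_mul_sum_sq (s := (Finset.univ : Finset (Fin k)))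
      (f := fun i => (z i).1)
    simp only [Finset.card_univ, Fintype.card_fin] at c1 c2
    have c3 : ∑ i, (z i).2 ^ 2 ≤ s / (1 - s) * ∑ i, (z i).1 - ∑ i, (z i).1 ^ 2 := by
      rw [Finset.mul_sum, ← Finset.sum_sub_distrib]
      apply Finset.sum_le_sum
      intro i _
      have := (hz i).sq_le hs1
      linarith
    have e : (k : ℝ) ^ 2 * ((∑ i, (z i).1) / k * (s / (1 - s) - (∑ i, (z i).1) / k))
        = k * (s / (1 - s) * ∑ i, (z i).1) - (∑ i, (z i).1) ^ 2 := by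
      generalize s / (1 - s) = E
      field_simp
    rw [e]
    have := mul_le_mul_of_nonneg_left c3 hk'.le
    rw [mul_sub] at this
    linarith
  · calc ∏ i, psi s (z i) ≤ ∏ i, (1 + (z i).1) := by
          apply Finset.prod_le_prod
          · intro i _
            exact psi_nonneg_of hs0 hs1 (h0 i)
          · intro i _
            exact psi_le_one _
      _ ≤ ((∑ i, (1 + (z i).1)) / k) ^ k := amgm hk _ fun i => by have := h0 i; linarith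
      _ = _ := by
          congr 1
          rw [Finset.sum_add_distrib]
          simp only [Finset.sum_const, Finset.card_univ, Fintype.card_fin, nsmul_eq_mul, mul_one]
          field_simp
  · calc ∏ i, psi s (z i) ≤ ∏ i, (lineD s (z i).1) := by
          apply Finset.prod_le_prod
          · intro i _
            exact psi_nonneg_of hs0 hs1 (h0 i)
          · intro i _
            exact psi_le_lineD hs0 hs1 (hz i)
      _ ≤ ((∑ i, lineD s (z i).1) / k) ^ k := amgm hk _ fun i => lineD_nonneg hs0 hs1 (h0 i)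
      _ = _ := by
          congr 1
          unfold lineD
          rw [Finset.sum_add_distrib, ← Finset.mul_sum]
          simp only [Finset.sum_const, Finset.card_univ, Fintype.card_fin, nsmul_eq_mul]
          generalize (1 - s) / (1 + s) = A
          generalize (3 - 2 * s + s ^ 2) / ((1 - s) * (1 + s)) = C
          field_simp

/-- Mean of two branches of class 2. -/
theorem mean22 (hs0 : 0 < s) (hs1 : s < 1) {p1 p2 : ℝ × ℝ} (h1 : Cls2 s p1) (h2 : Cls2 s p2) :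
    ∃ e : ℝ, s * (1 - s) / (1 - s + s ^ 2) ≤ e ∧ e ≤ s / (1 - s) ∧ p1.1 + p2.1 = 2 * e ∧
      (p1.2 + p2.2) ^ 2 ≤ 4 * ((e - s * (1 - s) / (1 - s + s ^ 2)) * (s / (1 - s) - e)) ∧
      psi s p1 * psi s p2 ≤ (1 + e) ^ 2 ∧ psi s p1 * psi s p2 ≤ (lineC s e) ^ 2 := by
  have b1 := h1.bounds hs0 hs1
  have b2 := h2.bounds hs0 hs1
  have ho : 0 < 1 - s := by linarith
  have hd : 0 < 1 - s + s ^ 2 := by positivity
  have he1 : 0 < s * (1 - s) / (1 - s + s ^ 2) := by positivity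
  have n1 := psi_nonneg_of (p := p1) hs0 hs1 (by linarith)
  have n2 := psi_nonneg_of (p := p2) hs0 hs1 (by linarith)
  have u1 := psi_le_one (s := s) p1
  have u2 := psi_le_one (s := s) p2
  have l1 := psi_le_lineC hs0 hs1 h1
  have l2 := psi_le_lineC hs0 hs1 h2
  unfold Cls2 e1 E2 at h1 h2
  refine ⟨(p1.1 + p2.1) / 2, by linarith, by linarith, by ring, ?_, ?_, ?_⟩
  · nlinarith [sq_nonneg (p1.2 - p2.2), sq_nonneg (p1.1 - p2.1)]
  · calc psi s p1 * psi s p2 ≤ (1 + p1.1) * (1 + p2.1) :=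
          mul_le_mul u1 u2 n2 (by linarith)
      _ ≤ _ := amgm2
      _ = _ := by ring
  · calc psi s p1 * psi s p2 ≤ lineC s p1.1 * lineC s p2.1 :=
          mul_le_mul l1 l2 n2 (by linarith)
      _ ≤ _ := amgm2
      _ = _ := by
        unfold lineC
        ring

/-! ### Leaves and odd legs -/

theorem leaf_facts {q : ℝ} (hq0 : 0 < q) (hq1 : q < 1) {p : ℝ × ℝ} (h : Leaf q p) :
    p.1 = q ^ 2 * (1 - q ^ 2) / (1 - q ^ 2 + (q ^ 2) ^ 2) ∧
    p.2 = -(q * (q ^ 2 / (1 - q ^ 2 + (q ^ 2) ^ 2))) ∧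
    0 ≤ psi (q ^ 2) p ∧ psi (q ^ 2) p ≤ 1 / (1 - q ^ 2 + (q ^ 2) ^ 2) := by
  have hs0 : 0 < q ^ 2 := by positivity
  have hs1 : q ^ 2 < 1 := by nlinarith
  obtain ⟨ha, hb⟩ := h
  unfold e1 at ha
  have ho : 0 < 1 - q ^ 2 := by linarith
  have hd : 0 < 1 - q ^ 2 + (q ^ 2) ^ 2 := by positivity
  refine ⟨ha, ?_, ?_, ?_⟩
  · rw [hb, mul_div_assoc]
  · apply psi_nonneg_of hs0 hs1
    rw [ha]
    positivity
  · refine (psi_le_one _).trans (le_of_eq ?_)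
    rw [ha]
    field_simp
    ring

theorem oddL_facts {q : ℝ} (hq0 : 0 < q) (hq1 : q < 1) {p : ℝ × ℝ} (h : OddL (q ^ 2) p) :
    q ^ 2 * (1 - q ^ 2) / (1 - q ^ 2 + (q ^ 2) ^ 2) ≤ p.1 ∧ p.1 ≤ q ^ 2 ∧ p.2 ≤ 0 ∧
    (q ^ 2 - p.1) * (2 / q ^ 2 + 1 + q ^ 2 * (1 - q ^ 2) / (1 - q ^ 2 + (q ^ 2) ^ 2))
      ≤ 2 * q * (-p.2) + (-p.2) ^ 2 ∧
    0 ≤ psi (q ^ 2) p ∧ psi (q ^ 2) p ≤ 1 + p.1 := by
  have hs0 : 0 < q ^ 2 := by positivity
  have hs1 : q ^ 2 < 1 := by nlinarith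
  obtain ⟨⟨ha, hb, hc⟩, hg⟩ := h
  unfold e1 at ha
  have ho : 0 < 1 - q ^ 2 := by linarith
  have hd : 0 < 1 - q ^ 2 + (q ^ 2) ^ 2 := by positivity
  have he1 : 0 < q ^ 2 * (1 - q ^ 2) / (1 - q ^ 2 + (q ^ 2) ^ 2) := by positivity
  refine ⟨ha, hb, hg, ?_, psi_nonneg_of hs0 hs1 (by linarith), psi_le_one _⟩
  have k1 : (q ^ 2 - p.1) * (1 + q ^ 2 * (1 - q ^ 2) / (1 - q ^ 2 + (q ^ 2) ^ 2)) ≤ (-p.2) ^ 2 := by
    rw [neg_sq, hc]
    apply mul_le_mul_of_nonneg_left (by linarith) (by linarith)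
  have k2 : (q ^ 2 - p.1) * (2 / q ^ 2) ≤ 2 * q * (-p.2) := by
    have k3 : (q ^ 2 - p.1) / q ^ 3 ≤ -p.2 := by
      have k0 : 0 ≤ (q ^ 2 - p.1) / q ^ 3 := div_nonneg (by linarith) (by positivity)
      refine (sq_le_sq₀ k0 (by linarith)).1 ?_
      rw [neg_sq, hc, div_pow, div_le_iff₀ (by positivity)]
      rw [sq, mul_assoc]
      apply mul_le_mul_of_nonneg_left _ (by linarith)
      have e1 : q ^ 2 - p.1 ≤ q ^ 2 - q ^ 2 * (1 - q ^ 2) / (1 - q ^ 2 + (q ^ 2) ^ 2) := by linarith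
      have e2 : q ^ 2 - q ^ 2 * (1 - q ^ 2) / (1 - q ^ 2 + (q ^ 2) ^ 2)
          = (1 + q ^ 2 * (1 - q ^ 2) / (1 - q ^ 2 + (q ^ 2) ^ 2)) * (q ^ 3) ^ 2 := by
        field_simp
        ring
      have e3 : (1 + q ^ 2 * (1 - q ^ 2) / (1 - q ^ 2 + (q ^ 2) ^ 2)) * (q ^ 3) ^ 2
          ≤ (1 + p.1) * (q ^ 3) ^ 2 := by
        apply mul_le_mul_of_nonneg_right (by linarith) (by positivity)
      linarith
    have : (q ^ 2 - p.1) * (2 / q ^ 2) = 2 * q * ((q ^ 2 - p.1) / q ^ 3) := by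
      field_simp
    rw [this]
    apply mul_le_mul_of_nonneg_left k3 (by positivity)
  linarith

theorem Jn_ge {A a h X : ℝ} (hs0 : 0 < s) (hs1 : s < 1) (hA : A ≤ a ^ 2)
    (h1 : X ≤ A + h ^ 2 + s * h)
    (h2 : X ≤ ((1 - s) * (A + h ^ 2) + (3 - s) * (s * h) + 2 * s ^ 2) / (1 + s)) :
    X ≤ Jn s a h := by
  unfold Jn
  apply le_min
  · linarith
  · refine h2.trans ?_
    apply div_le_div_of_nonneg_right _ (by linarith)
    have : (1 - s) * (A + h ^ 2) ≤ (1 - s) * (a ^ 2 + h ^ 2) :=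
      mul_le_mul_of_nonneg_left (by linarith) (by linarith)
    linarith

end

end Pool.Agent.H59
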