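import Mathlib
import Pool.Agent.H59.Defs

set_option autoImplicit false

open Filter Topology

namespace Pool.Agent.H59

namespace CoulsonAux

/-- primitive of `log (x^2+a^2)` -/
noncomputable def A (a X : ℝ) : ℝ := X * Real.log (X ^ 2 + a ^ 2) - 2 * X + 2 * a * Real.arctan (X / a)

/-- primitive of `log t` -/
noncomputable def Bf (X : ℝ) : ℝ :=
  X * Real.log ((X + Real.sqrt (X ^ 2 + 4)) / 2) - Real.sqrt (X ^ 2 + 4)

theorem A_zero (a : ℝ) : A a 0 = 0 := by simp [A]

theorem sqrt4 : Real.sqrt 4 = 2 := by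
  rw [show (4 : ℝ) = 2 ^ 2 by norm_num]; exact Real.sqrt_sq (by norm_num)

theorem Bf_zero : Bf 0 = -2 := by simp [Bf, sqrt4]

theorem A_cont (a : ℝ) : Continuous (A a) := by
  have h1 : Continuous (fun X : ℝ => X * Real.log (X ^ 2 + a ^ 2)) := by
    by_cases ha : a = 0
    · subst ha
      have : (fun X : ℝ => X * Real.log (X ^ 2 + 0 ^ 2)) = fun X => 2 * (X * Real.log X) := by
        funext X
        rw [show X ^ 2 + (0 : ℝ) ^ 2 = X ^ 2 by ring, Real.log_pow]
        push_cast; ring
      rw [this]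
      exact continuous_const.mul Real.continuous_mul_log
    · refine continuous_id.mul (Continuous.log (by fun_prop) ?_)
      intro x
      have : 0 < a ^ 2 := by positivity
      have h2 : 0 ≤ x ^ 2 := sq_nonneg x
      linarith
  unfold A
  refine (h1.sub (by fun_prop)).add (continuous_const.mul ?_)
  exact Real.continuous_arctan.comp (continuous_id.div_const a)

theorem Bf_contOn : ContinuousOn Bf (Set.Ici 0) := by
  unfold Bf
  have hs : Continuous (fun X : ℝ => Real.sqrt (X ^ 2 + 4)) := by fun_prop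
  refine ContinuousOn.sub (ContinuousOn.mul continuousOn_id (ContinuousOn.log ?_ ?_)) hs.continuousOn
  · exact ((continuous_id.add hs).div_const 2).continuousOn
  · intro x hx
    have hx' : (0 : ℝ) ≤ x := hx
    have : 0 < Real.sqrt (x ^ 2 + 4) := Real.sqrt_pos.mpr (by positivity)
    positivity

theorem A_deriv (a X : ℝ) (hX : 0 < X) : HasDerivAt (A a) (Real.log (X ^ 2 + a ^ 2)) X := by
  have hpos : 0 < X ^ 2 + a ^ 2 := by positivity
  have h1 : HasDerivAt (fun X : ℝ => X ^ 2 + a ^ 2) (2 * X) X := by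
    simpa using (hasDerivAt_pow 2 X).add_const (a ^ 2)
  have h2 := (hasDerivAt_id X).mul (h1.log hpos.ne')
  have h3 : HasDerivAt (fun X : ℝ => 2 * X) 2 X := by simpa using (hasDerivAt_id X).const_mul 2
  have h4 : HasDerivAt (fun X : ℝ => X / a) (1 / a) X := by simpa using (hasDerivAt_id X).div_const a
  have h5 := (h4.arctan).const_mul (2 * a)
  have h6 := (h2.sub h3).add h5
  unfold A
  refine h6.congr_deriv ?_
  simp only [id]
  by_cases ha : a = 0
  · subst ha
    have : X ^ 2 + (0:ℝ) ^ 2 = X ^ 2 := by ring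
    rw [this]
    field_simp
    ring
  · have h7 : 1 + (X / a) ^ 2 = (X ^ 2 + a ^ 2) / a ^ 2 := by field_simp; ring
    rw [h7]
    field_simp
    ring

theorem Bf_deriv (X : ℝ) (hX : 0 < X) :
    HasDerivAt Bf (Real.log ((X + Real.sqrt (X ^ 2 + 4)) / 2)) X := by
  set s := Real.sqrt (X ^ 2 + 4) with hs
  have hpos : 0 < X ^ 2 + 4 := by positivity
  have hspos : 0 < s := Real.sqrt_pos.mpr hpos
  have h1 : HasDerivAt (fun X : ℝ => X ^ 2 + 4) (2 * X) X := by
    simpa using (hasDerivAt_pow 2 X).add_const (4 : ℝ)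
  have h2 : HasDerivAt (fun X : ℝ => Real.sqrt (X ^ 2 + 4)) (2 * X / (2 * s)) X := h1.sqrt hpos.ne'
  have h3 := ((hasDerivAt_id X).add h2).div_const 2
  have h3' : HasDerivAt (fun X : ℝ => (X + Real.sqrt (X ^ 2 + 4)) / 2) ((1 + 2 * X / (2 * s)) / 2) X := h3
  have h4 := (hasDerivAt_id X).mul (h3'.log (by rw [← hs]; positivity))
  have h5 := h4.sub h2
  unfold Bf
  refine h5.congr_deriv ?_
  simp only [id]
  rw [← hs]
  have : X + s ≠ 0 := by positivity
  field_simp
  ring

theorem tendsto_A (a : ℝ) (ha : 0 ≤ a) :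
    Tendsto (fun X : ℝ => A a X - (2 * (X * Real.log X) - 2 * X)) atTop (𝓝 (Real.pi * a)) := by
  have h1 : Tendsto (fun X : ℝ => X * Real.log (X ^ 2 + a ^ 2) - 2 * (X * Real.log X)) atTop (𝓝 0) := by
    have hb : Tendsto (fun X : ℝ => a ^ 2 * X⁻¹) atTop (𝓝 0) := by
      simpa using tendsto_inv_atTop_zero.const_mul (a ^ 2)
    refine tendsto_of_tendsto_of_tendsto_of_le_of_le' tendsto_const_nhds hb ?_ ?_
    · filter_upwards [eventually_gt_atTop 0] with X hX
      have h2 : Real.log (X ^ 2) ≤ Real.log (X ^ 2 + a ^ 2) :=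
        Real.log_le_log (by positivity) (by nlinarith [sq_nonneg a])
      rw [Real.log_pow] at h2
      push_cast at h2
      nlinarith
    · filter_upwards [eventually_gt_atTop 0] with X hX
      have h2 : X ^ 2 + a ^ 2 = X ^ 2 * (1 + a ^ 2 / X ^ 2) := by field_simp
      have h3 : Real.log (X ^ 2 + a ^ 2) ≤ 2 * Real.log X + a ^ 2 / X ^ 2 := by
        rw [h2, Real.log_mul (by positivity) (by positivity), Real.log_pow]
        have := Real.log_le_sub_one_of_pos (show 0 < 1 + a ^ 2 / X ^ 2 by positivity)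
        push_cast
        linarith
      have h4 : X * Real.log (X ^ 2 + a ^ 2) ≤ X * (2 * Real.log X + a ^ 2 / X ^ 2) :=
        mul_le_mul_of_nonneg_left h3 hX.le
      have h5 : X * (2 * Real.log X + a ^ 2 / X ^ 2) = 2 * (X * Real.log X) + a ^ 2 * X⁻¹ := by
        field_simp
      linarith
  have h2 : Tendsto (fun X : ℝ => 2 * a * Real.arctan (X / a)) atTop (𝓝 (Real.pi * a)) := by
    rcases ha.eq_or_lt with h | h
    · subst h; simp
    · have h3 : Tendsto (fun X : ℝ => X / a) atTop atTop := tendsto_id.atTop_div_const h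
      have h4 : Tendsto (fun X : ℝ => Real.arctan (X / a)) atTop (𝓝 (Real.pi / 2)) :=
        (tendsto_nhds_of_tendsto_nhdsWithin Real.tendsto_arctan_atTop).comp h3
      have := h4.const_mul (2 * a)
      rwa [show 2 * a * (Real.pi / 2) = Real.pi * a by ring] at this
  have := h1.add h2
  rw [zero_add] at this
  refine this.congr (fun X => ?_)
  unfold A; ring

theorem tendsto_Bf :
    Tendsto (fun X : ℝ => Bf X - (X * Real.log X - X)) atTop (𝓝 0) := by
  have hs : ∀ X : ℝ, 0 < X → Real.sqrt (X ^ 2 + 4) - X ≤ 2 * X⁻¹ ∧ 0 ≤ Real.sqrt (X ^ 2 + 4) - X := by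
    intro X hX
    constructor
    · have : Real.sqrt (X ^ 2 + 4) ≤ X + 2 * X⁻¹ := by
        apply Real.sqrt_le_iff.mpr
        constructor
        · positivity
        · have : (X + 2 * X⁻¹) ^ 2 = X ^ 2 + 4 + 4 * (X⁻¹) ^ 2 := by field_simp; ring
          rw [this]; have := sq_nonneg (X⁻¹); linarith
      linarith
    · have : X ≤ Real.sqrt (X ^ 2 + 4) := Real.le_sqrt_of_sq_le (by linarith)
      linarith
  have hb : Tendsto (fun X : ℝ => 2 * X⁻¹) atTop (𝓝 0) := by
    simpa using tendsto_inv_atTop_zero.const_mul (2 : ℝ)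
  have h1 : Tendsto (fun X : ℝ => Real.sqrt (X ^ 2 + 4) - X) atTop (𝓝 0) := by
    refine tendsto_of_tendsto_of_tendsto_of_le_of_le' tendsto_const_nhds hb ?_ ?_
    · filter_upwards [eventually_gt_atTop 0] with X hX using (hs X hX).2
    · filter_upwards [eventually_gt_atTop 0] with X hX using (hs X hX).1
  have h2 : Tendsto (fun X : ℝ => X * Real.log ((X + Real.sqrt (X ^ 2 + 4)) / 2) - X * Real.log X)
      atTop (𝓝 0) := by
    refine tendsto_of_tendsto_of_tendsto_of_le_of_le' tendsto_const_nhds hb ?_ ?_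
    · filter_upwards [eventually_gt_atTop 0] with X hX
      have h2 : Real.log X ≤ Real.log ((X + Real.sqrt (X ^ 2 + 4)) / 2) :=
        Real.log_le_log hX (by linarith [(hs X hX).2])
      nlinarith
    · filter_upwards [eventually_gt_atTop 0] with X hX
      have h2 : (X + Real.sqrt (X ^ 2 + 4)) / 2 = X * (1 + (Real.sqrt (X ^ 2 + 4) - X) / (2 * X)) := by
        field_simp; ring
      have h0 := (hs X hX).2
      have h3 : Real.log ((X + Real.sqrt (X ^ 2 + 4)) / 2)
          ≤ Real.log X + (Real.sqrt (X ^ 2 + 4) - X) / (2 * X) := by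
        rw [h2, Real.log_mul hX.ne' (by positivity)]
        have := Real.log_le_sub_one_of_pos
          (show 0 < 1 + (Real.sqrt (X ^ 2 + 4) - X) / (2 * X) by positivity)
        linarith
      have h4 : X * Real.log ((X + Real.sqrt (X ^ 2 + 4)) / 2)
          ≤ X * (Real.log X + (Real.sqrt (X ^ 2 + 4) - X) / (2 * X)) :=
        mul_le_mul_of_nonneg_left h3 hX.le
      have h5 : X * (Real.log X + (Real.sqrt (X ^ 2 + 4) - X) / (2 * X))
          = X * Real.log X + (Real.sqrt (X ^ 2 + 4) - X) / 2 := by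
        field_simp
      have h6 := (hs X hX).1
      have h7 : 0 < X⁻¹ := by positivity
      linarith
  have := h2.sub h1
  rw [sub_zero] at this
  refine this.congr (fun X => ?_)
  unfold Bf; ring

end CoulsonAux

open CoulsonAux in
theorem coulson {ι : Type} [Fintype ι] (w a : ι → ℝ) (c : ℝ) (ha : ∀ j, 0 ≤ a j)
    (hw : ∑ j, w j = c)
    (h : ∀ x : ℝ, 0 < x → 2 * c * Real.log ((x + Real.sqrt (x ^ 2 + 4)) / 2)
      ≤ ∑ j, w j * Real.log (x ^ 2 + a j ^ 2)) :
    4 * c / Real.pi ≤ ∑ j, w j * a j := by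
  set G : ℝ → ℝ := fun X => (∑ j, w j * A (a j) X) - 2 * c * Bf X with hG
  have hcont : ContinuousOn G (Set.Ici 0) := by
    refine ContinuousOn.sub (Continuous.continuousOn ?_) (continuousOn_const.mul Bf_contOn)
    exact continuous_finsetSum _ (fun j _ => continuous_const.mul (A_cont (a j)))
  have hder : ∀ X : ℝ, 0 < X → HasDerivAt G ((∑ j, w j * Real.log (X ^ 2 + a j ^ 2))
      - 2 * c * Real.log ((X + Real.sqrt (X ^ 2 + 4)) / 2)) X := by
    intro X hX
    have h1 : HasDerivAt (fun X => ∑ j, w j * A (a j) X)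
        (∑ j, w j * Real.log (X ^ 2 + a j ^ 2)) X :=
      HasDerivAt.fun_sum (fun j _ => (A_deriv (a j) X hX).const_mul (w j))
    exact h1.sub ((Bf_deriv X hX).const_mul (2 * c))
  have hmono : MonotoneOn G (Set.Ici 0) := by
    refine monotoneOn_of_deriv_nonneg (convex_Ici 0) hcont ?_ ?_
    · intro X hX
      rw [interior_Ici] at hX
      exact (hder X hX).differentiableAt.differentiableWithinAt
    · intro X hX
      rw [interior_Ici] at hX
      rw [(hder X hX).deriv]
      linarith [h X hX]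
  have hlim : Tendsto G atTop (𝓝 (∑ j, w j * (Real.pi * a j))) := by
    have h1 : Tendsto (fun X : ℝ => ∑ j, w j * (A (a j) X - (2 * (X * Real.log X) - 2 * X))) atTop
        (𝓝 (∑ j, w j * (Real.pi * a j))) :=
      tendsto_finsetSum _ (fun j _ => (tendsto_A (a j) (ha j)).const_mul (w j))
    have h2 := h1.sub (tendsto_Bf.const_mul (2 * c))
    rw [mul_zero, sub_zero] at h2
    refine h2.congr (fun X => ?_)
    simp only [hG, mul_sub (w _), Finset.sum_sub_distrib, ← Finset.sum_mul, hw]
    ring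
  have h0 : G 0 = 4 * c := by
    simp only [hG, A_zero, Bf_zero]; simp; ring
  have hle : G 0 ≤ ∑ j, w j * (Real.pi * a j) := by
    refine ge_of_tendsto hlim ?_
    filter_upwards [eventually_gt_atTop 0] with X hX
    exact hmono (Set.mem_Ici.mpr le_rfl) (Set.mem_Ici.mpr hX.le) hX.le
  rw [h0] at hle
  have h3 : ∑ j, w j * (Real.pi * a j) = (∑ j, w j * a j) * Real.pi := by
    rw [Finset.sum_mul]; exact Finset.sum_congr rfl (fun j _ => by ring)
  rw [h3] at hle
  rwa [div_le_iff₀ Real.pi_pos]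

end Pool.Agent.H59
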