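import Mathlib
import Pool.Agent.H59.Defs

set_option autoImplicit false

open SimpleGraph Matrix

namespace Pool.Agent.H59

namespace DetAux

open Classical in
/-- Entries of the Laplacian of a relation. -/
noncomputable def ent {V : Type} [Fintype V] (r : V → V → Prop) : Matrix V V ℝ :=
  fun i j => (if i = j then ∑ k, (if r i k then (1 : ℝ) else 0) else 0) - (if r i j then 1 else 0)

/-- The grafted relation. -/
def gadj {α β : Type} (ra : α → α → Prop) (rc : β → β → Prop) (u0 : α) (v0 : β) :
    α ⊕ β → α ⊕ β → Prop := fun x y =>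
  match x, y with
    | Sum.inl u, Sum.inl v => ra u v
    | Sum.inr u, Sum.inr v => rc u v
    | Sum.inl u, Sum.inr v => u = u0 ∧ v = v0
    | Sum.inr v, Sum.inl u => u = u0 ∧ v = v0

theorem lap_entry {V : Type} [Fintype V] [DecidableEq V] (G : SimpleGraph V) [DecidableRel G.Adj] :
    (G.lapMatrix ℝ) = ent G.Adj := by
  classical
  ext i j
  rw [lapMatrix, degMatrix, Matrix.sub_apply, Matrix.diagonal_apply, adjMatrix_apply, ent]
  congr 1
  · by_cases hij : i = j
    · rw [if_pos hij, if_pos hij]
      rw [← G.card_neighborFinset_eq_degree i]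
      have h1 : ((G.neighborFinset i).card : ℝ)
          = ∑ k, (if k ∈ G.neighborFinset i then (1:ℝ) else 0) := by
        simp only [Finset.sum_ite_mem, Finset.univ_inter, Finset.sum_const, nsmul_eq_mul, mul_one]
      rw [h1]
      apply Finset.sum_congr rfl
      intro k _
      by_cases hk : G.Adj i k
      · rw [if_pos hk, if_pos (by simpa using hk)]
      · rw [if_neg hk, if_neg (by simpa using hk)]
    · rw [if_neg hij, if_neg hij]
  · by_cases h : G.Adj i j
    · rw [if_pos h, if_pos h]
    · rw [if_neg h, if_neg h]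

theorem ent_gadj {α β : Type} [Fintype α] [Fintype β] [DecidableEq α] [DecidableEq β]
    (ra : α → α → Prop) (rc : β → β → Prop) (u0 : α) (v0 : β) :
    ent (gadj ra rc u0 v0) = Matrix.fromBlocks (ent ra + Matrix.single u0 u0 1)
      (-Matrix.single u0 v0 1) (-Matrix.single v0 u0 1) (ent rc + Matrix.single v0 v0 1) := by
  classical
  have keyl : ∀ u : α, (∑ k : α ⊕ β, (if gadj ra rc u0 v0 (Sum.inl u) k then (1:ℝ) else 0))
        = (∑ k : α, if ra u k then (1:ℝ) else 0) + (if u = u0 then 1 else 0) := by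
    intro u
    rw [Fintype.sum_sum_type]
    congr 1
    by_cases hu : u = u0
    · simp [gadj, hu]
    · simp [gadj, hu]
  have keyr : ∀ u : β, (∑ k : α ⊕ β, (if gadj ra rc u0 v0 (Sum.inr u) k then (1:ℝ) else 0))
        = (∑ k : β, if rc u k then (1:ℝ) else 0) + (if u = v0 then 1 else 0) := by
    intro u
    rw [Fintype.sum_sum_type, add_comm]
    congr 1
    by_cases hu : u = v0
    · simp [gadj, hu]
    · simp [gadj, hu]
  ext i j
  rcases i with i | i <;> rcases j with j | j
  · rw [Matrix.fromBlocks_apply₁₁, Matrix.add_apply, ent, ent, keyl i, Matrix.single_apply]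
    by_cases hij : i = j
    · subst hij
      by_cases hi : i = u0
      · simp [gadj, hi]; ring
      · simp [gadj, hi, Ne.symm hi]
    · have : ¬ (u0 = i ∧ u0 = j) := by
        rintro ⟨h3, h4⟩; exact hij (h3.symm.trans h4)
      simp [gadj, hij, this]
  · rw [Matrix.fromBlocks_apply₁₂, Matrix.neg_apply, ent, Matrix.single_apply]
    simp only [gadj, reduceCtorEq, if_false, zero_sub, neg_inj]
    by_cases h : u0 = i ∧ v0 = j
    · rw [if_pos h, if_pos ⟨h.1.symm, h.2.symm⟩]
    · rw [if_neg h, if_neg (fun h' => h ⟨h'.1.symm, h'.2.symm⟩)]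
  · rw [Matrix.fromBlocks_apply₂₁, Matrix.neg_apply, ent, Matrix.single_apply]
    simp only [gadj, reduceCtorEq, if_false, zero_sub, neg_inj]
    by_cases h : v0 = i ∧ u0 = j
    · rw [if_pos h, if_pos ⟨h.2.symm, h.1.symm⟩]
    · rw [if_neg h, if_neg (fun h' => h ⟨h'.2.symm, h'.1.symm⟩)]
  · rw [Matrix.fromBlocks_apply₂₂, Matrix.add_apply, ent, ent, keyr i, Matrix.single_apply]
    by_cases hij : i = j
    · subst hij
      by_cases hi : i = v0
      · simp [gadj, hi]; ring
      · simp [gadj, hi, Ne.symm hi]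
    · have : ¬ (v0 = i ∧ v0 = j) := by
        rintro ⟨h3, h4⟩; exact hij (h3.symm.trans h4)
      simp [gadj, hij, this]

theorem adj_eq_gadj (a c : B) : (B.graft a c).adj = gadj a.adj c.adj a.root c.root := by
  funext x y
  rcases x with x | x <;> rcases y with y | y <;> rfl

/-! ### determinant of the grafted matrix -/

section det
variable {R : Type*} [CommRing R] {α β : Type*} [DecidableEq α] [DecidableEq β]

/-- the block matrix -/
def Gr (A : Matrix α α R) (C : Matrix β β R) (u : α) (v : β) : Matrix (α ⊕ β) (α ⊕ β) R :=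
  Matrix.fromBlocks (A + Matrix.single u u 1) (-Matrix.single u v 1) (-Matrix.single v u 1)
      (C + Matrix.single v v 1)

theorem Gr_eq (A : Matrix α α R) (C : Matrix β β R) (u : α) (v : β) :
    Gr A C u v = ((Matrix.fromBlocks A 0 0 C).updateRow (Sum.inl u)
      (Sum.elim (A u) (0 : β → R) + Sum.elim (Pi.single u 1) (Pi.single v (-1)))).updateRow
        (Sum.inr v)
      (Sum.elim (0 : α → R) (C v) + Sum.elim (Pi.single u (-1)) (Pi.single v 1)) := by
  ext i j
  rcases i with i | i <;> rcases j with j | j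
  · simp only [Gr, Matrix.fromBlocks_apply₁₁, Matrix.add_apply, Matrix.updateRow_apply,
      Matrix.single_apply]
    by_cases hi : i = u
    · subst hi
      simp [Pi.single_apply, eq_comm]
    · simp [hi, Ne.symm hi]
  · simp only [Gr, Matrix.fromBlocks_apply₁₂, Matrix.neg_apply, Matrix.updateRow_apply,
      Matrix.single_apply]
    by_cases hi : i = u
    · subst hi
      simp [Pi.single_apply, eq_comm]
      split_ifs <;> simp
    · simp [hi, Ne.symm hi]
  · simp only [Gr, Matrix.fromBlocks_apply₂₁, Matrix.neg_apply, Matrix.updateRow_apply,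
      Matrix.single_apply]
    by_cases hi : i = v
    · subst hi
      simp [Pi.single_apply, eq_comm]
      split_ifs <;> simp
    · simp [hi, Ne.symm hi]
  · simp only [Gr, Matrix.fromBlocks_apply₂₂, Matrix.add_apply, Matrix.updateRow_apply,
      Matrix.single_apply]
    by_cases hi : i = v
    · subst hi
      simp [Pi.single_apply, eq_comm]
    · simp [hi, Ne.symm hi]

variable [Fintype α] [Fintype β]

/-- Determinant with prescribed rows. -/
theorem rows_11 (A : Matrix α α R) (C : Matrix β β R) (u : α) (v : β) :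
    (((Matrix.fromBlocks A 0 0 C).updateRow (Sum.inl u)
      (Sum.elim (A u) (0 : β → R))).updateRow (Sum.inr v)
      (Sum.elim (0 : α → R) (C v))).det = A.det * C.det := by
  have : (((Matrix.fromBlocks A 0 0 C).updateRow (Sum.inl u)
      (Sum.elim (A u) (0 : β → R))).updateRow (Sum.inr v)
      (Sum.elim (0 : α → R) (C v))) = Matrix.fromBlocks A 0 0 C := by
    ext i j
    rcases i with i | i <;> rcases j with j | j <;> simp [Matrix.updateRow_apply] <;>
      rintro rfl <;> rfl
  rw [this, Matrix.det_fromBlocks_zero₂₁]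

theorem rows_21 (A : Matrix α α R) (C : Matrix β β R) (u : α) (v : β) (x : R) :
    (((Matrix.fromBlocks A 0 0 C).updateRow (Sum.inl u)
      (Sum.elim (Pi.single u 1) (Pi.single v x))).updateRow (Sum.inr v)
      (Sum.elim (0 : α → R) (C v))).det = (A.updateRow u (Pi.single u 1)).det * C.det := by
  have : (((Matrix.fromBlocks A 0 0 C).updateRow (Sum.inl u)
      (Sum.elim (Pi.single u 1) (Pi.single v x))).updateRow (Sum.inr v)
      (Sum.elim (0 : α → R) (C v)))
      = Matrix.fromBlocks (A.updateRow u (Pi.single u 1)) (Matrix.single u v x) 0 C := by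
    ext i j
    rcases i with i | i <;> rcases j with j | j
    · simp [Matrix.updateRow_apply]
    · simp only [Matrix.fromBlocks_apply₁₂, Matrix.updateRow_apply, Matrix.single_apply]
      by_cases hi : i = u
      · subst hi
        simp [Pi.single_apply, eq_comm]
      · simp [hi, Ne.symm hi]
    · simp [Matrix.updateRow_apply]
    · simp [Matrix.updateRow_apply]
      rintro rfl
      rfl
  rw [this, Matrix.det_fromBlocks_zero₂₁]

theorem rows_12 (A : Matrix α α R) (C : Matrix β β R) (u : α) (v : β) (x : R) :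
    (((Matrix.fromBlocks A 0 0 C).updateRow (Sum.inl u)
      (Sum.elim (A u) (0 : β → R))).updateRow (Sum.inr v)
      (Sum.elim (Pi.single u x) (Pi.single v 1))).det
      = A.det * (C.updateRow v (Pi.single v 1)).det := by
  have : (((Matrix.fromBlocks A 0 0 C).updateRow (Sum.inl u)
      (Sum.elim (A u) (0 : β → R))).updateRow (Sum.inr v)
      (Sum.elim (Pi.single u x) (Pi.single v 1)))
      = Matrix.fromBlocks A 0 (Matrix.single v u x) (C.updateRow v (Pi.single v 1)) := by
    ext i j
    rcases i with i | i <;> rcases j with j | j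
    · simp [Matrix.updateRow_apply]
      rintro rfl; rfl
    · simp [Matrix.updateRow_apply]
    · simp only [Matrix.fromBlocks_apply₂₁, Matrix.updateRow_apply, Matrix.single_apply]
      by_cases hi : i = v
      · subst hi
        simp [Pi.single_apply, eq_comm]
      · simp [hi, Ne.symm hi]
    · simp [Matrix.updateRow_apply]
  rw [this, Matrix.det_fromBlocks_zero₁₂]

theorem rows_22 (A : Matrix α α R) (C : Matrix β β R) (u : α) (v : β) :
    (((Matrix.fromBlocks A 0 0 C).updateRow (Sum.inl u)
      (Sum.elim (Pi.single u 1) (Pi.single v (-1)))).updateRow (Sum.inr v)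
      (Sum.elim (Pi.single u (-1)) (Pi.single v 1))).det = 0 := by
  have h : (Sum.elim (Pi.single u (-1)) (Pi.single v 1) : α ⊕ β → R)
      = (-1 : R) • (Sum.elim (Pi.single u 1) (Pi.single v (-1)) : α ⊕ β → R) := by
    ext i
    rcases i with i | i
    · simp [Pi.single_apply]
    · simp [Pi.single_apply]
  rw [h, Matrix.det_updateRow_smul]
  have h2 : (((Matrix.fromBlocks A 0 0 C).updateRow (Sum.inl u)
      (Sum.elim (Pi.single u 1) (Pi.single v (-1)))).updateRow (Sum.inr v)
      (Sum.elim (Pi.single u 1) (Pi.single v (-1)))).det = 0 := by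
    apply Matrix.det_zero_of_row_eq (i := Sum.inl u) (j := Sum.inr v) (by simp)
    ext i
    simp [Matrix.updateRow_apply]
  rw [h2, mul_zero]

theorem det_Gr (A : Matrix α α R) (C : Matrix β β R) (u : α) (v : β) :
    (Gr A C u v).det = (A.det + (A.updateRow u (Pi.single u 1)).det)
        * (C.det + (C.updateRow v (Pi.single v 1)).det)
      - (A.updateRow u (Pi.single u 1)).det * (C.updateRow v (Pi.single v 1)).det := by
  have hne : (Sum.inl u : α ⊕ β) ≠ Sum.inr v := by simp
  rw [Gr_eq, Matrix.det_updateRow_add, Matrix.updateRow_comm _ hne, Matrix.det_updateRow_add,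
    Matrix.updateRow_comm _ hne.symm, Matrix.updateRow_comm _ hne.symm, rows_11, rows_21,
    Matrix.updateRow_comm _ hne, Matrix.det_updateRow_add, Matrix.updateRow_comm _ hne.symm,
    Matrix.updateRow_comm _ hne.symm, rows_12, rows_22]
  ring

theorem adj_Gr (A : Matrix α α R) (C : Matrix β β R) (u : α) (v : β) :
    ((Gr A C u v).updateRow (Sum.inl u) (Pi.single (Sum.inl u) 1)).det
      = (A.updateRow u (Pi.single u 1)).det
        * (C.det + (C.updateRow v (Pi.single v 1)).det) := by
  have hne : (Sum.inl u : α ⊕ β) ≠ Sum.inr v := by simp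
  have h1 : (Pi.single (Sum.inl u) 1 : α ⊕ β → R)
      = Sum.elim (Pi.single u 1) (Pi.single v 0) := by
    ext i
    rcases i with i | i
    · simp [Pi.single_apply]
    · simp
  rw [Gr_eq, Matrix.updateRow_comm _ hne.symm, Matrix.updateRow_idem, h1,
    Matrix.det_updateRow_add, rows_21]
  have h2 : (((Matrix.fromBlocks A 0 0 C).updateRow (Sum.inl u)
      (Sum.elim (Pi.single u 1) (Pi.single v 0))).updateRow (Sum.inr v)
      (Sum.elim (Pi.single u (-1)) (Pi.single v 1))).det
      = (A.updateRow u (Pi.single u 1)).det * (C.updateRow v (Pi.single v 1)).det := by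
    have : (((Matrix.fromBlocks A 0 0 C).updateRow (Sum.inl u)
      (Sum.elim (Pi.single u 1) (Pi.single v 0))).updateRow (Sum.inr v)
      (Sum.elim (Pi.single u (-1)) (Pi.single v 1)))
      = Matrix.fromBlocks (A.updateRow u (Pi.single u 1)) 0 (Matrix.single v u (-1))
          (C.updateRow v (Pi.single v 1)) := by
      ext i j
      rcases i with i | i <;> rcases j with j | j
      · simp only [Matrix.fromBlocks_apply₁₁, Matrix.updateRow_apply]
        simp
      · simp [Matrix.updateRow_apply]
      · simp only [Matrix.fromBlocks_apply₂₁, Matrix.updateRow_apply, Matrix.single_apply]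
        by_cases hi : i = v
        · subst hi
          simp [Pi.single_apply, eq_comm]
        · simp [hi, Ne.symm hi]
      · simp [Matrix.updateRow_apply]
    rw [this, Matrix.det_fromBlocks_zero₁₂]
  rw [h2]
  ring

end det

/-! ### the complex matrix of a tree -/

/-- `L - (2 + w)`. -/
noncomputable def Mr (w : ℂ) {V : Type} [Fintype V] [DecidableEq V] (r : V → V → Prop) :
    Matrix V V ℂ :=
  (ent r).map (fun x : ℝ => (x : ℂ)) - (2 + w) • (1 : Matrix V V ℂ)

theorem Mr_gadj (w : ℂ) {α β : Type} [Fintype α] [Fintype β] [DecidableEq α] [DecidableEq β]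
    (ra : α → α → Prop) (rc : β → β → Prop) (u0 : α) (v0 : β) :
    Mr w (gadj ra rc u0 v0) = Gr (Mr w ra) (Mr w rc) u0 v0 := by
  unfold Mr
  rw [ent_gadj]
  ext i j
  rcases i with i | i <;> rcases j with j | j
  · have e1 : (1 : Matrix (α ⊕ β) (α ⊕ β) ℂ) (Sum.inl i) (Sum.inl j)
        = (1 : Matrix α α ℂ) i j := by
      simp [Matrix.one_apply]
    simp only [Gr, Matrix.sub_apply, Matrix.map_apply, Matrix.fromBlocks_apply₁₁,
      Matrix.add_apply, Matrix.smul_apply, e1, Matrix.single_apply]
    split_ifs <;> push_cast <;> ring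
  · have e1 : (1 : Matrix (α ⊕ β) (α ⊕ β) ℂ) (Sum.inl i) (Sum.inr j) = 0 := by
      simp
    simp only [Gr, Matrix.sub_apply, Matrix.map_apply, Matrix.fromBlocks_apply₁₂,
      Matrix.neg_apply, Matrix.smul_apply, e1, Matrix.single_apply]
    split_ifs <;> push_cast <;> simp
  · have e1 : (1 : Matrix (α ⊕ β) (α ⊕ β) ℂ) (Sum.inr i) (Sum.inl j) = 0 := by
      simp
    simp only [Gr, Matrix.sub_apply, Matrix.map_apply, Matrix.fromBlocks_apply₂₁,
      Matrix.neg_apply, Matrix.smul_apply, e1, Matrix.single_apply]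
    split_ifs <;> push_cast <;> simp
  · have e1 : (1 : Matrix (α ⊕ β) (α ⊕ β) ℂ) (Sum.inr i) (Sum.inr j)
        = (1 : Matrix β β ℂ) i j := by
      simp [Matrix.one_apply]
    simp only [Gr, Matrix.sub_apply, Matrix.map_apply, Matrix.fromBlocks_apply₂₂,
      Matrix.add_apply, Matrix.smul_apply, e1, Matrix.single_apply]
    split_ifs <;> push_cast <;> ring

/-- `L - (2 + w)`. -/
noncomputable def Mc (w : ℂ) (b : B) : Matrix b.V b.V ℂ := Mr w b.adj

theorem Mc_graft (w : ℂ) (a c : B) :
    Mc w (B.graft a c) = Gr (Mc w a) (Mc w c) a.root c.root := by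
  have h := Mr_gadj w a.adj c.adj a.root c.root
  have h1 : Mc w (B.graft a c) = Mr w (gadj a.adj c.adj a.root c.root) := by
    unfold Mc
    rw [adj_eq_gadj]; rfl
  exact h1.trans h

theorem ent_one (i j : B.one.V) : ent B.one.adj i j = 0 := by
  have hij : i = j := by cases i; cases j; rfl
  subst hij
  have h : ∀ k : B.one.V, ¬ B.one.adj i k := fun k hk => hk
  unfold ent
  rw [if_pos rfl, if_neg (h i), sub_zero]
  apply Finset.sum_eq_zero
  intro k _
  rw [if_neg (h k)]

theorem Mc_one (w : ℂ) : (Mc w B.one).det = -2 - w := by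
  have h : Mc w B.one = (-2 - w) • (1 : Matrix B.one.V B.one.V ℂ) := by
    ext i j
    rw [Mc, Mr, Matrix.sub_apply, Matrix.map_apply, ent_one, Matrix.smul_apply, Matrix.smul_apply]
    simp only [smul_eq_mul, Complex.ofReal_zero]
    ring
  rw [h, Matrix.det_smul, Matrix.det_one, mul_one]
  have : Fintype.card B.one.V = 1 := rfl
  rw [this, pow_one]

theorem Mc_one' (w : ℂ) : ((Mc w B.one).updateRow B.one.root (Pi.single B.one.root 1)).det = 1 := by
  have h : (Mc w B.one).updateRow B.one.root (Pi.single B.one.root 1)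
      = (1 : Matrix B.one.V B.one.V ℂ) := by
    ext i j
    have hi : i = B.one.root := by cases i; rfl
    have hj : j = B.one.root := by cases j; rfl
    subst hi; subst hj
    simp [Matrix.updateRow_self]
  rw [h, Matrix.det_one]

theorem det_Mc (w : ℂ) (b : B) :
    (Mc w b).det = (Dc w b).1 ∧
      ((Mc w b).updateRow b.root (Pi.single b.root 1)).det = (Dc w b).2 := by
  induction b with
  | one => exact ⟨by rw [Mc_one]; rfl, by rw [Mc_one']; rfl⟩
  | graft a c iha ihc =>
    constructor
    · rw [Mc_graft]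
      have := det_Gr (Mc w a) (Mc w c) a.root c.root
      rw [iha.1, iha.2, ihc.1, ihc.2] at this
      exact this
    · rw [Mc_graft]
      have := adj_Gr (Mc w a) (Mc w c) a.root c.root
      rw [iha.2, ihc.1, ihc.2] at this
      exact this

theorem prod_roots {V : Type} [Fintype V] [DecidableEq V] (A : Matrix V V ℝ) (hA : A.IsHermitian)
    (z : ℂ) :
    (A.charpoly.roots.map (fun μ : ℝ => (μ : ℂ) - z)).prod
      = (A.map (fun x : ℝ => (x : ℂ)) - z • (1 : Matrix V V ℂ)).det := by
  have h1 : (A.map (fun x : ℝ => (x : ℂ))).charpoly = A.charpoly.map Complex.ofRealHom :=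
    Matrix.charpoly_map A Complex.ofRealHom
  have h2 := hA.charpoly_eq
  have h3 : (A.map (fun x : ℝ => (x : ℂ)) - z • (1 : Matrix V V ℂ)).det
      = (-1) ^ (Fintype.card V) * (A.map (fun x : ℝ => (x : ℂ))).charpoly.eval z := by
    rw [Matrix.eval_charpoly, ← Matrix.det_neg]
    congr 1
    ext i j
    simp [Matrix.scalar_apply, Matrix.one_apply, Matrix.diagonal_apply]
  rw [hA.roots_charpoly_eq_eigenvalues, h3, h1, h2, Polynomial.map_prod, Polynomial.eval_prod,
    Multiset.map_map]
  have h4 : ((-1 : ℂ)) ^ (Fintype.card V) = ∏ i : V, (-1 : ℂ) := by simp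
  rw [h4, ← Finset.prod_mul_distrib]
  apply Finset.prod_congr rfl
  intro i _
  simp

theorem ent_symm {V : Type} [Fintype V] (r : V → V → Prop) (hr : ∀ x y, r x y → r y x) :
    (ent r).IsHermitian := by
  ext i j
  rw [Matrix.conjTranspose_apply]
  simp only [star_trivial, ent]
  by_cases hij : i = j
  · subst hij; rfl
  · rw [if_neg hij, if_neg (Ne.symm hij)]
    by_cases h : r i j
    · rw [if_pos h, if_pos (hr _ _ h)]
    · rw [if_neg h, if_neg (fun h' => h (hr _ _ h'))]

end DetAux

/-! ### Module Det -/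

theorem det_rec (b : B) (w : ℂ) :
    ((lapSpec b.graph).map (fun μ : ℝ => (μ : ℂ) - 2 - w)).prod = (Dc w b).1 := by
  have h1 : ∀ (i1 : DecidableEq b.V) (i2 : DecidableRel b.graph.Adj),
      ((@SimpleGraph.lapMatrix b.V ℝ _ b.graph i2 i1 _).charpoly.roots.map
        (fun μ : ℝ => (μ : ℂ) - 2 - w)).prod = (Dc w b).1 := by
    intro i1 i2
    have e1 : i1 = B.instDecidableEqV b := Subsingleton.elim _ _
    subst e1
    rw [DetAux.lap_entry, ← (DetAux.det_Mc w b).1]
    have := DetAux.prod_roots (DetAux.ent b.graph.Adj)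
      (DetAux.ent_symm b.graph.Adj (fun x y h => B.adj_symm b x y h)) (2 + w)
    simp only [sub_sub]
    exact this
  unfold lapSpec
  exact h1 _ _


namespace DetAux

theorem qq_pos (x : ℝ) : 0 < qq x := by
  unfold qq
  have h : x < Real.sqrt (x ^ 2 + 4) := by
    apply Real.lt_sqrt_of_sq_lt
    linarith
  linarith

theorem qq_eq (x : ℝ) : qq x * x = 1 - qq x ^ 2 := by
  unfold qq
  have h : Real.sqrt (x ^ 2 + 4) ^ 2 = x ^ 2 + 4 := Real.sq_sqrt (by positivity)
  nlinarith [h]

theorem st_spec (x : ℝ) (hx : 0 < x) (b : B) :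
    0 < (b.st (qq x)).2.1 ∧
    (qq x : ℂ) * (Dc (Complex.I * x) b).1
      = (Dc (Complex.I * x) b).2 * ((b.st (qq x)).1 - (b.st (qq x)).2.1 * Complex.I) ∧
    Complex.normSq (Dc (Complex.I * x) b).2 * qq x ^ (2 * b.size) = (b.st (qq x)).2.2 * qq x ^ 2 := by
  have hq := qq_pos x
  have hqx := qq_eq x
  have hqxc : (qq x : ℂ) * x = 1 - (qq x : ℂ) ^ 2 := by exact_mod_cast congrArg Complex.ofReal hqx
  generalize qq x = q at *
  have hq1 : 0 < 1 - q ^ 2 := by rw [← hqx]; positivity
  induction b with
  | one =>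
    refine ⟨by simpa [B.st] using hq1, ?_, ?_⟩
    · simp only [Dc, B.st]
      push_cast
      linear_combination (-Complex.I) * hqxc
    · simp [Dc, B.st, B.size]
  | graft a c iha ihc =>
    obtain ⟨a1, a2, a3⟩ := iha
    obtain ⟨c1, c2, c3⟩ := ihc
    have hDn : 0 < ((c.st q).1 + q) ^ 2 + (c.st q).2.1 ^ 2 := by positivity
    have hst1 : ((B.graft a c).st q).1 = (a.st q).1 + q
        - q ^ 2 * ((c.st q).1 + q) / (((c.st q).1 + q) ^ 2 + (c.st q).2.1 ^ 2) := rfl
    have hst2 : ((B.graft a c).st q).2.1 = (a.st q).2.1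
        + q ^ 2 * (c.st q).2.1 / (((c.st q).1 + q) ^ 2 + (c.st q).2.1 ^ 2) := rfl
    have hst3 : ((B.graft a c).st q).2.2 = (a.st q).2.2
        * ((c.st q).2.2 * (((c.st q).1 + q) ^ 2 + (c.st q).2.1 ^ 2)) := rfl
    rw [hst1, hst2, hst3]
    have hD1 : (Dc (Complex.I * x) (B.graft a c)).1
      = ((Dc (Complex.I * x) a).1 + (Dc (Complex.I * x) a).2)
          * ((Dc (Complex.I * x) c).1 + (Dc (Complex.I * x) c).2)
        - (Dc (Complex.I * x) a).2 * (Dc (Complex.I * x) c).2 := rfl
    have hD2 : (Dc (Complex.I * x) (B.graft a c)).2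
      = (Dc (Complex.I * x) a).2 * ((Dc (Complex.I * x) c).1 + (Dc (Complex.I * x) c).2) := rfl
    have hsz : (B.graft a c).size = a.size + c.size := rfl
    rw [hD1, hD2, hsz]
    generalize (a.st q).1 = αa at *
    generalize (a.st q).2.1 = βa at *
    generalize (a.st q).2.2 = ma at *
    generalize (c.st q).1 = αc at *
    generalize (c.st q).2.1 = βc at *
    generalize (c.st q).2.2 = mc at *
    generalize (Dc (Complex.I * x) a).1 = Da at *
    generalize (Dc (Complex.I * x) a).2 = Ra at *
    generalize (Dc (Complex.I * x) c).1 = Dc1 at *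
    generalize (Dc (Complex.I * x) c).2 = Rc at *
    set Dn : ℝ := (αc + q) ^ 2 + βc ^ 2 with hDn'
    have hDnc : (Dn : ℂ) ≠ 0 := by exact_mod_cast hDn.ne'
    have hDnc' : (Dn : ℂ) = ((αc : ℂ) + q) ^ 2 + (βc : ℂ) ^ 2 := by
      rw [hDn']; push_cast; ring
    have hI : Complex.I ^ 2 = -1 := Complex.I_sq
    have k1 : (q : ℂ) * (Dc1 + Rc) = Rc * ((αc : ℂ) + q - βc * Complex.I) := by
      linear_combination c2
    have k2 : (q : ℂ) * (Dc1 + Rc) * ((αc : ℂ) + q + βc * Complex.I) = Rc * Dn := by
      rw [k1, hDnc']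
      linear_combination (-Rc * (βc : ℂ) ^ 2) * hI
    have k3 : (q : ℂ) * (Da + Ra) = Ra * ((αa : ℂ) + q - βa * Complex.I) := by
      linear_combination a2
    refine ⟨by positivity, ?_, ?_⟩
    · have e1 : (((αa + q - q ^ 2 * (αc + q) / Dn : ℝ) : ℂ)
          - ((βa + q ^ 2 * βc / Dn : ℝ) : ℂ) * Complex.I) * Dn
          = ((αa : ℂ) + q) * Dn - (q : ℂ) ^ 2 * (αc + q)
            - (βa * Dn + (q : ℂ) ^ 2 * βc) * Complex.I := by
        push_cast
        field_simp
      apply mul_right_cancel₀ hDnc
      rw [mul_assoc (Ra * (Dc1 + Rc)), e1]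
      linear_combination (Dc1 + Rc) * (Dn : ℂ) * k3 - (-(q : ℂ) * Ra) * k2
    · have n1 : Complex.normSq (Dc1 + Rc) * q ^ 2 = Complex.normSq Rc * Dn := by
        have := congrArg Complex.normSq k1
        rw [map_mul, map_mul, Complex.normSq_ofReal] at this
        have e2 : Complex.normSq ((αc : ℂ) + q - βc * Complex.I) = Dn := by
          rw [Complex.normSq_apply]
          simp
          rw [hDn']; ring
        rw [e2] at this
        linear_combination this
      rw [map_mul]
      have e3 : 2 * (a.size + c.size) = 2 * a.size + 2 * c.size := by ring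
      rw [e3, pow_add]
      have hq2 : q ^ 2 ≠ 0 := by positivity
      apply mul_right_cancel₀ hq2
      linear_combination (q ^ (2 * c.size) * Complex.normSq (Dc1 + Rc) * q ^ 2) * a3
        + (ma * q ^ 2 * q ^ (2 * c.size)) * n1 + (ma * q ^ 2 * Dn) * c3

end DetAux

theorem normsq (b : B) (x : ℝ) (hx : 0 < x) :
    ((lapSpec b.graph).map (fun μ => (μ - 2) ^ 2 + x ^ 2)).prod * qq x ^ (2 * b.size)
      = b.F (qq x) := by
  have h0 := det_rec b (Complex.I * x)
  obtain ⟨h1, h2, h3⟩ := DetAux.st_spec x hx b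
  have hq := DetAux.qq_pos x
  have e1 : ((lapSpec b.graph).map (fun μ => (μ - 2) ^ 2 + x ^ 2)).prod
      = Complex.normSq (Dc (Complex.I * x) b).1 := by
    rw [← h0, map_multiset_prod, Multiset.map_map]
    congr 1
    apply Multiset.map_congr rfl
    intro μ _
    simp only [Function.comp]
    rw [Complex.normSq_apply]
    simp
    ring
  rw [e1]
  have h4 := congrArg Complex.normSq h2
  rw [map_mul, map_mul, Complex.normSq_ofReal] at h4
  have e2 : Complex.normSq ((((b.st (qq x)).1 : ℝ) : ℂ) - ((b.st (qq x)).2.1 : ℝ) * Complex.I)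
      = (b.st (qq x)).1 ^ 2 + (b.st (qq x)).2.1 ^ 2 := by
    rw [Complex.normSq_apply]
    simp
    ring
  rw [e2] at h4
  have hq2 : qq x ^ 2 ≠ 0 := by positivity
  apply mul_right_cancel₀ hq2
  rw [B.F]
  linear_combination (qq x ^ (2 * b.size)) * h4 + ((b.st (qq x)).1 ^ 2 + (b.st (qq x)).2.1 ^ 2) * h3

end Pool.Agent.H59
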