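import Mathlib
import Pool.Agent.H59.Defs

set_option autoImplicit false

/-!
# At least as many Laplacian eigenvalues `≥ 2` as greedy matching edges
-/

namespace Pool.Agent.H59

open Matrix Finset

lemma inertia_quad {V : Type*} [Fintype V] [DecidableEq V] (A : Matrix V V ℝ)
    (hA : A.IsHermitian) : ∃ W : Matrix V V ℝ,
      (∀ x : V → ℝ, x ⬝ᵥ (A *ᵥ x) = ∑ i, hA.eigenvalues i * ((W *ᵥ x) i) ^ 2) ∧
      (∀ x : V → ℝ, x ⬝ᵥ x = ∑ i, ((W *ᵥ x) i) ^ 2) := by
  set U : Matrix V V ℝ := (hA.eigenvectorUnitary : Matrix V V ℝ) with hU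
  have h1 : A = U * diagonal hA.eigenvalues * Uᵀ := by
    have := hA.spectral_theorem
    rw [Unitary.conjStarAlgAut_apply] at this
    exact this
  have h2 : U * Uᵀ = 1 := by
    have := Unitary.coe_mul_star_self hA.eigenvectorUnitary
    exact this
  refine ⟨Uᵀ, fun x => ?_, fun x => ?_⟩
  · conv_lhs => rw [h1]
    rw [← Matrix.mulVec_mulVec, ← Matrix.mulVec_mulVec, Matrix.dotProduct_mulVec,
      ← Matrix.mulVec_transpose]
    simp only [dotProduct, Matrix.mulVec_diagonal]
    refine Finset.sum_congr rfl fun i _ => ?_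
    ring
  · have h3 : x ⬝ᵥ x = x ⬝ᵥ ((U * Uᵀ) *ᵥ x) := by rw [h2, Matrix.one_mulVec]
    rw [h3, ← Matrix.mulVec_mulVec, Matrix.dotProduct_mulVec, ← Matrix.mulVec_transpose]
    simp only [dotProduct]
    refine Finset.sum_congr rfl fun i _ => ?_
    ring

lemma inertia_graph {V : Type} [Fintype V] [DecidableEq V] (G : SimpleGraph V)
    [DecidableRel G.Adj] (m : V → V) (hm : ∀ v, m (m v) = v)
    (hadj : ∀ v, m v ≠ v → G.Adj v (m v)) :
    Fintype.card V ≤ 2 * ((G.lapMatrix ℝ).charpoly.roots.filter (fun μ => 2 ≤ μ)).card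
      + ∑ v, (if m v = v then 1 else 0) := by
  classical
  have hA := G.isHermitian_lapMatrix ℝ
  obtain ⟨W, hW1, hW2⟩ := inertia_quad _ hA
  -- the number of eigenvalues
  have hcard : ((G.lapMatrix ℝ).charpoly.roots.filter (fun μ => 2 ≤ μ)).card
      = Fintype.card {i : V // 2 ≤ hA.eigenvalues i} := by
    rw [hA.roots_charpoly_eq_eigenvalues, Multiset.filter_map, Multiset.card_map,
      Fintype.card_subtype]
    rfl
  -- representatives of the pairs
  obtain ⟨e, he⟩ : ∃ e : V → ℕ, Function.Injective e :=
    ⟨fun v => (Fintype.equivFin V v).val,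
      fun v w h => (Fintype.equivFin V).injective (Fin.ext h)⟩
  let R := {v : V // e v < e (m v)}
  have hpair : Fintype.card V = 2 * Fintype.card R + ∑ v, (if m v = v then 1 else 0) := by
    have h1 : ∑ v : V, (if e (m v) < e v then 1 else 0) = ∑ v : V, (if e v < e (m v) then 1 else 0) := by
      let p : V ≃ V := ⟨m, m, hm, hm⟩
      rw [← Equiv.sum_comp p]
      refine Finset.sum_congr rfl fun v _ => ?_
      simp [p, hm]
    have h2 : Fintype.card R = ∑ v : V, (if e v < e (m v) then 1 else 0) := by
      rw [Fintype.card_subtype, Finset.card_filter]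
    have h3 : Fintype.card V = ∑ v : V, ((if e (m v) < e v then 1 else 0)
        + (if e v < e (m v) then 1 else 0) + (if m v = v then 1 else 0)) := by
      rw [Fintype.card_eq_sum_ones]
      refine Finset.sum_congr rfl fun v _ => ?_
      rcases lt_trichotomy (e v) (e (m v)) with h | h | h
      · have h' : m v ≠ v := fun hh => by rw [hh] at h; exact lt_irrefl _ h
        simp [h, h', h.le]
      · have h' : m v = v := (he h).symm
        simp [h']
      · have h' : m v ≠ v := fun hh => by rw [hh] at h; exact lt_irrefl _ h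
        simp [h, h', h.le]
    rw [h3, Finset.sum_add_distrib, Finset.sum_add_distrib, h1, ← h2]
    ring
  rw [hcard, hpair]
  suffices h : Fintype.card R ≤ Fintype.card {i : V // 2 ≤ hA.eigenvalues i} by omega
  -- the antisymmetric vector with given values on the representatives
  let Ψ : (R → ℝ) →ₗ[ℝ] (V → ℝ) :=
    { toFun := fun y v => if h : e v < e (m v) then y ⟨v, h⟩ else
        if h' : e (m v) < e (m (m v)) then - y ⟨m v, h'⟩ else 0
      map_add' := by
        intro y z; funext v
        by_cases h : e v < e (m v)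
        · simp [h]
        · by_cases h' : e (m v) < e (m (m v))
          · simp [h, h']; ring
          · simp [h, h']
      map_smul' := by
        intro c y; funext v
        by_cases h : e v < e (m v)
        · simp [h]
        · by_cases h' : e (m v) < e (m (m v))
          · simp [h, h']
          · simp [h, h'] }
  have hΨ1 : ∀ (y : R → ℝ) (v : R), Ψ y v.1 = y v := by
    intro y v
    simp [Ψ, v.2]
  have hΨ2 : ∀ (y : R → ℝ) (v : V), Ψ y (m v) = - Ψ y v := by
    intro y v
    have hmm := hm v
    simp only [Ψ, LinearMap.coe_mk, AddHom.coe_mk]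
    rcases lt_trichotomy (e v) (e (m v)) with h | h | h
    · have h1 : ¬ e (m v) < e (m (m v)) := by rw [hm]; exact not_lt.mpr h.le
      have h2 : e (m (m v)) < e (m (m (m v))) := by rw [hm]; exact h
      rw [dif_neg h1, dif_pos h2, dif_pos h]
      congr 2
      exact Subtype.ext hmm
    · have h' : m v = v := (he h).symm
      have h1 : ¬ e (m v) < e (m (m v)) := by rw [hm]; exact not_lt.mpr h.le
      have h2 : ¬ e (m (m v)) < e (m (m (m v))) := by rw [hm]; exact not_lt.mpr h.ge
      have h3 : ¬ e v < e (m v) := not_lt.mpr h.ge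
      rw [dif_neg h1, dif_neg h2, dif_neg h3, dif_neg h1, neg_zero]
    · have h1 : e (m v) < e (m (m v)) := by rw [hm]; exact h
      have h3 : ¬ e v < e (m v) := not_lt.mpr h.le
      rw [dif_pos h1, dif_neg h3, dif_pos h1, neg_neg]
  have hquad : ∀ y : R → ℝ, 2 * (Ψ y ⬝ᵥ Ψ y) ≤ Ψ y ⬝ᵥ (G.lapMatrix ℝ *ᵥ Ψ y) := by
    intro y
    have h1 := G.lapMatrix_toLinearMap₂' ℝ (Ψ y)
    rw [toLinearMap₂'_apply'] at h1
    rw [h1]
    have h2 : ∀ i : V, 4 * (Ψ y i * Ψ y i) ≤
        ∑ j : V, if G.Adj i j then (Ψ y i - Ψ y j) ^ 2 else 0 := by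
      intro i
      by_cases hi : m i = i
      · have h3 := hΨ2 y i
        rw [hi] at h3
        have h4 : Ψ y i = 0 := by linarith
        rw [h4]
        simp only [mul_zero]
        exact Finset.sum_nonneg fun j _ => by split_ifs <;> positivity
      · have h3 : (if G.Adj i (m i) then (Ψ y i - Ψ y (m i)) ^ 2 else 0)
            = 4 * (Ψ y i * Ψ y i) := by
          rw [if_pos (hadj i hi), hΨ2 y i]; ring
        rw [← h3]
        exact Finset.single_le_sum (f := fun j => if G.Adj i j then (Ψ y i - Ψ y j) ^ 2 else 0)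
          (fun j _ => by split_ifs <;> positivity) (Finset.mem_univ _)
    have h5 : 4 * (Ψ y ⬝ᵥ Ψ y) ≤ ∑ i : V, ∑ j : V, if G.Adj i j then (Ψ y i - Ψ y j) ^ 2 else 0 := by
      rw [dotProduct, Finset.mul_sum]
      exact Finset.sum_le_sum fun i _ => h2 i
    linarith
  -- the composition with the large eigenvectors is injective
  let Φ : (R → ℝ) →ₗ[ℝ] ({i : V // 2 ≤ hA.eigenvalues i} → ℝ) :=
    (LinearMap.funLeft ℝ ℝ Subtype.val).comp ((Matrix.mulVecLin W).comp Ψ)
  have hinj : Function.Injective Φ := by
    rw [← LinearMap.ker_eq_bot, LinearMap.ker_eq_bot']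
    intro y hy
    have h0 : ∀ i : V, 2 ≤ hA.eigenvalues i → (W *ᵥ Ψ y) i = 0 := by
      intro i hi
      exact congrFun hy ⟨i, hi⟩
    have h1 := hquad y
    rw [hW1, hW2, Finset.mul_sum] at h1
    have h2 : ∀ i : V, hA.eigenvalues i * ((W *ᵥ Ψ y) i) ^ 2 ≤ 2 * ((W *ᵥ Ψ y) i) ^ 2 := by
      intro i
      rcases le_or_gt 2 (hA.eigenvalues i) with h | h
      · rw [h0 i h]; simp
      · exact mul_le_mul_of_nonneg_right h.le (sq_nonneg _)
    have h3 := Finset.sum_le_sum (s := Finset.univ) fun i _ => h2 i
    have h4 := (Finset.sum_eq_sum_iff_of_le (s := Finset.univ) fun i _ => h2 i).mp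
      (le_antisymm h3 h1)
    have h5 : ∀ i, (W *ᵥ Ψ y) i = 0 := by
      intro i
      rcases le_or_gt 2 (hA.eigenvalues i) with h | h
      · exact h0 i h
      · have h6 := h4 i (Finset.mem_univ i)
        by_contra hne
        have h7 : 0 < ((W *ᵥ Ψ y) i) ^ 2 := by positivity
        have := mul_lt_mul_of_pos_right h h7
        exact absurd h6 this.ne
    have h6 : Ψ y ⬝ᵥ Ψ y = 0 := by
      rw [hW2]
      exact Finset.sum_eq_zero fun i _ => by rw [h5 i]; ring
    have h7 := dotProduct_self_eq_zero.mp h6
    funext v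
    rw [← hΨ1 y v, h7]
    rfl
  have := LinearMap.finrank_le_finrank_of_injective hinj
  simpa using this

theorem inertia_mate : ∀ b : B, ∃ m : b.V → b.V, (∀ v, m (m v) = v) ∧
    (∀ v, m v ≠ v → b.graph.Adj v (m v)) ∧ (b.fd.1 = true ↔ m b.root = b.root) ∧
    ∑ v, (if m v = v then 1 else 0) = b.dfc := by
  intro b
  induction b with
  | one =>
    refine ⟨id, fun v => rfl, fun v h => absurd rfl h, by simp [B.fd], ?_⟩
    change ∑ v : Unit, (if id v = v then 1 else 0) = _
    simp [B.dfc, B.fd]
  | graft a c iha ihc =>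
    obtain ⟨ma, ha1, ha2, ha3, ha4⟩ := iha
    obtain ⟨mc, hc1, hc2, hc3, hc4⟩ := ihc
    by_cases hac : a.fd.1 = true ∧ c.fd.1 = true
    · obtain ⟨hfa, hfc⟩ := hac
      have hra := ha3.mp hfa
      have hrc := hc3.mp hfc
      let m : a.V ⊕ c.V → a.V ⊕ c.V := Sum.elim
        (fun u => if u = a.root then Sum.inr c.root else Sum.inl (ma u))
        (fun v => if v = c.root then Sum.inl a.root else Sum.inr (mc v))
      have hma : ∀ u, u ≠ a.root → ma u ≠ a.root := by
        intro u hu h
        apply hu
        rw [← ha1 u, h, hra]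
      have hmc : ∀ u, u ≠ c.root → mc u ≠ c.root := by
        intro u hu h
        apply hu
        rw [← hc1 u, h, hrc]
      have hmm : ∀ x : a.V ⊕ c.V, m (m x) = x := by
        rintro (u | v)
        · by_cases hu : u = a.root
          · simp [m, hu]
          · simp [m, hu, hma u hu, ha1]
        · by_cases hv : v = c.root
          · simp [m, hv]
          · simp [m, hv, hmc v hv, hc1]
      refine ⟨m, hmm, ?_, ?_, ?_⟩
      · rintro (u | v) h
        · by_cases hu : u = a.root
          · have : m (Sum.inl u) = Sum.inr c.root := by simp [m, hu]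
            rw [this]
            exact ⟨hu, rfl⟩
          · have h1 : m (Sum.inl u) = Sum.inl (ma u) := by simp [m, hu]
            rw [h1] at h ⊢
            exact ha2 u fun h2 => h (by rw [h2])
        · by_cases hv : v = c.root
          · have : m (Sum.inr v) = Sum.inl a.root := by simp [m, hv]
            rw [this]
            exact ⟨rfl, hv⟩
          · have h1 : m (Sum.inr v) = Sum.inr (mc v) := by simp [m, hv]
            rw [h1] at h ⊢
            exact hc2 v fun h2 => h (by rw [h2])
      · have h1 : m (Sum.inl a.root) = Sum.inr c.root := by simp [m]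
        have h2 : (B.graft a c).fd.1 = false := by simp [B.fd, hfa, hfc]
        rw [h2]
        simp only [Bool.false_eq_true, false_iff]
        change ¬ (m (Sum.inl a.root) = Sum.inl a.root)
        rw [h1]; exact Sum.inr_ne_inl
      · have h1 : ∑ u : a.V, (if m (Sum.inl u) = Sum.inl u then 1 else 0) + 1
            = ∑ u : a.V, (if ma u = u then 1 else 0) := by
          rw [← Finset.add_sum_erase _ _ (Finset.mem_univ a.root),
            ← Finset.add_sum_erase Finset.univ (fun u => if ma u = u then 1 else 0)
              (Finset.mem_univ a.root)]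
          have h2 : ∀ u ∈ Finset.univ.erase a.root,
              (if m (Sum.inl u) = Sum.inl u then 1 else 0) = (if ma u = u then 1 else 0) := by
            intro u hu
            have hu' := Finset.ne_of_mem_erase hu
            simp [m, hu']
          rw [Finset.sum_congr rfl h2]
          simp [m, hra, add_comm]
        have h1' : ∑ u : c.V, (if m (Sum.inr u) = Sum.inr u then 1 else 0) + 1
            = ∑ u : c.V, (if mc u = u then 1 else 0) := by
          rw [← Finset.add_sum_erase _ _ (Finset.mem_univ c.root),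
            ← Finset.add_sum_erase Finset.univ (fun u => if mc u = u then 1 else 0)
              (Finset.mem_univ c.root)]
          have h2 : ∀ u ∈ Finset.univ.erase c.root,
              (if m (Sum.inr u) = Sum.inr u then 1 else 0) = (if mc u = u then 1 else 0) := by
            intro u hu
            have hu' := Finset.ne_of_mem_erase hu
            simp [m, hu']
          rw [Finset.sum_congr rfl h2]
          simp [m, hrc, add_comm]
        have h3 : ∑ v : a.V ⊕ c.V, (if m v = v then 1 else 0)
            = ∑ u : a.V, (if m (Sum.inl u) = Sum.inl u then 1 else 0)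
              + ∑ u : c.V, (if m (Sum.inr u) = Sum.inr u then 1 else 0) :=
          Fintype.sum_sum_type _
        have h4 : (B.graft a c).dfc + 2 = a.dfc + c.dfc := by
          simp only [B.dfc, B.fd, hfa, hfc]
          simp
          ring
        change ∑ v : a.V ⊕ c.V, (if m v = v then 1 else 0) = _
        omega
    · refine ⟨Sum.map ma mc, ?_, ?_, ?_, ?_⟩
      · rintro (u | v)
        · exact congrArg Sum.inl (ha1 u)
        · exact congrArg Sum.inr (hc1 v)
      · rintro (u | v) h
        · exact ha2 u fun h2 => h (congrArg Sum.inl h2)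
        · exact hc2 v fun h2 => h (congrArg Sum.inr h2)
      · have h1 : (B.graft a c).fd.1 = a.fd.1 := by
          rcases hfa : a.fd.1 with _ | _ <;> rcases hfc : c.fd.1 with _ | _ <;>
            simp_all [B.fd]
        rw [h1, ha3]
        constructor
        · intro h; exact congrArg Sum.inl h
        · intro h; exact Sum.inl_injective h
      · have h3 : ∑ v : a.V ⊕ c.V, (if Sum.map ma mc v = v then 1 else 0)
            = ∑ u : a.V, (if ma u = u then 1 else 0)
              + ∑ u : c.V, (if mc u = u then 1 else 0) := by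
          rw [Fintype.sum_sum_type]
          simp [Sum.map_inl, Sum.map_inr]
        have h4 : (B.graft a c).dfc = a.dfc + c.dfc := by
          rcases hfa : a.fd.1 with _ | _ <;> rcases hfc : c.fd.1 with _ | _ <;>
            simp_all [B.fd, B.dfc] <;> ring
        change ∑ v : a.V ⊕ c.V, (if Sum.map ma mc v = v then 1 else 0) = _
        omega

theorem inertia_card : ∀ b : B, Fintype.card b.V = b.size := by
  intro b
  induction b with
  | one => rfl
  | graft a c iha ihc =>
    change Fintype.card (a.V ⊕ c.V) = a.size + c.size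
    rw [Fintype.card_sum, iha, ihc]

theorem inertia (b : B) :
    b.size ≤ 2 * ((lapSpec b.graph).filter (fun μ => 2 ≤ μ)).card + b.dfc := by
  obtain ⟨m, h1, h2, -, h4⟩ := inertia_mate b
  have h := @inertia_graph b.V _ (Classical.decEq _) b.graph (Classical.decRel _) m h1 h2
  rw [inertia_card b] at h
  refine h.trans (Nat.add_le_add ?_ (le_of_eq ?_))
  · refine Nat.mul_le_mul_left 2 (le_of_eq ?_)
    unfold lapSpec
    rfl
  · rw [← h4]
    refine Finset.sum_congr rfl fun v _ => ?_
    split_ifs <;> rfl

end Pool.Agent.H59
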