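import Mathlib
import Pool.Agent.H59.Defs

set_option autoImplicit false

open SimpleGraph

namespace Pool.Agent.H59

namespace PathAux

open Real

/-! ### trigonometric sums -/

theorem sum_cos (θ : ℝ) (N : ℕ) :
    (∑ k ∈ Finset.range N, 2 * cos (k * θ)) * sin (θ / 2)
      = sin ((N - 1 / 2) * θ) + sin (θ / 2) := by
  induction N with
  | zero =>
    have : (((0:ℕ) : ℝ) - 1 / 2) * θ = - (θ / 2) := by push_cast; ring
    rw [this, sin_neg]; simp
  | succ N ih =>
    rw [Finset.sum_range_succ, add_mul, ih]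
    have e1 : ((N + 1 : ℕ) - 1 / 2 : ℝ) * θ = N * θ + θ / 2 := by push_cast; ring
    have e2 : ((N : ℝ) - 1 / 2) * θ = N * θ - θ / 2 := by ring
    rw [e1, e2, sin_add, sin_sub]
    ring

/-- the number of nonnegative terms -/
def MM (n : ℕ) : ℕ := (n + 1) / 2

theorem cos_ge (n k : ℕ) (hk : k < MM n) : 1 / (n : ℝ) ≤ cos (π * k / n) := by
  have h1 : 2 * k + 1 ≤ n := by unfold MM at hk; omega
  have hn : 0 < n := by omega
  have hnr : (0 : ℝ) < n := by exact_mod_cast hn
  have hn1 : (1 : ℝ) ≤ n := by exact_mod_cast hn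
  have h1r : 2 * (k : ℝ) + 1 ≤ n := by exact_mod_cast h1
  have h2 : π * k / n ≤ π / 2 - π / (2 * n) := by
    have : π / 2 - π / (2 * n) - π * k / n = π * (n - (2 * k + 1)) / (2 * n) := by
      field_simp; ring
    have h3 : 0 ≤ π * (n - (2 * k + 1)) / (2 * n) := by
      apply div_nonneg _ (by positivity)
      apply mul_nonneg pi_pos.le; linarith
    linarith
  have h3 : π / (2 * n) ≤ π / 2 := by
    apply div_le_div_of_nonneg_left pi_pos.le (by norm_num)
    linarith
  have h4 : cos (π / 2 - π / (2 * n)) ≤ cos (π * k / n) := by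
    apply cos_le_cos_of_nonneg_of_le_pi
    · positivity
    · have : 0 < π / (2 * n) := by positivity
      linarith [pi_pos]
    · exact h2
  rw [cos_pi_div_two_sub] at h4
  have h5 := mul_le_sin (x := π / (2 * n)) (by positivity) h3
  have h6 : 2 / π * (π / (2 * n)) = 1 / (n : ℝ) := by
    field_simp
  linarith

theorem cos_le (n k : ℕ) (hk : MM n ≤ k) (hkn : k < n) : cos (π * k / n) ≤ 0 := by
  have h1 : n ≤ 2 * k := by unfold MM at hk; omega
  have hn : 0 < n := by omega
  have hnr : (0 : ℝ) < n := by exact_mod_cast hn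
  have h1r : (n : ℝ) ≤ 2 * k := by exact_mod_cast h1
  have h2r : (k : ℝ) ≤ n := by exact_mod_cast hkn.le
  apply cos_nonpos_of_pi_div_two_le_of_le
  · rw [div_le_div_iff₀ (by norm_num) hnr]
    nlinarith [pi_pos]
  · have : π * k / n ≤ π := by
      rw [div_le_iff₀ hnr]
      nlinarith [pi_pos]
    linarith [pi_pos]

theorem MM_le (n : ℕ) (hn : 1 ≤ n) : MM n ≤ n := by unfold MM; omega

/-- sum of absolute values -/
theorem sum_abs (n : ℕ) (hn : 1 ≤ n) :
    ∑ k ∈ Finset.range n, |2 * cos (π * k / n) - 2 / n|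
      = 2 * (∑ k ∈ Finset.range (MM n), 2 * cos (k * (π / n)))
        - (∑ k ∈ Finset.range n, 2 * cos (k * (π / n))) - (2 / n) * ((n % 2 : ℕ) : ℝ) := by
  have hM := MM_le n hn
  have e : ∀ k : ℕ, π * (k : ℝ) / n = k * (π / n) := fun k => by ring
  have h1 : ∀ f : ℕ → ℝ, ∑ k ∈ Finset.range n, f k
      = ∑ k ∈ Finset.range (MM n), f k + ∑ k ∈ Finset.Ico (MM n) n, f k := by
    intro f
    rw [Finset.sum_range_add_sum_Ico _ hM]
  rw [h1, h1 (fun k => 2 * cos (k * (π / n)))]
  have h2 : ∑ k ∈ Finset.range (MM n), |2 * cos (π * k / n) - 2 / n|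
      = ∑ k ∈ Finset.range (MM n), 2 * cos (k * (π / n)) - MM n * (2 / n) := by
    have h5 : ∀ k ∈ Finset.range (MM n), |2 * cos (π * k / n) - 2 / n|
        = 2 * cos (k * (π / n)) - 2 / n := by
      intro k hk
      have := cos_ge n k (Finset.mem_range.1 hk)
      rw [e] at this ⊢
      apply abs_of_nonneg
      have h4 : (2 : ℝ) / n = 2 * (1 / n) := by ring
      rw [h4]; linarith
    rw [Finset.sum_congr rfl h5, Finset.sum_sub_distrib, Finset.sum_const,
      Finset.card_range, nsmul_eq_mul]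
  have h3 : ∑ k ∈ Finset.Ico (MM n) n, |2 * cos (π * k / n) - 2 / n|
      = (n - MM n) * (2 / n) - ∑ k ∈ Finset.Ico (MM n) n, 2 * cos (k * (π / n)) := by
    have h5 : ∀ k ∈ Finset.Ico (MM n) n, |2 * cos (π * k / n) - 2 / n|
        = 2 / n - 2 * cos (k * (π / n)) := by
      intro k hk
      obtain ⟨hk1, hk2⟩ := Finset.mem_Ico.1 hk
      have := cos_le n k hk1 hk2
      rw [e] at this ⊢
      rw [abs_of_nonpos]
      · ring
      · have h4 : (0 : ℝ) ≤ 2 / n := by positivity
        linarith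
    rw [Finset.sum_congr rfl h5, Finset.sum_sub_distrib, Finset.sum_const,
      Nat.card_Ico, nsmul_eq_mul, Nat.cast_sub hM]
  rw [h2, h3]
  have h6 : (2 * MM n : ℕ) = n + n % 2 := by unfold MM; omega
  have h7 : 2 * (MM n : ℝ) = n + ((n % 2 : ℕ) : ℝ) := by exact_mod_cast h6
  linear_combination (-(2 / (n:ℝ))) * h7

/-- sum of absolute values -/
theorem sum_abs0 (n : ℕ) (hn : 1 ≤ n) :
    ∑ k ∈ Finset.range n, |2 * cos (π * k / n)|
      = 2 * (∑ k ∈ Finset.range (MM n), 2 * cos (k * (π / n)))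
        - (∑ k ∈ Finset.range n, 2 * cos (k * (π / n))) := by
  have hM := MM_le n hn
  have e : ∀ k : ℕ, π * (k : ℝ) / n = k * (π / n) := fun k => by ring
  have h1 : ∀ f : ℕ → ℝ, ∑ k ∈ Finset.range n, f k
      = ∑ k ∈ Finset.range (MM n), f k + ∑ k ∈ Finset.Ico (MM n) n, f k := by
    intro f
    rw [Finset.sum_range_add_sum_Ico _ hM]
  rw [h1, h1 (fun k => 2 * cos (k * (π / n)))]
  have h2 : ∑ k ∈ Finset.range (MM n), |2 * cos (π * k / n)|
      = ∑ k ∈ Finset.range (MM n), 2 * cos (k * (π / n)) := by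
    rw [Finset.sum_congr rfl (fun k hk => ?_)]
    have := cos_ge n k (Finset.mem_range.1 hk)
    rw [e] at this ⊢
    apply abs_of_nonneg
    have h4 : (0 : ℝ) ≤ 1 / n := by positivity
    linarith
  have h3 : ∑ k ∈ Finset.Ico (MM n) n, |2 * cos (π * k / n)|
      = - ∑ k ∈ Finset.Ico (MM n) n, 2 * cos (k * (π / n)) := by
    rw [← Finset.sum_neg_distrib]
    apply Finset.sum_congr rfl
    intro k hk
    obtain ⟨hk1, hk2⟩ := Finset.mem_Ico.1 hk
    have := cos_le n k hk1 hk2
    rw [e] at this ⊢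
    rw [abs_of_nonpos]
    linarith
  rw [h2, h3]
  ring

theorem sin_pos' (n : ℕ) (hn : 1 ≤ n) : 0 < sin (π / n / 2) := by
  have hnr : (1 : ℝ) ≤ n := by exact_mod_cast hn
  apply sin_pos_of_pos_of_lt_pi
  · positivity
  · have : π / n ≤ π := div_le_self pi_pos.le hnr
    have h2 : 0 < π / n := by positivity
    linarith

theorem total (n : ℕ) (hn : 1 ≤ n) : ∑ k ∈ Finset.range n, 2 * cos (k * (π / n)) = 2 := by
  have hs := sin_pos' n hn
  have hnr : (0 : ℝ) < n := by exact_mod_cast hn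
  have h := sum_cos (π / n) n
  have e : ((n : ℝ) - 1 / 2) * (π / n) = π - π / n / 2 := by
    field_simp
  rw [e, sin_pi_sub] at h
  apply mul_right_cancel₀ hs.ne'
  rw [h]; ring

theorem half_even (m : ℕ) (hm : 1 ≤ m) :
    (∑ k ∈ Finset.range m, 2 * cos (k * (π / (2 * m : ℕ)))) * sin (π / (2 * m : ℕ) / 2)
      = cos (π / (2 * m : ℕ) / 2) + sin (π / (2 * m : ℕ) / 2) := by
  rw [sum_cos]
  have hmr : (0 : ℝ) < m := by exact_mod_cast hm
  have e : ((m : ℝ) - 1 / 2) * (π / (2 * m : ℕ)) = π / 2 - π / (2 * m : ℕ) / 2 := by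
    push_cast
    field_simp
  rw [e, sin_pi_div_two_sub]

theorem half_odd (m : ℕ) :
    (∑ k ∈ Finset.range (m + 1), 2 * cos (k * (π / (2 * m + 1 : ℕ))))
        * sin (π / (2 * m + 1 : ℕ) / 2)
      = 1 + sin (π / (2 * m + 1 : ℕ) / 2) := by
  rw [sum_cos]
  have e : (((m + 1 : ℕ) : ℝ) - 1 / 2) * (π / (2 * m + 1 : ℕ)) = π / 2 := by
    push_cast
    field_simp
    ring
  rw [e, sin_pi_div_two]

/-- cot bound -/
theorem cot_bound (x : ℝ) (hx : 0 < x) (hx1 : x ≤ 1) :
    3 * x * cos x ≤ (3 - x ^ 2) * sin x := by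
  have h1 := sin_gt_sub_cube hx
  have h2 : cos x ≤ 1 - x ^ 2 / 2 + x ^ 4 / 24 := by
    have h3 := sin_gt_sub_cube (x := x / 2) (by positivity)
    have h4 : cos x = 1 - 2 * sin (x / 2) ^ 2 := by
      have := cos_two_mul (x / 2)
      rw [show 2 * (x / 2) = x by ring] at this
      rw [this, cos_sq']; ring
    have h5 : 0 ≤ x / 2 - (x / 2) ^ 3 / 6 := by
      have : x ^ 3 ≤ x := by
        calc x ^ 3 = x * x ^ 2 := by ring
          _ ≤ x * 1 := by
            apply mul_le_mul_of_nonneg_left _ hx.le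
            nlinarith
          _ = x := by ring
      nlinarith
    have h6 : (x / 2 - (x / 2) ^ 3 / 6) ^ 2 ≤ sin (x / 2) ^ 2 :=
      pow_le_pow_left₀ h5 h3.le 2
    have h7 : (x / 2 - (x / 2) ^ 3 / 6) ^ 2 = x ^ 2 / 4 - x ^ 4 / 48 + (x / 2) ^ 6 / 36 := by ring
    have h8 : 0 ≤ (x / 2) ^ 6 / 36 := by positivity
    nlinarith
  have h3 : 0 < 3 - x ^ 2 := by nlinarith
  calc 3 * x * cos x ≤ 3 * x * (1 - x ^ 2 / 2 + x ^ 4 / 24) := by
        apply mul_le_mul_of_nonneg_left h2 (by positivity)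
    _ ≤ (3 - x ^ 2) * (x - x ^ 3 / 6) := by
        have : (3 - x ^ 2) * (x - x ^ 3 / 6) - 3 * x * (1 - x ^ 2 / 2 + x ^ 4 / 24)
          = x ^ 5 / 24 := by ring
        have h4 : 0 ≤ x ^ 5 / 24 := by positivity
        linarith
    _ ≤ (3 - x ^ 2) * sin x := by
        apply mul_le_mul_of_nonneg_left h1.le h3.le

/-! ### The spectrum of the path -/

/-- eigenvector -/
noncomputable def ev (n k : ℕ) (j : ℕ) : ℝ := cos (π * k * (2 * j + 1) / (2 * n))

theorem ev_eq (n k j : ℕ) (hn : 1 ≤ n) (hj : j < n) :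
    (if j + 1 < n then ev n k j - ev n k (j + 1) else 0)
      + (if 1 ≤ j then ev n k j - ev n k (j - 1) else 0)
      = (2 - 2 * cos (π * k / n)) * ev n k j := by
  have hnr : (0 : ℝ) < n := by exact_mod_cast hn
  have h1 : (if j + 1 < n then ev n k j - ev n k (j + 1) else 0)
      = ev n k j - cos (π * k * (2 * j + 1) / (2 * n) + π * k / n) := by
    split_ifs with h
    · unfold ev
      congr 2
      push_cast
      field_simp
      ring
    · have hjn : j + 1 = n := by omega
      have hjr : (j : ℝ) = n - 1 := by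
        have : (j : ℝ) + 1 = n := by exact_mod_cast hjn
        linarith
      unfold ev
      rw [hjr]
      have e1 : π * k * (2 * ((n : ℝ) - 1) + 1) / (2 * n) = k * π - π * k / (2 * n) := by
        field_simp
        ring
      have e2 : k * π - π * k / (2 * n) + π * k / n = k * π + π * k / (2 * n) := by
        field_simp
        ring
      rw [e1, e2, cos_sub, cos_add, sin_nat_mul_pi]
      ring
  have h2 : (if 1 ≤ j then ev n k j - ev n k (j - 1) else 0)
      = ev n k j - cos (π * k * (2 * j + 1) / (2 * n) - π * k / n) := by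
    split_ifs with h
    · unfold ev
      congr 2
      rw [Nat.cast_sub h]
      push_cast
      field_simp
      ring
    · have hj0 : j = 0 := by omega
      subst hj0
      unfold ev
      have e2 : π * k * (2 * ((0 : ℕ) : ℝ) + 1) / (2 * n) - π * k / n
          = - (π * k * (2 * ((0 : ℕ) : ℝ) + 1) / (2 * n)) := by
        push_cast
        field_simp
        ring
      rw [e2, cos_neg, sub_self]
  rw [h1, h2, cos_add, cos_sub]
  unfold ev
  ring

theorem ev_zero (n k : ℕ) (hk : k < n) : 0 < ev n k 0 := by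
  have hn : 0 < n := by omega
  have hnr : (0 : ℝ) < n := by exact_mod_cast hn
  have hkr : (k : ℝ) < n := by exact_mod_cast hk
  unfold ev
  have e : π * k * (2 * ((0 : ℕ) : ℝ) + 1) / (2 * n) = π / 2 * (k / n) := by
    push_cast; field_simp; ring
  rw [e]
  have h1 : (k : ℝ) / n < 1 := by rw [div_lt_one hnr]; exact hkr
  have h2 : 0 ≤ (k : ℝ) / n := by positivity
  apply cos_pos_of_mem_Ioo
  constructor
  · have : 0 ≤ π / 2 * (k / n) := by positivity
    linarith [pi_pos]
  · nlinarith [pi_pos]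

theorem lap_ev (n k : ℕ) (i1 : DecidableEq (Fin n)) (i2 : DecidableRel (pathGraph n).Adj)
    (j : Fin n) :
    ((@SimpleGraph.lapMatrix (Fin n) ℝ _ (pathGraph n) i2 i1 _).mulVec (fun i => ev n k i)) j
      = (2 - 2 * cos (π * k / n)) * ev n k j := by
  have hn : 1 ≤ n := by have := j.2; omega
  rw [lapMatrix_mulVec_apply, ← ev_eq n k j hn j.2]
  have h1 : ((pathGraph n).degree j : ℝ) * ev n k j
      = ∑ u ∈ (pathGraph n).neighborFinset j, ev n k j := by
    rw [Finset.sum_const, nsmul_eq_mul, card_neighborFinset_eq_degree]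
  rw [h1, ← Finset.sum_sub_distrib]
  have h2 : ∑ u ∈ (pathGraph n).neighborFinset j, (ev n k j - ev n k u)
      = ∑ u : Fin n, ((if (u : ℕ) = j + 1 then ev n k j - ev n k u else 0)
        + (if (u : ℕ) + 1 = j then ev n k j - ev n k u else 0)) := by
    have h3 : (pathGraph n).neighborFinset j = Finset.univ.filter (fun u : Fin n =>
        (u : ℕ) = j + 1 ∨ (u : ℕ) + 1 = j) := by
      ext u
      rw [mem_neighborFinset, pathGraph_adj, Finset.mem_filter]
      constructor
      · rintro (h | h)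
        · exact ⟨Finset.mem_univ _, Or.inl h.symm⟩
        · exact ⟨Finset.mem_univ _, Or.inr h⟩
      · rintro ⟨_, h | h⟩
        · exact Or.inl h.symm
        · exact Or.inr h
    rw [h3, Finset.sum_filter]
    apply Finset.sum_congr rfl
    intro u _
    by_cases ha : (u : ℕ) = j + 1
    · have hb : ¬ ((u : ℕ) + 1 = j) := by omega
      rw [if_pos (Or.inl ha), if_pos ha, if_neg hb, add_zero]
    · by_cases hb : (u : ℕ) + 1 = j
      · simp [ha, hb]
      · simp [ha, hb]
  rw [h2, Finset.sum_add_distrib]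
  congr 1
  · have := Fin.sum_univ_eq_sum_range (fun u : ℕ =>
      if u = j + 1 then ev n k j - ev n k u else 0) n
    rw [this]
    rw [Finset.sum_ite_eq' (Finset.range n) ((j : ℕ) + 1) (fun u => ev n k j - ev n k u)]
    simp only [Finset.mem_range]
  · have := Fin.sum_univ_eq_sum_range (fun u : ℕ =>
      if u + 1 = j then ev n k j - ev n k u else 0) n
    rw [this]
    by_cases hj : 1 ≤ (j : ℕ)
    · rw [if_pos hj, Finset.sum_eq_single ((j : ℕ) - 1)]
      · rw [if_pos (by omega)]
      · intro b _ hb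
        rw [if_neg (by omega)]
      · intro hb
        exfalso; apply hb
        rw [Finset.mem_range]
        have := j.2; omega
    · rw [if_neg hj]
      apply Finset.sum_eq_zero
      intro b _
      rw [if_neg (by omega)]

theorem spec_gen (n : ℕ) (hn : 1 ≤ n) (i1 : DecidableEq (Fin n))
    (i2 : DecidableRel (pathGraph n).Adj) :
    (@SimpleGraph.lapMatrix (Fin n) ℝ _ (pathGraph n) i2 i1 _).charpoly.roots
      = (Multiset.range n).map (fun k : ℕ => 2 - 2 * cos (π * k / n)) := by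
  have hnr : (0 : ℝ) < n := by exact_mod_cast hn
  set A := @SimpleGraph.lapMatrix (Fin n) ℝ _ (pathGraph n) i2 i1 _ with hA
  symm
  have hinj : ∀ x ∈ Multiset.range n, ∀ y ∈ Multiset.range n,
      2 - 2 * cos (π * x / n) = 2 - 2 * cos (π * y / n) → x = y := by
    intro x hx y hy h
    rw [Multiset.mem_range] at hx hy
    have hxr : (x : ℝ) < n := by exact_mod_cast hx
    have hyr : (y : ℝ) < n := by exact_mod_cast hy
    have h1 : cos (π * x / n) = cos (π * y / n) := by linarith
    have h2 := injOn_cos (x₁ := π * x / n) (x₂ := π * y / n) (by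
      constructor
      · positivity
      · rw [div_le_iff₀ hnr]; nlinarith [pi_pos]) (by
      constructor
      · positivity
      · rw [div_le_iff₀ hnr]; nlinarith [pi_pos]) h1
    have h3 : (x : ℝ) = y := by
      field_simp at h2
      exact h2
    exact_mod_cast h3
  have hnd : ((Multiset.range n).map (fun k : ℕ => 2 - 2 * cos (π * k / n))).Nodup :=
    Multiset.Nodup.map_on hinj (Multiset.nodup_range n)
  apply Multiset.eq_of_le_of_card_le
  · rw [Multiset.le_iff_subset hnd]
    intro μ hμ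
    rw [Multiset.mem_map] at hμ
    obtain ⟨k, hk, rfl⟩ := hμ
    rw [Multiset.mem_range] at hk
    rw [Polynomial.mem_roots (A.charpoly_monic.ne_zero), Polynomial.IsRoot.def,
      Matrix.eval_charpoly]
    rw [← Matrix.exists_mulVec_eq_zero_iff]
    refine ⟨fun i => ev n k i, ?_, ?_⟩
    · intro h
      have := congrFun h ⟨0, by omega⟩
      have h2 := ev_zero n k hk
      simp only [Pi.zero_apply] at this
      linarith
    · ext j
      rw [Matrix.sub_mulVec, Pi.sub_apply, hA, lap_ev n k i1 i2 j]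
      simp [Matrix.scalar_apply, Matrix.mulVec_diagonal]
  · rw [Multiset.card_map, Multiset.card_range]
    have := Polynomial.card_roots' A.charpoly
    rw [Matrix.charpoly_natDegree_eq_dim, Fintype.card_fin] at this
    exact this

end PathAux

/-! ### Module Path -/

theorem path_spec (n : ℕ) (hn : 1 ≤ n) :
    lapSpec (SimpleGraph.pathGraph n) =
      (Multiset.range n).map (fun k => 2 - 2 * Real.cos (Real.pi * k / n)) := by
  unfold lapSpec
  have h : (do let a ← Multiset.range n; pure (a : ℝ))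
      = (Multiset.range n).map (fun k : ℕ => (k : ℝ)) := by
    simp only [Multiset.bind_def, Multiset.pure_def, Multiset.bind_singleton]
  rw [h, Multiset.map_map]
  exact PathAux.spec_gen n hn _ _

theorem path_spec' (n : ℕ) (hn : 1 ≤ n) :
    lapSpec (SimpleGraph.pathGraph n) =
      (Multiset.range n).map (fun k : ℕ => 2 - 2 * Real.cos (Real.pi * k / n)) := by
  unfold lapSpec
  exact PathAux.spec_gen n hn _ _

theorem path_sum (n : ℕ) (hn : 1 ≤ n) :
    ((lapSpec (SimpleGraph.pathGraph n)).map (fun μ => |μ - (2 - 2 / (n : ℝ))|)).sum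
      = 2 * (∑ k ∈ Finset.range (PathAux.MM n), 2 * Real.cos (k * (Real.pi / n)))
        - 2 - (2 / n) * ((n % 2 : ℕ) : ℝ) := by
  rw [path_spec' n hn, Multiset.map_map]
  have h := PathAux.sum_abs n hn
  rw [PathAux.total n hn] at h
  rw [← h]
  change _ = (Multiset.map _ (Multiset.range n)).sum
  congr 1
  apply Multiset.map_congr rfl
  intro k _
  simp only [Function.comp]
  rw [← abs_neg]
  congr 1
  ring

theorem path_sum0 (n : ℕ) (hn : 1 ≤ n) :
    ((lapSpec (SimpleGraph.pathGraph n)).map (fun μ => |μ - 2|)).sum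
      = 2 * (∑ k ∈ Finset.range (PathAux.MM n), 2 * Real.cos (k * (Real.pi / n)))
        - 2 := by
  rw [path_spec' n hn, Multiset.map_map]
  have h := PathAux.sum_abs0 n hn
  rw [PathAux.total n hn] at h
  rw [← h]
  change _ = (Multiset.map _ (Multiset.range n)).sum
  congr 1
  apply Multiset.map_congr rfl
  intro k _
  simp only [Function.comp]
  rw [← abs_neg]
  congr 1
  ring

theorem path_energy_even (n : ℕ) (hn : 2 ≤ n) (he : Even n) :
    ((lapSpec (SimpleGraph.pathGraph n)).map (fun μ => |μ - (2 - 2 / (n : ℝ))|)).sum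
      ≤ 4 * (n : ℝ) / Real.pi - (1047 / 2000) * (2 / n) := by
  rw [path_sum n (by omega)]
  obtain ⟨m, rfl⟩ := he
  have hmm : m + m = 2 * m := by ring
  rw [hmm]
  have hm : 1 ≤ m := by omega
  have hM : PathAux.MM (2 * m) = m := by unfold PathAux.MM; omega
  have hmod : (2 * m) % 2 = 0 := by omega
  rw [hM, hmod]
  have h := PathAux.half_even m hm
  have hs := PathAux.sin_pos' (2 * m) (by omega)
  set S := ∑ k ∈ Finset.range m, 2 * Real.cos (k * (Real.pi / (2 * m : ℕ)))
  set x := Real.pi / (2 * m : ℕ) / 2 with hx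
  have hmr : (1 : ℝ) ≤ m := by exact_mod_cast hm
  have hm0 : (0 : ℝ) < m := by linarith
  have hx0 : 0 < x := by rw [hx]; positivity
  have hx2 : x * (4 * m) = Real.pi := by
    rw [hx]; push_cast; field_simp; norm_num
  have hx1 : x ≤ 1 := by
    nlinarith [Real.pi_le_four]
  have hc := PathAux.cot_bound x hx0 hx1
  have hcot : Real.cos x / Real.sin x ≤ 1 / x - x / 3 := by
    rw [div_le_iff₀ hs]
    have : (1 / x - x / 3) * Real.sin x = ((3 - x ^ 2) * Real.sin x) / (3 * x) := by
      field_simp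
    rw [this, le_div_iff₀ (by positivity)]
    linarith
  have hS : S = Real.cos x / Real.sin x + 1 := by
    field_simp
    linarith
  have e1 : 4 * ((2 * m : ℕ) : ℝ) / Real.pi = 2 / x := by
    rw [← hx2]; push_cast; field_simp
  have e2 : 2 / ((2 * m : ℕ) : ℝ) = 4 * x / Real.pi := by
    rw [← hx2]; push_cast; field_simp
  rw [e1, e2, hS]
  have hpi : 1047 / 2000 * (4 * x / Real.pi) ≤ 2 * x / 3 := by
    have h3 := Real.pi_gt_d4
    have hpos := Real.pi_pos
    rw [show 1047 / 2000 * (4 * x / Real.pi) = (1047 / 500 * x) / Real.pi by ring,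
      div_le_iff₀ hpos]
    nlinarith
  have e3 : 2 / x = 2 * (1 / x) := by ring
  rw [e3]
  push_cast
  linarith

theorem path_energy_odd (n : ℕ) (hn : 17 ≤ n) (ho : Odd n) :
    ((lapSpec (SimpleGraph.pathGraph n)).map (fun μ => |μ - (2 - 2 / (n : ℝ))|)).sum
      ≤ 4 * (n : ℝ) / Real.pi - (737 / 1000) * (2 / n) := by
  rw [path_sum n (by omega)]
  obtain ⟨m, rfl⟩ := ho
  have hm : 8 ≤ m := by omega
  have hM : PathAux.MM (2 * m + 1) = m + 1 := by unfold PathAux.MM; omega
  have hmod : (2 * m + 1) % 2 = 1 := by omega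
  rw [hM, hmod]
  have h := PathAux.half_odd m
  have hs := PathAux.sin_pos' (2 * m + 1) (by omega)
  set S := ∑ k ∈ Finset.range (m + 1), 2 * Real.cos (k * (Real.pi / (2 * m + 1 : ℕ)))
  set x := Real.pi / (2 * m + 1 : ℕ) / 2 with hx
  have hmr : (8 : ℝ) ≤ m := by exact_mod_cast hm
  have hm0 : (0 : ℝ) < m := by linarith
  have hx0 : 0 < x := by rw [hx]; positivity
  have hx2 : x * (2 * (2 * m + 1)) = Real.pi := by
    rw [hx]; push_cast; field_simp
  have hp1 := Real.pi_gt_d4
  have hp2 := Real.pi_lt_d4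
  have hx1 : x * 34 ≤ Real.pi := by nlinarith
  have hx3 : x ≤ 0.093 := by linarith
  have hsin := Real.sin_gt_sub_cube hx0
  have hS : S = 1 / Real.sin x + 1 := by
    field_simp
    linarith
  have hfac : x - x ^ 3 / 6 = x * (1 - x ^ 2 / 6) := by ring
  have hxx : x ^ 2 ≤ 0.00865 := by nlinarith
  have hpos2 : 0 < x * (1 - x ^ 2 / 6) := by
    apply mul_pos hx0; linarith
  have hinv : 1 / Real.sin x ≤ 1 / x + 526 / 1000 * (x / Real.pi) := by
    have h1 : 1 / Real.sin x ≤ 1 / (x * (1 - x ^ 2 / 6)) := by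
      apply one_div_le_one_div_of_le hpos2
      rw [← hfac]; exact hsin.le
    refine h1.trans ?_
    rw [div_le_iff₀ hpos2]
    have e1 : (1 / x + 526 / 1000 * (x / Real.pi)) * (x * (1 - x ^ 2 / 6))
        = (1 - x ^ 2 / 6) + 526 / 1000 * (x ^ 2 * (1 - x ^ 2 / 6)) / Real.pi := by
      field_simp
    rw [e1]
    have e2 : x ^ 2 / 6 ≤ 526 / 1000 * (x ^ 2 * (1 - x ^ 2 / 6)) / Real.pi := by
      rw [le_div_iff₀ Real.pi_pos]
      have h5 : Real.pi / 6 ≤ 526 / 1000 * (1 - x ^ 2 / 6) := by linarith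
      have h6 : 0 ≤ x ^ 2 := by positivity
      nlinarith
    linarith
  have e1 : 4 * ((2 * m + 1 : ℕ) : ℝ) / Real.pi = 2 / x := by
    rw [← hx2]; push_cast; field_simp
    ring
  have e2 : 2 / ((2 * m + 1 : ℕ) : ℝ) = 4 * (x / Real.pi) := by
    rw [← hx2]; push_cast; field_simp
    ring
  rw [e1, e2, hS]
  have e3 : 2 / x = 2 * (1 / x) := by ring
  rw [e3]
  push_cast
  linarith

theorem path_energy_rel (n : ℕ) (hn : 1 ≤ n) :
    ((lapSpec (SimpleGraph.pathGraph n)).map (fun μ => |μ - (2 - 2 / (n : ℝ))|)).sum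
      = ((lapSpec (SimpleGraph.pathGraph n)).map (fun μ => |μ - 2|)).sum
        - (2 / (n : ℝ)) * ((n % 2 : ℕ) : ℝ) := by
  rw [path_sum n hn, path_sum0 n hn]

end Pool.Agent.H59
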