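import Mathlib
import Pool.Agent.H59.Defs

set_option autoImplicit false

open SimpleGraph

namespace Pool.Agent.H59

theorem lapSpec_eq {V : Type} [Fintype V] [DecidableEq V] (G : SimpleGraph V) [DecidableRel G.Adj] :
    (G.lapMatrix ℝ).charpoly.roots = lapSpec G := by
  rename_i _ inst1 inst2
  have h1 : inst1 = Classical.decEq V := Subsingleton.elim _ _
  subst h1
  have h2 : inst2 = Classical.decRel _ := Subsingleton.elim _ _
  subst h2
  rfl

/-- Reindexing the Laplacian along a graph isomorphism. -/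
theorem iso_lapMatrix {V W : Type} [Fintype V] [Fintype W] [DecidableEq V] [DecidableEq W]
    {G : SimpleGraph V} {H : SimpleGraph W} [DecidableRel G.Adj] [DecidableRel H.Adj]
    (e : G ≃g H) : Matrix.reindex e.toEquiv e.toEquiv (G.lapMatrix ℝ) = H.lapMatrix ℝ := by
  ext i j
  rw [Matrix.reindex_apply, Matrix.submatrix_apply]
  simp only [lapMatrix, degMatrix, Matrix.sub_apply, adjMatrix_apply, Matrix.diagonal_apply]
  have h1 : (e.toEquiv.symm i = e.toEquiv.symm j) ↔ i = j := e.toEquiv.symm.injective.eq_iff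
  have h2 : G.Adj (e.toEquiv.symm i) (e.toEquiv.symm j) ↔ H.Adj i j := e.symm.map_adj_iff
  have h3 : G.degree (e.toEquiv.symm i) = H.degree i := by
    have := e.symm.degree_eq i
    exact this
  rw [if_congr h2 rfl rfl, if_congr h1 rfl rfl, h3]

theorem lapSpec_iso {V W : Type} [Fintype V] [Fintype W] {G : SimpleGraph V} {H : SimpleGraph W}
    (e : G ≃g H) : lapSpec G = lapSpec H := by
  classical
  rw [← lapSpec_eq G, ← lapSpec_eq H, ← iso_lapMatrix e, Matrix.charpoly_reindex]

theorem card_lapSpec {V : Type} [Fintype V] (G : SimpleGraph V) :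
    (lapSpec G).card = Fintype.card V := by
  classical
  rw [← lapSpec_eq G]
  have hH : (G.lapMatrix ℝ).IsHermitian := isHermitian_lapMatrix (R := ℝ) (G := G)
  rw [hH.roots_charpoly_eq_eigenvalues, Multiset.card_map]
  rfl

theorem card_V (b : B) : Fintype.card b.V = b.size := by
  induction b with
  | one => rfl
  | graft a c iha ihc =>
    have : Fintype.card (B.V (B.graft a c)) = Fintype.card (B.V a ⊕ B.V c) := rfl
    rw [this, Fintype.card_sum, iha, ihc]
    rfl

/-- Attach a new leaf at a vertex. -/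
def addLeaf : (b : B) → b.V → B
  | B.one, _ => B.graft B.one B.one
  | B.graft a c, Sum.inl u => B.graft (addLeaf a u) c
  | B.graft a c, Sum.inr u => B.graft a (addLeaf c u)

theorem addLeaf_spec (b : B) : ∀ u : b.V, ∃ (f : b.V → (addLeaf b u).V) (l : (addLeaf b u).V),
    f b.root = (addLeaf b u).root ∧
    (∀ x y, (addLeaf b u).adj (f x) (f y) ↔ b.adj x y) ∧
    (∀ x, (addLeaf b u).adj (f x) l ↔ x = u) ∧
    Function.Injective f ∧ (∀ x, f x ≠ l) ∧ (∀ z, z = l ∨ ∃ x, z = f x) := by
  induction b with
  | one =>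
    intro u
    refine ⟨fun _ => Sum.inl (), Sum.inr (), rfl, ?_, ?_, ?_, ?_, ?_⟩
    · intro x y
      exact Iff.rfl
    · intro x
      have h1 : x = u := Subsingleton.elim (α := Unit) x u
      exact iff_of_true ⟨rfl, rfl⟩ h1
    · intro x y _
      exact Subsingleton.elim (α := Unit) x y
    · intro x h
      exact Sum.inl_ne_inr h
    · intro z
      rcases z with z | z
      · exact Or.inr ⟨(), rfl⟩
      · exact Or.inl rfl
  | graft a c iha ihc =>
    intro u
    rcases u with u | u
    · obtain ⟨f, l, h1, h2, h3, h4, h5, h6⟩ := iha u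
      refine ⟨fun x => Sum.map f id x, Sum.inl l, ?_, ?_, ?_, ?_, ?_, ?_⟩
      · exact congrArg Sum.inl h1
      · rintro (x | x) (y | y)
        · exact h2 x y
        · change (f x = (addLeaf a u).root ∧ y = c.root) ↔ (x = a.root ∧ y = c.root)
          rw [← h1, h4.eq_iff]
        · change (f y = (addLeaf a u).root ∧ x = c.root) ↔ (y = a.root ∧ x = c.root)
          rw [← h1, h4.eq_iff]
        · exact Iff.rfl
      · rintro (x | x)
        · change (addLeaf a u).adj (f x) l ↔ (Sum.inl x : a.V ⊕ c.V) = Sum.inl u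
          rw [h3, Sum.inl.injEq]
        · change (l = (addLeaf a u).root ∧ x = c.root) ↔ (Sum.inr x : a.V ⊕ c.V) = Sum.inl u
          refine iff_of_false ?_ Sum.inr_ne_inl
          rintro ⟨h, -⟩
          exact h5 a.root (h1.trans h.symm)
      · exact Sum.map_injective.mpr ⟨h4, Function.injective_id⟩
      · rintro (x | x) h
        · exact h5 x (Sum.inl.inj h)
        · exact Sum.inr_ne_inl h
      · rintro (z | z)
        · rcases h6 z with h | ⟨x, h⟩
          · exact Or.inl (congrArg Sum.inl h)
          · exact Or.inr ⟨Sum.inl x, congrArg Sum.inl h⟩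
        · exact Or.inr ⟨Sum.inr z, rfl⟩
    · obtain ⟨f, l, h1, h2, h3, h4, h5, h6⟩ := ihc u
      refine ⟨fun x => Sum.map id f x, Sum.inr l, ?_, ?_, ?_, ?_, ?_, ?_⟩
      · rfl
      · rintro (x | x) (y | y)
        · exact Iff.rfl
        · change (x = a.root ∧ f y = (addLeaf c u).root) ↔ (x = a.root ∧ y = c.root)
          rw [← h1, h4.eq_iff]
        · change (y = a.root ∧ f x = (addLeaf c u).root) ↔ (y = a.root ∧ x = c.root)
          rw [← h1, h4.eq_iff]
        · exact h2 x y
      · rintro (x | x)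
        · change (x = a.root ∧ l = (addLeaf c u).root) ↔ (Sum.inl x : a.V ⊕ c.V) = Sum.inr u
          refine iff_of_false ?_ Sum.inl_ne_inr
          rintro ⟨-, h⟩
          exact h5 c.root (h1.trans h.symm)
        · change (addLeaf c u).adj (f x) l ↔ (Sum.inr x : a.V ⊕ c.V) = Sum.inr u
          rw [h3, Sum.inr.injEq]
      · exact Sum.map_injective.mpr ⟨Function.injective_id, h4⟩
      · rintro (x | x) h
        · exact Sum.inl_ne_inr h
        · exact h5 x (Sum.inr.inj h)
      · rintro (z | z)
        · exact Or.inr ⟨Sum.inl z, rfl⟩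
        · rcases h6 z with h | ⟨x, h⟩
          · exact Or.inl (congrArg Sum.inr h)
          · exact Or.inr ⟨Sum.inr x, congrArg Sum.inr h⟩

/-- Attaching a leaf realizes a graph with a vertex of degree one. -/
theorem iso_addLeaf {V : Type} (T : SimpleGraph V) (v w : V) (hvw : T.Adj v w)
    (huniq : ∀ z, T.Adj v z → z = w) (b : B) (φ : b.graph ≃g T.induce {v}ᶜ) :
    ∃ b' : B, Nonempty (b'.graph ≃g T) := by
  classical
  have hw : w ∈ ({v}ᶜ : Set V) := by
    intro h
    exact hvw.ne (Set.mem_singleton_iff.mp h).symm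
  obtain ⟨f, l, -, h2, h3, h4, h5, h6⟩ := addLeaf_spec b (φ.symm ⟨w, hw⟩)
  refine ⟨addLeaf b (φ.symm ⟨w, hw⟩), ⟨?_⟩⟩
  let F : V → (addLeaf b (φ.symm ⟨w, hw⟩)).V := fun z =>
    if h : z = v then l else f (φ.symm ⟨z, h⟩)
  have hFv : F v = l := dif_pos rfl
  have hF : ∀ z (h : z ≠ v), F z = f (φ.symm ⟨z, h⟩) := fun z h => dif_neg h
  have hinj : Function.Injective F := by
    intro x y hxy
    by_cases hx : x = v
    · by_cases hy : y = v
      · rw [hx, hy]
      · exfalso
        rw [hx, hFv, hF y hy] at hxy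
        exact h5 _ hxy.symm
    · by_cases hy : y = v
      · exfalso
        rw [hy, hFv, hF x hx] at hxy
        exact h5 _ hxy
      · rw [hF x hx, hF y hy] at hxy
        have := φ.symm.injective (h4 hxy)
        exact congrArg Subtype.val this
  have hsurj : Function.Surjective F := by
    intro z
    rcases h6 z with h | ⟨x, h⟩
    · exact ⟨v, hFv.trans h.symm⟩
    · refine ⟨(φ x : V), ?_⟩
      have hne : (φ x : V) ≠ v := (φ x).2
      rw [hF _ hne, h]
      congr 1
      exact φ.symm_apply_apply x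
  have hadj : ∀ x y, (addLeaf b (φ.symm ⟨w, hw⟩)).graph.Adj (F x) (F y) ↔ T.Adj x y := by
    have hv : ∀ x, x ≠ v → ((addLeaf b (φ.symm ⟨w, hw⟩)).graph.Adj (F x) (F v) ↔ T.Adj x v) := by
      intro x hx
      rw [hF x hx, hFv]
      refine (h3 _).trans ?_
      rw [φ.symm.injective.eq_iff]
      constructor
      · intro h
        have := congrArg Subtype.val h
        change x = w at this
        rw [this]
        exact hvw.symm
      · intro h
        exact Subtype.ext (huniq x h.symm)
    intro x y
    by_cases hx : x = v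
    · by_cases hy : y = v
      · rw [hx, hy]
        exact iff_of_false (SimpleGraph.irrefl _) (SimpleGraph.irrefl _)
      · rw [hx, SimpleGraph.adj_comm, SimpleGraph.adj_comm T]
        exact hv y hy
    · by_cases hy : y = v
      · rw [hy]
        exact hv x hx
      · rw [hF x hx, hF y hy]
        refine (h2 _ _).trans ?_
        exact φ.symm.map_adj_iff (v := ⟨x, hx⟩) (w := ⟨y, hy⟩)
  exact SimpleGraph.Iso.symm ⟨Equiv.ofBijective F ⟨hinj, hsurj⟩, fun {x y} => hadj x y⟩

theorem exists_iso_aux (n : ℕ) : ∀ (V : Type) [Fintype V] (T : SimpleGraph V), T.IsTree →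
    Fintype.card V = n → ∃ b : B, Nonempty (b.graph ≃g T) := by
  induction n using Nat.strong_induction_on with
  | _ n ih =>
    intro V _ T hT hn
    classical
    rcases subsingleton_or_nontrivial V with hs | hnt
    · obtain ⟨v⟩ := hT.connected.nonempty
      refine ⟨B.one, ⟨⟨⟨fun _ => v, fun _ => (), fun _ => rfl, fun z => Subsingleton.elim _ _⟩, ?_⟩⟩⟩
      intro x y
      exact iff_of_false (SimpleGraph.irrefl _) (fun h => h)
    · obtain ⟨v, hv⟩ := hT.exists_vert_degree_one_of_nontrivial
      have hconn := hT.connected.induce_compl_singleton_of_degree_eq_one hv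
      have htree : (T.induce {v}ᶜ).IsTree := ⟨hconn, hT.isAcyclic.induce _⟩
      obtain ⟨w, hw, huniq⟩ := degree_eq_one_iff_existsUnique_adj.mp hv
      have hcard : Fintype.card ({v}ᶜ : Set V) < n := by
        rw [← hn]
        exact Fintype.card_subtype_lt (x := v) (fun h => h rfl)
      obtain ⟨b, ⟨φ⟩⟩ := ih _ hcard _ (T.induce {v}ᶜ) htree rfl
      exact iso_addLeaf T v w hw huniq b φ

theorem exists_iso {V : Type} [Fintype V] (T : SimpleGraph V) (hT : T.IsTree) :
    ∃ b : B, Nonempty (b.graph ≃g T) :=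
  exists_iso_aux _ V T hT rfl

end Pool.Agent.H59
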