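import Mathlib
import Pool.Agent.H59.Defs
import Pool.Agent.H59.Coulson

set_option autoImplicit false

/-!
# Closure lemmas for the class `LG` and the Coulson inequality for it
-/

namespace Pool.Agent.H59

theorem LG_qq_pos (x : ℝ) (_hx : 0 < x) : 0 < qq x := by
  have h : x < Real.sqrt (x ^ 2 + 4) := by
    apply Real.lt_sqrt_of_sq_lt
    linarith
  unfold qq
  linarith

theorem LG_qq_mul (x : ℝ) : qq x * ((x + Real.sqrt (x ^ 2 + 4)) / 2) = 1 := by
  have h : Real.sqrt (x ^ 2 + 4) ^ 2 = x ^ 2 + 4 := Real.sq_sqrt (by positivity)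
  unfold qq
  nlinarith

theorem LG_t_pos (x : ℝ) (hx : 0 < x) : 0 < (x + Real.sqrt (x ^ 2 + 4)) / 2 := by
  have := Real.sqrt_nonneg (x ^ 2 + 4)
  linarith

theorem LG_log_qq (x : ℝ) (hx : 0 < x) :
    Real.log (qq x) = - Real.log ((x + Real.sqrt (x ^ 2 + 4)) / 2) := by
  have h1 := LG_qq_pos x hx
  have h2 := LG_t_pos x hx
  have h3 : Real.log (qq x * ((x + Real.sqrt (x ^ 2 + 4)) / 2)) = 0 := by
    rw [LG_qq_mul, Real.log_one]
  rw [Real.log_mul h1.ne' h2.ne'] at h3
  linarith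

theorem LG_one_sub_sq (x : ℝ) : 1 - qq x ^ 2 = x * qq x := by
  have h : Real.sqrt (x ^ 2 + 4) ^ 2 = x ^ 2 + 4 := Real.sq_sqrt (by positivity)
  unfold qq
  nlinarith

theorem LG_one_add_sq (x : ℝ) : 1 + qq x ^ 2 = Real.sqrt (x ^ 2 + 4) * qq x := by
  have h : Real.sqrt (x ^ 2 + 4) ^ 2 = x ^ 2 + 4 := Real.sq_sqrt (by positivity)
  unfold qq
  nlinarith

theorem LG.zero : LG (fun _ => 0) 0 := by
  refine ⟨[], by simp, ?_, by simp⟩
  intro x _
  simp

theorem LG.add {f1 f2 : ℝ → ℝ} {g1 g2 : ℝ} (h1 : LG f1 g1) (h2 : LG f2 g2) :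
    LG (fun x => f1 x + f2 x) (g1 + g2) := by
  obtain ⟨L1, a1, b1, c1⟩ := h1
  obtain ⟨L2, a2, b2, c2⟩ := h2
  refine ⟨L1 ++ L2, ?_, ?_, ?_⟩
  · intro p hp
    rcases List.mem_append.1 hp with hp | hp
    · exact a1 p hp
    · exact a2 p hp
  · intro x hx
    simp only
    rw [b1 x hx, b2 x hx]
    simp only [List.map_append, List.sum_append]
    ring
  · rw [c1, c2]
    simp only [List.map_append, List.sum_append]
    ring

theorem LG.smul {f : ℝ → ℝ} {g : ℝ} (k : ℝ) (h : LG f g) :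
    LG (fun x => k * f x) (k * g) := by
  obtain ⟨L, a, b, c⟩ := h
  have e1 : ∀ φ : ℝ → ℝ, ((L.map (fun p => (k * p.1, p.2))).map (fun p => p.1 * φ p.2)).sum
      = k * (L.map (fun p => p.1 * φ p.2)).sum := by
    intro φ
    rw [List.map_map, ← List.sum_map_mul_left]
    congr 1
    apply List.map_congr_left
    intro p _
    simp only [Function.comp]
    ring
  have e2 : ((L.map (fun p => (k * p.1, p.2))).map Prod.fst).sum = k * (L.map Prod.fst).sum := by
    rw [List.map_map, ← List.sum_map_mul_left]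
    rfl
  refine ⟨L.map (fun p => (k * p.1, p.2)), ?_, ?_, ?_⟩
  · intro p hp
    obtain ⟨q, hq, rfl⟩ := List.mem_map.1 hp
    exact a q hq
  · intro x hx
    simp only
    rw [b x hx, e1 (fun y => Real.log (x ^ 2 + y ^ 2)), e2]
    ring
  · rw [c, e1 (fun y => y), e2]
    ring

/-- `s (x^2 + a^2) = (1-s)^2 + a^2 s`, with `s = q^2`. -/
theorem LG.factor (a : ℝ) (ha : 0 ≤ a) :
    LG (fun x => Real.log ((1 - qq x ^ 2) ^ 2 + a ^ 2 * qq x ^ 2)) (a - 4 / Real.pi) := by
  refine ⟨[(1, a)], ?_, ?_, ?_⟩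
  · intro p hp
    rw [List.mem_singleton.1 hp]
    exact ha
  · intro x hx
    have hq := LG_qq_pos x hx
    have hxa : 0 < x ^ 2 + a ^ 2 := by positivity
    have e : (1 - qq x ^ 2) ^ 2 + a ^ 2 * qq x ^ 2 = (x ^ 2 + a ^ 2) * qq x ^ 2 := by
      rw [LG_one_sub_sq]
      ring
    simp only [List.map_cons, List.map_nil, List.sum_cons, List.sum_nil]
    rw [e, Real.log_mul hxa.ne' (by positivity), Real.log_pow, LG_log_qq x hx]
    push_cast
    ring
  · simp

theorem LG.one_sub : LG (fun x => Real.log (1 - qq x ^ 2)) (- (2 / Real.pi)) := by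
  refine ⟨[(1 / 2, 0)], ?_, ?_, ?_⟩
  · intro p hp
    rw [List.mem_singleton.1 hp]
  · intro x hx
    have hq := LG_qq_pos x hx
    simp only [List.map_cons, List.map_nil, List.sum_cons, List.sum_nil]
    rw [LG_one_sub_sq, Real.log_mul hx.ne' hq.ne', LG_log_qq x hx]
    have : x ^ 2 + (0 : ℝ) ^ 2 = x ^ 2 := by ring
    rw [this, Real.log_pow]
    push_cast
    ring
  · simp only [List.map_cons, List.map_nil, List.sum_cons, List.sum_nil]
    ring

theorem LG.one_add : LG (fun x => Real.log (1 + qq x ^ 2)) (1 - 2 / Real.pi) := by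
  refine ⟨[(1 / 2, 2)], ?_, ?_, ?_⟩
  · intro p hp
    rw [List.mem_singleton.1 hp]
    norm_num
  · intro x hx
    have hq := LG_qq_pos x hx
    have hs : 0 < Real.sqrt (x ^ 2 + 4) := Real.sqrt_pos.2 (by positivity)
    simp only [List.map_cons, List.map_nil, List.sum_cons, List.sum_nil]
    rw [LG_one_add_sq, Real.log_mul hs.ne' hq.ne', LG_log_qq x hx]
    have : x ^ 2 + (2 : ℝ) ^ 2 = x ^ 2 + 4 := by norm_num
    rw [this, Real.log_sqrt (by positivity)]
    ring
  · simp only [List.map_cons, List.map_nil, List.sum_cons, List.sum_nil]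
    ring

theorem coulson_LG (M : Multiset ℝ) (f : ℝ → ℝ) (g : ℝ) (hf : LG f g)
    (h : ∀ x : ℝ, 0 < x →
      f x ≤ (M.map (fun μ => Real.log ((μ - 2) ^ 2 + x ^ 2))).sum
        + 2 * (M.card : ℝ) * Real.log (qq x)) :
    4 * (M.card : ℝ) / Real.pi + g ≤ (M.map (fun μ => |μ - 2|)).sum := by
  obtain ⟨l, rfl⟩ : ∃ l : List ℝ, (l : Multiset ℝ) = M := ⟨M.toList, M.coe_toList⟩
  obtain ⟨L, hL, hLf, hLg⟩ := hf
  simp only [Multiset.map_coe, Multiset.sum_coe, Multiset.coe_card] at h ⊢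
  set S : ℝ := (L.map Prod.fst).sum with hS
  have key := coulson (ι := Fin l.length ⊕ Fin L.length)
    (Sum.elim (fun _ => 1) (fun j => - (L[j.1]).1))
    (Sum.elim (fun i => |l[i.1] - 2|) (fun j => (L[j.1]).2)) ((l.length : ℝ) - S) ?_ ?_ ?_
  · rw [Fintype.sum_sum_type] at key
    simp only [Sum.elim_inl, Sum.elim_inr] at key
    have e1 : ∑ i : Fin l.length, 1 * |l[i.1] - 2| = (l.map (fun μ => |μ - 2|)).sum := by
      rw [← Fin.sum_univ_fun_getElem l (fun μ => |μ - 2|)]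
      apply Finset.sum_congr rfl
      intro i _
      ring
    have e2 : ∑ j : Fin L.length, -(L[j.1]).1 * (L[j.1]).2 =
        - (L.map (fun p => p.1 * p.2)).sum := by
      rw [← Fin.sum_univ_fun_getElem L (fun p => p.1 * p.2), ← Finset.sum_neg_distrib]
      apply Finset.sum_congr rfl
      intro i _
      ring
    rw [e1, e2] at key
    rw [hLg]
    have e3 : 4 * ((l.length : ℝ) - S) / Real.pi =
        4 * (l.length : ℝ) / Real.pi - 4 * S / Real.pi := by ring
    rw [e3] at key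
    linarith
  · rintro (i | j)
    · exact abs_nonneg _
    · exact hL _ (List.getElem_mem _)
  · rw [Fintype.sum_sum_type]
    simp only [Sum.elim_inl, Sum.elim_inr]
    have e2 : ∑ j : Fin L.length, -(L[j.1]).1 = - S := by
      rw [hS, ← Fin.sum_univ_fun_getElem L Prod.fst, ← Finset.sum_neg_distrib]
    rw [e2]
    simp
    ring
  · intro x hx
    rw [Fintype.sum_sum_type]
    simp only [Sum.elim_inl, Sum.elim_inr]
    have e1 : ∑ i : Fin l.length, 1 * Real.log (x ^ 2 + |l[i.1] - 2| ^ 2) =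
        (l.map (fun μ => Real.log ((μ - 2) ^ 2 + x ^ 2))).sum := by
      rw [← Fin.sum_univ_fun_getElem l (fun μ => Real.log ((μ - 2) ^ 2 + x ^ 2))]
      apply Finset.sum_congr rfl
      intro i _
      rw [one_mul, sq_abs, add_comm]
    have e2 : ∑ j : Fin L.length, -(L[j.1]).1 * Real.log (x ^ 2 + (L[j.1]).2 ^ 2) =
        - (L.map (fun p => p.1 * Real.log (x ^ 2 + p.2 ^ 2))).sum := by
      rw [← Fin.sum_univ_fun_getElem L (fun p => p.1 * Real.log (x ^ 2 + p.2 ^ 2)),
        ← Finset.sum_neg_distrib]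
      apply Finset.sum_congr rfl
      intro i _
      ring
    rw [e1, e2]
    have hh := h x hx
    rw [hLf x hx, LG_log_qq x hx] at hh
    linarith

end Pool.Agent.H59
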