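import Pool.Agent.H59.SmallBd

set_option autoImplicit false

/-!
# Kernel enumeration of small trees: reading off the digits
-/

namespace Pool.Agent.H59.Sm

open Polynomial

theorem repAll_succ (v K : ℕ) : repAll v (K + 1) = v + 2 ^ 224 * repAll v K := rfl

theorem offs_true (v K : ℕ) : offs v (K + 1) true = v + 2 ^ 224 * offs v K false := rfl

theorem offs_false (v K : ℕ) : offs v (K + 1) false = 2 ^ 224 * offs v K true := rfl

theorem land_low (y : ℕ) (hy : y < 2 ^ 224) (h : y &&& (2 ^ 224 - 2 ^ 110) = 0) : y < 2 ^ 110 := by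
  have h1 : (y &&& (2 ^ 224 - 2 ^ 110)) / 2 ^ 110 = (y / 2 ^ 110) &&& ((2 ^ 224 - 2 ^ 110) / 2 ^ 110) :=
    Nat.and_div_two_pow
  have h2 : (2 ^ 224 - 2 ^ 110) / 2 ^ 110 = 2 ^ 114 - 1 := by norm_num
  rw [h, h2, Nat.and_two_pow_sub_one_eq_mod, Nat.zero_div] at h1
  have h3 : y / 2 ^ 110 < 2 ^ 114 := by
    rw [Nat.div_lt_iff_lt_mul (by norm_num)]
    calc y < 2 ^ 224 := hy
      _ = 2 ^ 114 * 2 ^ 110 := by norm_num
  rw [Nat.mod_eq_of_lt h3] at h1
  exact (Nat.div_eq_zero_iff_lt (by norm_num)).mp h1.symm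

theorem land_split (X v r : ℕ) (hv : v < 2 ^ 224) (h : X &&& (v + 2 ^ 224 * r) = 0) :
    (X % 2 ^ 224) &&& v = 0 ∧ (X / 2 ^ 224) &&& r = 0 := by
  have h1 : (X &&& (v + 2 ^ 224 * r)) % 2 ^ 224 = (X % 2 ^ 224) &&& ((v + 2 ^ 224 * r) % 2 ^ 224) :=
    Nat.and_mod_two_pow
  have h2 : (X &&& (v + 2 ^ 224 * r)) / 2 ^ 224 = (X / 2 ^ 224) &&& ((v + 2 ^ 224 * r) / 2 ^ 224) :=
    Nat.and_div_two_pow
  rw [h, Nat.add_mul_mod_self_left, Nat.mod_eq_of_lt hv, Nat.zero_mod] at h1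
  rw [h, Nat.add_mul_div_left _ _ (by norm_num), Nat.div_eq_of_lt hv, Nat.zero_add,
    Nat.zero_div] at h2
  exact ⟨h1.symm, h2.symm⟩

theorem KW_sq : (KW : ℤ) ^ 2 = 2 ^ 224 := by
  unfold KW; push_cast

theorem coeff_aux (a : ℤ) (P : ℤ[X]) (B : ℤ) (ha : |a| < B) (hP : ∀ k, |P.coeff k| < B) (k : ℕ) :
    |(C a + X ^ 2 * P).coeff k| < B := by
  have hB : 0 < B := lt_of_le_of_lt (abs_nonneg a) ha
  rcases k with _ | _ | k
  · simp only [coeff_add, coeff_C_zero, mul_coeff_zero, coeff_X_pow]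
    simpa using ha
  · rw [coeff_add, coeff_C_succ, coeff_X_pow_mul', if_neg (by norm_num)]
    simpa using hB
  · rw [coeff_add, coeff_C_succ, zero_add, coeff_X_pow_mul]
    exact hP k

theorem digits (K : ℕ) : ∀ (b : Bool) (N : ℕ), N < (2 ^ 224) ^ K →
    N &&& (repAll (2 ^ 224 - 2 ^ 110) K) = 0 →
    ∃ P : ℤ[X], (∀ k, |P.coeff k| < 2 ^ 110) ∧
      P.eval (KW : ℤ) = (N : ℤ) - (offs (2 ^ 110 - 1) K b : ℕ) ∧
      ∀ x : ℝ, ∃ r : ℝ, 0 ≤ r ∧
        aeval (Complex.I * (x : ℂ)) P = ((cond b (-r) r : ℝ) : ℂ) := by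
  induction K with
  | zero =>
    intro b N hN _
    refine ⟨0, by simp, ?_, fun x => ⟨0, le_rfl, ?_⟩⟩
    · have h1 : N = 0 := by simpa using hN
      have h2 : offs (2 ^ 110 - 1) 0 b = 0 := rfl
      rw [h1, h2]; simp
    · cases b <;> simp
  | succ K ih =>
    intro b N hN hland
    rw [repAll_succ] at hland
    obtain ⟨h1, h2⟩ := land_split _ _ _ (by norm_num) hland
    have h3 := land_low _ (Nat.mod_lt _ (by norm_num)) h1
    have h4 : N / 2 ^ 224 < (2 ^ 224) ^ K := by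
      rw [Nat.div_lt_iff_lt_mul (by norm_num), ← pow_succ]
      exact hN
    obtain ⟨P, hP1, hP2, hP3⟩ := ih (!b) _ h4 h2
    have h5 : (N : ℤ) = ((N % 2 ^ 224 : ℕ) : ℤ) + 2 ^ 224 * ((N / 2 ^ 224 : ℕ) : ℤ) := by
      exact_mod_cast (Nat.mod_add_div N (2 ^ 224)).symm
    generalize hm : N % 2 ^ 224 = m at *
    generalize hq : N / 2 ^ 224 = q at *
    have h3' : (m : ℤ) < 2 ^ 110 := by exact_mod_cast h3
    have h0 : (0 : ℤ) ≤ m := Int.natCast_nonneg _
    cases b with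
    | false =>
      refine ⟨C (m : ℤ) + X ^ 2 * P, coeff_aux _ _ _ ?_ hP1, ?_, fun x => ?_⟩
      · rw [abs_of_nonneg h0]; exact h3'
      · rw [eval_add, eval_mul, eval_pow, eval_X, eval_C, hP2, KW_sq, offs_false, h5]
        push_cast
        simp only [Bool.not_false]
        ring
      · obtain ⟨r, hr, hx⟩ := hP3 x
        refine ⟨m + x ^ 2 * r, by positivity, ?_⟩
        rw [map_add, map_mul, map_pow, aeval_X, aeval_C, hx, mul_pow, Complex.I_sq]
        simp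
    | true =>
      refine ⟨C ((m : ℤ) - (2 ^ 110 - 1)) + X ^ 2 * P, coeff_aux _ _ _ ?_ hP1, ?_, fun x => ?_⟩
      · rw [abs_lt]; constructor <;> linarith
      · have h6 : ((2 ^ 110 - 1 : ℕ) : ℤ) = 2 ^ 110 - 1 := by norm_num
        rw [eval_add, eval_mul, eval_pow, eval_X, eval_C, hP2, KW_sq, offs_true, h5, Nat.cast_add,
          h6, Nat.cast_mul]
        simp only [Bool.not_true]
        push_cast
        ring
      · obtain ⟨r, hr, hx⟩ := hP3 x
        have h7 : (m : ℝ) ≤ 2 ^ 110 - 1 := by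
          have : (m : ℤ) ≤ 2 ^ 110 - 1 := by linarith
          exact_mod_cast this
        refine ⟨(2 ^ 110 - 1 - m) + x ^ 2 * r, by
          have := sub_nonneg.mpr h7
          positivity, ?_⟩
        rw [map_add, map_mul, map_pow, aeval_X, aeval_C, hx, mul_pow, Complex.I_sq]
        simp
        ring

end Pool.Agent.H59.Sm
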