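import Pool.Agent.H59.SmallEnum
import Pool.Agent.H59.SmallDig
import Pool.Agent.H59.Det
import Pool.Agent.H59.Iso
import Pool.Agent.H59.Reroot
import Pool.Agent.H59.LG

set_option autoImplicit false

/-!
# The inequality for trees with at most 16 vertices
-/

namespace Pool.Agent.H59.Sm

open Polynomial

/-- The difference polynomial. -/
noncomputable def GP (b pth : B) (den : ℕ) (ps qs : List ℕ) : ℤ[X] :=
  FP b * MP den qs - FP pth * MP den ps

theorem GP_coeff {n : ℕ} (b pth : B) (hb : b.size = n) (hp : pth.size = n) (den : ℕ)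
    (ps qs : List ℕ) (h : 6 ^ (2 * n) * (mulB den ps + mulB den qs) ≤ 2 ^ 111) (k : ℕ) :
    |(GP b pth den ps qs).coeff k| ≤ 2 ^ 109 := by
  obtain ⟨v, h1, h2, h3⟩ := FP_MB b
  obtain ⟨v', h1', h2', h3'⟩ := FP_MB pth
  have h4 := ((h3.mul (MP_MB den qs)).sub (h3'.mul (MP_MB den ps))).coeff k
  refine h4.trans ?_
  rw [hb] at h2
  rw [hp] at h2'
  have h5 : (6 : ℤ) ^ (2 * n) * ((mulB den ps : ℕ) + (mulB den qs : ℕ)) ≤ 2 ^ 111 := by
    exact_mod_cast h
  have h6 : 4 * v * (mulB den qs : ℕ) ≤ 6 ^ (2 * n) * (mulB den qs : ℕ) :=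
    mul_le_mul_of_nonneg_right h2 (Int.natCast_nonneg _)
  have h7 : 4 * v' * (mulB den ps : ℕ) ≤ 6 ^ (2 * n) * (mulB den ps : ℕ) :=
    mul_le_mul_of_nonneg_right h2' (Int.natCast_nonneg _)
  have h8 : (2 : ℤ) ^ 111 = 4 * 2 ^ 109 := by norm_num
  rw [h8] at h5
  nlinarith

theorem KW_int : (KW : ℤ) = 2 ^ 112 := by unfold KW; push_cast

/-- The meaning of the main test. -/
theorem test_spec {n : ℕ} (b pth : B) (hb : b.size = n) (hp : pth.size = n) (hn : n ≤ 16)
    (den : ℕ) (ps qs : List ℕ) (hden : 1 ≤ den) (hlen : ps.length = qs.length)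
    (hbd : 6 ^ (2 * n) * (mulB den ps + mulB den qs) ≤ 2 ^ 111)
    (hps : ∀ p ∈ ps, p ≤ KW) (hqs : ∀ p ∈ qs, p ≤ KW)
    (hok : okAlt (Dp (acc b) * Dm (acc b))
      (mkAlt n (Dp (acc pth) * Dm (acc pth)) (den, ps, qs)) = true) :
    ∀ x : ℝ, ∃ r : ℝ, 0 ≤ r ∧ aeval (Complex.I * (x : ℂ)) (GP b pth den ps qs) = (r : ℂ) := by
  have hb1 := DpDm b (by omega)
  have hp1 := DpDm pth (by omega)
  generalize hnb : Dp (acc b) * Dm (acc b) = nb at *
  generalize hnp : Dp (acc pth) * Dm (acc pth) = np at *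
  have e1 : (FP b).eval (KW : ℤ) = (-1) ^ n * (nb : ℤ) := by
    rw [FP_eval, hb1, hb, ← mul_assoc, ← mul_pow]
    norm_num
  have e2 : (FP pth).eval (KW : ℤ) = (-1) ^ n * (np : ℤ) := by
    rw [FP_eval, hp1, hp, ← mul_assoc, ← mul_pow]
    norm_num
  have e3 : (GP b pth den ps qs).eval (KW : ℤ) = (-1) ^ (n + ps.length) *
      ((nb : ℤ) * (mulA den qs : ℕ) - np * (mulA den ps : ℕ)) := by
    unfold GP
    rw [eval_sub, eval_mul, eval_mul, e1, e2, MP_eval den hden qs hqs, MP_eval den hden ps hps,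
      ← hlen, pow_add]
    ring
  -- the natural number
  have key : ∃ N : ℕ, (N : ℤ) = (GP b pth den ps qs).eval (KW : ℤ)
      + (offs (2 ^ 110 - 1) (n + ps.length + 1) false : ℕ) ∧
      N &&& (repAll (2 ^ 224 - 2 ^ 110) (n + ps.length + 1)) = 0 ∧
      N < (2 ^ 224) ^ (n + ps.length + 1) := by
    unfold okAlt at hok
    rcases hev : (mkAlt n np (den, ps, qs)).ev with _ | _
    · rw [hev] at hok
      simp only [Bool.and_eq_true] at hok
      obtain ⟨⟨h1, h2⟩, h3⟩ := hok
      have h1' := Nat.le_of_ble_eq_true h1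
      have h2' := Nat.eq_of_beq_eq_true h2
      have h3' : _ + 1 ≤ _ := Nat.le_of_ble_eq_true h3
      have hev' : (n + ps.length) % 2 = 1 := by
        have : ((n + ps.length) % 2 == 0) = false := hev
        have h : ¬ (n + ps.length) % 2 = 0 := by simpa using this
        omega
      have hodd : Odd (n + ps.length) := Nat.odd_iff.mpr hev'
      refine ⟨_, ?_, h2', h3'⟩
      rw [Nat.cast_sub h1', e3, hodd.neg_one_pow]
      simp only [mkAlt]
      push_cast
      ring
    · rw [hev] at hok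
      simp only [Bool.and_eq_true] at hok
      obtain ⟨⟨h1, h2⟩, h3⟩ := hok
      have h1' := Nat.le_of_ble_eq_true h1
      have h2' := Nat.eq_of_beq_eq_true h2
      have h3' : _ + 1 ≤ _ := Nat.le_of_ble_eq_true h3
      have hev' : (n + ps.length) % 2 = 0 := by
        have : ((n + ps.length) % 2 == 0) = true := hev
        simpa using this
      have heven : Even (n + ps.length) := Nat.even_iff.mpr hev'
      refine ⟨_, ?_, h2', h3'⟩
      rw [Nat.cast_sub h1', e3, heven.neg_one_pow]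
      simp only [mkAlt]
      push_cast
      ring
  obtain ⟨N, hN1, hN2, hN3⟩ := key
  obtain ⟨P, hP1, hP2, hP3⟩ := digits (n + ps.length + 1) false N hN3 hN2
  have hGP : GP b pth den ps qs = P := by
    refine eq_of_eval (W := (KW : ℤ)) (by rw [KW_int]; norm_num) (fun j => ?_) ?_
    · have h1 := GP_coeff b pth hb hp den ps qs hbd j
      have h2 := hP1 j
      rw [KW_int]
      have h3 : (2 : ℤ) ^ 109 + 2 ^ 110 < 2 ^ 112 := by norm_num
      linarith
    · rw [hP2, hN1]
      ring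
  rw [hGP]
  intro x
  obtain ⟨r, hr, hx⟩ := hP3 x
  exact ⟨r, hr, hx⟩

/-- The characteristic polynomial at `± i x`. -/
theorem FP_value (b : B) (x : ℝ) : aeval (Complex.I * (x : ℂ)) (FP b) =
    ((((lapSpec b.graph).map (fun μ => (μ - 2) ^ 2 + x ^ 2)).prod : ℝ) : ℂ) := by
  rw [FP_aeval, ← det_rec, ← det_rec, ← Multiset.prod_map_mul]
  have h := map_multiset_prod Complex.ofRealHom
    ((lapSpec b.graph).map (fun μ => (μ - 2) ^ 2 + x ^ 2))
  rw [Multiset.map_map] at h
  refine Eq.trans ?_ h.symm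
  refine congrArg _ (Multiset.map_congr rfl fun μ _ => ?_)
  simp only [Function.comp_apply, Complex.ofRealHom_eq_coe]
  push_cast
  linear_combination (-(x : ℂ) ^ 2) * Complex.I_sq

theorem log_prod_multiset {α : Type} (M : Multiset α) (f : α → ℝ) (hf : ∀ a, 0 < f a) :
    Real.log (M.map f).prod = (M.map (fun a => Real.log (f a))).sum ∧ 0 < (M.map f).prod := by
  induction M using Multiset.induction with
  | empty => simp
  | cons a M ih =>
    rw [Multiset.map_cons, Multiset.prod_cons, Multiset.map_cons, Multiset.sum_cons,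
      Real.log_mul (hf a).ne' ih.2.ne', ih.1]
    exact ⟨rfl, mul_pos (hf a) ih.2⟩

theorem log_prod_list {α : Type} (M : List α) (f : α → ℝ) (hf : ∀ a, 0 < f a) :
    Real.log (M.map f).prod = (M.map (fun a => Real.log (f a))).sum ∧ 0 < (M.map f).prod := by
  have := log_prod_multiset (M : Multiset α) f hf
  simpa using this

theorem sum_map_neg' {α : Type} (l : List α) (f : α → ℝ) :
    (l.map (fun a => -f a)).sum = -(l.map f).sum := by
  induction l with
  | nil => simp
  | cons a l ih =>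
    rw [List.map_cons, List.sum_cons, ih, List.map_cons, List.sum_cons]
    ring

theorem sum_logs (den : ℕ) (hden : 1 ≤ den) (ps : List ℕ) (x : ℝ) (hx : 0 < x) :
    (ps.map (fun p : ℕ => Real.log ((p : ℝ) ^ 2 + (den : ℝ) ^ 2 * x ^ 2))).sum =
      (ps.map (fun p : ℕ => Real.log (x ^ 2 + ((p : ℝ) / den) ^ 2))).sum
        + ps.length * Real.log ((den : ℝ) ^ 2) := by
  have hd : (0 : ℝ) < den := by exact_mod_cast hden
  induction ps with
  | nil => simp
  | cons p ps ih =>
    rw [List.map_cons, List.sum_cons, ih, List.map_cons, List.sum_cons, List.length_cons]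
    have h : (p : ℝ) ^ 2 + (den : ℝ) ^ 2 * x ^ 2 =
        (x ^ 2 + ((p : ℝ) / den) ^ 2) * (den : ℝ) ^ 2 := by
      field_simp
      ring
    rw [h, Real.log_mul (by positivity) (by positivity)]
    push_cast
    ring

theorem list_sum_div (den : ℝ) (ps : List ℕ) :
    (ps.map (fun p : ℕ => (p : ℝ) / den)).sum = (ps.sum : ℕ) / den := by
  induction ps with
  | nil => simp
  | cons p ps ih =>
    rw [List.map_cons, List.sum_cons, ih, List.sum_cons]
    push_cast
    ring

/-- The energy comparison from the polynomial inequality. -/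
theorem energy_le {n : ℕ} (b pth : B) (hb : b.size = n) (hp : pth.size = n)
    (den : ℕ) (ps qs : List ℕ) (hden : 1 ≤ den) (hlen : ps.length = qs.length)
    (h : ∀ x : ℝ, ∃ r : ℝ, 0 ≤ r ∧
      aeval (Complex.I * (x : ℂ)) (GP b pth den ps qs) = (r : ℂ)) :
    ((lapSpec pth.graph).map (fun μ => |μ - 2|)).sum + (ps.sum : ℕ) / (den : ℝ)
      - (qs.sum : ℕ) / (den : ℝ) ≤ ((lapSpec b.graph).map (fun μ => |μ - 2|)).sum := by
  -- the inequality between products
  have hprod : ∀ x : ℝ, ((lapSpec pth.graph).map (fun μ => (μ - 2) ^ 2 + x ^ 2)).prod *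
      (ps.map (fun p : ℕ => (p : ℝ) ^ 2 + (den : ℝ) ^ 2 * x ^ 2)).prod ≤
      ((lapSpec b.graph).map (fun μ => (μ - 2) ^ 2 + x ^ 2)).prod *
      (qs.map (fun p : ℕ => (p : ℝ) ^ 2 + (den : ℝ) ^ 2 * x ^ 2)).prod := by
    intro x
    obtain ⟨r, hr, hx⟩ := h x
    unfold GP at hx
    rw [map_sub, map_mul, map_mul, FP_value, FP_value, MP_aeval, MP_aeval, ← Complex.ofReal_mul,
      ← Complex.ofReal_mul, ← Complex.ofReal_sub] at hx
    have := Complex.ofReal_injective hx
    linarith
  -- the inequality between sums of logarithms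
  have hsum : ∀ x : ℝ, 0 < x →
      ((lapSpec pth.graph).map (fun μ => Real.log ((μ - 2) ^ 2 + x ^ 2))).sum +
      (ps.map (fun p : ℕ => Real.log (x ^ 2 + ((p : ℝ) / den) ^ 2))).sum ≤
      ((lapSpec b.graph).map (fun μ => Real.log ((μ - 2) ^ 2 + x ^ 2))).sum +
      (qs.map (fun p : ℕ => Real.log (x ^ 2 + ((p : ℝ) / den) ^ 2))).sum := by
    intro x hx
    have hd : (0 : ℝ) < den := by exact_mod_cast hden
    have hpos1 : ∀ μ : ℝ, 0 < (μ - 2) ^ 2 + x ^ 2 := fun μ => by positivity
    have hpos2 : ∀ p : ℕ, 0 < (p : ℝ) ^ 2 + (den : ℝ) ^ 2 * x ^ 2 := fun p => by positivity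
    obtain ⟨a1, a2⟩ := log_prod_multiset (lapSpec pth.graph) _ hpos1
    obtain ⟨b1, b2⟩ := log_prod_multiset (lapSpec b.graph) _ hpos1
    obtain ⟨c1, c2⟩ := log_prod_list ps _ hpos2
    obtain ⟨d1, d2⟩ := log_prod_list qs _ hpos2
    have := Real.log_le_log (mul_pos a2 c2) (hprod x)
    rw [Real.log_mul a2.ne' c2.ne', Real.log_mul b2.ne' d2.ne', a1, b1, c1, d1,
      sum_logs den hden ps x hx, sum_logs den hden qs x hx, hlen] at this
    linarith
  -- the weights
  obtain ⟨lp, hlp⟩ := Quot.exists_rep (lapSpec pth.graph)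
  have hlp' : (lp : Multiset ℝ) = lapSpec pth.graph := hlp
  have hcardp : lp.length = n := by
    have h1 := card_lapSpec pth.graph
    rw [card_V, hp, ← hlp', Multiset.coe_card] at h1
    exact h1
  have hcardb : (lapSpec b.graph).card = n := by
    rw [card_lapSpec, card_V, hb]
  set L : List (ℝ × ℝ) := lp.map (fun μ => (1, |μ - 2|)) ++
    (ps.map (fun p : ℕ => ((1 : ℝ), (p : ℝ) / den)) ++
      qs.map (fun p : ℕ => ((-1 : ℝ), (p : ℝ) / den))) with hL
  have hw : (L.map Prod.fst).sum = n := by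
    rw [hL]
    simp only [List.map_append, List.map_map, List.sum_append, Function.comp_def,
      List.map_const', List.sum_replicate, hcardp, hlen]
    simp
  have hg : (L.map (fun p => p.1 * p.2)).sum =
      ((lapSpec pth.graph).map (fun μ => |μ - 2|)).sum + (ps.sum : ℕ) / (den : ℝ)
      - (qs.sum : ℕ) / (den : ℝ) := by
    rw [← hlp', Multiset.map_coe, Multiset.sum_coe, ← list_sum_div, ← list_sum_div, hL]
    simp only [List.map_append, List.map_map, List.sum_append, Function.comp_def, one_mul,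
      neg_one_mul]
    rw [sum_map_neg']
    ring
  have hf : ∀ x : ℝ, (L.map (fun p => p.1 * Real.log (x ^ 2 + p.2 ^ 2))).sum =
      ((lapSpec pth.graph).map (fun μ => Real.log ((μ - 2) ^ 2 + x ^ 2))).sum +
      (ps.map (fun p : ℕ => Real.log (x ^ 2 + ((p : ℝ) / den) ^ 2))).sum -
      (qs.map (fun p : ℕ => Real.log (x ^ 2 + ((p : ℝ) / den) ^ 2))).sum := by
    intro x
    rw [← hlp', Multiset.map_coe, Multiset.sum_coe, hL]
    simp only [List.map_append, List.map_map, List.sum_append, Function.comp_def, one_mul,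
      neg_one_mul, sq_abs]
    rw [sum_map_neg']
    simp only [add_comm (x ^ 2) ((_ - 2 : ℝ) ^ 2)]
    ring
  have hLG : LG (fun x => (L.map (fun p => p.1 * Real.log (x ^ 2 + p.2 ^ 2))).sum
      - 2 * (L.map Prod.fst).sum * Real.log ((x + Real.sqrt (x ^ 2 + 4)) / 2))
      ((L.map (fun p => p.1 * p.2)).sum - 4 * (L.map Prod.fst).sum / Real.pi) := by
    refine ⟨L, fun p hp' => ?_, fun x _ => rfl, rfl⟩
    rw [hL] at hp'
    simp only [List.mem_append, List.mem_map] at hp'
    rcases hp' with ⟨μ, _, rfl⟩ | ⟨μ, _, rfl⟩ | ⟨μ, _, rfl⟩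
    · exact abs_nonneg _
    · positivity
    · positivity
  have hmain := coulson_LG (lapSpec b.graph) _ _ hLG (fun x hx => by
    rw [LG_log_qq x hx, hf x, hw, hcardb]
    have := hsum x hx
    linarith)
  rw [hw, hg, hcardb] at hmain
  linarith

theorem leg_size (n : ℕ) : (B.leg n).size = n + 1 := by
  induction n with
  | zero => rfl
  | succ n ih =>
    change 1 + (B.leg n).size = _
    rw [ih]; ring

/-- Reading the table. -/
theorem rows_spec {n d : ℕ} (h2 : n ≤ 16) (t : Alt)
    (ht : t ∈ (tab n).getD d []) : ∃ s : ℕ × List ℕ × List ℕ,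
      t = mkAlt n (leg0 (n - 1)) s ∧ stat n d s = true := by
  have h := List.all_eq_true.mp stat_all n (List.mem_range.mpr (by omega))
  unfold statAll at h
  unfold tab at ht
  rw [List.getD_eq_getElem?_getD, List.getElem?_map] at ht
  rcases hr : (rows n)[d]? with _ | l
  · rw [hr] at ht
    simp at ht
  · rw [hr] at ht
    simp only [Option.map_some, Option.getD_some, List.mem_map] at ht
    obtain ⟨s, hs, hst⟩ := ht
    refine ⟨s, hst.symm, ?_⟩
    have h3 := List.all_eq_true.mp h (l, d) (by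
      rw [List.mem_zipIdx_iff_getElem?]
      exact hr)
    exact List.all_eq_true.mp h3 s hs

theorem small_aux (n : ℕ) (h1 : 1 ≤ n) (h2 : n ≤ 16) (b : B) (hb : b.size = n)
    (ht : tst (tab n) (acc b) = true) :
    (2 / (n : ℝ)) * ((b.dfc : ℝ) - ((n % 2 : ℕ) : ℝ))
      + ((lapSpec (B.leg (n - 1)).graph).map (fun μ => |μ - 2|)).sum
      ≤ ((lapSpec b.graph).map (fun μ => |μ - 2|)).sum := by
  unfold tst at ht
  rw [dd_acc b (by omega)] at ht
  obtain ⟨t, htm, hok⟩ := List.any_eq_true.mp ht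
  obtain ⟨⟨den, ps, qs⟩, rfl, hst⟩ := rows_spec h2 t htm
  unfold stat at hst
  simp only [Bool.and_eq_true] at hst
  obtain ⟨⟨⟨⟨⟨s1, s2⟩, s3⟩, s4⟩, s5⟩, s6⟩ := hst
  have s1' := Nat.le_of_ble_eq_true s1
  have s2' := Nat.eq_of_beq_eq_true s2
  have s3' := Nat.le_of_ble_eq_true s3
  have s4' : ∀ p ∈ ps, p ≤ KW := fun p hp =>
    Nat.le_of_ble_eq_true (List.all_eq_true.mp s4 p hp)
  have s5' : ∀ p ∈ qs, p ≤ KW := fun p hp =>
    Nat.le_of_ble_eq_true (List.all_eq_true.mp s5 p hp)
  have s6' := Nat.le_of_ble_eq_true s6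
  have hleg : (B.leg (n - 1)).size = n := by rw [leg_size]; omega
  have hE := energy_le b (B.leg (n - 1)) hb hleg den ps qs s1' s2'
    (test_spec b (B.leg (n - 1)) hb hleg h2 den ps qs s1' s2' s3' s4' s5' hok)
  have hn : (0 : ℝ) < n := by exact_mod_cast h1
  have hd : (0 : ℝ) < den := by exact_mod_cast s1'
  have s7 : (n : ℝ) * (qs.sum : ℕ) + 2 * den * (b.dfc : ℕ) ≤
      n * (ps.sum : ℕ) + 2 * den * ((n % 2 : ℕ) : ℝ) := by
    exact_mod_cast s6'
  have s8 : (2 / (n : ℝ)) * ((b.dfc : ℝ) - ((n % 2 : ℕ) : ℝ)) ≤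
      (ps.sum : ℕ) / (den : ℝ) - (qs.sum : ℕ) / (den : ℝ) := by
    rw [div_mul_eq_mul_div, ← sub_div, div_le_div_iff₀ hn hd]
    nlinarith
  linarith

theorem lapSpec_sim {b b' : B} (h : Sim b b') : lapSpec b.graph = lapSpec b'.graph := by
  have hprod : ∀ t : ℝ, ((lapSpec b.graph).map (fun μ => t - μ)).prod =
      ((lapSpec b'.graph).map (fun μ => t - μ)).prod := by
    intro t
    have h1 := det_rec b ((t : ℂ) - 2)
    have h2 := det_rec b' ((t : ℂ) - 2)
    rw [h.1, ← h2] at h1
    have key : ∀ M : Multiset ℝ, (M.map (fun μ : ℝ => (μ : ℂ) - 2 - ((t : ℂ) - 2))).prod =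
        (((-1) ^ M.card * (M.map (fun μ => t - μ)).prod : ℝ) : ℂ) := by
      intro M
      induction M using Multiset.induction with
      | empty => simp
      | cons a M ih =>
        rw [Multiset.map_cons, Multiset.prod_cons, ih, Multiset.card_cons, Multiset.map_cons,
          Multiset.prod_cons]
        push_cast
        ring
    rw [key, key, card_lapSpec, card_lapSpec, card_V, card_V, h.2.2] at h1
    have h3 := Complex.ofReal_injective h1
    exact mul_left_cancel₀ (pow_ne_zero _ (by norm_num)) h3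
  have hpoly : ((lapSpec b.graph).map (fun μ => (X : ℝ[X]) - C μ)).prod =
      ((lapSpec b'.graph).map (fun μ => (X : ℝ[X]) - C μ)).prod := by
    refine Polynomial.funext fun t => ?_
    have key : ∀ M : Multiset ℝ, ((M.map (fun μ => (X : ℝ[X]) - C μ)).prod).eval t =
        (M.map (fun μ => t - μ)).prod := by
      intro M
      induction M using Multiset.induction with
      | empty => simp
      | cons a M ih =>
        rw [Multiset.map_cons, Multiset.prod_cons, eval_mul, ih, Multiset.map_cons,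
          Multiset.prod_cons]
        simp
    rw [key, key, hprod]
  have h1 := Polynomial.roots_multiset_prod_X_sub_C (lapSpec b.graph)
  have h2 := Polynomial.roots_multiset_prod_X_sub_C (lapSpec b'.graph)
  rw [← h1, ← h2, hpoly]

end Pool.Agent.H59.Sm

namespace Pool.Agent.H59

theorem small (b : B) (hb : b.size ≤ 16) (hc : ∀ c ∈ b.children, 2 * c.size ≤ b.size) :
    (2 / (b.size : ℝ)) * ((b.dfc : ℝ) - ((b.size % 2 : ℕ) : ℝ))
      + ((lapSpec (SimpleGraph.pathGraph b.size)).map (fun μ => |μ - 2|)).sum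
      ≤ ((lapSpec b.graph).map (fun μ => |μ - 2|)).sum := by
  obtain ⟨b', hsim, htst⟩ := Sm.run_spec b.size (Sm.B.size_pos b) hb b rfl hc
  have h1 := Sm.small_aux b.size (Sm.B.size_pos b) hb b' hsim.2.2.symm htst
  obtain ⟨e⟩ := leg_iso_path (b.size - 1)
  have hpos := Sm.B.size_pos b
  have h2 := lapSpec_iso e
  have h3 : b.size - 1 + 1 = b.size := by omega
  rw [h3] at h2
  have h4 : b'.dfc = b.dfc := by unfold B.dfc; rw [hsim.2.1]
  rw [h2, h4, ← Sm.lapSpec_sim hsim] at h1
  exact h1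

end Pool.Agent.H59
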