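import Pool.Agent.H59.Iso
import Pool.Agent.H59.Centroid
import Pool.Agent.H59.Det
import Pool.Agent.H59.Inertia
import Pool.Agent.H59.Path
import Pool.Agent.H59.Account3
import Pool.Agent.H59.Small

set_option autoImplicit false

/-!
# The path minimises the Laplacian energy among trees
-/

namespace Pool.Agent.H59

open B

/-- Laplacian energy of a graph with average degree `2 - 2/n`. -/
noncomputable def LE {V : Type} [Fintype V] (G : SimpleGraph V) (n : ℕ) : ℝ :=
  ((lapSpec G).map (fun μ => |μ - (2 - 2 / (n : ℝ))|)).sum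

noncomputable def E0 {V : Type} [Fintype V] (G : SimpleGraph V) : ℝ :=
  ((lapSpec G).map (fun μ => |μ - 2|)).sum

theorem shift_sum (M : Multiset ℝ) {u : ℝ} (hu : 0 ≤ u) :
    (M.map (fun μ => |μ - 2|)).sum
      + u * (2 * ((M.filter (fun μ => 2 ≤ μ)).card : ℝ) - (M.card : ℝ))
      ≤ (M.map (fun μ => |μ - (2 - u)|)).sum := by
  induction M using Multiset.induction_on with
  | empty => simp
  | cons a M ih =>
    simp only [Multiset.map_cons, Multiset.sum_cons, Multiset.card_cons]
    by_cases ha : 2 ≤ a
    · rw [Multiset.filter_cons_of_pos _ ha]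
      simp only [Multiset.card_cons]
      push_cast
      have h1 : |a - 2| = a - 2 := abs_of_nonneg (by linarith)
      have h2 : |a - (2 - u)| = a - (2 - u) := abs_of_nonneg (by linarith)
      rw [h1, h2]
      nlinarith
    · rw [Multiset.filter_cons_of_neg _ ha]
      push_cast
      have h1 : |a - 2| ≤ |a - (2 - u)| + u := by
        have := abs_sub_abs_le_abs_sub (a - 2) (a - (2 - u))
        have h3 : |a - 2 - (a - (2 - u))| = u := by
          rw [show a - 2 - (a - (2 - u)) = -u by ring, abs_neg, abs_of_nonneg hu]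
        linarith
      nlinarith

/-- `LE(T) ≥ E₀(T) - (2/n) * (number of unmatched vertices)`. -/
theorem LE_ge (b : B) : E0 b.graph - 2 / (b.size : ℝ) * (b.dfc : ℝ) ≤ LE b.graph b.size := by
  have hu : (0 : ℝ) ≤ 2 / (b.size : ℝ) := by positivity
  have h := shift_sum (lapSpec b.graph) hu
  have hi := inertia b
  have hc : (lapSpec b.graph).card = b.size := by rw [card_lapSpec, card_V]
  rw [hc] at h
  have hi' : (b.size : ℝ) ≤ 2 * (((lapSpec b.graph).filter (fun μ => 2 ≤ μ)).card : ℝ) + (b.dfc : ℝ) := by
    exact_mod_cast hi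
  unfold E0 LE
  nlinarith [mul_le_mul_of_nonneg_left hi' hu]

theorem E0_iso {V W : Type} [Fintype V] [Fintype W] {G : SimpleGraph V} {H : SimpleGraph W}
    (e : G ≃g H) : E0 G = E0 H := by
  unfold E0; rw [lapSpec_iso e]

theorem LE_iso {V W : Type} [Fintype V] [Fintype W] {G : SimpleGraph V} {H : SimpleGraph W}
    (e : G ≃g H) (n : ℕ) : LE G n = LE H n := by
  unfold LE; rw [lapSpec_iso e]

theorem mul_pos_spec (b : B) {x : ℝ} (hx : 0 < x) :
    Real.log (F (qq x) b) = ((lapSpec b.graph).map (fun μ => Real.log ((μ - 2) ^ 2 + x ^ 2))).sum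
      + 2 * ((lapSpec b.graph).card : ℝ) * Real.log (qq x) := by
  have hc : (lapSpec b.graph).card = b.size := by rw [card_lapSpec, card_V]
  rw [← normsq b x hx, hc]
  have h1 : ∀ M : Multiset ℝ, 0 < (M.map (fun μ => (μ - 2) ^ 2 + x ^ 2)).prod ∧
      Real.log ((M.map (fun μ => (μ - 2) ^ 2 + x ^ 2)).prod)
        = (M.map (fun μ => Real.log ((μ - 2) ^ 2 + x ^ 2))).sum := by
    intro M
    induction M using Multiset.induction_on with
    | empty => simp
    | cons a M ih =>
      have ha : 0 < (a - 2) ^ 2 + x ^ 2 := by positivity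
      simp only [Multiset.map_cons, Multiset.prod_cons, Multiset.sum_cons]
      exact ⟨mul_pos ha ih.1, by rw [Real.log_mul ha.ne' ih.1.ne', ih.2]⟩
  have hq : 0 < qq x := qq_pos
  rw [Real.log_mul (h1 _).1.ne' (by positivity), (h1 _).2, Real.log_pow]
  push_cast
  ring

/-- Lower bound for the energy from a root valuation. -/
theorem LE_of_RVal {b : B} {τ : ℝ} (h : RVal (2 / (b.size : ℝ)) b (-(τ * (2 / (b.size : ℝ))))) :
    4 * (b.size : ℝ) / Real.pi - τ * (2 / (b.size : ℝ)) ≤ LE b.graph b.size := by
  obtain ⟨f, g, h1, h2, h3⟩ := h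
  have hc : (lapSpec b.graph).card = b.size := by rw [card_lapSpec, card_V]
  have h4 := coulson_LG (lapSpec b.graph) f g h1 (fun x hx => by
    rw [← mul_pos_spec b hx]; exact h2 x hx)
  rw [hc] at h4
  have h5 := LE_ge b
  unfold E0 at h5
  linarith

theorem size_eq_of_iso {b b' : B} (e : Nonempty (b.graph ≃g b'.graph)) : b.size = b'.size := by
  rw [← card_V, ← card_V]
  exact Fintype.card_congr e.some.toEquiv

/-- Trees with at least 17 vertices. -/
theorem big (b : B) (hb : 17 ≤ b.size) :
    LE (SimpleGraph.pathGraph b.size) b.size ≤ LE b.graph b.size := by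
  rcases reroot b with ⟨n, ⟨e⟩⟩ | ⟨b', ⟨e⟩, hgood⟩
  · -- the path itself
    have h1 : b.size = n + 1 := by
      rw [size_eq_of_iso ⟨e⟩, ← card_V]
      obtain ⟨e'⟩ := leg_iso_path n
      rw [Fintype.card_congr e'.toEquiv]
      simp
    obtain ⟨e'⟩ := leg_iso_path n
    rw [h1, LE_iso (e.trans e')]
  · have hs : b.size = b'.size := size_eq_of_iso ⟨e⟩
    rw [hs, LE_iso e]
    rw [hs] at hb
    have hn : (17 : ℝ) ≤ (b'.size : ℝ) := by exact_mod_cast hb
    have hu0 : (0 : ℝ) ≤ 2 / (b'.size : ℝ) := by positivity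
    have hu : 2 / (b'.size : ℝ) ≤ 2 / 17 := by
      apply div_le_div_of_nonneg_left (by norm_num) (by norm_num) hn
    have hbr : ∀ c : B, Br (2 / (b'.size : ℝ)) c := fun c => branch hu0 hu c.size c le_rfl
    rcases Nat.even_or_odd b'.size with he | ho
    · have h18 : 18 ≤ b'.size := by
        rcases he with ⟨m, hm⟩; omega
      have h18' : (18 : ℝ) ≤ (b'.size : ℝ) := by exact_mod_cast h18
      have hu' : 2 / (b'.size : ℝ) ≤ 1 / 9 := by
        rw [div_le_div_iff₀ (by linarith) (by norm_num)]
        linarith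
      have key : RVal (2 / (b'.size : ℝ)) b' (-((1047 / 2000) * (2 / (b'.size : ℝ)))) := by
        rcases hgood with ⟨A, i, j, rfl⟩ | h4
        · exact root3 hu0 (by linarith) (by linarith) A (hbr A) i j (by norm_num) (by norm_num)
        · exact rootL hu0 hu (by linarith) h4 (fun c _ => (hbr c).val)
      have h5 := LE_of_RVal key
      have h6 := path_energy_even b'.size (by omega) he
      unfold LE at h5 ⊢
      linarith
    · have key : RVal (2 / (b'.size : ℝ)) b' (-((737 / 1000) * (2 / (b'.size : ℝ)))) := by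
        rcases hgood with ⟨A, i, j, rfl⟩ | h4
        · exact root3 hu0 (by linarith) (by linarith) A (hbr A) i j (by norm_num) (by norm_num)
        · exact rootL hu0 hu (by linarith) h4 (fun c _ => (hbr c).val)
      have h5 := LE_of_RVal key
      have h6 := path_energy_odd b'.size hb ho
      unfold LE at h5 ⊢
      linarith

/-- Trees with at most 16 vertices. -/
theorem smallLE (b : B) (hb : b.size ≤ 16) :
    LE (SimpleGraph.pathGraph b.size) b.size ≤ LE b.graph b.size := by
  obtain ⟨b', ⟨e⟩, hc⟩ := centroid b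
  have hs : b.size = b'.size := size_eq_of_iso ⟨e⟩
  rw [hs, LE_iso e]
  have h1 := small b' (by omega) hc
  have h2 := LE_ge b'
  have h3 := path_energy_rel b'.size (size_pos b')
  unfold E0 at h2
  unfold LE at h2 ⊢
  rw [h3]
  linarith

theorem all (b : B) : LE (SimpleGraph.pathGraph b.size) b.size ≤ LE b.graph b.size := by
  rcases le_or_gt b.size 16 with h | h
  · exact smallLE b h
  · exact big b h

theorem card_path_edges (m : ℕ) : Nat.card (SimpleGraph.pathGraph (m + 1)).edgeSet = m := by
  have f : Fin m ≃ (SimpleGraph.pathGraph (m + 1)).edgeSet := by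
    refine Equiv.ofBijective (fun i => ⟨s(i.castSucc, i.succ), ?_⟩) ⟨?_, ?_⟩
    · rw [SimpleGraph.mem_edgeSet, SimpleGraph.pathGraph_adj]
      left; simp
    · intro i j hij
      simp only [Subtype.mk.injEq, Sym2.eq_iff] at hij
      rcases hij with h | h
      · exact Fin.castSucc_injective m h.1
      · have h1 := congrArg Fin.val h.1
        have h2 := congrArg Fin.val h.2
        simp at h1 h2
        omega
    · rintro ⟨e, he⟩
      induction e using Sym2.ind with
      | _ x y =>
        rw [SimpleGraph.mem_edgeSet, SimpleGraph.pathGraph_adj] at he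
        rcases he with h | h
        · refine ⟨⟨x.val, by have := y.isLt; omega⟩, ?_⟩
          apply Subtype.ext
          simp only [Sym2.eq_iff]
          left
          exact ⟨Fin.ext rfl, Fin.ext (by simp; exact h)⟩
        · refine ⟨⟨y.val, by have := x.isLt; omega⟩, ?_⟩
          apply Subtype.ext
          simp only [Sym2.eq_iff]
          right
          exact ⟨Fin.ext rfl, Fin.ext (by simp; exact h)⟩
  rw [← Nat.card_congr f]
  simp

theorem card_tree_edges {n : ℕ} (T : SimpleGraph (Fin n)) (hT : T.IsTree) :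
    Nat.card T.edgeSet + 1 = n := by
  classical
  have h := hT.card_edgeFinset
  rw [Fintype.card_fin] at h
  refine Eq.trans ?_ h
  congr 1
  rw [Nat.card_eq_fintype_card, SimpleGraph.edgeFinset_card]

theorem main (n : ℕ) (T : SimpleGraph (Fin n)) (hT : T.IsTree) :
    LE (SimpleGraph.pathGraph n) n ≤ LE T n := by
  obtain ⟨b, ⟨e⟩⟩ := exists_iso T hT
  have hs : b.size = n := by
    rw [← card_V, Fintype.card_congr e.toEquiv, Fintype.card_fin]
  have := all b
  rw [hs] at this
  rwa [← LE_iso e]

end Pool.Agent.H59
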