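import Pool.Agent.H59.SmallSem

set_option autoImplicit false

/-!
# Kernel enumeration of small trees: bounds on coefficients and uniqueness
-/

namespace Pool.Agent.H59.Sm

open Polynomial

/-- The sum of the absolute values of the coefficients is at most `v`. -/
def MB (p : ℤ[X]) (v : ℤ) : Prop := ∃ q : ℤ[X], (∀ k, |p.coeff k| ≤ q.coeff k) ∧ q.eval 1 ≤ v

theorem eval_one_nonneg {q : ℤ[X]} (hq : ∀ k, 0 ≤ q.coeff k) : 0 ≤ q.eval 1 := by
  rw [eval_eq_sum_range]
  exact Finset.sum_nonneg fun i _ => by simpa using hq i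

theorem coeff_le_eval_one {q : ℤ[X]} (hq : ∀ k, 0 ≤ q.coeff k) (k : ℕ) :
    q.coeff k ≤ q.eval 1 := by
  rw [eval_eq_sum_range]
  by_cases hk : k ≤ q.natDegree
  · have := Finset.single_le_sum (f := fun i => q.coeff i * 1 ^ i)
      (s := Finset.range (q.natDegree + 1)) (fun i _ => by simpa using hq i)
      (Finset.mem_range.mpr (by omega : k < q.natDegree + 1))
    simpa using this
  · rw [coeff_eq_zero_of_natDegree_lt (by omega)]
    exact Finset.sum_nonneg fun i _ => by simpa using hq i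

theorem MB.coeff {p : ℤ[X]} {v : ℤ} (h : MB p v) (k : ℕ) : |p.coeff k| ≤ v := by
  obtain ⟨q, hq, hv⟩ := h
  exact (hq k).trans ((coeff_le_eval_one (fun k => (abs_nonneg _).trans (hq k)) k).trans hv)

theorem MB.nonneg {p : ℤ[X]} {v : ℤ} (h : MB p v) : 0 ≤ v := (abs_nonneg _).trans (h.coeff 0)

theorem MB.mono {p : ℤ[X]} {v v' : ℤ} (h : MB p v) (hv : v ≤ v') : MB p v' := by
  obtain ⟨q, hq, h⟩ := h
  exact ⟨q, hq, h.trans hv⟩

theorem MB.add {p p' : ℤ[X]} {v v' : ℤ} (h : MB p v) (h' : MB p' v') : MB (p + p') (v + v') := by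
  obtain ⟨q, hq, h⟩ := h
  obtain ⟨q', hq', h'⟩ := h'
  refine ⟨q + q', fun k => ?_, ?_⟩
  · rw [coeff_add, coeff_add]
    exact (abs_add_le _ _).trans (add_le_add (hq k) (hq' k))
  · rw [eval_add]
    exact add_le_add h h'

theorem MB.neg {p : ℤ[X]} {v : ℤ} (h : MB p v) : MB (-p) v := by
  obtain ⟨q, hq, h⟩ := h
  exact ⟨q, fun k => by rw [coeff_neg, abs_neg]; exact hq k, h⟩

theorem MB.sub {p p' : ℤ[X]} {v v' : ℤ} (h : MB p v) (h' : MB p' v') : MB (p - p') (v + v') := by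
  rw [sub_eq_add_neg]
  exact h.add h'.neg

theorem MB.mul {p p' : ℤ[X]} {v v' : ℤ} (h : MB p v) (h' : MB p' v') : MB (p * p') (v * v') := by
  have hv := h.nonneg
  obtain ⟨q, hq, h⟩ := h
  obtain ⟨q', hq', h'⟩ := h'
  refine ⟨q * q', fun k => ?_, ?_⟩
  · rw [coeff_mul, coeff_mul]
    refine (Finset.abs_sum_le_sum_abs _ _).trans (Finset.sum_le_sum fun i _ => ?_)
    rw [abs_mul]
    exact mul_le_mul (hq _) (hq' _) (abs_nonneg _) ((abs_nonneg _).trans (hq _))
  · rw [eval_mul]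
    exact mul_le_mul h h' (eval_one_nonneg fun k => (abs_nonneg _).trans (hq' k)) hv

theorem MB.C (a : ℤ) : MB (C a) |a| := by
  refine ⟨Polynomial.C |a|, fun k => ?_, ?_⟩
  · rw [coeff_C, coeff_C]
    split_ifs <;> simp
  · rw [eval_C]

theorem MB.X : MB (X : ℤ[X]) 1 := by
  refine ⟨Polynomial.X, fun k => ?_, ?_⟩
  · rw [coeff_X]
    split_ifs <;> simp
  · rw [eval_X]

theorem MB.one : MB (1 : ℤ[X]) 1 := by simpa using MB.C 1

theorem MB.pow {p : ℤ[X]} {v : ℤ} (h : MB p v) (n : ℕ) : MB (p ^ n) (v ^ n) := by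
  induction n with
  | zero => simpa using MB.one
  | succ n ih => rw [pow_succ, pow_succ]; exact ih.mul h

theorem DR_bound (w : ℤ[X]) (hw : MB w 1) (b : B) : ∃ p r : ℤ, 0 ≤ r ∧ r ≤ p ∧
    2 * (p + r) ≤ 6 ^ b.size ∧ MB ((DR w b).1 + (DR w b).2) p ∧ MB (DR w b).2 r := by
  induction b with
  | one =>
    refine ⟨2, 1, by norm_num, by norm_num, by norm_num [B.size], ?_, MB.one⟩
    have h : (DR w B.one).1 + (DR w B.one).2 = -1 - w := by
      simp only [DR]
      ring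
    rw [h]
    exact (MB.one.neg).sub hw
  | graft a c iha ihc =>
    obtain ⟨p, r, h1, h2, h3, h4, h5⟩ := iha
    obtain ⟨p', r', g1, g2, g3, g4, g5⟩ := ihc
    refine ⟨p * p' + r * r' + r * p', r * p', mul_nonneg h1 (g1.trans g2), ?_, ?_, ?_, ?_⟩
    · nlinarith [mul_nonneg (h1.trans h2) (g1.trans g2), mul_nonneg h1 g1]
    · have hs : (6 : ℤ) ^ (B.graft a c).size = 6 ^ a.size * 6 ^ c.size := by
        rw [← pow_add]; rfl
      rw [hs]
      have : 2 * (p + r) * (2 * (p' + r')) ≤ (6 : ℤ) ^ a.size * 6 ^ c.size :=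
        mul_le_mul h3 g3 (by linarith) (by positivity)
      nlinarith [mul_nonneg (h1.trans h2) (g1.trans g2), mul_nonneg h1 g1,
        mul_nonneg (sub_nonneg.mpr h2) (g1.trans g2), mul_nonneg h1 (g1.trans g2),
        mul_nonneg (h1.trans h2) g1]
    · simp only [DR]
      exact ((h4.mul g4).sub (h5.mul g5)).add (h5.mul g4)
    · simp only [DR]
      exact h5.mul g4

theorem DR_MB (w : ℤ[X]) (hw : MB w 1) (b : B) : ∃ v : ℤ, 0 ≤ v ∧ 2 * v ≤ 6 ^ b.size ∧
    MB (DR w b).1 v := by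
  obtain ⟨p, r, h1, h2, h3, h4, h5⟩ := DR_bound w hw b
  refine ⟨p + r, by linarith, h3, ?_⟩
  have := h4.sub h5
  rwa [add_sub_cancel_right] at this

/-- The polynomial of a tree. -/
noncomputable def FP (b : B) : ℤ[X] := (DR (X : ℤ[X]) b).1 * (DR (-X : ℤ[X]) b).1

theorem FP_MB (b : B) : ∃ v : ℤ, 0 ≤ v ∧ 4 * v ≤ 6 ^ (2 * b.size) ∧ MB (FP b) v := by
  obtain ⟨v, h1, h2, h3⟩ := DR_MB X MB.X b
  obtain ⟨v', h1', h2', h3'⟩ := DR_MB (-X) MB.X.neg b
  refine ⟨v * v', mul_nonneg h1 h1', ?_, h3.mul h3'⟩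
  have : 2 * v * (2 * v') ≤ (6 : ℤ) ^ b.size * 6 ^ b.size :=
    mul_le_mul h2 h2' (by linarith) (by positivity)
  rw [two_mul b.size, pow_add]
  linarith

theorem FP_eval (b : B) (w : ℤ) : (FP b).eval w = (DR w b).1 * (DR (-w) b).1 := by
  unfold FP
  rw [eval_mul]
  have h1 := (DR_map (evalRingHom w) X b).1
  have h2 := (DR_map (evalRingHom w) (-X) b).1
  rw [map_neg] at h2
  simp only [coe_evalRingHom, eval_X] at h1 h2
  rw [h1, h2]

theorem FP_aeval (b : B) (w : ℂ) : aeval w (FP b) = (Dc w b).1 * (Dc (-w) b).1 := by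
  unfold FP
  rw [map_mul]
  have h1 := (DR_map (aeval (R := ℤ) w).toRingHom X b).1
  have h2 := (DR_map (aeval (R := ℤ) w).toRingHom (-X) b).1
  rw [map_neg] at h2
  simp only [AlgHom.toRingHom_eq_coe, RingHom.coe_coe, aeval_X, DR_complex] at h1 h2
  rw [h1, h2]

/-- The multiplier. -/
noncomputable def MP (den : ℕ) (ps : List ℕ) : ℤ[X] :=
  (ps.map (fun p : ℕ => Polynomial.C ((p : ℤ) ^ 2) - Polynomial.C ((den : ℤ) ^ 2) * X ^ 2)).prod

theorem MP_MB (den : ℕ) (ps : List ℕ) : MB (MP den ps) (mulB den ps : ℕ) := by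
  induction ps with
  | nil => simpa [MP, mulB] using MB.one
  | cons p ps ih =>
    have h : MP den (p :: ps) =
        (Polynomial.C ((p : ℤ) ^ 2) - Polynomial.C ((den : ℤ) ^ 2) * X ^ 2) * MP den ps := rfl
    have h' : mulB den (p :: ps) = (den ^ 2 + p ^ 2) * mulB den ps := rfl
    rw [h, h', Nat.cast_mul]
    refine MB.mul ?_ ih
    have h1 := (MB.C ((p : ℤ) ^ 2)).sub ((MB.C ((den : ℤ) ^ 2)).mul (MB.X.pow 2))
    refine h1.mono ?_
    rw [abs_of_nonneg (by positivity), abs_of_nonneg (by positivity)]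
    push_cast
    linarith

theorem MP_eval (den : ℕ) (hden : 1 ≤ den) (ps : List ℕ) (hps : ∀ p ∈ ps, p ≤ KW) :
    (MP den ps).eval (KW : ℤ) = (-1) ^ ps.length * (mulA den ps : ℕ) := by
  induction ps with
  | nil => simp [MP, mulA]
  | cons p ps ih =>
    have h : MP den (p :: ps) =
        (Polynomial.C ((p : ℤ) ^ 2) - Polynomial.C ((den : ℤ) ^ 2) * X ^ 2) * MP den ps := rfl
    have h' : mulA den (p :: ps) = (den ^ 2 * KW ^ 2 - p ^ 2) * mulA den ps := rfl
    have hp := hps p List.mem_cons_self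
    have hle : p ^ 2 ≤ den ^ 2 * KW ^ 2 := by
      calc p ^ 2 ≤ KW ^ 2 := Nat.pow_le_pow_left hp 2
        _ = 1 * KW ^ 2 := (one_mul _).symm
        _ ≤ den ^ 2 * KW ^ 2 := Nat.mul_le_mul_right _ (Nat.one_le_pow _ _ hden)
    rw [h, h', eval_mul, ih fun p hp => hps p (List.mem_cons_of_mem _ hp), Nat.cast_mul,
      Nat.cast_sub hle, List.length_cons, pow_succ]
    simp only [eval_sub, eval_C, eval_mul, eval_pow, eval_X]
    push_cast
    ring

theorem MP_aeval (den : ℕ) (ps : List ℕ) (x : ℝ) :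
    aeval (Complex.I * (x : ℂ)) (MP den ps) =
      (((ps.map (fun p : ℕ => (p : ℝ) ^ 2 + (den : ℝ) ^ 2 * x ^ 2)).prod : ℝ) : ℂ) := by
  induction ps with
  | nil => simp [MP]
  | cons p ps ih =>
    have h : MP den (p :: ps) =
        (Polynomial.C ((p : ℤ) ^ 2) - Polynomial.C ((den : ℤ) ^ 2) * X ^ 2) * MP den ps := rfl
    rw [h, map_mul, ih, List.map_cons, List.prod_cons]
    simp only [map_sub, map_mul, map_pow, aeval_X, aeval_C, mul_pow, Complex.I_sq]
    push_cast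
    simp

/-- Uniqueness: a polynomial with small coefficients is determined by its value. -/
theorem eq_zero_of_eval {W : ℤ} (hW : 0 < W) (k : ℕ) : ∀ P : ℤ[X], (∀ j, |P.coeff j| < W) →
    P.eval W = 0 → P.coeff k = 0 := by
  have key : ∀ P : ℤ[X], (∀ j, |P.coeff j| < W) → P.eval W = 0 →
      P.coeff 0 = 0 ∧ P.divX.eval W = 0 := by
    intro P hP h0
    have h1 : P.divX.eval W * W + P.coeff 0 = 0 := by
      conv_rhs => rw [← h0, ← divX_mul_X_add P]
      simp
    have h2 : P.coeff 0 = 0 := by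
      have hdvd : W ∣ P.coeff 0 := ⟨- P.divX.eval W, by linarith⟩
      exact Int.eq_zero_of_abs_lt_dvd hdvd (hP 0)
    refine ⟨h2, ?_⟩
    rw [h2, add_zero] at h1
    rcases mul_eq_zero.mp h1 with h | h
    · exact h
    · exact absurd h hW.ne'
  induction k with
  | zero => exact fun P hP h0 => (key P hP h0).1
  | succ k ih =>
    intro P hP h0
    have h := ih P.divX (fun j => by rw [coeff_divX]; exact hP _) (key P hP h0).2
    rwa [coeff_divX] at h

theorem eq_of_eval {W : ℤ} (hW : 0 < W) {P Q : ℤ[X]} (h : ∀ j, |P.coeff j| + |Q.coeff j| < W)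
    (he : P.eval W = Q.eval W) : P = Q := by
  ext k
  have := eq_zero_of_eval hW k (P - Q) (fun j => by
    rw [coeff_sub]
    exact lt_of_le_of_lt (abs_sub _ _) (h j)) (by rw [eval_sub, he, sub_self])
  rw [coeff_sub] at this
  linarith

end Pool.Agent.H59.Sm
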