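import Mathlib
import Pool.Agent.H59.Defs

set_option autoImplicit false

/-!
# Kernel enumeration of small trees: definitions
-/

namespace Pool.Agent.H59.Sm

/-- State of a rooted tree under construction: products over the branches at `w = -KW` (`ap`, `bp`)
and at `w = KW` (`am`, `bm`, absolute values), number of children, matching data. -/
structure Ac where
  ap : ℕ
  bp : ℕ
  am : ℕ
  bm : ℕ
  k : ℕ
  fr : Bool
  d : ℕ

/-- Data of a finished branch. -/
structure Br where
  pp : ℕ
  rp : ℕ
  pm : ℕ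
  rm : ℕ
  fr : Bool
  d : ℕ

/-- The base. -/
def KW : ℕ := 2 ^ 112

/-- Finish a branch. -/
def fin (x : Ac) : Br :=
  ⟨(KW + x.k - 1) * x.ap - x.bp, x.ap, (KW + 1 - x.k) * x.am - x.bm, x.am, x.fr, x.d⟩

/-- Attach a branch. -/
def step (x : Ac) (y : Br) : Ac :=
  ⟨x.ap * y.pp, x.bp * y.pp + x.ap * y.rp, x.am * y.pm, x.bm * y.pm + x.am * y.rm, x.k + 1,
    !y.fr && x.fr, x.d + y.d + (if y.fr && !x.fr then 1 else 0)⟩

/-- The initial state. -/
def ac0 : Ac := ⟨1, 0, 1, 0, 0, true, 0⟩

/-- The state of a tree. -/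
def acc : B → Ac
  | B.one => ac0
  | B.graft a c => step (acc a) (fin (acc c))

/-- The enumeration of rooted trees as a list. -/
def gen (fuel : ℕ) : List (ℕ × List B) → List B → ℕ → ℕ → B → List B :=
  Nat.rec (motive := fun _ => List (ℕ × List B) → List B → ℕ → ℕ → B → List B)
    (fun _ _ _ _ _ => [])
    (fun _ ih gs xs sz N a =>
      match N with
      | 0 => [a]
      | _ =>
        match xs with
        | [] => match gs with
          | [] => []
          | g :: gs' => if g.1 ≤ N then ih gs' g.2 g.1 N a else ih gs' [] g.1 N a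
        | x :: xs' => if sz ≤ N then ih gs (x :: xs') sz (N - sz) (B.graft a x) ++ ih gs xs' sz N a
            else ih gs [] sz N a) fuel

/-- Groups of trees of sizes `h, h - 1, …, 1`. -/
def grp : ℕ → List (ℕ × List B)
  | 0 => []
  | h + 1 => (h + 1, gen 1000 (grp h) [] 0 h B.one) :: grp h

/-- The enumeration, checking a test at every complete tree. -/
def chk {α κ : Type} (stp : α → κ → α) (test : α → Bool) (fuel : ℕ) :
    List (ℕ × List κ) → List κ → ℕ → ℕ → α → Bool :=
  Nat.rec (motive := fun _ => List (ℕ × List κ) → List κ → ℕ → ℕ → α → Bool)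
    (fun _ _ _ _ _ => false)
    (fun _ ih gs xs sz N a =>
      match N with
      | 0 => test a
      | _ =>
        match xs with
        | [] => match gs with
          | [] => true
          | g :: gs' => match Nat.ble g.1 N with
            | true => ih gs' g.2 g.1 N a
            | false => ih gs' [] g.1 N a
        | x :: xs' => match Nat.ble sz N with
            | true => match ih gs (x :: xs') sz (N - sz) (stp a x) with
              | true => ih gs xs' sz N a
              | false => false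
            | false => ih gs [] sz N a) fuel

/-- Boolean equality of trees. -/
def beqB : B → B → Bool
  | B.one, B.one => true
  | B.graft a c, B.graft a' c' => beqB a a' && beqB c c'
  | _, _ => false

/-- The product `∏ (den² KW² - p²)`. -/
def mulA (den : ℕ) (ps : List ℕ) : ℕ :=
  ps.foldr (fun p a => (den ^ 2 * KW ^ 2 - p ^ 2) * a) 1

/-- `∏ (den² + p²)`. -/
def mulB (den : ℕ) (ps : List ℕ) : ℕ := ps.foldr (fun p a => (den ^ 2 + p ^ 2) * a) 1

/-- The offset: digits `v` at the odd places. -/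
def offs (v : ℕ) (K : ℕ) : Bool → ℕ :=
  Nat.rec (motive := fun _ => Bool → ℕ) (fun _ => 0)
    (fun _ r b => match b with
      | true => v + 2 ^ 224 * r false
      | false => 2 ^ 224 * r true) K

/-- All digits equal to `v`. -/
def repAll (v : ℕ) (K : ℕ) : ℕ :=
  Nat.rec (motive := fun _ => ℕ) 0 (fun _ r => v + 2 ^ 224 * r) K

/-- `|det (L - 2 + KW)|`. -/
def Dp (s : Ac) : ℕ := (KW + s.k - 2) * s.ap - s.bp

/-- `|det (L - 2 - KW)|`. -/
def Dm (s : Ac) : ℕ := (KW + 2 - s.k) * s.am - s.bm

/-- Precomputed data of a multiplier. -/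
structure Alt where
  bb : ℕ
  na : ℕ
  off : ℕ
  mask : ℕ
  big : ℕ
  ev : Bool

/-- Multiplier data. -/
def mkAlt (n : ℕ) (np : ℕ) (t : ℕ × List ℕ × List ℕ) : Alt :=
  ⟨mulA t.1 t.2.2, np * mulA t.1 t.2.1,
   offs (2 ^ 110 - 1) (n + t.2.1.length + 1) false,
   repAll (2 ^ 224 - 2 ^ 110) (n + t.2.1.length + 1),
   (2 ^ 224) ^ (n + t.2.1.length + 1), (n + t.2.1.length) % 2 == 0⟩

/-- The main test. -/
def okAlt (nb : ℕ) (t : Alt) : Bool :=
  match t.ev with
  | true => Nat.ble t.na (nb * t.bb + t.off) &&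
      (Nat.beq (Nat.land (nb * t.bb + t.off - t.na) t.mask) 0) &&
        Nat.blt (nb * t.bb + t.off - t.na) t.big
  | false => Nat.ble (nb * t.bb) (t.na + t.off) &&
      (Nat.beq (Nat.land (t.na + t.off - nb * t.bb) t.mask) 0) &&
        Nat.blt (t.na + t.off - nb * t.bb) t.big

/-- The number of unmatched vertices. -/
def dd (s : Ac) : ℕ := if s.fr then s.d + 1 else s.d

/-- The test of one tree. -/
def tst (tbl : List (List Alt)) (s : Ac) : Bool :=
  (tbl.getD (dd s) []).any (okAlt (Dp s * Dm s))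

/-- The value for the path. -/
def leg0 (n : ℕ) : ℕ := Dp (acc (B.leg n)) * Dm (acc (B.leg n))

/-- The multipliers: `rows n` is a list indexed by `d`. -/
def rows : ℕ → List (List (ℕ × List ℕ × List ℕ))
  | 1 => [[], [(1, [], [])]]
  | 2 => [[(1, [], [])]]
  | 3 => [[], [(1, [], [])]]
  | 4 => [[(1, [], [])], [], [(2, [2], [0])]]
  | 5 => [[], [(1, [], [])], [], [(2, [4], [2])]]
  | 6 => [[(1, [], [])], [], [(30, [20], [0])], [], [(2, [6], [3])]]
  | 7 => [[], [(1, [], [])], [], [(2, [4], [2])], [], [(2, [7], [4])]]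
  | 8 => [[(1, [], [])], [], [(2, [1], [0])], [], [(2, [4], [2])], [], [(2, [7], [4])]]
  | 9 => [[], [(1, [], [])], [], [(2, [2], [1])], [], [(2, [4], [2])], [], [(2, [8], [5])]]
  | 10 => [[(1, [], [])], [], [(5, [12], [10])], [], [(2, [4], [2])], [], [(2, [6], [3])], [],
      [(2, [10], [6])]]
  | 11 => [[], [(1, [], []), (5, [4, 13], [5, 12])], [], [(2, [3], [2])], [], [(2, [4], [2])], [],
      [(2, [7], [4])], [], [(2, [10], [7])]]
  | 12 => [[(1, [], [])], [], [(5, [13], [11])], [], [(2, [5], [3])], [], [(2, [4], [2])], [],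
      [(2, [7], [4])], [], [(2, [12], [8])]]
  | 13 => [[], [(1, [], []), (5, [8, 3], [5, 6])], [], [(2, [4], [3])], [], [(2, [5], [3])], [],
      [(2, [5], [3])], [], [(2, [8], [5])], [], [(2, [14], [10])]]
  | 14 => [[(1, [], []), (5, [16, 33], [19, 30])], [], [(5, [13], [11])], [], [(2, [5], [3])], [],
      [(2, [4], [2])], [], [(2, [8], [5])], [], [(2, [9], [6])], [], [(2, [14], [10])]]
  | 15 => [[], [(1, [], []), (5, [4, 12], [6, 10])], [], [(2, [4], [3])], [], [(2, [6], [4])], [],
      [(2, [6], [4])], [], [(2, [9], [6])], [], [(2, [11], [8])], [], [(2, [14], [10])]]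
  | 16 => [[(1, [], []), (5, [20, 1], [8, 13])], [], [(4, [7], [6])], [], [(2, [3], [2])], [],
      [(2, [5], [3])], [], [(2, [5], [3])], [], [(2, [10], [7])], [], [(2, [13], [10])], [],
      [(2, [14], [10])]]
  | _ => []

/-- Branch data of groups. -/
def brs (g : List (ℕ × List B)) : List (ℕ × List Br) :=
  g.map (fun p => (p.1, p.2.map (fun c => fin (acc c))))

/-- The test table for `n` vertices. -/
def tab (n : ℕ) : List (List Alt) := (rows n).map (fun l => l.map (mkAlt n (leg0 (n - 1))))

/-- The check for all trees with `n` vertices. -/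
def run (n : ℕ) : Bool := chk step (tst (tab n)) 1000 (brs (grp (n / 2))) [] 0 (n - 1) ac0

/-- Static conditions on a multiplier. -/
def stat (n d : ℕ) (t : ℕ × List ℕ × List ℕ) : Bool :=
  Nat.ble 1 t.1 && Nat.beq t.2.1.length t.2.2.length &&
  Nat.ble (6 ^ (2 * n) * (mulB t.1 t.2.1 + mulB t.1 t.2.2)) (2 ^ 111) &&
  t.2.1.all (fun p => Nat.ble p KW) && t.2.2.all (fun p => Nat.ble p KW) &&
  Nat.ble (n * t.2.2.sum + 2 * t.1 * d) (n * t.2.1.sum + 2 * t.1 * (n % 2))

/-- All static conditions for `n`. -/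
def statAll (n : ℕ) : Bool :=
  ((rows n).zipIdx.all (fun x => x.1.all (stat n x.2)))

end Pool.Agent.H59.Sm
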