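import Pool.Agent.H59.SmallRun

set_option autoImplicit false

/-!
# Kernel enumeration of small trees: completeness of the enumeration
-/

namespace Pool.Agent.H59.Sm

theorem B.size_pos (b : B) : 1 ≤ b.size := by
  induction b with
  | one => exact le_rfl
  | graft a c iha _ => exact le_trans iha (Nat.le_add_right _ _)

/-- Same semantic data. -/
def Sim (b b' : B) : Prop := (∀ w, Dc w b = Dc w b') ∧ b.fd = b'.fd ∧ b.size = b'.size

theorem Sim.refl (b : B) : Sim b b := ⟨fun _ => rfl, rfl, rfl⟩

theorem Sim.symm {b b' : B} (h : Sim b b') : Sim b' b :=
  ⟨fun w => (h.1 w).symm, h.2.1.symm, h.2.2.symm⟩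

theorem Sim.trans {b b' b'' : B} (h : Sim b b') (h' : Sim b' b'') : Sim b b'' :=
  ⟨fun w => (h.1 w).trans (h'.1 w), h.2.1.trans h'.2.1, h.2.2.trans h'.2.2⟩

theorem Sim.graft {a a' c c' : B} (h : Sim a a') (h' : Sim c c') :
    Sim (B.graft a c) (B.graft a' c') := by
  refine ⟨fun w => ?_, ?_, ?_⟩
  · simp only [Dc, h.1 w, h'.1 w]
  · simp only [B.fd, h.2.1, h'.2.1]
  · simp only [B.size, h.2.2, h'.2.2]

theorem Sim.swap (a c d : B) : Sim (B.graft (B.graft a c) d) (B.graft (B.graft a d) c) := by
  refine ⟨fun w => ?_, ?_, ?_⟩
  · simp only [Dc]
    ext <;> simp only <;> ring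
  · rcases ha : a.fd with ⟨fa, da⟩
    rcases hc : c.fd with ⟨fc, dc⟩
    rcases hd : d.fd with ⟨fd, dd⟩
    cases fa <;> cases fc <;> cases fd <;> simp [B.fd, ha, hc, hd] <;> omega
  · simp only [B.size]
    omega

/-- Attach a list of branches. -/
def build (a : B) (cs : List B) : B := cs.foldl B.graft a

theorem Sim.build_left {a a' : B} (h : Sim a a') (cs : List B) : Sim (build a cs) (build a' cs) := by
  induction cs generalizing a a' with
  | nil => exact h
  | cons c cs ih => exact ih (h.graft (Sim.refl c))

theorem Sim.build_perm {cs cs' : List B} (h : cs.Perm cs') :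
    ∀ a, Sim (build a cs) (build a cs') := by
  induction h with
  | nil => exact fun a => Sim.refl _
  | cons x _ ih => exact fun a => ih _
  | swap x y l => exact fun a => Sim.build_left (Sim.swap a y x) l
  | trans _ _ ih1 ih2 => exact fun a => (ih1 a).trans (ih2 a)

theorem Sim.build_forall {cs cs' : List B} (h : List.Forall₂ Sim cs cs') :
    ∀ {a a' : B}, Sim a a' → Sim (build a cs) (build a' cs') := by
  induction h with
  | nil => exact fun h => h
  | cons h1 _ ih => exact fun h => ih (h.graft h1)

theorem build_children (b : B) : b = build B.one b.children.reverse := by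
  induction b with
  | one => rfl
  | graft a c iha _ =>
    simp only [B.children, List.reverse_cons, build, List.foldl_append, List.foldl_cons,
      List.foldl_nil]
    congr 1

/-- Total size. -/
def tot (cs : List B) : ℕ := (cs.map B.size).sum

theorem size_build (a : B) (cs : List B) : (build a cs).size = a.size + tot cs := by
  induction cs generalizing a with
  | nil => simp [build, tot]
  | cons c cs ih =>
    have := ih (B.graft a c)
    simp only [build, List.foldl_cons] at this ⊢
    rw [this]
    simp only [tot, List.map_cons, List.sum_cons, B.size]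
    omega

theorem tot_perm {cs cs' : List B} (h : cs.Perm cs') : tot cs = tot cs' :=
  (h.map _).sum_eq

/-- `cs` is chosen from the list of candidates, in the order of the candidates. -/
inductive Fol : List B → List B → Prop
  | nil : Fol [] []
  | skip {x : B} {C cs : List B} : Fol C cs → Fol (x :: C) cs
  | use {x : B} {C cs : List B} : Fol (x :: C) cs → Fol (x :: C) (x :: cs)

theorem Fol.nil_right {C : List B} : Fol C [] := by
  induction C with
  | nil => exact Fol.nil
  | cons x C ih => exact Fol.skip ih

theorem Fol.drop_large {l C cs : List B} (h : Fol (l ++ C) cs) (hl : ∀ x ∈ l, x ∉ cs) :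
    Fol C cs := by
  induction l with
  | nil => exact h
  | cons x l ih =>
    rw [List.cons_append] at h
    cases h with
    | skip h => exact ih h fun y hy => hl y (List.mem_cons_of_mem _ hy)
    | use h => exact absurd List.mem_cons_self (hl x List.mem_cons_self)

theorem size_le_tot {x : B} {cs : List B} (h : x ∈ cs) : x.size ≤ tot cs :=
  List.le_sum_of_mem (List.mem_map_of_mem h)

theorem exists_fol (C : List B) : ∀ l : List B, (∀ x ∈ l, x ∈ C) → ∃ l', l'.Perm l ∧ Fol C l' := by
  classical
  induction C with
  | nil =>
    intro l hl
    have : l = [] := by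
      cases l with
      | nil => rfl
      | cons x l => exact absurd (hl x List.mem_cons_self) List.not_mem_nil
    subst this
    exact ⟨[], List.Perm.refl _, Fol.nil⟩
  | cons x C ih =>
    intro l hl
    obtain ⟨l2, hp, hf⟩ := ih (l.filter (fun y => ¬ (y = x))) (by
      intro y hy
      rw [List.mem_filter] at hy
      have h1 := hl y hy.1
      rcases List.mem_cons.mp h1 with h2 | h2
      · simp [h2] at hy
      · exact h2)
    have key : ∀ m : List B, (∀ y ∈ m, y = x) → Fol (x :: C) (m ++ l2) := by
      intro m
      induction m with
      | nil => exact fun _ => Fol.skip hf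
      | cons y m ih' =>
        intro hm
        have hy := hm y List.mem_cons_self
        subst hy
        exact Fol.use (ih' fun z hz => hm z (List.mem_cons_of_mem _ hz))
    refine ⟨l.filter (fun y => y = x) ++ l2, ?_, key _ ?_⟩
    · refine (List.Perm.append_left _ hp).trans ?_
      have := List.filter_append_perm (fun y => decide (y = x)) l
      convert this using 3
      simp
    · intro y hy
      rw [List.mem_filter] at hy
      simpa using hy.2

theorem chk_zero {α κ : Type} (stp : α → κ → α) (test : α → Bool) (gs : List (ℕ × List κ))
    (xs : List κ) (sz N : ℕ) (a : α) : chk stp test 0 gs xs sz N a = false := rfl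

theorem chk_spec {α κ : Type} (h : B → α) (f : B → κ) (stp : α → κ → α)
    (hs : ∀ a c, h (B.graft a c) = stp (h a) (f c)) (test : α → Bool) (fuel : ℕ) :
    ∀ (gs : List (ℕ × List B)) (xs : List B) (sz N : ℕ) (a : B),
      chk stp test fuel (gs.map (fun p => (p.1, p.2.map f))) (xs.map f) sz N (h a) = true →
      (∀ g ∈ gs, ∀ x ∈ g.2, x.size = g.1) → (∀ x ∈ xs, x.size = sz) →
      ∀ cs, Fol (xs ++ gs.flatMap (fun p => p.2)) cs → tot cs = N →
        test (h (build a cs)) = true := by
  induction fuel with
  | zero =>
    intro gs xs sz N a hc
    exact absurd hc (by simp [chk_zero])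
  | succ fuel ih =>
    intro gs xs sz N a hc hgs hxs cs hfol htot
    rcases N with _ | N
    · -- `N = 0`
      have hcs : cs = [] := by
        cases cs with
        | nil => rfl
        | cons c cs =>
          exfalso
          have h1 := B.size_pos c
          have h2 := size_le_tot (List.mem_cons_self (a := c) (l := cs))
          omega
      subst hcs
      exact hc
    · rcases xs with _ | ⟨x, xs⟩
      · rcases gs with _ | ⟨g, gs⟩
        · exfalso
          have hcs : cs = [] := by
            simp only [List.nil_append, List.flatMap_nil] at hfol
            cases hfol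
            rfl
          subst hcs
          simp [tot] at htot
        · -- next group
          have hgs' : ∀ g' ∈ gs, ∀ x ∈ g'.2, x.size = g'.1 :=
            fun g' hg' => hgs g' (List.mem_cons_of_mem _ hg')
          have hg : ∀ x ∈ g.2, x.size = g.1 := hgs g List.mem_cons_self
          have hfol' : Fol (g.2 ++ gs.flatMap (fun p => p.2)) cs := by
            simpa [List.flatMap_cons] using hfol
          change (match Nat.ble g.1 (N + 1) with
            | true => chk stp test fuel (gs.map (fun p => (p.1, p.2.map f))) (g.2.map f) g.1
                (N + 1) (h a)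
            | false => chk stp test fuel (gs.map (fun p => (p.1, p.2.map f))) [] g.1 (N + 1)
                (h a)) = true at hc
          rcases hb : Nat.ble g.1 (N + 1) with _ | _
          · rw [hb] at hc
            have hgt : N + 1 < g.1 := by
              by_contra hle
              rw [Nat.ble_eq_true_of_le (by omega)] at hb
              exact absurd hb (by decide)
            refine ih gs [] g.1 (N + 1) a hc hgs' (by simp) cs ?_ htot
            rw [List.nil_append]
            refine hfol'.drop_large fun y hy hy' => ?_
            have h1 := size_le_tot hy'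
            have h2 := hg y hy
            omega
          · rw [hb] at hc
            exact ih gs g.2 g.1 (N + 1) a hc hgs' hg cs hfol' htot
      · have hx : x.size = sz := hxs x List.mem_cons_self
        have hxs' : ∀ y ∈ xs, y.size = sz := fun y hy => hxs y (List.mem_cons_of_mem _ hy)
        change (match Nat.ble sz (N + 1) with
            | true => match chk stp test fuel (gs.map (fun p => (p.1, p.2.map f)))
                ((x :: xs).map f) sz (N + 1 - sz) (stp (h a) (f x)) with
              | true => chk stp test fuel (gs.map (fun p => (p.1, p.2.map f))) (xs.map f) sz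
                  (N + 1) (h a)
              | false => false
            | false => chk stp test fuel (gs.map (fun p => (p.1, p.2.map f))) [] sz (N + 1)
                (h a)) = true at hc
        rcases hb : Nat.ble sz (N + 1) with _ | _
        · rw [hb] at hc
          have hgt : N + 1 < sz := by
            by_contra hle
            rw [Nat.ble_eq_true_of_le (by omega)] at hb
            exact absurd hb (by decide)
          refine ih gs [] sz (N + 1) a hc hgs (by simp) cs ?_ htot
          rw [List.nil_append]
          refine hfol.drop_large fun y hy hy' => ?_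
          have h1 := size_le_tot hy'
          have h2 := hxs y hy
          omega
        · rw [hb] at hc
          rcases hb' : chk stp test fuel (gs.map (fun p => (p.1, p.2.map f)))
                ((x :: xs).map f) sz (N + 1 - sz) (stp (h a) (f x)) with _ | _
          · rw [hb'] at hc
            exact absurd hc (by simp)
          · rw [hb'] at hc
            rw [List.cons_append] at hfol
            cases hfol with
            | skip hfol => exact ih gs xs sz (N + 1) a hc hgs hxs' cs hfol htot
            | @use _ _ cs' hfol =>
              rw [← hs] at hb'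
              have htot' : tot cs' = N + 1 - sz := by
                simp only [tot, List.map_cons, List.sum_cons] at htot ⊢
                omega
              exact ih gs (x :: xs) sz (N + 1 - sz) (B.graft a x) hb' hgs hxs cs' hfol htot'

theorem beqB_eq : ∀ b b' : B, beqB b b' = true → b = b' := by
  intro b
  induction b with
  | one =>
    intro b' h
    cases b' with
    | one => rfl
    | graft _ _ => exact absurd h (by simp [beqB])
  | graft a c iha ihc =>
    intro b' h
    cases b' with
    | one => exact absurd h (by simp [beqB])
    | graft a' c' =>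
      simp only [beqB, Bool.and_eq_true] at h
      rw [iha a' h.1, ihc c' h.2]

theorem grp_sizes' {h : ℕ} (hh : h ≤ 8) : ∀ g ∈ grp h, ∀ x ∈ g.2, x.size = g.1 := by
  have h1 := List.all_eq_true.mp grp_sizes h (List.mem_range.mpr (by omega))
  intro g hg x hx
  have h2 := List.all_eq_true.mp h1 g hg
  have h3 := List.all_eq_true.mp h2 x hx
  exact Nat.eq_of_beq_eq_true h3

/-- Candidates of size at most `h`. -/
def cand (h : ℕ) : List B := (grp h).flatMap (fun p => p.2)

theorem children_size (b : B) : tot b.children.reverse + 1 = b.size := by
  have h := size_build B.one b.children.reverse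
  rw [← build_children] at h
  rw [h]
  simp [B.size]
  omega

/-- Replace every branch by a candidate and sort. -/
theorem exists_sorted {h : ℕ} (cs : List B) (hcs : ∀ c ∈ cs, ∃ c' ∈ cand h, Sim c c') :
    ∃ cs', Fol (cand h) cs' ∧ tot cs' = tot cs ∧ ∀ a, Sim (build a cs) (build a cs') := by
  have h1 : ∃ cs1 : List B, (∀ x ∈ cs1, x ∈ cand h) ∧ List.Forall₂ Sim cs cs1 := by
    induction cs with
    | nil => exact ⟨[], by simp, List.Forall₂.nil⟩
    | cons c cs ih =>
      obtain ⟨c', hc', hs⟩ := hcs c List.mem_cons_self
      obtain ⟨cs1, hm, hf⟩ := ih fun c hc => hcs c (List.mem_cons_of_mem _ hc)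
      refine ⟨c' :: cs1, ?_, List.Forall₂.cons hs hf⟩
      intro x hx
      rcases List.mem_cons.mp hx with h | h
      · rw [h]; exact hc'
      · exact hm x h
  obtain ⟨cs1, hm, hf⟩ := h1
  obtain ⟨cs2, hp, hfol⟩ := exists_fol (cand h) cs1 hm
  refine ⟨cs2, hfol, ?_, fun a => ?_⟩
  · rw [tot_perm hp]
    clear hm hp hcs
    induction hf with
    | nil => rfl
    | cons h1 _ ih =>
      simp only [tot, List.map_cons, List.sum_cons] at ih ⊢
      rw [h1.2.2, ih]
  · exact (Sim.build_forall hf (Sim.refl a)).trans (Sim.build_perm hp.symm a)

theorem cand_complete (h : ℕ) (hh : h ≤ 8) : ∀ b : B, b.size ≤ h → ∃ c ∈ cand h, Sim b c := by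
  induction h with
  | zero =>
    intro b hb
    have := B.size_pos b
    omega
  | succ h ih =>
    intro b hb
    have ih' := ih (by omega)
    have hcand : cand (h + 1) = gen 1000 (grp h) [] 0 h B.one ++ cand h := rfl
    by_cases hb' : b.size ≤ h
    · obtain ⟨c, hc, hs⟩ := ih' b hb'
      exact ⟨c, by rw [hcand]; exact List.mem_append_right _ hc, hs⟩
    · have hsz : b.size = h + 1 := by omega
      have hch := children_size b
      obtain ⟨cs', hfol, htot, hsim⟩ := exists_sorted (h := h) b.children.reverse (by
        intro c hc
        have := size_le_tot hc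
        exact ih' c (by omega))
      have hstep := List.all_eq_true.mp grp_step h (List.mem_range.mpr (by omega))
      have hmap : (grp h).map (fun p => (p.1, p.2.map (fun x : B => x))) = grp h := by
        simp
      have hspec := chk_spec (fun b => b) (fun b => b) B.graft (fun _ _ => rfl)
        (fun t => (gen 1000 (grp h) [] 0 h B.one).any (beqB t)) 1000 (grp h) [] 0 h B.one
        (by rw [hmap]; exact hstep) (grp_sizes' (by omega)) (by simp) cs'
        (by rw [List.nil_append]; exact hfol) (by omega)
      obtain ⟨t, ht, hbt⟩ := List.any_eq_true.mp hspec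
      have heq := beqB_eq _ _ hbt
      refine ⟨build B.one cs', ?_, ?_⟩
      · rw [hcand, heq]
        exact List.mem_append_left _ ht
      · have := hsim B.one
        rwa [← build_children] at this

/-- The result of the enumeration. -/
theorem run_spec (n : ℕ) (h1 : 1 ≤ n) (h2 : n ≤ 16) (b : B) (hb : b.size = n)
    (hc : ∀ c ∈ b.children, 2 * c.size ≤ n) :
    ∃ b', Sim b b' ∧ tst (tab n) (acc b') = true := by
  have hch := children_size b
  obtain ⟨cs', hfol, htot, hsim⟩ := exists_sorted (h := n / 2) b.children.reverse (by
    intro c hc'
    have := hc c (List.mem_reverse.mp hc')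
    exact cand_complete (n / 2) (by omega) c (by omega))
  refine ⟨build B.one cs', ?_, ?_⟩
  · have := hsim B.one
    rwa [← build_children] at this
  · exact chk_spec acc (fun c => fin (acc c)) step (fun _ _ => rfl) (tst (tab n)) 1000
      (grp (n / 2)) [] 0 (n - 1) B.one (run_all n h1 h2) (grp_sizes' (by omega)) (by simp) cs'
      (by rw [List.nil_append]; exact hfol) (by omega)

end Pool.Agent.H59.Sm
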