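import Pool.Agent.H59.SmallDefs

set_option autoImplicit false

/-!
# Kernel enumeration of small trees: the checks
-/

namespace Pool.Agent.H59.Sm

theorem run_1 : run 1 = true := by decide +kernel
theorem run_2 : run 2 = true := by decide +kernel
theorem run_3 : run 3 = true := by decide +kernel
theorem run_4 : run 4 = true := by decide +kernel
theorem run_5 : run 5 = true := by decide +kernel
theorem run_6 : run 6 = true := by decide +kernel
theorem run_7 : run 7 = true := by decide +kernel
theorem run_8 : run 8 = true := by decide +kernel
theorem run_9 : run 9 = true := by decide +kernel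
theorem run_10 : run 10 = true := by decide +kernel
theorem run_11 : run 11 = true := by decide +kernel
theorem run_12 : run 12 = true := by decide +kernel
theorem run_13 : run 13 = true := by decide +kernel
theorem run_14 : run 14 = true := by decide +kernel
theorem run_15 : run 15 = true := by decide +kernel
theorem run_16 : run 16 = true := by decide +kernel

theorem run_all (n : ℕ) (h1 : 1 ≤ n) (h2 : n ≤ 16) : run n = true := by
  obtain rfl | rfl | rfl | rfl | rfl | rfl | rfl | rfl | rfl | rfl | rfl | rfl | rfl | rfl | rfl |
    rfl : n = 1 ∨ n = 2 ∨ n = 3 ∨ n = 4 ∨ n = 5 ∨ n = 6 ∨ n = 7 ∨ n = 8 ∨ n = 9 ∨ n = 10 ∨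
      n = 11 ∨ n = 12 ∨ n = 13 ∨ n = 14 ∨ n = 15 ∨ n = 16 := by omega
  · exact run_1
  · exact run_2
  · exact run_3
  · exact run_4
  · exact run_5
  · exact run_6
  · exact run_7
  · exact run_8
  · exact run_9
  · exact run_10
  · exact run_11
  · exact run_12
  · exact run_13
  · exact run_14
  · exact run_15
  · exact run_16

theorem stat_all : ((List.range 17).all statAll) = true := by decide +kernel

/-- Sizes in the groups. -/
theorem grp_sizes : ((List.range 9).all
    (fun h => (grp h).all (fun g => g.2.all (fun x => Nat.beq x.size g.1)))) = true := by
  decide +kernel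

/-- The lists of trees are complete (one step). -/
theorem grp_step : ((List.range 8).all
    (fun h => chk B.graft (fun t => (gen 1000 (grp h) [] 0 h B.one).any (beqB t)) 1000 (grp h)
      [] 0 h B.one)) = true := by
  decide +kernel

end Pool.Agent.H59.Sm
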