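import Pool.Agent.H59.SmallDefs

set_option autoImplicit false

/-!
# Kernel enumeration of small trees: meaning of the states
-/

namespace Pool.Agent.H59.Sm

/-- `Dc` over a commutative ring. -/
def DR {R : Type} [CommRing R] (w : R) : B → R × R
  | B.one => (-2 - w, 1)
  | B.graft a c =>
    (((DR w a).1 + (DR w a).2) * ((DR w c).1 + (DR w c).2) - (DR w a).2 * (DR w c).2,
      (DR w a).2 * ((DR w c).1 + (DR w c).2))

theorem DR_map {R S : Type} [CommRing R] [CommRing S] (f : R →+* S) (w : R) (b : B) :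
    (DR (f w) b).1 = f (DR w b).1 ∧ (DR (f w) b).2 = f (DR w b).2 := by
  induction b with
  | one =>
    constructor
    · change -2 - f w = f (-2 - w)
      rw [map_sub, map_neg, map_ofNat]
    · change (1 : S) = f 1
      rw [map_one]
  | graft a c iha ihc =>
    simp only [DR, iha.1, iha.2, ihc.1, ihc.2, map_sub, map_mul, map_add, and_self]

theorem DR_complex (w : ℂ) (b : B) : DR w b = Dc w b := by
  induction b with
  | one => rfl
  | graft a c iha ihc => simp only [DR, Dc, iha, ihc]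

/-- The invariants of the states. -/
structure Inv (b : B) (s : Ac) : Prop where
  k_lt : s.k < b.size
  bp_le : s.bp ≤ s.k * s.ap
  bm_le : s.bm ≤ s.k * s.am
  Rp : (DR (-(KW : ℤ)) b).2 = s.ap
  Dp : (DR (-(KW : ℤ)) b).1 = ((KW : ℤ) + s.k - 2) * s.ap - s.bp
  Rm : (DR (KW : ℤ) b).2 = (-1) ^ (b.size + 1) * s.am
  Dm : (DR (KW : ℤ) b).1 = (-1) ^ b.size * (((KW : ℤ) + 2 - s.k) * s.am - s.bm)
  fr : b.fd.1 = s.fr
  d : b.fd.2 = s.d

theorem KW_big : 100 ≤ KW := by unfold KW; norm_num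

/-- The data of a finished branch. -/
theorem Inv.fin_spec {b : B} {s : Ac} (h : Inv b s) (hb : b.size ≤ 16) :
    (fin s).rp ≤ (fin s).pp ∧ (fin s).rm ≤ (fin s).pm ∧
    ((fin s).pp : ℤ) = (DR (-(KW : ℤ)) b).1 + (DR (-(KW : ℤ)) b).2 ∧
    ((fin s).rp : ℤ) = (DR (-(KW : ℤ)) b).2 ∧
    (DR (KW : ℤ) b).1 + (DR (KW : ℤ) b).2 = (-1) ^ b.size * ((fin s).pm : ℤ) ∧
    (DR (KW : ℤ) b).2 = (-1) ^ (b.size + 1) * ((fin s).rm : ℤ) := by
  have hKW := KW_big
  have hk := h.k_lt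
  have e1 : s.bp ≤ (KW + s.k - 1) * s.ap := h.bp_le.trans (Nat.mul_le_mul_right _ (by omega))
  have e2 : s.bm ≤ (KW + 1 - s.k) * s.am := h.bm_le.trans (Nat.mul_le_mul_right _ (by omega))
  have e3 : s.bp + s.ap ≤ (KW + s.k - 1) * s.ap := by
    calc s.bp + s.ap ≤ s.k * s.ap + s.ap := Nat.add_le_add_right h.bp_le _
      _ = (s.k + 1) * s.ap := by ring
      _ ≤ _ := Nat.mul_le_mul_right _ (by omega)
  have e4 : s.bm + s.am ≤ (KW + 1 - s.k) * s.am := by
    calc s.bm + s.am ≤ s.k * s.am + s.am := Nat.add_le_add_right h.bm_le _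
      _ = (s.k + 1) * s.am := by ring
      _ ≤ _ := Nat.mul_le_mul_right _ (by omega)
  have c1 : ((KW + s.k - 1 : ℕ) : ℤ) = (KW : ℤ) + s.k - 1 := by
    rw [Nat.cast_sub (by omega)]; push_cast; ring
  have c2 : ((KW + 1 - s.k : ℕ) : ℤ) = (KW : ℤ) + 1 - s.k := by
    rw [Nat.cast_sub (by omega)]; push_cast; ring
  refine ⟨?_, ?_, ?_, ?_, ?_, ?_⟩
  · change s.ap ≤ (KW + s.k - 1) * s.ap - s.bp
    omega
  · change s.am ≤ (KW + 1 - s.k) * s.am - s.bm
    omega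
  · change (((KW + s.k - 1) * s.ap - s.bp : ℕ) : ℤ) = _
    rw [Nat.cast_sub e1, Nat.cast_mul, c1, h.Dp, h.Rp]
    ring
  · exact h.Rp.symm
  · change _ = (-1) ^ b.size * (((KW + 1 - s.k) * s.am - s.bm : ℕ) : ℤ)
    rw [Nat.cast_sub e2, Nat.cast_mul, c2, h.Dm, h.Rm, pow_succ]
    ring
  · exact h.Rm

theorem acc_inv (b : B) : b.size ≤ 16 → Inv b (acc b) := by
  have hKW := KW_big
  induction b with
  | one =>
    intro _
    refine ⟨?_, ?_, ?_, ?_, ?_, ?_, ?_, rfl, rfl⟩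
    · change 0 < 1
      omega
    · exact Nat.zero_le _
    · exact Nat.zero_le _
    · change (1 : ℤ) = ((1 : ℕ) : ℤ)
      simp
    · change -2 - -(KW : ℤ) = ((KW : ℤ) + ((0 : ℕ) : ℤ) - 2) * ((1 : ℕ) : ℤ) - ((0 : ℕ) : ℤ)
      push_cast
      ring
    · change (1 : ℤ) = (-1) ^ (1 + 1) * ((1 : ℕ) : ℤ)
      norm_num
    · change -2 - (KW : ℤ)
        = (-1) ^ 1 * (((KW : ℤ) + 2 - ((0 : ℕ) : ℤ)) * ((1 : ℕ) : ℤ) - ((0 : ℕ) : ℤ))
      push_cast
      ring
  | graft a c iha ihc =>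
    intro hsz
    have hsz' : a.size + c.size ≤ 16 := hsz
    have hA := iha (by omega)
    have hC := ihc (by omega)
    obtain ⟨f1, f2, f3, f4, f5, f6⟩ := hC.fin_spec (by omega)
    have hcp : 1 ≤ c.size := by
      have := hC.k_lt
      omega
    have hacc : acc (B.graft a c) = step (acc a) (fin (acc c)) := rfl
    rw [hacc]
    clear hacc
    have hfr : (fin (acc c)).fr = (acc c).fr := rfl
    have hd : (fin (acc c)).d = (acc c).d := rfl
    generalize fin (acc c) = y at *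
    generalize acc a = x at *
    have g1 := hA.k_lt
    have g2 := hA.bp_le
    have g3 := hA.bm_le
    refine ⟨?_, ?_, ?_, ?_, ?_, ?_, ?_, ?_, ?_⟩
    · change x.k + 1 < a.size + c.size
      omega
    · change x.bp * y.pp + x.ap * y.rp ≤ (x.k + 1) * (x.ap * y.pp)
      calc x.bp * y.pp + x.ap * y.rp ≤ x.k * x.ap * y.pp + x.ap * y.pp :=
            Nat.add_le_add (Nat.mul_le_mul_right _ g2) (Nat.mul_le_mul_left _ f1)
        _ = _ := by ring
    · change x.bm * y.pm + x.am * y.rm ≤ (x.k + 1) * (x.am * y.pm)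
      calc x.bm * y.pm + x.am * y.rm ≤ x.k * x.am * y.pm + x.am * y.pm :=
            Nat.add_le_add (Nat.mul_le_mul_right _ g3) (Nat.mul_le_mul_left _ f2)
        _ = _ := by ring
    · change (DR (-(KW : ℤ)) a).2 * ((DR (-(KW : ℤ)) c).1 + (DR (-(KW : ℤ)) c).2)
        = ((x.ap * y.pp : ℕ) : ℤ)
      rw [hA.Rp, ← f3]
      push_cast
      ring
    · change ((DR (-(KW : ℤ)) a).1 + (DR (-(KW : ℤ)) a).2) *
          ((DR (-(KW : ℤ)) c).1 + (DR (-(KW : ℤ)) c).2) -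
          (DR (-(KW : ℤ)) a).2 * (DR (-(KW : ℤ)) c).2
        = ((KW : ℤ) + ((x.k + 1 : ℕ) : ℤ) - 2) * ((x.ap * y.pp : ℕ) : ℤ)
          - ((x.bp * y.pp + x.ap * y.rp : ℕ) : ℤ)
      rw [← f3, ← f4, hA.Rp, hA.Dp]
      push_cast
      ring
    · change (DR (KW : ℤ) a).2 * ((DR (KW : ℤ) c).1 + (DR (KW : ℤ) c).2)
        = (-1) ^ (a.size + c.size + 1) * ((x.am * y.pm : ℕ) : ℤ)
      rw [hA.Rm, f5]
      push_cast
      ring
    · change ((DR (KW : ℤ) a).1 + (DR (KW : ℤ) a).2) *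
          ((DR (KW : ℤ) c).1 + (DR (KW : ℤ) c).2) -
          (DR (KW : ℤ) a).2 * (DR (KW : ℤ) c).2
        = (-1) ^ (a.size + c.size) * (((KW : ℤ) + 2 - ((x.k + 1 : ℕ) : ℤ)) *
          ((x.am * y.pm : ℕ) : ℤ) - ((x.bm * y.pm + x.am * y.rm : ℕ) : ℤ))
      rw [f5, f6, hA.Rm, hA.Dm]
      push_cast
      ring
    · change (B.fd (B.graft a c)).1 = (!y.fr && x.fr)
      have h1 := hA.fr
      have h2 := hC.fr
      rw [← hfr] at h2
      rcases ha : a.fd with ⟨fa, da⟩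
      rcases hc : c.fd with ⟨fc, dc⟩
      rw [ha] at h1
      rw [hc] at h2
      simp only at h1 h2
      rw [← h1, ← h2]
      cases fa <;> cases fc <;> simp [B.fd, ha, hc]
    · change (B.fd (B.graft a c)).2 = x.d + y.d + (if y.fr && !x.fr then 1 else 0)
      have h1 := hA.fr
      have h2 := hC.fr
      have h3 := hA.d
      have h4 := hC.d
      rw [← hfr] at h2
      rw [← hd] at h4
      rcases ha : a.fd with ⟨fa, da⟩
      rcases hc : c.fd with ⟨fc, dc⟩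
      rw [ha] at h1 h3
      rw [hc] at h2 h4
      simp only at h1 h2 h3 h4
      rw [← h1, ← h2, ← h3, ← h4]
      cases fa <;> cases fc <;> simp [B.fd, ha, hc]

/-- The value computed by the test. -/
theorem DpDm (b : B) (hb : b.size ≤ 16) :
    ((Dp (acc b) * Dm (acc b) : ℕ) : ℤ) =
      (-1) ^ b.size * ((DR (KW : ℤ) b).1 * (DR (-(KW : ℤ)) b).1) := by
  have h := acc_inv b hb
  have hKW := KW_big
  have hk := h.k_lt
  have e1 : (acc b).bp ≤ (KW + (acc b).k - 2) * (acc b).ap :=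
    h.bp_le.trans (Nat.mul_le_mul_right _ (by omega))
  have e2 : (acc b).bm ≤ (KW + 2 - (acc b).k) * (acc b).am :=
    h.bm_le.trans (Nat.mul_le_mul_right _ (by omega))
  have c1 : ((KW + (acc b).k - 2 : ℕ) : ℤ) = (KW : ℤ) + (acc b).k - 2 := by
    rw [Nat.cast_sub (by omega)]; push_cast; ring
  have c2 : ((KW + 2 - (acc b).k : ℕ) : ℤ) = (KW : ℤ) + 2 - (acc b).k := by
    rw [Nat.cast_sub (by omega)]; push_cast; ring
  have h1 : ((Dp (acc b) : ℕ) : ℤ) = (DR (-(KW : ℤ)) b).1 := by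
    unfold Dp
    rw [Nat.cast_sub e1, Nat.cast_mul, c1, h.Dp]
  have h2 : (DR (KW : ℤ) b).1 = (-1) ^ b.size * ((Dm (acc b) : ℕ) : ℤ) := by
    unfold Dm
    rw [Nat.cast_sub e2, Nat.cast_mul, c2, h.Dm]
  rw [Nat.cast_mul, h1, h2]
  have h3 : ((-1 : ℤ) ^ b.size) * (-1) ^ b.size = 1 := by
    rw [← mul_pow]; norm_num
  linear_combination (-(DR (-(KW : ℤ)) b).1 * ((Dm (acc b) : ℕ) : ℤ)) * h3

theorem dd_acc (b : B) (hb : b.size ≤ 16) : dd (acc b) = b.dfc := by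
  have h := acc_inv b hb
  unfold dd B.dfc
  rw [h.fr, h.d]
  cases (acc b).fr <;> simp

end Pool.Agent.H59.Sm
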